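import Pool.Agent.Lib_helper32.NN.Dfs2

/-!
# Block MEA
-/

namespace Pool.Agent.NN

open Complex MeasureTheory Filter Topology UpperHalfPlane Matrix
open scoped MatrixGroups ENNReal ComplexConjugate

theorem jj_blocks_pr (N : ℕ) (w : R3 × R4 × R3) : jj N w = fromBlocks
    (((PI N * ma w.2.1)⁻¹)ᵀ + sy w.1 * (PI N * ma w.2.1) * sy w.2.2) (sy w.1 * (PI N * ma w.2.1))
    ((PI N * ma w.2.1) * sy w.2.2) (PI N * ma w.2.1) := by
  unfold jj
  rw [fromBlocks_multiply, fromBlocks_multiply]
  simp only [Matrix.one_mul, Matrix.mul_zero, Matrix.zero_mul, Matrix.mul_one, add_zero, zero_add]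

/-- entries of the inverse of a measurable family of `2 × 2` matrices -/
theorem mea_inv {T : Type*} [MeasurableSpace T] {A : T → M2}
    (hA : ∀ i j, Measurable fun w => A w i j) (i j : Fin 2) :
    Measurable fun w => ((A w)⁻¹) i j := by
  have h1 : ∀ w, ((A w)⁻¹) i j = (A w 0 0 * A w 1 1 - A w 0 1 * A w 1 0)⁻¹ *
      (!![A w 1 1, -A w 0 1; -A w 1 0, A w 0 0] : M2) i j := by
    intro w
    rw [Matrix.inv_def, Matrix.smul_apply, smul_eq_mul, Matrix.adjugate_fin_two,
      Ring.inverse_eq_inv', Matrix.det_fin_two]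
  simp only [h1]
  have hd : Measurable fun w => (A w 0 0 * A w 1 1 - A w 0 1 * A w 1 0)⁻¹ :=
    (((hA 0 0).mul (hA 1 1)).sub ((hA 0 1).mul (hA 1 0))).inv
  refine hd.mul ?_
  fin_cases i <;> fin_cases j
  · exact hA 1 1
  · exact (hA 0 1).neg
  · exact (hA 1 0).neg
  · exact hA 0 0

theorem mea_mul {T : Type*} [MeasurableSpace T] {A B : T → M2}
    (hA : ∀ i j, Measurable fun w => A w i j) (hB : ∀ i j, Measurable fun w => B w i j)
    (i j : Fin 2) : Measurable fun w => (A w * B w) i j := by
  simp only [Matrix.mul_apply, Fin.sum_univ_two]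
  exact ((hA i 0).mul (hB 0 j)).add ((hA i 1).mul (hB 1 j))

theorem mea_sy {T : Type*} [MeasurableSpace T] {x : T → R3} (hx : Measurable x) (i j : Fin 2) :
    Measurable fun w => sy (x w) i j := by
  fin_cases i <;> fin_cases j
  · exact measurable_fst.comp hx
  · exact measurable_fst.comp (measurable_snd.comp hx)
  · exact measurable_fst.comp (measurable_snd.comp hx)
  · exact measurable_snd.comp (measurable_snd.comp hx)

theorem mea_ma {T : Type*} [MeasurableSpace T] {x : T → R4} (hx : Measurable x) (i j : Fin 2) :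
    Measurable fun w => ma (x w) i j := by
  fin_cases i <;> fin_cases j
  · exact measurable_fst.comp hx
  · exact measurable_fst.comp (measurable_snd.comp hx)
  · exact measurable_fst.comp (measurable_snd.comp (measurable_snd.comp hx))
  · exact measurable_snd.comp (measurable_snd.comp (measurable_snd.comp hx))

theorem jj_meas_pr (N : ℕ) : Measurable (jj N) := by
  have hu : ∀ i j, Measurable fun w : R3 × R4 × R3 => (PI N * ma w.2.1) i j :=
    mea_mul (fun i j => measurable_const) (mea_ma (measurable_fst.comp measurable_snd))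
  have hx : ∀ i j, Measurable fun w : R3 × R4 × R3 => sy w.1 i j := mea_sy measurable_fst
  have hy : ∀ i j, Measurable fun w : R3 × R4 × R3 => sy w.2.2 i j :=
    mea_sy (measurable_snd.comp measurable_snd)
  have hxu := mea_mul hx hu
  have huy := mea_mul hu hy
  have hxuy := mea_mul hxu hy
  have hi := mea_inv hu
  have h0 : jj N = fun w => fromBlocks
      (((PI N * ma w.2.1)⁻¹)ᵀ + sy w.1 * (PI N * ma w.2.1) * sy w.2.2)
      (sy w.1 * (PI N * ma w.2.1)) ((PI N * ma w.2.1) * sy w.2.2) (PI N * ma w.2.1) := by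
    funext w
    exact jj_blocks_pr N w
  rw [h0]
  refine measurable_pi_iff.2 fun i => measurable_pi_iff.2 fun j => ?_
  rcases i with i | i <;> rcases j with j | j
  · exact (hi j i).add (hxuy i j)
  · exact hxu i j
  · exact huy i j
  · exact hu i j

end Pool.Agent.NN

namespace Pool.Agent.NN

theorem jj_meas : type_of% @jj_meas_pr := @jj_meas_pr

theorem jj_blocks : type_of% @jj_blocks_pr := @jj_blocks_pr

end Pool.Agent.NN
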