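import Pool.Agent.Lib_helper32.NN.Dfs2
import Pool.Agent.Lib_helper32.NNF.MEA

/-!
# Block BLK: the lower blocks
-/

namespace Pool.Agent.NN

open Complex MeasureTheory Filter Topology UpperHalfPlane Matrix
open scoped MatrixGroups ENNReal ComplexConjugate
open Pool.Agent.LEV (S2 co IsNew Lh)

theorem blk_pp_t (N : ℕ) : (PP N)ᵀ = PP N := by
  ext i j; fin_cases i <;> fin_cases j <;> simp [PP]

theorem blk_pi_inv {N : ℕ} (hN : N ≠ 0) : (PI N)⁻¹ = PP N :=
  Matrix.inv_eq_right_inv (pi_mul_pp hN)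

section group
variable (N : ℕ) [Fact N.Prime]

/-- BLK. the lower blocks of `γ x` -/
theorem cb_act_pr (g : GaN N) (x : M4) :
    cb N (act N g x) = cb N (mt N g) * x.toBlocks₁₁ + db N (mt N g) * x.toBlocks₂₁ ∧
    db N (act N g x) = cb N (mt N g) * x.toBlocks₁₂ + db N (mt N g) * x.toBlocks₂₂ := by
  unfold cb db act
  rw [bl_mul (mt N g) x, toBlocks_fromBlocks₂₁, toBlocks_fromBlocks₂₂]
  constructor
  · rw [Matrix.mul_add, Matrix.mul_assoc, Matrix.mul_assoc]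
  · rw [Matrix.mul_add, Matrix.mul_assoc, Matrix.mul_assoc]

/-- BLK. the lower blocks of `γ j(x, e, y)` -/
theorem cb_jj_pr (g : GaN N) (x : R3) (e : R4) (y : R3) (he : (ma e).det ≠ 0) :
    cb N (act N g (jj N (x, e, y))) = cb N (mt N g) * PP N * ((ma e)⁻¹)ᵀ +
      (cb N (mt N g) * sy x + db N (mt N g)) * PI N * ma e * sy y ∧
    db N (act N g (jj N (x, e, y))) = (cb N (mt N g) * sy x + db N (mt N g)) * PI N * ma e := by
  have hN : N ≠ 0 := (Fact.out : N.Prime).ne_zero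
  obtain ⟨h1, h2⟩ := cb_act_pr N g (jj N (x, e, y))
  rw [h1, h2, jj_blocks]
  simp only [toBlocks_fromBlocks₁₁, toBlocks_fromBlocks₁₂, toBlocks_fromBlocks₂₁,
    toBlocks_fromBlocks₂₂]
  have h3 : ((PI N * ma e)⁻¹)ᵀ = PP N * ((ma e)⁻¹)ᵀ := by
    rw [Matrix.mul_inv_rev, transpose_mul, blk_pi_inv hN, blk_pp_t]
  constructor
  · rw [h3]
    simp only [Matrix.mul_add, Matrix.add_mul, Matrix.mul_assoc]
    rw [add_assoc]
  · simp only [Matrix.add_mul, Matrix.mul_assoc]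

/-- BLK. the lower blocks of `j(x, e, y)` -/
theorem cb_j_pr (x : R3) (e : R4) (y : R3) :
    cb N (jj N (x, e, y)) = ma e * sy y ∧ db N (jj N (x, e, y)) = ma e := by
  have hN : N ≠ 0 := (Fact.out : N.Prime).ne_zero
  have h2 := pp_mul_pi hN
  unfold cb db
  rw [jj_blocks]
  simp only [toBlocks_fromBlocks₂₁, toBlocks_fromBlocks₂₂]
  constructor
  · rw [Matrix.mul_assoc (PI N), ← Matrix.mul_assoc (PP N), h2, Matrix.one_mul]
  · rw [← Matrix.mul_assoc (PP N), h2, Matrix.one_mul]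

/-- BLK. relations in the group -/
theorem gan_rel_pr (g : GaN N) : cb N (mt N g) ∈ OO N ∧ db N (mt N g) * PI N ∈ OO N ∧
    cb N (mt N g) * (db N (mt N g))ᵀ = db N (mt N g) * (cb N (mt N g))ᵀ := by
  obtain ⟨x1, x2, x3, x4⟩ : inG N (mt N g) := g.2
  refine ⟨x3, x4, ?_⟩
  have hs : mt N g * Matrix.J (Fin 2) ℝ * (mt N g)ᵀ = Matrix.J (Fin 2) ℝ :=
    SymplecticGroup.mem_iff.1 (g : Sp).2
  have hb : mt N g = fromBlocks (mt N g).toBlocks₁₁ (mt N g).toBlocks₁₂ (mt N g).toBlocks₂₁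
    (mt N g).toBlocks₂₂ := (fromBlocks_toBlocks _).symm
  rw [hb, fromBlocks_transpose, Matrix.J, fromBlocks_multiply, fromBlocks_multiply] at hs
  have h22 := congrArg toBlocks₂₂ hs
  simp only [toBlocks_fromBlocks₂₂] at h22
  simp only [Matrix.mul_zero, zero_add, Matrix.mul_one, add_zero, Matrix.mul_neg, Matrix.neg_mul]
    at h22
  have hk : (mt N g).toBlocks₂₁ * ((mt N g).toBlocks₂₂)ᵀ =
      (mt N g).toBlocks₂₂ * ((mt N g).toBlocks₂₁)ᵀ := by
    have h3 := add_neg_eq_zero.1 h22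
    exact h3.symm
  unfold cb db
  rw [transpose_mul, transpose_mul, ← Matrix.mul_assoc, ← Matrix.mul_assoc,
    Matrix.mul_assoc (PP N), hk, Matrix.mul_assoc (PP N) (mt N g).toBlocks₂₂]

end group


end Pool.Agent.NN

namespace Pool.Agent.NN

theorem cb_act : type_of% @cb_act_pr := @cb_act_pr

theorem cb_jj : type_of% @cb_jj_pr := @cb_jj_pr

theorem cb_j : type_of% @cb_j_pr := @cb_j_pr

theorem gan_rel : type_of% @gan_rel_pr := @gan_rel_pr

end Pool.Agent.NN
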