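import Pool.Agent.Lib_helper32.NN.Dfs2
import Pool.Agent.Lib_helper32.NNF.BLK

/-!
# NN, block CNT: counting the cosets which contribute to the theta series at a given point
-/

namespace Pool.Agent.NN

open Complex MeasureTheory Filter Topology UpperHalfPlane Matrix
open scoped MatrixGroups ENNReal ComplexConjugate
open Pool.Agent.LEV (S2 co IsNew Lh)

/-- the index set of the columns -/
abbrev cnt_I : Type := Fin 2 ⊕ Fin 2

/-- the minors -/
def cnt_p (M : Matrix (Fin 2) cnt_I ℝ) (j k : cnt_I) : ℝ := M 0 j * M 1 k - M 0 k * M 1 j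

/-- two matrices with the same minors, not all zero -/
theorem cnt_pluck {M M' : Matrix (Fin 2) cnt_I ℝ} (h : ∀ j k, cnt_p M j k = cnt_p M' j k)
    {k l : cnt_I} (h0 : cnt_p M k l ≠ 0) :
    ∃ u : M2, u.det = 1 ∧ M' = u * M := by
  set p := cnt_p M k l with hp
  have hp' : cnt_p M' k l = p := (h k l).symm
  refine ⟨!![(M' 0 k * M 1 l - M' 0 l * M 1 k) / p, (M' 0 l * M 0 k - M' 0 k * M 0 l) / p;
    (M' 1 k * M 1 l - M' 1 l * M 1 k) / p, (M' 1 l * M 0 k - M' 1 k * M 0 l) / p], ?_, ?_⟩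
  · rw [Matrix.det_fin_two_of]
    have e1 : M 0 k * M 1 l - M 0 l * M 1 k = p := rfl
    have e2 : M' 0 k * M' 1 l - M' 0 l * M' 1 k = p := hp'
    have e3 : (M' 0 k * M 1 l - M' 0 l * M 1 k) * (M' 1 l * M 0 k - M' 1 k * M 0 l) -
          (M' 0 l * M 0 k - M' 0 k * M 0 l) * (M' 1 k * M 1 l - M' 1 l * M 1 k) = p * p := by
      calc _ = (M 0 k * M 1 l - M 0 l * M 1 k) * (M' 0 k * M' 1 l - M' 0 l * M' 1 k) := by ring
        _ = p * p := by rw [e1, e2]
    rw [div_mul_div_comm, div_mul_div_comm, ← sub_div, e3, div_self (mul_ne_zero h0 h0)]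
  · ext i j
    have e1 := h j l
    have e2 := h k j
    unfold cnt_p at e1 e2 hp'
    rw [Matrix.mul_apply, Fin.sum_univ_two]
    fin_cases i
    · simp only [Fin.zero_eta, Matrix.of_apply, Matrix.cons_val', Matrix.cons_val_zero,
        Matrix.cons_val_one, Matrix.cons_val_fin_one]
      rw [div_mul_eq_mul_div, div_mul_eq_mul_div, ← add_div, eq_div_iff h0]
      linear_combination (-(M' 0 j)) * hp' - M' 0 k * e1 - M' 0 l * e2
    · simp only [Fin.mk_one, Matrix.of_apply, Matrix.cons_val', Matrix.cons_val_zero,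
        Matrix.cons_val_one, Matrix.cons_val_fin_one]
      rw [div_mul_eq_mul_div, div_mul_eq_mul_div, ← add_div, eq_div_iff h0]
      linear_combination (-(M' 1 j)) * hp' - M' 1 k * e1 - M' 1 l * e2

theorem cnt_rank {M : Matrix (Fin 2) cnt_I ℝ} {K : Matrix cnt_I (Fin 2) ℝ} (h : M * K = 1) :
    ∃ k l, cnt_p M k l ≠ 0 := by
  by_contra hc
  push Not at hc
  have hz : ∀ j, M 0 j = 0 ∧ M 1 j = 0 := by
    intro j
    have h1 : ∀ i, M 1 j * (M * K) 0 i - M 0 j * (M * K) 1 i = 0 := by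
      intro i
      rw [Matrix.mul_apply, Matrix.mul_apply, Finset.mul_sum, Finset.mul_sum,
        ← Finset.sum_sub_distrib]
      refine Finset.sum_eq_zero fun k _ => ?_
      have := hc j k
      unfold cnt_p at this
      linear_combination (-K k i) * this
    rw [h] at h1
    have h2 := h1 0
    have h3 := h1 1
    simp at h2 h3
    exact ⟨h3, h2⟩
  have h4 : (M * K) 0 0 = 0 := by
    rw [Matrix.mul_apply]
    exact Finset.sum_eq_zero fun k _ => by rw [(hz k).1, zero_mul]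
  rw [h] at h4
  simp at h4

/-- the six pairs -/
def cnt_e : Fin 6 → cnt_I × cnt_I :=
  ![(Sum.inl 0, Sum.inl 1), (Sum.inl 0, Sum.inr 0), (Sum.inl 0, Sum.inr 1),
    (Sum.inl 1, Sum.inr 0), (Sum.inl 1, Sum.inr 1), (Sum.inr 0, Sum.inr 1)]

theorem cnt_six {M M' : Matrix (Fin 2) cnt_I ℝ}
    (h : ∀ i, cnt_p M (cnt_e i).1 (cnt_e i).2 = cnt_p M' (cnt_e i).1 (cnt_e i).2) (j k : cnt_I) :
    cnt_p M j k = cnt_p M' j k := by
  have h0 := h 0
  have h1 := h 1
  have h2 := h 2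
  have h3 := h 3
  have h4 := h 4
  have h5 := h 5
  simp only [cnt_e, cnt_p] at h0 h1 h2 h3 h4 h5
  unfold cnt_p
  rcases j with j | j <;> rcases k with k | k <;> fin_cases j <;> fin_cases k <;>
    simp at h0 h1 h2 h3 h4 h5 ⊢ <;> linarith

section
variable (N : ℕ) [hN : Fact N.Prime]

/-- the matrix of the two lower blocks -/
noncomputable def cnt_M (g : GaN N) : Matrix (Fin 2) cnt_I ℝ :=
  fromCols (cb N (mt N g)) (db N (mt N g))

theorem cnt_act (g : GaN N) (x : M4) :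
    cnt_M N g * x = fromCols (cb N (act N g x)) (db N (act N g x)) := by
  conv_lhs => rw [← fromBlocks_toBlocks x]
  rw [cnt_M, fromCols_mul_fromBlocks, (cb_act N g x).1, (cb_act N g x).2]

theorem cnt_one (g : GaN N) : cnt_M N g * mt N g⁻¹ = fromCols 0 (PP N) := by
  rw [cnt_act]
  have e : act N g (mt N g⁻¹) = 1 := by
    unfold act
    have e2 : mt N (g * g⁻¹) = mt N g * mt N g⁻¹ := rfl
    have e3 : mt N (g * g⁻¹) = 1 := by rw [mul_inv_cancel]; rfl
    rw [← e2, e3]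
  rw [e]
  unfold cb db
  rw [← fromBlocks_one, toBlocks_fromBlocks₂₁, toBlocks_fromBlocks₂₂, Matrix.mul_zero,
    Matrix.mul_one]

theorem cnt_minor_ne (g : GaN N) : ∃ k l, cnt_p (cnt_M N g) k l ≠ 0 := by
  set R : Matrix cnt_I (Fin 2) ℝ := fromRows 0 (PI N) with hR
  set K : Matrix cnt_I (Fin 2) ℝ := mt N g⁻¹ * R with hK
  refine cnt_rank (K := K) ?_
  have h1 : (cnt_M N g * K : Matrix (Fin 2) (Fin 2) ℝ) = cnt_M N g * mt N g⁻¹ * R := by
    rw [hK, Matrix.mul_assoc]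
  rw [h1, cnt_one, hR, fromCols_mul_fromRows, Matrix.mul_zero, zero_add,
    pp_mul_pi hN.out.ne_zero]

theorem cnt_inj {g g' : GaN N} (h : ∀ j k, cnt_p (cnt_M N g) j k = cnt_p (cnt_M N g') j k) :
    g' * g⁻¹ ∈ PN N := by
  obtain ⟨k, l, h0⟩ := cnt_minor_ne N g
  obtain ⟨u, hu, hM⟩ := cnt_pluck h h0
  have h1 : cnt_M N g' * mt N g⁻¹ = fromCols 0 (u * PP N) := by
    rw [hM, Matrix.mul_assoc, cnt_one, mul_fromCols, Matrix.mul_zero]
  rw [cnt_act] at h1
  have h2 : act N g' (mt N g⁻¹) = mt N (g' * g⁻¹) := rfl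
  rw [h2, fromCols_ext_iff] at h1
  obtain ⟨h3, h4⟩ := h1
  unfold cb at h3
  unfold db at h4
  have hN0 := hN.out.ne_zero
  refine ⟨?_, ?_⟩
  · have h5 := congrArg (fun m => PI N * m) h3
    simp only [← Matrix.mul_assoc, pi_mul_pp hN0, Matrix.one_mul, Matrix.mul_zero] at h5
    exact h5
  · have h5 := congrArg Matrix.det h4
    rw [det_mul, det_mul, hu, one_mul] at h5
    have h6 : (PP N).det ≠ 0 := by
      rw [PP, Matrix.det_fin_two_of]
      have : (N : ℝ) ≠ 0 := by exact_mod_cast hN0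
      simpa using this
    exact mul_left_cancel₀ h6 (h5.trans (mul_one _).symm)

theorem cnt_coset {q q' : GaN N ⧸ PN N}
    (h : ∀ j k, cnt_p (cnt_M N (rp N q)) j k = cnt_p (cnt_M N (rp N q')) j k) : q = q' := by
  have h1 := cnt_inj N h
  unfold rp at h1
  rw [inv_inv] at h1
  have h2 : ((Quotient.out q' : GaN N) : GaN N ⧸ PN N) = ((Quotient.out q : GaN N) : GaN N ⧸ PN N) :=
    QuotientGroup.eq.mpr h1
  have h3 : ∀ q : GaN N ⧸ PN N, ((Quotient.out q : GaN N) : GaN N ⧸ PN N) = q := fun q =>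
    Quotient.out_eq' q
  rw [h3, h3] at h2
  exact h2.symm

theorem cnt_int (g : GaN N) (i : Fin 2) (j : cnt_I) : ∃ m : ℤ, cnt_M N g i j = m := by
  obtain ⟨h1, h2, _⟩ := gan_rel N g
  rcases j with j | j
  · obtain ⟨a, b, c, d, h⟩ := h1
    show ∃ m : ℤ, cb N (mt N g) i j = m
    rw [h]
    fin_cases i <;> fin_cases j
    · exact ⟨a, by simp⟩
    · exact ⟨b, by simp⟩
    · exact ⟨N * c, by simp⟩
    · exact ⟨d, by simp⟩
  · obtain ⟨a, b, c, d, h⟩ := h2
    have h3 : db N (mt N g) = !![(a : ℝ), (b : ℝ); (N : ℝ) * (c : ℝ), (d : ℝ)] * PP N := by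
      rw [← h, Matrix.mul_assoc, pi_mul_pp hN.out.ne_zero, Matrix.mul_one]
    show ∃ m : ℤ, db N (mt N g) i j = m
    rw [h3]
    fin_cases i <;> fin_cases j
    · exact ⟨a, by simp [PP, Matrix.mul_apply, Fin.sum_univ_two]⟩
    · exact ⟨b * N, by simp [PP, Matrix.mul_apply, Fin.sum_univ_two]⟩
    · exact ⟨N * c, by simp [PP, Matrix.mul_apply, Fin.sum_univ_two]⟩
    · exact ⟨d * N, by simp [PP, Matrix.mul_apply, Fin.sum_univ_two]⟩

theorem cnt_pint (g : GaN N) (j k : cnt_I) : ∃ m : ℤ, cnt_p (cnt_M N g) j k = m := by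
  obtain ⟨a, ha⟩ := cnt_int N g 0 j
  obtain ⟨b, hb⟩ := cnt_int N g 1 k
  obtain ⟨c, hc⟩ := cnt_int N g 0 k
  obtain ⟨d, hd⟩ := cnt_int N g 1 j
  refine ⟨a * b - c * d, ?_⟩
  unfold cnt_p
  rw [ha, hb, hc, hd]
  push_cast
  ring

/-- the minors of a product -/
theorem cnt_p_mul (e : M2) (K : Matrix (Fin 2) cnt_I ℝ) (j k : cnt_I) :
    cnt_p (e * K) j k = e.det * cnt_p K j k := by
  unfold cnt_p
  rw [Matrix.det_fin_two]
  simp only [Matrix.mul_apply, Fin.sum_univ_two]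
  ring

end

theorem cnt_entry (x : M4) (i j : Fin 2 ⊕ Fin 2) : |x i j| ≤ ∑ i, ∑ j, |x i j| := by
  refine le_trans ?_ (Finset.single_le_sum (f := fun i => ∑ j, |x i j|)
    (fun i _ => Finset.sum_nonneg fun j _ => abs_nonneg _) (Finset.mem_univ i))
  exact Finset.single_le_sum (f := fun j => |x i j|) (fun j _ => abs_nonneg _) (Finset.mem_univ j)

/-- the bound for the minors -/
theorem cnt_bound {N : ℕ} [hN : Fact N.Prime] {f : S2 N} {h : ℝ → ℝ} {t1 : ℝ} (ht1 : 0 ≤ t1)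
    (hs : ∀ t, h t ≠ 0 → t ≤ t1) {x : M4} (hx : x ∈ Matrix.symplecticGroup (Fin 2) ℝ) {g : GaN N}
    (hF : FF f h (act N g x) ≠ 0) (j k : cnt_I) :
    |cnt_p (cnt_M N g) j k| ≤ 18 * t1 * (∑ i, ∑ j, |x i j|) ^ 2 := by
  set S : ℝ := ∑ i, ∑ j, |x i j| with hS
  have hS0 : 0 ≤ S := Finset.sum_nonneg fun i _ => Finset.sum_nonneg fun j _ => abs_nonneg _
  set c := cb N (act N g x) with hc
  set e := db N (act N g x) with he
  unfold FF F0 at hF
  rw [← hc, ← he] at hF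
  have h1 : ph f e ≠ 0 := fun h0 => hF (by rw [h0]; simp)
  have h2 : h e.det ≠ 0 := fun h0 => hF (by rw [h0]; simp)
  have h3 : ∀ i j, |(e⁻¹ * c) i j| ≤ 1 := by
    by_contra h0
    exact hF (by rw [if_neg h0, mul_zero])
  have hd : 0 < e.det := by
    by_contra h0
    exact h1 (by unfold ph; rw [if_neg h0])
  have hd1 : e.det ≤ t1 := hs _ h2
  set y := e⁻¹ * c with hy
  have hey : e * y = c := by
    rw [hy, ← Matrix.mul_assoc, Matrix.mul_nonsing_inv _ (isUnit_iff_ne_zero.mpr hd.ne'),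
      Matrix.one_mul]
  -- the inverse of `x`
  set X : M4 := (((⟨x, hx⟩ : Sp)⁻¹ : Sp) : M4) with hX
  have hxX : x * X = 1 := by
    have := congrArg (fun s : Sp => (s : M4)) (mul_inv_cancel (⟨x, hx⟩ : Sp))
    exact this
  have hXb := bl_inv (⟨x, hx⟩ : Sp)
  rw [← hX] at hXb
  have hXe : ∀ i j, |X i j| ≤ S := by
    intro i j
    rw [hXb]
    rcases i with i | i <;> rcases j with j | j
    · exact cnt_entry x _ _
    · show |-(x (Sum.inl j) (Sum.inr i))| ≤ S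
      rw [abs_neg]
      exact cnt_entry x _ _
    · show |-(x (Sum.inr j) (Sum.inl i))| ≤ S
      rw [abs_neg]
      exact cnt_entry x _ _
    · exact cnt_entry x _ _
  set Y : Matrix (Fin 2) cnt_I ℝ := fromCols y 1 with hY
  set K : Matrix (Fin 2) cnt_I ℝ := Y * X with hKd
  have hM : cnt_M N g = e * K := by
    have e1 : (e * Y : Matrix (Fin 2) cnt_I ℝ) = fromCols c e := by
      rw [hY, mul_fromCols, hey, Matrix.mul_one]
    have e2 : (cnt_M N g * x * X : Matrix (Fin 2) cnt_I ℝ) = cnt_M N g := by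
      rw [Matrix.mul_assoc, hxX, Matrix.mul_one]
    rw [← e2, cnt_act, ← hc, ← he, ← e1, hKd, Matrix.mul_assoc]
  have hK : ∀ i j, |K i j| ≤ 3 * S := by
    intro i j
    rw [hKd, hY, Matrix.mul_apply, Fintype.sum_sum_type, Fin.sum_univ_two, Fin.sum_univ_two]
    simp only [fromCols_apply_inl, fromCols_apply_inr]
    have a0 := h3 i 0
    have a1 := h3 i 1
    have b0 := hXe (Sum.inl 0) j
    have b1 := hXe (Sum.inl 1) j
    have c0 := hXe (Sum.inr 0) j
    have c1 := hXe (Sum.inr 1) j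
    have d0 : |y i 0 * X (Sum.inl 0) j| ≤ S := by
      rw [abs_mul]
      calc |y i 0| * |X (Sum.inl 0) j| ≤ 1 * S :=
            mul_le_mul a0 b0 (abs_nonneg _) zero_le_one
        _ = S := one_mul S
    have d1 : |y i 1 * X (Sum.inl 1) j| ≤ S := by
      rw [abs_mul]
      calc |y i 1| * |X (Sum.inl 1) j| ≤ 1 * S :=
            mul_le_mul a1 b1 (abs_nonneg _) zero_le_one
        _ = S := one_mul S
    have d2 : |(1 : M2) i 0 * X (Sum.inr 0) j + (1 : M2) i 1 * X (Sum.inr 1) j| ≤ S := by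
      have i01 : i = 0 ∨ i = 1 := by omega
      rcases i01 with rfl | rfl
      · rw [Matrix.one_apply_eq, Matrix.one_apply_ne (by decide), one_mul, zero_mul, add_zero]
        exact c0
      · rw [Matrix.one_apply_eq, Matrix.one_apply_ne (by decide), one_mul, zero_mul, zero_add]
        exact c1
    calc |y i 0 * X (Sum.inl 0) j + y i 1 * X (Sum.inl 1) j +
          ((1 : M2) i 0 * X (Sum.inr 0) j + (1 : M2) i 1 * X (Sum.inr 1) j)|
        ≤ |y i 0 * X (Sum.inl 0) j| + |y i 1 * X (Sum.inl 1) j| +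
          |(1 : M2) i 0 * X (Sum.inr 0) j + (1 : M2) i 1 * X (Sum.inr 1) j| := by
          refine (abs_add_le _ _).trans ?_
          gcongr
          exact abs_add_le _ _
      _ ≤ 3 * S := by linarith
  rw [hM, cnt_p_mul, abs_mul, abs_of_pos hd]
  have hp : |cnt_p K j k| ≤ 18 * S ^ 2 := by
    unfold cnt_p
    have e1 : ∀ a b : cnt_I, |K 0 a * K 1 b| ≤ 9 * S ^ 2 := by
      intro a b
      rw [abs_mul]
      calc _ ≤ (3 * S) * (3 * S) := mul_le_mul (hK 0 a) (hK 1 b) (abs_nonneg _) (by positivity)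
        _ = 9 * S ^ 2 := by ring
    calc _ ≤ |K 0 j * K 1 k| + |K 0 k * K 1 j| := abs_sub _ _
      _ ≤ 9 * S ^ 2 + 9 * S ^ 2 := add_le_add (e1 j k) (e1 k j)
      _ = 18 * S ^ 2 := by ring
  calc e.det * |cnt_p K j k| ≤ t1 * (18 * S ^ 2) :=
        mul_le_mul hd1 hp (abs_nonneg _) ht1
    _ = 18 * t1 * S ^ 2 := by ring

/-- block CNT -/
theorem cnt_pr {N : ℕ} [Fact N.Prime] (f : S2 N) {h : ℝ → ℝ} (hh : HOK h) :
    ∃ C : ℝ, ∀ x ∈ Matrix.symplecticGroup (Fin 2) ℝ,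
    {q : GaN N ⧸ PN N | FF f h (act N (rp N q) x) ≠ 0}.Finite ∧
    ({q : GaN N ⧸ PN N | FF f h (act N (rp N q) x) ≠ 0}.ncard : ℝ) ≤
      C * (1 + ∑ i, ∑ j, |x i j|) ^ 12 := by
  obtain ⟨t0, t1', _, hs⟩ := hh.supp
  set t1 := max t1' 0 with ht1
  have ht10 : 0 ≤ t1 := le_max_right _ _
  have hs' : ∀ t, h t ≠ 0 → t ≤ t1 := fun t ht => (hs t ht).2.trans (le_max_left _ _)
  refine ⟨(36 * t1 + 1) ^ 6, fun x hx => ?_⟩
  set S : ℝ := ∑ i, ∑ j, |x i j| with hS
  have hS0 : 0 ≤ S := Finset.sum_nonneg fun i _ => Finset.sum_nonneg fun j _ => abs_nonneg _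
  set B : ℕ := ⌊18 * t1 * S ^ 2⌋₊ with hB
  choose m hm using fun (q : GaN N ⧸ PN N) (i : Fin 6) =>
    cnt_pint N (rp N q) (cnt_e i).1 (cnt_e i).2
  have hinj : Function.Injective m := by
    intro q q' hqq
    refine cnt_coset N (cnt_six fun i => ?_)
    rw [hm q i, hm q' i, hqq]
  set T : Finset (Fin 6 → ℤ) := Fintype.piFinset fun _ => Finset.Icc (-(B : ℤ)) B with hT
  have hsub : m '' {q : GaN N ⧸ PN N | FF f h (act N (rp N q) x) ≠ 0} ⊆ (T : Set (Fin 6 → ℤ)) := by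
    rintro _ ⟨q, hq, rfl⟩
    rw [Finset.mem_coe, hT, Fintype.mem_piFinset]
    intro i
    have h1 := cnt_bound ht10 hs' hx hq (cnt_e i).1 (cnt_e i).2
    rw [hm q i, ← Int.cast_abs] at h1
    have h2 : ((m q i).natAbs : ℕ) ≤ B := by
      rw [hB]
      apply Nat.le_floor
      rw [Nat.cast_natAbs]
      exact h1
    rw [Finset.mem_Icc]
    omega
  have hfin : {q : GaN N ⧸ PN N | FF f h (act N (rp N q) x) ≠ 0}.Finite :=
    Set.Finite.of_finite_image (T.finite_toSet.subset hsub) hinj.injOn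
  refine ⟨hfin, ?_⟩
  have hcard : {q : GaN N ⧸ PN N | FF f h (act N (rp N q) x) ≠ 0}.ncard ≤ (2 * B + 1) ^ 6 := by
    rw [← Set.ncard_image_of_injective _ hinj]
    refine (Set.ncard_le_ncard hsub T.finite_toSet).trans ?_
    rw [Set.ncard_coe_finset, hT, Fintype.card_piFinset]
    simp only [Int.card_Icc, Finset.prod_const, Finset.card_univ, Fintype.card_fin]
    apply Nat.pow_le_pow_left
    omega
  have hBr : (B : ℝ) ≤ 18 * t1 * S ^ 2 := Nat.floor_le (by positivity)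
  calc ({q : GaN N ⧸ PN N | FF f h (act N (rp N q) x) ≠ 0}.ncard : ℝ)
      ≤ (((2 * B + 1) ^ 6 : ℕ) : ℝ) := by exact_mod_cast hcard
    _ = (2 * (B : ℝ) + 1) ^ 6 := by push_cast; ring
    _ ≤ ((36 * t1 + 1) * (1 + S) ^ 2) ^ 6 := by
        apply pow_le_pow_left₀ (by positivity)
        nlinarith [mul_nonneg ht10 hS0, mul_nonneg ht10 (sq_nonneg S), sq_nonneg S]
    _ = (36 * t1 + 1) ^ 6 * (1 + S) ^ 12 := by ring

end Pool.Agent.NN

namespace Pool.Agent.NN

theorem cnt : type_of% @cnt_pr := @cnt_pr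

end Pool.Agent.NN
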