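import Pool.Agent.Lib_helper32.NN.Dfs2

/-!
# NN, block COV: integration over matrices of positive determinant
-/

namespace Pool.Agent.NN

open Complex MeasureTheory Filter Topology UpperHalfPlane Matrix
open scoped MatrixGroups ENNReal ComplexConjugate
open Pool.Agent.LEV (S2 co IsNew Lh)

theorem cov_ofC_coe (w : ℂ) : ((ofComplex w : ℍ) : ℂ) =
    if 0 < w.im then w else (((Classical.choice inferInstance : ℍ)) : ℂ) := by
  rw [ofComplex_apply_eq_ite]
  split_ifs <;> rfl

theorem cov_ofC : Measurable (fun w : ℂ => (ofComplex w : ℍ)) := by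
  refine measurable_comap_iff.mpr ?_
  have h : (UpperHalfPlane.coe ∘ fun w : ℂ => (ofComplex w : ℍ)) =
      fun w : ℂ => if 0 < w.im then w else (((Classical.choice inferInstance : ℍ)) : ℂ) := by
    funext w
    exact cov_ofC_coe w
  rw [h]
  exact Measurable.ite (measurableSet_lt measurable_const Complex.measurable_im)
    measurable_id measurable_const

/-- the measure of the upper half plane in coordinates -/
theorem cov_uhp {Ψ : ℍ → ℝ≥0∞} (hΨ : Measurable Ψ) :
    ∫⁻ z : ℍ, Ψ z = ∫⁻ q : ℝ × ℝ, if 0 < q.2 then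
      Ψ (ofComplex ⟨q.1, q.2⟩) * ENNReal.ofReal (1 / q.2 ^ 2) else 0 := by
  have hd : Measurable (fun z : ℍ => (((1 / NNReal.mk z.im z.im_pos.le : NNReal) ^ 2 : NNReal) : ℝ≥0∞)) := by
    have h1 : Measurable (fun z : ℍ => NNReal.mk z.im z.im_pos.le) := by
      have : Measurable (fun z : ℍ => z.im) := Complex.measurable_im.comp measurable_coe
      exact this.subtype_mk
    exact ((h1.const_div 1).pow_const 2).coe_nnreal_ennreal
  rw [UpperHalfPlane.volume_def, lintegral_withDensity_eq_lintegral_mul _ hd hΨ]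
  have hmp : MeasurePreserving UpperHalfPlane.coe (volume.comap UpperHalfPlane.coe)
      (volume.restrict (Set.range UpperHalfPlane.coe)) :=
    ⟨measurable_coe, by rw [measurableEmbedding_coe.map_comap]⟩
  set φ : ℂ → ℝ≥0∞ := fun w => Ψ (ofComplex w) * ENNReal.ofReal (1 / w.im ^ 2) with hφ
  have e1 : ∀ z : ℍ, ((fun z : ℍ => (((1 / NNReal.mk z.im z.im_pos.le : NNReal) ^ 2 : NNReal) : ℝ≥0∞)) * Ψ) z =
      φ (z : ℂ) := by
    intro z
    simp only [hφ, Pi.mul_apply, ofComplex_apply]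
    rw [mul_comm]
    congr 1
    rw [ENNReal.ofReal, ENNReal.coe_inj]
    have : (1 / NNReal.mk z.im z.im_pos.le) ^ 2 = Real.toNNReal ((1 / z.im) ^ 2) := by
      apply NNReal.coe_injective
      rw [Real.coe_toNNReal _ (by positivity)]
      push_cast
      rfl
    rw [this]
    congr 1
    rw [div_pow, one_pow]
    rfl
  rw [lintegral_congr e1]
  have hφm : Measurable φ := by
    refine (hΨ.comp cov_ofC).mul ?_
    exact ((measurable_const.div ((Complex.measurable_im).pow_const 2))).ennreal_ofReal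
  rw [hmp.lintegral_comp hφm]
  have hr : Set.range UpperHalfPlane.coe = {w : ℂ | 0 < w.im} := by
    ext w
    constructor
    · rintro ⟨z, rfl⟩
      exact z.im_pos
    · intro hw
      exact ⟨⟨w, hw⟩, rfl⟩
  have hms : MeasurableSet {w : ℂ | 0 < w.im} :=
    measurableSet_lt measurable_const Complex.measurable_im
  rw [hr, ← lintegral_indicator hms]
  rw [← (Complex.volume_preserving_equiv_real_prod.symm).lintegral_comp
    (hφm.indicator hms)]
  refine lintegral_congr fun q => ?_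
  rw [Complex.measurableEquivRealProd_symm_apply]
  simp only [Set.indicator, Set.mem_ofPred_eq, hφ]

/-- the measurability of the integrand -/
theorem cov_meas {G : ℝ → ℝ≥0∞} (hG : Measurable G) {Ψ : ℍ → ℝ≥0∞} (hΨ : Measurable Ψ) :
    Measurable (fun e : R4 => if 0 < (ma e).det then G (ma e).det * Ψ (zz (ma e)) else 0) := by
  have h1 : Measurable (fun e : R4 => e.1) := measurable_fst
  have h2 : Measurable (fun e : R4 => e.2.1) := measurable_fst.comp measurable_snd
  have h3 : Measurable (fun e : R4 => e.2.2.1) :=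
    measurable_fst.comp (measurable_snd.comp measurable_snd)
  have h4 : Measurable (fun e : R4 => e.2.2.2) :=
    measurable_snd.comp (measurable_snd.comp measurable_snd)
  have hd : Measurable (fun e : R4 => (ma e).det) := by
    have : (fun e : R4 => (ma e).det) = fun e : R4 => e.1 * e.2.2.2 - e.2.1 * e.2.2.1 := by
      funext e
      simp [ma, Matrix.det_fin_two]
    rw [this]
    exact (h1.mul h4).sub (h2.mul h3)
  have hz : Measurable (fun e : R4 => zz (ma e)) := by
    have : (fun e : R4 => zz (ma e)) = (fun w : ℂ => (ofComplex w : ℍ)) ∘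
        fun e : R4 => (((e.1 : ℝ) : ℂ) * Complex.I + ((e.2.1 : ℝ) : ℂ)) /
          (((e.2.2.1 : ℝ) : ℂ) * Complex.I + ((e.2.2.2 : ℝ) : ℂ)) := by
      funext e
      simp [ma, zz]
    rw [this]
    refine cov_ofC.comp ?_
    exact (((Complex.measurable_ofReal.comp h1).mul_const _).add
      (Complex.measurable_ofReal.comp h2)).div
      (((Complex.measurable_ofReal.comp h3).mul_const _).add
      (Complex.measurable_ofReal.comp h4))
  exact Measurable.ite (measurableSet_lt measurable_const hd)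
    ((hG.comp hd).mul (hΨ.comp hz)) measurable_const

/-- polar coordinates for a function of the square of the distance -/
theorem cov_polar {φ : ℝ → ℝ≥0∞} (hφ : Measurable φ) :
    ∫⁻ v : ℝ × ℝ, φ (v.1 ^ 2 + v.2 ^ 2) =
      ENNReal.ofReal Real.pi * ∫⁻ s in Set.Ioi (0 : ℝ), φ s := by
  rw [← lintegral_comp_polarCoord_symm]
  have hin : (fun x : ℝ => x ^ 2) '' Set.Ioi (0 : ℝ) = Set.Ioi 0 := by
    ext y
    constructor
    · rintro ⟨x, hx, rfl⟩
      exact pow_pos (show (0 : ℝ) < x from hx) 2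
    · intro hy
      exact ⟨Real.sqrt y, Real.sqrt_pos.2 hy, Real.sq_sqrt (le_of_lt hy)⟩
  have h1 := lintegral_image_eq_lintegral_abs_deriv_mul (s := Set.Ioi (0 : ℝ))
    (f := fun x => x ^ 2) (f' := fun x => 2 * x) measurableSet_Ioi
    (fun x _ => by simpa using (hasDerivAt_pow 2 x).hasDerivWithinAt)
    (fun x hx y hy h => by
      have hx' : (0 : ℝ) < x := hx
      have hy' : (0 : ℝ) < y := hy
      have h' : x ^ 2 = y ^ 2 := h
      nlinarith [sq_nonneg (x - y), mul_self_eq_mul_self_iff.1 (show x * x = y * y by nlinarith)]) φ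
  rw [hin] at h1
  have h2 : ∀ p : ℝ × ℝ, ENNReal.ofReal p.1 •
      φ ((polarCoord.symm p).1 ^ 2 + (polarCoord.symm p).2 ^ 2) =
      (ENNReal.ofReal p.1 * φ (p.1 ^ 2)) * 1 := by
    intro p
    have : (polarCoord.symm p).1 ^ 2 + (polarCoord.symm p).2 ^ 2 = p.1 ^ 2 := by
      rw [polarCoord_symm_apply]
      have := Real.sin_sq_add_cos_sq p.2
      simp only []
      nlinarith
    rw [this, mul_one, smul_eq_mul]
  simp_rw [h2]
  rw [polarCoord_target, Measure.volume_eq_prod, ← Measure.prod_restrict,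
    lintegral_prod_mul (f := fun r : ℝ => ENNReal.ofReal r * φ (r ^ 2)) (g := fun _ => 1)
      (by fun_prop) (by fun_prop), lintegral_one, Measure.restrict_apply_univ, Real.volume_Ioo]
  have h3 : ∫⁻ x in Set.Ioi (0 : ℝ), ENNReal.ofReal |2 * x| * φ (x ^ 2) =
      ENNReal.ofReal 2 * ∫⁻ x in Set.Ioi (0 : ℝ), ENNReal.ofReal x * φ (x ^ 2) := by
    rw [← lintegral_const_mul _ (by fun_prop)]
    refine setLIntegral_congr_fun measurableSet_Ioi fun x hx => ?_
    have hx' : (0 : ℝ) < x := hx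
    rw [abs_of_pos (by positivity), ENNReal.ofReal_mul (by norm_num), mul_assoc]
  have h4 : Real.pi - -Real.pi = 2 * Real.pi := by ring
  rw [h1, h3, h4, ENNReal.ofReal_mul (by norm_num)]
  ring

/-- scaling -/
theorem cov_scale {G : ℝ → ℝ≥0∞} (hG : Measurable G) {y : ℝ} (hy : 0 < y) :
    ∫⁻ s in Set.Ioi (0 : ℝ), ENNReal.ofReal s * G (y * s) =
      ENNReal.ofReal (1 / y ^ 2) * ∫⁻ t in Set.Ioi (0 : ℝ), G t * ENNReal.ofReal t := by
  have hin : (fun x : ℝ => y * x) '' Set.Ioi (0 : ℝ) = Set.Ioi 0 := by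
    ext z
    constructor
    · rintro ⟨x, hx, rfl⟩
      exact mul_pos hy hx
    · intro hz
      refine ⟨z / y, div_pos hz hy, ?_⟩
      simp only []
      field_simp
  have h1 := lintegral_image_eq_lintegral_abs_deriv_mul (s := Set.Ioi (0 : ℝ))
    (f := fun x => y * x) (f' := fun _ => y) measurableSet_Ioi
    (fun x _ => by simpa using ((hasDerivAt_id x).const_mul y).hasDerivWithinAt)
    (fun x hx z hz h => mul_left_cancel₀ hy.ne' h) (fun t => G t * ENNReal.ofReal t)
  rw [hin] at h1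
  rw [h1, ← lintegral_const_mul _ (by fun_prop)]
  refine setLIntegral_congr_fun measurableSet_Ioi fun x hx => ?_
  have hx' : (0 : ℝ) < x := hx
  rw [abs_of_pos hy, ENNReal.ofReal_mul hy.le]
  have : ENNReal.ofReal (1 / y ^ 2) * (ENNReal.ofReal y * ENNReal.ofReal y) = 1 := by
    rw [← ENNReal.ofReal_mul hy.le, ← ENNReal.ofReal_mul (by positivity), ← ENNReal.ofReal_one]
    congr 1
    field_simp
  calc ENNReal.ofReal x * G (y * x) = 1 * (ENNReal.ofReal x * G (y * x)) := by rw [one_mul]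
    _ = _ := by rw [← this]; ring

/-- the linear change of variables -/
theorem cov_lin (c d : ℝ) (hv : c ^ 2 + d ^ 2 ≠ 0) (K : ℝ × ℝ → ℝ≥0∞) (hK : Measurable K) :
    ∫⁻ p, K p = ENNReal.ofReal (c ^ 2 + d ^ 2) *
      ∫⁻ q : ℝ × ℝ, K (q.1 * c + q.2 * d, q.1 * d - q.2 * c) := by
  set L : ℝ × ℝ →ₗ[ℝ] ℝ × ℝ := Matrix.toLin (Module.Basis.finTwoProd ℝ) (Module.Basis.finTwoProd ℝ)
    !![c, d; d, -c] with hL
  have hdet : LinearMap.det L = -(c ^ 2 + d ^ 2) := by
    rw [hL, LinearMap.det_toLin, Matrix.det_fin_two]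
    simp
    ring
  have hne : LinearMap.det L ≠ 0 := by
    rw [hdet]
    exact neg_ne_zero.2 hv
  have hpos : 0 < c ^ 2 + d ^ 2 := lt_of_le_of_ne (by positivity) hv.symm
  have hm := Measure.map_linearMap_addHaar_eq_smul_addHaar (volume : Measure (ℝ × ℝ)) hne
  have hLa : ∀ q : ℝ × ℝ, L q = (q.1 * c + q.2 * d, q.1 * d - q.2 * c) := by
    intro q
    rw [hL, Matrix.toLin_finTwoProd_apply]
    ext
    · simp
      ring
    · simp
      ring
  have hLm : Measurable L := by
    have : (L : ℝ × ℝ → ℝ × ℝ) = fun q => (q.1 * c + q.2 * d, q.1 * d - q.2 * c) := funext hLa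
    rw [this]
    fun_prop
  have h1 : ∫⁻ q : ℝ × ℝ, K (q.1 * c + q.2 * d, q.1 * d - q.2 * c) =
      ENNReal.ofReal |(LinearMap.det L)⁻¹| * ∫⁻ p, K p := by
    rw [← smul_eq_mul, ← lintegral_smul_measure, ← hm, lintegral_map hK hLm]
    simp_rw [hLa]
  rw [h1, ← mul_assoc, ← ENNReal.ofReal_mul hpos.le, hdet]
  have : (c ^ 2 + d ^ 2) * |(-(c ^ 2 + d ^ 2))⁻¹| = 1 := by
    rw [abs_inv, abs_neg, abs_of_pos hpos]
    field_simp
  rw [this, ENNReal.ofReal_one, one_mul]

/-- the integrand after the change of variables -/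
theorem cov_point (G : ℝ → ℝ≥0∞) (Ψ : ℍ → ℝ≥0∞) (c d : ℝ) (hv : c ^ 2 + d ^ 2 ≠ 0) (q : ℝ × ℝ) :
    (if 0 < (ma (q.1 * c + q.2 * d, q.1 * d - q.2 * c, c, d)).det then
      G (ma (q.1 * c + q.2 * d, q.1 * d - q.2 * c, c, d)).det *
        Ψ (zz (ma (q.1 * c + q.2 * d, q.1 * d - q.2 * c, c, d))) else 0) =
    if 0 < q.2 then G (q.2 * (c ^ 2 + d ^ 2)) * Ψ (ofComplex ⟨q.1, q.2⟩) else 0 := by
  have hpos : 0 < c ^ 2 + d ^ 2 := lt_of_le_of_ne (by positivity) hv.symm
  have hdet : (ma (q.1 * c + q.2 * d, q.1 * d - q.2 * c, c, d)).det = q.2 * (c ^ 2 + d ^ 2) := by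
    simp [ma, Matrix.det_fin_two]
    ring
  have hz : zz (ma (q.1 * c + q.2 * d, q.1 * d - q.2 * c, c, d)) = ofComplex ⟨q.1, q.2⟩ := by
    have h0 : ((c : ℝ) : ℂ) * Complex.I + ((d : ℝ) : ℂ) ≠ 0 := by
      intro h
      have h1 := congrArg Complex.re h
      have h2 := congrArg Complex.im h
      simp at h1 h2
      apply hv
      rw [h1, h2]
      ring
    simp only [zz, ma, Matrix.of_apply, Matrix.cons_val_zero, Matrix.cons_val_one,
      Matrix.cons_val', Matrix.cons_val_fin_one]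
    congr 1
    rw [div_eq_iff h0]
    apply Complex.ext
    · simp
    · simp
  rw [hdet, hz]
  simp only [mul_pos_iff_of_pos_right hpos]

/-- COV. integration over the matrices of positive determinant in terms of `det e` and `e i` -/
theorem cov_pr {G : ℝ → ℝ≥0∞} (hG : Measurable G) {Ψ : ℍ → ℝ≥0∞} (hΨ : Measurable Ψ) :
    ∫⁻ e : R4, (if 0 < (ma e).det then G (ma e).det * Ψ (zz (ma e)) else 0) =
      ENNReal.ofReal Real.pi * (∫⁻ z : ℍ, Ψ z) * ∫⁻ t in Set.Ioi (0 : ℝ), G t * ENNReal.ofReal t := by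
  set H : R4 → ℝ≥0∞ := fun e => if 0 < (ma e).det then G (ma e).det * Ψ (zz (ma e)) else 0 with hH
  have hHm : Measurable H := cov_meas hG hΨ
  -- the integral over the first row, for a fixed second row
  have h1 : ∫⁻ e, H e = ∫⁻ v : ℝ × ℝ, ∫⁻ p : ℝ × ℝ, H (p.1, p.2, v) := by
    have hmp := measurePreserving_prodAssoc (volume : Measure ℝ) (volume : Measure ℝ)
      (volume : Measure (ℝ × ℝ))
    rw [show (volume : Measure R4) = volume.prod (volume.prod volume) from rfl,
      ← hmp.lintegral_comp hHm]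
    exact lintegral_prod_symm' (H ∘ MeasurableEquiv.prodAssoc) (hHm.comp hmp.measurable)
  have h2 : ∀ v : ℝ × ℝ, ∫⁻ p : ℝ × ℝ, H (p.1, p.2, v) =
      ∫⁻ q : ℝ × ℝ, ENNReal.ofReal (v.1 ^ 2 + v.2 ^ 2) *
        (if 0 < q.2 then G (q.2 * (v.1 ^ 2 + v.2 ^ 2)) * Ψ (ofComplex ⟨q.1, q.2⟩) else 0) := by
    rintro ⟨c, d⟩
    by_cases hv : c ^ 2 + d ^ 2 = 0
    · have hc : c = 0 := by nlinarith [sq_nonneg c, sq_nonneg d]
      have hd : d = 0 := by nlinarith [sq_nonneg c, sq_nonneg d]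
      subst hc hd
      have : ∀ p : ℝ × ℝ, H (p.1, p.2, ((0 : ℝ), (0 : ℝ))) = 0 := by
        intro p
        simp [hH, ma, Matrix.det_fin_two]
      simp [this]
    · have hm1 : Measurable fun p : ℝ × ℝ => H (p.1, p.2, (c, d)) :=
        hHm.comp (by fun_prop)
      have hm2 : Measurable fun q : ℝ × ℝ => H (q.1 * c + q.2 * d, q.1 * d - q.2 * c, (c, d)) :=
        hHm.comp (by fun_prop)
      rw [cov_lin c d hv (fun p => H (p.1, p.2, (c, d))) hm1, ← lintegral_const_mul _ hm2]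
      refine lintegral_congr fun q => ?_
      rw [← cov_point G Ψ c d hv q]
  have hw : Measurable fun q : ℝ × ℝ => Ψ (ofComplex ⟨q.1, q.2⟩) :=
    hΨ.comp (cov_ofC.comp Complex.measurableEquivRealProd.symm.measurable)
  have hsm : Measurable (Function.uncurry fun (v q : ℝ × ℝ) => ENNReal.ofReal (v.1 ^ 2 + v.2 ^ 2) *
      (if 0 < q.2 then G (q.2 * (v.1 ^ 2 + v.2 ^ 2)) * Ψ (ofComplex ⟨q.1, q.2⟩) else 0)) := by
    have hn : Measurable fun x : (ℝ × ℝ) × (ℝ × ℝ) => x.1.1 ^ 2 + x.1.2 ^ 2 := by fun_prop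
    refine hn.ennreal_ofReal.mul (Measurable.ite ?_ ?_ measurable_const)
    · exact measurableSet_lt measurable_const (by fun_prop)
    · exact (hG.comp (by fun_prop)).mul (hw.comp measurable_snd)
  rw [h1, lintegral_congr h2, lintegral_lintegral_swap hsm.aemeasurable]
  have h3 : ∀ q : ℝ × ℝ, ∫⁻ v : ℝ × ℝ, ENNReal.ofReal (v.1 ^ 2 + v.2 ^ 2) *
        (if 0 < q.2 then G (q.2 * (v.1 ^ 2 + v.2 ^ 2)) * Ψ (ofComplex ⟨q.1, q.2⟩) else 0) =
      (if 0 < q.2 then Ψ (ofComplex ⟨q.1, q.2⟩) * ENNReal.ofReal (1 / q.2 ^ 2) else 0) *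
        (ENNReal.ofReal Real.pi * ∫⁻ t in Set.Ioi (0 : ℝ), G t * ENNReal.ofReal t) := by
    intro q
    by_cases hq : 0 < q.2
    · simp only [if_pos hq]
      have hφ : Measurable fun s : ℝ => ENNReal.ofReal s * G (q.2 * s) := by fun_prop
      have e1 : ∀ v : ℝ × ℝ, ENNReal.ofReal (v.1 ^ 2 + v.2 ^ 2) *
          (G (q.2 * (v.1 ^ 2 + v.2 ^ 2)) * Ψ (ofComplex ⟨q.1, q.2⟩)) =
          (ENNReal.ofReal (v.1 ^ 2 + v.2 ^ 2) * G (q.2 * (v.1 ^ 2 + v.2 ^ 2))) *
            Ψ (ofComplex ⟨q.1, q.2⟩) := fun v => by ring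
      rw [lintegral_congr e1, lintegral_mul_const _ (by fun_prop),
        cov_polar (φ := fun s => ENNReal.ofReal s * G (q.2 * s)) hφ, cov_scale hG hq]
      ring
    · simp only [if_neg hq, mul_zero, lintegral_zero, zero_mul]
  have hwm : Measurable fun q : ℝ × ℝ =>
      if 0 < q.2 then Ψ (ofComplex ⟨q.1, q.2⟩) * ENNReal.ofReal (1 / q.2 ^ 2) else 0 := by
    refine Measurable.ite (measurableSet_lt measurable_const measurable_snd) ?_ measurable_const
    refine hw.mul ?_
    have : Measurable fun q : ℝ × ℝ => 1 / q.2 ^ 2 := by fun_prop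
    exact this.ennreal_ofReal
  rw [lintegral_congr h3, lintegral_mul_const _ hwm, ← cov_uhp hΨ]
  ring

end Pool.Agent.NN

namespace Pool.Agent.NN

theorem cov : type_of% @cov_pr := @cov_pr

end Pool.Agent.NN
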