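import Pool.Agent.Lib_helper32.NN.Dfs2

/-!
# Block DEC: rapid decay at the cusps
-/

namespace Pool.Agent.NN

open Complex MeasureTheory Filter Topology UpperHalfPlane Matrix ModularGroup
open scoped MatrixGroups ENNReal ComplexConjugate Modular ModularForm
open Pool.Agent.LEV (S2 co IsNew Lh sg PX fam)

section
variable {N : ℕ} [Fact N.Prime] (f : S2 N)

open ConjAct Pointwise in
theorem dec_exp (q : PX N) : ∃ c : ℝ, 0 < c ∧ ∃ C M : ℝ, ∀ z : ℍ, M ≤ z.im →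
    ‖fam f q z‖ ≤ C * Real.exp (-c * z.im) := by
  have hN : NeZero N := ⟨(Fact.out : N.Prime).ne_zero⟩
  have harith : ((toConjAct (Matrix.SpecialLinearGroup.mapGL ℝ (sg q)⁻¹ : GL (Fin 2) ℝ)⁻¹) •
      LEV.G0 N).IsArithmetic := by
    simpa [(show Rat.castHom ℝ = algebraMap ℚ ℝ by rfl), map_inv, Matrix.SpecialLinearGroup.map_mapGL]
      using! Subgroup.IsArithmetic.conj (LEV.G0 N) (Matrix.SpecialLinearGroup.mapGL ℚ (sg q)⁻¹)⁻¹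
  have h := CuspFormClass.exp_decay_atImInfty' (k := 2)
    (CuspForm.translate f (Matrix.SpecialLinearGroup.mapGL ℝ (sg q)⁻¹ : GL (Fin 2) ℝ))
  obtain ⟨c, hc, hO⟩ := h
  obtain ⟨C, hC⟩ := hO.bound
  rw [UpperHalfPlane.atImInfty_basis.eventually_iff] at hC
  obtain ⟨M, -, hM⟩ := hC
  refine ⟨c, hc, C, M, fun z hz => ?_⟩
  have h1 := hM hz
  rw [Real.norm_of_nonneg (Real.exp_pos _).le] at h1
  exact h1

theorem dec_norm (q : PX N) (z : ℍ) : ‖f ((sg q)⁻¹ • z)‖ * ((sg q)⁻¹ • z : ℍ).im =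
    ‖fam f q z‖ * z.im := by
  unfold fam
  rw [ModularForm.SL_slash_apply, GL2.RSA_im_smul]
  have h1 : denom ((sg q)⁻¹ : SL(2, ℤ)) z = ((((sg q)⁻¹ : SL(2, ℤ)) 1 0 : ℤ) : ℂ) * (z : ℂ) +
      ((((sg q)⁻¹ : SL(2, ℤ)) 1 1 : ℤ) : ℂ) := denom_apply _ _
  rw [h1]
  have h2 := GL2.RSA_denom_ne (sg q)⁻¹ z
  set w := ((((sg q)⁻¹ : SL(2, ℤ)) 1 0 : ℤ) : ℂ) * (z : ℂ) +
      ((((sg q)⁻¹ : SL(2, ℤ)) 1 1 : ℤ) : ℂ) with hw
  have h3 : ‖w‖ ≠ 0 := by simpa using h2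
  rw [norm_mul, norm_zpow]
  have h4 : ‖w‖ ^ (-2 : ℤ) = (‖w‖ ^ 2)⁻¹ := by
    rw [_root_.zpow_neg]
    norm_cast
  rw [h4]
  field_simp

theorem dec_u (g : SL(2, ℤ)) (z : ℍ) : (‖((g • z : ℍ) : ℂ)‖ ^ 2 + 1) / (g • z : ℍ).im ≤
    (((g 0 0 : ℤ) : ℝ) ^ 2 + ((g 0 1 : ℤ) : ℝ) ^ 2 + ((g 1 0 : ℤ) : ℝ) ^ 2 +
      ((g 1 1 : ℤ) : ℝ) ^ 2) * ((‖(z : ℂ)‖ ^ 2 + 1) / z.im) := by
  rw [GL2.RSA_im_smul, UpperHalfPlane.coe_specialLinearGroup_apply]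
  simp only [algebraMap_int_eq, eq_intCast, ofReal_intCast]
  have h2 := GL2.RSA_denom_ne g z
  set w := ((g 1 0 : ℤ) : ℂ) * (z : ℂ) + ((g 1 1 : ℤ) : ℂ) with hw
  have h3 : 0 < ‖w‖ := norm_pos_iff.mpr h2
  have hz := z.im_pos
  have key : ∀ a b : ℤ, ‖(a : ℂ) * (z : ℂ) + (b : ℂ)‖ ^ 2 ≤
      ((a : ℝ) ^ 2 + (b : ℝ) ^ 2) * (‖(z : ℂ)‖ ^ 2 + 1) := by
    intro a b
    have h4 : ‖(a : ℂ) * (z : ℂ) + (b : ℂ)‖ ≤ |(a : ℝ)| * ‖(z : ℂ)‖ + |(b : ℝ)| := by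
      refine (norm_add_le _ _).trans (le_of_eq ?_)
      rw [norm_mul, Complex.norm_intCast, Complex.norm_intCast]
    have h5 := pow_le_pow_left₀ (norm_nonneg _) h4 2
    refine h5.trans ?_
    have h6 := sq_abs (a : ℝ)
    have h7 := sq_abs (b : ℝ)
    nlinarith [sq_nonneg (|(a : ℝ)| - |(b : ℝ)| * ‖(z : ℂ)‖)]
  have k1 := key (g 0 0) (g 0 1)
  have k2 := key (g 1 0) (g 1 1)
  rw [← hw] at k2
  rw [norm_div, div_pow]
  have e : (‖((g 0 0 : ℤ) : ℂ) * (z : ℂ) + ((g 0 1 : ℤ) : ℂ)‖ ^ 2 / ‖w‖ ^ 2 + 1) /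
      (z.im / ‖w‖ ^ 2) = (‖((g 0 0 : ℤ) : ℂ) * (z : ℂ) + ((g 0 1 : ℤ) : ℂ)‖ ^ 2 + ‖w‖ ^ 2) /
        z.im := by
    field_simp
  rw [e, mul_div_assoc']
  apply div_le_div_of_nonneg_right _ hz.le
  linarith

theorem dec_fd {z : ℍ} (hz : z ∈ 𝒟ᵒ) : (‖(z : ℂ)‖ ^ 2 + 1) / z.im ≤ 6 * z.im := by
  obtain ⟨h1, h2⟩ := hz
  have h3 := abs_lt.mp h2
  have hp := z.im_pos
  rw [Complex.normSq_apply] at h1
  have e1 : ((z : ℂ)).re = z.re := rfl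
  have e2 : ((z : ℂ)).im = z.im := rfl
  rw [e1, e2] at h1
  rw [div_le_iff₀ hp, ← Complex.normSq_eq_norm_sq, Complex.normSq_apply, e1, e2]
  nlinarith

theorem dec_bd (K : ℕ) (q : PX N) : ∃ B : ℝ, 0 ≤ B ∧ ∀ z : ℍ, z ∈ 𝒟ᵒ →
    ‖f ((sg q)⁻¹ • z)‖ * ((sg q)⁻¹ • z : ℍ).im *
      ((‖(((sg q)⁻¹ • z : ℍ) : ℂ)‖ ^ 2 + 1) / ((sg q)⁻¹ • z : ℍ).im) ^ K ≤ B := by
  obtain ⟨c, hc, C, M, hM⟩ := dec_exp f q
  obtain ⟨C1, hC1⟩ := LEV.f_bound f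
  set A : ℝ := ((((sg q)⁻¹ : SL(2, ℤ)) 0 0 : ℤ) : ℝ) ^ 2 + ((((sg q)⁻¹ : SL(2, ℤ)) 0 1 : ℤ) : ℝ) ^ 2 +
    ((((sg q)⁻¹ : SL(2, ℤ)) 1 0 : ℤ) : ℝ) ^ 2 + ((((sg q)⁻¹ : SL(2, ℤ)) 1 1 : ℤ) : ℝ) ^ 2 with hA
  have hA0 : 0 ≤ A := by positivity
  set F : ℝ := (K + 1).factorial / c ^ (K + 1) with hF
  have hF0 : 0 ≤ F := by positivity
  refine ⟨max C1 0 * (A * 6 * max M 0) ^ K + max C 0 * ((A * 6) ^ K * F), by positivity,
    fun z hz => ?_⟩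
  have hp := z.im_pos
  have h1 : ((‖(((sg q)⁻¹ • z : ℍ) : ℂ)‖ ^ 2 + 1) / ((sg q)⁻¹ • z : ℍ).im) ^ K ≤
      (A * 6 * z.im) ^ K := by
    apply pow_le_pow_left₀
    · have := ((sg q)⁻¹ • z : ℍ).im_pos
      positivity
    · refine (dec_u (sg q)⁻¹ z).trans ?_
      rw [← hA, mul_assoc A]
      exact mul_le_mul_of_nonneg_left (dec_fd hz) hA0
  rw [dec_norm]
  have h2 : 0 ≤ ‖fam f q z‖ * z.im := by positivity
  refine (mul_le_mul_of_nonneg_left h1 h2).trans ?_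
  have n1 : 0 ≤ max C1 0 * (A * 6 * max M 0) ^ K := by positivity
  have n2 : 0 ≤ max C 0 * ((A * 6) ^ K * F) := by positivity
  rcases le_total z.im M with hy | hy
  · have h3 : ‖fam f q z‖ * z.im ≤ max C1 0 := (hC1 q z).trans (le_max_left _ _)
    have h4 : (A * 6 * z.im) ^ K ≤ (A * 6 * max M 0) ^ K := by
      apply pow_le_pow_left₀ (by positivity)
      exact mul_le_mul_of_nonneg_left (hy.trans (le_max_left _ _)) (by positivity)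
    have h5 : ‖fam f q z‖ * z.im * (A * 6 * z.im) ^ K ≤ max C1 0 * (A * 6 * max M 0) ^ K :=
      mul_le_mul h3 h4 (by positivity) (le_max_right _ _)
    linarith
  · have h3 := hM z hy
    have h4 : ‖fam f q z‖ ≤ max C 0 * Real.exp (-c * z.im) :=
      h3.trans (mul_le_mul_of_nonneg_right (le_max_left _ _) (Real.exp_pos _).le)
    have h5 : z.im ^ (K + 1) * Real.exp (-c * z.im) ≤ F := by
      have h6 := Real.pow_div_factorial_le_exp (c * z.im) (by positivity) (K + 1)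
      have h7 : Real.exp (-c * z.im) = (Real.exp (c * z.im))⁻¹ := by
        rw [← Real.exp_neg]
        ring_nf
      rw [h7, hF, ← div_eq_mul_inv, div_le_div_iff₀ (Real.exp_pos _) (by positivity)]
      rw [div_le_iff₀ (by positivity), mul_pow] at h6
      linarith
    have h6 : ‖fam f q z‖ * z.im * (A * 6 * z.im) ^ K ≤ max C 0 * ((A * 6) ^ K * F) := by
      calc ‖fam f q z‖ * z.im * (A * 6 * z.im) ^ K
          ≤ (max C 0 * Real.exp (-c * z.im)) * z.im * (A * 6 * z.im) ^ K := by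
            gcongr
        _ = max C 0 * ((A * 6) ^ K * (z.im ^ (K + 1) * Real.exp (-c * z.im))) := by
            rw [mul_pow (A * 6)]
            ring
        _ ≤ max C 0 * ((A * 6) ^ K * F) := by
            gcongr
    linarith

theorem dec_pr (K : ℕ) : ∫⁻ z : ℍ, ENNReal.ofReal (‖f z‖ * z.im * ((‖(z : ℂ)‖ ^ 2 + 1) / z.im) ^ K) *
    LEV.FUN_psi N z < ⊤ := by
  set h : ℍ → ℝ≥0∞ := fun z => ENNReal.ofReal (‖f z‖ * z.im * ((‖(z : ℂ)‖ ^ 2 + 1) / z.im) ^ K)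
    with hh
  have hfc : Continuous (fun z : ℍ => f z) := by
    have h0 := LEV.fam_cont f OnePoint.infty
    rw [LEV.fam_inf] at h0
    exact h0
  have hm : Measurable h := by
    rw [hh]
    apply Measurable.ennreal_ofReal
    apply Measurable.mul
    · exact (hfc.norm.mul UpperHalfPlane.continuous_im).measurable
    · apply Measurable.pow_const
      have h1 : Measurable (fun z : ℍ => ‖(z : ℂ)‖ ^ 2 + 1) := by
        exact ((UpperHalfPlane.continuous_coe.norm.pow 2).add continuous_const).measurable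
      exact h1.div UpperHalfPlane.continuous_im.measurable
  have h1 := LEV.FUN_lintegral (N := N) h hm
  have h2 : ∑ q : PX N, ∫⁻ z in 𝒟ᵒ, h ((sg q)⁻¹ • z) < ⊤ := by
    apply ENNReal.sum_lt_top.2
    intro q _
    obtain ⟨B, hB0, hB⟩ := dec_bd f K q
    calc ∫⁻ z in 𝒟ᵒ, h ((sg q)⁻¹ • z) ≤ ∫⁻ z in (𝒟ᵒ : Set ℍ), ENNReal.ofReal B := by
          apply setLIntegral_mono measurable_const
          intro z hz
          exact ENNReal.ofReal_le_ofReal (hB z hz)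
      _ = ENNReal.ofReal B * (volume : Measure ℍ) 𝒟ᵒ := setLIntegral_const _ _
      _ < ⊤ := ENNReal.mul_lt_top ENNReal.ofReal_lt_top LEV.FUN_vol
  rw [h1] at h2
  by_contra hcon
  rw [not_lt, top_le_iff] at hcon
  have h3 : ∫⁻ z : ℍ, h z * LEV.FUN_psi N z = ⊤ := hcon
  rw [h3, ENNReal.mul_top (by norm_num)] at h2
  exact lt_irrefl _ h2

end

end Pool.Agent.NN

namespace Pool.Agent.NN

theorem dec : type_of% @dec_pr := @dec_pr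

end Pool.Agent.NN
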