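import Pool.Agent.Lib_helper32.NN.Dfs2
import Pool.Agent.Lib_helper32.NNF.MEA

/-!
# Block NUS
-/

namespace Pool.Agent.NN

open Complex MeasureTheory Filter Topology UpperHalfPlane Matrix
open scoped MatrixGroups ENNReal ComplexConjugate

theorem nus_syt (x : R3) : (sy x)ᵀ = sy x := by
  ext i j
  fin_cases i <;> fin_cases j <;> rfl

theorem nus_n (x : R3) : (fromBlocks 1 (sy x) 0 1 : M4) ∈ Matrix.symplecticGroup (Fin 2) ℝ := by
  rw [SymplecticGroup.mem_iff, Matrix.J, fromBlocks_multiply, fromBlocks_transpose,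
    fromBlocks_multiply, nus_syt]
  simp

theorem nus_nb (x : R3) : (fromBlocks 1 0 (sy x) 1 : M4) ∈ Matrix.symplecticGroup (Fin 2) ℝ := by
  rw [SymplecticGroup.mem_iff, Matrix.J, fromBlocks_multiply, fromBlocks_transpose,
    fromBlocks_multiply, nus_syt]
  simp

theorem nus_m {u : M2} (hu : u.det ≠ 0) :
    (fromBlocks (u⁻¹)ᵀ 0 0 u : M4) ∈ Matrix.symplecticGroup (Fin 2) ℝ := by
  have h : IsUnit u.det := isUnit_iff_ne_zero.2 hu
  rw [SymplecticGroup.mem_iff, Matrix.J, fromBlocks_multiply, fromBlocks_transpose,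
    fromBlocks_multiply]
  have h1 : u * u⁻¹ = 1 := Matrix.mul_nonsing_inv u h
  have h2 : (u⁻¹)ᵀ * uᵀ = 1 := by
    rw [← Matrix.transpose_mul, h1, Matrix.transpose_one]
  simp [h1, h2]

theorem nus_meas (N : ℕ) : MeasurableSet {x : M4 | x ∈ Matrix.symplecticGroup (Fin 2) ℝ ∧
    (db N x).det ≠ 0} := by
  have he : ∀ i j, Measurable fun x : M4 => x i j := fun i j =>
    (measurable_pi_apply j).comp (measurable_pi_apply i)
  have h1 : Measurable fun x : M4 => x * Matrix.J (Fin 2) ℝ * xᵀ := by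
    refine measurable_pi_iff.2 fun i => measurable_pi_iff.2 fun j => ?_
    simp only [Matrix.mul_apply, Matrix.transpose_apply]
    refine Finset.measurable_sum _ fun k _ => ?_
    refine Measurable.mul ?_ (he j k)
    exact Finset.measurable_sum _ fun l _ => (he i l).mul measurable_const
  have h2 : Measurable fun x : M4 => (db N x).det := by
    simp only [Matrix.det_fin_two, db, Matrix.mul_apply, Fin.sum_univ_two, Matrix.toBlocks₂₂,
      Matrix.of_apply]
    have := he
    fun_prop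
  have h3 : {x : M4 | x ∈ Matrix.symplecticGroup (Fin 2) ℝ ∧ (db N x).det ≠ 0} =
      {x : M4 | x * Matrix.J (Fin 2) ℝ * xᵀ = Matrix.J (Fin 2) ℝ} ∩
        {x : M4 | (db N x).det = 0}ᶜ := by
    ext x
    simp only [SymplecticGroup.mem_iff]
    rfl
  rw [h3]
  refine MeasurableSet.inter ?_ (measurableSet_eq_fun h2 measurable_const).compl
  have h4 : {x : M4 | x * Matrix.J (Fin 2) ℝ * xᵀ = Matrix.J (Fin 2) ℝ} =
      ⋂ i, ⋂ j, {x : M4 | (x * Matrix.J (Fin 2) ℝ * xᵀ) i j = Matrix.J (Fin 2) ℝ i j} := by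
    ext x
    simp only [Set.mem_setOf_eq, Set.mem_iInter]
    constructor
    · intro h i j
      rw [h]
    · intro h
      ext i j
      exact h i j
  rw [h4]
  refine MeasurableSet.iInter fun i => MeasurableSet.iInter fun j => ?_
  exact measurableSet_eq_fun ((measurable_pi_apply j).comp ((measurable_pi_apply i).comp h1))
    measurable_const

theorem nu_sp_pr (N : ℕ) [Fact N.Prime] :
    ∀ᵐ x ∂(nu N), x ∈ Matrix.symplecticGroup (Fin 2) ℝ ∧ (db N x).det ≠ 0 := by
  have hN : N ≠ 0 := (Fact.out : N.Prime).ne_zero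
  unfold nu
  rw [ae_map_iff (jj_meas N).aemeasurable (nus_meas N)]
  have hd : Measurable fun w : R3 × R4 × R3 => ENNReal.ofReal |(ma w.2.1).det| := by
    simp only [Matrix.det_fin_two]
    apply Measurable.ennreal_ofReal
    refine _root_.continuous_abs.measurable.comp ?_
    show Measurable fun w : R3 × R4 × R3 => w.2.1.1 * w.2.1.2.2.2 - w.2.1.2.1 * w.2.1.2.2.1
    fun_prop
  rw [ae_withDensity_iff hd]
  refine Filter.Eventually.of_forall fun w hw => ?_
  have hdet : (ma w.2.1).det ≠ 0 := by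
    intro h
    apply hw
    rw [h]
    simp
  have hPI : (PI N).det ≠ 0 := by
    rw [Matrix.det_fin_two]
    simp [PI, hN]
  refine ⟨?_, ?_⟩
  · unfold jj
    refine mul_mem (mul_mem (nus_n _) (nus_m ?_)) (nus_nb _)
    rw [Matrix.det_mul]
    exact mul_ne_zero hPI hdet
  · rw [jj_blocks, db, toBlocks_fromBlocks₂₂, ← Matrix.mul_assoc, pp_mul_pi hN, Matrix.one_mul]
    exact hdet

end Pool.Agent.NN

namespace Pool.Agent.NN

theorem nu_sp : type_of% @nu_sp_pr := @nu_sp_pr

end Pool.Agent.NN
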