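import Pool.Agent.Lib_helper32.NN.Dfs2

/-!
# NN, block PHA: the function `ph` on matrices
-/

namespace Pool.Agent.NN

open Complex MeasureTheory Filter Topology UpperHalfPlane Matrix
open scoped MatrixGroups ENNReal ComplexConjugate
open Pool.Agent.LEV (S2 co IsNew Lh)

/-- numerator of `g i` -/
noncomputable def pha_num (g : M2) : ℂ := ((g 0 0 : ℝ) : ℂ) * Complex.I + ((g 0 1 : ℝ) : ℂ)

/-- denominator of `g i` -/
noncomputable def pha_den (g : M2) : ℂ := ((g 1 0 : ℝ) : ℂ) * Complex.I + ((g 1 1 : ℝ) : ℂ)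

theorem pha_den_ne {g : M2} (hg : 0 < g.det) : pha_den g ≠ 0 := by
  intro h
  have h1 := congrArg Complex.re h
  have h2 := congrArg Complex.im h
  unfold pha_den at h1 h2
  simp at h1 h2
  rw [Matrix.det_fin_two, h1, h2] at hg
  simp at hg

theorem pha_normsq (g : M2) : Complex.normSq (pha_den g) = g 1 0 ^ 2 + g 1 1 ^ 2 := by
  unfold pha_den
  rw [Complex.normSq_apply]
  simp
  ring

theorem pha_div_im (g : M2) : (pha_num g / pha_den g).im = g.det / Complex.normSq (pha_den g) := by
  rw [Complex.div_im, Matrix.det_fin_two]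
  have h1 : (pha_num g).im = g 0 0 := by unfold pha_num; simp
  have h2 : (pha_num g).re = g 0 1 := by unfold pha_num; simp
  have h3 : (pha_den g).im = g 1 0 := by unfold pha_den; simp
  have h4 : (pha_den g).re = g 1 1 := by unfold pha_den; simp
  rw [h1, h2, h3, h4, ← sub_div]

theorem pha_coe {g : M2} (hg : 0 < g.det) : ((zz g : ℍ) : ℂ) = pha_num g / pha_den g := by
  have h : 0 < (pha_num g / pha_den g).im := by
    rw [pha_div_im]
    exact div_pos hg (Complex.normSq_pos.2 (pha_den_ne hg))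
  have h5 := UpperHalfPlane.ofComplex_apply_of_im_pos h
  have h6 : (zz g : ℍ) = UpperHalfPlane.ofComplex (pha_num g / pha_den g) := rfl
  rw [h6, h5]

theorem pha_im {g : M2} (hg : 0 < g.det) : (zz g).im = g.det / ‖pha_den g‖ ^ 2 := by
  have h1 : (zz g).im = ((zz g : ℍ) : ℂ).im := rfl
  rw [h1, pha_coe hg, pha_div_im, Complex.normSq_eq_norm_sq]

section form
variable {N : ℕ} [Fact N.Prime] (f : S2 N)

omit [Fact N.Prime] in
theorem pha_pos {g : M2} (hg : 0 < g.det) : ph f g = (g.det : ℂ) / pha_den g ^ 2 * f (zz g) := by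
  unfold ph
  rw [if_pos hg]
  rfl

omit [Fact N.Prime] in
theorem pha_neg {g : M2} (hg : ¬ 0 < g.det) : ph f g = 0 := by
  unfold ph
  rw [if_neg hg]

/-- equality of the points from an equality of fractions -/
theorem pha_zz {g h : M2} (hg : 0 < g.det) (hh : 0 < h.det) {c : ℂ} (hc : c ≠ 0)
    (h1 : pha_num h = c * pha_num g) (h2 : pha_den h = c * pha_den g) : zz h = zz g := by
  apply UpperHalfPlane.ext
  rw [pha_coe hg, pha_coe hh, h1, h2, mul_div_mul_left _ _ hc]

theorem ph_g0_pr {u : M2} (hu : u ∈ G0m N) (g : M2) : ph f (u * g) = ph f g := by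
  obtain ⟨⟨a, b, c, d, h1⟩, h2⟩ := hu
  have hdet : (u * g).det = g.det := by rw [Matrix.det_mul, h2, one_mul]
  by_cases hg : 0 < g.det
  · have hug : 0 < (u * g).det := by rw [hdet]; exact hg
    have h3 : a * d - b * ((N : ℤ) * c) = 1 := by
      rw [h1, Matrix.det_fin_two] at h2
      simp at h2
      have : ((a * d - b * ((N : ℤ) * c) : ℤ) : ℝ) = ((1 : ℤ) : ℝ) := by
        push_cast
        linarith
      exact_mod_cast this
    set γ : SL(2, ℤ) := ⟨!![a, b; (N : ℤ) * c, d], by rw [Matrix.det_fin_two_of]; exact h3⟩ with hγd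
    have g00 : γ 0 0 = a := rfl
    have g01 : γ 0 1 = b := rfl
    have g10 : γ 1 0 = (N : ℤ) * c := rfl
    have g11 : γ 1 1 = d := rfl
    have hγ : γ ∈ CongruenceSubgroup.Gamma0 N := by
      rw [CongruenceSubgroup.Gamma0_mem, g10]
      push_cast
      simp
    have h4 := LEV.fam_equi f γ OnePoint.infty (zz g)
    rw [(LEV.pa_inf_iff (N := N) γ).2 hγ, LEV.fam_inf] at h4
    have hden := pha_den_ne hg
    have hz := pha_coe hg
    have e1 : pha_num (u * g) = ((a : ℤ) : ℂ) * pha_num g + ((b : ℤ) : ℂ) * pha_den g := by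
      unfold pha_num pha_den
      rw [h1]
      simp [Matrix.mul_apply, Fin.sum_univ_two]
      ring
    have e2 : pha_den (u * g) = ((N : ℂ) * (c : ℂ)) * pha_num g + ((d : ℤ) : ℂ) * pha_den g := by
      unfold pha_num pha_den
      rw [h1]
      simp [Matrix.mul_apply, Fin.sum_univ_two]
      ring
    have e3 : pha_den (u * g) = LEV.jd γ (zz g) * pha_den g := by
      unfold LEV.jd
      rw [g10, g11, hz, e2]
      push_cast
      field_simp
    have hj : LEV.jd γ (zz g) ≠ 0 := by
      intro h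
      rw [h, zero_mul] at e3
      exact pha_den_ne hug e3
    have e4 : zz (u * g) = γ • zz g := by
      apply UpperHalfPlane.ext
      rw [pha_coe hug, e1, e3, UpperHalfPlane.specialLinearGroup_apply]
      have e5 : LEV.jd γ (zz g) = ((γ 1 0 : ℤ) : ℂ) * (zz g : ℂ) + ((γ 1 1 : ℤ) : ℂ) := rfl
      rw [e5] at hj ⊢
      simp only [algebraMap_int_eq, eq_intCast, Complex.ofReal_intCast]
      rw [div_eq_div_iff (mul_ne_zero hj hden) hj, hz, g00, g01]
      field_simp
    rw [pha_pos f hg, pha_pos f hug, hdet, e4, h4, e3]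
    field_simp
  · have hug : ¬ 0 < (u * g).det := by rw [hdet]; exact hg
    rw [pha_neg f hg, pha_neg f hug]

theorem ph_smul_pr {c : ℝ} (hc : c ≠ 0) (g : M2) : ph f (c • g) = ph f g := by
  have hdet : (c • g).det = c ^ 2 * g.det := by
    rw [Matrix.det_smul]
    simp
  have hc2 : 0 < c ^ 2 := by positivity
  have hcc : (c : ℂ) ≠ 0 := by exact_mod_cast hc
  by_cases hg : 0 < g.det
  · have hug : 0 < (c • g).det := by rw [hdet]; positivity
    have e1 : pha_num (c • g) = (c : ℂ) * pha_num g := by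
      unfold pha_num
      simp
      ring
    have e2 : pha_den (c • g) = (c : ℂ) * pha_den g := by
      unfold pha_den
      simp
      ring
    rw [pha_pos f hg, pha_pos f hug, hdet, pha_zz hg hug hcc e1 e2, e2]
    have hden := pha_den_ne hg
    push_cast
    field_simp
  · have hug : ¬ 0 < (c • g).det := by
      rw [hdet]
      intro h
      exact hg (pos_of_mul_pos_right h hc2.le)
    rw [pha_neg f hg, pha_neg f hug]

theorem ph_kt_pr (g : M2) (t : ℝ) :
    ph f (g * kt t) = Complex.exp (2 * Complex.I * t) * ph f g := by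
  have hk : (kt t).det = 1 := by
    unfold kt
    rw [Matrix.det_fin_two_of]
    have := Real.cos_sq_add_sin_sq t
    nlinarith
  have hdet : (g * kt t).det = g.det := by rw [Matrix.det_mul, hk, mul_one]
  by_cases hg : 0 < g.det
  · have hug : 0 < (g * kt t).det := by rw [hdet]; exact hg
    have he : Complex.exp (-(Complex.I * t)) = ((Real.cos t : ℝ) : ℂ) - Complex.I * ((Real.sin t : ℝ) : ℂ) := by
      have : -(Complex.I * t) = ((-t : ℝ) : ℂ) * Complex.I := by push_cast; ring
      rw [this, Complex.exp_mul_I, ← Complex.ofReal_cos, ← Complex.ofReal_sin, Real.cos_neg,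
        Real.sin_neg]
      push_cast
      ring
    have e1 : pha_num (g * kt t) = Complex.exp (-(Complex.I * t)) * pha_num g := by
      rw [he]
      unfold pha_num kt
      simp [Matrix.mul_apply, Fin.sum_univ_two]
      linear_combination ((g 0 0 : ℝ) : ℂ) * Complex.sin t * Complex.I_sq
    have e2 : pha_den (g * kt t) = Complex.exp (-(Complex.I * t)) * pha_den g := by
      rw [he]
      unfold pha_den kt
      simp [Matrix.mul_apply, Fin.sum_univ_two]
      linear_combination ((g 1 0 : ℝ) : ℂ) * Complex.sin t * Complex.I_sq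
    have hden := pha_den_ne hg
    have hex := Complex.exp_ne_zero (-(Complex.I * t))
    rw [pha_pos f hg, pha_pos f hug, hdet, pha_zz hg hug hex e1 e2, e2]
    have h5 : Complex.exp (2 * Complex.I * t) * Complex.exp (-(Complex.I * t)) ^ 2 = 1 := by
      rw [← Complex.exp_nat_mul, ← Complex.exp_add]
      have : 2 * Complex.I * t + ((2 : ℕ) : ℂ) * -(Complex.I * t) = 0 := by push_cast; ring
      rw [this, Complex.exp_zero]
    have h6 : (1 : ℂ) / Complex.exp (-(Complex.I * t)) ^ 2 = Complex.exp (2 * Complex.I * t) := by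
      rw [div_eq_iff (pow_ne_zero 2 hex), h5]
    rw [← h6]
    field_simp
  · have hug : ¬ 0 < (g * kt t).det := by rw [hdet]; exact hg
    rw [pha_neg f hg, pha_neg f hug, mul_zero]

theorem ph_norm_pr {g : M2} (hg : 0 < g.det) : ‖ph f g‖ = ‖f (zz g)‖ * (zz g).im := by
  rw [pha_pos f hg, pha_im hg, norm_mul, norm_div, norm_pow, Complex.norm_real,
    Real.norm_of_nonneg hg.le]
  ring

theorem ph_bd_pr : ∃ C : ℝ, 0 < C ∧ ∀ g, ‖ph f g‖ ≤ C := by
  obtain ⟨C, hC⟩ := LEV.f_bound f
  refine ⟨max C 1, lt_of_lt_of_le one_pos (le_max_right _ _), fun g => ?_⟩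
  by_cases hg : 0 < g.det
  · rw [ph_norm_pr f hg]
    have h := hC OnePoint.infty (zz g)
    rw [LEV.fam_inf] at h
    exact h.trans (le_max_left _ _)
  · rw [pha_neg f hg, norm_zero]
    positivity

end form


end Pool.Agent.NN

namespace Pool.Agent.NN

theorem ph_g0 : type_of% @ph_g0_pr := @ph_g0_pr

theorem ph_smul : type_of% @ph_smul_pr := @ph_smul_pr

theorem ph_kt : type_of% @ph_kt_pr := @ph_kt_pr

theorem ph_norm : type_of% @ph_norm_pr := @ph_norm_pr

theorem ph_bd : type_of% @ph_bd_pr := @ph_bd_pr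

end Pool.Agent.NN
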