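import Pool.Agent.Lib_helper32.NN.Dfs2

namespace Pool.Agent.NN

open Complex MeasureTheory Filter Topology UpperHalfPlane Matrix
open scoped MatrixGroups ENNReal ComplexConjugate
open Pool.Agent.LEV (S2 co IsNew Lh)

theorem phm_ent (i j : Fin 2) : Measurable (fun g : M2 => g i j) :=
  (measurable_pi_apply j).comp (measurable_pi_apply i)

theorem phm_ofc : Measurable (fun z : ℂ => (UpperHalfPlane.ofComplex z : ℍ)) := by
  have h : Measurable (fun z : ℂ => ((UpperHalfPlane.ofComplex z : ℍ) : ℂ)) := by
    have h1 : (fun z : ℂ => ((UpperHalfPlane.ofComplex z : ℍ) : ℂ)) =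
        fun z => if 0 < z.im then z else ((Classical.choice inferInstance : ℍ) : ℂ) := by
      funext z
      rw [UpperHalfPlane.ofComplex_apply_eq_ite]
      split_ifs <;> rfl
    rw [h1]
    exact Measurable.ite (measurableSet_lt measurable_const Complex.measurable_im)
      measurable_id measurable_const
  exact measurable_comap_iff.2 h

theorem phm_den : Measurable (fun g : M2 =>
    (((g 1 0 : ℝ) : ℂ) * Complex.I + ((g 1 1 : ℝ) : ℂ))) :=
  ((Complex.measurable_ofReal.comp (phm_ent 1 0)).mul_const _).add
    (Complex.measurable_ofReal.comp (phm_ent 1 1))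

theorem zz_meas_pr : Measurable (fun g : M2 => zz g) := by
  unfold zz
  exact phm_ofc.comp ((((Complex.measurable_ofReal.comp (phm_ent 0 0)).mul_const _).add
    (Complex.measurable_ofReal.comp (phm_ent 0 1))).div phm_den)

theorem phm_det : Measurable (fun g : M2 => g.det) := by
  have h : (fun g : M2 => g.det) = fun g : M2 => g 0 0 * g 1 1 - g 0 1 * g 1 0 := by
    funext g
    exact Matrix.det_fin_two g
  rw [h]
  exact ((phm_ent 0 0).mul (phm_ent 1 1)).sub ((phm_ent 0 1).mul (phm_ent 1 0))

section
variable {N : ℕ} [Fact N.Prime] (f : S2 N)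

theorem ph_meas_pr : Measurable (ph f) := by
  have hf : Measurable f := (LEV.FRU_cont f).measurable
  unfold ph
  refine Measurable.ite (measurableSet_lt measurable_const phm_det) ?_ measurable_const
  exact ((Complex.measurable_ofReal.comp phm_det).div (phm_den.pow_const 2)).mul
    (hf.comp zz_meas_pr)

end

end Pool.Agent.NN

namespace Pool.Agent.NN

theorem ph_meas : type_of% @ph_meas_pr := @ph_meas_pr

theorem zz_meas : type_of% @zz_meas_pr := @zz_meas_pr

end Pool.Agent.NN
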