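import Pool.Agent.Lib_helper32.NN.Dfs2
import Pool.Agent.Lib_helper32.NNF.BLK
import Pool.Agent.Lib_helper32.NNF.CNT
import Pool.Agent.Lib_helper32.NNF.COV
import Pool.Agent.Lib_helper32.NNF.DEC
import Pool.Agent.Lib_helper32.NNF.MEA
import Pool.Agent.Lib_helper32.NNF.NUS
import Pool.Agent.Lib_helper32.NNF.PHA
import Pool.Agent.Lib_helper32.NNF.PHM

/-!
# NN block ABS (helper12): absolute convergence
-/

namespace Pool.Agent.NN

open Complex MeasureTheory Filter Topology UpperHalfPlane Matrix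
open scoped MatrixGroups ENNReal ComplexConjugate
open Pool.Agent.LEV (S2 co IsNew Lh)

theorem abs_mul2 {X Y : M2} {p q : ℝ} (hX : ∀ i j, |X i j| ≤ p) (hY : ∀ i j, |Y i j| ≤ q)
    (i j : Fin 2) : |(X * Y) i j| ≤ 2 * p * q := by
  have hp : 0 ≤ p := (abs_nonneg _).trans (hX 0 0)
  rw [Matrix.mul_apply, Fin.sum_univ_two]
  have h1 : |X i 0 * Y 0 j| ≤ p * q := by
    rw [abs_mul]
    exact mul_le_mul (hX _ _) (hY _ _) (abs_nonneg _) hp
  have h2 : |X i 1 * Y 1 j| ≤ p * q := by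
    rw [abs_mul]
    exact mul_le_mul (hX _ _) (hY _ _) (abs_nonneg _) hp
  calc _ ≤ |X i 0 * Y 0 j| + |X i 1 * Y 1 j| := abs_add_le _ _
    _ ≤ _ := by linarith

/-- the point `e i` -/
theorem abs_zz {e : M2} (he : 0 < e.det) : (zz e).im = e.det / (e 1 0 ^ 2 + e 1 1 ^ 2) ∧
    ‖((zz e : ℍ) : ℂ)‖ ^ 2 = (e 0 0 ^ 2 + e 0 1 ^ 2) / (e 1 0 ^ 2 + e 1 1 ^ 2) ∧
    0 < e 1 0 ^ 2 + e 1 1 ^ 2 := by
  have hd : e.det = e 0 0 * e 1 1 - e 0 1 * e 1 0 := Matrix.det_fin_two e
  have hpos : 0 < e 1 0 ^ 2 + e 1 1 ^ 2 := by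
    by_contra h
    have h1 : e 1 0 = 0 := by nlinarith [sq_nonneg (e 1 0), sq_nonneg (e 1 1)]
    have h2 : e 1 1 = 0 := by nlinarith [sq_nonneg (e 1 0), sq_nonneg (e 1 1)]
    rw [hd, h1, h2] at he
    simp at he
  set n : ℂ := ((e 0 0 : ℝ) : ℂ) * Complex.I + ((e 0 1 : ℝ) : ℂ) with hn
  set m : ℂ := ((e 1 0 : ℝ) : ℂ) * Complex.I + ((e 1 1 : ℝ) : ℂ) with hm
  have hms : normSq m = e 1 0 ^ 2 + e 1 1 ^ 2 := by
    rw [hm, normSq_apply]
    simp
    ring
  have hns : normSq n = e 0 0 ^ 2 + e 0 1 ^ 2 := by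
    rw [hn, normSq_apply]
    simp
    ring
  have him : (n / m).im = e.det / (e 1 0 ^ 2 + e 1 1 ^ 2) := by
    rw [Complex.div_im, hms, hd, hn, hm]
    simp
    ring
  have h0 : 0 < (n / m).im := by
    rw [him]
    exact div_pos he hpos
  have hz : ((zz e : ℍ) : ℂ) = n / m := by
    unfold zz
    rw [ofComplex_apply_of_im_pos h0]
  refine ⟨?_, ?_, hpos⟩
  · rw [← coe_im, hz, him]
  · rw [hz, norm_div, div_pow, ← Complex.normSq_eq_norm_sq, ← Complex.normSq_eq_norm_sq, hms, hns]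

/-- the entries in terms of the point `e i` -/
theorem abs_u {e : M2} (he : 0 < e.det) :
    e 0 0 ^ 2 + e 0 1 ^ 2 + e 1 0 ^ 2 + e 1 1 ^ 2 =
      e.det * ((‖((zz e : ℍ) : ℂ)‖ ^ 2 + 1) / (zz e).im) ∧
    1 ≤ (‖((zz e : ℍ) : ℂ)‖ ^ 2 + 1) / (zz e).im := by
  obtain ⟨h1, h2, h3⟩ := abs_zz he
  have key : e 0 0 ^ 2 + e 0 1 ^ 2 + e 1 0 ^ 2 + e 1 1 ^ 2 =
      e.det * ((‖((zz e : ℍ) : ℂ)‖ ^ 2 + 1) / (zz e).im) := by
    rw [h1, h2]
    field_simp
    ring
  refine ⟨key, ?_⟩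
  have hd : e.det = e 0 0 * e 1 1 - e 0 1 * e 1 0 := Matrix.det_fin_two e
  have h4 : e.det * 1 ≤ e.det * ((‖((zz e : ℍ) : ℂ)‖ ^ 2 + 1) / (zz e).im) := by
    rw [← key, hd]
    nlinarith [sq_nonneg (e 0 0 - e 1 1), sq_nonneg (e 0 1 + e 1 0), sq_nonneg (e 0 0),
      sq_nonneg (e 1 1), sq_nonneg (e 0 1), sq_nonneg (e 1 0)]
  exact le_of_mul_le_mul_left h4 he

section
variable {N : ℕ} [hN : Fact N.Prime] (f : S2 N)

theorem abs_jj {t0 t1 : ℝ} (ht0 : 0 < t0) : ∃ L : ℝ, 0 ≤ L ∧ ∀ (x : R3) (e : R4) (y : R3),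
    x ∈ bx N → (∀ i j, |(sy y) i j| ≤ 1) → t0 ≤ (ma e).det → (ma e).det ≤ t1 →
    (1 + ∑ i, ∑ j, |jj N (x, e, y) i j|) ^ 12 ≤
      L * ((‖((zz (ma e) : ℍ) : ℂ)‖ ^ 2 + 1) / (zz (ma e)).im) ^ 6 := by
  obtain ⟨K, hK⟩ : ∃ K : ℝ, K = 4 * N / t0 + 24 * N + 12 := ⟨_, rfl⟩
  refine ⟨(2 * (1 + 4 * K ^ 2 * |t1|)) ^ 6, by positivity, fun x e y hx hy h0 h1 => ?_⟩
  have hdet : 0 < (ma e).det := ht0.trans_le h0
  obtain ⟨u1, u2⟩ := abs_u hdet
  set u := (‖((zz (ma e) : ℍ) : ℂ)‖ ^ 2 + 1) / (zz (ma e)).im with hu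
  have hN1 : (1 : ℝ) ≤ N := by exact_mod_cast hN.out.one_le
  obtain ⟨ρ, hρ⟩ : ∃ ρ : ℝ, ρ = |ma e 0 0| + |ma e 0 1| + |ma e 1 0| + |ma e 1 1| := ⟨_, rfl⟩
  have a00 := abs_nonneg (ma e 0 0)
  have a01 := abs_nonneg (ma e 0 1)
  have a10 := abs_nonneg (ma e 1 0)
  have a11 := abs_nonneg (ma e 1 1)
  have hρ0 : 0 ≤ ρ := by rw [hρ]; positivity
  have hE : ∀ i j, |(ma e) i j| ≤ ρ := by
    intro i j
    rw [hρ]
    fin_cases i <;> fin_cases j
    · show |ma e 0 0| ≤ _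
      linarith
    · show |ma e 0 1| ≤ _
      linarith
    · show |ma e 1 0| ≤ _
      linarith
    · show |ma e 1 1| ≤ _
      linarith
  -- the matrix `P⁻¹ e`
  have hPE : ∀ i j, |(PI N * ma e) i j| ≤ ρ := by
    intro i j
    have hle : (N : ℝ)⁻¹ ≤ 1 := inv_le_one_of_one_le₀ hN1
    have hnn : 0 ≤ (N : ℝ)⁻¹ := by positivity
    have h2 : (PI N * ma e) i j = (![1, (N : ℝ)⁻¹] i) * ma e i j := by
      fin_cases i <;> fin_cases j <;> simp [PI, Matrix.mul_apply, Fin.sum_univ_two]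
    rw [h2, abs_mul]
    have h3 : |(![1, (N : ℝ)⁻¹] i : ℝ)| ≤ 1 := by
      fin_cases i
      · simp
      · show |(N : ℝ)⁻¹| ≤ 1
        rw [abs_of_nonneg hnn]
        exact hle
    calc _ ≤ 1 * ρ := mul_le_mul h3 (hE i j) (abs_nonneg _) zero_le_one
      _ = ρ := one_mul _
  -- the inverse
  have hPI : ∀ i j, |(((PI N * ma e)⁻¹)ᵀ) i j| ≤ N * ρ / t0 := by
    intro i j
    have hdetP : (PI N * ma e).det = (N : ℝ)⁻¹ * (ma e).det := by
      rw [Matrix.det_mul]
      congr 1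
      simp [PI, Matrix.det_fin_two_of]
    rw [Matrix.transpose_apply, Matrix.inv_def, Ring.inverse_eq_inv', hdetP, Matrix.smul_apply,
      Matrix.adjugate_fin_two, smul_eq_mul, abs_mul, mul_inv, inv_inv, abs_mul, abs_of_nonneg
      (by positivity : (0 : ℝ) ≤ N), abs_of_pos (inv_pos.2 hdet)]
    have h5 : |(!![(PI N * ma e) 1 1, -(PI N * ma e) 0 1; -(PI N * ma e) 1 0,
        (PI N * ma e) 0 0] : M2) j i| ≤ ρ := by
      fin_cases i <;> fin_cases j
      · show |(PI N * ma e) 1 1| ≤ ρ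
        exact hPE _ _
      · show |-(PI N * ma e) 1 0| ≤ ρ
        rw [abs_neg]
        exact hPE _ _
      · show |-(PI N * ma e) 0 1| ≤ ρ
        rw [abs_neg]
        exact hPE _ _
      · show |(PI N * ma e) 0 0| ≤ ρ
        exact hPE _ _
    have h6 : ((ma e).det)⁻¹ ≤ t0⁻¹ := inv_anti₀ ht0 h0
    calc _ ≤ (N * t0⁻¹) * ρ := by gcongr
      _ = N * ρ / t0 := by ring
  have hX : ∀ i j, |(sy x) i j| ≤ N := by
    obtain ⟨⟨x1, x2⟩, ⟨x3, x4⟩, x5, x6⟩ := hx
    intro i j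
    fin_cases i <;> fin_cases j
    · show |x.1| ≤ N
      rw [abs_of_nonneg x1]
      linarith
    · show |x.2.1| ≤ N
      rw [abs_of_nonneg x3]
      exact x4.le
    · show |x.2.1| ≤ N
      rw [abs_of_nonneg x3]
      exact x4.le
    · show |x.2.2| ≤ N
      rw [abs_of_nonneg x5]
      exact x6.le
  have hXE := abs_mul2 hX hPE
  have hXEY := abs_mul2 hXE hy
  have hEY := abs_mul2 hPE hy
  have hsum : ∑ i, ∑ j, |jj N (x, e, y) i j| ≤ K * ρ := by
    rw [jj_blocks]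
    simp only [Fintype.sum_sum_type, Fin.sum_univ_two, fromBlocks_apply₁₁, fromBlocks_apply₁₂,
      fromBlocks_apply₂₁, fromBlocks_apply₂₂, Matrix.add_apply]
    have b11 : ∀ i j, |((PI N * ma e)⁻¹)ᵀ i j + (sy x * (PI N * ma e) * sy y) i j| ≤
        N * ρ / t0 + 2 * (2 * N * ρ) * 1 := fun i j =>
      (abs_add_le _ _).trans (add_le_add (hPI i j) (hXEY i j))
    have s1 := b11 0 0
    have s2 := b11 0 1
    have s3 := b11 1 0
    have s4 := b11 1 1
    have s5 := hXE 0 0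
    have s6 := hXE 0 1
    have s7 := hXE 1 0
    have s8 := hXE 1 1
    have s9 := hEY 0 0
    have s10 := hEY 0 1
    have s11 := hEY 1 0
    have s12 := hEY 1 1
    have s13 := hPE 0 0
    have s14 := hPE 0 1
    have s15 := hPE 1 0
    have s16 := hPE 1 1
    have hKρ : K * ρ = 4 * (N * ρ / t0) + 24 * N * ρ + 12 * ρ := by
      rw [hK]; ring
    rw [hKρ]
    linarith
  have hK0 : 0 ≤ K := by rw [hK]; positivity
  have hρ2 : ρ ^ 2 ≤ 4 * (|t1| * u) := by
    have h7 : ρ ^ 2 ≤ 4 * (ma e 0 0 ^ 2 + ma e 0 1 ^ 2 + ma e 1 0 ^ 2 + ma e 1 1 ^ 2) := by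
      rw [hρ, ← sq_abs (ma e 0 0), ← sq_abs (ma e 0 1), ← sq_abs (ma e 1 0), ← sq_abs (ma e 1 1)]
      nlinarith [sq_nonneg (|ma e 0 0| - |ma e 0 1|), sq_nonneg (|ma e 0 0| - |ma e 1 0|),
        sq_nonneg (|ma e 0 0| - |ma e 1 1|), sq_nonneg (|ma e 0 1| - |ma e 1 0|),
        sq_nonneg (|ma e 0 1| - |ma e 1 1|), sq_nonneg (|ma e 1 0| - |ma e 1 1|)]
    rw [u1] at h7
    have h8 : (ma e).det * u ≤ |t1| * u :=
      mul_le_mul_of_nonneg_right (h1.trans (le_abs_self _)) (by linarith)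
    linarith
  have hs0 : 0 ≤ ∑ i, ∑ j, |jj N (x, e, y) i j| :=
    Finset.sum_nonneg fun _ _ => Finset.sum_nonneg fun _ _ => abs_nonneg _
  have h9 : (1 + ∑ i, ∑ j, |jj N (x, e, y) i j|) ^ 2 ≤ 2 * (1 + 4 * K ^ 2 * |t1|) * u := by
    have h10 : (1 + ∑ i, ∑ j, |jj N (x, e, y) i j|) ^ 2 ≤ (1 + K * ρ) ^ 2 := by
      apply pow_le_pow_left₀ (by linarith)
      linarith
    have h11 : (1 + K * ρ) ^ 2 ≤ 2 * (1 + K ^ 2 * ρ ^ 2) := by
      nlinarith [sq_nonneg (1 - K * ρ)]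
    have h12 : K ^ 2 * ρ ^ 2 ≤ K ^ 2 * (4 * (|t1| * u)) :=
      mul_le_mul_of_nonneg_left hρ2 (sq_nonneg _)
    nlinarith
  calc (1 + ∑ i, ∑ j, |jj N (x, e, y) i j|) ^ 12 =
      ((1 + ∑ i, ∑ j, |jj N (x, e, y) i j|) ^ 2) ^ 6 := by ring
    _ ≤ (2 * (1 + 4 * K ^ 2 * |t1|) * u) ^ 6 := pow_le_pow_left₀ (by positivity) h9 6
    _ = _ := by ring

theorem ff_abs_pr {h : ℝ → ℝ} (hh : HOK h) :
    ∫⁻ x, ‖FF f h x‖ₑ * (∑' q : GaN N ⧸ PN N, ‖FF f h (act N (rp N q) x)‖ₑ) * eta N x ∂(nu N) < ⊤ := by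
  classical
  obtain ⟨hm, ⟨B, hB⟩, t0, t1, ht0, hsupp⟩ := hh
  have hB0 : 0 ≤ B := (abs_nonneg _).trans (hB 0)
  obtain ⟨C1, hC1, hph⟩ := ph_bd f
  obtain ⟨C, hC⟩ := cnt f (h := h) ⟨hm, ⟨B, hB⟩, t0, t1, ht0, hsupp⟩
  obtain ⟨L, hL0, hL⟩ := abs_jj (N := N) (t0 := t0) (t1 := t1) ht0
  -- pointwise bound of `FF`
  have hFF : ∀ x, ‖FF f h x‖ₑ ≤ ENNReal.ofReal (C1 * B) := by
    intro x
    rw [← ofReal_norm]
    apply ENNReal.ofReal_le_ofReal
    unfold FF F0
    rw [norm_mul, norm_mul]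
    have h1 : ‖(if ∀ i j, |((db N x)⁻¹ * cb N x) i j| ≤ 1 then (1 : ℂ) else 0)‖ ≤ 1 := by
      split_ifs <;> simp
    have h2 : ‖((h (db N x).det : ℝ) : ℂ)‖ ≤ B := by
      rw [Complex.norm_real]
      exact hB _
    calc _ ≤ (C1 * B) * 1 := by
          apply mul_le_mul _ h1 (norm_nonneg _) (by positivity)
          exact mul_le_mul (hph _) h2 (norm_nonneg _) hC1.le
      _ = _ := mul_one _
  -- bound of the sum
  have hsum : ∀ x ∈ Matrix.symplecticGroup (Fin 2) ℝ,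
      (∑' q : GaN N ⧸ PN N, ‖FF f h (act N (rp N q) x)‖ₑ) ≤
        ENNReal.ofReal (C1 * B * (|C| * (1 + ∑ i, ∑ j, |x i j|) ^ 12)) := by
    intro x hx
    obtain ⟨hfin, hcard⟩ := hC x hx
    have h1 : (∑' q : GaN N ⧸ PN N, ‖FF f h (act N (rp N q) x)‖ₑ) =
        ∑ q ∈ hfin.toFinset, ‖FF f h (act N (rp N q) x)‖ₑ := by
      apply tsum_eq_sum
      intro q hq
      rw [Set.Finite.mem_toFinset] at hq
      have : FF f h (act N (rp N q) x) = 0 := by
        by_contra hne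
        exact hq hne
      rw [this]
      simp
    rw [h1]
    have h2 : ∑ q ∈ hfin.toFinset, ‖FF f h (act N (rp N q) x)‖ₑ ≤
        hfin.toFinset.card • ENNReal.ofReal (C1 * B) :=
      Finset.sum_le_card_nsmul _ _ _ fun q _ => hFF _
    refine h2.trans ?_
    rw [nsmul_eq_mul, ← ENNReal.ofReal_natCast, ← ENNReal.ofReal_mul (Nat.cast_nonneg _)]
    apply ENNReal.ofReal_le_ofReal
    rw [mul_comm]
    apply mul_le_mul_of_nonneg_left _ (by positivity)
    have h3 : (hfin.toFinset.card : ℝ) ≤ C * (1 + ∑ i, ∑ j, |x i j|) ^ 12 := by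
      rw [Set.ncard_eq_toFinset_card _ hfin] at hcard
      exact hcard
    refine h3.trans ?_
    exact mul_le_mul_of_nonneg_right (le_abs_self _) (by positivity)
  -- the majorant
  obtain ⟨K0, hK0⟩ : ∃ K0 : ℝ, K0 = B * (C1 * B * (|C| * L)) * |t1| := ⟨_, rfl⟩
  have hK00 : 0 ≤ K0 := by rw [hK0]; positivity
  set G : ℝ → ℝ≥0∞ := fun t => (Set.Icc t0 t1).indicator (fun _ => ENNReal.ofReal K0) t with hG
  set Ψ : ℍ → ℝ≥0∞ := fun z => ENNReal.ofReal (‖f z‖ * z.im * ((‖(z : ℂ)‖ ^ 2 + 1) / z.im) ^ 6) *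
    LEV.FUN_psi N z with hΨ
  set Bf : R4 → ℝ≥0∞ := fun e => if 0 < (ma e).det then G (ma e).det * Ψ (zz (ma e)) else 0 with hBf
  set Af : R3 → ℝ≥0∞ := (bx N).indicator (fun _ => 1) with hAf
  set Df : R3 → ℝ≥0∞ := (Set.Icc (-1) 1 ×ˢ Set.Icc (-1) 1 ×ˢ Set.Icc (-1) 1 : Set R3).indicator
    (fun _ => 1) with hDf
  have hGm : Measurable G := measurable_const.indicator measurableSet_Icc
  have hcoe : Measurable (fun z : ℍ => (z : ℂ)) := UpperHalfPlane.continuous_coe.measurable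
  have him : Measurable (fun z : ℍ => z.im) := UpperHalfPlane.continuous_im.measurable
  have hΨm : Measurable Ψ := by
    have h1 : Measurable (fun z : ℍ => ‖f z‖ * z.im * ((‖(z : ℂ)‖ ^ 2 + 1) / z.im) ^ 6) :=
      (((LEV.FRU_cont f).measurable.norm.mul him)).mul
        ((((hcoe.norm.pow_const 2).add_const 1).div him).pow_const 6)
    exact h1.ennreal_ofReal.mul LEV.FUN_psi_meas
  have hmam : Measurable (fun e : R4 => ma e) := by
    apply measurable_pi_lambda
    intro i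
    apply measurable_pi_lambda
    intro j
    fin_cases i <;> fin_cases j
    · exact measurable_fst
    · exact measurable_snd.fst
    · exact measurable_snd.snd.fst
    · exact measurable_snd.snd.snd
  have hdetm : Measurable (fun e : R4 => (ma e).det) := by
    have : (fun e : R4 => (ma e).det) = fun e : R4 => e.1 * e.2.2.2 - e.2.1 * e.2.2.1 := by
      funext e
      simp [ma, Matrix.det_fin_two_of]
    rw [this]
    fun_prop
  have hBm : Measurable Bf := by
    apply Measurable.ite (measurableSet_lt measurable_const hdetm) _ measurable_const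
    exact (hGm.comp hdetm).mul (hΨm.comp (zz_meas.comp hmam))
  have hAm : Measurable Af := by
    apply measurable_const.indicator
    exact measurableSet_Ico.prod (measurableSet_Ico.prod measurableSet_Ico)
  have hDm : Measurable Df := by
    apply measurable_const.indicator
    exact measurableSet_Icc.prod (measurableSet_Icc.prod measurableSet_Icc)
  -- the pointwise bound
  have hpt : ∀ w : R3 × R4 × R3, ENNReal.ofReal |(ma w.2.1).det| *
      (‖FF f h (jj N w)‖ₑ * ENNReal.ofReal (C1 * B * (|C| * (1 + ∑ i, ∑ j, |jj N w i j|) ^ 12)) *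
        eta N (jj N w)) ≤ Af w.1 * (Bf w.2.1 * Df w.2.2) := by
    rintro ⟨x, e, y⟩
    obtain ⟨c1, c2⟩ := cb_j N x e y
    by_cases hz : FF f h (jj N (x, e, y)) = 0
    · rw [hz]
      simp
    have hF : FF f h (jj N (x, e, y)) = ph f (ma e) * ((h (ma e).det : ℝ) : ℂ) *
        (if ∀ i j, |((ma e)⁻¹ * (ma e * sy y)) i j| ≤ 1 then 1 else 0) := by
      unfold FF F0
      rw [c1, c2]
    have hz' := hz
    rw [hF] at hz'
    have z1 : ph f (ma e) ≠ 0 := fun h0 => hz' (by rw [h0]; simp)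
    have z2 : h (ma e).det ≠ 0 := fun h0 => hz' (by rw [h0]; simp)
    have hdet : 0 < (ma e).det := by
      by_contra hn
      apply z1
      unfold ph
      rw [if_neg hn]
    have hun : IsUnit (ma e).det := isUnit_iff_ne_zero.2 hdet.ne'
    have hinv : (ma e)⁻¹ * (ma e * sy y) = sy y := by
      rw [← Matrix.mul_assoc, Matrix.nonsing_inv_mul _ hun, Matrix.one_mul]
    rw [hinv] at hF hz'
    have z3 : ∀ i j, |(sy y) i j| ≤ 1 := by
      by_contra hn
      apply hz'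
      rw [if_neg hn, mul_zero]
    rw [if_pos z3, mul_one] at hF
    obtain ⟨s0, s1⟩ := hsupp _ z2
    -- eta
    have heta : eta N (jj N (x, e, y)) = Af x * LEV.FUN_psi N (zz (ma e)) := by
      unfold eta
      rw [c2]
      have hb := jj_blocks N (x, e, y)
      have e12 : (jj N (x, e, y)).toBlocks₁₂ = sy x * (PI N * ma e) := by
        rw [hb, toBlocks_fromBlocks₁₂]
      have e22 : (jj N (x, e, y)).toBlocks₂₂ = PI N * ma e := by
        rw [hb, toBlocks_fromBlocks₂₂]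
      have hNne : (N : ℝ) ≠ 0 := by exact_mod_cast hN.out.ne_zero
      have hPE : IsUnit (PI N * ma e).det := by
        rw [Matrix.det_mul]
        apply IsUnit.mul _ hun
        rw [isUnit_iff_ne_zero]
        simp [PI, Matrix.det_fin_two_of, hNne]
      have e3 : ys ((jj N (x, e, y)).toBlocks₁₂ * ((jj N (x, e, y)).toBlocks₂₂)⁻¹) = x := by
        rw [e12, e22, Matrix.mul_assoc, Matrix.mul_nonsing_inv _ hPE, Matrix.mul_one]
        rfl
      rw [e3]
      congr 1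
    by_cases hx : x ∈ bx N
    swap
    · have : Af x = 0 := Set.indicator_of_notMem hx _
      rw [heta, this]
      simp
    have hAx : Af x = 1 := Set.indicator_of_mem hx _
    have hDy : Df y = 1 := by
      apply Set.indicator_of_mem
      exact ⟨abs_le.1 (z3 0 0), abs_le.1 (z3 0 1), abs_le.1 (z3 1 1)⟩
    have hBe : Bf e = ENNReal.ofReal K0 * Ψ (zz (ma e)) := by
      show (if 0 < (ma e).det then G (ma e).det * Ψ (zz (ma e)) else 0) = _
      rw [if_pos hdet]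
      congr 1
      exact Set.indicator_of_mem (show (ma e).det ∈ Set.Icc t0 t1 from ⟨s0, s1⟩) _
    show ENNReal.ofReal |(ma e).det| * (‖FF f h (jj N (x, e, y))‖ₑ *
      ENNReal.ofReal (C1 * B * (|C| * (1 + ∑ i, ∑ j, |jj N (x, e, y) i j|) ^ 12)) *
        eta N (jj N (x, e, y))) ≤ Af x * (Bf e * Df y)
    rw [heta, hAx, hDy, hBe, one_mul, one_mul, mul_one, hF, ← ofReal_norm, norm_mul,
      ph_norm f hdet, ← mul_assoc, ← mul_assoc, hΨ]
    simp only
    rw [← mul_assoc (ENNReal.ofReal K0)]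
    refine mul_le_mul_left ?_ _
    have hi0 : 0 ≤ (zz (ma e)).im := (zz (ma e)).im_pos.le
    have hiL := hL x e y hx z3 s0 s1
    set u := (‖((zz (ma e) : ℍ) : ℂ)‖ ^ 2 + 1) / (zz (ma e)).im with hu
    rw [← ENNReal.ofReal_mul (abs_nonneg _), ← ENNReal.ofReal_mul (by positivity),
      ← ENNReal.ofReal_mul hK00]
    apply ENNReal.ofReal_le_ofReal
    have hdt1 : |(ma e).det| ≤ |t1| := by
      rw [abs_of_pos hdet]
      exact s1.trans (le_abs_self _)
    have hhB : ‖((h (ma e).det : ℝ) : ℂ)‖ ≤ B := by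
      rw [Complex.norm_real]
      exact hB _
    have hfz : 0 ≤ ‖f (zz (ma e))‖ * (zz (ma e)).im := by positivity
    have hu6 : 0 ≤ L * u ^ 6 := le_trans (by positivity) hiL
    calc |(ma e).det| * (‖f (zz (ma e))‖ * (zz (ma e)).im * ‖((h (ma e).det : ℝ) : ℂ)‖) *
          (C1 * B * (|C| * (1 + ∑ i, ∑ j, |jj N (x, e, y) i j|) ^ 12))
        ≤ |t1| * (‖f (zz (ma e))‖ * (zz (ma e)).im * B) * (C1 * B * (|C| * (L * u ^ 6))) := by
          gcongr
      _ = K0 * (‖f (zz (ma e))‖ * (zz (ma e)).im * u ^ 6) := by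
          rw [hK0]; ring
  -- the integral
  calc ∫⁻ x, ‖FF f h x‖ₑ * (∑' q : GaN N ⧸ PN N, ‖FF f h (act N (rp N q) x)‖ₑ) * eta N x ∂(nu N)
      ≤ ∫⁻ x, ‖FF f h x‖ₑ * ENNReal.ofReal (C1 * B * (|C| * (1 + ∑ i, ∑ j, |x i j|) ^ 12)) *
          eta N x ∂(nu N) := by
        apply lintegral_mono_ae
        filter_upwards [nu_sp N] with x hx
        gcongr
        exact hsum x hx.1
    _ ≤ ∫⁻ w, ‖FF f h (jj N w)‖ₑ * ENNReal.ofReal (C1 * B * (|C| *
          (1 + ∑ i, ∑ j, |jj N w i j|) ^ 12)) * eta N (jj N w)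
          ∂((volume : Measure (R3 × R4 × R3)).withDensity
            (fun w => ENNReal.ofReal |(ma w.2.1).det|)) := lintegral_map_le _ _
    _ ≤ ∫⁻ w : R3 × R4 × R3, ENNReal.ofReal |(ma w.2.1).det| *
          (‖FF f h (jj N w)‖ₑ * ENNReal.ofReal (C1 * B * (|C| *
          (1 + ∑ i, ∑ j, |jj N w i j|) ^ 12)) * eta N (jj N w)) := by
        have hmd : Measurable (fun w : R3 × R4 × R3 => ENNReal.ofReal |(ma w.2.1).det|) := by
          have h1 : Measurable (fun w : R3 × R4 × R3 => (ma w.2.1).det) :=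
            hdetm.comp measurable_snd.fst
          exact (continuous_abs.measurable.comp h1).ennreal_ofReal
        exact lintegral_withDensity_le_lintegral_mul _ hmd _
    _ ≤ ∫⁻ w : R3 × R4 × R3, Af w.1 * (Bf w.2.1 * Df w.2.2) := lintegral_mono hpt
    _ = (∫⁻ x, Af x) * ((∫⁻ e, Bf e) * ∫⁻ y, Df y) := by
        have e1 : (volume : Measure (R3 × R4 × R3)) =
            (volume : Measure R3).prod (volume : Measure (R4 × R3)) := rfl
        have e2 : (volume : Measure (R4 × R3)) = (volume : Measure R4).prod (volume : Measure R3) :=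
          rfl
        have e3 := lintegral_prod_mul (μ := (volume : Measure R3)) (ν := (volume : Measure (R4 × R3)))
          (f := Af) (g := fun v => Bf v.1 * Df v.2) hAm.aemeasurable
          ((hBm.comp measurable_fst).mul (hDm.comp measurable_snd)).aemeasurable
        have e4 := lintegral_prod_mul (μ := (volume : Measure R4)) (ν := (volume : Measure R3))
          (f := Bf) (g := Df) hBm.aemeasurable hDm.aemeasurable
        rw [e1, e3, e2, e4]
    _ < ⊤ := by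
        have i1 : ∫⁻ x, Af x < ⊤ := by
          have hbx : MeasurableSet (bx N) :=
            measurableSet_Ico.prod (measurableSet_Ico.prod measurableSet_Ico)
          rw [hAf, lintegral_indicator_const hbx, one_mul]
          have : (volume : Measure R3) (bx N) = (volume : Measure ℝ) (Set.Ico 0 1) *
              ((volume : Measure ℝ) (Set.Ico 0 (N : ℝ)) * (volume : Measure ℝ) (Set.Ico 0 (N : ℝ))) := by
            unfold bx
            rw [Measure.volume_eq_prod, Measure.prod_prod, Measure.volume_eq_prod, Measure.prod_prod]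
          rw [this, Real.volume_Ico, Real.volume_Ico]
          exact ENNReal.mul_lt_top ENNReal.ofReal_lt_top
            (ENNReal.mul_lt_top ENNReal.ofReal_lt_top ENNReal.ofReal_lt_top)
        have i3 : ∫⁻ y, Df y < ⊤ := by
          rw [hDf, lintegral_indicator_const (measurableSet_Icc.prod
            (measurableSet_Icc.prod measurableSet_Icc)), one_mul]
          rw [Measure.volume_eq_prod, Measure.prod_prod, Measure.volume_eq_prod, Measure.prod_prod,
            Real.volume_Icc]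
          exact ENNReal.mul_lt_top ENNReal.ofReal_lt_top
            (ENNReal.mul_lt_top ENNReal.ofReal_lt_top ENNReal.ofReal_lt_top)
        have i2 : ∫⁻ e, Bf e < ⊤ := by
          rw [hBf, cov hGm hΨm]
          refine ENNReal.mul_lt_top (ENNReal.mul_lt_top ENNReal.ofReal_lt_top (dec f 6)) ?_
          calc ∫⁻ t in Set.Ioi (0 : ℝ), G t * ENNReal.ofReal t
              ≤ ∫⁻ t in Set.Ioi (0 : ℝ), (Set.Icc t0 t1).indicator
                  (fun _ => ENNReal.ofReal (K0 * |t1|)) t := by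
                apply lintegral_mono
                intro t
                show (Set.Icc t0 t1).indicator (fun _ => ENNReal.ofReal K0) t * ENNReal.ofReal t ≤
                  (Set.Icc t0 t1).indicator (fun _ => ENNReal.ofReal (K0 * |t1|)) t
                by_cases ht : t ∈ Set.Icc t0 t1
                · rw [Set.indicator_of_mem ht, Set.indicator_of_mem ht, ← ENNReal.ofReal_mul hK00]
                  apply ENNReal.ofReal_le_ofReal
                  exact mul_le_mul_of_nonneg_left (ht.2.trans (le_abs_self _)) hK00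
                · rw [Set.indicator_of_notMem ht, Set.indicator_of_notMem ht, zero_mul]
            _ ≤ ∫⁻ t, (Set.Icc t0 t1).indicator (fun _ => ENNReal.ofReal (K0 * |t1|)) t :=
                setLIntegral_le_lintegral _ _
            _ = ENNReal.ofReal (K0 * |t1|) * volume (Set.Icc t0 t1) :=
                lintegral_indicator_const measurableSet_Icc _
            _ < ⊤ := by
                rw [Real.volume_Icc]
                exact ENNReal.mul_lt_top ENNReal.ofReal_lt_top ENNReal.ofReal_lt_top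
        exact ENNReal.mul_lt_top i1 (ENNReal.mul_lt_top i2 i3)

end

end Pool.Agent.NN

namespace Pool.Agent.NN

theorem ff_abs : type_of% @ff_abs_pr := @ff_abs_pr

end Pool.Agent.NN
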