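import Pool.Agent.Lib_helper32.NN.Dfs2

/-!
# NN, block FRI: the Fricke relation on matrices
-/

namespace Pool.Agent.NN

open Complex MeasureTheory Filter Topology UpperHalfPlane Matrix
open scoped MatrixGroups ENNReal ComplexConjugate
open Pool.Agent.LEV (S2 co IsNew Lh)

/-- numerator of `g i` -/
noncomputable def fri_num (g : M2) : ℂ := ((g 0 0 : ℝ) : ℂ) * Complex.I + ((g 0 1 : ℝ) : ℂ)

/-- denominator of `g i` -/
noncomputable def fri_den (g : M2) : ℂ := ((g 1 0 : ℝ) : ℂ) * Complex.I + ((g 1 1 : ℝ) : ℂ)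

theorem fri_den_ne {g : M2} (hg : 0 < g.det) : fri_den g ≠ 0 := by
  intro h
  have h1 := congrArg Complex.re h
  have h2 := congrArg Complex.im h
  unfold fri_den at h1 h2
  simp at h1 h2
  rw [Matrix.det_fin_two, h1, h2] at hg
  simp at hg

theorem fri_num_ne {g : M2} (hg : 0 < g.det) : fri_num g ≠ 0 := by
  intro h
  have h1 := congrArg Complex.re h
  have h2 := congrArg Complex.im h
  unfold fri_num at h1 h2
  simp at h1 h2
  rw [Matrix.det_fin_two, h1, h2] at hg
  simp at hg

theorem fri_normsq (g : M2) : Complex.normSq (fri_den g) = g 1 0 ^ 2 + g 1 1 ^ 2 := by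
  unfold fri_den
  rw [Complex.normSq_apply]
  simp
  ring

theorem fri_div_im (g : M2) : (fri_num g / fri_den g).im = g.det / Complex.normSq (fri_den g) := by
  rw [Complex.div_im, Matrix.det_fin_two]
  have h1 : (fri_num g).im = g 0 0 := by unfold fri_num; simp
  have h2 : (fri_num g).re = g 0 1 := by unfold fri_num; simp
  have h3 : (fri_den g).im = g 1 0 := by unfold fri_den; simp
  have h4 : (fri_den g).re = g 1 1 := by unfold fri_den; simp
  rw [h1, h2, h3, h4, ← sub_div]

theorem fri_coe {g : M2} (hg : 0 < g.det) : ((zz g : ℍ) : ℂ) = fri_num g / fri_den g := by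
  have h : 0 < (fri_num g / fri_den g).im := by
    rw [fri_div_im]
    exact div_pos hg (Complex.normSq_pos.2 (fri_den_ne hg))
  have h5 := UpperHalfPlane.ofComplex_apply_of_im_pos h
  have h6 : (zz g : ℍ) = UpperHalfPlane.ofComplex (fri_num g / fri_den g) := rfl
  rw [h6, h5]

theorem ph_fricke_pr {N : ℕ} [Fact N.Prime] (f : S2 N) (hf : IsNew f) (h1 : co f N = 1) {e : M2}
    (he : 0 < e.det) : ph f (PP N * cof e) = ph f e := by
  have hNp : (0 : ℝ) < N := by exact_mod_cast (Fact.out : N.Prime).pos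
  have hN0 : (N : ℂ) ≠ 0 := by exact_mod_cast (Fact.out : N.Prime).ne_zero
  have hI : Complex.I ≠ 0 := Complex.I_ne_zero
  have hg : PP N * cof e = !![e 1 1, -e 1 0; (N : ℝ) * -e 0 1, (N : ℝ) * e 0 0] := by
    unfold PP cof
    ext i j
    fin_cases i <;> fin_cases j <;> simp
  have hdet : (PP N * cof e).det = N * e.det := by
    rw [hg, Matrix.det_fin_two_of, Matrix.det_fin_two]
    ring
  have hgd : 0 < (PP N * cof e).det := by
    rw [hdet]
    positivity
  have e1 : fri_num (PP N * cof e) = Complex.I * fri_den e := by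
    rw [hg]
    unfold fri_num fri_den
    simp
    linear_combination (-(e 1 0 : ℂ)) * Complex.I_sq
  have e2 : fri_den (PP N * cof e) = -(N * (Complex.I * fri_num e)) := by
    rw [hg]
    unfold fri_num fri_den
    simp
    linear_combination ((N : ℂ) * (e 0 0 : ℂ)) * Complex.I_sq
  have hden := fri_den_ne he
  have hnum := fri_num_ne he
  have hz := fri_coe he
  have e3 : zz (PP N * cof e) = LEV.wz N (zz e) := by
    apply UpperHalfPlane.ext
    rw [fri_coe hgd, e1, e2]
    change _ = -1 / ((N : ℂ) * (zz e : ℂ))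
    rw [hz]
    field_simp
  obtain ⟨W, hW⟩ := LEV.fricke_exists (N := N)
  have h2 := (LEV.new_fricke hf hW).1
  have h3 := hW f (zz e)
  rw [h2, h1] at h3
  have h4 : ((-1 : ℂ) • f) (zz e) = -f (zz e) := by
    rw [_root_.smul_apply, smul_eq_mul]
    ring
  rw [h4, hz] at h3
  have h5 : f (LEV.wz N (zz e)) = -((N : ℂ) * (fri_num e / fri_den e) ^ 2 * f (zz e)) := by
    have h6 : (N : ℂ) * (fri_num e / fri_den e) ^ 2 ≠ 0 :=
      mul_ne_zero hN0 (pow_ne_zero 2 (div_ne_zero hnum hden))
    rw [eq_comm, inv_mul_eq_iff_eq_mul₀ h6] at h3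
    rw [h3]
    ring
  have p1 : ph f (PP N * cof e) = ((PP N * cof e).det : ℂ) / fri_den (PP N * cof e) ^ 2 *
      f (zz (PP N * cof e)) := by
    unfold ph
    rw [if_pos hgd]
    rfl
  have p2 : ph f e = (e.det : ℂ) / fri_den e ^ 2 * f (zz e) := by
    unfold ph
    rw [if_pos he]
    rfl
  rw [p1, p2, e3, h5, e2, hdet]
  push_cast
  rw [neg_sq, mul_pow, mul_pow, Complex.I_sq]
  field_simp


end Pool.Agent.NN

namespace Pool.Agent.NN

theorem ph_fricke : type_of% @ph_fricke_pr := @ph_fricke_pr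

end Pool.Agent.NN
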