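import Pool.Agent.Lib_helper32.NN.Dfs2

/-!
# HMU: general Hecke multiplicativity
-/

namespace Pool.Agent.NN

open Complex MeasureTheory Filter Topology UpperHalfPlane Matrix
open scoped MatrixGroups ENNReal ComplexConjugate
open Pool.Agent.LEV (S2 co IsNew Lh)

section hmu

/-- the key recursion -/
theorem hmu_rec (A : ℕ → ℂ) (q : ℂ) (h0 : A 0 = 1)
    (hr : ∀ r, A (r + 2) = A 1 * A (r + 1) - q * A r) (i : ℕ) :
    ∀ t, A (i + 1) * A (i + 1 + t) = q * (A i * A (i + t)) + A (t + 2 * (i + 1)) := by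
  induction i with
  | zero =>
    intro t
    have := hr t
    rw [show t + 2 * (0 + 1) = t + 2 by ring, this, h0]
    rw [show 0 + 1 + t = t + 1 by ring]
    simp
  | succ i ih =>
    intro t
    have h1 := hr i
    have h2 := hr (i + 1 + t)
    have h3 := ih (t + 2)
    rw [show i + 1 + 1 = i + 2 by ring, h1]
    rw [show t + 2 * (i + 2) = t + 2 + 2 * (i + 1) by ring]
    rw [show i + 1 + (t + 2) = i + 1 + t + 2 by ring, h2] at h3
    rw [show i + (t + 2) = i + 1 + t + 1 by ring] at h3
    rw [show i + 2 + t = i + 1 + t + 1 by ring]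
    linear_combination h3

theorem hmu_loc (A : ℕ → ℂ) (q : ℂ) (h0 : A 0 = 1)
    (hr : ∀ r, A (r + 2) = A 1 * A (r + 1) - q * A r) (i : ℕ) :
    ∀ t, A i * A (i + t) = ∑ k ∈ Finset.range (i + 1), q ^ k * A (i + (i + t) - 2 * k) := by
  induction i with
  | zero =>
    intro t
    simp [h0]
  | succ i ih =>
    intro t
    rw [hmu_rec A q h0 hr i t, ih t, Finset.sum_range_succ' _ (i + 1), Finset.mul_sum]
    congr 1
    · refine Finset.sum_congr rfl fun k hk => ?_
      rw [pow_succ, show i + 1 + (i + 1 + t) - 2 * (k + 1) = i + (i + t) - 2 * k by omega]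
      ring
    · simp only [pow_zero, one_mul, mul_zero, Nat.sub_zero]
      congr 1
      ring

theorem hmu_loc2 (A : ℕ → ℂ) (q : ℂ) (h0 : A 0 = 1)
    (hr : ∀ r, A (r + 2) = A 1 * A (r + 1) - q * A r) (i j : ℕ) :
    A i * A j = ∑ k ∈ Finset.range (min i j + 1), q ^ k * A (i + j - 2 * k) := by
  rcases le_total i j with h | h
  · obtain ⟨t, rfl⟩ := Nat.exists_eq_add_of_le h
    rw [min_eq_left h]
    exact hmu_loc A q h0 hr i t
  · obtain ⟨t, rfl⟩ := Nat.exists_eq_add_of_le h
    rw [min_eq_right h, mul_comm]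
    rw [hmu_loc A q h0 hr j t]
    refine Finset.sum_congr rfl fun k hk => ?_
    rw [show j + (j + t) = j + t + j by ring]

/-- both kinds of primes -/
theorem hmu_prime (a : ℕ → ℂ) (N : ℕ) (h1 : a 1 = 1)
    (hh : ∀ p r : ℕ, p.Prime → p ≠ N → a (p ^ (r + 2)) = a p * a (p ^ (r + 1)) - (p : ℂ) * a (p ^ r))
    (hl : ∀ r : ℕ, a (N ^ r) = 1) (p : ℕ) (hp : p.Prime) (i j : ℕ) :
    a (p ^ i) * a (p ^ j) = ∑ k ∈ Finset.range (min i j + 1),
      (if p = N ∧ k ≠ 0 then 0 else (p : ℂ) ^ k) * a (p ^ (i + j - 2 * k)) := by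
  by_cases hN : p = N
  · subst hN
    rw [Finset.sum_range_succ']
    simp [hl]
  · rw [hmu_loc2 (fun k => a (p ^ k)) (p : ℂ) (by simpa using h1)
      (fun r => by simpa using hh p r hp hN) i j]
    refine Finset.sum_congr rfl fun k hk => ?_
    simp [hN]

theorem hmu_gen (a : ℕ → ℂ) (N : ℕ) (hN : N.Prime) (h1 : a 1 = 1)
    (hm : ∀ m n : ℕ, m.Coprime n → a (m * n) = a m * a n)
    (hh : ∀ p r : ℕ, p.Prime → p ≠ N → a (p ^ (r + 2)) = a p * a (p ^ (r + 1)) - (p : ℂ) * a (p ^ r))
    (hl : ∀ r : ℕ, a (N ^ r) = 1) (M : ℕ) :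
    ∀ m n : ℕ, 0 < m → 0 < n → m * n ≤ M →
      a m * a n = ∑ d ∈ (Nat.gcd m n).divisors, (if N ∣ d then 0 else (d : ℂ) * a (m * n / d ^ 2)) := by
  induction M using Nat.strong_induction_on with
  | _ M ih =>
    intro m n hm0 hn0 hM
    by_cases h : m * n = 1
    · have h3 : m = 1 := Nat.eq_one_of_mul_eq_one_right h
      have h4 : n = 1 := Nat.eq_one_of_mul_eq_one_left h
      subst h3 h4
      simp [h1, hN.one_lt.ne']
    · obtain ⟨p, hp, hpd⟩ := Nat.exists_prime_and_dvd h
      obtain ⟨i, m', hm', rfl⟩ := Nat.exists_eq_pow_mul_and_not_dvd hm0.ne' p hp.ne_one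
      obtain ⟨j, n', hn', rfl⟩ := Nat.exists_eq_pow_mul_and_not_dvd hn0.ne' p hp.ne_one
      have hm1 : 0 < m' := Nat.pos_of_mul_pos_left hm0
      have hn1 : 0 < n' := Nat.pos_of_mul_pos_left hn0
      have cm : ∀ k, (p ^ k).Coprime m' := fun k => Nat.Coprime.pow_left k ((hp.coprime_iff_not_dvd).2 hm')
      have cn : ∀ k, (p ^ k).Coprime n' := fun k => Nat.Coprime.pow_left k ((hp.coprime_iff_not_dvd).2 hn')
      have hij : i + j ≠ 0 := by
        intro hij
        have hi : i = 0 := by omega
        have hj : j = 0 := by omega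
        subst hi hj
        simp only [pow_zero, one_mul] at hpd
        rcases (hp.dvd_mul).1 hpd with h5 | h5
        · exact hm' h5
        · exact hn' h5
      have hlt : m' * n' < M := by
        have : p ^ i * m' * (p ^ j * n') = p ^ (i + j) * (m' * n') := by rw [pow_add]; ring
        rw [this] at hM
        have h2 : 1 < p ^ (i + j) := Nat.one_lt_pow hij hp.one_lt
        have h3 : 0 < m' * n' := Nat.mul_pos hm1 hn1
        nlinarith
      have key := ih (m' * n') hlt m' n' hm1 hn1 le_rfl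
      rw [hm _ _ (cm i), hm _ _ (cn j)]
      rw [show a (p ^ i) * a m' * (a (p ^ j) * a n') = (a (p ^ i) * a (p ^ j)) * (a m' * a n') by ring]
      rw [key, hmu_prime a N h1 hh hl p hp i j]
      have hg : Nat.gcd (p ^ i * m') (p ^ j * n') = p ^ (min i j) * Nat.gcd m' n' := by
        rw [Nat.Coprime.gcd_mul _ (cn j), Nat.gcd_comm (p ^ i * m') (p ^ j),
          Nat.Coprime.gcd_mul _ (cm i), Nat.gcd_comm (p ^ i * m') n', Nat.Coprime.gcd_mul _ (cm i)]
        rw [(cm j).gcd_eq_one, Nat.gcd_comm n' (p ^ i), (cn i).gcd_eq_one, mul_one, one_mul,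
          Nat.gcd_comm n' m']
        congr 1
        rcases le_total i j with hle | hle
        · rw [min_eq_left hle]
          exact Nat.gcd_eq_right (pow_dvd_pow p hle)
        · rw [min_eq_right hle]
          exact Nat.gcd_eq_left (pow_dvd_pow p hle)
      rw [hg]
      have hcop : (p ^ (min i j)).Coprime (Nat.gcd m' n') :=
        Nat.Coprime.coprime_dvd_right (Nat.gcd_dvd_left _ _) (cm _)
      have hpg : ∀ d ∈ (Nat.gcd m' n').divisors, ¬ p ∣ d := by
        intro d hd hpd'
        exact hm' ((hpd'.trans (Nat.dvd_of_mem_divisors hd)).trans (Nat.gcd_dvd_left _ _))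
      rw [Finset.sum_mul_sum, ← Finset.sum_product']
      refine Finset.sum_bij (fun x _ => p ^ x.1 * x.2) ?_ ?_ ?_ ?_
      · rintro ⟨k, d⟩ hx
        simp only [Finset.mem_product, Finset.mem_range, Nat.mem_divisors] at hx ⊢
        obtain ⟨hk, hd, hd0⟩ := hx
        exact ⟨Nat.mul_dvd_mul (pow_dvd_pow p (by omega)) hd,
          mul_ne_zero (pow_ne_zero _ hp.ne_zero) hd0⟩
      · rintro ⟨k, d⟩ hx ⟨k', d'⟩ hx' heq
        simp only [Finset.mem_product, Finset.mem_range] at hx hx'
        have e1 : ¬ p ∣ d := hpg d hx.2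
        have e2 : ¬ p ∣ d' := hpg d' hx'.2
        have hd0 : d ≠ 0 := fun h => e1 (h ▸ dvd_zero p)
        have hd0' : d' ≠ 0 := fun h => e2 (h ▸ dvd_zero p)
        simp only at heq
        have hf := congrArg (fun z => z.factorization p) heq
        simp only [Nat.factorization_mul (pow_ne_zero k hp.ne_zero) hd0,
          Nat.factorization_mul (pow_ne_zero k' hp.ne_zero) hd0', Finsupp.add_apply,
          Nat.factorization_eq_zero_of_not_dvd e1, Nat.factorization_eq_zero_of_not_dvd e2,
          Nat.Prime.factorization_pow hp, Finsupp.single_eq_same, add_zero] at hf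
        subst hf
        have := Nat.eq_of_mul_eq_mul_left (pow_pos hp.pos k) heq
        rw [this]
      · intro D hD
        have hD' := Nat.dvd_of_mem_divisors hD
        obtain ⟨x, y, hx, hy, hxy⟩ := (Nat.dvd_mul).1 hD'
        obtain ⟨k, hk, rfl⟩ := (Nat.dvd_prime_pow hp).1 hx
        refine ⟨(k, y), ?_, hxy⟩
        simp only [Finset.mem_product, Finset.mem_range, Nat.mem_divisors]
        exact ⟨by omega, hy, (Nat.gcd_pos_of_pos_left _ hm1).ne'⟩
      · rintro ⟨k, d⟩ hx
        simp only [Finset.mem_product, Finset.mem_range] at hx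
        have e1 : ¬ p ∣ d := hpg d hx.2
        have hdv := Nat.dvd_of_mem_divisors hx.2
        have hdm : d ∣ m' := hdv.trans (Nat.gcd_dvd_left _ _)
        have hdn : d ∣ n' := hdv.trans (Nat.gcd_dvd_right _ _)
        have hd2 : d ^ 2 ∣ m' * n' := by rw [sq]; exact Nat.mul_dvd_mul hdm hdn
        have hk : 2 * k ≤ i + j := by omega
        have hquot : p ^ i * m' * (p ^ j * n') / (p ^ k * d) ^ 2 =
            p ^ (i + j - 2 * k) * (m' * n' / d ^ 2) := by
          obtain ⟨c, hc⟩ := hd2
          have hd0 : 0 < d := Nat.pos_of_ne_zero (by rintro rfl; exact e1 (dvd_zero p))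
          have hdpos : 0 < d ^ 2 := pow_pos hd0 2
          rw [hc, Nat.mul_div_cancel_left _ hdpos]
          apply Nat.div_eq_of_eq_mul_left (pow_pos (Nat.mul_pos (pow_pos hp.pos k) hd0) 2)
          calc p ^ i * m' * (p ^ j * n') = p ^ (i + j) * (m' * n') := by rw [pow_add]; ring
            _ = p ^ (i + j - 2 * k + 2 * k) * (d ^ 2 * c) := by rw [hc, Nat.sub_add_cancel hk]
            _ = _ := by rw [pow_add]; ring
        have hcq : (p ^ (i + j - 2 * k)).Coprime (m' * n' / d ^ 2) := by
          apply Nat.Coprime.coprime_dvd_right (Nat.div_dvd_of_dvd hd2)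
          exact Nat.Coprime.mul_right (cm _) (cn _)
        simp only
        rw [hquot, hm _ _ hcq]
        by_cases hNd : N ∣ d
        · have : N ∣ p ^ k * d := Dvd.dvd.mul_left hNd _
          simp [hNd, this]
        · by_cases hpn : p = N ∧ k ≠ 0
          · have : N ∣ p ^ k * d := by
              rw [← hpn.1]
              exact Dvd.dvd.mul_right (dvd_pow_self p hpn.2) _
            rw [if_pos hpn, if_neg hNd, if_pos this]
            ring
          · have : ¬ N ∣ p ^ k * d := by
              intro hh2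
              rcases (hN.dvd_mul).1 hh2 with h5 | h5
              · have h6 := hN.dvd_of_dvd_pow h5
                have h7 := (Nat.prime_dvd_prime_iff_eq hN hp).1 h6
                apply hpn
                refine ⟨h7.symm, ?_⟩
                rintro rfl
                rw [pow_zero] at h5
                exact hN.one_lt.ne' (Nat.dvd_one.1 h5)
              · exact hNd h5
            rw [if_neg hpn, if_neg hNd, if_neg this]
            push_cast
            ring

end hmu

variable {N : ℕ} [Fact N.Prime] (f : S2 N)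

/-- HMU. general Hecke multiplicativity -/
theorem co_hecke_pr (hf : IsNew f) (h1 : co f N = 1) {m n : ℕ} (hm : 0 < m) (hn : 0 < n) :
    co f m * co f n = ∑ d ∈ (Nat.gcd m n).divisors.filter (fun d => ¬ N ∣ d),
      (d : ℂ) * co f (m * n / d ^ 2) := by
  have hl : ∀ r : ℕ, co f (N ^ r) = 1 := by
    intro r
    rcases r with _ | r
    · simpa using hf.one
    · rw [hf.level, h1, one_pow]
  rw [hmu_gen (co f) N Fact.out hf.one hf.mul hf.hecke hl (m * n) m n hm hn le_rfl,
    Finset.sum_filter]
  refine Finset.sum_congr rfl fun d _ => ?_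
  by_cases hd : N ∣ d <;> simp [hd]

end Pool.Agent.NN

namespace Pool.Agent.NN

theorem co_hecke : type_of% @co_hecke_pr := @co_hecke_pr

end Pool.Agent.NN
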