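import Pool.Agent.Lib_helper32.NN.Dfs2
import Pool.Agent.Lib_helper32.NNF.FRI
import Pool.Agent.Lib_helper32.NNF.HMU
import Pool.Agent.Lib_helper32.NNF.PHA

/-! Project NN, block HEC: the Hecke operators of the Eichler order. -/

set_option autoImplicit false

namespace Pool.Agent.NN

open Complex MeasureTheory Filter Topology UpperHalfPlane Matrix
open scoped MatrixGroups ENNReal ComplexConjugate
open Pool.Agent.LEV (S2 co IsNew Lh)

/-- the automorphy factor at `i` -/
noncomputable def hec_J (g : M2) : ℂ := ((g 1 0 : ℝ) : ℂ) * Complex.I + ((g 1 1 : ℝ) : ℂ)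

theorem hec_J_ne {g : M2} (hg : 0 < g.det) : hec_J g ≠ 0 := by
  intro h
  have h1 := congrArg Complex.re h
  have h2 := congrArg Complex.im h
  simp [hec_J] at h1 h2
  rw [Matrix.det_fin_two, h1, h2] at hg
  simp at hg

theorem hec_im {g : M2} (hg : 0 < g.det) :
    0 < ((((g 0 0 : ℝ) : ℂ) * Complex.I + ((g 0 1 : ℝ) : ℂ)) / hec_J g).im := by
  have hJ := hec_J_ne hg
  have h0 : 0 < Complex.normSq (hec_J g) := Complex.normSq_pos.2 hJ
  rw [Complex.div_im]
  have e1 : (((g 0 0 : ℝ) : ℂ) * Complex.I + ((g 0 1 : ℝ) : ℂ)).im = g 0 0 := by simp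
  have e2 : (((g 0 0 : ℝ) : ℂ) * Complex.I + ((g 0 1 : ℝ) : ℂ)).re = g 0 1 := by simp
  have e3 : (hec_J g).re = g 1 1 := by simp [hec_J]
  have e4 : (hec_J g).im = g 1 0 := by simp [hec_J]
  rw [e1, e2, e3, e4, ← sub_div]
  refine div_pos ?_ h0
  rw [Matrix.det_fin_two] at hg
  linarith

theorem hec_zz {g : M2} (hg : 0 < g.det) : ((zz g : ℍ) : ℂ) =
    (((g 0 0 : ℝ) : ℂ) * Complex.I + ((g 0 1 : ℝ) : ℂ)) / hec_J g := by
  unfold zz
  have h := UpperHalfPlane.ofComplex_apply_of_im_pos (hec_im hg)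
  unfold hec_J at h
  rw [h]
  rfl

section
variable {N : ℕ} [Fact N.Prime] (f : S2 N)

omit [Fact N.Prime] in
theorem hec_tri {A D : ℝ} (hA : 0 < A) (hD : 0 < D) (b : ℝ) {g : M2} (hg : 0 < g.det) :
    ∃ w : ℍ, (w : ℂ) = (A * (zz g : ℂ) + b) / D ∧
      ph f (!![A, b; 0, D] * g) = (g.det : ℂ) / hec_J g ^ 2 * ((A : ℂ) / D) * f w := by
  have hJ := hec_J_ne hg
  have hD' : (D : ℂ) ≠ 0 := by exact_mod_cast hD.ne'
  have hdet : (!![A, b; 0, D] * g).det = A * D * g.det := by
    rw [Matrix.det_mul, Matrix.det_fin_two_of]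
    ring
  have hpos : 0 < (!![A, b; 0, D] * g).det := by
    rw [hdet]
    positivity
  have e00 : (!![A, b; 0, D] * g) 0 0 = A * g 0 0 + b * g 1 0 := by
    simp [Matrix.mul_apply, Fin.sum_univ_two]
  have e01 : (!![A, b; 0, D] * g) 0 1 = A * g 0 1 + b * g 1 1 := by
    simp [Matrix.mul_apply, Fin.sum_univ_two]
  have e10 : (!![A, b; 0, D] * g) 1 0 = D * g 1 0 := by
    simp [Matrix.mul_apply, Fin.sum_univ_two]
  have e11 : (!![A, b; 0, D] * g) 1 1 = D * g 1 1 := by
    simp [Matrix.mul_apply, Fin.sum_univ_two]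
  have hJ' : hec_J (!![A, b; 0, D] * g) = D * hec_J g := by
    unfold hec_J
    rw [e10, e11]
    push_cast
    ring
  refine ⟨zz (!![A, b; 0, D] * g), ?_, ?_⟩
  · rw [hec_zz hpos, hJ', e00, e01, hec_zz hg]
    push_cast
    rw [div_eq_div_iff (mul_ne_zero hD' hJ) hD']
    have h1 : ((g 0 0 : ℝ) : ℂ) * Complex.I + ((g 0 1 : ℝ) : ℂ) =
        (((g 0 0 : ℝ) : ℂ) * Complex.I + ((g 0 1 : ℝ) : ℂ)) / hec_J g * hec_J g :=
      (div_mul_cancel₀ _ hJ).symm
    set q := (((g 0 0 : ℝ) : ℂ) * Complex.I + ((g 0 1 : ℝ) : ℂ)) / hec_J g with hq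
    have h2 : ((A : ℂ) * ((g 0 0 : ℝ) : ℂ) + (b : ℂ) * ((g 1 0 : ℝ) : ℂ)) * Complex.I +
        ((A : ℂ) * ((g 0 1 : ℝ) : ℂ) + (b : ℂ) * ((g 1 1 : ℝ) : ℂ)) =
        (A : ℂ) * (q * hec_J g) + b * hec_J g := by
      rw [← h1]
      unfold hec_J
      ring
    rw [h2]
    ring
  · have hd := hJ'
    unfold hec_J at hd
    unfold ph
    rw [if_pos hpos, hd, hdet]
    have : ((g 1 0 : ℝ) : ℂ) * Complex.I + ((g 1 1 : ℝ) : ℂ) = hec_J g := rfl
    rw [this]
    push_cast
    field_simp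

theorem hec_root {D : ℕ} (hD : 0 < D) (m : ℕ) :
    ∑ b ∈ Finset.range D, cexp (2 * Real.pi * Complex.I * m * (b / D)) =
      if D ∣ m then (D : ℂ) else 0 := by
  have hp := Complex.isPrimitiveRoot_exp D hD.ne'
  set ζ := cexp (2 * Real.pi * Complex.I / D) with hζ
  have h1 : ∀ b : ℕ, cexp (2 * Real.pi * Complex.I * m * (b / D)) = (ζ ^ m) ^ b := by
    intro b
    rw [hζ, ← pow_mul, ← Complex.exp_nat_mul]
    congr 1
    push_cast
    ring
  simp only [h1]
  split_ifs with h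
  · rw [(hp.pow_eq_one_iff_dvd m).2 h]
    simp
  · have h2 : ζ ^ m ≠ 1 := fun h3 => h ((hp.pow_eq_one_iff_dvd m).1 h3)
    rw [geom_sum_eq h2, ← pow_mul, mul_comm m D, pow_mul, hp.pow_eq_one, one_pow, sub_self,
      zero_div]

theorem hec_sum {A D : ℕ} (hA : 0 < A) (hD : 0 < D) {g : M2} (hg : 0 < g.det) :
    HasSum (fun k : ℕ => (g.det : ℂ) / hec_J g ^ 2 * A *
      (co f (D * k) * cexp (2 * Real.pi * Complex.I * k * (A * (zz g : ℂ)))))
      (∑ b ∈ Finset.range D, ph f (!![(A : ℝ), (b : ℝ); 0, (D : ℝ)] * g)) := by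
  have hA' : (0 : ℝ) < A := by exact_mod_cast hA
  have hD' : (0 : ℝ) < D := by exact_mod_cast hD
  have hDc : (D : ℂ) ≠ 0 := by exact_mod_cast hD.ne'
  set κ : ℂ := (g.det : ℂ) / hec_J g ^ 2 with hκ
  have h1 : ∀ b ∈ Finset.range D, HasSum (fun m : ℕ => κ * ((A : ℂ) / D) *
      (co f m * (cexp (2 * Real.pi * Complex.I * m * (A * (zz g : ℂ) / D)) *
        cexp (2 * Real.pi * Complex.I * m * (b / D)))))
      (ph f (!![(A : ℝ), (b : ℝ); 0, (D : ℝ)] * g)) := by
    intro b _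
    obtain ⟨w, hw, hph⟩ := hec_tri f hA' hD' (b : ℝ) hg
    rw [hph]
    have h2 := (LEV.qex f w).mul_left (κ * ((A : ℂ) / D))
    have e : (fun m : ℕ => κ * ((A : ℂ) / D) *
      (co f m * (cexp (2 * Real.pi * Complex.I * m * (A * (zz g : ℂ) / D)) *
        cexp (2 * Real.pi * Complex.I * m * (b / D))))) = fun m : ℕ => κ * ((A : ℂ) / D) *
        (co f m * cexp (2 * Real.pi * Complex.I * m * (w : ℂ))) := by
      funext m
      rw [hw, ← Complex.exp_add]
      congr 3
      push_cast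
      ring
    rw [e]
    push_cast at h2 ⊢
    exact h2
  have h3 := hasSum_sum h1
  have hi : Function.Injective (fun k : ℕ => D * k) := by
    intro x y hxy
    exact Nat.eq_of_mul_eq_mul_left hD hxy
  rw [← hi.hasSum_iff] at h3
  · have e : (fun k : ℕ => κ * A *
      (co f (D * k) * cexp (2 * Real.pi * Complex.I * k * (A * (zz g : ℂ))))) =
      ((fun m : ℕ => ∑ b ∈ Finset.range D, κ * ((A : ℂ) / D) *
      (co f m * (cexp (2 * Real.pi * Complex.I * m * (A * (zz g : ℂ) / D)) *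
        cexp (2 * Real.pi * Complex.I * m * (b / D))))) ∘ (fun k : ℕ => D * k)) := by
      funext k
      simp only [Function.comp]
      rw [← Finset.mul_sum, ← Finset.mul_sum, ← Finset.mul_sum, hec_root hD, if_pos (Dvd.intro k rfl)]
      have e2 : 2 * (Real.pi : ℂ) * Complex.I * ((D * k : ℕ) : ℂ) * (A * (zz g : ℂ) / D) =
          2 * Real.pi * Complex.I * k * (A * (zz g : ℂ)) := by
        push_cast
        field_simp
      rw [e2]
      field_simp
    rw [e]
    exact h3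
  · intro m hm
    have hnd : ¬ D ∣ m := by
      rintro ⟨k, rfl⟩
      exact hm ⟨k, rfl⟩
    rw [← Finset.mul_sum, ← Finset.mul_sum, ← Finset.mul_sum, hec_root hD, if_neg hnd]
    ring

/-- the sum over an upper triangular family, as a series over all `m` -/
theorem hec_E {a d : ℕ} (ha : 0 < a) (hd : 0 < d) {g : M2} (hg : 0 < g.det) :
    HasSum (fun m : ℕ => if a ∣ m then (g.det : ℂ) / hec_J g ^ 2 * a *
      (co f (d * (m / a)) * cexp (2 * Real.pi * Complex.I * m * (zz g : ℂ))) else 0)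
      (∑ b ∈ Finset.range d, ph f (!![(a : ℝ), (b : ℝ); 0, (d : ℝ)] * g)) := by
  have h3 := hec_sum f ha hd hg
  have hi : Function.Injective (fun k : ℕ => a * k) := by
    intro x y hxy
    exact Nat.eq_of_mul_eq_mul_left ha hxy
  rw [← hi.hasSum_iff]
  · have e : ((fun m : ℕ => if a ∣ m then (g.det : ℂ) / hec_J g ^ 2 * a *
      (co f (d * (m / a)) * cexp (2 * Real.pi * Complex.I * m * (zz g : ℂ))) else 0) ∘
        (fun k : ℕ => a * k)) = (fun k : ℕ => (g.det : ℂ) / hec_J g ^ 2 * a *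
      (co f (d * k) * cexp (2 * Real.pi * Complex.I * k * (a * (zz g : ℂ))))) := by
      funext k
      simp only [Function.comp]
      rw [if_pos (Dvd.intro k rfl), Nat.mul_div_cancel_left k ha]
      congr 3
      push_cast
      ring
    rw [e]
    exact h3
  · intro m hm
    rw [if_neg]
    rintro ⟨k, rfl⟩
    exact hm ⟨k, rfl⟩

theorem hec_fr (hf : IsNew f) (h1 : co f N = 1) {a b d : ℝ} (ha : 0 < a) (hb : 0 < b) {g : M2}
    (hg : 0 < g.det) :
    ph f (!![0, -b; a, d] * g) = - ph f (!![a, d; 0, N * b] * g) := by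
  have hN : (0 : ℝ) < N := by exact_mod_cast (Fact.out : N.Prime).pos
  set U : M2 := !![a, d; 0, N * b] * g with hU
  have hUdet : 0 < U.det := by
    rw [hU, Matrix.det_mul, Matrix.det_fin_two_of]
    have : 0 < a * (N * b) - d * 0 := by
      have : 0 < a * (N * b) := by positivity
      linarith
    positivity
  have h2 := ph_fricke f hf h1 hUdet
  have h3 := ph_kt f (PP N * cof U) (Real.pi / 2)
  have e1 : cexp (2 * Complex.I * ((Real.pi / 2 : ℝ) : ℂ)) = -1 := by
    rw [← Complex.exp_pi_mul_I]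
    congr 1
    push_cast
    ring
  rw [e1, h2] at h3
  have e2 : PP N * cof U * kt (Real.pi / 2) = (-(N : ℝ)) • (!![0, -b; a, d] * g) := by
    rw [hU, Matrix.eta_fin_two g]
    ext i j
    fin_cases i <;> fin_cases j <;>
      simp [PP, cof, kt, Matrix.mul_apply, Fin.sum_univ_two] <;> ring
  rw [e2, ph_smul f (neg_ne_zero.2 hN.ne')] at h3
  rw [h3]
  ring

/-- the first type of representatives -/
theorem hec_HR1 {n : ℕ} (hn : 0 < n) (F : Matrix (Fin 2) (Fin 2) ℤ → ℂ) :
    ∑ C ∈ HR1 n, F C = ∑ a ∈ n.divisors, ∑ b ∈ Finset.range (n / a),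
      F !![(a : ℤ), (b : ℤ); 0, ((n / a : ℕ) : ℤ)] := by
  unfold HR1
  rw [Finset.sum_image, Finset.sum_sigma']
  · symm
    refine Finset.sum_nbij' (fun x => (x.1, x.2, n / x.1)) (fun t => ⟨t.1, t.2.1⟩) ?_ ?_ ?_ ?_ ?_
    · rintro ⟨a, b⟩ h
      rw [Finset.mem_sigma, Nat.mem_divisors, Finset.mem_range] at h
      obtain ⟨⟨h1, _⟩, h2⟩ := h
      have h3 : a * (n / a) = n := Nat.mul_div_cancel' h1
      have h4 : a ≤ n := Nat.le_of_dvd hn h1
      have h5 : n / a ≤ n := Nat.div_le_self n a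
      rw [Finset.mem_filter, Finset.mem_product, Finset.mem_product, Finset.mem_range,
        Finset.mem_range, Finset.mem_range]
      dsimp only at h2 ⊢
      refine ⟨⟨by omega, by omega, by omega⟩, h3, h2⟩
    · rintro ⟨a, b, d⟩ h
      rw [Finset.mem_filter] at h
      obtain ⟨_, h1, h2⟩ := h
      dsimp only at h1 h2
      rw [Finset.mem_sigma, Nat.mem_divisors, Finset.mem_range]
      dsimp only
      have ha : 0 < a := by
        rcases Nat.eq_zero_or_pos a with h | h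
        · rw [h, zero_mul] at h1
          omega
        · exact h
      refine ⟨⟨⟨d, h1.symm⟩, hn.ne'⟩, ?_⟩
      rw [← h1, Nat.mul_div_cancel_left d ha]
      exact h2
    · rintro ⟨a, b⟩ _
      rfl
    · rintro ⟨a, b, d⟩ h
      rw [Finset.mem_filter] at h
      obtain ⟨_, h1, h2⟩ := h
      dsimp only at h1 h2 ⊢
      have ha : 0 < a := by
        rcases Nat.eq_zero_or_pos a with h | h
        · rw [h, zero_mul] at h1
          omega
        · exact h
      rw [← h1, Nat.mul_div_cancel_left d ha]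
    · rintro ⟨a, b⟩ _
      rfl
  · rintro ⟨a, b, d⟩ _ ⟨a', b', d'⟩ _ h
    have h1 := congrFun (congrFun h 0) 0
    have h2 := congrFun (congrFun h 0) 1
    have h3 := congrFun (congrFun h 1) 1
    simp at h1 h2 h3
    rw [h1, h2, h3]

/-- the second type of representatives -/
theorem hec_HR2 {n : ℕ} (hn : 0 < n) (F : Matrix (Fin 2) (Fin 2) ℤ → ℂ) :
    ∑ C ∈ HR2 N n, F C = ∑ a ∈ n.divisors.filter (fun a => N ∣ a), ∑ d ∈ Finset.range (N * (n / a)),
      F !![0, -((n / a : ℕ) : ℤ); (a : ℤ), (d : ℤ)] := by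
  have hN : 0 < N := (Fact.out : N.Prime).pos
  unfold HR2
  rw [Finset.sum_image, Finset.sum_sigma']
  · symm
    refine Finset.sum_nbij' (fun x => (x.1 / N, n / x.1, x.2)) (fun t => ⟨N * t.1, t.2.2⟩)
      ?_ ?_ ?_ ?_ ?_
    · rintro ⟨a, d⟩ h
      rw [Finset.mem_sigma, Finset.mem_filter, Nat.mem_divisors, Finset.mem_range] at h
      obtain ⟨⟨⟨h1, _⟩, h0⟩, h2⟩ := h
      dsimp only at h0 h1 h2
      have h3 : a * (n / a) = n := Nat.mul_div_cancel' h1
      have h6 : N * (a / N) = a := Nat.mul_div_cancel' h0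
      have h4 : a / N ≤ n := (Nat.div_le_self a N).trans (Nat.le_of_dvd hn h1)
      have h5 : n / a ≤ n := Nat.div_le_self n a
      have h7 : N * (n / a) ≤ n := by
        calc N * (n / a) ≤ a * (n / a) :=
              Nat.mul_le_mul_right _ (Nat.le_of_dvd (Nat.pos_of_dvd_of_pos h1 hn) h0)
          _ = n := h3
      rw [Finset.mem_filter, Finset.mem_product, Finset.mem_product, Finset.mem_range,
        Finset.mem_range, Finset.mem_range]
      dsimp only
      refine ⟨⟨by omega, by omega, by omega⟩, ?_, h2⟩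
      rw [h6, h3]
    · rintro ⟨a, b, d⟩ h
      rw [Finset.mem_filter] at h
      obtain ⟨_, h1, h2⟩ := h
      dsimp only at h1 h2
      rw [Finset.mem_sigma, Finset.mem_filter, Nat.mem_divisors, Finset.mem_range]
      dsimp only
      have ha : 0 < N * a := by
        rcases Nat.eq_zero_or_pos (N * a) with h | h
        · rw [h, zero_mul] at h1
          omega
        · exact h
      refine ⟨⟨⟨⟨b, h1.symm⟩, hn.ne'⟩, Dvd.intro a rfl⟩, ?_⟩
      have h3 : n / (N * a) = b := by rw [← h1, Nat.mul_div_cancel_left b ha]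
      rw [h3]
      exact h2
    · rintro ⟨a, d⟩ h
      rw [Finset.mem_sigma, Finset.mem_filter] at h
      obtain ⟨⟨_, h0⟩, _⟩ := h
      dsimp only at h0 ⊢
      rw [Nat.mul_div_cancel' h0]
    · rintro ⟨a, b, d⟩ h
      rw [Finset.mem_filter] at h
      obtain ⟨_, h1, h2⟩ := h
      dsimp only at h1 h2 ⊢
      have ha : 0 < N * a := by
        rcases Nat.eq_zero_or_pos (N * a) with h | h
        · rw [h, zero_mul] at h1
          omega
        · exact h
      have h3 : n / (N * a) = b := by rw [← h1, Nat.mul_div_cancel_left b ha]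
      rw [h3, Nat.mul_div_cancel_left a hN]
    · rintro ⟨a, d⟩ h
      rw [Finset.mem_sigma, Finset.mem_filter] at h
      obtain ⟨⟨_, h0⟩, _⟩ := h
      dsimp only at h0 ⊢
      have h6 : (N : ℤ) * ((a / N : ℕ) : ℤ) = (a : ℤ) := by
        exact_mod_cast Nat.mul_div_cancel' h0
      rw [h6]
  · rintro ⟨a, b, d⟩ _ ⟨a', b', d'⟩ _ h
    have h1 := congrFun (congrFun h 1) 0
    have h2 := congrFun (congrFun h 0) 1
    have h3 := congrFun (congrFun h 1) 1
    simp [hN.ne'] at h1 h2 h3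
    rw [h1, h2, h3]

theorem hec_disj {n : ℕ} (hn : 0 < n) : Disjoint (HR1 n) (HR2 N n) := by
  have hN : 0 < N := (Fact.out : N.Prime).pos
  rw [Finset.disjoint_left]
  intro C h1 h2
  unfold HR1 at h1
  unfold HR2 at h2
  rw [Finset.mem_image] at h1 h2
  obtain ⟨⟨a, b, d⟩, _, rfl⟩ := h1
  obtain ⟨⟨a', b', d'⟩, h3, h4⟩ := h2
  rw [Finset.mem_filter] at h3
  obtain ⟨_, h3, _⟩ := h3
  have h5 := congrFun (congrFun h4 1) 0
  simp [hN.ne'] at h5
  dsimp only at h3
  rw [h5] at h3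
  simp at h3
  omega

omit [Fact N.Prime] in
theorem hec_det {n : ℕ} {C : Matrix (Fin 2) (Fin 2) ℤ} (h : C ∈ HR N n) : (toR C).det = n := by
  unfold HR at h
  rcases Finset.mem_union.1 h with h | h
  · unfold HR1 at h
    rw [Finset.mem_image] at h
    obtain ⟨⟨a, b, d⟩, h1, rfl⟩ := h
    rw [Finset.mem_filter] at h1
    obtain ⟨_, h2, _⟩ := h1
    dsimp only at h2
    rw [Matrix.det_fin_two, ← h2]
    simp [toR]
  · unfold HR2 at h
    rw [Finset.mem_image] at h
    obtain ⟨⟨a, b, d⟩, h1, rfl⟩ := h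
    rw [Finset.mem_filter] at h1
    obtain ⟨_, h2, _⟩ := h1
    dsimp only at h2
    rw [Matrix.det_fin_two, ← h2]
    simp [toR]
    ring

theorem ph_hecke_pr (hf : IsNew f) (h1 : co f N = 1) {n : ℕ} (hn : 0 < n) (g : M2) :
    ∑ C ∈ HR N n, ph f (toR C * g) = co f n * ph f g := by
  have hNp : N.Prime := Fact.out
  have hN : 0 < N := hNp.pos
  rcases le_or_gt g.det 0 with hg | hg
  · have e1 : ph f g = 0 := by
      unfold ph
      rw [if_neg (not_lt.2 hg)]
    rw [e1, mul_zero]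
    refine Finset.sum_eq_zero fun C hC => ?_
    have h2 := hec_det hC
    unfold ph
    rw [if_neg]
    rw [not_lt, Matrix.det_mul, h2]
    exact mul_nonpos_of_nonneg_of_nonpos (by positivity) hg
  have hcoN : ∀ m : ℕ, co f (N * m) = co f m := by
    intro m
    rcases Nat.eq_zero_or_pos m with h | hm
    · rw [h, mul_zero]
    have h2 := co_hecke f hf h1 hN hm
    have h3 : (Nat.gcd N m).divisors.filter (fun d => ¬ N ∣ d) = {1} := by
      ext d
      rw [Finset.mem_filter, Nat.mem_divisors, Finset.mem_singleton]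
      constructor
      · rintro ⟨⟨h4, _⟩, h5⟩
        have h6 : d ∣ N := h4.trans (Nat.gcd_dvd_left _ _)
        rcases (Nat.dvd_prime hNp).1 h6 with h | h
        · exact h
        · exact absurd (h ▸ dvd_refl N) h5
      · rintro rfl
        refine ⟨⟨one_dvd _, (Nat.gcd_pos_of_pos_left _ hN).ne'⟩, ?_⟩
        intro h
        exact hNp.one_lt.ne' (Nat.dvd_one.1 h)
    rw [h3, Finset.sum_singleton, h1, one_mul, Nat.cast_one, one_mul, one_pow, Nat.div_one] at h2
    exact h2.symm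
  have hz := hec_J_ne hg
  set κ : ℂ := (g.det : ℂ) / hec_J g ^ 2 with hκ
  -- the sum over the representatives
  have hV : ∀ (a d : ℕ), (∑ b ∈ Finset.range d, ph f (toR !![(a : ℤ), (b : ℤ); 0, (d : ℤ)] * g)) =
      ∑ b ∈ Finset.range d, ph f (!![(a : ℝ), (b : ℝ); 0, (d : ℝ)] * g) := by
    intro a d
    refine Finset.sum_congr rfl fun b _ => ?_
    congr 2
    ext i j
    fin_cases i <;> fin_cases j <;> simp [toR]
  have hW : ∀ a ∈ n.divisors.filter (fun a => N ∣ a), (∑ d ∈ Finset.range (N * (n / a)),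
      ph f (toR !![0, -((n / a : ℕ) : ℤ); (a : ℤ), (d : ℤ)] * g)) =
      -∑ b ∈ Finset.range (n / a), ph f (!![(a : ℝ), (b : ℝ); 0, ((n / a : ℕ) : ℝ)] * g) := by
    intro a ha
    rw [Finset.mem_filter, Nat.mem_divisors] at ha
    obtain ⟨⟨ha1, _⟩, ha2⟩ := ha
    have ha0 : 0 < a := Nat.pos_of_dvd_of_pos ha1 hn
    have hb0 : 0 < n / a := Nat.div_pos (Nat.le_of_dvd hn ha1) ha0
    have e1 : ∀ d ∈ Finset.range (N * (n / a)),
        ph f (toR !![0, -((n / a : ℕ) : ℤ); (a : ℤ), (d : ℤ)] * g) =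
        -ph f (!![(a : ℝ), (d : ℝ); 0, ((N * (n / a) : ℕ) : ℝ)] * g) := by
      intro d _
      have e2 := hec_fr f hf h1 (a := (a : ℝ)) (b := ((n / a : ℕ) : ℝ)) (d := (d : ℝ))
        (by exact_mod_cast ha0) (by exact_mod_cast hb0) hg
      have e3 : toR !![0, -((n / a : ℕ) : ℤ); (a : ℤ), (d : ℤ)] =
          !![0, -((n / a : ℕ) : ℝ); (a : ℝ), (d : ℝ)] := by
        generalize n / a = q
        ext i j
        fin_cases i <;> fin_cases j <;> simp [toR]
      rw [e3, e2, Nat.cast_mul]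
    rw [Finset.sum_congr rfl e1, Finset.sum_neg_distrib]
    congr 1
    have s1 := hec_sum f ha0 (Nat.mul_pos hN hb0) hg
    have s2 := hec_sum f ha0 hb0 hg
    have e4 : (fun k : ℕ => (g.det : ℂ) / hec_J g ^ 2 * a *
      (co f (N * (n / a) * k) * cexp (2 * Real.pi * Complex.I * k * (a * (zz g : ℂ))))) =
      (fun k : ℕ => (g.det : ℂ) / hec_J g ^ 2 * a *
      (co f ((n / a) * k) * cexp (2 * Real.pi * Complex.I * k * (a * (zz g : ℂ))))) := by
      funext k
      rw [mul_assoc N, hcoN]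
    rw [e4] at s1
    exact s1.unique s2
  have hsum : ∑ C ∈ HR N n, ph f (toR C * g) =
      ∑ a ∈ n.divisors.filter (fun a => ¬ N ∣ a), ∑ b ∈ Finset.range (n / a),
        ph f (!![(a : ℝ), (b : ℝ); 0, ((n / a : ℕ) : ℝ)] * g) := by
    unfold HR
    rw [Finset.sum_union (hec_disj hn), hec_HR1 hn, hec_HR2 (N := N) hn, Finset.sum_congr rfl hW,
      Finset.sum_neg_distrib]
    simp only [hV]
    rw [← Finset.sum_filter_add_sum_filter_not n.divisors (fun a => N ∣ a)]
    ring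
  rw [hsum]
  -- compare the two series
  have hs1 := hasSum_sum (s := n.divisors.filter (fun a => ¬ N ∣ a)) (fun a ha => hec_E f
    (Nat.pos_of_dvd_of_pos (Nat.dvd_of_mem_divisors (Finset.mem_filter.1 ha).1) hn)
    (Nat.div_pos (Nat.le_of_dvd hn (Nat.dvd_of_mem_divisors (Finset.mem_filter.1 ha).1))
      (Nat.pos_of_dvd_of_pos (Nat.dvd_of_mem_divisors (Finset.mem_filter.1 ha).1) hn)) hg)
  have hs2 := (LEV.qex f (zz g)).mul_left (co f n * κ)
  have e5 : co f n * ph f g = co f n * κ * f (zz g) := by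
    unfold ph
    rw [if_pos hg]
    rw [hκ]
    unfold hec_J
    ring
  rw [e5]
  refine hs1.unique ?_
  have e6 : (fun m : ℕ => co f n * κ * (co f m * cexp (2 * Real.pi * Complex.I * m * (zz g : ℂ)))) =
      (fun m : ℕ => ∑ a ∈ n.divisors.filter (fun a => ¬ N ∣ a),
        if a ∣ m then (g.det : ℂ) / hec_J g ^ 2 * a *
      (co f (n / a * (m / a)) * cexp (2 * Real.pi * Complex.I * m * (zz g : ℂ))) else 0) := by
    funext m
    rcases Nat.eq_zero_or_pos m with hm | hm
    · rw [hm, LEV.co_zero]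
      simp [LEV.co_zero]
    have e7 := co_hecke f hf h1 hn hm
    have e8 : co f n * κ * (co f m * cexp (2 * Real.pi * Complex.I * m * (zz g : ℂ))) =
        κ * cexp (2 * Real.pi * Complex.I * m * (zz g : ℂ)) * (co f n * co f m) := by ring
    rw [e8, e7, Finset.mul_sum]
    rw [← Finset.sum_filter, Finset.filter_filter]
    refine Finset.sum_congr ?_ ?_
    · ext a
      rw [Finset.mem_filter, Finset.mem_filter, Nat.mem_divisors, Nat.mem_divisors,
        Nat.dvd_gcd_iff]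
      constructor
      · rintro ⟨⟨⟨h2, h3⟩, _⟩, h4⟩
        exact ⟨⟨h2, hn.ne'⟩, h4, h3⟩
      · rintro ⟨⟨h2, _⟩, h4, h3⟩
        exact ⟨⟨⟨h2, h3⟩, (Nat.gcd_pos_of_pos_left _ hn).ne'⟩, h4⟩
    · intro a ha
      rw [Finset.mem_filter, Nat.mem_divisors] at ha
      obtain ⟨⟨⟨k, hk⟩, _⟩, _, ⟨l, hl⟩⟩ := ha
      have ha0 : 0 < a := by
        rcases Nat.eq_zero_or_pos a with h | h
        · rw [h, zero_mul] at hk
          omega
        · exact h
      have e9 : n * m / a ^ 2 = n / a * (m / a) := by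
        rw [hk, hl, Nat.mul_div_cancel_left k ha0, Nat.mul_div_cancel_left l ha0,
          show a * k * (a * l) = a ^ 2 * (k * l) by ring,
          Nat.mul_div_cancel_left _ (by positivity)]
      rw [e9]
      ring
  rw [← e6]
  exact hs2

end

end Pool.Agent.NN

namespace Pool.Agent.NN

theorem ph_hecke : type_of% @ph_hecke_pr := @ph_hecke_pr

end Pool.Agent.NN
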