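import Pool.Agent.Lib_helper32.NN.Dfs2
import Pool.Agent.Lib_helper32.NNF.HEC
import Pool.Agent.Lib_helper32.NNF.PHA

/-! Project NN, block ALA: the sum over all pairs, by `C`. -/

set_option autoImplicit false

namespace Pool.Agent.NN

open Complex MeasureTheory Filter Topology UpperHalfPlane Matrix
open scoped MatrixGroups ENNReal ComplexConjugate
open Pool.Agent.LEV (S2 co IsNew Lh)

theorem ala_root {D : ℕ} (hD : 0 < D) (m : ℕ) :
    ∑ b ∈ Finset.range D, cexp (2 * Real.pi * Complex.I * m * (b / D)) =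
      if D ∣ m then (D : ℂ) else 0 := by
  have hp := Complex.isPrimitiveRoot_exp D hD.ne'
  set ζ := cexp (2 * Real.pi * Complex.I / D) with hζ
  have h1 : ∀ b : ℕ, cexp (2 * Real.pi * Complex.I * m * (b / D)) = (ζ ^ m) ^ b := by
    intro b
    rw [hζ, ← pow_mul, ← Complex.exp_nat_mul]
    congr 1
    push_cast
    ring
  simp only [h1]
  split_ifs with h
  · rw [(hp.pow_eq_one_iff_dvd m).2 h]
    simp
  · have h2 : ζ ^ m ≠ 1 := fun h3 => h ((hp.pow_eq_one_iff_dvd m).1 h3)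
    rw [geom_sum_eq h2, ← pow_mul, mul_comm m D, pow_mul, hp.pow_eq_one, one_pow, sub_self,
      zero_div]

theorem ala_T {a b d : ℕ} (hd : 0 < d) :
    ((Finset.range d).filter (fun t => d ∣ a * t ∧ d ∣ b * t)).card = (a.gcd b).gcd d := by
  set g := (a.gcd b).gcd d with hg
  have hg0 : 0 < g := Nat.gcd_pos_of_pos_right _ hd
  have hgd : g ∣ d := Nat.gcd_dvd_right _ _
  obtain ⟨e, he⟩ := hgd
  have he0 : 0 < e := by
    rcases Nat.eq_zero_or_pos e with h | h
    · rw [h, mul_zero] at he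
      omega
    · exact h
  have himg : (Finset.range d).filter (fun t => d ∣ a * t ∧ d ∣ b * t) =
      (Finset.range g).image (fun s => e * s) := by
    ext t
    rw [Finset.mem_filter, Finset.mem_range, Finset.mem_image]
    constructor
    · rintro ⟨h1, h2, h3⟩
      have h4 : d ∣ (a.gcd b) * t := by
        rw [mul_comm, ← Nat.gcd_mul_left]
        rw [mul_comm a, mul_comm b] at *
        exact Nat.dvd_gcd h2 h3
      have h5 : e ∣ t := by
        obtain ⟨h, hh⟩ : g ∣ a.gcd b := Nat.gcd_dvd_left _ _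
        have hc : Nat.Coprime e h := by
          have h6 : Nat.gcd (g * h) (g * e) = g := by rw [← hh, ← he]
          rw [Nat.gcd_mul_left] at h6
          have h7 : Nat.gcd h e = 1 := by
            exact Nat.eq_of_mul_eq_mul_left hg0 (h6.trans (mul_one g).symm)
          exact Nat.Coprime.symm h7
        rw [hh, he, mul_assoc] at h4
        exact hc.dvd_of_dvd_mul_left (Nat.dvd_of_mul_dvd_mul_left hg0 h4)
      obtain ⟨s, rfl⟩ := h5
      refine ⟨s, ?_, rfl⟩
      rw [Finset.mem_range]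
      rw [he, mul_comm g e] at h1
      exact lt_of_mul_lt_mul_left h1 (Nat.zero_le _)
    · rintro ⟨s, hs, rfl⟩
      rw [Finset.mem_range] at hs
      have ha : g ∣ a := (Nat.gcd_dvd_left _ _).trans (Nat.gcd_dvd_left _ _)
      have hb : g ∣ b := (Nat.gcd_dvd_left _ _).trans (Nat.gcd_dvd_right _ _)
      refine ⟨?_, ?_, ?_⟩
      · rw [he, mul_comm g e]
        exact Nat.mul_lt_mul_of_pos_left hs he0
      · obtain ⟨a', ha'⟩ := ha
        refine ⟨a' * s, ?_⟩
        calc a * (e * s) = (g * a') * (e * s) := by rw [← ha']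
          _ = (g * e) * (a' * s) := by ring
          _ = d * (a' * s) := by rw [← he]
      · obtain ⟨b', hb'⟩ := hb
        refine ⟨b' * s, ?_⟩
        calc b * (e * s) = (g * b') * (e * s) := by rw [← hb']
          _ = (g * e) * (b' * s) := by ring
          _ = d * (b' * s) := by rw [← he]
  rw [himg, Finset.card_image_of_injective, Finset.card_range]
  intro x y hxy
  exact Nat.eq_of_mul_eq_mul_left he0 hxy

theorem ala_pairs {M a b d : ℕ} (hM : 0 < M) (hd : 0 < d) :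
    (((Finset.range (M * d)) ×ˢ (Finset.range d)).filter
      (fun p : ℕ × ℕ => d ∣ a * p.1 + b * p.2)).card = M * d * ((a.gcd b).gcd d) := by
  have hMd : 0 < M * d := Nat.mul_pos hM hd
  have hdc : (d : ℂ) ≠ 0 := by exact_mod_cast hd.ne'
  have hMc : (M : ℂ) ≠ 0 := by exact_mod_cast hM.ne'
  have h1 : ((((Finset.range (M * d)) ×ˢ (Finset.range d)).filter
      (fun p : ℕ × ℕ => d ∣ a * p.1 + b * p.2)).card : ℂ) * d =
      ∑ p ∈ (Finset.range (M * d)) ×ˢ (Finset.range d), ∑ t ∈ Finset.range d,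
        cexp (2 * Real.pi * Complex.I * ((a * p.1 + b * p.2 : ℕ) : ℂ) * (t / d)) := by
    have e1 : ∀ p ∈ (Finset.range (M * d)) ×ˢ (Finset.range d), ∑ t ∈ Finset.range d,
        cexp (2 * Real.pi * Complex.I * ((a * p.1 + b * p.2 : ℕ) : ℂ) * (t / d)) =
        if d ∣ a * p.1 + b * p.2 then (d : ℂ) else 0 := fun p _ => ala_root hd _
    rw [Finset.sum_congr rfl e1, ← Finset.sum_filter, Finset.sum_const, nsmul_eq_mul]
  have h2 : ∑ p ∈ (Finset.range (M * d)) ×ˢ (Finset.range d), ∑ t ∈ Finset.range d,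
        cexp (2 * Real.pi * Complex.I * ((a * p.1 + b * p.2 : ℕ) : ℂ) * (t / d)) =
      ∑ t ∈ Finset.range d, if d ∣ a * t ∧ d ∣ b * t then (M * d * d : ℂ) else 0 := by
    rw [Finset.sum_comm]
    refine Finset.sum_congr rfl fun t _ => ?_
    have e2 : ∀ p : ℕ × ℕ, cexp (2 * Real.pi * Complex.I * ((a * p.1 + b * p.2 : ℕ) : ℂ) * (t / d)) =
        cexp (2 * Real.pi * Complex.I * ((a * t * M : ℕ) : ℂ) * ((p.1 : ℂ) / ((M * d : ℕ) : ℂ))) *
        cexp (2 * Real.pi * Complex.I * ((b * t : ℕ) : ℂ) * ((p.2 : ℂ) / (d : ℂ))) := by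
      intro p
      rw [← Complex.exp_add]
      congr 1
      push_cast
      field_simp
    simp only [e2]
    rw [Finset.sum_product]
    simp only [← Finset.mul_sum]
    rw [← Finset.sum_mul, ala_root hMd, ala_root hd]
    have e3 : (M * d ∣ a * t * M) ↔ d ∣ a * t := by
      rw [mul_comm M d]
      exact Nat.mul_dvd_mul_iff_right hM
    simp only [e3]
    by_cases c1 : d ∣ a * t <;> by_cases c2 : d ∣ b * t <;> simp [c1, c2]
  have h3 : ∑ t ∈ Finset.range d, (if d ∣ a * t ∧ d ∣ b * t then (M * d * d : ℂ) else 0) =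
      ((a.gcd b).gcd d : ℕ) * (M * d * d : ℂ) := by
    rw [← Finset.sum_filter, Finset.sum_const, ala_T hd, nsmul_eq_mul]
  rw [h2, h3] at h1
  have h4 : ((((Finset.range (M * d)) ×ˢ (Finset.range d)).filter
      (fun p : ℕ × ℕ => d ∣ a * p.1 + b * p.2)).card : ℂ) =
      ((M * d * ((a.gcd b).gcd d) : ℕ) : ℂ) := by
    have h5 := mul_right_cancel₀ hdc (h1.trans (show ((a.gcd b).gcd d : ℕ) * (M * d * d : ℂ) =
      ((M * d * ((a.gcd b).gcd d) : ℕ) : ℂ) * d by push_cast; ring))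
    exact h5
  exact_mod_cast h4

/-- counting triples -/
theorem ala_count {a : ℕ} (ha : 0 < a) (β ρ2 ρ3 : ℚ) (h2 : 0 < ρ2) (h3 : 0 < ρ3)
    (P : Finset (ℕ × ℕ)) (S : Set Q3)
    (hS : ∀ r : Q3, r ∈ S ↔ ((0 ≤ r.1 ∧ r.1 < 1) ∧ (∃ l : ℤ, a * r.1 + β * r.2.1 = l) ∧
      ∃ p ∈ P, r.2.1 = ρ2 * (p.1 : ℕ) ∧ r.2.2 = ρ3 * (p.2 : ℕ))) :
    S.Finite ∧ S.ncard = a * P.card := by
  have ha' : (0 : ℚ) < a := by exact_mod_cast ha
  set F : ℕ × (ℕ × ℕ) → Q3 := fun x =>
    (((⌈β * (ρ2 * x.2.1)⌉ : ℤ) + (x.1 : ℚ) - β * (ρ2 * x.2.1)) / a, ρ2 * x.2.1, ρ3 * x.2.2) with hF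
  have hSF : S = ↑(((Finset.range a) ×ˢ P).image F) := by
    ext r
    rw [hS, Finset.coe_image, Set.mem_image]
    constructor
    · rintro ⟨⟨h4, h5⟩, ⟨l, hl⟩, p, hp, h6, h7⟩
      have h8 : β * (ρ2 * p.1) ≤ (l : ℚ) := by
        rw [← hl, h6]
        have : 0 ≤ (a : ℚ) * r.1 := by positivity
        linarith
      have h9 : (l : ℚ) < β * (ρ2 * p.1) + a := by
        rw [← hl, h6]
        have : (a : ℚ) * r.1 < a * 1 := mul_lt_mul_of_pos_left h5 ha'
        linarith
      have h10 : ⌈β * (ρ2 * p.1)⌉ ≤ l := Int.ceil_le.2 h8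
      have h11 : l < ⌈β * (ρ2 * p.1)⌉ + a := by
        have h12 := Int.le_ceil (β * (ρ2 * (p.1 : ℚ)))
        have h13 : (l : ℚ) < ((⌈β * (ρ2 * p.1)⌉ + a : ℤ) : ℚ) := by
          push_cast
          linarith
        exact_mod_cast h13
      refine ⟨((l - ⌈β * (ρ2 * p.1)⌉).toNat, p), ?_, ?_⟩
      · rw [Finset.mem_coe, Finset.mem_product, Finset.mem_range]
        exact ⟨by dsimp only; omega, hp⟩
      · have h14 : (((l - ⌈β * (ρ2 * p.1)⌉).toNat : ℕ) : ℚ) = l - ⌈β * (ρ2 * p.1)⌉ := by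
          have : (((l - ⌈β * (ρ2 * p.1)⌉).toNat : ℕ) : ℤ) = l - ⌈β * (ρ2 * p.1)⌉ :=
            Int.toNat_of_nonneg (by omega)
          exact_mod_cast this
        rw [hF]
        dsimp only
        refine Prod.ext ?_ (Prod.ext h6.symm h7.symm)
        dsimp only
        rw [h14, div_eq_iff ha'.ne', ← hl, h6]
        ring
    · rintro ⟨⟨t, p⟩, hx, rfl⟩
      rw [Finset.mem_coe, Finset.mem_product, Finset.mem_range] at hx
      obtain ⟨ht, hp⟩ := hx
      dsimp only at ht hp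
      rw [hF]
      dsimp only
      have c1 := Int.le_ceil (β * (ρ2 * (p.1 : ℚ)))
      have c2 := Int.ceil_lt_add_one (β * (ρ2 * (p.1 : ℚ)))
      have ht' : (t : ℚ) + 1 ≤ a := by exact_mod_cast ht
      refine ⟨⟨?_, ?_⟩, ⟨⌈β * (ρ2 * p.1)⌉ + t, ?_⟩, p, hp, rfl, rfl⟩
      · refine div_nonneg ?_ ha'.le
        have : (0 : ℚ) ≤ t := by positivity
        linarith
      · rw [div_lt_one ha']
        linarith
      · push_cast
        field_simp
        ring
  have hinj : Set.InjOn F ↑((Finset.range a) ×ˢ P) := by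
    rintro ⟨t, i, j⟩ _ ⟨t', i', j'⟩ _ h
    rw [hF] at h
    dsimp only at h
    rw [Prod.mk.injEq, Prod.mk.injEq] at h
    obtain ⟨e1, e2, e3⟩ := h
    have e4 : (i : ℚ) = i' := mul_left_cancel₀ h2.ne' e2
    have e5 : (j : ℚ) = j' := mul_left_cancel₀ h3.ne' e3
    have e6 : i = i' := by exact_mod_cast e4
    have e7 : j = j' := by exact_mod_cast e5
    subst e6 e7
    rw [div_left_inj' ha'.ne'] at e1
    have e8 : (t : ℚ) = t' := by linarith
    have e9 : t = t' := by exact_mod_cast e8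
    rw [e9]
  rw [hSF]
  refine ⟨Finset.finite_toSet _, ?_⟩
  rw [Set.ncard_coe_finset, Finset.card_image_of_injOn hinj, Finset.card_product,
    Finset.card_range]

/-- membership in the Eichler order -/
theorem ala_oo {N : ℕ} (m : M2) : m ∈ OO N ↔ (∃ a : ℤ, m 0 0 = a) ∧ (∃ b : ℤ, m 0 1 = b) ∧
    (∃ c : ℤ, m 1 0 = N * c) ∧ (∃ d : ℤ, m 1 1 = d) := by
  constructor
  · rintro ⟨a, b, c, d, rfl⟩
    exact ⟨⟨a, rfl⟩, ⟨b, rfl⟩, ⟨c, rfl⟩, ⟨d, rfl⟩⟩
  · rintro ⟨⟨a, ha⟩, ⟨b, hb⟩, ⟨c, hc⟩, ⟨d, hd⟩⟩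
    refine ⟨a, b, c, d, ?_⟩
    rw [← ha, ← hb, ← hc, ← hd]
    exact Matrix.eta_fin_two m

theorem ala_cast (x : ℚ) (l : ℤ) : ((x : ℝ) = (l : ℝ)) ↔ x = l := by
  constructor
  · intro h
    exact_mod_cast h
  · intro h
    rw [h]
    push_cast
    rfl

/-- the first type -/
theorem ala_rs1 {N : ℕ} (hN : 0 < N) {a b d : ℕ} (ha : 0 < a) (hd : 0 < d) :
    (rs N (toR !![(a : ℤ), (b : ℤ); 0, (d : ℤ)])).Finite ∧
    (rs N (toR !![(a : ℤ), (b : ℤ); 0, (d : ℤ)])).ncard = a * (d * ((a.gcd b).gcd d)) := by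
  have hN' : (0 : ℚ) < N := by exact_mod_cast hN
  have hd' : (0 : ℚ) < d := by exact_mod_cast hd
  have hNr : (N : ℝ) ≠ 0 := by exact_mod_cast hN.ne'
  have h1 := ala_pairs (M := 1) (a := a) (b := b) one_pos hd
  rw [one_mul] at h1
  have h2 := ala_count ha (b : ℚ) (N / d : ℚ) (N / d : ℚ) (by positivity) (by positivity)
    (((Finset.range d) ×ˢ (Finset.range d)).filter (fun p : ℕ × ℕ => d ∣ a * p.1 + b * p.2))
    (rs N (toR !![(a : ℤ), (b : ℤ); 0, (d : ℤ)])) ?_
  · rw [h1] at h2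
    exact h2
  intro r
  obtain ⟨r1, r2, r3⟩ := r
  unfold rs
  rw [Set.mem_ofPred_eq, ala_oo]
  have m00 : (toR !![(a : ℤ), (b : ℤ); 0, (d : ℤ)] * sy (qr (r1, r2, r3)) * PI N) 0 0 =
      ((a * r1 + b * r2 : ℚ) : ℝ) := by
    simp [toR, sy, qr, PI, Matrix.mul_apply, Fin.sum_univ_two]
  have m01 : (toR !![(a : ℤ), (b : ℤ); 0, (d : ℤ)] * sy (qr (r1, r2, r3)) * PI N) 0 1 =
      (((a * r2 + b * r3) / N : ℚ) : ℝ) := by
    simp [toR, sy, qr, PI, Matrix.mul_apply, Fin.sum_univ_two, div_eq_mul_inv]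
  have m10 : (toR !![(a : ℤ), (b : ℤ); 0, (d : ℤ)] * sy (qr (r1, r2, r3)) * PI N) 1 0 =
      ((d * r2 : ℚ) : ℝ) := by
    simp [toR, sy, qr, PI, Matrix.mul_apply, Fin.sum_univ_two]
  have m11 : (toR !![(a : ℤ), (b : ℤ); 0, (d : ℤ)] * sy (qr (r1, r2, r3)) * PI N) 1 1 =
      ((d * r3 / N : ℚ) : ℝ) := by
    simp [toR, sy, qr, PI, Matrix.mul_apply, Fin.sum_univ_two, div_eq_mul_inv]
  rw [m00, m01, m10, m11]
  have c10 : (∃ c : ℤ, ((d * r2 : ℚ) : ℝ) = N * c) ↔ ∃ c : ℤ, (d : ℚ) * r2 = N * c := by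
    refine exists_congr fun c => ?_
    constructor
    · intro h
      exact_mod_cast h
    · intro h
      rw [h]
      push_cast
      rfl
  simp only [ala_cast, c10]
  unfold bxq
  dsimp only
  constructor
  · rintro ⟨⟨h3, ⟨h4, h4'⟩, h5, h5'⟩, ⟨l, hl⟩, ⟨k, hk⟩, ⟨i, hi⟩, ⟨j, hj⟩⟩
    refine ⟨h3, ⟨l, hl⟩, ?_⟩
    have hi0 : 0 ≤ i := by
      have : (0 : ℚ) ≤ N * i := by rw [← hi]; positivity
      have : (0 : ℚ) ≤ i := nonneg_of_mul_nonneg_right this hN'
      exact_mod_cast this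
    have hi1 : i < d := by
      have h6 : (N : ℚ) * i < N * d := by
        rw [← hi, mul_comm (N : ℚ) d]
        exact mul_lt_mul_of_pos_left h4' hd'
      have h7 : (i : ℚ) < d := lt_of_mul_lt_mul_left h6 hN'.le
      exact_mod_cast h7
    have hj0 : 0 ≤ j := by
      have : (0 : ℚ) ≤ j := by rw [← hj]; positivity
      exact_mod_cast this
    have hj1 : j < d := by
      have h6 : (j : ℚ) < d := by
        rw [← hj, div_lt_iff₀ hN']
        exact mul_lt_mul_of_pos_left h5' hd'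
      exact_mod_cast h6
    have e2 : r2 = N / d * (i.toNat : ℕ) := by
      have : ((i.toNat : ℕ) : ℚ) = i := by
        have : ((i.toNat : ℕ) : ℤ) = i := Int.toNat_of_nonneg hi0
        exact_mod_cast this
      rw [this]
      field_simp
      linarith
    have e3 : r3 = N / d * (j.toNat : ℕ) := by
      have : ((j.toNat : ℕ) : ℚ) = j := by
        have : ((j.toNat : ℕ) : ℤ) = j := Int.toNat_of_nonneg hj0
        exact_mod_cast this
      rw [this]
      rw [div_eq_iff hN'.ne'] at hj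
      field_simp
      linarith
    refine ⟨(i.toNat, j.toNat), ?_, e2, e3⟩
    rw [Finset.mem_filter, Finset.mem_product, Finset.mem_range, Finset.mem_range]
    dsimp only
    refine ⟨⟨by omega, by omega⟩, ?_⟩
    have h8 : ((a * i.toNat + b * j.toNat : ℕ) : ℚ) = d * k := by
      rw [e2, e3, div_eq_iff hN'.ne'] at hk
      have h9 : (N : ℚ) * ((a * i.toNat + b * j.toNat : ℕ) : ℚ) = N * (d * k) := by
        push_cast
        field_simp at hk
        rw [hk]
      exact mul_left_cancel₀ hN'.ne' h9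
    have h10 : ((a * i.toNat + b * j.toNat : ℕ) : ℤ) = d * k := by exact_mod_cast h8
    exact Int.natCast_dvd_natCast.1 ⟨k, h10⟩
  · rintro ⟨h3, ⟨l, hl⟩, ⟨i, j⟩, hp, e2, e3⟩
    rw [Finset.mem_filter, Finset.mem_product, Finset.mem_range, Finset.mem_range] at hp
    obtain ⟨⟨hi, hj⟩, k, hk⟩ := hp
    dsimp only at hi hj hk e2 e3
    have hi' : (i : ℚ) < d := by exact_mod_cast hi
    have hj' : (j : ℚ) < d := by exact_mod_cast hj
    have hk' : (a : ℚ) * i + b * j = d * k := by exact_mod_cast hk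
    refine ⟨⟨h3, ⟨by rw [e2]; positivity, ?_⟩, by rw [e3]; positivity, ?_⟩, ⟨l, hl⟩, ⟨k, ?_⟩, ⟨i, ?_⟩,
      ⟨j, ?_⟩⟩
    · rw [e2, div_mul_eq_mul_div, div_lt_iff₀ hd']
      exact mul_lt_mul_of_pos_left hi' hN'
    · rw [e3, div_mul_eq_mul_div, div_lt_iff₀ hd']
      exact mul_lt_mul_of_pos_left hj' hN'
    · rw [e2, e3, div_eq_iff hN'.ne']
      push_cast
      field_simp
      linarith
    · rw [e2]
      push_cast
      field_simp
    · rw [e3]
      push_cast
      field_simp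

/-- the second type -/
theorem ala_rs2 {N : ℕ} (hN : 0 < N) {a b d : ℕ} (ha : 0 < a) (hb : 0 < b) :
    (rs N (toR !![0, -(b : ℤ); (N : ℤ) * (a : ℤ), (d : ℤ)])).Finite ∧
    (rs N (toR !![0, -(b : ℤ); (N : ℤ) * (a : ℤ), (d : ℤ)])).ncard =
      a * (N * b * ((a.gcd d).gcd b)) := by
  have hN' : (0 : ℚ) < N := by exact_mod_cast hN
  have hb' : (0 : ℚ) < b := by exact_mod_cast hb
  have hNr : (N : ℝ) ≠ 0 := by exact_mod_cast hN.ne'
  have h1 := ala_pairs (M := N) (a := a) (b := d) hN hb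
  have h2 := ala_count ha (d / N : ℚ) (1 / b : ℚ) (N / b : ℚ) (by positivity) (by positivity)
    (((Finset.range (N * b)) ×ˢ (Finset.range b)).filter (fun p : ℕ × ℕ => b ∣ a * p.1 + d * p.2))
    (rs N (toR !![0, -(b : ℤ); (N : ℤ) * (a : ℤ), (d : ℤ)])) ?_
  · rw [h1] at h2
    exact h2
  intro r
  obtain ⟨r1, r2, r3⟩ := r
  unfold rs
  rw [Set.mem_ofPred_eq, ala_oo]
  have m00 : (toR !![0, -(b : ℤ); (N : ℤ) * (a : ℤ), (d : ℤ)] * sy (qr (r1, r2, r3)) * PI N) 0 0 =
      ((-(b * r2) : ℚ) : ℝ) := by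
    simp [toR, sy, qr, PI, Matrix.mul_apply, Fin.sum_univ_two]
  have m01 : (toR !![0, -(b : ℤ); (N : ℤ) * (a : ℤ), (d : ℤ)] * sy (qr (r1, r2, r3)) * PI N) 0 1 =
      ((-(b * r3 / N) : ℚ) : ℝ) := by
    simp [toR, sy, qr, PI, Matrix.mul_apply, Fin.sum_univ_two, div_eq_mul_inv]
  have m10 : (toR !![0, -(b : ℤ); (N : ℤ) * (a : ℤ), (d : ℤ)] * sy (qr (r1, r2, r3)) * PI N) 1 0 =
      ((N * a * r1 + d * r2 : ℚ) : ℝ) := by
    simp [toR, sy, qr, PI, Matrix.mul_apply, Fin.sum_univ_two]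
  have m11 : (toR !![0, -(b : ℤ); (N : ℤ) * (a : ℤ), (d : ℤ)] * sy (qr (r1, r2, r3)) * PI N) 1 1 =
      (((N * a * r2 + d * r3) / N : ℚ) : ℝ) := by
    simp [toR, sy, qr, PI, Matrix.mul_apply, Fin.sum_univ_two, div_eq_mul_inv]
  rw [m00, m01, m10, m11]
  have c10 : (∃ c : ℤ, ((N * a * r1 + d * r2 : ℚ) : ℝ) = N * c) ↔
      ∃ c : ℤ, (N : ℚ) * a * r1 + d * r2 = N * c := by
    refine exists_congr fun c => ?_
    constructor
    · intro h
      exact_mod_cast h
    · intro h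
      rw [h]
      push_cast
      rfl
  simp only [ala_cast, c10]
  unfold bxq
  dsimp only
  constructor
  · rintro ⟨⟨h3, ⟨h4, h4'⟩, h5, h5'⟩, ⟨i, hi⟩, ⟨j, hj⟩, ⟨l, hl⟩, ⟨k, hk⟩⟩
    have hl' : (a : ℚ) * r1 + d / N * r2 = l := by
      have : (N : ℚ) * (a * r1 + d / N * r2) = N * l := by
        rw [← hl]
        field_simp
      exact mul_left_cancel₀ hN'.ne' this
    refine ⟨h3, ⟨l, hl'⟩, ?_⟩
    have hi2 : (b : ℚ) * r2 = ((-i : ℤ) : ℚ) := by
      push_cast
      linarith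
    have hj2 : (b : ℚ) * r3 / N = ((-j : ℤ) : ℚ) := by
      push_cast
      linarith
    set i' := -i with hi'
    set j' := -j with hj'
    have hi0 : 0 ≤ i' := by
      have : (0 : ℚ) ≤ i' := by rw [← hi2]; positivity
      exact_mod_cast this
    have hi1 : i' < N * b := by
      have h6 : (i' : ℚ) < N * b := by
        rw [← hi2, mul_comm (N : ℚ) b]
        exact mul_lt_mul_of_pos_left h4' hb'
      exact_mod_cast h6
    have hj0 : 0 ≤ j' := by
      have : (0 : ℚ) ≤ j' := by rw [← hj2]; positivity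
      exact_mod_cast this
    have hj1 : j' < b := by
      have h6 : (j' : ℚ) < b := by
        rw [← hj2, div_lt_iff₀ hN']
        exact mul_lt_mul_of_pos_left h5' hb'
      exact_mod_cast h6
    have ci : ((i'.toNat : ℕ) : ℚ) = i' := by
      have : ((i'.toNat : ℕ) : ℤ) = i' := Int.toNat_of_nonneg hi0
      exact_mod_cast this
    have cj : ((j'.toNat : ℕ) : ℚ) = j' := by
      have : ((j'.toNat : ℕ) : ℤ) = j' := Int.toNat_of_nonneg hj0
      exact_mod_cast this
    have e2 : r2 = 1 / b * (i'.toNat : ℕ) := by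
      rw [ci, ← hi2]
      field_simp
    have e3 : r3 = N / b * (j'.toNat : ℕ) := by
      rw [cj, ← hj2]
      field_simp
    refine ⟨(i'.toNat, j'.toNat), ?_, e2, e3⟩
    rw [Finset.mem_filter, Finset.mem_product, Finset.mem_range, Finset.mem_range]
    dsimp only
    have hi3 : i'.toNat < N * b := by
      have : ((i'.toNat : ℕ) : ℤ) < ((N * b : ℕ) : ℤ) := by
        rw [Int.toNat_of_nonneg hi0]
        push_cast
        exact hi1
      exact_mod_cast this
    refine ⟨⟨hi3, by omega⟩, ?_⟩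
    have h8 : ((a * i'.toNat + d * j'.toNat : ℕ) : ℚ) = b * k := by
      rw [e2, e3, div_eq_iff hN'.ne'] at hk
      have h9 : (N : ℚ) * ((a * i'.toNat + d * j'.toNat : ℕ) : ℚ) = N * (b * k) := by
        push_cast
        field_simp at hk
        rw [hk]
      exact mul_left_cancel₀ hN'.ne' h9
    have h10 : ((a * i'.toNat + d * j'.toNat : ℕ) : ℤ) = b * k := by exact_mod_cast h8
    exact Int.natCast_dvd_natCast.1 ⟨k, h10⟩
  · rintro ⟨h3, ⟨l, hl⟩, ⟨i, j⟩, hp, e2, e3⟩
    rw [Finset.mem_filter, Finset.mem_product, Finset.mem_range, Finset.mem_range] at hp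
    obtain ⟨⟨hi, hj⟩, k, hk⟩ := hp
    dsimp only at hi hj hk e2 e3
    have hi' : (i : ℚ) < N * b := by exact_mod_cast hi
    have hj' : (j : ℚ) < b := by exact_mod_cast hj
    have hk' : (a : ℚ) * i + d * j = b * k := by exact_mod_cast hk
    refine ⟨⟨h3, ⟨by rw [e2]; positivity, ?_⟩, by rw [e3]; positivity, ?_⟩, ⟨-i, ?_⟩, ⟨-j, ?_⟩,
      ⟨l, ?_⟩, ⟨k, ?_⟩⟩
    · rw [e2, div_mul_eq_mul_div, div_lt_iff₀ hb', one_mul]
      exact hi'
    · rw [e3, div_mul_eq_mul_div, div_lt_iff₀ hb']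
      exact mul_lt_mul_of_pos_left hj' hN'
    · rw [e2]
      push_cast
      field_simp
    · rw [e3]
      push_cast
      field_simp
    · rw [← hl]
      field_simp
    · rw [e2, e3, div_eq_iff hN'.ne']
      push_cast
      field_simp
      linarith

/-- membership in the set of representatives -/
theorem ala_mem {N n : ℕ} (_hN : 0 < N) (hn : 0 < n) (C : Matrix (Fin 2) (Fin 2) ℤ) :
    C ∈ HR N n ↔ (∃ a b d : ℕ, a * d = n ∧ b < d ∧ C = !![(a : ℤ), (b : ℤ); 0, (d : ℤ)]) ∨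
      (∃ a b d : ℕ, N * a * b = n ∧ d < N * b ∧
        C = !![0, -(b : ℤ); (N : ℤ) * (a : ℤ), (d : ℤ)]) := by
  unfold HR HR1 HR2
  rw [Finset.mem_union, Finset.mem_image, Finset.mem_image]
  constructor
  · rintro (⟨⟨a, b, d⟩, h, rfl⟩ | ⟨⟨a, b, d⟩, h, rfl⟩)
    · rw [Finset.mem_filter] at h
      exact Or.inl ⟨a, b, d, h.2.1, h.2.2, rfl⟩
    · rw [Finset.mem_filter] at h
      exact Or.inr ⟨a, b, d, h.2.1, h.2.2, rfl⟩
  · rintro (⟨a, b, d, h1, h2, rfl⟩ | ⟨a, b, d, h1, h2, rfl⟩)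
    · have hd : 0 < d := by omega
      have ha : 0 < a := by
        rcases Nat.eq_zero_or_pos a with h | h
        · rw [h, zero_mul] at h1
          omega
        · exact h
      have h3 : a ≤ n := Nat.le_of_dvd hn ⟨d, h1.symm⟩
      have h4 : d ≤ n := Nat.le_of_dvd hn ⟨a, by rw [mul_comm]; exact h1.symm⟩
      refine Or.inl ⟨(a, b, d), ?_, rfl⟩
      rw [Finset.mem_filter, Finset.mem_product, Finset.mem_product, Finset.mem_range,
        Finset.mem_range, Finset.mem_range]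
      dsimp only
      exact ⟨⟨by omega, by omega, by omega⟩, h1, h2⟩
    · have h3 : a ≤ n := Nat.le_of_dvd hn ⟨N * b, by rw [← h1]; ring⟩
      have h4 : b ≤ n := Nat.le_of_dvd hn ⟨N * a, by rw [← h1]; ring⟩
      have ha : 0 < a := by
        rcases Nat.eq_zero_or_pos a with h | h
        · rw [h] at h1
          simp at h1
          omega
        · exact h
      have h5 : N * b ≤ n := by
        rw [← h1]
        calc N * b = N * 1 * b := by ring
          _ ≤ N * a * b := Nat.mul_le_mul_right _ (Nat.mul_le_mul_left _ ha)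
      refine Or.inr ⟨(a, b, d), ?_, rfl⟩
      rw [Finset.mem_filter, Finset.mem_product, Finset.mem_product, Finset.mem_range,
        Finset.mem_range, Finset.mem_range]
      dsimp only
      exact ⟨⟨by omega, by omega, by omega⟩, h1, h2⟩

/-- the content of a representative -/
theorem ala_ct {N n : ℕ} (hN : 0 < N) (hn : 0 < n) {C : Matrix (Fin 2) (Fin 2) ℤ}
    (hC : C ∈ HR N n) : (rs N (toR C)).Finite ∧ ∃ c : ℕ, 0 < c ∧ (rs N (toR C)).ncard = n * c ∧
      ∀ k : ℕ, k ∣ c ↔ (0 < k ∧ k ^ 2 ∣ n ∧ ∃ C' ∈ HR N (n / k ^ 2), C = (k : ℤ) • C') := by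
  rcases (ala_mem hN hn C).1 hC with ⟨a, b, d, h1, h2, rfl⟩ | ⟨a, b, d, h1, h2, rfl⟩
  · have hd : 0 < d := by omega
    have ha : 0 < a := by
      rcases Nat.eq_zero_or_pos a with h | h
      · rw [h, zero_mul] at h1
        omega
      · exact h
    obtain ⟨h3, h4⟩ := ala_rs1 hN (b := b) ha hd
    refine ⟨h3, (a.gcd b).gcd d, Nat.gcd_pos_of_pos_right _ hd, ?_, ?_⟩
    · rw [h4, ← mul_assoc, h1]
    · intro k
      rw [Nat.dvd_gcd_iff, Nat.dvd_gcd_iff]
      constructor
      · rintro ⟨⟨⟨a', rfl⟩, ⟨b', rfl⟩⟩, ⟨d', rfl⟩⟩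
        have hk : 0 < k := Nat.pos_of_mul_pos_right ha |> fun h => by
          rcases Nat.eq_zero_or_pos k with h0 | h0
          · rw [h0, zero_mul] at ha
            omega
          · exact h0
        have e1 : n = k ^ 2 * (a' * d') := by rw [← h1]; ring
        have hk2 : 0 < k ^ 2 := by positivity
        have e2 : n / k ^ 2 = a' * d' := by rw [e1, Nat.mul_div_cancel_left _ hk2]
        have hn2 : 0 < n / k ^ 2 := by
          rw [e2]
          rcases Nat.eq_zero_or_pos (a' * d') with h0 | h0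
          · rw [h0, mul_zero] at e1
            omega
          · exact h0
        refine ⟨hk, ⟨_, e1⟩, !![(a' : ℤ), (b' : ℤ); 0, (d' : ℤ)], ?_, ?_⟩
        · rw [ala_mem hN hn2]
          exact Or.inl ⟨a', b', d', e2.symm, lt_of_mul_lt_mul_left h2 (Nat.zero_le k), rfl⟩
        · ext i j
          fin_cases i <;> fin_cases j <;> simp
      · rintro ⟨hk, hk2, C', hC', he⟩
        have hn2 : 0 < n / k ^ 2 := Nat.div_pos (Nat.le_of_dvd hn hk2) (by positivity)
        rcases (ala_mem hN hn2 C').1 hC' with ⟨a', b', d', h5, h6, rfl⟩ | ⟨a', b', d', h5, h6, rfl⟩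
        · have e1 := congrFun (congrFun he 0) 0
          have e2 := congrFun (congrFun he 0) 1
          have e3 := congrFun (congrFun he 1) 1
          simp at e1 e2 e3
          exact ⟨⟨⟨a', by exact_mod_cast e1⟩, ⟨b', by exact_mod_cast e2⟩⟩,
            ⟨d', by exact_mod_cast e3⟩⟩
        · exfalso
          have e1 := congrFun (congrFun he 0) 0
          simp at e1
          omega
  · have hb : 0 < b := by
      rcases Nat.eq_zero_or_pos b with h | h
      · rw [h, mul_zero] at h1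
        omega
      · exact h
    have ha : 0 < a := by
      rcases Nat.eq_zero_or_pos a with h | h
      · rw [h] at h1
        simp at h1
        omega
      · exact h
    obtain ⟨h3, h4⟩ := ala_rs2 hN (d := d) ha hb
    refine ⟨h3, (a.gcd d).gcd b, Nat.gcd_pos_of_pos_right _ hb, ?_, ?_⟩
    · rw [h4, ← h1]
      ring
    · intro k
      rw [Nat.dvd_gcd_iff, Nat.dvd_gcd_iff]
      constructor
      · rintro ⟨⟨⟨a', rfl⟩, ⟨d', rfl⟩⟩, ⟨b', rfl⟩⟩
        have hk : 0 < k := by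
          rcases Nat.eq_zero_or_pos k with h0 | h0
          · rw [h0, zero_mul] at ha
            omega
          · exact h0
        have e1 : n = k ^ 2 * (N * a' * b') := by rw [← h1]; ring
        have hk2 : 0 < k ^ 2 := by positivity
        have e2 : n / k ^ 2 = N * a' * b' := by rw [e1, Nat.mul_div_cancel_left _ hk2]
        have hn2 : 0 < n / k ^ 2 := by
          rw [e2]
          rcases Nat.eq_zero_or_pos (N * a' * b') with h0 | h0
          · rw [h0, mul_zero] at e1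
            omega
          · exact h0
        refine ⟨hk, ⟨_, e1⟩, !![0, -(b' : ℤ); (N : ℤ) * (a' : ℤ), (d' : ℤ)], ?_, ?_⟩
        · rw [ala_mem hN hn2]
          refine Or.inr ⟨a', b', d', e2.symm, ?_, rfl⟩
          have h7 : k * d' < k * (N * b') := by
            calc k * d' < N * (k * b') := h2
              _ = k * (N * b') := by ring
          exact lt_of_mul_lt_mul_left h7 (Nat.zero_le k)
        · ext i j
          fin_cases i <;> fin_cases j <;> simp
          ring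
      · rintro ⟨hk, hk2, C', hC', he⟩
        have hn2 : 0 < n / k ^ 2 := Nat.div_pos (Nat.le_of_dvd hn hk2) (by positivity)
        rcases (ala_mem hN hn2 C').1 hC' with ⟨a', b', d', h5, h6, rfl⟩ | ⟨a', b', d', h5, h6, rfl⟩
        · exfalso
          have e1 := congrFun (congrFun he 1) 0
          simp at e1
          omega
        · have e1 := congrFun (congrFun he 0) 1
          have e2 := congrFun (congrFun he 1) 0
          have e3 := congrFun (congrFun he 1) 1
          simp at e1 e2 e3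
          have hN0 : (N : ℤ) ≠ 0 := by exact_mod_cast hN.ne'
          have e4 : (a : ℤ) = k * a' := by
            have : (N : ℤ) * a = N * (k * a') := by rw [e2]; ring
            exact mul_left_cancel₀ hN0 this
          exact ⟨⟨⟨a', by exact_mod_cast e4⟩, ⟨d', by exact_mod_cast e3⟩⟩,
            ⟨b', by exact_mod_cast e1⟩⟩

/-- multiples of representatives -/
theorem ala_smul {N n k : ℕ} (hN : 0 < N) (hn : 0 < n) (hk : 0 < k) (hk2 : k ^ 2 ∣ n)
    {C' : Matrix (Fin 2) (Fin 2) ℤ} (hC' : C' ∈ HR N (n / k ^ 2)) : (k : ℤ) • C' ∈ HR N n := by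
  have hn2 : 0 < n / k ^ 2 := Nat.div_pos (Nat.le_of_dvd hn hk2) (by positivity)
  have hn3 : k ^ 2 * (n / k ^ 2) = n := Nat.mul_div_cancel' hk2
  rw [ala_mem hN hn]
  rcases (ala_mem hN hn2 C').1 hC' with ⟨a, b, d, h5, h6, rfl⟩ | ⟨a, b, d, h5, h6, rfl⟩
  · refine Or.inl ⟨k * a, k * b, k * d, ?_, Nat.mul_lt_mul_of_pos_left h6 hk, ?_⟩
    · rw [← hn3, ← h5]
      ring
    · ext i j
      fin_cases i <;> fin_cases j <;> simp
  · refine Or.inr ⟨k * a, k * b, k * d, ?_, ?_, ?_⟩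
    · rw [← hn3, ← h5]
      ring
    · calc k * d < k * (N * b) := Nat.mul_lt_mul_of_pos_left h6 hk
        _ = N * (k * b) := by ring
    · ext i j
      fin_cases i <;> fin_cases j <;> simp
      ring

section
variable {N : ℕ} [Fact N.Prime] (f : S2 N)

/-- `C` is `k` times a representative -/
def ala_Q (N n k : ℕ) (C : Matrix (Fin 2) (Fin 2) ℤ) : Prop :=
  ∃ C' ∈ HR N (n / k ^ 2), C = (k : ℤ) • C'

open Classical in
theorem all_a_pr (hf : IsNew f) (h1 : co f N = 1) {n : ℕ} (hn : 0 < n) (g : M2) :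
    (∀ C ∈ HR N n, (rs N (toR C)).Finite) ∧
    ∑ C ∈ HR N n, ((rs N (toR C)).ncard : ℂ) * ph f (toR C * g) = (Af f n : ℂ) * ph f g := by
  have hN : 0 < N := (Fact.out : N.Prime).pos
  refine ⟨fun C hC => (ala_ct hN hn hC).1, ?_⟩
  -- the content as a sum of values of the totient function
  have hc : ∀ C ∈ HR N n, ((rs N (toR C)).ncard : ℂ) * ph f (toR C * g) =
      ∑ k ∈ n.divisors.filter (fun k => k ^ 2 ∣ n),
        if ala_Q N n k C then
          (n : ℂ) * k.totient * ph f (toR C * g) else 0 := by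
    intro C hC
    obtain ⟨_, c, hc0, hc1, hc2⟩ := ala_ct hN hn hC
    rw [← Finset.sum_filter, Finset.filter_filter, hc1]
    have e1 : n.divisors.filter (fun k => k ^ 2 ∣ n ∧ ala_Q N n k C) =
        c.divisors := by
      ext k
      rw [Finset.mem_filter, Nat.mem_divisors, Nat.mem_divisors]
      constructor
      · rintro ⟨⟨h2, _⟩, h3, h4⟩
        exact ⟨(hc2 k).2 ⟨Nat.pos_of_dvd_of_pos h2 hn, h3, h4⟩, hc0.ne'⟩
      · rintro ⟨h2, _⟩
        obtain ⟨h3, h4, h5⟩ := (hc2 k).1 h2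
        exact ⟨⟨(dvd_pow_self k two_ne_zero).trans h4, hn.ne'⟩, h4, h5⟩
    rw [e1, ← Finset.sum_mul, ← Finset.mul_sum]
    have e2 : ∑ k ∈ c.divisors, (k.totient : ℂ) = c := by
      have := Nat.sum_totient c
      exact_mod_cast this
    rw [e2]
    push_cast
    ring
  rw [Finset.sum_congr rfl hc, Finset.sum_comm]
  have hk : ∀ k ∈ n.divisors.filter (fun k => k ^ 2 ∣ n),
      (∑ C ∈ HR N n, if ala_Q N n k C then
          (n : ℂ) * k.totient * ph f (toR C * g) else 0) =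
      (((k.totient : ℝ) * n * (co f (n / k ^ 2)).re : ℝ) : ℂ) * ph f g := by
    intro k hk
    rw [Finset.mem_filter, Nat.mem_divisors] at hk
    obtain ⟨⟨hk1, _⟩, hk2⟩ := hk
    have hk0 : 0 < k := Nat.pos_of_dvd_of_pos hk1 hn
    have hn2 : 0 < n / k ^ 2 := Nat.div_pos (Nat.le_of_dvd hn hk2) (by positivity)
    have e1 : (HR N n).filter (fun C => ala_Q N n k C) =
        (HR N (n / k ^ 2)).image (fun C' => (k : ℤ) • C') := by
      ext C
      rw [Finset.mem_filter, Finset.mem_image]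
      constructor
      · rintro ⟨_, C', h2, h3⟩
        exact ⟨C', h2, h3.symm⟩
      · rintro ⟨C', h2, rfl⟩
        exact ⟨ala_smul hN hn hk0 hk2 h2, C', h2, rfl⟩
    rw [← Finset.sum_filter, e1, Finset.sum_image]
    · have e2 : ∀ C' ∈ HR N (n / k ^ 2), (n : ℂ) * k.totient * ph f (toR ((k : ℤ) • C') * g) =
          (n : ℂ) * k.totient * ph f (toR C' * g) := by
        intro C' _
        have e3 : toR ((k : ℤ) • C') * g = (k : ℝ) • (toR C' * g) := by
          rw [← Matrix.smul_mul]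
          congr 1
          ext i j
          show ((((k : ℤ) • C') i j : ℤ) : ℝ) = (k : ℝ) * ((C' i j : ℤ) : ℝ)
          rw [Matrix.smul_apply, smul_eq_mul]
          push_cast
          rfl
        rw [e3, ph_smul f (by exact_mod_cast hk0.ne')]
      rw [Finset.sum_congr rfl e2, ← Finset.mul_sum, ph_hecke f hf h1 hn2]
      have e4 : co f (n / k ^ 2) = (((co f (n / k ^ 2)).re : ℝ) : ℂ) := by
        apply Complex.ext
        · simp
        · rw [Complex.ofReal_im]
          exact LEV.new_real_pr hf _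
      rw [e4]
      push_cast
      simp
      ring
    · intro x _ y _ hxy
      have hk' : (k : ℤ) ≠ 0 := by exact_mod_cast hk0.ne'
      ext i j
      have := congrFun (congrFun hxy i) j
      simp at this
      rcases this with h | h
      · exact h
      · exact absurd h hk0.ne'
  rw [Finset.sum_congr rfl hk, ← Finset.sum_mul]
  congr 1
  rw [← Complex.ofReal_sum]
  rfl

end

end Pool.Agent.NN

namespace Pool.Agent.NN

theorem all_a : type_of% @all_a_pr := @all_a_pr

end Pool.Agent.NN
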