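import Pool.Agent.Lib_helper32.NN.Dfs2

/-!
# NN, block LAT: the lattice lemma
-/

namespace Pool.Agent.NN

open Complex MeasureTheory Filter Topology UpperHalfPlane Matrix
open scoped MatrixGroups ENNReal ComplexConjugate
open Pool.Agent.LEV (S2 co IsNew Lh)

section
variable {N : ℕ} [hN : Fact N.Prime]

theorem lat_mk (A B C D : M2) (h1 : A * Bᵀ = B * Aᵀ) (h2 : C * Dᵀ = D * Cᵀ)
    (h3 : A * Dᵀ - B * Cᵀ = 1) (hA : A ∈ OO N) (hB : B * PI N ∈ OO N) (hC : PP N * C ∈ OO N)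
    (hD : PP N * D * PI N ∈ OO N) : ∃ g : GaN N, mt N g = fromBlocks A B C D := by
  have hs : fromBlocks A B C D ∈ Matrix.symplecticGroup (Fin 2) ℝ := by
    rw [SymplecticGroup.mem_iff, Matrix.J, fromBlocks_transpose, fromBlocks_multiply,
      fromBlocks_multiply]
    have h4 : D * Aᵀ - C * Bᵀ = 1 := by
      have := congrArg Matrix.transpose h3
      rw [transpose_sub, transpose_mul, transpose_mul, transpose_transpose, transpose_transpose,
        transpose_one] at this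
      exact this
    congr 1
    · rw [Matrix.mul_zero, Matrix.mul_one, zero_add, Matrix.mul_neg, Matrix.mul_one, Matrix.mul_zero,
        add_zero, Matrix.neg_mul, h1]
      abel
    · rw [Matrix.mul_zero, Matrix.mul_one, zero_add, Matrix.mul_neg, Matrix.mul_one, Matrix.mul_zero,
        add_zero, Matrix.neg_mul, ← h3]
      abel
    · rw [Matrix.mul_zero, Matrix.mul_one, zero_add, Matrix.mul_neg, Matrix.mul_one, Matrix.mul_zero,
        add_zero, Matrix.neg_mul, ← h4]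
      abel
    · rw [Matrix.mul_zero, Matrix.mul_one, zero_add, Matrix.mul_neg, Matrix.mul_one, Matrix.mul_zero,
        add_zero, Matrix.neg_mul, h2]
      abel
  refine ⟨⟨⟨_, hs⟩, ?_⟩, rfl⟩
  show inG N (fromBlocks A B C D)
  refine ⟨?_, ?_, ?_, ?_⟩
  · rwa [toBlocks_fromBlocks₁₁]
  · rwa [toBlocks_fromBlocks₁₂]
  · rwa [cb, toBlocks_fromBlocks₂₁]
  · rwa [db, toBlocks_fromBlocks₂₂]

/-- relations between the blocks -/
theorem lat_rel (g : GaN N) :
    (mt N g).toBlocks₁₁ᵀ * (mt N g).toBlocks₂₁ = (mt N g).toBlocks₂₁ᵀ * (mt N g).toBlocks₁₁ ∧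
    (mt N g).toBlocks₂₂ᵀ * (mt N g).toBlocks₁₁ - (mt N g).toBlocks₁₂ᵀ * (mt N g).toBlocks₂₁ = 1 := by
  have h := SymplecticGroup.mem_iff'.1 (g : Sp).2
  have h' : (mt N g)ᵀ * Matrix.J (Fin 2) ℝ * mt N g = Matrix.J (Fin 2) ℝ := h
  rw [← fromBlocks_toBlocks (mt N g), Matrix.J, fromBlocks_transpose, fromBlocks_multiply,
    fromBlocks_multiply] at h'
  obtain ⟨e1, -, e3, -⟩ := fromBlocks_inj.1 h'
  simp only [Matrix.mul_zero, Matrix.mul_one, zero_add, Matrix.mul_neg, add_zero,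
    Matrix.neg_mul] at e1 e3
  constructor
  · rw [← sub_eq_zero, ← neg_eq_zero, ← e1]
    abel
  · rw [← e3]
    abel

/-- `g` carries the Lagrangian plane with frame `(X; Y)` to the standard one -/
def lat_good (N : ℕ) [Fact N.Prime] (X Y : M2) : Prop :=
  ∃ g : GaN N, (mt N g).toBlocks₂₁ * X + (mt N g).toBlocks₂₂ * Y = 0

theorem lat_step {A B C D : M2} (h : ∃ g : GaN N, mt N g = fromBlocks A B C D) {X Y : M2}
    (hg : lat_good N (A * X + B * Y) (C * X + D * Y)) : lat_good N X Y := by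
  obtain ⟨g0, hg0⟩ := h
  obtain ⟨g, hg⟩ := hg
  refine ⟨g * g0, ?_⟩
  have e : mt N (g * g0) = mt N g * mt N g0 := rfl
  rw [e, bl_mul, toBlocks_fromBlocks₂₁, toBlocks_fromBlocks₂₂, hg0, toBlocks_fromBlocks₁₁,
    toBlocks_fromBlocks₁₂, toBlocks_fromBlocks₂₁, toBlocks_fromBlocks₂₂, ← hg]
  simp only [Matrix.mul_add, Matrix.add_mul, Matrix.mul_assoc]
  abel

theorem lat_tr (a b c d : ℝ) : (!![a, b; c, d] : M2)ᵀ = !![a, c; b, d] := by
  ext i j
  fin_cases i <;> fin_cases j <;> rfl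

theorem lat_sub (a b c d a' b' c' d' : ℝ) : (!![a, b; c, d] : M2) - !![a', b'; c', d'] =
    !![a - a', b - b'; c - c', d - d'] := by
  ext i j
  fin_cases i <;> fin_cases j <;> rfl

theorem lat_ad (a b c d a' b' c' d' : ℝ) : (!![a, b; c, d] : M2) + !![a', b'; c', d'] =
    !![a + a', b + b'; c + c', d + d'] := by
  ext i j
  fin_cases i <;> fin_cases j <;> rfl

theorem lat_eq {a b c d a' b' c' d' : ℝ} (h1 : a = a') (h2 : b = b') (h3 : c = c') (h4 : d = d') :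
    (!![a, b; c, d] : M2) = !![a', b'; c', d'] := by
  rw [h1, h2, h3, h4]

theorem lat_s1 {a b c d : ℤ} (h : a * d - b * c = 1) :
    ∃ g : GaN N, mt N g = fromBlocks !![(a : ℝ), 0; 0, 1] !![(b : ℝ), 0; 0, 0]
      !![(c : ℝ), 0; 0, 0] !![(d : ℝ), 0; 0, 1] := by
  have h' : (a : ℝ) * d - b * c = 1 := by exact_mod_cast h
  have hN0 : (N : ℝ) ≠ 0 := by exact_mod_cast hN.out.ne_zero
  refine lat_mk _ _ _ _ ?_ ?_ ?_ ⟨a, 0, 0, 1, ?_⟩ ⟨b, 0, 0, 0, ?_⟩ ⟨c, 0, 0, 0, ?_⟩ ⟨d, 0, 0, 1, ?_⟩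
  · rw [lat_tr, lat_tr, mul_fin_two, mul_fin_two]
    apply lat_eq <;> ring
  · rw [lat_tr, lat_tr, mul_fin_two, mul_fin_two]
    apply lat_eq <;> ring
  · rw [lat_tr, lat_tr, mul_fin_two, mul_fin_two, lat_sub, one_fin_two]
    apply lat_eq <;> linarith
  · apply lat_eq <;> push_cast <;> ring
  · rw [PI, mul_fin_two]
    apply lat_eq <;> push_cast <;> ring
  · rw [PP, mul_fin_two]
    apply lat_eq <;> push_cast <;> ring
  · rw [PP, PI, mul_fin_two, mul_fin_two]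
    apply lat_eq <;> push_cast <;> field_simp <;> ring

theorem lat_s2 {a b c d : ℤ} (h : a * d - b * c = 1) :
    ∃ g : GaN N, mt N g = fromBlocks !![1, 0; 0, (a : ℝ)] !![0, 0; 0, (N : ℝ) * b]
      !![0, 0; 0, (c : ℝ) / N] !![1, 0; 0, (d : ℝ)] := by
  have h' : (a : ℝ) * d - b * c = 1 := by exact_mod_cast h
  have hN0 : (N : ℝ) ≠ 0 := by exact_mod_cast hN.out.ne_zero
  refine lat_mk _ _ _ _ ?_ ?_ ?_ ⟨1, 0, 0, a, ?_⟩ ⟨0, 0, 0, b, ?_⟩ ⟨0, 0, 0, c, ?_⟩ ⟨1, 0, 0, d, ?_⟩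
  · rw [lat_tr, lat_tr, mul_fin_two, mul_fin_two]
    apply lat_eq <;> ring
  · rw [lat_tr, lat_tr, mul_fin_two, mul_fin_two]
    apply lat_eq <;> ring
  · rw [lat_tr, lat_tr, mul_fin_two, mul_fin_two, lat_sub, one_fin_two]
    apply lat_eq
    · ring
    · ring
    · ring
    · rw [← h']
      field_simp
      ring
  · apply lat_eq <;> push_cast <;> ring
  · rw [PI, mul_fin_two]
    apply lat_eq <;> push_cast <;> field_simp <;> ring
  · rw [PP, mul_fin_two]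
    apply lat_eq <;> push_cast <;> field_simp <;> ring
  · rw [PP, PI, mul_fin_two, mul_fin_two]
    apply lat_eq <;> push_cast <;> field_simp <;> ring

theorem lat_u {a b c d : ℤ} {s : ℝ} (hs : s = 1 ∨ s = -1) (h : (a : ℝ) * d - N * b * c = s) :
    ∃ g : GaN N, mt N g = fromBlocks !![s * d, -(s * c); -(s * (N * b)), s * a] 0 0
      !![(a : ℝ), (N : ℝ) * b; (c : ℝ), (d : ℝ)] := by
  have hN0 : (N : ℝ) ≠ 0 := by exact_mod_cast hN.out.ne_zero
  have hss : s * s = 1 := by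
    rcases hs with rfl | rfl <;> norm_num
  have h' : s * ((a : ℝ) * d - N * b * c) = 1 := by rw [h, hss]
  obtain ⟨t, ht⟩ : ∃ t : ℤ, (t : ℝ) = s := by
    rcases hs with rfl | rfl
    · exact ⟨1, by norm_num⟩
    · exact ⟨-1, by norm_num⟩
  refine lat_mk _ _ _ _ ?_ ?_ ?_ ⟨t * d, -(t * c), -(t * b), t * a, ?_⟩ ?_ ?_ ⟨a, b, c, d, ?_⟩
  · simp
  · simp
  · rw [lat_tr, mul_fin_two, Matrix.zero_mul, sub_zero, one_fin_two]
    apply lat_eq <;> linarith
  · apply lat_eq <;> push_cast <;> rw [ht] <;> ring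
  · rw [Matrix.zero_mul]
    exact oo_zero
  · rw [Matrix.mul_zero]
    exact oo_zero
  · rw [PP, PI, mul_fin_two, mul_fin_two]
    apply lat_eq <;> push_cast <;> field_simp <;> ring

/-- two rational numbers are proportional to coprime integers -/
theorem lat_rat (x y : ℚ) : ∃ a b c d : ℤ, a * d - b * c = 1 ∧ (c : ℚ) * x + d * y = 0 := by
  by_cases hx : x = 0
  · exact ⟨0, -1, 1, 0, by norm_num, by rw [hx]; norm_num⟩
  · have h1 := (y / x).reduced
    have h2 : IsCoprime (y / x).num ((y / x).den : ℤ) := by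
      rw [Int.isCoprime_iff_gcd_eq_one]
      exact h1
    obtain ⟨u, v, huv⟩ := h2
    refine ⟨v, u, -(y / x).num, (y / x).den, by linarith, ?_⟩
    have h3 : ((y / x).num : ℚ) = (y / x) * (y / x).den := (Rat.mul_den_eq_num _).symm
    push_cast
    rw [h3]
    field_simp
    ring

/-- two rational numbers and `Γ₀(N)` -/
theorem lat_rat2 (x y : ℚ) : ∃ a b c d : ℤ, a * d - N * b * c = 1 ∧
    ((d : ℚ) * x - c * y = 0 ∨ -((N : ℚ) * b) * x + a * y = 0) := by
  have hN0 : (N : ℚ) ≠ 0 := by exact_mod_cast hN.out.ne_zero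
  obtain ⟨a, b, c, d, h1, h2⟩ := lat_rat x (y / N)
  have h3 : (N : ℚ) * c * x + d * y = 0 := by
    have : (N : ℚ) * ((c : ℚ) * x + d * (y / N)) = (N : ℚ) * c * x + d * y := by
      field_simp
    rw [← this, h2, mul_zero]
  by_cases hd : (N : ℤ) ∣ d
  · obtain ⟨e, rfl⟩ := hd
    refine ⟨-b, a, -e, c, by linarith, Or.inl ?_⟩
    push_cast at h3 ⊢
    have h4 : (N : ℚ) * (c * x - -e * y) = 0 := by
      rw [← h3]
      ring
    exact (mul_eq_zero.1 h4).resolve_left hN0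
  · have h5 : IsCoprime d ((N : ℤ) * c) := by
      refine IsCoprime.mul_right ?_ ⟨a, -b, by linarith⟩
      exact ((Prime.coprime_iff_not_dvd (Nat.prime_iff_prime_int.1 hN.out)).2 hd).symm
    obtain ⟨u, v, huv⟩ := h5
    refine ⟨d, -c, v, u, by linarith, Or.inr ?_⟩
    push_cast
    rw [← h3]
    ring

theorem lat_zero (X : M2) {a b c d : ℝ} (ha : a = 0) (hb : b = 0) (hc : c = 0) (hd : d = 0) :
    lat_good N X !![a, b; c, d] := by
  refine ⟨1, ?_⟩
  have e : mt N 1 = 1 := rfl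
  have e2 : (!![a, b; c, d] : M2) = 0 := by
    rw [ha, hb, hc, hd]
    ext i j
    fin_cases i <;> fin_cases j <;> rfl
  rw [e, e2, ← fromBlocks_one, toBlocks_fromBlocks₂₁, Matrix.zero_mul, Matrix.mul_zero, add_zero]

theorem lat_t1 {a b c d : ℤ} (h : a * d - b * c = 1) {x1 x2 y1 y2 z1 z2 w1 w2 : ℝ}
    (hg : lat_good N !![a * x1 + b * y1, a * z1 + b * w1; x2, z2]
      !![c * x1 + d * y1, c * z1 + d * w1; y2, w2]) :
    lat_good N !![x1, z1; x2, z2] !![y1, w1; y2, w2] := by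
  refine lat_step (lat_s1 h) ?_
  rw [mul_fin_two, mul_fin_two, mul_fin_two, mul_fin_two, lat_ad, lat_ad]
  convert hg using 1 <;> apply lat_eq <;> ring

theorem lat_t2 {a b c d : ℤ} (h : a * d - b * c = 1) {x1 x2 y1 y2 z1 z2 w1 w2 : ℝ}
    (hg : lat_good N !![x1, z1; a * x2 + N * b * y2, a * z2 + N * b * w2]
      !![y1, w1; c / N * x2 + d * y2, c / N * z2 + d * w2]) :
    lat_good N !![x1, z1; x2, z2] !![y1, w1; y2, w2] := by
  refine lat_step (lat_s2 h) ?_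
  rw [mul_fin_two, mul_fin_two, mul_fin_two, mul_fin_two, lat_ad, lat_ad]
  convert hg using 1 <;> apply lat_eq <;> ring

theorem lat_tu {a b c d : ℤ} (h : (a : ℝ) * d - N * b * c = 1) {x1 x2 y1 y2 z1 z2 w1 w2 : ℝ}
    (hg : lat_good N !![d * x1 - c * x2, d * z1 - c * z2;
        -(N * b) * x1 + a * x2, -(N * b) * z1 + a * z2]
      !![a * y1 + N * b * y2, a * w1 + N * b * w2; c * y1 + d * y2, c * w1 + d * w2]) :
    lat_good N !![x1, z1; x2, z2] !![y1, w1; y2, w2] := by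
  refine lat_step (lat_u (Or.inl rfl) h) ?_
  rw [mul_fin_two, Matrix.zero_mul, add_zero, Matrix.zero_mul, zero_add, mul_fin_two]
  convert hg using 1 <;> apply lat_eq <;> ring

theorem lat_end1 {x1 x2 y1 y2 z1 z2 w1 w2 : ℝ} (hx : x2 = 0) (hy1 : y1 = 0) (hy2 : y2 = 0)
    (hw : w1 = 0) (hz : ∃ q : ℚ, z2 = q) (hw2 : ∃ q : ℚ, w2 = q) :
    lat_good N !![x1, z1; x2, z2] !![y1, w1; y2, w2] := by
  obtain ⟨z, rfl⟩ := hz
  obtain ⟨w, rfl⟩ := hw2
  obtain ⟨a, b, c, d, h1, h2⟩ := lat_rat (z / N) w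
  have h2' : (c : ℝ) * (z / N) + d * w = 0 := by exact_mod_cast h2
  refine lat_t2 h1 (lat_zero _ hy1 hw ?_ ?_)
  · rw [hx, hy2]
    ring
  · rw [← h2']
    ring

theorem lat_end2 {x1 x2 y1 y2 z1 z2 w1 w2 : ℝ} (hx : x1 = 0) (hy1 : y1 = 0) (hy2 : y2 = 0)
    (hw : w2 = 0) (hz : ∃ q : ℚ, z1 = q) (hw1 : ∃ q : ℚ, w1 = q) :
    lat_good N !![x1, z1; x2, z2] !![y1, w1; y2, w2] := by
  obtain ⟨z, rfl⟩ := hz
  obtain ⟨w, rfl⟩ := hw1
  obtain ⟨a, b, c, d, h1, h2⟩ := lat_rat z w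
  have h2' : (c : ℝ) * z + d * w = 0 := by exact_mod_cast h2
  refine lat_t1 h1 (lat_zero _ ?_ h2' hy2 hw)
  rw [hx, hy1]
  ring

theorem lat_goodR (r1 r2 r3 : ℚ) :
    lat_good N !![-(r1 : ℝ), -(r2 : ℝ); -(r2 : ℝ), -(r3 : ℝ)] !![1, 0; 0, 1] := by
  have hN0 : (N : ℝ) ≠ 0 := by exact_mod_cast hN.out.ne_zero
  obtain ⟨a, b, c, d, h1, h2⟩ := lat_rat (-r1) 1
  have h1' : (a : ℝ) * d - b * c = 1 := by exact_mod_cast h1
  have h2' : (d : ℝ) = c * r1 := by
    have h3 : (d : ℚ) = c * r1 := by linarith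
    exact_mod_cast h3
  refine lat_t1 h1 ?_
  obtain ⟨a', b', c', d', h4, h5⟩ := lat_rat2 (N := N) (-(a * r1) + b) (-r2)
  have h4' : (a' : ℝ) * d' - N * b' * c' = 1 := by exact_mod_cast h4
  refine lat_tu h4' ?_
  -- the first column
  set p : ℝ := d' * (-(a * r1) + b) - c' * (-r2) with hp
  set q : ℝ := -(N * b') * (-(a * r1) + b) + a' * (-r2) with hq
  have h6 : (c : ℝ) * (-(a * r1) + b) = -1 := by
    linear_combination -h1' + a * h2'
  have h7 : (c : ℝ) * (a' * p + c' * q) = -1 := by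
    rw [← h6, hp, hq]
    linear_combination (c : ℝ) * (-(a * r1) + b) * h4'
  have h8 : p * (a' * (-c * r2) + N * b') + q * (c' * (-c * r2) + d') = 0 := by
    rw [hp, hq]
    linear_combination (-r2 * c * (-(a * r1) + b) - r2) * h4' - r2 * h6
  rcases h5 with h5 | h5
  · have h5' : p = 0 := by
      rw [hp]
      exact_mod_cast h5
    have hq0 : q ≠ 0 := by
      intro h
      rw [h5', h] at h7
      norm_num at h7
    rw [h5', zero_mul, zero_add] at h8
    have h9 := (mul_eq_zero.1 h8).resolve_left hq0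
    refine lat_end2 ?_ ?_ ?_ ?_ ?_ ?_
    · rw [← h5', hp]
      ring
    · rw [h2']
      ring
    · rw [h2']
      ring
    · refine Eq.trans ?_ h9
      ring
    · exact ⟨d' * (-a * r2) + c' * r3, by push_cast; ring⟩
    · exact ⟨a' * (-c * r2) + N * b', by push_cast; ring⟩
  · have h5' : q = 0 := by
      rw [hq]
      exact_mod_cast h5
    have hp0 : p ≠ 0 := by
      intro h
      rw [h5', h] at h7
      norm_num at h7
    rw [h5', zero_mul, add_zero] at h8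
    have h9 := (mul_eq_zero.1 h8).resolve_left hp0
    refine lat_end1 ?_ ?_ ?_ ?_ ?_ ?_
    · rw [← h5', hq]
      ring
    · rw [h2']
      ring
    · rw [h2']
      ring
    · refine Eq.trans ?_ h9
      ring
    · exact ⟨N * b' * a * r2 - a' * r3, by push_cast; ring⟩
    · exact ⟨c' * (-c * r2) + d', by push_cast; ring⟩

/-- the group element up to the sign of the determinant -/
theorem lat_ex (r : Q3) : ∃ g : GaN N, db N (mt N g) = cb N (mt N g) * sy (qr r) ∧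
    0 < (cb N (mt N g)).det := by
  have hN0 : (N : ℝ) ≠ 0 := by exact_mod_cast hN.out.ne_zero
  obtain ⟨g, hg⟩ := lat_goodR (N := N) r.1 r.2.1 r.2.2
  have e1 : (!![-(r.1 : ℝ), -(r.2.1 : ℝ); -(r.2.1 : ℝ), -(r.2.2 : ℝ)] : M2) = -sy (qr r) := by
    ext i j
    fin_cases i <;> fin_cases j <;> rfl
  have e2 : (!![1, 0; 0, 1] : M2) = 1 := one_fin_two.symm
  rw [e1, e2, Matrix.mul_neg, Matrix.mul_one] at hg
  have hg' : (mt N g).toBlocks₂₂ = (mt N g).toBlocks₂₁ * sy (qr r) := by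
    rw [← sub_eq_zero, ← hg]
    abel
  obtain ⟨r1, r2⟩ := lat_rel g
  have hd : (mt N g).toBlocks₂₁.det ≠ 0 := by
    intro h0
    have h3 : ((sy (qr r))ᵀ * (mt N g).toBlocks₁₁ᵀ - (mt N g).toBlocks₁₂ᵀ) *
        (mt N g).toBlocks₂₁ = 1 := by
      rw [Matrix.sub_mul, Matrix.mul_assoc, r1, ← r2, hg', transpose_mul, Matrix.mul_assoc]
    have h4 := congrArg Matrix.det h3
    rw [det_mul, h0, mul_zero, det_one] at h4
    exact zero_ne_one h4
  have hPd : (PP N).det = N := by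
    rw [PP, det_fin_two_of]
    ring
  have hcd : (cb N (mt N g)).det ≠ 0 := by
    rw [cb, det_mul, hPd]
    exact mul_ne_zero hN0 hd
  have hdb : db N (mt N g) = cb N (mt N g) * sy (qr r) := by
    rw [db, cb, hg', Matrix.mul_assoc]
  rcases lt_or_gt_of_ne hcd with hneg | hpos
  · obtain ⟨k, hk⟩ := lat_u (N := N) (a := -1) (b := 0) (c := 0) (d := 1) (s := -1) (Or.inr rfl)
      (by norm_num)
    refine ⟨k * g, ?_⟩
    have e : mt N (k * g) = mt N k * mt N g := rfl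
    have e3 : (mt N k).toBlocks₂₁ = 0 := by rw [hk, toBlocks_fromBlocks₂₁]
    have e4 : (mt N k).toBlocks₂₂ = !![-1, 0; 0, 1] := by
      rw [hk, toBlocks_fromBlocks₂₂]
      apply lat_eq <;> push_cast <;> ring
    have e5 : PP N * !![-1, 0; 0, 1] = !![-1, 0; 0, 1] * PP N := by
      rw [PP, mul_fin_two, mul_fin_two]
      apply lat_eq <;> ring
    have hc : cb N (mt N (k * g)) = !![-1, 0; 0, 1] * cb N (mt N g) := by
      rw [cb, e, bl_mul, toBlocks_fromBlocks₂₁, e3, e4, Matrix.zero_mul, zero_add,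
        ← Matrix.mul_assoc, e5, Matrix.mul_assoc, cb]
    have hd' : db N (mt N (k * g)) = !![-1, 0; 0, 1] * db N (mt N g) := by
      rw [db, e, bl_mul, toBlocks_fromBlocks₂₂, e3, e4, Matrix.zero_mul, zero_add,
        ← Matrix.mul_assoc, e5, Matrix.mul_assoc, db]
    constructor
    · rw [hc, hd', hdb, Matrix.mul_assoc]
    · rw [hc, det_mul, det_fin_two_of]
      linarith
  · exact ⟨g, hdb, hpos⟩

end

theorem lat_pr (N : ℕ) [Fact N.Prime] (r : Q3) : ∃ C, Prim N r C ∧ ∃ g : GaN N,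
    cb N (mt N g) = C ∧ db N (mt N g) = C * sy (qr r) := by
  have hN0 : N ≠ 0 := (Fact.out : N.Prime).ne_zero
  obtain ⟨g, hdb, hpos⟩ := lat_ex (N := N) r
  refine ⟨cb N (mt N g), ⟨?_, hpos, ?_, ?_⟩, g, rfl, hdb⟩
  · exact g.2.2.2.1
  · rw [← hdb]
    exact g.2.2.2.2
  · intro X hX hXR
    obtain ⟨r1, r2⟩ := lat_rel g
    have hPt : (PP N)ᵀ = PP N := by
      rw [PP, lat_tr]
    have hIt : (PI N)ᵀ = PI N := by
      rw [PI, lat_tr]
    have hsy : (sy (qr r))ᵀ = sy (qr r) := by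
      rw [sy, lat_tr]
    have hPI := pi_mul_pp hN0
    have hIP := pp_mul_pi hN0
    have h22 : (mt N g).toBlocks₂₂ = (mt N g).toBlocks₂₁ * sy (qr r) := by
      have h := congrArg (fun x => PI N * x) hdb
      simp only [cb, db] at h
      rwa [← Matrix.mul_assoc, hPI, Matrix.one_mul, ← Matrix.mul_assoc, ← Matrix.mul_assoc, hPI,
        Matrix.one_mul] at h
    refine ⟨-(X * ((mt N g).toBlocks₁₂ᵀ * PI N)) +
      (X * sy (qr r) * PI N) * (PP N * (mt N g).toBlocks₁₁ᵀ * PI N), ?_, ?_⟩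
    · refine oo_add (oo_neg (oo_mul hX ?_)) (oo_mul hXR (oo_sigma hN0 g.2.1))
      have h := oo_sigma hN0 g.2.2.1
      rwa [transpose_mul, hIt, ← Matrix.mul_assoc, hIP, Matrix.one_mul] at h
    · have e1 : (X * sy (qr r) * PI N) * (PP N * (mt N g).toBlocks₁₁ᵀ * PI N) =
          X * (sy (qr r) * (mt N g).toBlocks₁₁ᵀ * PI N) := by
        simp only [Matrix.mul_assoc]
        rw [← Matrix.mul_assoc (PI N) (PP N), hPI, Matrix.one_mul]
      rw [e1, ← Matrix.mul_neg, ← Matrix.mul_add, Matrix.mul_assoc]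
      have e2 : (-((mt N g).toBlocks₁₂ᵀ * PI N) + sy (qr r) * (mt N g).toBlocks₁₁ᵀ * PI N) *
          cb N (mt N g) = 1 := by
        rw [cb, ← Matrix.neg_mul, ← Matrix.add_mul, Matrix.mul_assoc, ← Matrix.mul_assoc (PI N),
          hPI, Matrix.one_mul, ← r2, h22, transpose_mul, hsy, Matrix.add_mul, Matrix.mul_assoc, r1,
          Matrix.mul_assoc, Matrix.neg_mul]
        abel
      rw [e2, Matrix.mul_one]

end Pool.Agent.NN

namespace Pool.Agent.NN

theorem lat : type_of% @lat_pr := @lat_pr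

end Pool.Agent.NN
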