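import Pool.Agent.Lib_helper32.NN.Dfs2
import Pool.Agent.Lib_helper32.NNF.LAT

/-!
# NN, block CRP: the chosen denominator
-/

set_option autoImplicit false

namespace Pool.Agent.NN

open Complex MeasureTheory Filter Topology UpperHalfPlane Matrix
open scoped MatrixGroups ENNReal ComplexConjugate
open Pool.Agent.LEV (S2 co IsNew Lh)

theorem crp_oo_det {N : ℕ} {x : M2} (hx : x ∈ OO N) : ∃ k : ℤ, x.det = k := by
  obtain ⟨a, b, c, d, rfl⟩ := hx
  refine ⟨a * d - b * (N * c), ?_⟩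
  rw [det_fin_two]
  simp

theorem crp_oo_inv {N : ℕ} {x : M2} (hx : x ∈ OO N) (h1 : x.det = 1) :
    ∃ y ∈ OO N, x * y = 1 ∧ y * x = 1 := by
  refine ⟨x.adjugate, ?_, ?_, ?_⟩
  · obtain ⟨a, b, c, d, rfl⟩ := hx
    refine ⟨d, -b, -c, a, ?_⟩
    rw [adjugate_fin_two]
    ext i j
    fin_cases i <;> fin_cases j <;> simp
  · rw [mul_adjugate, h1, one_smul]
  · rw [adjugate_mul, h1, one_smul]

/-- the element of the group with the lower right block `P⁻¹ u P` -/
theorem crp_m {N : ℕ} [hN : Fact N.Prime] {u : M2} (hu : u ∈ OO N) (h1 : u.det = 1) :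
    ∃ g : GaN N, mt N g = fromBlocks (mt N g).toBlocks₁₁ 0 0 (PI N * u * PP N) := by
  have hI := pi_mul_pp hN.out.ne_zero
  have hP := pp_mul_pi hN.out.ne_zero
  have hPt : (PP N)ᵀ = PP N := by
    ext i j; fin_cases i <;> fin_cases j <;> simp [PP]
  have hIt : (PI N)ᵀ = PI N := by
    ext i j; fin_cases i <;> fin_cases j <;> simp [PI]
  obtain ⟨v, hv, huv, hvu⟩ := crp_oo_inv hu h1
  have e1 : PP N * vᵀ * PI N * (PI N * u * PP N)ᵀ = 1 := by
    rw [transpose_mul, transpose_mul, hPt, hIt]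
    calc PP N * vᵀ * PI N * (PP N * (uᵀ * PI N)) = PP N * vᵀ * (PI N * PP N) * (uᵀ * PI N) := by
          simp only [Matrix.mul_assoc]
      _ = PP N * (vᵀ * uᵀ) * PI N := by rw [hI, Matrix.mul_one]; simp only [Matrix.mul_assoc]
      _ = 1 := by rw [← transpose_mul, huv, transpose_one, Matrix.mul_one, hP]
  have e2 : (PI N * u * PP N) * (PP N * vᵀ * PI N)ᵀ = 1 := by
    have := congrArg transpose e1
    rwa [transpose_mul, transpose_transpose, transpose_one] at this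
  have hs : fromBlocks (PP N * vᵀ * PI N) 0 0 (PI N * u * PP N) ∈
      Matrix.symplecticGroup (Fin 2) ℝ := by
    rw [SymplecticGroup.mem_iff, Matrix.J, fromBlocks_transpose, fromBlocks_multiply,
      fromBlocks_multiply]
    simp only [Matrix.zero_mul, Matrix.mul_zero, Matrix.mul_one, add_zero, zero_add,
      transpose_zero, Matrix.mul_neg, Matrix.neg_mul, neg_zero, e1, e2]
  refine ⟨⟨⟨_, hs⟩, ?_, ?_, ?_, ?_⟩, ?_⟩
  · show (fromBlocks (PP N * vᵀ * PI N) 0 0 (PI N * u * PP N)).toBlocks₁₁ ∈ OO N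
    rw [toBlocks_fromBlocks₁₁]
    exact oo_sigma hN.out.ne_zero hv
  · show (fromBlocks (PP N * vᵀ * PI N) 0 0 (PI N * u * PP N)).toBlocks₁₂ * PI N ∈ OO N
    rw [toBlocks_fromBlocks₁₂, Matrix.zero_mul]
    exact oo_zero
  · show PP N * (fromBlocks (PP N * vᵀ * PI N) 0 0 (PI N * u * PP N)).toBlocks₂₁ ∈ OO N
    rw [toBlocks_fromBlocks₂₁, Matrix.mul_zero]
    exact oo_zero
  · show PP N * (fromBlocks (PP N * vᵀ * PI N) 0 0 (PI N * u * PP N)).toBlocks₂₂ * PI N ∈ OO N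
    rw [toBlocks_fromBlocks₂₂]
    have : PP N * (PI N * u * PP N) * PI N = u := by
      calc PP N * (PI N * u * PP N) * PI N = (PP N * PI N) * u * (PP N * PI N) := by
            simp only [Matrix.mul_assoc]
        _ = u := by rw [hP, Matrix.one_mul, Matrix.mul_one]
    rw [this]
    exact hu
  · show fromBlocks (PP N * vᵀ * PI N) 0 0 (PI N * u * PP N) =
      fromBlocks (fromBlocks (PP N * vᵀ * PI N) 0 0 (PI N * u * PP N)).toBlocks₁₁ 0 0
        (PI N * u * PP N)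
    rw [toBlocks_fromBlocks₁₁]

theorem crp_prim_cr {N : ℕ} {r : Q3} (h : ∃ C, Prim N r C) : Prim N r (cr N r) := by
  unfold cr
  rw [dif_pos h]
  exact h.choose_spec

section
variable (N : ℕ) [Fact N.Prime]

theorem cr_prim_pr (r : Q3) : Prim N r (cr N r) ∧ ∃ g : GaN N,
    cb N (mt N g) = cr N r ∧ db N (mt N g) = cr N r * sy (qr r) := by
  have hN : Fact N.Prime := inferInstance
  obtain ⟨C, hC, g, hg1, hg2⟩ := lat (N := N) r
  have hc := crp_prim_cr ⟨C, hC⟩
  refine ⟨hc, ?_⟩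
  obtain ⟨c1, c2, c3, c4⟩ := hC
  obtain ⟨r1, r2, r3, r4⟩ := hc
  obtain ⟨G, hG, hG'⟩ := c4 _ r1 r3
  obtain ⟨H, hH, hH'⟩ := r4 _ c1 c3
  have hd : G.det * C.det = (cr N r).det := by rw [← det_mul, ← hG']
  have hd' : H.det * (cr N r).det = C.det := by rw [← det_mul, ← hH']
  obtain ⟨k, hk⟩ := crp_oo_det hG
  obtain ⟨l, hl⟩ := crp_oo_det hH
  have h1 : G.det = 1 := by
    rw [hk] at hd
    rw [hl] at hd'
    have hkp : (0 : ℝ) < k := by
      by_contra hcon
      push Not at hcon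
      nlinarith
    have hlp : (0 : ℝ) < l := by
      by_contra hcon
      push Not at hcon
      nlinarith
    have hk1 : (1 : ℝ) ≤ k := by exact_mod_cast (by exact_mod_cast hkp : (0 : ℤ) < k)
    have hl1 : (1 : ℝ) ≤ l := by exact_mod_cast (by exact_mod_cast hlp : (0 : ℤ) < l)
    rw [hk]
    have h5 : (l : ℝ) * k * C.det = C.det := by rw [mul_assoc, hd, hd']
    have h6 : (l : ℝ) * k = 1 := by
      have := mul_right_cancel₀ c2.ne' (h5.trans (one_mul C.det).symm)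
      exact this
    nlinarith
  obtain ⟨m, hm⟩ := crp_m hG h1
  have hP := pp_mul_pi hN.out.ne_zero
  have e21 : (mt N (m * g)).toBlocks₂₁ = PI N * G * PP N * (mt N g).toBlocks₂₁ := by
    have e : mt N (m * g) = mt N m * mt N g := rfl
    rw [e, bl_mul, toBlocks_fromBlocks₂₁, hm, toBlocks_fromBlocks₂₁, toBlocks_fromBlocks₂₂,
      Matrix.zero_mul, zero_add]
  have e22 : (mt N (m * g)).toBlocks₂₂ = PI N * G * PP N * (mt N g).toBlocks₂₂ := by
    have e : mt N (m * g) = mt N m * mt N g := rfl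
    rw [e, bl_mul, toBlocks_fromBlocks₂₂, hm, toBlocks_fromBlocks₂₁, toBlocks_fromBlocks₂₂,
      Matrix.zero_mul, zero_add]
  refine ⟨m * g, ?_, ?_⟩
  · unfold cb at hg1 ⊢
    rw [e21, hG', ← hg1]
    calc PP N * (PI N * G * PP N * (mt N g).toBlocks₂₁) =
        (PP N * PI N) * G * (PP N * (mt N g).toBlocks₂₁) := by simp only [Matrix.mul_assoc]
      _ = G * (PP N * (mt N g).toBlocks₂₁) := by rw [hP, Matrix.one_mul]
  · unfold db at hg2 ⊢
    rw [e22, hG', Matrix.mul_assoc G, ← hg2]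
    calc PP N * (PI N * G * PP N * (mt N g).toBlocks₂₂) =
        (PP N * PI N) * G * (PP N * (mt N g).toBlocks₂₂) := by simp only [Matrix.mul_assoc]
      _ = G * (PP N * (mt N g).toBlocks₂₂) := by rw [hP, Matrix.one_mul]

end

theorem crp_shift_mem {N : ℕ} (hN : N ≠ 0) (r : Q3) (a b c : ℤ) {X : M2} (hX : X ∈ OO N) :
    X * sy (qr (r.1 + a, r.2.1 + N * b, r.2.2 + N * c)) * PI N ∈ OO N ↔
      X * sy (qr r) * PI N ∈ OO N := by
  have h : (N : ℝ) ≠ 0 := by exact_mod_cast hN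
  have hS : (!![(a : ℝ), (b : ℝ); (N : ℝ) * (b : ℝ), (c : ℝ)] : M2) ∈ OO N := ⟨a, b, b, c, rfl⟩
  have e : sy (qr (r.1 + a, r.2.1 + N * b, r.2.2 + N * c)) * PI N =
      sy (qr r) * PI N + !![(a : ℝ), (b : ℝ); (N : ℝ) * (b : ℝ), (c : ℝ)] := by
    ext i j
    fin_cases i <;> fin_cases j <;>
      simp [PI, sy, qr, Matrix.mul_apply, Fin.sum_univ_two] <;> field_simp
  rw [Matrix.mul_assoc, e, Matrix.mul_add, ← Matrix.mul_assoc]
  constructor
  · intro h1
    have h2 := oo_add h1 (oo_neg (oo_mul hX hS))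
    rwa [add_neg_cancel_right] at h2
  · intro h1
    exact oo_add h1 (oo_mul hX hS)

section
variable (N : ℕ) [Fact N.Prime]

theorem cr_shift_pr (r : Q3) (a b c : ℤ) :
    cr N (r.1 + a, r.2.1 + N * b, r.2.2 + N * c) = cr N r := by
  have hN : Fact N.Prime := inferInstance
  have e : Prim N (r.1 + a, r.2.1 + N * b, r.2.2 + N * c) = Prim N r := by
    funext C
    apply propext
    unfold Prim
    constructor
    · rintro ⟨h1, h2, h3, h4⟩
      refine ⟨h1, h2, (crp_shift_mem hN.out.ne_zero r a b c h1).1 h3, fun X hX hX' => ?_⟩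
      exact h4 X hX ((crp_shift_mem hN.out.ne_zero r a b c hX).2 hX')
    · rintro ⟨h1, h2, h3, h4⟩
      refine ⟨h1, h2, (crp_shift_mem hN.out.ne_zero r a b c h1).2 h3, fun X hX hX' => ?_⟩
      exact h4 X hX ((crp_shift_mem hN.out.ne_zero r a b c hX).1 hX')
  unfold cr
  rw [e]

end


end Pool.Agent.NN

namespace Pool.Agent.NN

theorem cr_prim : type_of% @cr_prim_pr := @cr_prim_pr

theorem cr_shift : type_of% @cr_shift_pr := @cr_shift_pr

end Pool.Agent.NN
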