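import Pool.Agent.Lib_helper32.NN.Dfs2

/-! # NN, block HRR: representatives of `Γ₀(N) \ {C ∈ R₀(N) : det C = n}` -/

namespace Pool.Agent.NN

open Complex MeasureTheory Filter Topology UpperHalfPlane Matrix
open scoped MatrixGroups ENNReal ComplexConjugate
open Pool.Agent.LEV (S2 co IsNew Lh)

theorem hrr_mem1 {n : ℕ} (hn : 0 < n) (M : Matrix (Fin 2) (Fin 2) ℤ) :
    M ∈ HR1 n ↔ ∃ a b d : ℕ, a * d = n ∧ b < d ∧ M = !![(a : ℤ), (b : ℤ); 0, (d : ℤ)] := by
  unfold HR1
  simp only [Finset.mem_image, Finset.mem_filter, Finset.mem_product, Finset.mem_range,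
    Prod.exists]
  constructor
  · rintro ⟨a, b, d, ⟨_, h1, h2⟩, rfl⟩
    exact ⟨a, b, d, h1, h2, rfl⟩
  · rintro ⟨a, b, d, h1, h2, rfl⟩
    have hd : 0 < d := by omega
    have ha : a ≤ n := by rw [← h1]; exact Nat.le_mul_of_pos_right a hd
    have ha0 : 0 < a := Nat.pos_of_ne_zero (by rintro rfl; omega)
    have hd' : d ≤ n := by rw [← h1]; exact Nat.le_mul_of_pos_left d ha0
    exact ⟨a, b, d, ⟨⟨by omega, by omega, by omega⟩, h1, h2⟩, rfl⟩

theorem hrr_mem2 {N n : ℕ} (hN : 0 < N) (hn : 0 < n) (M : Matrix (Fin 2) (Fin 2) ℤ) :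
    M ∈ HR2 N n ↔ ∃ a b d : ℕ, N * a * b = n ∧ d < N * b ∧
      M = !![0, -(b : ℤ); (N : ℤ) * (a : ℤ), (d : ℤ)] := by
  unfold HR2
  simp only [Finset.mem_image, Finset.mem_filter, Finset.mem_product, Finset.mem_range,
    Prod.exists]
  constructor
  · rintro ⟨a, b, d, ⟨_, h1, h2⟩, rfl⟩
    exact ⟨a, b, d, h1, h2, rfl⟩
  · rintro ⟨a, b, d, h1, h2, rfl⟩
    have hb0 : 0 < b := Nat.pos_of_ne_zero (by rintro rfl; omega)
    have ha0 : 0 < a := Nat.pos_of_ne_zero (by rintro rfl; simp at h1; omega)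
    have ha : a ≤ n := by
      rw [← h1]
      calc a ≤ N * a := Nat.le_mul_of_pos_left a hN
        _ ≤ N * a * b := Nat.le_mul_of_pos_right _ hb0
    have hb : b ≤ n := by
      rw [← h1]
      exact Nat.le_mul_of_pos_left b (Nat.mul_pos hN ha0)
    have hd : d < n + 1 := by
      have : N * b ≤ n := by
        rw [← h1, mul_assoc, mul_comm a b, ← mul_assoc]
        exact Nat.le_mul_of_pos_right _ ha0
      omega
    exact ⟨a, b, d, ⟨⟨by omega, by omega, hd⟩, h1, h2⟩, rfl⟩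

theorem hrr_toR (a b c d : ℤ) : toR !![a, b; c, d] = !![(a : ℝ), (b : ℝ); (c : ℝ), (d : ℝ)] := by
  unfold toR
  ext i j
  fin_cases i <;> fin_cases j <;> simp

/-- existence, integral form -/
theorem hrr_exists {N n : ℕ} (hN : N.Prime) (hn : 0 < n) (a b c d : ℤ)
    (h : a * d - b * (N * c) = n) :
    ∃ C0 ∈ HR N n, ∃ p q r s : ℤ, p * s - q * (N * r) = 1 ∧
      ∃ x y z w : ℤ, C0 = !![x, y; z, w] ∧ a = p * x + q * z ∧ b = p * y + q * w ∧
        N * c = N * r * x + s * z ∧ d = N * r * y + s * w := by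
  have hn' : (0 : ℤ) < n := by exact_mod_cast hn
  have hN0 : (0 : ℤ) < N := by exact_mod_cast hN.pos
  have hg : 0 < Int.gcd a c := by
    rcases Nat.eq_zero_or_pos (Int.gcd a c) with h0 | h0
    · rw [Int.gcd_eq_zero_iff] at h0
      rw [h0.1, h0.2] at h
      simp at h
      omega
    · exact h0
  obtain ⟨x, y, hxy, hx, hy⟩ := Int.exists_gcd_one hg
  obtain ⟨g, hgg⟩ : ∃ g : ℕ, g = Int.gcd a c := ⟨_, rfl⟩
  rw [← hgg] at hg hx hy
  have hg' : (0 : ℤ) < g := by exact_mod_cast hg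
  have hcop : IsCoprime x y := Int.isCoprime_iff_gcd_eq_one.2 hxy
  by_cases hNx : (N : ℤ) ∣ x
  · obtain ⟨x', rfl⟩ := hNx
    obtain ⟨r', s', hrs⟩ := hcop
    obtain ⟨b1, hb1⟩ : ∃ b1 : ℤ, b1 = x' * d - y * b := ⟨_, rfl⟩
    have hnb : (N : ℤ) * g * b1 = n := by
      rw [hb1, ← h, hx, hy]
      ring
    have hb0 : 0 < b1 := by
      by_contra hcon
      push Not at hcon
      have : (N : ℤ) * g * b1 ≤ 0 := mul_nonpos_of_nonneg_of_nonpos (by positivity) hcon
      omega
    have hNb : 0 < (N : ℤ) * b1 := mul_pos hN0 hb0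
    obtain ⟨δ, hδ⟩ : ∃ δ : ℤ, δ = N * r' * b + s' * d := ⟨_, rfl⟩
    obtain ⟨k, hk⟩ : ∃ k : ℤ, k = δ / (N * b1) := ⟨_, rfl⟩
    obtain ⟨d0, hd0⟩ : ∃ d0 : ℤ, d0 = δ % (N * b1) := ⟨_, rfl⟩
    have hdk : N * b1 * k + d0 = δ := by
      rw [hk, hd0]
      exact Int.mul_ediv_add_emod δ (N * b1)
    have hd1 : 0 ≤ d0 := by rw [hd0]; exact Int.emod_nonneg _ hNb.ne'
    have hd2 : d0 < N * b1 := by rw [hd0]; exact Int.emod_lt_of_pos _ hNb
    obtain ⟨bn, hbn⟩ := Int.eq_ofNat_of_zero_le hb0.le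
    obtain ⟨dn, hdn⟩ := Int.eq_ofNat_of_zero_le hd1
    refine ⟨!![0, -(bn : ℤ); (N : ℤ) * (g : ℤ), (dn : ℤ)], ?_, s' - N * k * x', x',
      -r' - k * y, y, ?_, 0, -(bn : ℤ), (N : ℤ) * (g : ℤ), (dn : ℤ), rfl, ?_, ?_, ?_, ?_⟩
    · unfold HR
      rw [Finset.mem_union, hrr_mem2 hN.pos hn]
      right
      refine ⟨g, bn, dn, ?_, ?_, rfl⟩
      · rw [hbn] at hnb
        exact_mod_cast hnb
      · rw [hbn, hdn] at hd2
        exact_mod_cast hd2
    · linear_combination hrs
    · rw [hx]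
      ring
    · rw [← hbn, ← hdn]
      linear_combination -b * hrs - x' * hdk - x' * hδ + (s' : ℤ) * hb1
    · rw [hy]
      ring
    · rw [← hbn, ← hdn]
      linear_combination -d * hrs - y * hdk - y * hδ - N * r' * hb1
  · have hcN : IsCoprime x (N : ℤ) := by
      have hp : Prime (N : ℤ) := Nat.prime_iff_prime_int.1 hN
      exact ((Prime.coprime_iff_not_dvd hp).2 hNx).symm
    obtain ⟨p', q', hpq⟩ := hcN.mul_right hcop
    obtain ⟨e, he⟩ : ∃ e : ℤ, e = x * d - N * y * b := ⟨_, rfl⟩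
    have hge : (g : ℤ) * e = n := by
      rw [he, ← h, hx, hy]
      ring
    have he0 : 0 < e := by
      by_contra hcon
      push Not at hcon
      have : (g : ℤ) * e ≤ 0 := mul_nonpos_of_nonneg_of_nonpos hg'.le hcon
      omega
    obtain ⟨β, hβ⟩ : ∃ β : ℤ, β = p' * b + q' * d := ⟨_, rfl⟩
    obtain ⟨k, hk⟩ : ∃ k : ℤ, k = β / e := ⟨_, rfl⟩
    obtain ⟨b0, hb0⟩ : ∃ b0 : ℤ, b0 = β % e := ⟨_, rfl⟩
    have hbk : e * k + b0 = β := by
      rw [hk, hb0]
      exact Int.mul_ediv_add_emod β e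
    have hb1 : 0 ≤ b0 := by rw [hb0]; exact Int.emod_nonneg _ he0.ne'
    have hb2 : b0 < e := by rw [hb0]; exact Int.emod_lt_of_pos _ he0
    obtain ⟨en, hen⟩ := Int.eq_ofNat_of_zero_le he0.le
    obtain ⟨bn, hbn⟩ := Int.eq_ofNat_of_zero_le hb1
    refine ⟨!![(g : ℤ), (bn : ℤ); 0, (en : ℤ)], ?_, x, x * k - q', y, N * y * k + p', ?_,
      (g : ℤ), (bn : ℤ), 0, (en : ℤ), rfl, ?_, ?_, ?_, ?_⟩
    · unfold HR
      rw [Finset.mem_union, hrr_mem1 hn]
      left
      refine ⟨g, bn, en, ?_, ?_, rfl⟩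
      · rw [hen] at hge
        exact_mod_cast hge
      · rw [hbn, hen] at hb2
        exact_mod_cast hb2
    · linear_combination hpq
    · rw [hx]
      ring
    · rw [← hbn, ← hen]
      linear_combination -b * hpq - x * hbk - x * hβ + q' * he
    · rw [hy]
      ring
    · rw [← hbn, ← hen]
      linear_combination -d * hpq - N * y * hbk - N * y * hβ - p' * he

theorem hrr_cast {p q r s : ℤ} {N : ℕ} {x y z w : ℤ} {a b c d : ℤ} :
    (!![(a : ℝ), (b : ℝ); (N : ℝ) * (c : ℝ), (d : ℝ)] : M2) =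
      !![(p : ℝ), (q : ℝ); (N : ℝ) * (r : ℝ), (s : ℝ)] * toR !![x, y; z, w] ↔
    a = p * x + q * z ∧ b = p * y + q * w ∧ N * c = N * r * x + s * z ∧
      d = N * r * y + s * w := by
  rw [hrr_toR]
  constructor
  · intro h
    have h1 := congrFun (congrFun h 0) 0
    have h2 := congrFun (congrFun h 0) 1
    have h3 := congrFun (congrFun h 1) 0
    have h4 := congrFun (congrFun h 1) 1
    simp [Matrix.mul_apply, Fin.sum_univ_two] at h1 h2 h3 h4
    refine ⟨by exact_mod_cast h1, by exact_mod_cast h2, by exact_mod_cast h3,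
      by exact_mod_cast h4⟩
  · rintro ⟨h1, h2, h3, h4⟩
    have h1' : (a : ℝ) = p * x + q * z := by exact_mod_cast h1
    have h2' : (b : ℝ) = p * y + q * w := by exact_mod_cast h2
    have h3' : (N : ℝ) * c = N * r * x + s * z := by exact_mod_cast h3
    have h4' : (d : ℝ) = N * r * y + s * w := by exact_mod_cast h4
    ext i j
    fin_cases i <;> fin_cases j <;> simp [Matrix.mul_apply, Fin.sum_univ_two]
    · exact h1'
    · exact h2'
    · exact h3'
    · exact h4'

/-- the determinant -/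
theorem hrr_det2 (a b c d : ℝ) : (!![a, b; c, d] : M2).det = a * d - b * c := by
  rw [Matrix.det_fin_two_of]

/-- uniqueness, integral form -/
theorem hrr_unique {N n : ℕ} (hN : N.Prime) (hn : 0 < n) {x y z w x' y' z' w' : ℤ}
    (hM : !![x, y; z, w] ∈ HR N n) (hM' : !![x', y'; z', w'] ∈ HR N n) {P Q R S : ℤ}
    (hdet : P * S - Q * (N * R) = 1) (h1 : x' = P * x + Q * z) (h2 : y' = P * y + Q * w)
    (h3 : z' = N * R * x + S * z) (h4 : w' = N * R * y + S * w) :
    x' = x ∧ y' = y ∧ z' = z ∧ w' = w := by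
  have hN0 : (0 : ℤ) < N := by exact_mod_cast hN.pos
  have hn' : (0 : ℤ) < n := by exact_mod_cast hn
  have hNot : ∀ t : ℤ, (N : ℤ) * t = 1 → False := by
    intro t ht
    have h5 : (N : ℤ) ∣ 1 := ⟨t, ht.symm⟩
    have h6 : (N : ℤ) = 1 := Int.eq_one_of_dvd_one hN0.le h5
    have h7 : N = 1 := by exact_mod_cast h6
    exact hN.one_lt.ne' h7
  have hE : ∀ {A B C D A' B' C' D' : ℤ}, (!![A, B; C, D] : Matrix (Fin 2) (Fin 2) ℤ) =
      !![A', B'; C', D'] → A = A' ∧ B = B' ∧ C = C' ∧ D = D' := by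
    intro A B C D A' B' C' D' h
    have k1 := congrFun (congrFun h 0) 0
    have k2 := congrFun (congrFun h 0) 1
    have k3 := congrFun (congrFun h 1) 0
    have k4 := congrFun (congrFun h 1) 1
    simp at k1 k2 k3 k4
    exact ⟨k1, k2, k3, k4⟩
  have hpos : ∀ {u v : ℤ}, 0 < u → 0 < v * u → 0 < v := by
    intro u v hu hvu
    by_contra hcon
    push Not at hcon
    have := mul_nonpos_of_nonpos_of_nonneg hcon hu.le
    omega
  have hone : ∀ {u v : ℤ}, u * v = 1 → 0 < u → u = 1 ∧ v = 1 := by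
    intro u v huv hu
    have h5 : u ∣ 1 := ⟨v, huv.symm⟩
    have h6 : u = 1 := Int.eq_one_of_dvd_one hu.le h5
    rw [h6, one_mul] at huv
    exact ⟨h6, huv⟩
  unfold HR at hM hM'
  rw [Finset.mem_union, hrr_mem1 hn, hrr_mem2 hN.pos hn] at hM hM'
  rcases hM with ⟨a, b, d, k1, k2, k3⟩ | ⟨a, b, d, k1, k2, k3⟩
  · obtain ⟨rfl, rfl, rfl, rfl⟩ := hE k3
    have hd0 : 0 < d := by omega
    have ha0 : 0 < a := Nat.pos_of_ne_zero (by rintro rfl; omega)
    have ha0' : (0 : ℤ) < a := by exact_mod_cast ha0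
    have hd0' : (0 : ℤ) < d := by exact_mod_cast hd0
    rcases hM' with ⟨a', b', d', l1, l2, l3⟩ | ⟨a', b', d', l1, l2, l3⟩
    · obtain ⟨rfl, rfl, rfl, rfl⟩ := hE l3
      have ha1 : 0 < a' := Nat.pos_of_ne_zero (by rintro rfl; omega)
      have ha1' : (0 : ℤ) < a' := by exact_mod_cast ha1
      simp only [mul_zero, add_zero] at h1 h3
      have hR : R = 0 := by
        have h5 : (N : ℤ) * R * a = 0 := h3.symm
        rcases mul_eq_zero.1 h5 with h6 | h6
        · rcases mul_eq_zero.1 h6 with h7 | h7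
          · omega
          · exact h7
        · omega
      have hP : 0 < P := hpos ha0' (by rw [← h1]; exact ha1')
      rw [hR] at hdet h4
      obtain ⟨hP1, hS1⟩ := hone (u := P) (v := S) (by linear_combination hdet) hP
      rw [hP1] at h1 h2
      rw [hS1] at h4
      have hdd : (d' : ℤ) = d := by linear_combination h4
      have hQ : Q = 0 := by
        have hb1 : (b : ℤ) < d := by exact_mod_cast k2
        have hb2 : (b' : ℤ) < d := by rw [← hdd]; exact_mod_cast l2
        have hb3 : (0 : ℤ) ≤ b := by positivity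
        have hb4 : (0 : ℤ) ≤ b' := by positivity
        have h5 : Q * (d : ℤ) = b' - b := by linear_combination -h2
        have h6 : Q < 1 := by
          by_contra hcon
          push Not at hcon
          nlinarith
        have h7 : -1 < Q := by
          by_contra hcon
          push Not at hcon
          nlinarith
        omega
      refine ⟨by linear_combination h1, ?_, rfl, hdd⟩
      rw [h2, hQ]
      ring
    · exfalso
      obtain ⟨rfl, rfl, rfl, rfl⟩ := hE l3
      simp only [mul_zero, add_zero] at h1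
      have hP : P = 0 := by
        rcases mul_eq_zero.1 h1.symm with h5 | h5
        · exact h5
        · omega
      rw [hP] at hdet
      exact hNot (-Q * R) (by linear_combination hdet)
  · obtain ⟨rfl, rfl, rfl, rfl⟩ := hE k3
    have hb0 : 0 < b := Nat.pos_of_ne_zero (by rintro rfl; omega)
    have ha0 : 0 < a := Nat.pos_of_ne_zero (by rintro rfl; simp at k1; omega)
    have ha0' : (0 : ℤ) < a := by exact_mod_cast ha0
    have hb0' : (0 : ℤ) < b := by exact_mod_cast hb0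
    have hNa : (0 : ℤ) < N * a := by positivity
    have hNb : (0 : ℤ) < N * b := by positivity
    rcases hM' with ⟨a', b', d', l1, l2, l3⟩ | ⟨a', b', d', l1, l2, l3⟩
    · exfalso
      obtain ⟨rfl, rfl, rfl, rfl⟩ := hE l3
      simp only [mul_zero, zero_add] at h3
      have hS : S = 0 := by
        rcases mul_eq_zero.1 h3.symm with h5 | h5
        · exact h5
        · omega
      rw [hS] at hdet
      exact hNot (-Q * R) (by linear_combination hdet)
    · obtain ⟨rfl, rfl, rfl, rfl⟩ := hE l3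
      have ha1 : 0 < a' := Nat.pos_of_ne_zero (by rintro rfl; simp at l1; omega)
      have ha1' : (0 : ℤ) < a' := by exact_mod_cast ha1
      simp only [mul_zero, zero_add] at h1 h3
      have hQ : Q = 0 := by
        rcases mul_eq_zero.1 h1.symm with h5 | h5
        · exact h5
        · omega
      have hS : 0 < S := hpos hNa (by rw [← h3]; positivity)
      rw [hQ] at hdet h2
      obtain ⟨hS1, hP1⟩ := hone (u := S) (v := P) (by linear_combination hdet) hS
      rw [hS1] at h3 h4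
      rw [hP1] at h2
      have hbb : (b' : ℤ) = b := by linear_combination -h2
      have hR : R = 0 := by
        have hd1 : (d : ℤ) < N * b := by exact_mod_cast k2
        have hd2 : (d' : ℤ) < N * b := by rw [← hbb]; exact_mod_cast l2
        have hd3 : (0 : ℤ) ≤ d := by positivity
        have hd4 : (0 : ℤ) ≤ d' := by positivity
        have h5 : R * (N * (b : ℤ)) = d - d' := by linear_combination h4
        have h6 : R < 1 := by
          by_contra hcon
          push Not at hcon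
          nlinarith
        have h7 : -1 < R := by
          by_contra hcon
          push Not at hcon
          nlinarith
        omega
      refine ⟨rfl, by linear_combination h2, by linear_combination h3, ?_⟩
      rw [h4, hR]
      ring

section form
variable {N : ℕ} [Fact N.Prime] (f : S2 N)

theorem hr_rep_pr {n : ℕ} (hn : 0 < n) {C : M2} (hC : C ∈ OO N) (hd : C.det = n) :
    ∃! C0, C0 ∈ HR N n ∧ ∃ u ∈ G0m N, C = u * toR C0 := by
  have hN : N.Prime := Fact.out
  obtain ⟨a, b, c, d, rfl⟩ := hC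
  rw [hrr_det2] at hd
  have hd' : a * d - b * (N * c) = n := by exact_mod_cast hd
  obtain ⟨C0, hC0, p, q, r, s, hdet, x, y, z, w, rfl, e1, e2, e3, e4⟩ :=
    hrr_exists hN hn a b c d hd'
  have hG : ∀ {p q r s : ℤ}, p * s - q * (N * r) = 1 →
      (!![(p : ℝ), (q : ℝ); (N : ℝ) * (r : ℝ), (s : ℝ)] : M2) ∈ G0m N := by
    intro p q r s h
    refine ⟨⟨p, q, r, s, rfl⟩, ?_⟩
    rw [hrr_det2]
    exact_mod_cast h
  refine ⟨!![x, y; z, w], ⟨hC0, _, hG hdet, hrr_cast.2 ⟨e1, e2, e3, e4⟩⟩, ?_⟩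
  rintro C1 ⟨hC1, u, ⟨⟨p', q', r', s', rfl⟩, hu⟩, hC⟩
  rw [hrr_det2] at hu
  have hu' : p' * s' - q' * (N * r') = 1 := by exact_mod_cast hu
  obtain ⟨x', y', z', w', hx'⟩ : ∃ x' y' z' w' : ℤ, C1 = !![x', y'; z', w'] :=
    ⟨C1 0 0, C1 0 1, C1 1 0, C1 1 1, Matrix.eta_fin_two C1⟩
  rw [hx'] at hC hC1 ⊢
  obtain ⟨f1, f2, f3, f4⟩ := hrr_cast.1 hC
  obtain ⟨g1, g2, g3, g4⟩ := hrr_unique hN hn hC0 hC1 (P := s' * p - q' * (N * r))
    (Q := s' * q - q' * s) (R := p' * r - r' * p) (S := p' * s - N * r' * q)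
    (by linear_combination (p' * s' - q' * (N * r')) * hdet + hu')
    (by linear_combination s' * (e1 - f1) - q' * (e3 - f3) - x' * hu')
    (by linear_combination s' * (e2 - f2) - q' * (e4 - f4) - y' * hu')
    (by linear_combination p' * (e3 - f3) - N * r' * (e1 - f1) - z' * hu')
    (by linear_combination p' * (e4 - f4) - N * r' * (e2 - f2) - w' * hu')
  rw [g1, g2, g3, g4]

theorem hr_mem_pr {n : ℕ} (hn : 0 < n) {C0 : Matrix (Fin 2) (Fin 2) ℤ} (h : C0 ∈ HR N n) :
    toR C0 ∈ OO N ∧ (toR C0).det = n := by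
  have hN : N.Prime := Fact.out
  unfold HR at h
  rw [Finset.mem_union, hrr_mem1 hn, hrr_mem2 hN.pos hn] at h
  rcases h with ⟨a, b, d, k1, k2, rfl⟩ | ⟨a, b, d, k1, k2, rfl⟩
  · rw [hrr_toR]
    constructor
    · refine ⟨a, b, 0, d, ?_⟩
      simp
    · rw [hrr_det2, ← k1]
      push_cast
      ring
  · rw [hrr_toR]
    constructor
    · refine ⟨0, -b, a, d, ?_⟩
      simp
    · rw [hrr_det2, ← k1]
      push_cast
      ring

end form

end Pool.Agent.NN

namespace Pool.Agent.NN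

theorem hr_rep : type_of% @hr_rep_pr := @hr_rep_pr

theorem hr_mem : type_of% @hr_mem_pr := @hr_mem_pr

end Pool.Agent.NN
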