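import Pool.Agent.Lib_helper32.NN.Dfs2
import Pool.Agent.Lib_helper32.NNF.CRP
import Pool.Agent.Lib_helper32.NNF.HEC
import Pool.Agent.Lib_helper32.NNF.HRR
import Pool.Agent.Lib_helper32.NNF.PHA

/-!
# NN, block ALB: the sum over all pairs, by the symmetric matrix
-/

namespace Pool.Agent.NN

open Complex Filter Topology UpperHalfPlane Matrix
open scoped ComplexConjugate
open Pool.Agent.LEV (S2 co IsNew Lh)

section
variable {N : ℕ} [hNp : Fact N.Prime]

/-- the determinant of an element of the order is an integer -/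
theorem alb_det {C : M2} (hC : C ∈ OO N) : ∃ k : ℤ, C.det = k := by
  obtain ⟨a, b, c, d, rfl⟩ := hC
  refine ⟨a * d - b * (N * c), ?_⟩
  rw [Matrix.det_fin_two_of]
  push_cast
  ring

/-- the adjugate of an element of the order -/
theorem alb_adj {C : M2} (hC : C ∈ OO N) : C.adjugate ∈ OO N := by
  obtain ⟨a, b, c, d, rfl⟩ := hC
  refine ⟨d, -b, -c, a, ?_⟩
  rw [Matrix.adjugate_fin_two_of]
  ext i j
  fin_cases i <;> fin_cases j <;> simp

theorem cr_det_pr (r : Q3) : ∃ n : ℕ, 0 < n ∧ (cr N r).det = n := by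
  obtain ⟨h1, h2, -⟩ := (cr_prim N r).1
  obtain ⟨k, hk⟩ := alb_det h1
  rw [hk] at h2
  have hk0 : 0 < k := by exact_mod_cast h2
  refine ⟨k.toNat, by omega, ?_⟩
  rw [hk]
  have : ((k.toNat : ℕ) : ℤ) = k := Int.toNat_of_nonneg hk0.le
  exact_mod_cast this.symm

/-- the matrices made integral by `C` are finite in number -/
theorem alb_rs_fin {C : M2} (hC : C ∈ OO N) {n : ℕ} (hn : 0 < n) (hd : C.det = n) :
    (rs N C).Finite := by
  have hN0 : (N : ℝ) ≠ 0 := by exact_mod_cast hNp.out.ne_zero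
  have hnR : (n : ℝ) ≠ 0 := by exact_mod_cast hn.ne'
  have hnQ : (n : ℚ) ≠ 0 := by exact_mod_cast hn.ne'
  have hnQ0 : (0 : ℚ) < n := by exact_mod_cast hn
  have hNQ0 : (0 : ℚ) < N := by exact_mod_cast hNp.out.pos
  set T : Finset (ℤ × ℤ × ℤ) := Finset.Ico 0 (n : ℤ) ×ˢ Finset.Ico 0 (n : ℤ) ×ˢ Finset.Ico 0 (n : ℤ)
    with hT
  refine Set.Finite.subset (T.image (fun t : ℤ × ℤ × ℤ =>
    (((t.1 : ℚ) / n, (N : ℚ) * t.2.1 / n, (N : ℚ) * t.2.2 / n) : Q3))).finite_toSet ?_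
  rintro ⟨r1, r2, r3⟩ ⟨⟨⟨b1, b2⟩, ⟨b3, b4⟩, b5, b6⟩, hr⟩
  simp only at b1 b2 b3 b4 b5 b6
  have h1 := oo_mul (alb_adj hC) hr
  have h2 : C.adjugate * (C * sy (qr (r1, r2, r3)) * PI N) =
      (n : ℝ) • (sy (qr (r1, r2, r3)) * PI N) := by
    rw [← Matrix.mul_assoc, ← Matrix.mul_assoc, Matrix.adjugate_mul, hd, Matrix.smul_mul,
      Matrix.one_mul, Matrix.smul_mul]
  rw [h2] at h1
  obtain ⟨a, b, c, d, h3⟩ := h1
  have e00 := congrFun (congrFun h3 0) 0
  have e01 := congrFun (congrFun h3 0) 1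
  have e11 := congrFun (congrFun h3 1) 1
  simp [sy, qr, PI, Matrix.mul_apply, Fin.sum_univ_two] at e00 e01 e11
  have f00 : (n : ℚ) * r1 = a := by exact_mod_cast e00
  have f01 : (n : ℚ) * r2 = N * b := by
    have : (n : ℝ) * r2 = N * b := by
      rw [← e01]
      field_simp
    exact_mod_cast this
  have f11 : (n : ℚ) * r3 = N * d := by
    have : (n : ℝ) * r3 = N * d := by
      rw [← e11]
      field_simp
    exact_mod_cast this
  rw [Finset.mem_coe, Finset.mem_image]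
  refine ⟨(a, b, d), ?_, ?_⟩
  · rw [hT, Finset.mem_product, Finset.mem_product, Finset.mem_Ico, Finset.mem_Ico,
      Finset.mem_Ico]
    have g1 : (0 : ℚ) ≤ a := by rw [← f00]; positivity
    have g2 : (a : ℚ) < n := by rw [← f00]; nlinarith
    have g3 : (0 : ℚ) ≤ b := by
      have : (0 : ℚ) ≤ N * b := by rw [← f01]; positivity
      exact nonneg_of_mul_nonneg_right this hNQ0
    have g4 : (b : ℚ) < n := by
      have : (N : ℚ) * b < N * n := by rw [← f01]; nlinarith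
      exact lt_of_mul_lt_mul_left this hNQ0.le
    have g5 : (0 : ℚ) ≤ d := by
      have : (0 : ℚ) ≤ N * d := by rw [← f11]; positivity
      exact nonneg_of_mul_nonneg_right this hNQ0
    have g6 : (d : ℚ) < n := by
      have : (N : ℚ) * d < N * n := by rw [← f11]; nlinarith
      exact lt_of_mul_lt_mul_left this hNQ0.le
    refine ⟨⟨?_, ?_⟩, ⟨?_, ?_⟩, ?_, ?_⟩
    · exact_mod_cast g1
    · exact_mod_cast g2
    · exact_mod_cast g3
    · exact_mod_cast g4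
    · exact_mod_cast g5
    · exact_mod_cast g6
  · simp only [Prod.mk.injEq]
    refine ⟨?_, ?_, ?_⟩
    · rw [← f00]; field_simp
    · rw [← f01]; field_simp
    · rw [← f11]; field_simp

/-- units are invertible in the order -/
theorem alb_inv {u : M2} (hu : u ∈ G0m N) : ∃ v ∈ G0m N, v * u = 1 ∧ u * v = 1 := by
  refine ⟨u.adjugate, ⟨alb_adj hu.1, ?_⟩, ?_, ?_⟩
  · rw [Matrix.det_adjugate, hu.2]
    simp
  · rw [Matrix.adjugate_mul, hu.2, one_smul]
  · rw [Matrix.mul_adjugate, hu.2, one_smul]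

theorem alb_mul {u v : M2} (hu : u ∈ G0m N) (hv : v ∈ G0m N) : u * v ∈ G0m N :=
  ⟨oo_mul hu.1 hv.1, by rw [det_mul, hu.2, hv.2, mul_one]⟩

theorem alb_rb_fin {n : ℕ} (hn : 0 < n) : {r : Q3 | bxq N r ∧ (cr N r).det = n}.Finite := by
  classical
  refine Set.Finite.subset ((HR N n).finite_toSet.biUnion (t := fun C => rs N (toR C)) ?_) ?_
  · intro C hC
    obtain ⟨h1, h2⟩ := hr_mem hn hC
    exact alb_rs_fin h1 hn h2
  · rintro r ⟨hb, hr⟩
    obtain ⟨p1, p2, p3, -⟩ := (cr_prim N r).1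
    obtain ⟨C0, ⟨hC0, u, hu, hC⟩, -⟩ := hr_rep hn p1 hr
    rw [Set.mem_iUnion₂]
    refine ⟨C0, hC0, hb, ?_⟩
    obtain ⟨v, hv, hv1, -⟩ := alb_inv hu
    have e : toR C0 = v * cr N r := by
      rw [hC, ← Matrix.mul_assoc, hv1, Matrix.one_mul]
    have e2 : toR C0 * sy (qr r) * PI N = v * (cr N r * sy (qr r) * PI N) := by
      rw [e]
      simp only [Matrix.mul_assoc]
    rw [e2]
    exact oo_mul hv.1 p3

theorem rb_mem_pr {n : ℕ} (hn : 0 < n) (r : Q3) :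
    r ∈ RB N n ↔ bxq N r ∧ (cr N r).det = n := by
  unfold RB
  rw [dif_pos (alb_rb_fin hn), Set.Finite.mem_toFinset]
  rfl

/-- the sum over the `C` for one `r` -/
theorem alb_one (f : S2 N) (hf : IsNew f) (h1 : co f N = 1) {n d1 d2 : ℕ} (hn : 0 < n)
    (h12 : d1 * d2 = n) {r : Q3} (hr : r ∈ RB N d2) (g : M2)
    [DecidablePred fun C : Matrix (Fin 2) (Fin 2) ℤ => r ∈ rs N (toR C)] :
    ∑ C ∈ (HR N n).filter (fun C => r ∈ rs N (toR C)), ph f (toR C * g) =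
      co f d1 * ph f (cr N r * g) := by
  have hd1 : 0 < d1 := Nat.pos_of_ne_zero (by rintro rfl; simp at h12; omega)
  have hd2 : 0 < d2 := Nat.pos_of_ne_zero (by rintro rfl; simp at h12; omega)
  obtain ⟨hb, hdet⟩ := (rb_mem_pr hd2 r).1 hr
  obtain ⟨p1, p2, p3, p4⟩ := (cr_prim N r).1
  rw [← ph_hecke f hf h1 hd1]
  -- the product with a representative
  have hprod : ∀ G0 ∈ HR N d1, toR G0 * cr N r ∈ OO N ∧ (toR G0 * cr N r).det = n := by
    intro G0 hG0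
    obtain ⟨q1, q2⟩ := hr_mem hd1 hG0
    refine ⟨oo_mul q1 p1, ?_⟩
    rw [det_mul, q2, hdet, ← h12]
    push_cast
    rfl
  have hex : ∀ G0 ∈ HR N d1, ∃ C0, C0 ∈ HR N n ∧ ∃ u ∈ G0m N, toR G0 * cr N r = u * toR C0 := by
    intro G0 hG0
    exact (hr_rep hn (hprod G0 hG0).1 (hprod G0 hG0).2).exists
  choose! Φ hΦ using hex
  symm
  refine Finset.sum_bij (fun G0 _ => Φ G0) ?_ ?_ ?_ ?_
  · intro G0 hG0
    obtain ⟨c1, u, hu, c2⟩ := hΦ G0 hG0
    rw [Finset.mem_filter]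
    refine ⟨c1, hb, ?_⟩
    obtain ⟨v, hv, hv1, -⟩ := alb_inv hu
    have e : toR (Φ G0) = v * (toR G0 * cr N r) := by
      rw [c2, ← Matrix.mul_assoc, hv1, Matrix.one_mul]
    have e2 : toR (Φ G0) * sy (qr r) * PI N = v * (toR G0 * (cr N r * sy (qr r) * PI N)) := by
      rw [e]
      simp only [Matrix.mul_assoc]
    rw [e2]
    exact oo_mul hv.1 (oo_mul (hr_mem hd1 hG0).1 p3)
  · intro G0 hG0 G1 hG1 h
    obtain ⟨c1, u, hu, c2⟩ := hΦ G0 hG0
    obtain ⟨c3, u', hu', c4⟩ := hΦ G1 hG1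
    rw [← h] at c4
    obtain ⟨v, hv, hv1, hv2⟩ := alb_inv hu'
    have hcr : cr N r * (cr N r)⁻¹ = 1 := Matrix.mul_nonsing_inv _ (by
      rw [isUnit_iff_ne_zero]
      exact p2.ne')
    have e1 : toR G0 * cr N r = (u * v) * (toR G1 * cr N r) := by
      rw [c4, c2]
      rw [Matrix.mul_assoc u v, ← Matrix.mul_assoc v, hv1, Matrix.one_mul]
    have e2 : toR G0 = (u * v) * toR G1 := by
      have := congrArg (fun M : M2 => M * (cr N r)⁻¹) e1
      simp only [Matrix.mul_assoc, hcr, Matrix.mul_one] at this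
      rw [this]
      simp only [Matrix.mul_assoc]
    obtain ⟨q1, q2⟩ := hr_mem hd1 hG0
    exact (hr_rep hd1 q1 q2).unique
      (y₁ := G0) (y₂ := G1) ⟨hG0, 1, ⟨oo_one, by rw [det_one]⟩, by rw [Matrix.one_mul]⟩
      ⟨hG1, u * v, alb_mul hu hv, e2⟩
  · intro C hC
    rw [Finset.mem_filter] at hC
    obtain ⟨hC1, -, hC2⟩ := hC
    obtain ⟨q1, q2⟩ := hr_mem hn hC1
    obtain ⟨G, hG, hCG⟩ := p4 _ q1 hC2
    have hGd : G.det = d1 := by
      have : (toR C).det = G.det * d2 := by rw [hCG, det_mul, hdet]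
      rw [q2, ← h12] at this
      push_cast at this
      have hd2R : (d2 : ℝ) ≠ 0 := by exact_mod_cast hd2.ne'
      exact (mul_right_cancel₀ hd2R this).symm
    obtain ⟨G0, ⟨hG0, u, hu, hGu⟩, -⟩ := hr_rep hd1 hG hGd
    refine ⟨G0, hG0, ?_⟩
    obtain ⟨v, hv, hv1, hv2⟩ := alb_inv hu
    refine (hr_rep hn (hprod G0 hG0).1 (hprod G0 hG0).2).unique (hΦ G0 hG0) ⟨hC1, v, hv, ?_⟩
    rw [hCG, hGu, Matrix.mul_assoc u, ← Matrix.mul_assoc v, hv1, Matrix.one_mul]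
  · intro G0 hG0
    obtain ⟨c1, u, hu, c2⟩ := hΦ G0 hG0
    rw [← Matrix.mul_assoc, c2, Matrix.mul_assoc, ph_g0 f hu]

theorem all_b_pr (f : S2 N) (hf : IsNew f) (h1 : co f N = 1) {n : ℕ} (hn : 0 < n) (g : M2) :
    ∑ C ∈ HR N n, ((rs N (toR C)).ncard : ℂ) * ph f (toR C * g) =
      ∑ d ∈ n.divisorsAntidiagonal, co f d.1 * ∑ r ∈ RB N d.2, ph f (cr N r * g) := by
  classical
  set R : Finset Q3 := n.divisors.biUnion (RB N) with hR
  have hsub : ∀ C ∈ HR N n, ∀ r ∈ rs N (toR C), r ∈ R := by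
    intro C hC r hr
    obtain ⟨q1, q2⟩ := hr_mem hn hC
    obtain ⟨p1, p2, p3, p4⟩ := (cr_prim N r).1
    obtain ⟨G, hG, hCG⟩ := p4 _ q1 hr.2
    obtain ⟨m, hm, hdet⟩ := cr_det_pr (N := N) r
    obtain ⟨k, hk⟩ := alb_det hG
    have e : (n : ℝ) = k * m := by rw [← q2, hCG, det_mul, hk, hdet]
    have e' : (n : ℤ) = k * m := by exact_mod_cast e
    have hdvd : m ∣ n := by
      have : (m : ℤ) ∣ n := ⟨k, by rw [e']; ring⟩
      exact_mod_cast this
    rw [hR, Finset.mem_biUnion]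
    exact ⟨m, Nat.mem_divisors.2 ⟨hdvd, hn.ne'⟩, (rb_mem_pr hm r).2 ⟨hr.1, hdet⟩⟩
  have e1 : ∀ C ∈ HR N n, ((rs N (toR C)).ncard : ℂ) * ph f (toR C * g) =
      ∑ r ∈ R, if r ∈ rs N (toR C) then ph f (toR C * g) else 0 := by
    intro C hC
    obtain ⟨q1, q2⟩ := hr_mem hn hC
    rw [← Finset.sum_filter, Finset.sum_const, nsmul_eq_mul]
    congr 2
    rw [← Set.ncard_coe_finset]
    congr 1
    ext r
    rw [Finset.coe_filter]
    constructor
    · intro hr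
      exact ⟨hsub C hC r hr, hr⟩
    · intro hr
      exact hr.2
  rw [Finset.sum_congr rfl e1, Finset.sum_comm]
  have e2 : ∀ d ∈ n.divisors, ∀ r ∈ RB N d,
      ∑ C ∈ HR N n, (if r ∈ rs N (toR C) then ph f (toR C * g) else 0) =
        co f (n / d) * ph f (cr N r * g) := by
    intro d hd r hr
    rw [← Finset.sum_filter]
    exact alb_one f hf h1 hn (Nat.div_mul_cancel (Nat.dvd_of_mem_divisors hd)) hr g
  rw [hR, Finset.sum_biUnion]
  · rw [Nat.sum_divisorsAntidiagonal' (fun a b => co f a * ∑ r ∈ RB N b, ph f (cr N r * g))]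
    refine Finset.sum_congr rfl fun d hd => ?_
    rw [Finset.sum_congr rfl (e2 d hd), Finset.mul_sum]
  · intro a ha b hb hab
    rw [Function.onFun, Finset.disjoint_left]
    intro r h2 h3
    have ha0 : 0 < a := Nat.pos_of_mem_divisors ha
    have hb0 : 0 < b := Nat.pos_of_mem_divisors hb
    have h4 := ((rb_mem_pr ha0 r).1 h2).2
    have h5 := ((rb_mem_pr hb0 r).1 h3).2
    rw [h4] at h5
    exact hab (by exact_mod_cast h5)

end

end Pool.Agent.NN

namespace Pool.Agent.NN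

theorem rb_mem : type_of% @rb_mem_pr := @rb_mem_pr

theorem cr_det : type_of% @cr_det_pr := @cr_det_pr

theorem all_b : type_of% @all_b_pr := @all_b_pr

end Pool.Agent.NN
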