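import Pool.Agent.Lib_helper32.NN.Dfs2
import Pool.Agent.Lib_helper68.LEV.LSC

/-! # Block SQS: mean square of the coefficients -/

namespace Pool.Agent.NN

open Complex MeasureTheory Filter Topology UpperHalfPlane Matrix
open scoped MatrixGroups ENNReal ComplexConjugate
open Pool.Agent.LEV (S2 co IsNew Lh)

section
variable {N : ℕ} [Fact N.Prime] (f : S2 N)

theorem sqs_summable {y : ℝ} (hy : 0 < y) :
    Summable fun n : ℕ => ‖co f n‖ ^ 2 * Real.exp (-4 * Real.pi * n * y) := by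
  have h3 := LEV.LSC_summable1 f hy
  have h4 : Summable fun n : ℕ => (‖co f n‖ * Real.exp (-(2 * Real.pi * y) * n)) ^ 2 := by
    have hnn : ∀ n : ℕ, 0 ≤ ‖co f n‖ * Real.exp (-(2 * Real.pi * y) * n) :=
      fun n => by positivity
    apply Summable.of_nonneg_of_le (fun n => sq_nonneg _) (fun n => ?_)
      (h3.mul_left (∑' n : ℕ, ‖co f n‖ * Real.exp (-(2 * Real.pi * y) * n)))
    rw [sq]
    exact mul_le_mul_of_nonneg_right (h3.le_tsum n (fun j _ => hnn j)) (hnn n)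
  refine h4.congr fun n => ?_
  rw [mul_pow, ← Real.exp_nat_mul]
  congr 2
  push_cast
  ring

theorem sq_sum_pr : ∃ C : ℝ, ∀ x : ℕ, ∑ n ∈ Finset.Icc 1 x, ‖co f n‖ ^ 2 ≤ C * x ^ 2 := by
  obtain ⟨C, hC⟩ := LEV.f_bound f
  refine ⟨Real.exp (4 * Real.pi) * C ^ 2, fun x => ?_⟩
  rcases Nat.eq_zero_or_pos x with h0 | h0
  · subst h0
    simp
  have hx : (0 : ℝ) < x := by exact_mod_cast h0
  have hy : (0 : ℝ) < (x : ℝ)⁻¹ := inv_pos.2 hx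
  have hs := sqs_summable f hy
  have h1 : ∑ n ∈ Finset.Icc 1 x, ‖co f n‖ ^ 2 ≤ Real.exp (4 * Real.pi) *
      ∑ n ∈ Finset.Icc 1 x, ‖co f n‖ ^ 2 * Real.exp (-4 * Real.pi * n * (x : ℝ)⁻¹) := by
    rw [Finset.mul_sum]
    refine Finset.sum_le_sum fun n hn => ?_
    have hnx : (n : ℝ) ≤ x := by exact_mod_cast (Finset.mem_Icc.1 hn).2
    have h2 : (1 : ℝ) ≤ Real.exp (4 * Real.pi) * Real.exp (-4 * Real.pi * n * (x : ℝ)⁻¹) := by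
      rw [← Real.exp_add]
      apply Real.one_le_exp
      have h3 : (n : ℝ) * (x : ℝ)⁻¹ ≤ 1 := by
        rw [← div_eq_mul_inv]
        exact (div_le_one hx).2 hnx
      have h4 := Real.pi_pos
      nlinarith
    calc ‖co f n‖ ^ 2 = ‖co f n‖ ^ 2 * 1 := (mul_one _).symm
      _ ≤ ‖co f n‖ ^ 2 * (Real.exp (4 * Real.pi) * Real.exp (-4 * Real.pi * n * (x : ℝ)⁻¹)) :=
          mul_le_mul_of_nonneg_left h2 (sq_nonneg _)
      _ = _ := by ring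
  have h2 : ∑ n ∈ Finset.Icc 1 x, ‖co f n‖ ^ 2 * Real.exp (-4 * Real.pi * n * (x : ℝ)⁻¹) ≤
      ∑' n : ℕ, ‖co f n‖ ^ 2 * Real.exp (-4 * Real.pi * n * (x : ℝ)⁻¹) :=
    hs.sum_le_tsum _ fun n _ => by positivity
  have h3 : ∑' n : ℕ, ‖co f n‖ ^ 2 * Real.exp (-4 * Real.pi * n * (x : ℝ)⁻¹) ≤ (C * x) ^ 2 := by
    rw [← LEV.LSC_line f hy]
    have hb : ∀ t : ℝ, ‖LEV.LSC_g f (⟨t, (x : ℝ)⁻¹⟩ : ℂ)‖ ≤ C * x := by
      intro t
      have h4 := hC OnePoint.infty (⟨⟨t, (x : ℝ)⁻¹⟩, hy⟩ : ℍ)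
      rw [LEV.fam_inf] at h4
      have h5 : LEV.LSC_g f (⟨t, (x : ℝ)⁻¹⟩ : ℂ) = f (⟨⟨t, (x : ℝ)⁻¹⟩, hy⟩ : ℍ) :=
        LEV.LSC_g_coe f (⟨⟨t, (x : ℝ)⁻¹⟩, hy⟩ : ℍ)
      rw [h5]
      have h6 : (⟨⟨t, (x : ℝ)⁻¹⟩, hy⟩ : ℍ).im = (x : ℝ)⁻¹ := rfl
      rw [h6, ← div_eq_mul_inv, div_le_iff₀ hx] at h4
      exact h4
    have h6 : ‖∫ t in (0 : ℝ)..1, ‖LEV.LSC_g f (⟨t, (x : ℝ)⁻¹⟩ : ℂ)‖ ^ 2‖ ≤
        (C * x) ^ 2 * |1 - 0| :=
      intervalIntegral.norm_integral_le_of_norm_le_const fun t _ => by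
        rw [Real.norm_of_nonneg (sq_nonneg _)]
        exact pow_le_pow_left₀ (norm_nonneg _) (hb t) 2
    rw [sub_zero, abs_one, mul_one] at h6
    exact (le_abs_self _).trans h6
  calc _ ≤ _ := h1
    _ ≤ Real.exp (4 * Real.pi) * (C * x) ^ 2 :=
        mul_le_mul_of_nonneg_left (h2.trans h3) (Real.exp_pos _).le
    _ = _ := by ring


end

end Pool.Agent.NN

namespace Pool.Agent.NN

theorem sq_sum : type_of% @sq_sum_pr := @sq_sum_pr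

end Pool.Agent.NN
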