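import Pool.Agent.Lib_helper32.NN.Dfs2
import Pool.Agent.Lib_helper32.NNF.SQS

/-! NN, block SAB: absolute convergence -/

set_option autoImplicit false

namespace Pool.Agent.NN

open Complex MeasureTheory Filter Topology UpperHalfPlane Matrix
open scoped MatrixGroups ENNReal ComplexConjugate
open Pool.Agent.LEV (S2 co IsNew Lh)

/-- from L-series to real sums -/
theorem sab_conv {g : ℕ → ℝ} (h0 : g 0 = 0) {s : ℝ}
    (h : LSeriesSummable (fun n => (g n : ℂ)) (s : ℂ)) :
    Summable (fun n : ℕ => |g n| * (n : ℝ) ^ (-s)) := by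
  have h1 := h.norm
  refine h1.congr ?_
  intro n
  rcases Nat.eq_zero_or_pos n with hn | hn
  · subst hn
    rw [h0]
    simp
  · rw [LSeries.norm_term_eq, if_neg hn.ne', Complex.ofReal_re, Real.rpow_neg (Nat.cast_nonneg _),
      Complex.norm_real, Real.norm_eq_abs, div_eq_mul_inv]

theorem sab_sum {a : ℕ → ℝ} (h0 : a 0 = 0) {C : ℝ}
    (hC : ∀ x : ℕ, ∑ n ∈ Finset.Icc 1 x, a n ^ 2 ≤ C * x ^ 2) {s : ℝ} (hs : 3 / 2 < s) :
    Summable (fun n : ℕ => |a n| * (n : ℝ) ^ (-s)) := by
  apply sab_conv h0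
  refine LSeriesSummable_of_sum_norm_bigO (r := 3 / 2) ?_ (by norm_num) (by simpa using hs)
  rw [Asymptotics.isBigO_iff]
  refine ⟨Real.sqrt |C|, Eventually.of_forall fun x => ?_⟩
  rw [Real.norm_of_nonneg (Finset.sum_nonneg fun _ _ => norm_nonneg _),
    Real.norm_of_nonneg (Real.rpow_nonneg (Nat.cast_nonneg _) _)]
  have h1 : ∑ n ∈ Finset.Icc 1 x, ‖((a n : ℝ) : ℂ)‖ = ∑ n ∈ Finset.Icc 1 x, 1 * |a n| := by
    refine Finset.sum_congr rfl fun n _ => ?_
    rw [Complex.norm_real, Real.norm_eq_abs, one_mul]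
  rw [h1]
  have h2 := Finset.sum_mul_sq_le_sq_mul_sq (Finset.Icc 1 x) (fun _ => (1 : ℝ)) (fun n => |a n|)
  simp only [one_pow, Finset.sum_const, Nat.card_Icc, Nat.add_sub_cancel, nsmul_eq_mul, mul_one,
    sq_abs] at h2
  have hx : (0 : ℝ) ≤ x := Nat.cast_nonneg _
  have h3 : (∑ n ∈ Finset.Icc 1 x, 1 * |a n|) ^ 2 ≤ (Real.sqrt |C| * (x : ℝ) ^ (3 / 2 : ℝ)) ^ 2 := by
    refine h2.trans ?_
    have e1 : ((x : ℝ) ^ (3 / 2 : ℝ)) ^ 2 = (x : ℝ) * x ^ 2 := by
      rw [← Real.rpow_natCast, ← Real.rpow_mul hx]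
      norm_num
      ring
    rw [mul_pow, Real.sq_sqrt (abs_nonneg _), e1]
    calc (x : ℝ) * ∑ n ∈ Finset.Icc 1 x, a n ^ 2 ≤ x * (C * x ^ 2) := by
          gcongr
          exact hC x
      _ = C * (x * x ^ 2) := by ring
      _ ≤ |C| * (x * x ^ 2) := by
          gcongr
          exact le_abs_self C
  exact (sq_le_sq₀ (Finset.sum_nonneg fun _ _ => by positivity) (by positivity)).1 h3

section form
variable {N : ℕ} [Fact N.Prime] (f : S2 N)

theorem sum_af_pr (hf : IsNew f) {s : ℝ} (hs : 3 / 2 < s) :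
    Summable (fun n : ℕ => |af f n| * (n : ℝ) ^ (-s)) := by
  obtain ⟨C, hC⟩ := sq_sum f
  refine sab_sum (a := fun n => af f n) (by simp) (C := C) (fun x => ?_) hs
  refine le_trans (Finset.sum_le_sum fun n _ => ?_) (hC x)
  show (co f n).re ^ 2 ≤ ‖co f n‖ ^ 2
  rw [← sq_abs]
  exact pow_le_pow_left₀ (abs_nonneg _) (Complex.abs_re_le_norm _) 2

/-- multiplicativity over the primes of a squarefree number -/
theorem sab_prod (hf : IsNew f) (S : Finset ℕ) (hS : ∀ p ∈ S, p.Prime) :
    co f (∏ p ∈ S, p) = ∏ p ∈ S, co f p := by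
  classical
  induction S using Finset.induction_on with
  | empty => simp [hf.one]
  | insert p S hp ih =>
    rw [Finset.prod_insert hp, Finset.prod_insert hp, hf.mul, ih]
    · intro q hq
      exact hS q (Finset.mem_insert_of_mem hq)
    · refine Nat.Coprime.prod_right fun q hq => ?_
      refine (Nat.coprime_primes (hS p (Finset.mem_insert_self _ _))
        (hS q (Finset.mem_insert_of_mem hq))).2 ?_
      rintro rfl
      exact hp hq

/-- the squarefree part -/
def sabU (n : ℕ) : ℕ := ∏ p ∈ n.primeFactors.filter (fun p => n.factorization p = 1), p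

/-- the square part -/
def sabV (n : ℕ) : ℕ := ∏ p ∈ n.primeFactors.filter (fun p => n.factorization p ≠ 1), p

theorem sab_bf (hf : IsNew f) {n : ℕ} (hn : bf f n ≠ 0) :
    n = sabU n * sabV n ^ 2 ∧ |bf f n| ≤ |af f (sabU n)| * sabV n := by
  have hb : bf f n = if n = 0 then 0 else ∏ p ∈ n.primeFactors, bl f p (n.factorization p) := rfl
  have hn0 : n ≠ 0 := by
    intro h
    rw [hb, if_pos h] at hn
    exact hn rfl
  rw [hb, if_neg hn0] at hn ⊢
  rw [Finset.prod_ne_zero_iff] at hn
  have hfac : ∀ p ∈ n.primeFactors, n.factorization p ≠ 1 → n.factorization p = 2 := by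
    intro p hp h1
    have h2 := hn p hp
    have h3 : n.factorization p ≠ 0 := (Nat.support_factorization n ▸ hp : p ∈ n.factorization.support) |> Finsupp.mem_support_iff.1
    unfold bl at h2
    rw [if_neg h3, if_neg h1] at h2
    by_contra h4
    rw [if_neg (fun h => h4 h.1)] at h2
    exact h2 rfl
  constructor
  · conv_lhs => rw [← Nat.prod_factorization_pow_eq_self hn0]
    rw [Finsupp.prod, Nat.support_factorization, ← Finset.prod_filter_mul_prod_filter_not n.primeFactors
      (fun p => n.factorization p = 1)]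
    unfold sabU sabV
    rw [← Finset.prod_pow]
    congr 1
    · refine Finset.prod_congr rfl fun p hp => ?_
      rw [(Finset.mem_filter.1 hp).2, pow_one]
    · refine Finset.prod_congr rfl fun p hp => ?_
      rw [hfac p (Finset.mem_filter.1 hp).1 (Finset.mem_filter.1 hp).2]
  · rw [Finset.abs_prod, ← Finset.prod_filter_mul_prod_filter_not n.primeFactors
      (fun p => n.factorization p = 1)]
    refine mul_le_mul ?_ ?_ (Finset.prod_nonneg fun _ _ => abs_nonneg _) (abs_nonneg _)
    · have e : af f (sabU n) = ∏ p ∈ n.primeFactors.filter (fun p => n.factorization p = 1), (co f p).re := by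
        show (co f (sabU n)).re = _
        unfold sabU
        rw [sab_prod f hf _ (fun p hp => Nat.prime_of_mem_primeFactors (Finset.mem_filter.1 hp).1)]
        have : ∀ p ∈ n.primeFactors.filter (fun p => n.factorization p = 1),
            co f p = (((co f p).re : ℝ) : ℂ) := by
          intro p _
          apply Complex.ext
          · simp
          · rw [LEV.new_real hf p]; simp
        rw [Finset.prod_congr rfl this, ← Complex.ofReal_prod, Complex.ofReal_re]
      rw [e, Finset.abs_prod]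
      refine Finset.prod_le_prod (fun _ _ => abs_nonneg _) fun p hp => ?_
      rw [(Finset.mem_filter.1 hp).2]
      unfold bl
      rw [if_neg one_ne_zero, if_pos rfl, abs_neg]
    · unfold sabV
      push_cast
      refine Finset.prod_le_prod (fun _ _ => abs_nonneg _) fun p hp => ?_
      rw [hfac p (Finset.mem_filter.1 hp).1 (Finset.mem_filter.1 hp).2]
      unfold bl
      rw [if_neg two_ne_zero, if_neg (by norm_num)]
      split_ifs
      · rw [abs_of_nonneg (Nat.cast_nonneg _)]
      · rw [abs_zero]; exact Nat.cast_nonneg _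

theorem sum_bf_pr (hf : IsNew f) {s : ℝ} (hs : 3 / 2 < s) :
    Summable (fun n : ℕ => |bf f n| * (n : ℝ) ^ (-s)) := by
  have h1 := sum_af_pr f hf hs
  have h2 : Summable (fun n : ℕ => (n : ℝ) ^ (1 - 2 * s)) :=
    Real.summable_nat_rpow.2 (by linarith)
  have h3 : Summable (fun x : ℕ × ℕ => (|af f x.1| * (x.1 : ℝ) ^ (-s)) * (x.2 : ℝ) ^ (1 - 2 * s)) :=
    h1.mul_of_nonneg h2 (fun _ => by positivity) (fun _ => by positivity)
  -- the support
  have h4 : Function.Injective (fun n : {n : ℕ // bf f n ≠ 0} => (sabU n.1, sabV n.1)) := by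
    intro a b hab
    simp only [Prod.mk.injEq] at hab
    apply Subtype.ext
    rw [(sab_bf f hf a.2).1, (sab_bf f hf b.2).1, hab.1, hab.2]
  have h5 := h3.comp_injective h4
  have h6 : Summable (fun n : {n : ℕ // bf f n ≠ 0} => |bf f n.1| * (n.1 : ℝ) ^ (-s)) := by
    refine Summable.of_nonneg_of_le (fun n => by positivity) (fun n => ?_) h5
    obtain ⟨e1, e2⟩ := sab_bf f hf n.2
    have hn0 : n.1 ≠ 0 := by
      intro h
      apply n.2
      rw [h]
      simp
    have hv : 0 < sabV n.1 := by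
      rcases Nat.eq_zero_or_pos (sabV n.1) with h | h
      · exfalso
        rw [h] at e1
        apply hn0
        rw [e1]
        simp
      · exact h
    have hvR : (0 : ℝ) < sabV n.1 := by exact_mod_cast hv
    simp only [Function.comp]
    have e3 : ((n.1 : ℕ) : ℝ) ^ (-s) = (sabU n.1 : ℝ) ^ (-s) * (sabV n.1 : ℝ) ^ (-(2 * s)) := by
      conv_lhs => rw [e1]
      push_cast
      rw [Real.mul_rpow (by positivity) (by positivity), ← Real.rpow_natCast,
        ← Real.rpow_mul hvR.le]
      congr 2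
      push_cast
      ring
    have e4 : (sabV n.1 : ℝ) ^ (1 - 2 * s) = sabV n.1 * (sabV n.1 : ℝ) ^ (-(2 * s)) := by
      rw [sub_eq_add_neg, Real.rpow_add hvR, Real.rpow_one]
    rw [e3, e4]
    calc |bf f n.1| * ((sabU n.1 : ℝ) ^ (-s) * (sabV n.1 : ℝ) ^ (-(2 * s)))
        ≤ (|af f (sabU n.1)| * sabV n.1) * ((sabU n.1 : ℝ) ^ (-s) * (sabV n.1 : ℝ) ^ (-(2 * s))) := by
          gcongr
      _ = |af f (sabU n.1)| * (sabU n.1 : ℝ) ^ (-s) * (sabV n.1 * (sabV n.1 : ℝ) ^ (-(2 * s))) := by
          ring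
  have h8 : Summable (({n : ℕ | bf f n ≠ 0}).indicator
      (fun n : ℕ => |bf f n| * (n : ℝ) ^ (-s))) := by
    rw [← summable_subtype_iff_indicator]
    exact h6
  refine h8.congr (fun n => ?_)
  by_cases h : bf f n ≠ 0
  · rw [Set.indicator_of_mem (show n ∈ {n | bf f n ≠ 0} from h)]
  · push Not at h
    rw [Set.indicator_of_notMem (by simpa using h), h, abs_zero, zero_mul]

end form

end Pool.Agent.NN

namespace Pool.Agent.NN

theorem sum_af : type_of% @sum_af_pr := @sum_af_pr

theorem sum_bf : type_of% @sum_bf_pr := @sum_bf_pr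

end Pool.Agent.NN
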