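import Pool.Agent.Lib_helper32.NN.Dfs2
import Pool.Agent.Lib_helper32.NNF.SAB

/-!
# Block ALG: polynomial growth of the coefficients of the intertwining operator
-/

namespace Pool.Agent.NN

open Complex MeasureTheory Filter Topology UpperHalfPlane Matrix
open scoped MatrixGroups ENNReal ComplexConjugate
open Pool.Agent.LEV (S2 co IsNew Lh)

section form
variable {N : ℕ} [Fact N.Prime] (f : S2 N)

/-- crude bound for `bf` -/
theorem alg_bf (hf : IsNew f) : ∃ S : ℝ, 0 ≤ S ∧ ∀ n : ℕ, |bf f n| ≤ S * (n : ℝ) ^ 2 := by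
  have hs := sum_bf f hf (s := 2) (by norm_num)
  refine ⟨∑' n : ℕ, |bf f n| * (n : ℝ) ^ (-(2 : ℝ)), tsum_nonneg (fun n => by positivity),
    fun n => ?_⟩
  rcases Nat.eq_zero_or_pos n with h0 | h0
  · subst h0
    simp
  have hn : (0 : ℝ) < n := by exact_mod_cast h0
  have h1 := hs.le_tsum n (fun j _ => by positivity)
  have h2 : |bf f n| = |bf f n| * (n : ℝ) ^ (-(2 : ℝ)) * (n : ℝ) ^ 2 := by
    rw [mul_assoc, ← Real.rpow_natCast (n : ℝ) 2, ← Real.rpow_add hn]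
    norm_num
  rw [h2]
  exact mul_le_mul_of_nonneg_right h1 (by positivity)

/-- crude bound for `Af` -/
theorem alg_Af : ∃ K : ℝ, 0 ≤ K ∧ ∀ n : ℕ, |Af f n| ≤ K * (n : ℝ) ^ 3 := by
  obtain ⟨C, hC⟩ := LEV.co_bound f
  refine ⟨max C 0, le_max_right _ _, fun n => ?_⟩
  rcases Nat.eq_zero_or_pos n with h0 | h0
  · subst h0
    simp
  have hn : (1 : ℝ) ≤ n := by exact_mod_cast h0
  have e : Af f n = ∑ d ∈ n.divisors.filter (fun d => d ^ 2 ∣ n),
    (d.totient : ℝ) * n * (co f (n / d ^ 2)).re := rfl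
  rw [e]
  have h1 : ∀ d ∈ n.divisors.filter (fun d => d ^ 2 ∣ n),
      |(d.totient : ℝ) * n * (co f (n / d ^ 2)).re| ≤ max C 0 * (n : ℝ) ^ 2 := by
    intro d hd
    rw [Finset.mem_filter, Nat.mem_divisors] at hd
    obtain ⟨⟨hd1, _⟩, hd2⟩ := hd
    have hd0 : 0 < d := Nat.pos_of_dvd_of_pos hd1 h0
    rw [abs_mul, abs_mul, abs_of_nonneg (Nat.cast_nonneg (α := ℝ) d.totient),
      abs_of_nonneg (Nat.cast_nonneg (α := ℝ) n)]
    have h3 : |(co f (n / d ^ 2)).re| ≤ max C 0 * ((n / d ^ 2 : ℕ) : ℝ) := by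
      calc |(co f (n / d ^ 2)).re| ≤ ‖co f (n / d ^ 2)‖ := Complex.abs_re_le_norm _
        _ ≤ C * ((n / d ^ 2 : ℕ) : ℝ) := hC _
        _ ≤ max C 0 * ((n / d ^ 2 : ℕ) : ℝ) :=
          mul_le_mul_of_nonneg_right (le_max_left _ _) (Nat.cast_nonneg _)
    have h4 : d.totient * (n / d ^ 2) ≤ n := by
      calc d.totient * (n / d ^ 2) ≤ d ^ 2 * (n / d ^ 2) := by
            apply Nat.mul_le_mul_right
            calc d.totient ≤ d := Nat.totient_le d
              _ ≤ d ^ 2 := Nat.le_self_pow (by norm_num) d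
        _ ≤ n := Nat.mul_div_le n (d ^ 2)
    have h5 : (d.totient : ℝ) * ((n / d ^ 2 : ℕ) : ℝ) ≤ n := by exact_mod_cast h4
    calc (d.totient : ℝ) * n * |(co f (n / d ^ 2)).re|
        ≤ (d.totient : ℝ) * n * (max C 0 * ((n / d ^ 2 : ℕ) : ℝ)) :=
          mul_le_mul_of_nonneg_left h3 (by positivity)
      _ = max C 0 * n * ((d.totient : ℝ) * ((n / d ^ 2 : ℕ) : ℝ)) := by ring
      _ ≤ max C 0 * n * n :=
          mul_le_mul_of_nonneg_left h5 (mul_nonneg (le_max_right _ _) (by positivity))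
      _ = max C 0 * (n : ℝ) ^ 2 := by ring
  calc |∑ d ∈ n.divisors.filter (fun d => d ^ 2 ∣ n), (d.totient : ℝ) * n * (co f (n / d ^ 2)).re|
      ≤ ∑ d ∈ n.divisors.filter (fun d => d ^ 2 ∣ n),
        |(d.totient : ℝ) * n * (co f (n / d ^ 2)).re| := Finset.abs_sum_le_sum_abs _ _
    _ ≤ ∑ _d ∈ n.divisors.filter (fun d => d ^ 2 ∣ n), max C 0 * (n : ℝ) ^ 2 :=
        Finset.sum_le_sum h1
    _ = ((n.divisors.filter (fun d => d ^ 2 ∣ n)).card : ℝ) * (max C 0 * (n : ℝ) ^ 2) := by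
        rw [Finset.sum_const, nsmul_eq_mul]
    _ ≤ (n : ℝ) * (max C 0 * (n : ℝ) ^ 2) := by
        apply mul_le_mul_of_nonneg_right _ (mul_nonneg (le_max_right _ _) (by positivity))
        have h6 : (n.divisors.filter (fun d => d ^ 2 ∣ n)).card ≤ n :=
          (Finset.card_filter_le _ _).trans (Nat.card_divisors_le_self n)
        exact_mod_cast h6
    _ = max C 0 * (n : ℝ) ^ 3 := by ring

/-- ALG. polynomial growth -/
theorem al_bd_pr (hf : IsNew f) : ∃ C : ℝ, ∀ n : ℕ, |al f n| ≤ C * (n : ℝ) ^ 6 := by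
  obtain ⟨S, hS0, hS⟩ := alg_bf f hf
  obtain ⟨K, hK0, hK⟩ := alg_Af f
  refine ⟨S * K, fun n => ?_⟩
  rcases Nat.eq_zero_or_pos n with h0 | h0
  · subst h0
    simp
  have hn : (1 : ℝ) ≤ n := by exact_mod_cast h0
  have e : al f n = ∑ x ∈ n.divisorsAntidiagonal, bf f x.1 * Af f x.2 := by
    unfold al
    rw [ArithmeticFunction.mul_apply]
  rw [e]
  have h1 : ∀ x ∈ n.divisorsAntidiagonal, |bf f x.1 * Af f x.2| ≤ S * K * (n : ℝ) ^ 5 := by
    intro x hx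
    rw [Nat.mem_divisorsAntidiagonal] at hx
    have hx1 : x.1 ≤ n := Nat.le_of_dvd h0 ⟨x.2, hx.1.symm⟩
    have hx2 : x.2 ≤ n := Nat.le_of_dvd h0 ⟨x.1, by rw [mul_comm]; exact hx.1.symm⟩
    have hx1' : (x.1 : ℝ) ≤ n := by exact_mod_cast hx1
    have hx2' : (x.2 : ℝ) ≤ n := by exact_mod_cast hx2
    rw [abs_mul]
    calc |bf f x.1| * |Af f x.2| ≤ (S * (x.1 : ℝ) ^ 2) * (K * (x.2 : ℝ) ^ 3) :=
          mul_le_mul (hS _) (hK _) (abs_nonneg _) (by positivity)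
      _ ≤ (S * (n : ℝ) ^ 2) * (K * (n : ℝ) ^ 3) := by
          gcongr
      _ = S * K * (n : ℝ) ^ 5 := by ring
  calc |∑ x ∈ n.divisorsAntidiagonal, bf f x.1 * Af f x.2|
      ≤ ∑ x ∈ n.divisorsAntidiagonal, |bf f x.1 * Af f x.2| := Finset.abs_sum_le_sum_abs _ _
    _ ≤ ∑ _x ∈ n.divisorsAntidiagonal, S * K * (n : ℝ) ^ 5 := Finset.sum_le_sum h1
    _ = (n.divisorsAntidiagonal.card : ℝ) * (S * K * (n : ℝ) ^ 5) := by
        rw [Finset.sum_const, nsmul_eq_mul]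
    _ ≤ (n : ℝ) * (S * K * (n : ℝ) ^ 5) := by
        apply mul_le_mul_of_nonneg_right _ (by positivity)
        have h6 : n.divisorsAntidiagonal.card ≤ n := by
          rw [← Nat.map_div_right_divisors, Finset.card_map]
          exact Nat.card_divisors_le_self n
        exact_mod_cast h6
    _ = S * K * (n : ℝ) ^ 6 := by ring

end form


end Pool.Agent.NN

namespace Pool.Agent.NN

theorem al_bd : type_of% @al_bd_pr := @al_bd_pr

end Pool.Agent.NN
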