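import Pool.Agent.Lib_helper32.NN.Dfs2

/-!
# NN, block BET: the auxiliary sum converges
-/

set_option autoImplicit false

namespace Pool.Agent.NN

open Complex MeasureTheory Filter Topology UpperHalfPlane Matrix
open scoped MatrixGroups ENNReal ComplexConjugate
open Pool.Agent.LEV (S2 co IsNew Lh)

theorem bet_pi (a : ℤ → ℝ≥0∞) : ∀ n : ℕ,
    ∑' f : Fin n → ℤ, ∏ i, a (f i) = (∑' k, a k) ^ n
  | 0 => by
    rw [tsum_eq_single (fun i => i.elim0)]
    · simp
    · intro b hb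
      exact absurd (Subsingleton.elim _ _) hb
  | n + 1 => by
    rw [← (Fin.consEquiv (fun _ : Fin (n + 1) => ℤ)).tsum_eq]
    have : ∀ p : ℤ × (Fin n → ℤ),
        ∏ i, a ((Fin.consEquiv (fun _ : Fin (n + 1) => ℤ)) p i) = a p.1 * ∏ i, a (p.2 i) := by
      rintro ⟨k, g⟩
      rw [Fin.prod_univ_succ]
      rfl
    simp_rw [this]
    rw [ENNReal.tsum_prod (f := fun (k : ℤ) (g : Fin n → ℤ) => a k * ∏ i, a (g i))]
    simp_rw [ENNReal.tsum_mul_left, bet_pi a n, ENNReal.tsum_mul_right]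
    rw [pow_succ, mul_comm]

theorem bet_pi' {ι : Type*} [Fintype ι] (a : ℤ → ℝ≥0∞) :
    ∑' f : ι → ℤ, ∏ i, a (f i) = (∑' k, a k) ^ Fintype.card ι := by
  rw [← bet_pi a (Fintype.card ι),
    ← (Equiv.arrowCongr (Fintype.equivFin ι) (Equiv.refl ℤ)).tsum_eq
      (fun f : Fin (Fintype.card ι) → ℤ => ∏ i, a (f i))]
  refine tsum_congr fun f => ?_
  rw [← (Fintype.equivFin ι).prod_comp]
  refine Finset.prod_congr rfl fun i _ => ?_
  simp

theorem bet_gauss {c : ℝ} (hc : 0 < c) : ∑' k : ℤ, ENNReal.ofReal (Real.exp (-(c * (k : ℝ) ^ 2))) ≠ ⊤ := by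
  apply Summable.tsum_ofReal_ne_top
  have h1 : Summable fun n : ℕ => Real.exp (-(c * (n : ℝ) ^ 2)) := by
    refine Summable.of_nonneg_of_le (fun n => (Real.exp_pos _).le) (fun n => ?_)
      (summable_geometric_of_lt_one (Real.exp_pos (-c)).le (Real.exp_lt_one_iff.2 (by linarith)))
    rw [← Real.exp_nat_mul]
    apply Real.exp_le_exp.2
    have : (n : ℝ) ≤ (n : ℝ) ^ 2 := by
      exact_mod_cast Nat.le_self_pow two_ne_zero n
    nlinarith
  apply Summable.of_nat_of_neg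
  · simpa using h1
  · simpa using h1

/-- the square of the Frobenius norm -/
def betq (x : M4) : ℝ := ∑ i, ∑ j, x i j ^ 2

theorem betq_mul (x y : M4) : betq (x * y) ≤ betq x * betq y := by
  unfold betq
  have h : ∀ i j, (x * y) i j ^ 2 ≤ (∑ k, x i k ^ 2) * ∑ k, y k j ^ 2 := by
    intro i j
    rw [Matrix.mul_apply]
    exact Finset.sum_mul_sq_le_sq_mul_sq _ _ _
  calc ∑ i, ∑ j, (x * y) i j ^ 2 ≤ ∑ i, ∑ j, (∑ k, x i k ^ 2) * ∑ k, y k j ^ 2 :=
        Finset.sum_le_sum fun i _ => Finset.sum_le_sum fun j _ => h i j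
    _ = (∑ i, ∑ k, x i k ^ 2) * ∑ j, ∑ k, y k j ^ 2 := by
        simp_rw [← Finset.mul_sum, ← Finset.sum_mul]
    _ = (∑ i, ∑ j, x i j ^ 2) * ∑ i, ∑ j, y i j ^ 2 := by
        rw [Finset.sum_comm (f := fun j k => y k j ^ 2)]

/-- entries of elements of the group are in `N⁻¹ ℤ` -/
theorem bet_int {N : ℕ} [hN : Fact N.Prime] (g : GaN N) :
    ∃ n : (Fin 2 ⊕ Fin 2) × (Fin 2 ⊕ Fin 2) → ℤ, ∀ i j, mt N g i j = (N : ℝ)⁻¹ * n (i, j) := by
  have hN0 : (N : ℝ) ≠ 0 := by exact_mod_cast hN.out.ne_zero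
  obtain ⟨h1, h2, h3, h4⟩ := g.2
  change (mt N g).toBlocks₁₁ ∈ OO N at h1
  change (mt N g).toBlocks₁₂ * PI N ∈ OO N at h2
  change cb N (mt N g) ∈ OO N at h3
  change db N (mt N g) * PI N ∈ OO N at h4
  obtain ⟨a1, b1, c1, d1, e1⟩ := h1
  obtain ⟨a2, b2, c2, d2, e2⟩ := h2
  obtain ⟨a3, b3, c3, d3, e3⟩ := h3
  obtain ⟨a4, b4, c4, d4, e4⟩ := h4
  have hI := pi_mul_pp hN.out.ne_zero
  have p2 : (mt N g).toBlocks₁₂ =
      !![(a2 : ℝ), (b2 : ℝ); (N : ℝ) * (c2 : ℝ), (d2 : ℝ)] * PP N := by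
    rw [← e2, Matrix.mul_assoc, hI, Matrix.mul_one]
  have p3 : (mt N g).toBlocks₂₁ =
      PI N * !![(a3 : ℝ), (b3 : ℝ); (N : ℝ) * (c3 : ℝ), (d3 : ℝ)] := by
    rw [← e3]
    unfold cb
    rw [← Matrix.mul_assoc, hI, Matrix.one_mul]
  have p4 : (mt N g).toBlocks₂₂ =
      PI N * !![(a4 : ℝ), (b4 : ℝ); (N : ℝ) * (c4 : ℝ), (d4 : ℝ)] * PP N := by
    rw [← e4]
    unfold db
    calc (mt N g).toBlocks₂₂ = (PI N * PP N) * (mt N g).toBlocks₂₂ * (PI N * PP N) := by
          rw [hI, Matrix.one_mul, Matrix.mul_one]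
      _ = PI N * (PP N * (mt N g).toBlocks₂₂ * PI N) * PP N := by simp only [Matrix.mul_assoc]
  have key : ∀ i j, ∃ k : ℤ, mt N g i j = (N : ℝ)⁻¹ * k := by
    intro i j
    rcases i with i | i <;> rcases j with j | j
    · have q : mt N g (Sum.inl i) (Sum.inl j) =
          (!![(a1 : ℝ), (b1 : ℝ); (N : ℝ) * (c1 : ℝ), (d1 : ℝ)] : M2) i j :=
        congrFun (congrFun e1 i) j
      rw [q]
      fin_cases i <;> fin_cases j
      · exact ⟨N * a1, by simp [hN0]⟩
      · exact ⟨N * b1, by simp [hN0]⟩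
      · exact ⟨N * (N * c1), by simp [hN0]⟩
      · exact ⟨N * d1, by simp [hN0]⟩
    · have q : mt N g (Sum.inl i) (Sum.inr j) =
          (!![(a2 : ℝ), (b2 : ℝ); (N : ℝ) * (c2 : ℝ), (d2 : ℝ)] * PP N : M2) i j :=
        congrFun (congrFun p2 i) j
      rw [q]
      fin_cases i <;> fin_cases j
      · exact ⟨N * a2, by simp [hN0, PP, Matrix.mul_apply, Fin.sum_univ_two]⟩
      · exact ⟨N * (b2 * N), by simp [hN0, PP, Matrix.mul_apply, Fin.sum_univ_two]⟩
      · exact ⟨N * (N * c2), by simp [hN0, PP, Matrix.mul_apply, Fin.sum_univ_two]⟩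
      · exact ⟨N * (d2 * N), by simp [hN0, PP, Matrix.mul_apply, Fin.sum_univ_two]⟩
    · have q : mt N g (Sum.inr i) (Sum.inl j) =
          (PI N * !![(a3 : ℝ), (b3 : ℝ); (N : ℝ) * (c3 : ℝ), (d3 : ℝ)] : M2) i j :=
        congrFun (congrFun p3 i) j
      rw [q]
      fin_cases i <;> fin_cases j
      · exact ⟨N * a3, by simp [hN0, PI, Matrix.mul_apply, Fin.sum_univ_two]⟩
      · exact ⟨N * b3, by simp [hN0, PI, Matrix.mul_apply, Fin.sum_univ_two]⟩
      · exact ⟨N * c3, by simp [hN0, PI, Matrix.mul_apply, Fin.sum_univ_two]⟩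
      · exact ⟨d3, by simp [PI, Matrix.mul_apply, Fin.sum_univ_two]⟩
    · have q : mt N g (Sum.inr i) (Sum.inr j) =
          (PI N * !![(a4 : ℝ), (b4 : ℝ); (N : ℝ) * (c4 : ℝ), (d4 : ℝ)] * PP N : M2) i j :=
        congrFun (congrFun p4 i) j
      rw [q]
      fin_cases i <;> fin_cases j
      · exact ⟨N * a4, by simp [hN0, PI, PP, Matrix.mul_apply, Fin.sum_univ_two]⟩
      · exact ⟨N * (b4 * N), by simp [hN0, PI, PP, Matrix.mul_apply, Fin.sum_univ_two]⟩
      · exact ⟨N * c4, by simp [hN0, PI, PP, Matrix.mul_apply, Fin.sum_univ_two]⟩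
      · exact ⟨N * d4, by
          simp [PI, PP, Matrix.mul_apply, Fin.sum_univ_two]
          field_simp⟩
  choose n hn using key
  exact ⟨fun p => n p.1 p.2, fun i j => hn i j⟩

theorem bet_inj {N : ℕ} [hN : Fact N.Prime] {g h : GaN N} (e : mt N g = mt N h) : g = h := by
  apply Subtype.ext
  apply Subtype.ext
  exact e

theorem beta_sum_pr (N : ℕ) [Fact N.Prime] {x : M4} (hx : x ∈ Matrix.symplecticGroup (Fin 2) ℝ) :
    ∑' g : GaN N, beta (act N g x) ≠ 0 ∧ ∑' g : GaN N, beta (act N g x) ≠ ⊤ := by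
  have hN : Fact N.Prime := inferInstance
  have hN0 : (0 : ℝ) < N := by exact_mod_cast hN.out.pos
  constructor
  · intro h
    rw [ENNReal.tsum_eq_zero] at h
    have h1 := h 1
    unfold beta at h1
    rw [ENNReal.ofReal_eq_zero] at h1
    exact absurd h1 (not_le.2 (Real.exp_pos _))
  · obtain ⟨y, hy⟩ : ∃ y : M4, x * y = 1 :=
      ⟨(((⟨x, hx⟩ : Sp)⁻¹ : Sp) : M4), congrArg Subtype.val (mul_inv_cancel (⟨x, hx⟩ : Sp))⟩
    choose n hn using fun g : GaN N => bet_int g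
    have hinj : Function.Injective n := by
      intro g h e
      apply bet_inj
      ext i j
      rw [hn, hn, e]
    have hyq : 0 ≤ betq y := Finset.sum_nonneg fun i _ => Finset.sum_nonneg fun j _ => sq_nonneg _
    set c : ℝ := ((N : ℝ)⁻¹) ^ 2 / (betq y + 1) with hc
    have hc0 : 0 < c := by positivity
    have hle : ∀ g : GaN N, beta (act N g x) ≤
        ∏ p, ENNReal.ofReal (Real.exp (-(c * ((n g p : ℤ) : ℝ) ^ 2))) := by
      intro g
      have h1 : betq (mt N g) ≤ betq (mt N g * x) * betq y := by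
        have := betq_mul (mt N g * x) y
        rwa [Matrix.mul_assoc, hy, Matrix.mul_one] at this
      have hq : 0 ≤ betq (mt N g * x) :=
        Finset.sum_nonneg fun i _ => Finset.sum_nonneg fun j _ => sq_nonneg _
      have h2 : betq (mt N g) / (betq y + 1) ≤ betq (mt N g * x) := by
        rw [div_le_iff₀ (by positivity)]
        nlinarith
      have h3 : betq (mt N g) = ∑ p : (Fin 2 ⊕ Fin 2) × (Fin 2 ⊕ Fin 2),
          ((N : ℝ)⁻¹) ^ 2 * ((n g p : ℤ) : ℝ) ^ 2 := by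
        unfold betq
        rw [Fintype.sum_prod_type]
        refine Finset.sum_congr rfl fun i _ => Finset.sum_congr rfl fun j _ => ?_
        rw [hn, mul_pow]
      rw [← ENNReal.ofReal_prod_of_nonneg (fun i _ => (Real.exp_pos _).le), ← Real.exp_sum]
      unfold beta
      apply ENNReal.ofReal_le_ofReal
      apply Real.exp_le_exp.2
      rw [Finset.sum_neg_distrib]
      apply neg_le_neg
      refine le_trans (le_of_eq ?_) h2
      rw [h3, Finset.sum_div]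
      refine Finset.sum_congr rfl fun p _ => ?_
      rw [hc]
      ring
    refine ne_top_of_le_ne_top ?_ (ENNReal.tsum_le_tsum hle)
    refine ne_top_of_le_ne_top ?_ (ENNReal.tsum_comp_le_tsum_of_injective hinj
      (fun m : (Fin 2 ⊕ Fin 2) × (Fin 2 ⊕ Fin 2) → ℤ =>
        ∏ p, ENNReal.ofReal (Real.exp (-(c * ((m p : ℤ) : ℝ) ^ 2)))))
    rw [bet_pi' (fun k : ℤ => ENNReal.ofReal (Real.exp (-(c * (k : ℝ) ^ 2))))]
    exact ENNReal.pow_ne_top (bet_gauss hc0)


end Pool.Agent.NN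

namespace Pool.Agent.NN

theorem beta_sum : type_of% @beta_sum_pr := @beta_sum_pr

end Pool.Agent.NN
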