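import Pool.Agent.Lib_helper32.NN.Dfs2

/-!
# Block CON: congruence transformations of symmetric matrices
-/

namespace Pool.Agent.NN

open Complex MeasureTheory Filter Topology UpperHalfPlane Matrix
open scoped MatrixGroups ENNReal ComplexConjugate
open Pool.Agent.LEV (S2 co IsNew Lh)

/-- coordinates -/
def con_E : R3 ≃ₗ[ℝ] (Fin 3 → ℝ) where
  toFun e := ![e.1, e.2.1, e.2.2]
  invFun v := (v 0, v 1, v 2)
  map_add' x y := by
    ext i
    fin_cases i <;> simp
  map_smul' c x := by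
    ext i
    fin_cases i <;> simp
  left_inv x := by simp
  right_inv v := by
    ext i
    fin_cases i <;> simp

/-- a linear map in coordinates -/
noncomputable def con_f (A : Matrix (Fin 3) (Fin 3) ℝ) : R3 →ₗ[ℝ] R3 :=
  (con_E.symm : (Fin 3 → ℝ) →ₗ[ℝ] R3) ∘ₗ (Matrix.toLin' A) ∘ₗ (con_E : R3 →ₗ[ℝ] (Fin 3 → ℝ))

theorem con_det (A : Matrix (Fin 3) (Fin 3) ℝ) : LinearMap.det (con_f A) = A.det := by
  have h := LinearMap.det_conj (Matrix.toLin' A) con_E.symm
  rw [LinearEquiv.symm_symm] at h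
  unfold con_f
  rw [h, LinearMap.det_toLin']

theorem con_haar : (volume : Measure R3).IsAddHaarMeasure := by
  have h2 : (volume : Measure (ℝ × ℝ)).IsAddHaarMeasure :=
    inferInstanceAs ((volume : Measure ℝ).prod (volume : Measure ℝ)).IsAddHaarMeasure
  exact inferInstanceAs ((volume : Measure ℝ).prod (volume : Measure (ℝ × ℝ))).IsAddHaarMeasure

theorem cong3_pr {u : M2} (hu : u.det ≠ 0) :
    (volume : Measure R3).map (fun x => ys (u * sy x * uᵀ)) =
      ENNReal.ofReal (|u.det| ^ 3)⁻¹ • volume := by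
  set A : Matrix (Fin 3) (Fin 3) ℝ :=
    !![u 0 0 ^ 2, 2 * (u 0 0 * u 0 1), u 0 1 ^ 2;
      u 0 0 * u 1 0, u 0 0 * u 1 1 + u 0 1 * u 1 0, u 0 1 * u 1 1;
      u 1 0 ^ 2, 2 * (u 1 0 * u 1 1), u 1 1 ^ 2] with hAd
  have hA : A.det = u.det ^ 3 := by
    rw [hAd, Matrix.det_fin_three, Matrix.det_fin_two]
    simp
    ring
  have h0 : LinearMap.det (con_f A) ≠ 0 := by
    rw [con_det, hA]
    exact pow_ne_zero 3 hu
  have := con_haar
  have h := MeasureTheory.Measure.map_linearMap_addHaar_eq_smul_addHaar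
    (volume : Measure R3) h0
  have hFF : (fun x => ys (u * sy x * uᵀ)) = con_f A := by
    funext x
    simp [con_f, con_E, ys, sy, hAd, Matrix.mulVec, Matrix.mul_apply, dotProduct,
      Fin.sum_univ_succ]
    refine ⟨?_, ?_, ?_⟩ <;> ring
  rw [hFF, h, con_det, hA]
  congr 2
  rw [abs_inv, abs_pow]


end Pool.Agent.NN

namespace Pool.Agent.NN

theorem cong3 : type_of% @cong3_pr := @cong3_pr

end Pool.Agent.NN
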