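import Pool.Agent.Lib_helper32.NN.Dfs2

/-!
# Block INV: inversion of symmetric matrices
-/

namespace Pool.Agent.NN

open MeasureTheory Filter Topology Matrix
open scoped ENNReal

/-- the inversion in coordinates -/
noncomputable def inv_f (x : R3) : R3 := (-(x.2.2 * (dt x)⁻¹), x.2.1 * (dt x)⁻¹, -(x.1 * (dt x)⁻¹))

theorem inv_eq (x : R3) : ys (-(sy x)⁻¹) = inv_f x := by
  have hd : (sy x).det = dt x := by
    simp [sy, dt, Matrix.det_fin_two]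
    ring
  have h : (sy x)⁻¹ = (dt x)⁻¹ • !![x.2.2, -x.2.1; -x.2.1, x.1] := by
    rw [Matrix.inv_def, hd, Ring.inverse_eq_inv']
    congr 1
    simp [sy, Matrix.adjugate_fin_two]
  rw [h]
  unfold ys inv_f
  simp only [Matrix.neg_apply, Matrix.smul_apply, smul_eq_mul, Matrix.of_apply, Matrix.cons_val', Matrix.cons_val_zero,
    Matrix.cons_val_one, Matrix.cons_val_fin_one]
  refine Prod.ext ?_ (Prod.ext ?_ ?_)
  · show -((dt x)⁻¹ * x.2.2) = -(x.2.2 * (dt x)⁻¹)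
    ring
  · show -((dt x)⁻¹ * -x.2.1) = x.2.1 * (dt x)⁻¹
    ring
  · show -((dt x)⁻¹ * x.1) = -(x.1 * (dt x)⁻¹)
    ring

/-- coordinates -/
noncomputable def inv_e : R3 ≃ₗ[ℝ] (Fin 3 → ℝ) where
  toFun x := ![x.1, x.2.1, x.2.2]
  invFun v := (v 0, v 1, v 2)
  map_add' x y := by
    ext i
    fin_cases i <;> simp
  map_smul' c x := by
    ext i
    fin_cases i <;> simp
  left_inv x := by simp
  right_inv v := by
    ext i
    fin_cases i <;> simp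

/-- the linear map with given rows -/
noncomputable def inv_L (p q r : R3) : R3 →L[ℝ] R3 :=
  let da := ContinuousLinearMap.fst ℝ ℝ (ℝ × ℝ)
  let db := (ContinuousLinearMap.fst ℝ ℝ ℝ).comp (ContinuousLinearMap.snd ℝ ℝ (ℝ × ℝ))
  let dc := (ContinuousLinearMap.snd ℝ ℝ ℝ).comp (ContinuousLinearMap.snd ℝ ℝ (ℝ × ℝ))
  (p.1 • da + p.2.1 • db + p.2.2 • dc).prod
    ((q.1 • da + q.2.1 • db + q.2.2 • dc).prod (r.1 • da + r.2.1 • db + r.2.2 • dc))

theorem inv_L_apply (p q r v : R3) : inv_L p q r v =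
    (p.1 * v.1 + p.2.1 * v.2.1 + p.2.2 * v.2.2,
      q.1 * v.1 + q.2.1 * v.2.1 + q.2.2 * v.2.2,
      r.1 * v.1 + r.2.1 * v.2.1 + r.2.2 * v.2.2) := by
  simp [inv_L]

theorem inv_L_det (p q r : R3) : (inv_L p q r).det =
    p.1 * (q.2.1 * r.2.2 - q.2.2 * r.2.1) - p.2.1 * (q.1 * r.2.2 - q.2.2 * r.1) +
      p.2.2 * (q.1 * r.2.1 - q.2.1 * r.1) := by
  have h1 : (inv_L p q r).det = LinearMap.det ((inv_L p q r : R3 →L[ℝ] R3) : R3 →ₗ[ℝ] R3) := rfl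
  rw [h1, ← LinearMap.det_toMatrix (Module.Basis.ofEquivFun inv_e), Matrix.det_fin_three]
  have h2 : ∀ i j, LinearMap.toMatrix (Module.Basis.ofEquivFun inv_e)
      (Module.Basis.ofEquivFun inv_e) ((inv_L p q r : R3 →L[ℝ] R3) : R3 →ₗ[ℝ] R3) i j =
      inv_e (inv_L p q r (inv_e.symm (Pi.single j 1))) i := by
    intro i j
    rw [LinearMap.toMatrix_apply]
    simp
  simp only [h2]
  have h3 : ∀ j : Fin 3, inv_e.symm (Pi.single j 1) =
      ((Pi.single j 1 : Fin 3 → ℝ) 0, (Pi.single j 1 : Fin 3 → ℝ) 1, (Pi.single j 1 : Fin 3 → ℝ) 2) :=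
    fun _ => rfl
  have h4 : ∀ x : R3, inv_e x = ![x.1, x.2.1, x.2.2] := fun _ => rfl
  simp only [h3, h4, inv_L_apply]
  simp
  ring

/-- the derivative of the determinant -/
theorem inv_dt_deriv (x : R3) : HasFDerivAt dt
    (x.2.2 • ContinuousLinearMap.fst ℝ ℝ (ℝ × ℝ) +
      (-(2 * x.2.1)) • (ContinuousLinearMap.fst ℝ ℝ ℝ).comp (ContinuousLinearMap.snd ℝ ℝ (ℝ × ℝ)) +
      x.1 • (ContinuousLinearMap.snd ℝ ℝ ℝ).comp (ContinuousLinearMap.snd ℝ ℝ (ℝ × ℝ))) x := by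
  have ha : HasFDerivAt (fun y : R3 => y.1) (ContinuousLinearMap.fst ℝ ℝ (ℝ × ℝ)) x := hasFDerivAt_fst
  have hb : HasFDerivAt (fun y : R3 => y.2.1)
      ((ContinuousLinearMap.fst ℝ ℝ ℝ).comp (ContinuousLinearMap.snd ℝ ℝ (ℝ × ℝ))) x :=
    hasFDerivAt_fst.comp x hasFDerivAt_snd
  have hc : HasFDerivAt (fun y : R3 => y.2.2)
      ((ContinuousLinearMap.snd ℝ ℝ ℝ).comp (ContinuousLinearMap.snd ℝ ℝ (ℝ × ℝ))) x :=
    hasFDerivAt_snd.comp x hasFDerivAt_snd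
  have h := (ha.mul hc).sub (hb.mul hb)
  have e : dt = ((fun y : R3 => y.1) * fun y => y.2.2) - ((fun y : R3 => y.2.1) * fun y => y.2.1) := by
    funext y
    simp [dt]
    ring
  rw [e]
  refine h.congr_fderiv ?_
  ext <;> simp <;> ring

theorem inv_f_deriv {x : R3} (hx : dt x ≠ 0) : HasFDerivAt inv_f (inv_L
    (x.2.2 ^ 2 / dt x ^ 2, -(2 * x.2.1 * x.2.2) / dt x ^ 2, x.2.1 ^ 2 / dt x ^ 2)
    (-(x.2.1 * x.2.2) / dt x ^ 2, (x.1 * x.2.2 + x.2.1 ^ 2) / dt x ^ 2, -(x.1 * x.2.1) / dt x ^ 2)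
    (x.2.1 ^ 2 / dt x ^ 2, -(2 * x.1 * x.2.1) / dt x ^ 2, x.1 ^ 2 / dt x ^ 2)) x := by
  have ha : HasFDerivAt (fun y : R3 => y.1) (ContinuousLinearMap.fst ℝ ℝ (ℝ × ℝ)) x := hasFDerivAt_fst
  have hb : HasFDerivAt (fun y : R3 => y.2.1)
      ((ContinuousLinearMap.fst ℝ ℝ ℝ).comp (ContinuousLinearMap.snd ℝ ℝ (ℝ × ℝ))) x :=
    hasFDerivAt_fst.comp x hasFDerivAt_snd
  have hc : HasFDerivAt (fun y : R3 => y.2.2)
      ((ContinuousLinearMap.snd ℝ ℝ ℝ).comp (ContinuousLinearMap.snd ℝ ℝ (ℝ × ℝ))) x :=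
    hasFDerivAt_snd.comp x hasFDerivAt_snd
  have hi := (hasDerivAt_inv hx).comp_hasFDerivAt x (inv_dt_deriv x)
  have h1 := (hc.mul hi).neg
  have h2 := hb.mul hi
  have h3 := (ha.mul hi).neg
  have h := h1.prodMk (h2.prodMk h3)
  refine (h.congr_fderiv ?_)
  have hd : dt x = x.1 * x.2.2 - x.2.1 ^ 2 := rfl
  apply ContinuousLinearMap.ext
  intro v
  rw [inv_L_apply]
  refine Prod.ext ?_ (Prod.ext ?_ ?_)
  · show -(x.2.2 * (-(dt x ^ 2)⁻¹ * (x.2.2 * v.1 + -(2 * x.2.1) * v.2.1 + x.1 * v.2.2)) +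
      (dt x)⁻¹ * v.2.2) = _
    field_simp
    rw [hd]
    ring
  · show x.2.1 * (-(dt x ^ 2)⁻¹ * (x.2.2 * v.1 + -(2 * x.2.1) * v.2.1 + x.1 * v.2.2)) +
      (dt x)⁻¹ * v.2.1 = _
    field_simp
    rw [hd]
    ring
  · show -(x.1 * (-(dt x ^ 2)⁻¹ * (x.2.2 * v.1 + -(2 * x.2.1) * v.2.1 + x.1 * v.2.2)) +
      (dt x)⁻¹ * v.1) = _
    field_simp
    rw [hd]
    ring

theorem inv_det (x : R3) (hx : dt x ≠ 0) : (inv_L
    (x.2.2 ^ 2 / dt x ^ 2, -(2 * x.2.1 * x.2.2) / dt x ^ 2, x.2.1 ^ 2 / dt x ^ 2)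
    (-(x.2.1 * x.2.2) / dt x ^ 2, (x.1 * x.2.2 + x.2.1 ^ 2) / dt x ^ 2, -(x.1 * x.2.1) / dt x ^ 2)
    (x.2.1 ^ 2 / dt x ^ 2, -(2 * x.1 * x.2.1) / dt x ^ 2, x.1 ^ 2 / dt x ^ 2)).det =
      (dt x ^ 3)⁻¹ := by
  rw [inv_L_det]
  have hd : dt x = x.1 * x.2.2 - x.2.1 ^ 2 := rfl
  field_simp
  rw [hd]
  ring

theorem inv_dt_f {x : R3} (hx : dt x ≠ 0) : dt (inv_f x) = (dt x)⁻¹ := by
  have hd : dt x = x.1 * x.2.2 - x.2.1 ^ 2 := rfl
  have h : dt (inv_f x) = (x.1 * x.2.2 - x.2.1 ^ 2) * (dt x)⁻¹ * (dt x)⁻¹ := by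
    show -(x.2.2 * (dt x)⁻¹) * -(x.1 * (dt x)⁻¹) - (x.2.1 * (dt x)⁻¹) ^ 2 = _
    ring
  rw [h, ← hd, mul_inv_cancel₀ hx, one_mul]

theorem inv_ff {x : R3} (hx : dt x ≠ 0) : inv_f (inv_f x) = x := by
  have h : inv_f (inv_f x) = (-(-(x.1 * (dt x)⁻¹) * (dt (inv_f x))⁻¹),
    x.2.1 * (dt x)⁻¹ * (dt (inv_f x))⁻¹, -(-(x.2.2 * (dt x)⁻¹) * (dt (inv_f x))⁻¹)) := rfl
  rw [h, inv_dt_f hx, inv_inv]
  refine Prod.ext ?_ (Prod.ext ?_ ?_)
  · show -(-(x.1 * (dt x)⁻¹) * dt x) = x.1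
    field_simp
  · show x.2.1 * (dt x)⁻¹ * dt x = x.2.1
    field_simp
  · show -(-(x.2.2 * (dt x)⁻¹) * dt x) = x.2.2
    field_simp

theorem inv_dt_meas : Measurable dt := by
  unfold dt
  fun_prop

theorem inv_f_meas : Measurable inv_f := by
  unfold inv_f
  have := inv_dt_meas
  fun_prop

theorem inv_null : (volume : Measure R3) {x | dt x = 0} = 0 := by
  have hs : MeasurableSet {x : R3 | dt x = 0} := inv_dt_meas (measurableSet_singleton 0)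
  have hv : (volume : Measure R3) = (volume : Measure ℝ).prod (volume : Measure (ℝ × ℝ)) := rfl
  rw [hv, Measure.measure_prod_null hs]
  have h0 : ∀ᵐ a : ℝ, a ≠ 0 := by
    rw [ae_iff]
    simp
  filter_upwards [h0] with a ha
  have hs2 : MeasurableSet (Prod.mk a ⁻¹' {x : R3 | dt x = 0}) := measurable_prodMk_left hs
  have hv2 : (volume : Measure (ℝ × ℝ)) = (volume : Measure ℝ).prod (volume : Measure ℝ) := rfl
  show (volume : Measure (ℝ × ℝ)) _ = 0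
  rw [hv2, Measure.measure_prod_null hs2]
  refine Eventually.of_forall fun b => ?_
  show (volume : Measure ℝ) (Prod.mk b ⁻¹' (Prod.mk a ⁻¹' {x : R3 | dt x = 0})) = 0
  have h : (Prod.mk b ⁻¹' (Prod.mk a ⁻¹' {x : R3 | dt x = 0})) ⊆ {b ^ 2 / a} := by
    intro c hc
    have hc' : a * c - b ^ 2 = 0 := hc
    rw [Set.mem_singleton_iff, eq_div_iff ha]
    linarith
  exact measure_mono_null h (by simp)

theorem inv3_pr : ((volume : Measure R3).withDensity (fun x => ENNReal.ofReal (|dt x| ^ 3)⁻¹)).map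
    (fun x => ys (-(sy x)⁻¹)) = volume := by
  have e : (fun x => ys (-(sy x)⁻¹)) = inv_f := funext inv_eq
  rw [e]
  set s : Set R3 := {x | dt x ≠ 0} with hsdef
  have hs : MeasurableSet s := inv_dt_meas (measurableSet_singleton 0).compl
  have hsae : ∀ᵐ x : R3, x ∈ s := by
    rw [ae_iff]
    simpa [hsdef] using inv_null
  have himg : inv_f '' s = s := by
    ext y
    constructor
    · rintro ⟨x, hx, rfl⟩
      show dt (inv_f x) ≠ 0
      rw [inv_dt_f hx]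
      exact inv_ne_zero hx
    · intro hy
      refine ⟨inv_f y, ?_, inv_ff hy⟩
      show dt (inv_f y) ≠ 0
      rw [inv_dt_f hy]
      exact inv_ne_zero hy
  have hinj : Set.InjOn inv_f s := by
    intro x hx y hy hxy
    rw [← inv_ff hx, ← inv_ff hy, hxy]
  refine Measure.ext fun S hS => ?_
  rw [Measure.map_apply inv_f_meas hS, withDensity_apply _ (inv_f_meas hS)]
  have h2 : (volume : Measure (ℝ × ℝ)).IsAddHaarMeasure := Measure.prod.instIsAddHaarMeasure _ _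
  have h3 : (volume : Measure R3).IsAddHaarMeasure := Measure.prod.instIsAddHaarMeasure _ _
  have key := lintegral_image_eq_lintegral_abs_det_fderiv_mul (volume : Measure R3) hs
    (fun x hx => (inv_f_deriv hx).hasFDerivWithinAt) hinj (S.indicator 1)
  rw [himg, Measure.restrict_eq_self_of_ae_mem hsae, lintegral_indicator_one hS] at key
  rw [key, ← lintegral_indicator (inv_f_meas hS)]
  apply lintegral_congr_ae
  filter_upwards [hsae] with x hx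
  have hx' : dt x ≠ 0 := hx
  have habs : |(dt x ^ 3)⁻¹| = (|dt x| ^ 3)⁻¹ := by
    rw [abs_inv, abs_pow]
  rw [inv_det x hx', habs]
  by_cases hxS : inv_f x ∈ S
  · rw [Set.indicator_of_mem (show x ∈ inv_f ⁻¹' S from hxS), Set.indicator_of_mem hxS]
    simp
  · rw [Set.indicator_of_notMem (show x ∉ inv_f ⁻¹' S from hxS), Set.indicator_of_notMem hxS]
    simp

end Pool.Agent.NN

namespace Pool.Agent.NN

theorem inv3 : type_of% @inv3_pr := @inv3_pr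

end Pool.Agent.NN
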