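import Pool.Agent.Lib_helper32.NN.Dfs2

/-!
# Block LIN: left and right multiplication on matrices
-/

namespace Pool.Agent.NN

open Complex MeasureTheory Filter Topology UpperHalfPlane Matrix
open scoped MatrixGroups ENNReal ComplexConjugate
open Pool.Agent.LEV (S2 co IsNew Lh)

/-- coordinates -/
def lin_E : R4 ≃ₗ[ℝ] (Fin 4 → ℝ) where
  toFun e := ![e.1, e.2.1, e.2.2.1, e.2.2.2]
  invFun v := (v 0, v 1, v 2, v 3)
  map_add' x y := by
    ext i
    fin_cases i <;> simp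
  map_smul' c x := by
    ext i
    fin_cases i <;> simp
  left_inv x := by simp
  right_inv v := by
    ext i
    fin_cases i <;> simp

/-- a linear map in coordinates -/
noncomputable def lin_f (A : Matrix (Fin 4) (Fin 4) ℝ) : R4 →ₗ[ℝ] R4 :=
  (lin_E.symm : (Fin 4 → ℝ) →ₗ[ℝ] R4) ∘ₗ (Matrix.toLin' A) ∘ₗ (lin_E : R4 →ₗ[ℝ] (Fin 4 → ℝ))

theorem lin_det (A : Matrix (Fin 4) (Fin 4) ℝ) : LinearMap.det (lin_f A) = A.det := by
  have h := LinearMap.det_conj (Matrix.toLin' A) lin_E.symm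
  rw [LinearEquiv.symm_symm] at h
  unfold lin_f
  rw [h, LinearMap.det_toLin']

theorem lin_haar : (volume : Measure R4).IsAddHaarMeasure := by
  have h2 : (volume : Measure (ℝ × ℝ)).IsAddHaarMeasure :=
    inferInstanceAs ((volume : Measure ℝ).prod (volume : Measure ℝ)).IsAddHaarMeasure
  have h3 : (volume : Measure (ℝ × ℝ × ℝ)).IsAddHaarMeasure :=
    inferInstanceAs ((volume : Measure ℝ).prod (volume : Measure (ℝ × ℝ))).IsAddHaarMeasure
  exact inferInstanceAs ((volume : Measure ℝ).prod (volume : Measure (ℝ × ℝ × ℝ))).IsAddHaarMeasure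

theorem lin_map {A : Matrix (Fin 4) (Fin 4) ℝ} {D : ℝ} (hD : D ≠ 0) (hA : A.det = D ^ 2)
    {F : R4 → R4} (hF : ∀ e, F e = lin_f A e) :
    (volume : Measure R4).map F = ENNReal.ofReal (|D| ^ 2)⁻¹ • volume := by
  have h0 : LinearMap.det (lin_f A) ≠ 0 := by
    rw [lin_det, hA]
    exact pow_ne_zero 2 hD
  have := lin_haar
  have h := MeasureTheory.Measure.map_linearMap_addHaar_eq_smul_addHaar
    (volume : Measure R4) h0
  have hFF : F = lin_f A := funext hF
  rw [hFF, h, lin_det, hA]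
  congr 2
  rw [abs_inv, abs_pow]

theorem lin4_pr {X : M2} (hX : X.det ≠ 0) :
    (volume : Measure R4).map (fun e => am (X * ma e)) = ENNReal.ofReal (|X.det| ^ 2)⁻¹ • volume := by
  refine lin_map (A := !![X 0 0, 0, X 0 1, 0; 0, X 0 0, 0, X 0 1; X 1 0, 0, X 1 1, 0;
    0, X 1 0, 0, X 1 1]) hX ?_ ?_
  · rw [Matrix.det_fin_two, Matrix.det_succ_row_zero]
    simp [Fin.sum_univ_succ, Matrix.det_fin_three, Matrix.submatrix, Fin.succAbove]
    ring
  · intro e
    simp [lin_f, lin_E, am, ma, Matrix.mulVec, Matrix.mul_apply, dotProduct, Fin.sum_univ_succ]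

theorem lin4r_pr {X : M2} (hX : X.det ≠ 0) :
    (volume : Measure R4).map (fun e => am (ma e * X)) = ENNReal.ofReal (|X.det| ^ 2)⁻¹ • volume := by
  refine lin_map (A := !![X 0 0, X 1 0, 0, 0; X 0 1, X 1 1, 0, 0; 0, 0, X 0 0, X 1 0;
    0, 0, X 0 1, X 1 1]) hX ?_ ?_
  · rw [Matrix.det_fin_two, Matrix.det_succ_row_zero]
    simp [Fin.sum_univ_succ, Matrix.det_fin_three, Matrix.submatrix, Fin.succAbove]
    ring
  · intro e
    simp [lin_f, lin_E, am, ma, Matrix.mulVec, Matrix.mul_apply, dotProduct, Fin.sum_univ_succ]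
    refine ⟨?_, ?_, ?_, ?_⟩ <;> ring


end Pool.Agent.NN

namespace Pool.Agent.NN

theorem lin4 : type_of% @lin4_pr := @lin4_pr

theorem lin4r : type_of% @lin4r_pr := @lin4r_pr

end Pool.Agent.NN
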