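import Pool.Agent.Lib_helper32.NN.Dfs2
import Mathlib.Analysis.Complex.MeanValue

/-!
# Block MVP: mean value of `ph` over rotations
-/

namespace Pool.Agent.NN

open Complex MeasureTheory Filter Topology UpperHalfPlane Matrix
open scoped MatrixGroups ENNReal ComplexConjugate
open Pool.Agent.LEV (S2 co IsNew Lh)

/-- mean over the circle, traversed twice -/
theorem mvp_circ (H : ℂ → ℂ) (hH : ∀ u ∈ Metric.closedBall (0 : ℂ) 1, DifferentiableAt ℂ H u)
    (n : ℤ) (hn : n ≠ 0) :
    ∫ t in (0 : ℝ)..(2 * Real.pi), H (Complex.exp ((((n : ℝ) * t : ℝ) : ℂ) * Complex.I)) =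
      2 * Real.pi * H 0 := by
  set G : ℝ → ℂ := fun θ => H (Complex.exp ((θ : ℂ) * Complex.I)) with hG
  have hmem : ∀ θ : ℝ, Complex.exp ((θ : ℂ) * Complex.I) ∈ Metric.closedBall (0 : ℂ) 1 := by
    intro θ
    rw [mem_closedBall_zero_iff, Complex.norm_exp_ofReal_mul_I]
  have hGc : Continuous G := by
    rw [continuous_iff_continuousAt]
    intro θ
    have h1 : ContinuousAt H (Complex.exp ((θ : ℂ) * Complex.I)) :=
      (hH _ (hmem θ)).continuousAt
    have h2 : ContinuousAt (fun θ : ℝ => Complex.exp ((θ : ℂ) * Complex.I)) θ := by fun_prop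
    exact ContinuousAt.comp (f := fun θ : ℝ => Complex.exp ((θ : ℂ) * Complex.I)) h1 h2
  have hGp : Function.Periodic G (2 * Real.pi) := by
    intro θ
    simp only [hG]
    congr 1
    push_cast
    rw [add_mul, Complex.exp_add, Complex.exp_two_pi_mul_I, mul_one]
  have hav : Real.circleAverage H 0 1 = H 0 := by
    apply DiffContOnCl.circleAverage
    apply DifferentiableOn.diffContOnCl
    intro u hu
    apply DifferentiableAt.differentiableWithinAt
    apply hH
    have := Metric.closure_ball_subset_closedBall hu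
    rwa [abs_one] at this
  have hav2 : ∫ θ in (0 : ℝ)..(2 * Real.pi), G θ = 2 * Real.pi * H 0 := by
    rw [Real.circleAverage_def] at hav
    have e : ∀ θ : ℝ, H (circleMap 0 1 θ) = G θ := by
      intro θ
      simp only [hG, circleMap, zero_add, Complex.ofReal_one, one_mul]
    simp only [e] at hav
    rw [← hav, Complex.real_smul]
    push_cast
    have hpi : (Real.pi : ℂ) ≠ 0 := by exact_mod_cast Real.pi_ne_zero
    field_simp
  have h3 := hGp.intervalIntegral_add_zsmul_eq n 0 (fun a b => hGc.intervalIntegrable a b)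
  rw [zero_add, zero_add, hav2] at h3
  have h4 : ∫ t in (0 : ℝ)..(2 * Real.pi), G ((n : ℝ) * t) =
      (n : ℝ)⁻¹ • ∫ t in ((n : ℝ) * 0)..((n : ℝ) * (2 * Real.pi)), G t := by
    apply intervalIntegral.integral_comp_mul_left
    exact_mod_cast hn
  change ∫ t in (0 : ℝ)..(2 * Real.pi), G ((n : ℝ) * t) = _
  rw [h4, mul_zero]
  rw [zsmul_eq_mul] at h3
  rw [h3, zsmul_eq_mul, Complex.real_smul]
  have hn' : (n : ℂ) ≠ 0 := by exact_mod_cast hn
  push_cast
  field_simp

section
variable {N : ℕ} [Fact N.Prime] (f : S2 N)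

/-- the function `w ↦ det g (c w + d)⁻² f(g w)` -/
noncomputable def mvp_F {N : ℕ} (f : S2 N) (g : M2) (w : ℂ) : ℂ :=
  (g.det : ℂ) / (((g 1 0 : ℝ) : ℂ) * w + ((g 1 1 : ℝ) : ℂ)) ^ 2 *
    f (ofComplex ((((g 0 0 : ℝ) : ℂ) * w + ((g 0 1 : ℝ) : ℂ)) /
      (((g 1 0 : ℝ) : ℂ) * w + ((g 1 1 : ℝ) : ℂ))))

theorem mvp_ne {g : M2} (hg : g.det ≠ 0) {w : ℂ} (hw : w.im ≠ 0) :
    ((g 1 0 : ℝ) : ℂ) * w + ((g 1 1 : ℝ) : ℂ) ≠ 0 := by
  intro h
  have h1 := congrArg Complex.im h
  have h2 := congrArg Complex.re h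
  simp at h1 h2
  rcases h1 with h1 | h1
  · rw [h1] at h2
    simp at h2
    apply hg
    rw [Matrix.det_fin_two, h1, h2]
    ring
  · exact hw h1

theorem mvp_im {g : M2} (hg : g.det ≠ 0) {w : ℂ} (hw : w.im ≠ 0) :
    ((((g 0 0 : ℝ) : ℂ) * w + ((g 0 1 : ℝ) : ℂ)) /
      (((g 1 0 : ℝ) : ℂ) * w + ((g 1 1 : ℝ) : ℂ))).im = g.det * w.im /
      Complex.normSq (((g 1 0 : ℝ) : ℂ) * w + ((g 1 1 : ℝ) : ℂ)) := by
  rw [Complex.div_im, ← sub_div]
  congr 1
  rw [Matrix.det_fin_two]
  simp
  ring

theorem mvp_diff (g : M2) {w : ℂ} (h : 0 < g.det * w.im) : DifferentiableAt ℂ (mvp_F f g) w := by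
  have hg : g.det ≠ 0 := by
    rintro h0
    rw [h0, zero_mul] at h
    exact lt_irrefl _ h
  have hw : w.im ≠ 0 := by
    rintro h0
    rw [h0, mul_zero] at h
    exact lt_irrefl _ h
  have hne := mvp_ne hg hw
  have him := mvp_im hg hw
  have hpos : 0 < ((((g 0 0 : ℝ) : ℂ) * w + ((g 0 1 : ℝ) : ℂ)) /
      (((g 1 0 : ℝ) : ℂ) * w + ((g 1 1 : ℝ) : ℂ))).im := by
    rw [him]
    exact div_pos h (Complex.normSq_pos.2 hne)
  have hF : DifferentiableAt ℂ (fun z : ℂ => f (ofComplex z))
      ((((g 0 0 : ℝ) : ℂ) * w + ((g 0 1 : ℝ) : ℂ)) /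
      (((g 1 0 : ℝ) : ℂ) * w + ((g 1 1 : ℝ) : ℂ))) := by
    have h1 : DifferentiableOn ℂ ((f : ℍ → ℂ) ∘ ofComplex) {z | 0 < z.im} :=
      UpperHalfPlane.mdifferentiable_iff.1 (CuspFormClass.holo f)
    exact (h1 _ hpos).differentiableAt (isOpen_upperHalfPlaneSet.mem_nhds hpos)
  have hM : DifferentiableAt ℂ (fun w : ℂ => (((g 0 0 : ℝ) : ℂ) * w + ((g 0 1 : ℝ) : ℂ)) /
      (((g 1 0 : ℝ) : ℂ) * w + ((g 1 1 : ℝ) : ℂ))) w := by
    apply DifferentiableAt.div
    · fun_prop
    · fun_prop
    · exact hne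
  have hC : DifferentiableAt ℂ (fun w : ℂ => (g.det : ℂ) /
      (((g 1 0 : ℝ) : ℂ) * w + ((g 1 1 : ℝ) : ℂ)) ^ 2) w := by
    apply DifferentiableAt.div
    · fun_prop
    · fun_prop
    · exact pow_ne_zero _ hne
  exact hC.mul (DifferentiableAt.comp w (g := fun z : ℂ => f (ofComplex z)) hF hM)

theorem mvp_ph (g W : M2) (h : 0 < (g * W).det) :
    ph f (g * W) = (W.det : ℂ) / (((W 1 0 : ℝ) : ℂ) * Complex.I + ((W 1 1 : ℝ) : ℂ)) ^ 2 *
      mvp_F f g ((((W 0 0 : ℝ) : ℂ) * Complex.I + ((W 0 1 : ℝ) : ℂ)) /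
        (((W 1 0 : ℝ) : ℂ) * Complex.I + ((W 1 1 : ℝ) : ℂ))) := by
  have hdet : (g * W).det = g.det * W.det := Matrix.det_mul g W
  have hg : g.det ≠ 0 := by
    rintro h0
    rw [hdet, h0, zero_mul] at h
    exact lt_irrefl _ h
  have hW : W.det ≠ 0 := by
    rintro h0
    rw [hdet, h0, mul_zero] at h
    exact lt_irrefl _ h
  have hI : Complex.I.im ≠ 0 := by simp
  have hJ := mvp_ne hW hI
  set J : ℂ := ((W 1 0 : ℝ) : ℂ) * Complex.I + ((W 1 1 : ℝ) : ℂ) with hJdef
  set K : ℂ := ((W 0 0 : ℝ) : ℂ) * Complex.I + ((W 0 1 : ℝ) : ℂ) with hKdef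
  have him : (K / J).im ≠ 0 := by
    rw [hJdef, hKdef, mvp_im hW hI]
    apply div_ne_zero
    · simpa using hW
    · exact (Complex.normSq_pos.2 hJ).ne'
  have hJ2 := mvp_ne hg him
  have e1 : (((g * W) 1 0 : ℝ) : ℂ) * Complex.I + (((g * W) 1 1 : ℝ) : ℂ) =
      J * (((g 1 0 : ℝ) : ℂ) * (K / J) + ((g 1 1 : ℝ) : ℂ)) := by
    rw [Matrix.mul_apply, Matrix.mul_apply, Fin.sum_univ_two, Fin.sum_univ_two]
    field_simp
    rw [hKdef, hJdef]
    push_cast
    ring
  have e2 : (((g * W) 0 0 : ℝ) : ℂ) * Complex.I + (((g * W) 0 1 : ℝ) : ℂ) =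
      J * (((g 0 0 : ℝ) : ℂ) * (K / J) + ((g 0 1 : ℝ) : ℂ)) := by
    rw [Matrix.mul_apply, Matrix.mul_apply, Fin.sum_univ_two, Fin.sum_univ_two]
    field_simp
    rw [hKdef, hJdef]
    push_cast
    ring
  rw [ph, if_pos h, zz, mvp_F, e1, e2, mul_div_mul_left _ _ hJ, hdet]
  push_cast
  field_simp

theorem mvp_zero {g : M2} (hg : ¬ 0 < g.det) : ph f g = 0 := by
  rw [ph, if_neg hg]

theorem mvp_det_kt (t : ℝ) : (kt t).det = 1 := by
  rw [kt, Matrix.det_fin_two_of]
  have := Real.cos_sq_add_sin_sq t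
  nlinarith

/-- the two rotation identities -/
theorem mvp_rot (V : M2) (t : ℝ) :
    Complex.exp (t * Complex.I) * ((((kt t * V) 1 0 : ℝ) : ℂ) * Complex.I +
      (((kt t * V) 1 1 : ℝ) : ℂ)) = -(Complex.I / 2) *
      ((Complex.I * ((V 0 0 : ℝ) + (V 1 1 : ℝ)) + ((V 0 1 : ℝ) - (V 1 0 : ℝ))) -
        Complex.exp ((2 * t : ℝ) * Complex.I) *
          (Complex.I * ((V 0 0 : ℝ) - (V 1 1 : ℝ)) + ((V 0 1 : ℝ) + (V 1 0 : ℝ)))) ∧
    Complex.exp (t * Complex.I) * ((((kt t * V) 0 0 : ℝ) : ℂ) * Complex.I +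
      (((kt t * V) 0 1 : ℝ) : ℂ)) = 1 / 2 *
      ((Complex.I * ((V 0 0 : ℝ) + (V 1 1 : ℝ)) + ((V 0 1 : ℝ) - (V 1 0 : ℝ))) +
        Complex.exp ((2 * t : ℝ) * Complex.I) *
          (Complex.I * ((V 0 0 : ℝ) - (V 1 1 : ℝ)) + ((V 0 1 : ℝ) + (V 1 0 : ℝ)))) := by
  have h2 : Complex.exp ((2 * t : ℝ) * Complex.I) =
      Complex.exp (t * Complex.I) * Complex.exp (t * Complex.I) := by
    rw [← Complex.exp_add]
    congr 1
    push_cast
    ring
  have hE : Complex.exp (t * Complex.I) = (Real.cos t : ℂ) + (Real.sin t : ℂ) * Complex.I := by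
    rw [Complex.exp_mul_I]
    push_cast
    ring
  have hcs : ((Real.cos t : ℝ) : ℂ) ^ 2 + ((Real.sin t : ℝ) : ℂ) ^ 2 = 1 := by
    exact_mod_cast Real.cos_sq_add_sin_sq t
  have hI : Complex.I ^ 2 = -1 := Complex.I_sq
  rw [h2, hE]
  simp only [kt, Matrix.mul_apply, Fin.sum_univ_two, Matrix.of_apply, Matrix.cons_val_zero,
    Matrix.cons_val_one, Matrix.cons_val', Matrix.empty_val', Matrix.cons_val_fin_one]
  have hcs' : (Real.cos t) ^ 2 + (Real.sin t) ^ 2 = 1 := Real.cos_sq_add_sin_sq t
  generalize Real.cos t = c at *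
  generalize Real.sin t = s at *
  generalize V 0 0 = v00 at *
  generalize V 0 1 = v01 at *
  generalize V 1 0 = v10 at *
  generalize V 1 1 = v11 at *
  constructor
  · apply Complex.ext
    · simp
      linear_combination (v00 + v11) / 2 * hcs'
    · simp
      linear_combination (v10 - v01) / 2 * hcs'
  · apply Complex.ext
    · simp
      linear_combination (v01 - v10) / 2 * hcs'
    · simp
      linear_combination (v00 + v11) / 2 * hcs'

/-- first combination of the entries -/
noncomputable def mvp_A (V : M2) : ℂ :=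
  Complex.I * ((V 0 0 : ℝ) + (V 1 1 : ℝ)) + ((V 0 1 : ℝ) - (V 1 0 : ℝ))

/-- second combination of the entries -/
noncomputable def mvp_B (V : M2) : ℂ :=
  Complex.I * ((V 0 0 : ℝ) - (V 1 1 : ℝ)) + ((V 0 1 : ℝ) + (V 1 0 : ℝ))

theorem mvp_normSq (V : M2) :
    Complex.normSq (mvp_A V) - Complex.normSq (mvp_B V) = 4 * V.det := by
  rw [Matrix.det_fin_two, Complex.normSq_apply, Complex.normSq_apply, mvp_A, mvp_B]
  simp
  ring

theorem mvp_im2 (A b : ℂ) :
    ((1 / 2 * (A + b)) / (-(Complex.I / 2) * (A - b))).im =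
      (Complex.normSq A - Complex.normSq b) / Complex.normSq (A - b) := by
  have e : (1 / 2 * (A + b)) / (-(Complex.I / 2) * (A - b)) = Complex.I * ((A + b) / (A - b)) := by
    by_cases h : A - b = 0
    · rw [h]
      simp
    · have hI : Complex.I ≠ 0 := Complex.I_ne_zero
      have hI2 : Complex.I ^ 2 = -1 := Complex.I_sq
      field_simp
      rw [hI2]
      ring
  rw [e]
  rw [Complex.I_mul_im, Complex.div_re, ← add_div]
  congr 1
  rw [Complex.normSq_apply, Complex.normSq_apply]
  simp
  ring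

/-- the integrand as a function on the circle -/
noncomputable def mvp_H {N : ℕ} (f : S2 N) (g V : M2) (u : ℂ) : ℂ :=
  (V.det : ℂ) / (-(Complex.I / 2) * (mvp_A V - u * mvp_B V)) ^ 2 *
    mvp_F f g ((1 / 2 * (mvp_A V + u * mvp_B V)) / (-(Complex.I / 2) * (mvp_A V - u * mvp_B V)))

theorem mvp_int (g V : M2) (t : ℝ) (h : 0 < g.det * V.det) :
    Complex.exp (-(2 * Complex.I * t)) * ph f (g * kt t * V) =
      mvp_H f g V (Complex.exp ((2 * t : ℝ) * Complex.I)) := by
  have hd : (kt t * V).det = V.det := by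
    rw [Matrix.det_mul, mvp_det_kt, one_mul]
  have h' : 0 < (g * (kt t * V)).det := by
    rw [Matrix.det_mul, hd]
    exact h
  obtain ⟨e1, e2⟩ := mvp_rot V t
  rw [Matrix.mul_assoc, mvp_ph f g _ h', hd, mvp_H, mvp_A, mvp_B, ← e1, ← e2]
  have hE : Complex.exp (t * Complex.I) ≠ 0 := Complex.exp_ne_zero _
  rw [mul_div_mul_left _ _ hE]
  have h2 : Complex.exp (-(2 * Complex.I * t)) = (Complex.exp (t * Complex.I) ^ 2)⁻¹ := by
    rw [← Complex.exp_nat_mul, ← Complex.exp_neg]
    congr 1
    push_cast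
    ring
  rw [h2, mul_pow, ← mul_assoc]
  congr 1
  rw [div_mul_eq_div_div_swap, div_eq_mul_inv (_ / _) (_ ^ 2)]
  rw [mul_comm]

theorem mvp_F_I {g : M2} (hg : 0 < g.det) : mvp_F f g Complex.I = ph f g := by
  rw [mvp_F, ph, if_pos hg, zz]

/-- **MVP** -/
theorem ph_mean_pr (g V : M2) (hs : V 0 1 = V 1 0) (hV : V.det ≠ 0) :
    (∫ t in (0 : ℝ)..(2 * Real.pi), Complex.exp (-(2 * Complex.I * t)) * ph f (g * kt t * V)) =
      2 * Real.pi * (if 0 < V.det then ((4 * V.det / (V 0 0 + V 1 1) ^ 2 : ℝ) : ℂ) * ph f g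
        else 0) := by
  have hdet : ∀ t : ℝ, (g * kt t * V).det = g.det * V.det := by
    intro t
    rw [Matrix.det_mul, Matrix.det_mul, mvp_det_kt, mul_one]
  by_cases hgV : 0 < g.det * V.det
  · simp only [mvp_int f g V _ hgV]
    rcases lt_or_gt_of_ne hV with hneg | hpos
    · -- both determinants negative
      have hg : g.det < 0 := by
        by_contra hcon
        push Not at hcon
        nlinarith
      rw [if_neg (not_lt.2 hneg.le), mul_zero]
      set A := mvp_A V with hA
      set B := mvp_B V with hB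
      have hAB : Complex.normSq A < Complex.normSq B := by
        have := mvp_normSq V
        linarith
      set K : ℂ → ℂ := fun v => v ^ 2 * ((V.det : ℂ) / (-(Complex.I / 2) * (A * v - B)) ^ 2 *
        mvp_F f g ((1 / 2 * (A * v + B)) / (-(Complex.I / 2) * (A * v - B)))) with hK
      have hKH : ∀ t : ℝ, mvp_H f g V (Complex.exp ((2 * t : ℝ) * Complex.I)) =
          K (Complex.exp (((((-2 : ℤ) : ℝ) * t : ℝ) : ℂ) * Complex.I)) := by
        intro t
        have huv : Complex.exp ((2 * t : ℝ) * Complex.I) *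
            Complex.exp (((((-2 : ℤ) : ℝ) * t : ℝ) : ℂ) * Complex.I) = 1 := by
          rw [← Complex.exp_add]
          have : ((2 * t : ℝ) : ℂ) * Complex.I + ((((-2 : ℤ) : ℝ) * t : ℝ) : ℂ) * Complex.I = 0 := by
            push_cast
            ring
          rw [this, Complex.exp_zero]
        set u := Complex.exp ((2 * t : ℝ) * Complex.I) with hu
        set v := Complex.exp (((((-2 : ℤ) : ℝ) * t : ℝ) : ℂ) * Complex.I) with hv
        have hu0 : u ≠ 0 := Complex.exp_ne_zero _
        have e1 : A - u * B = u * (A * v - B) := by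
          linear_combination (-A) * huv
        have e2 : A + u * B = u * (A * v + B) := by
          linear_combination (-A) * huv
        simp only [hK]
        rw [mvp_H, ← hA, ← hB, e1, e2]
        have e3 : (1 / 2 * (u * (A * v + B))) / (-(Complex.I / 2) * (u * (A * v - B))) =
            (1 / 2 * (A * v + B)) / (-(Complex.I / 2) * (A * v - B)) := by
          rw [show 1 / 2 * (u * (A * v + B)) = u * (1 / 2 * (A * v + B)) by ring,
            show -(Complex.I / 2) * (u * (A * v - B)) = u * (-(Complex.I / 2) * (A * v - B)) by ring,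
            mul_div_mul_left _ _ hu0]
        rw [e3, ← mul_assoc (v ^ 2)]
        congr 1
        have e4 : v = u⁻¹ := eq_inv_of_mul_eq_one_right huv
        rw [show -(Complex.I / 2) * (u * (A * v - B)) = u * (-(Complex.I / 2) * (A * v - B)) by ring,
          mul_pow, e4]
        rw [inv_pow, div_mul_eq_div_div_swap, div_eq_mul_inv (_ / _) (u ^ 2), mul_comm]
      simp only [hKH]
      rw [mvp_circ K _ (-2) (by norm_num)]
      · simp [hK]
      · intro v hv
        rw [mem_closedBall_zero_iff] at hv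
        have hlt : Complex.normSq (A * v) < Complex.normSq B := by
          rw [Complex.normSq_mul]
          have h1 : Complex.normSq v ≤ 1 := by
            rw [Complex.normSq_eq_norm_sq]
            exact pow_le_one₀ (norm_nonneg _) hv
          have h2 := Complex.normSq_nonneg A
          nlinarith
        have hne : A * v - B ≠ 0 := by
          intro h0
          have : A * v = B := sub_eq_zero.1 h0
          rw [this] at hlt
          exact lt_irrefl _ hlt
        have hden : -(Complex.I / 2) * (A * v - B) ≠ 0 := by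
          apply mul_ne_zero _ hne
          simp
        have him := mvp_im2 (A * v) B
        have hF : DifferentiableAt ℂ (mvp_F f g)
            ((1 / 2 * (A * v + B)) / (-(Complex.I / 2) * (A * v - B))) := by
          apply mvp_diff
          rw [him]
          apply mul_pos_of_neg_of_neg hg
          apply div_neg_of_neg_of_pos
          · linarith
          · exact Complex.normSq_pos.2 hne
        have hM : DifferentiableAt ℂ (fun v : ℂ =>
            (1 / 2 * (A * v + B)) / (-(Complex.I / 2) * (A * v - B))) v := by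
          apply DifferentiableAt.div
          · fun_prop
          · fun_prop
          · exact hden
        apply DifferentiableAt.mul
        · fun_prop
        · apply DifferentiableAt.mul
          · apply DifferentiableAt.div
            · fun_prop
            · fun_prop
            · exact pow_ne_zero _ hden
          · exact DifferentiableAt.comp v (g := mvp_F f g) hF hM
    · -- both determinants positive
      have hg : 0 < g.det := by
        by_contra hcon
        push Not at hcon
        nlinarith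
      rw [if_pos hpos]
      set A := mvp_A V with hA
      set B := mvp_B V with hB
      have hAB : Complex.normSq B < Complex.normSq A := by
        have := mvp_normSq V
        linarith
      have hHH : ∀ t : ℝ, mvp_H f g V (Complex.exp ((2 * t : ℝ) * Complex.I)) =
          mvp_H f g V (Complex.exp (((((2 : ℤ) : ℝ) * t : ℝ) : ℂ) * Complex.I)) := by
        intro t
        norm_num
      simp only [hHH]
      have hA0 : A ≠ 0 := by
        intro h0
        rw [h0, map_zero] at hAB
        exact absurd hAB (not_lt.2 (Complex.normSq_nonneg B))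
      rw [mvp_circ (mvp_H f g V) _ 2 (by norm_num)]
      · congr 1
        rw [mvp_H, ← hA, ← hB, zero_mul, sub_zero, add_zero]
        have hI : Complex.I ≠ 0 := Complex.I_ne_zero
        have hI2 : Complex.I ^ 2 = -1 := Complex.I_sq
        have e1 : (1 / 2 * A) / (-(Complex.I / 2) * A) = Complex.I := by
          field_simp
          rw [hI2]
        have e2 : -(Complex.I / 2) * A = (((V 0 0 + V 1 1) / 2 : ℝ) : ℂ) := by
          rw [hA, mvp_A, hs]
          push_cast
          linear_combination (-((V 0 0 : ℂ) + (V 1 1 : ℂ)) / 2) * hI2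
        rw [e1, mvp_F_I f hg, e2]
        congr 1
        push_cast
        rw [div_pow]
        field_simp
        ring
      · intro u hu
        rw [mem_closedBall_zero_iff] at hu
        have hlt : Complex.normSq (u * B) < Complex.normSq A := by
          rw [Complex.normSq_mul]
          have h1 : Complex.normSq u ≤ 1 := by
            rw [Complex.normSq_eq_norm_sq]
            exact pow_le_one₀ (norm_nonneg _) hu
          have h2 := Complex.normSq_nonneg B
          nlinarith
        have hne : A - u * B ≠ 0 := by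
          intro h0
          have : A = u * B := sub_eq_zero.1 h0
          rw [← this] at hlt
          exact lt_irrefl _ hlt
        have hden : -(Complex.I / 2) * (A - u * B) ≠ 0 := by
          apply mul_ne_zero _ hne
          simp
        have him := mvp_im2 A (u * B)
        have hF : DifferentiableAt ℂ (mvp_F f g)
            ((1 / 2 * (A + u * B)) / (-(Complex.I / 2) * (A - u * B))) := by
          apply mvp_diff
          rw [him]
          apply mul_pos hg
          apply div_pos
          · linarith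
          · exact Complex.normSq_pos.2 hne
        have hM : DifferentiableAt ℂ (fun u : ℂ =>
            (1 / 2 * (A + u * B)) / (-(Complex.I / 2) * (A - u * B))) u := by
          apply DifferentiableAt.div
          · fun_prop
          · fun_prop
          · exact hden
        unfold mvp_H
        apply DifferentiableAt.mul
        · apply DifferentiableAt.div
          · fun_prop
          · fun_prop
          · exact pow_ne_zero _ hden
        · exact DifferentiableAt.comp u (g := mvp_F f g) hF hM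
  · have hz : ∀ t : ℝ, ph f (g * kt t * V) = 0 := by
      intro t
      apply mvp_zero
      rw [hdet t]
      exact hgV
    simp only [hz, mul_zero, intervalIntegral.integral_zero]
    split_ifs with hpos
    · rw [mvp_zero f, mul_zero, mul_zero]
      intro hg
      exact hgV (mul_pos hg hpos)
    · rw [mul_zero]


end

end Pool.Agent.NN

namespace Pool.Agent.NN

theorem ph_mean : type_of% @ph_mean_pr := @ph_mean_pr

end Pool.Agent.NN
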