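import Pool.Agent.Lib_helper32.NN.Dfs2
import Pool.Agent.Lib_helper32.NNF.CNG
import Pool.Agent.Lib_helper32.NNF.COV
import Pool.Agent.Lib_helper32.NNF.INV
import Pool.Agent.Lib_helper32.NNF.LIN
import Pool.Agent.Lib_helper32.NNF.MVP
import Pool.Agent.Lib_helper32.NNF.PHA
import Pool.Agent.Lib_helper32.NNF.PHM

/-!
# Block BIG: the integral over the big cell
-/

namespace Pool.Agent.NN

open Complex MeasureTheory Filter Topology UpperHalfPlane Matrix
open scoped MatrixGroups ENNReal ComplexConjugate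
open Pool.Agent.LEV (S2 co IsNew Lh)

/-! ### matrices -/

theorem big_sy_det (x : R3) : (sy x).det = dt x := by
  rw [Matrix.det_fin_two]
  simp [sy, dt]
  ring

theorem big_ys_sy (x : R3) : ys (sy x) = x := by
  simp [sy, ys]

theorem big_sy_ys {m : M2} (h : m 0 1 = m 1 0) : sy (ys m) = m := by
  ext i j
  fin_cases i <;> fin_cases j <;> simp [sy, ys, h]

theorem big_sy_tr (x : R3) : (sy x)ᵀ = sy x := by
  ext i j
  fin_cases i <;> fin_cases j <;> simp [sy]

theorem big_sy_zero : sy 0 = 0 := by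
  ext i j
  fin_cases i <;> fin_cases j <;> simp [sy]

theorem big_sy_add (x y : R3) : sy (x + y) = sy x + sy y := by
  ext i j
  fin_cases i <;> fin_cases j <;> simp [sy]

theorem big_sy_neg (x : R3) : sy (-x) = -sy x := by
  ext i j
  fin_cases i <;> fin_cases j <;> simp [sy]

theorem big_ma_am (m : M2) : ma (am m) = m := by
  ext i j
  fin_cases i <;> fin_cases j <;> simp [ma, am]

theorem big_inv_sym (x : R3) : ((sy x)⁻¹)ᵀ = (sy x)⁻¹ := by
  rw [Matrix.transpose_nonsing_inv, big_sy_tr]

theorem big_sy_inv (x : R3) : sy (ys (sy x)⁻¹) = (sy x)⁻¹ := by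
  apply big_sy_ys
  have h := congrFun (congrFun (big_inv_sym x) 1) 0
  rwa [Matrix.transpose_apply] at h

theorem big_con_sym {u m : M2} (hm : mᵀ = m) : (u * m * uᵀ)ᵀ = u * m * uᵀ := by
  rw [transpose_mul, transpose_mul, transpose_transpose, hm, Matrix.mul_assoc]

theorem big_sy_con {u m : M2} (hm : mᵀ = m) : sy (ys (u * m * uᵀ)) = u * m * uᵀ := by
  apply big_sy_ys
  have h := congrFun (congrFun (big_con_sym (u := u) hm) 1) 0
  rwa [Matrix.transpose_apply] at h

theorem big_tau (x : R3) : ys (-(sy x)⁻¹) =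
    (-((dt x)⁻¹ * x.2.2), (dt x)⁻¹ * x.2.1, -((dt x)⁻¹ * x.1)) := by
  rw [Matrix.inv_def, big_sy_det, Ring.inverse_eq_inv', Matrix.adjugate_fin_two]
  simp [ys, sy]

/-! ### measurability -/

theorem big_mmat {α : Type*} [MeasurableSpace α] {F : α → M2}
    (h : ∀ i j, Measurable fun a => F a i j) : Measurable F :=
  measurable_pi_iff.2 fun i => measurable_pi_iff.2 fun j => h i j

theorem big_ment {α : Type*} [MeasurableSpace α] {F : α → M2} (h : Measurable F) (i j : Fin 2) :
    Measurable fun a => F a i j :=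
  (measurable_pi_apply j).comp ((measurable_pi_apply i).comp h)

theorem big_mmul {α : Type*} [MeasurableSpace α] {F G : α → M2} (hF : Measurable F)
    (hG : Measurable G) : Measurable fun a => F a * G a := by
  refine big_mmat fun i j => ?_
  simp only [Matrix.mul_apply, Fin.sum_univ_two]
  exact ((big_ment hF i 0).mul (big_ment hG 0 j)).add ((big_ment hF i 1).mul (big_ment hG 1 j))

theorem big_mtr {α : Type*} [MeasurableSpace α] {F : α → M2} (hF : Measurable F) :
    Measurable fun a => (F a)ᵀ :=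
  big_mmat fun i j => big_ment hF j i

theorem big_mdet {α : Type*} [MeasurableSpace α] {F : α → M2} (hF : Measurable F) :
    Measurable fun a => (F a).det := by
  simp only [Matrix.det_fin_two]
  exact ((big_ment hF 0 0).mul (big_ment hF 1 1)).sub ((big_ment hF 0 1).mul (big_ment hF 1 0))

theorem big_minv {α : Type*} [MeasurableSpace α] {F : α → M2} (hF : Measurable F) :
    Measurable fun a => (F a)⁻¹ := by
  refine big_mmat fun i j => ?_
  simp only [Matrix.inv_def, Ring.inverse_eq_inv', Matrix.adjugate_fin_two, Matrix.smul_apply,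
    smul_eq_mul]
  refine (big_mdet hF).inv.mul ?_
  fin_cases i <;> fin_cases j
  · exact big_ment hF 1 1
  · exact (big_ment hF 0 1).neg
  · exact (big_ment hF 1 0).neg
  · exact big_ment hF 0 0

theorem big_madd {α : Type*} [MeasurableSpace α] {F G : α → M2} (hF : Measurable F)
    (hG : Measurable G) : Measurable fun a => F a + G a :=
  big_mmat fun i j => (big_ment hF i j).add (big_ment hG i j)

theorem big_msy {α : Type*} [MeasurableSpace α] {F : α → R3} (hF : Measurable F) :
    Measurable fun a => sy (F a) := by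
  refine big_mmat fun i j => ?_
  fin_cases i <;> fin_cases j
  · exact hF.fst
  · exact hF.snd.fst
  · exact hF.snd.fst
  · exact hF.snd.snd

theorem big_mma {α : Type*} [MeasurableSpace α] {F : α → R4} (hF : Measurable F) :
    Measurable fun a => ma (F a) := by
  refine big_mmat fun i j => ?_
  fin_cases i <;> fin_cases j
  · exact hF.fst
  · exact hF.snd.fst
  · exact hF.snd.snd.fst
  · exact hF.snd.snd.snd

theorem big_mys {α : Type*} [MeasurableSpace α] {F : α → M2} (hF : Measurable F) :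
    Measurable fun a => ys (F a) :=
  (big_ment hF 0 0).prodMk ((big_ment hF 0 1).prodMk (big_ment hF 1 1))

theorem big_mdt : Measurable dt := by
  unfold dt
  fun_prop

theorem big_mkt : Measurable kt := by
  refine big_mmat fun i j => ?_
  fin_cases i <;> fin_cases j
  · exact Real.measurable_cos
  · exact Real.measurable_sin
  · exact Real.measurable_sin.neg
  · exact Real.measurable_cos

/-! ### change of variables -/

/-- the density -/
noncomputable def big_rho (x : R3) : ℝ≥0∞ := ENNReal.ofReal (|dt x| ^ 3)⁻¹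

theorem big_rho_meas : Measurable big_rho := by
  unfold big_rho
  exact (((big_mdt.abs).pow_const 3).inv).ennreal_ofReal

theorem big_wd {ρ : R3 → ℝ≥0∞} (hρ : Measurable ρ) {g : R3 → R3} (hg : Measurable g)
    (μ : Measure R3) : (μ.withDensity (fun x => ρ (g x))).map g = (μ.map g).withDensity ρ := by
  ext s hs
  rw [Measure.map_apply hg hs, withDensity_apply _ (hg hs), withDensity_apply _ hs,
    setLIntegral_map hs hρ hg]

theorem big_taum : Measurable (fun x : R3 => ys (-(sy x)⁻¹)) := by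
  simp only [big_tau]
  have h1 := big_mdt.inv
  refine Measurable.prodMk ?_ (Measurable.prodMk ?_ ?_)
  · exact (h1.mul measurable_snd.snd).neg
  · exact h1.mul measurable_snd.fst
  · exact (h1.mul measurable_fst).neg

theorem big_tau_tau {x : R3} (hx : dt x ≠ 0) : ys (-(sy (ys (-(sy x)⁻¹)))⁻¹) = x := by
  have h1 : sy (ys (-(sy x)⁻¹)) = -(sy x)⁻¹ := by
    apply big_sy_ys
    have h := congrFun (congrFun (big_inv_sym x) 1) 0
    rw [Matrix.transpose_apply] at h
    simp only [Matrix.neg_apply, h]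
  have h2 : (sy x).det ≠ 0 := by rwa [big_sy_det]
  have h3 : IsUnit (sy x).det := isUnit_iff_ne_zero.2 h2
  have h4 : (-(sy x)⁻¹)⁻¹ = -(sy x) := by
    refine Matrix.inv_eq_left_inv ?_
    rw [neg_mul_neg, Matrix.mul_nonsing_inv _ h3]
  rw [h1, h4, neg_neg, big_ys_sy]

theorem big_map_tau : (volume : Measure R3).map (fun x => ys (-(sy x)⁻¹)) =
    (volume : Measure R3).withDensity big_rho := by
  conv_lhs => rw [← inv3]
  rw [Measure.map_map big_taum big_taum]
  have h : ((fun x : R3 => ys (-(sy x)⁻¹)) ∘ fun x => ys (-(sy x)⁻¹)) =ᵐ[(volume :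
      Measure R3).withDensity big_rho] id := by
    rw [Filter.EventuallyEq, ae_withDensity_iff big_rho_meas]
    refine Eventually.of_forall fun x hx => ?_
    have hx' : dt x ≠ 0 := by
      intro h0
      apply hx
      simp [big_rho, h0]
    exact big_tau_tau hx'
  change (Measure.withDensity volume big_rho).map _ = _
  rw [Measure.map_congr h, Measure.map_id]

theorem big_map_neg : (volume : Measure R3).map (fun x => -x) = volume := by
  have h1 := Measure.measurePreserving_neg (volume : Measure ℝ)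
  exact (h1.prod (h1.prod h1)).map_eq

theorem big_dt_con (u : M2) (x : R3) : dt (ys (u * sy x * uᵀ)) = u.det ^ 2 * dt x := by
  rw [← big_sy_det, big_sy_con (big_sy_tr x), det_mul, det_mul, det_transpose, big_sy_det]
  ring

theorem big_chg {u : M2} (hu : u.det ≠ 0) :
    (volume : Measure R3).map (fun X => ys (u * (sy X)⁻¹ * uᵀ)) =
      ENNReal.ofReal (|u.det| ^ 3) • (volume : Measure R3).withDensity big_rho := by
  have hcm : Measurable (fun x : R3 => ys (u * sy x * uᵀ)) :=
    big_mys (big_mmul (big_mmul measurable_const (big_msy measurable_id)) measurable_const)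
  have e1 : (fun X : R3 => ys (u * (sy X)⁻¹ * uᵀ)) =
      (fun x => ys (u * sy x * uᵀ)) ∘ (fun x => -x) ∘ (fun x => ys (-(sy x)⁻¹)) := by
    funext X
    simp only [Function.comp]
    have h2 : sy (ys (-(sy X)⁻¹)) = -(sy X)⁻¹ := by
      apply big_sy_ys
      have h := congrFun (congrFun (big_inv_sym X) 1) 0
      rw [Matrix.transpose_apply] at h
      simp only [Matrix.neg_apply, h]
    rw [big_sy_neg, h2, neg_neg]
  rw [e1, ← Measure.map_map hcm (measurable_neg.comp big_taum),
    ← Measure.map_map measurable_neg big_taum, big_map_tau]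
  have e2 : ((volume : Measure R3).withDensity big_rho).map (fun x => -x) =
      (volume : Measure R3).withDensity big_rho := by
    have e3 : big_rho = fun x => big_rho (-x) := by
      funext x
      have : dt (-x) = dt x := by simp [dt]
      simp only [big_rho, this]
    conv_lhs => rw [e3]
    rw [big_wd big_rho_meas measurable_neg, big_map_neg]
  rw [e2]
  have hup : 0 < |u.det| := abs_pos.2 hu
  have e4 : big_rho = fun x => (ENNReal.ofReal (|u.det| ^ 6) • big_rho) (ys (u * sy x * uᵀ)) := by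
    funext x
    simp only [Pi.smul_apply, smul_eq_mul, big_rho]
    rw [← ENNReal.ofReal_mul (by positivity), big_dt_con, abs_mul, abs_pow]
    congr 1
    rcases eq_or_ne (dt x) 0 with h0 | h0
    · simp [h0]
    · have : 0 < |dt x| := abs_pos.2 h0
      field_simp
  have e5 : Measurable (ENNReal.ofReal (|u.det| ^ 6) • big_rho) :=
    big_rho_meas.const_smul _
  conv_lhs => rw [e4]
  rw [big_wd e5 hcm, cong3 hu, withDensity_smul_measure, withDensity_smul _ big_rho_meas, smul_smul,
    ← ENNReal.ofReal_mul (by positivity)]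
  congr 2
  field_simp

theorem big_chg_l {u : M2} (hu : u.det ≠ 0) {G : R3 → ℝ≥0∞} (hG : Measurable G) :
    ∫⁻ X, G (ys (u * (sy X)⁻¹ * uᵀ)) =
      ENNReal.ofReal (|u.det| ^ 3) * ∫⁻ W, big_rho W * G W := by
  have hm : Measurable (fun X : R3 => ys (u * (sy X)⁻¹ * uᵀ)) :=
    big_mys (big_mmul (big_mmul measurable_const (big_minv (big_msy measurable_id)))
      measurable_const)
  rw [← lintegral_map hG hm, big_chg hu, lintegral_smul_measure,
    lintegral_withDensity_eq_lintegral_mul _ big_rho_meas hG]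
  rfl

theorem big_chg_i {u : M2} (hu : u.det ≠ 0) {G : R3 → ℂ} (hG : Measurable G) :
    ∫ X, G (ys (u * (sy X)⁻¹ * uᵀ)) =
      ((|u.det| ^ 3 : ℝ) : ℂ) * ∫ W, (((|dt W| ^ 3)⁻¹ : ℝ) : ℂ) * G W := by
  have hm : Measurable (fun X : R3 => ys (u * (sy X)⁻¹ * uᵀ)) :=
    big_mys (big_mmul (big_mmul measurable_const (big_minv (big_msy measurable_id)))
      measurable_const)
  rw [← integral_map hm.aemeasurable hG.aestronglyMeasurable, big_chg hu, integral_smul_measure,
    integral_withDensity_eq_integral_toReal_smul big_rho_meas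
      (Eventually.of_forall fun x => ENNReal.ofReal_lt_top)]
  rw [ENNReal.toReal_ofReal (by positivity), Complex.real_smul]
  congr 1
  refine integral_congr_ae (Eventually.of_forall fun W => ?_)
  simp only [big_rho]
  rw [ENNReal.toReal_ofReal (by positivity), Complex.real_smul]

/-! ### the integrand in the new coordinates -/

open Classical in
/-- the indicator function of the cube -/
noncomputable def big_R (m : M2) : ℂ := if ∀ i j, |m i j| ≤ 1 then 1 else 0

theorem big_R_meas : Measurable big_R := by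
  unfold big_R
  refine Measurable.ite ?_ measurable_const measurable_const
  have e : {m : M2 | ∀ i j, |m i j| ≤ 1} = ⋂ i, ⋂ j, {m : M2 | |m i j| ≤ 1} := by
    ext m
    simp
  rw [e]
  refine MeasurableSet.iInter fun i => MeasurableSet.iInter fun j => ?_
  exact measurableSet_le ((big_ment measurable_id i j).abs) measurable_const

theorem big_R_conj (m : M2) : conj (big_R m) = big_R m := by
  unfold big_R
  split_ifs <;> simp

section
variable {N : ℕ} [Fact N.Prime] (f : S2 N)

/-- the factor which depends on `e` only -/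
noncomputable def big_A (h : ℝ → ℝ) (e : R4) : ℂ :=
  if 0 < (ma e).det then conj (ph f (ma e)) *
    ((h (ma e).det * (LEV.FUN_psi N (zz (ma e))).toReal * (ma e).det : ℝ) : ℂ) else 0

/-- the factor which depends on `e` and `W` -/
noncomputable def big_H (h : ℝ → ℝ) (C : M2) (e : R4) (W : R3) : ℂ :=
  ph f (C * PP N * ((ma e)⁻¹)ᵀ * (sy W)⁻¹) *
    ((h (C.det * N / ((ma e).det * dt W)) : ℝ) : ℂ)

/-- the new coordinates -/
noncomputable def big_W (N : ℕ) (e : R4) (X : R3) : R3 :=
  ys ((ma e)⁻¹ * PP N * (sy X)⁻¹ * ((ma e)⁻¹ * PP N)ᵀ)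

omit [Fact N.Prime] in
theorem big_PP_det : (PP N).det = N := by
  rw [Matrix.det_fin_two]
  simp [PP]

omit [Fact N.Prime] in
theorem big_PI_det : (PI N).det = (N : ℝ)⁻¹ := by
  rw [Matrix.det_fin_two]
  simp [PI]

theorem big_N_ne : (N : ℝ) ≠ 0 := by
  have := (Fact.out : N.Prime).ne_zero
  exact_mod_cast this

omit [Fact N.Prime] in
theorem big_PP_tr : (PP N)ᵀ = PP N := by
  ext i j
  fin_cases i <;> fin_cases j <;> simp [PP]

omit [Fact N.Prime] in
theorem big_ph_zero {g : M2} (hg : ¬ 0 < g.det) : ph f g = 0 := by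
  unfold ph
  rw [if_neg hg]

omit [Fact N.Prime] in
theorem big_F0_first (h : ℝ → ℝ) {e : R4} (he : 0 < (ma e).det) (y : R3) :
    F0 f h (ma e * sy y) (ma e) = ph f (ma e) * ((h (ma e).det : ℝ) : ℂ) * big_R (sy y) := by
  have h1 : (ma e)⁻¹ * (ma e * sy y) = sy y := by
    rw [← Matrix.mul_assoc, Matrix.nonsing_inv_mul _ (isUnit_iff_ne_zero.2 he.ne'), Matrix.one_mul]
  unfold F0 big_R
  rw [h1]

theorem big_F0_second (h : ℝ → ℝ) {C : M2} (hC : C.det ≠ 0) {e : R4} (he : 0 < (ma e).det)
    (X y : R3) :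
    F0 f h (C * PP N * ((ma e)⁻¹)ᵀ + C * sy X * PI N * ma e * sy y) (C * sy X * PI N * ma e) =
      big_H f h C e (big_W N e X) * big_R (sy (big_W N e X + y)) := by
  have hN := big_N_ne (N := N)
  have hN' : N ≠ 0 := (Fact.out : N.Prime).ne_zero
  have heu : IsUnit (ma e).det := isUnit_iff_ne_zero.2 he.ne'
  rcases eq_or_ne (dt X) 0 with h0 | h0
  · have h1 : (C * sy X * PI N * ma e).det = 0 := by
      rw [det_mul, det_mul, det_mul, big_sy_det, h0]
      ring
    have h2 : (sy X)⁻¹ = 0 := by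
      apply Matrix.nonsing_inv_apply_not_isUnit
      rw [big_sy_det, h0]
      simp
    have h3 : big_W N e X = 0 := by
      unfold big_W
      rw [h2, Matrix.mul_zero, Matrix.zero_mul]
      simp [ys]
    have h4 : (sy (0 : R3))⁻¹ = 0 := by
      apply Matrix.nonsing_inv_apply_not_isUnit
      rw [big_sy_zero]
      simp
    unfold F0 big_H
    rw [big_ph_zero f (by rw [h1]; exact lt_irrefl 0), h3, h4, Matrix.mul_zero,
      big_ph_zero f (by simp)]
    ring
  · have hsu : (sy X).det ≠ 0 := by rwa [big_sy_det]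
    have hsu' : IsUnit (sy X).det := isUnit_iff_ne_zero.2 hsu
    have hsW : sy (big_W N e X) = (ma e)⁻¹ * PP N * (sy X)⁻¹ * ((ma e)⁻¹ * PP N)ᵀ :=
      big_sy_con (big_inv_sym X)
    have hdi : ((ma e)⁻¹).det = ((ma e).det)⁻¹ := by
      rw [Matrix.det_nonsing_inv, Ring.inverse_eq_inv']
    have hdX : ((sy X)⁻¹).det = (dt X)⁻¹ := by
      rw [Matrix.det_nonsing_inv, Ring.inverse_eq_inv', big_sy_det]
    have hdW : dt (big_W N e X) = (N : ℝ) ^ 2 * ((ma e).det)⁻¹ ^ 2 * (dt X)⁻¹ := by
      rw [← big_sy_det, hsW, det_mul, det_mul, det_transpose, det_mul, hdi, hdX, big_PP_det]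
      ring
    have hMd : (C * sy X * PI N * ma e).det = C.det * N / ((ma e).det * dt (big_W N e X)) := by
      rw [hdW, det_mul, det_mul, det_mul, big_sy_det, big_PI_det]
      have := he.ne'
      field_simp
    have hMW : C * sy X * PI N * ma e * sy (big_W N e X) = C * PP N * ((ma e)⁻¹)ᵀ := by
      rw [hsW, transpose_mul, big_PP_tr]
      have e1 : C * sy X * PI N * ma e * ((ma e)⁻¹ * PP N * (sy X)⁻¹ * (PP N * ((ma e)⁻¹)ᵀ)) =
          C * (sy X * (PI N * (ma e * (ma e)⁻¹) * PP N) * (sy X)⁻¹) * PP N * ((ma e)⁻¹)ᵀ := by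
        simp only [Matrix.mul_assoc]
      rw [e1, Matrix.mul_nonsing_inv _ heu, Matrix.mul_one, pi_mul_pp hN', Matrix.mul_one,
        Matrix.mul_nonsing_inv _ hsu', Matrix.mul_one]
    have hWd : dt (big_W N e X) ≠ 0 := by
      rw [hdW]
      have := he.ne'
      positivity
    have hWu : IsUnit (sy (big_W N e X)).det := by
      rw [big_sy_det]
      exact isUnit_iff_ne_zero.2 hWd
    have hM : C * PP N * ((ma e)⁻¹)ᵀ * (sy (big_W N e X))⁻¹ = C * sy X * PI N * ma e := by
      rw [← hMW, Matrix.mul_assoc _ (sy (big_W N e X)), Matrix.mul_nonsing_inv _ hWu,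
        Matrix.mul_one]
    have hMu : IsUnit (C * sy X * PI N * ma e).det := by
      rw [hMd]
      have := he.ne'
      refine isUnit_iff_ne_zero.2 (div_ne_zero (mul_ne_zero hC hN) (mul_ne_zero this hWd))
    have hq : (C * sy X * PI N * ma e)⁻¹ *
        (C * PP N * ((ma e)⁻¹)ᵀ + C * sy X * PI N * ma e * sy y) = sy (big_W N e X + y) := by
      rw [← hMW, ← Matrix.mul_add, ← big_sy_add, ← Matrix.mul_assoc,
        Matrix.nonsing_inv_mul _ hMu, Matrix.one_mul]
    unfold F0 big_H big_R
    rw [hq, hM, hMd]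

theorem big_bc (h : ℝ → ℝ) {C : M2} (hC : C.det ≠ 0) (X : R3) (e : R4) (y : R3) :
    bc f h C (X, e, y) = big_A f h e * big_R (sy y) *
      (big_H f h C e (big_W N e X) * big_R (sy (big_W N e X + y))) := by
  unfold bc big_A
  simp only
  by_cases he : 0 < (ma e).det
  · rw [if_pos he, if_pos he, big_F0_first f h he, big_F0_second f h hC he, abs_of_pos he, map_mul,
      map_mul, Complex.conj_ofReal, big_R_conj]
    push_cast
    ring
  · rw [if_neg he, if_neg he]
    ring

/-! ### measurability and bounds -/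

theorem big_A_meas {h : ℝ → ℝ} (hh : HOK h) : Measurable (big_A f h) := by
  unfold big_A
  have hm : Measurable (fun e : R4 => ma e) := big_mma measurable_id
  have hd : Measurable (fun e : R4 => (ma e).det) := big_mdet hm
  refine Measurable.ite (measurableSet_lt measurable_const hd) ?_ measurable_const
  refine (Complex.continuous_conj.measurable.comp ((ph_meas f).comp hm)).mul ?_
  refine Complex.measurable_ofReal.comp (((hh.meas.comp hd).mul ?_).mul hd)
  exact (LEV.FUN_psi_meas.comp (zz_meas.comp hm)).ennreal_toReal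

theorem big_H_meas {α : Type*} [MeasurableSpace α] {E : α → R4} {W : α → R3} (hE : Measurable E)
    (hW : Measurable W) {h : ℝ → ℝ} (hh : HOK h) (C : M2) :
    Measurable (fun a => big_H f h C (E a) (W a)) := by
  unfold big_H
  have hm : Measurable (fun a => ma (E a)) := big_mma hE
  have hd : Measurable (fun a => (ma (E a)).det) := big_mdet hm
  have hW' : Measurable (fun a => dt (W a)) := big_mdt.comp hW
  refine Measurable.mul ?_ ?_
  · refine (ph_meas f).comp (big_mmul (big_mmul measurable_const (big_mtr (big_minv hm))) ?_)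
    exact big_minv (big_msy hW)
  · refine Complex.measurable_ofReal.comp (hh.meas.comp ?_)
    exact measurable_const.div (hd.mul hW')

/-- the integrand after the change of variables -/
noncomputable def big_J (h : ℝ → ℝ) (C : M2) (e : R4) (y W : R3) : ℂ :=
  big_A f h e * big_R (sy y) * (big_H f h C e W * big_R (sy (W + y)))

/-- the same, with the Jacobian -/
noncomputable def big_K (h : ℝ → ℝ) (C : M2) (z : R3 × R4 × R3) : ℂ :=
  ((|(N : ℝ) / (ma z.2.1).det| ^ 3 * (|dt z.1| ^ 3)⁻¹ : ℝ) : ℂ) * big_J f h C z.2.1 z.2.2 z.1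

theorem big_J_meas {h : ℝ → ℝ} (hh : HOK h) (C : M2) :
    Measurable (fun z : R3 × R4 × R3 => big_J f h C z.2.1 z.2.2 z.1) := by
  unfold big_J
  have m1 : Measurable (fun z : R3 × R4 × R3 => z.2.1) := measurable_snd.fst
  have m2 : Measurable (fun z : R3 × R4 × R3 => z.2.2) := measurable_snd.snd
  have m3 : Measurable (fun z : R3 × R4 × R3 => z.1) := measurable_fst
  have k1 : Measurable (fun z : R3 × R4 × R3 => big_A f h z.2.1) := (big_A_meas f hh).comp m1
  have k2 : Measurable (fun z : R3 × R4 × R3 => big_R (sy z.2.2)) := big_R_meas.comp (big_msy m2)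
  have k3 : Measurable (fun z : R3 × R4 × R3 => big_H f h C z.2.1 z.1) :=
    big_H_meas f m1 m3 hh C
  have k4 : Measurable (fun z : R3 × R4 × R3 => big_R (sy (z.1 + z.2.2))) :=
    big_R_meas.comp (big_msy (m3.add m2))
  exact (k1.mul k2).mul (k3.mul k4)

theorem big_K_meas {h : ℝ → ℝ} (hh : HOK h) (C : M2) : Measurable (big_K f h C) := by
  unfold big_K
  refine Measurable.mul (Complex.measurable_ofReal.comp (Measurable.mul ?_ ?_)) (big_J_meas f hh C)
  · exact (measurable_const.div (big_mdet (big_mma measurable_snd.fst))).abs.pow_const 3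
  · exact ((big_mdt.comp measurable_fst).abs.pow_const 3).inv

/-- the majorant on the matrices -/
noncomputable def big_g (N : ℕ) [Fact N.Prime] (t0 t1 : ℝ) (e : R4) : ℝ≥0∞ :=
  if 0 < (ma e).det then (Set.Icc t0 t1).indicator (fun _ => 1) (ma e).det *
    LEV.FUN_psi N (zz (ma e)) else 0

theorem big_g_meas (t0 t1 : ℝ) : Measurable (big_g N t0 t1) := by
  unfold big_g
  have hm : Measurable (fun e : R4 => ma e) := big_mma measurable_id
  have hd : Measurable (fun e : R4 => (ma e).det) := big_mdet hm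
  refine Measurable.ite (measurableSet_lt measurable_const hd) (Measurable.mul ?_ ?_)
    measurable_const
  · exact (measurable_const.indicator measurableSet_Icc).comp hd
  · exact LEV.FUN_psi_meas.comp (zz_meas.comp hm)

theorem big_g_int (t0 t1 : ℝ) : ∫⁻ e, big_g N t0 t1 e < ⊤ := by
  unfold big_g
  rw [cov (G := (Set.Icc t0 t1).indicator (fun _ => 1)) (measurable_const.indicator
    measurableSet_Icc) (Ψ := LEV.FUN_psi N) LEV.FUN_psi_meas]
  refine ENNReal.mul_lt_top (ENNReal.mul_lt_top ENNReal.ofReal_lt_top LEV.FUN_psi_int) ?_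
  calc ∫⁻ t in Set.Ioi (0 : ℝ), (Set.Icc t0 t1).indicator (fun _ => (1 : ℝ≥0∞)) t *
        ENNReal.ofReal t
      ≤ ∫⁻ t, (Set.Icc t0 t1).indicator (fun _ => (1 : ℝ≥0∞)) t * ENNReal.ofReal t :=
        setLIntegral_le_lintegral _ _
    _ ≤ ∫⁻ t, (Set.Icc t0 t1).indicator (fun _ => ENNReal.ofReal t1) t := by
        refine lintegral_mono fun t => ?_
        by_cases ht : t ∈ Set.Icc t0 t1
        · simp only [Set.indicator_of_mem ht, one_mul]
          exact ENNReal.ofReal_le_ofReal ht.2
        · simp only [Set.indicator_of_notMem ht, zero_mul, le_refl]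
    _ < ⊤ := by
        rw [lintegral_indicator measurableSet_Icc, setLIntegral_const]
        exact ENNReal.mul_lt_top ENNReal.ofReal_lt_top (by simp)

theorem big_g_ig (t0 t1 : ℝ) : Integrable (fun e => (big_g N t0 t1 e).toReal) :=
  integrable_toReal_of_lintegral_ne_top (big_g_meas t0 t1).aemeasurable (big_g_int t0 t1).ne

theorem big_psi_ne (z : ℍ) : LEV.FUN_psi N z ≠ ⊤ := by
  have h := LEV.FUN_psi_le (N := N) z
  refine ne_top_of_le_ne_top ?_ h
  exact ENNReal.add_ne_top.2 ⟨ENNReal.natCast_ne_top N, ENNReal.one_ne_top⟩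

theorem big_g_val {t0 t1 : ℝ} {e : R4} (he : 0 < (ma e).det) (h1 : t0 ≤ (ma e).det)
    (h2 : (ma e).det ≤ t1) :
    (big_g N t0 t1 e).toReal = (LEV.FUN_psi N (zz (ma e))).toReal := by
  unfold big_g
  have hm : (ma e).det ∈ Set.Icc t0 t1 := Set.mem_Icc.2 ⟨h1, h2⟩
  rw [if_pos he, Set.indicator_of_mem hm, one_mul]

theorem big_R_supp {x : R3} (hx : big_R (sy x) ≠ 0) : ‖x‖ ≤ 1 := by
  unfold big_R at hx
  by_cases h : ∀ i j, |sy x i j| ≤ 1
  · have h1 := h 0 0
    have h2 := h 0 1
    have h3 := h 1 1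
    simp only [sy, Matrix.of_apply, Matrix.cons_val', Matrix.cons_val_zero, Matrix.cons_val_one,
      Matrix.cons_val_fin_one] at h1 h2 h3
    rw [Prod.norm_def, Prod.norm_def]
    exact max_le h1 (max_le h2 h3)
  · rw [if_neg h] at hx
    exact absurd rfl hx

theorem big_R_le (m : M2) : ‖big_R m‖ ≤ 1 := by
  unfold big_R
  split_ifs <;> simp

theorem big_K_bound {h : ℝ → ℝ} (hh : HOK h) {C : M2} (hC : C.det ≠ 0) :
    ∃ t0 t1 Kc : ℝ, 0 ≤ Kc ∧ ∀ (W : R3) (e : R4) (y : R3), ‖big_K f h C (W, e, y)‖ ≤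
      ((Metric.closedBall (0 : R3) 2).indicator (fun _ => Kc) W) *
        ((big_g N t0 t1 e).toReal * (Metric.closedBall (0 : R3) 1).indicator (fun _ => 1) y) := by
  obtain ⟨Cf, hCf, hbd⟩ := ph_bd f
  obtain ⟨B0, hB0⟩ := hh.bdd
  obtain ⟨t0, t1, ht0, hsupp⟩ := hh.supp
  have hN : 0 < (N : ℝ) := by
    have := (Fact.out : N.Prime).pos
    exact_mod_cast this
  set B := max B0 0 with hB
  have hBn : 0 ≤ B := le_max_right _ _
  have hB1 : ∀ t, |h t| ≤ B := fun t => (hB0 t).trans (le_max_left _ _)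
  set T := |t1| with hT
  set D := |C.det| * N with hD
  have hDp : 0 < D := mul_pos (abs_pos.2 hC) hN
  refine ⟨t0, t1, (N / t0) ^ 3 * (T ^ 2 / D) ^ 3 * (Cf * (B * T) * (Cf * B)), by positivity, ?_⟩
  intro W e y
  have hrhs : 0 ≤ ((Metric.closedBall (0 : R3) 2).indicator (fun _ =>
      (N / t0) ^ 3 * (T ^ 2 / D) ^ 3 * (Cf * (B * T) * (Cf * B))) W) *
        ((big_g N t0 t1 e).toReal * (Metric.closedBall (0 : R3) 1).indicator (fun _ => 1) y) := by
    refine mul_nonneg (Set.indicator_nonneg (fun _ _ => by positivity) _)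
      (mul_nonneg ENNReal.toReal_nonneg (Set.indicator_nonneg (fun _ _ => by norm_num) _))
  by_cases hK : big_K f h C (W, e, y) = 0
  · rw [hK, norm_zero]
    exact hrhs
  unfold big_K big_J big_A big_H at hK
  simp only at hK
  have he : 0 < (ma e).det := by
    by_contra hcon
    apply hK
    rw [if_neg hcon]
    ring
  rw [if_pos he] at hK
  have hy : ‖y‖ ≤ 1 := by
    apply big_R_supp
    intro h0
    apply hK
    rw [h0]
    ring
  have hWy : ‖W + y‖ ≤ 1 := by
    apply big_R_supp
    intro h0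
    apply hK
    rw [h0]
    ring
  have hW : ‖W‖ ≤ 2 := by
    have h1 : W = (W + y) - y := by abel
    rw [h1]
    refine (norm_sub_le _ _).trans ?_
    linarith
  have hh1 : h (ma e).det ≠ 0 := by
    intro h0
    apply hK
    rw [h0]
    push_cast
    ring
  have hh2 : h (C.det * N / ((ma e).det * dt W)) ≠ 0 := by
    intro h0
    apply hK
    rw [h0]
    push_cast
    ring
  obtain ⟨e1, e2⟩ := hsupp _ hh1
  obtain ⟨e3, e4⟩ := hsupp _ hh2
  have ht1 : 0 < t1 := lt_of_lt_of_le he e2
  have hTt : T = t1 := abs_of_pos ht1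
  have hW0 : dt W ≠ 0 := by
    intro h0
    rw [h0, mul_zero, div_zero] at e3
    linarith
  have hWp : 0 < |dt W| := abs_pos.2 hW0
  have e5 : D / ((ma e).det * |dt W|) ≤ t1 := by
    have h1 : |C.det * N / ((ma e).det * dt W)| ≤ t1 := by
      rw [abs_of_nonneg (ht0.le.trans e3)]
      exact e4
    rwa [abs_div, abs_mul, abs_mul, abs_of_pos he, abs_of_pos hN] at h1
  have e6 : |dt W|⁻¹ ≤ T ^ 2 / D := by
    rw [hTt]
    rw [div_le_iff₀ (by positivity)] at e5
    rw [inv_eq_one_div, div_le_div_iff₀ hWp hDp, one_mul]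
    nlinarith
  have e7 : |(N : ℝ) / (ma e).det| ≤ N / t0 := by
    rw [abs_of_pos (by positivity)]
    exact div_le_div_of_nonneg_left hN.le ht0 e1
  rw [Set.indicator_of_mem (by rw [mem_closedBall_zero_iff]; exact hW),
    Set.indicator_of_mem (by rw [mem_closedBall_zero_iff]; exact hy), mul_one,
    big_g_val he e1 e2]
  unfold big_K big_J big_A big_H
  simp only
  rw [if_pos he]
  set ps := (LEV.FUN_psi N (zz (ma e))).toReal with hps
  have hpn : 0 ≤ ps := ENNReal.toReal_nonneg
  rw [norm_mul, norm_mul, norm_mul, norm_mul, norm_mul, norm_mul, Complex.norm_real,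
    Complex.norm_real, Complex.norm_real, Complex.norm_conj]
  have n1 : ‖|(N : ℝ) / (ma e).det| ^ 3 * (|dt W| ^ 3)⁻¹‖ ≤ (N / t0) ^ 3 * (T ^ 2 / D) ^ 3 := by
    rw [Real.norm_of_nonneg (by positivity), ← inv_pow]
    gcongr
  have n2 : ‖h (ma e).det * ps * (ma e).det‖ ≤ B * T * ps := by
    rw [Real.norm_eq_abs, abs_mul, abs_mul, abs_of_nonneg hpn, abs_of_pos he]
    have := hB1 (ma e).det
    rw [hTt]
    calc |h (ma e).det| * ps * (ma e).det ≤ B * ps * t1 := by gcongr
      _ = B * t1 * ps := by ring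
  have n3 : ‖h (C.det * N / ((ma e).det * dt W))‖ ≤ B := hB1 _
  have n4 := hbd (ma e)
  have n5 := hbd (C * PP N * ((ma e)⁻¹)ᵀ * (sy W)⁻¹)
  have n6 := big_R_le (sy y)
  have n7 := big_R_le (sy (W + y))
  calc _ ≤ ((N / t0) ^ 3 * (T ^ 2 / D) ^ 3) * ((Cf * (B * T * ps)) * 1 * ((Cf * B) * 1)) := by
        gcongr
    _ = _ := by ring

theorem big_K_int {h : ℝ → ℝ} (hh : HOK h) {C : M2} (hC : C.det ≠ 0) :
    Integrable (big_K f h C) := by
  obtain ⟨t0, t1, Kc, hKc, hb⟩ := big_K_bound f hh hC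
  have i1 : Integrable ((Metric.closedBall (0 : R3) 2).indicator (fun _ => Kc)) := by
    rw [integrable_indicator_iff measurableSet_closedBall]
    exact integrableOn_const (measure_closedBall_lt_top.ne)
  have i2 : Integrable ((Metric.closedBall (0 : R3) 1).indicator (fun _ => (1 : ℝ))) := by
    rw [integrable_indicator_iff measurableSet_closedBall]
    exact integrableOn_const (measure_closedBall_lt_top.ne)
  have i3 := (big_g_ig (N := N) t0 t1).mul_prod i2
  have i4 := i1.mul_prod i3
  refine Integrable.mono' i4 (big_K_meas f hh C).aestronglyMeasurable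
    (Eventually.of_forall fun z => ?_)
  exact hb z.1 z.2.1 z.2.2

omit [Fact N.Prime] in
theorem big_u_det {e : R4} : ((ma e)⁻¹ * PP N).det = N / (ma e).det := by
  rw [det_mul, Matrix.det_nonsing_inv, Ring.inverse_eq_inv', big_PP_det]
  ring

omit [Fact N.Prime] in
theorem big_W_meas {e : R4} : Measurable (big_W N e) := by
  unfold big_W
  exact big_mys (big_mmul (big_mmul measurable_const (big_minv (big_msy measurable_id)))
      measurable_const)

theorem big_bc_J (h : ℝ → ℝ) {C : M2} (hC : C.det ≠ 0) (X : R3) (e : R4) (y : R3) :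
    bc f h C (X, e, y) = big_J f h C e y (big_W N e X) := by
  rw [big_bc f h hC]
  rfl

theorem big_J_meas1 {h : ℝ → ℝ} (hh : HOK h) (C : M2) (e : R4) (y : R3) :
    Measurable (big_J f h C e y) := by
  have h1 : Measurable (fun W : R3 => ((W, e, y) : R3 × R4 × R3)) := measurable_id.prodMk
    measurable_const
  have h2 := (big_J_meas f hh C).comp h1
  simpa only [Function.comp_def] using h2

theorem big_fib_l {h : ℝ → ℝ} (hh : HOK h) {C : M2} (hC : C.det ≠ 0) (e : R4) (y : R3) :
    ∫⁻ X, ‖bc f h C (X, e, y)‖ₑ = ∫⁻ W, ‖big_K f h C (W, e, y)‖ₑ := by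
  simp only [big_bc_J f h hC]
  by_cases he : 0 < (ma e).det
  · have hu : ((ma e)⁻¹ * PP N).det ≠ 0 := by
      rw [big_u_det]
      exact div_ne_zero big_N_ne he.ne'
    have h1 := big_chg_l hu (G := fun W => ‖big_J f h C e y W‖ₑ) (big_J_meas1 f hh C e y).enorm
    have h2 : ∀ X, big_W N e X = ys ((ma e)⁻¹ * PP N * (sy X)⁻¹ * ((ma e)⁻¹ * PP N)ᵀ) :=
      fun X => rfl
    have h3 : Measurable (fun W => big_rho W * ‖big_J f h C e y W‖ₑ) :=
      big_rho_meas.mul (big_J_meas1 f hh C e y).enorm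
    simp only [h2]
    rw [h1, ← lintegral_const_mul _ h3]
    refine lintegral_congr fun W => ?_
    unfold big_K
    simp only
    rw [enorm_mul, ← mul_assoc, big_u_det]
    congr 1
    rw [← ofReal_norm, Complex.norm_real, Real.norm_of_nonneg (by positivity),
      ENNReal.ofReal_mul (by positivity)]
    rfl
  · have h1 : ∀ W, big_J f h C e y W = 0 := by
      intro W
      unfold big_J big_A
      rw [if_neg he]
      ring
    unfold big_K
    simp only [h1, mul_zero]

theorem big_fib_i {h : ℝ → ℝ} (hh : HOK h) {C : M2} (hC : C.det ≠ 0) (e : R4) (y : R3) :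
    ∫ X, bc f h C (X, e, y) = ∫ W, big_K f h C (W, e, y) := by
  simp only [big_bc_J f h hC]
  by_cases he : 0 < (ma e).det
  · have hu : ((ma e)⁻¹ * PP N).det ≠ 0 := by
      rw [big_u_det]
      exact div_ne_zero big_N_ne he.ne'
    have h1 := big_chg_i hu (big_J_meas1 f hh C e y)
    have h2 : ∀ X, big_W N e X = ys ((ma e)⁻¹ * PP N * (sy X)⁻¹ * ((ma e)⁻¹ * PP N)ᵀ) :=
      fun X => rfl
    simp only [h2]
    rw [h1, ← integral_const_mul]
    refine integral_congr_ae (Eventually.of_forall fun W => ?_)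
    unfold big_K
    simp only
    rw [big_u_det]
    push_cast
    ring
  · have h1 : ∀ W, big_J f h C e y W = 0 := by
      intro W
      unfold big_J big_A
      rw [if_neg he]
      ring
    unfold big_K
    simp only [h1, mul_zero]

theorem big_F0_meas {α : Type*} [MeasurableSpace α] {c e : α → M2} (hc : Measurable c)
    (he : Measurable e) {h : ℝ → ℝ} (hh : HOK h) : Measurable (fun a => F0 f h (c a) (e a)) := by
  have h1 : Measurable (fun a => big_R ((e a)⁻¹ * c a)) :=
    big_R_meas.comp (big_mmul (big_minv he) hc)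
  have h2 : Measurable (fun a => ph f (e a)) := (ph_meas f).comp he
  have h3 : Measurable (fun a => ((h (e a).det : ℝ) : ℂ)) :=
    Complex.measurable_ofReal.comp (hh.meas.comp (big_mdet he))
  exact (h2.mul h3).mul h1

theorem big_bc_meas {h : ℝ → ℝ} (hh : HOK h) (C : M2) : Measurable (bc f h C) := by
  unfold bc
  have m1 : Measurable (fun z : R3 × R4 × R3 => ma z.2.1) := big_mma measurable_snd.fst
  have m2 : Measurable (fun z : R3 × R4 × R3 => sy z.2.2) := big_msy measurable_snd.snd
  have m3 : Measurable (fun z : R3 × R4 × R3 => sy z.1) := big_msy measurable_fst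
  have md : Measurable (fun z : R3 × R4 × R3 => (ma z.2.1).det) := big_mdet m1
  have k1 : Measurable (fun z : R3 × R4 × R3 => if 0 < (ma z.2.1).det then (1 : ℂ) else 0) :=
    Measurable.ite (measurableSet_lt measurable_const md) measurable_const measurable_const
  have k2 : Measurable (fun z : R3 × R4 × R3 =>
      conj (F0 f h (ma z.2.1 * sy z.2.2) (ma z.2.1))) :=
    Complex.continuous_conj.measurable.comp (big_F0_meas f (big_mmul m1 m2) m1 hh)
  have k4 : Measurable (fun z : R3 × R4 × R3 => C * sy z.1 * PI N * ma z.2.1) :=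
    big_mmul (big_mmul (big_mmul measurable_const m3) measurable_const) m1
  have k5 : Measurable (fun z : R3 × R4 × R3 => C * PP N * ((ma z.2.1)⁻¹)ᵀ) :=
    big_mmul measurable_const (big_mtr (big_minv m1))
  have k3 : Measurable (fun z : R3 × R4 × R3 =>
      F0 f h (C * PP N * ((ma z.2.1)⁻¹)ᵀ + C * sy z.1 * PI N * ma z.2.1 * sy z.2.2)
      (C * sy z.1 * PI N * ma z.2.1)) :=
    big_F0_meas f (big_madd k5 (big_mmul k4 m2)) k4 hh
  have k6 : Measurable (fun z : R3 × R4 × R3 =>
      (((LEV.FUN_psi N (zz (ma z.2.1))).toReal : ℝ) : ℂ)) :=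
    Complex.measurable_ofReal.comp (LEV.FUN_psi_meas.comp (zz_meas.comp m1)).ennreal_toReal
  have k7 : Measurable (fun z : R3 × R4 × R3 => ((|(ma z.2.1).det| : ℝ) : ℂ)) :=
    Complex.measurable_ofReal.comp md.abs
  exact (((k1.mul k2).mul k3).mul k6).mul k7

theorem big_bc_int {h : ℝ → ℝ} (hh : HOK h) {C : M2} (hC : C.det ≠ 0) :
    Integrable (bc f h C) := by
  refine ⟨(big_bc_meas f hh C).aestronglyMeasurable, ?_⟩
  have hK := (big_K_int f hh hC).2
  unfold HasFiniteIntegral at hK ⊢
  rw [show (volume : Measure (R3 × R4 × R3)) = (volume : Measure R3).prod volume from rfl] at hK ⊢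
  rw [lintegral_prod_symm _ (big_bc_meas f hh C).enorm.aemeasurable]
  rw [lintegral_prod_symm _ (big_K_meas f hh C).enorm.aemeasurable] at hK
  have e1 : (fun p : R4 × R3 => ∫⁻ X : R3, ‖bc f h C (X, p)‖ₑ) =
      fun p : R4 × R3 => ∫⁻ W : R3, ‖big_K f h C (W, p)‖ₑ := by
    funext p
    exact big_fib_l f hh hC p.1 p.2
  rw [e1]
  exact hK

theorem big_bc_K {h : ℝ → ℝ} (hh : HOK h) {C : M2} (hC : C.det ≠ 0) :
    ∫ w, bc f h C w = ∫ W : R3, ∫ p : R4 × R3, big_K f h C (W, p) := by
  have hi := big_bc_int f hh hC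
  have hK := big_K_int f hh hC
  rw [show (volume : Measure (R3 × R4 × R3)) = (volume : Measure R3).prod volume from rfl] at hi hK ⊢
  rw [integral_prod_symm _ hi, ← integral_prod _ hK, integral_prod_symm _ hK]
  refine integral_congr_ae (Eventually.of_forall fun p => ?_)
  exact big_fib_i f hh hC p.1 p.2

/-! ### the integral over `y` -/

theorem big_seg (w : ℝ) : ∫ s : ℝ, (Set.Icc (-1 : ℝ) 1 ∩ Set.Icc (-1 - w) (1 - w)).indicator
    (fun _ => (1 : ℂ)) s = ((max 0 (2 - |w|) : ℝ) : ℂ) := by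
  rw [integral_indicator (measurableSet_Icc.inter measurableSet_Icc), Set.Icc_inter_Icc,
    setIntegral_const, Measure.real, Real.volume_Icc, Complex.real_smul, mul_one,
    ENNReal.toReal_ofReal']
  congr 1
  rw [max_comm 0]
  congr 1
  rcases le_total 0 w with h | h
  · rw [abs_of_nonneg h, sup_eq_left.2 (by linarith), inf_eq_right.2 (by linarith)]
    ring
  · rw [abs_of_nonpos h, sup_eq_right.2 (by linarith), inf_eq_left.2 (by linarith)]
    ring

theorem big_RR (W y : R3) : big_R (sy y) * big_R (sy (W + y)) =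
    (Set.Icc (-1 : ℝ) 1 ∩ Set.Icc (-1 - W.1) (1 - W.1)).indicator (fun _ => (1 : ℂ)) y.1 *
    ((Set.Icc (-1 : ℝ) 1 ∩ Set.Icc (-1 - W.2.1) (1 - W.2.1)).indicator (fun _ => (1 : ℂ)) y.2.1 *
    (Set.Icc (-1 : ℝ) 1 ∩ Set.Icc (-1 - W.2.2) (1 - W.2.2)).indicator (fun _ => (1 : ℂ)) y.2.2) := by
  have h1 : ∀ x : R3, (∀ i j, |sy x i j| ≤ 1) ↔ |x.1| ≤ 1 ∧ |x.2.1| ≤ 1 ∧ |x.2.2| ≤ 1 := by
    intro x
    constructor
    · intro h
      have h1 := h 0 0
      have h2 := h 0 1
      have h3 := h 1 1
      simp only [sy, Matrix.of_apply, Matrix.cons_val', Matrix.cons_val_zero, Matrix.cons_val_one,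
        Matrix.cons_val_fin_one] at h1 h2 h3
      exact ⟨h1, h2, h3⟩
    · rintro ⟨h1, h2, h3⟩ i j
      fin_cases i <;> fin_cases j <;> simp [sy, h1, h2, h3]
  have h2 : ∀ w s : ℝ, (|s| ≤ 1 ∧ |w + s| ≤ 1) ↔
      s ∈ Set.Icc (-1 : ℝ) 1 ∩ Set.Icc (-1 - w) (1 - w) := by
    intro w s
    rw [abs_le, abs_le, Set.mem_inter_iff, Set.mem_Icc, Set.mem_Icc]
    constructor
    · rintro ⟨⟨a, b⟩, c, d⟩
      exact ⟨⟨a, b⟩, by linarith, by linarith⟩
    · rintro ⟨⟨a, b⟩, c, d⟩
      exact ⟨⟨a, b⟩, by linarith, by linarith⟩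
  unfold big_R
  simp only [h1, Set.indicator_apply, ← h2, Prod.fst_add, Prod.snd_add]
  by_cases a1 : |y.1| ≤ 1 <;> by_cases a2 : |y.2.1| ≤ 1 <;> by_cases a3 : |y.2.2| ≤ 1 <;>
    by_cases b1 : |W.1 + y.1| ≤ 1 <;> by_cases b2 : |W.2.1 + y.2.1| ≤ 1 <;>
    by_cases b3 : |W.2.2 + y.2.2| ≤ 1 <;> simp [a1, a2, a3, b1, b2, b3]

theorem big_kk (W : R3) : ∫ y : R3, big_R (sy y) * big_R (sy (W + y)) = ((kk W : ℝ) : ℂ) := by
  simp only [big_RR]
  rw [show (volume : Measure R3) = (volume : Measure ℝ).prod ((volume : Measure ℝ).prod volume)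
    from rfl]
  rw [integral_prod_mul (fun s : ℝ => (Set.Icc (-1 : ℝ) 1 ∩ Set.Icc (-1 - W.1) (1 - W.1)).indicator
      (fun _ => (1 : ℂ)) s) (fun q : ℝ × ℝ => (Set.Icc (-1 : ℝ) 1 ∩
      Set.Icc (-1 - W.2.1) (1 - W.2.1)).indicator (fun _ => (1 : ℂ)) q.1 *
      (Set.Icc (-1 : ℝ) 1 ∩ Set.Icc (-1 - W.2.2) (1 - W.2.2)).indicator (fun _ => (1 : ℂ)) q.2)]
  rw [integral_prod_mul (fun s : ℝ => (Set.Icc (-1 : ℝ) 1 ∩
      Set.Icc (-1 - W.2.1) (1 - W.2.1)).indicator (fun _ => (1 : ℂ)) s) (fun s : ℝ =>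
      (Set.Icc (-1 : ℝ) 1 ∩ Set.Icc (-1 - W.2.2) (1 - W.2.2)).indicator (fun _ => (1 : ℂ)) s)]
  rw [big_seg, big_seg, big_seg]
  unfold kk
  push_cast
  ring

/-! ### the rotation -/

omit [Fact N.Prime] in
theorem big_kt_det (t : ℝ) : (kt t).det = 1 := by
  rw [Matrix.det_fin_two]
  simp only [kt, Matrix.of_apply, Matrix.cons_val', Matrix.cons_val_zero, Matrix.cons_val_one,
    Matrix.cons_val_fin_one]
  have := Real.sin_sq_add_cos_sq t
  nlinarith

omit [Fact N.Prime] in
theorem big_kt_inv (t : ℝ) : ((kt t)⁻¹)ᵀ = kt t := by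
  have h : (kt t)⁻¹ = (kt t)ᵀ := by
    refine Matrix.inv_eq_left_inv ?_
    have := Real.sin_sq_add_cos_sq t
    ext i j
    fin_cases i <;> fin_cases j <;>
      simp [kt, Matrix.mul_apply, Fin.sum_univ_two] <;> nlinarith
  rw [h, transpose_transpose]

omit [Fact N.Prime] in
theorem big_zz_kt (g : M2) (t : ℝ) : zz (g * kt t) = zz g := by
  unfold zz
  congr 1
  have e1 : (((g * kt t) 0 0 : ℝ) : ℂ) * Complex.I + (((g * kt t) 0 1 : ℝ) : ℂ) =
      (((g 0 0 : ℝ) : ℂ) * Complex.I + ((g 0 1 : ℝ) : ℂ)) *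
        (Complex.cos t - Complex.sin t * Complex.I) := by
    simp only [Matrix.mul_apply, Fin.sum_univ_two, kt, Matrix.of_apply, Matrix.cons_val',
      Matrix.cons_val_zero, Matrix.cons_val_one, Matrix.cons_val_fin_one]
    push_cast
    linear_combination ((g 0 0 : ℂ) * Complex.sin t) * Complex.I_sq
  have e2 : (((g * kt t) 1 0 : ℝ) : ℂ) * Complex.I + (((g * kt t) 1 1 : ℝ) : ℂ) =
      (((g 1 0 : ℝ) : ℂ) * Complex.I + ((g 1 1 : ℝ) : ℂ)) *
        (Complex.cos t - Complex.sin t * Complex.I) := by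
    simp only [Matrix.mul_apply, Fin.sum_univ_two, kt, Matrix.of_apply, Matrix.cons_val',
      Matrix.cons_val_zero, Matrix.cons_val_one, Matrix.cons_val_fin_one]
    push_cast
    linear_combination ((g 1 0 : ℂ) * Complex.sin t) * Complex.I_sq
  have e3 : Complex.cos t - Complex.sin t * Complex.I ≠ 0 := by
    have h : Complex.cos t - Complex.sin t * Complex.I = Complex.exp (-(t : ℂ) * Complex.I) := by
      rw [Complex.exp_mul_I, Complex.cos_neg, Complex.sin_neg]
      ring
    rw [h]
    exact Complex.exp_ne_zero _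
  rw [e1, e2, mul_div_mul_right _ _ e3]

/-- the scalar factor -/
noncomputable def big_S (N : ℕ) [Fact N.Prime] (h : ℝ → ℝ) (C : M2) (W : R3) (g : M2) : ℂ :=
  ((h g.det * h (C.det * N / (g.det * dt W)) * (LEV.FUN_psi N (zz g)).toReal / g.det ^ 2 : ℝ) : ℂ)

/-- the integrand for fixed `W` -/
noncomputable def big_L (h : ℝ → ℝ) (C : M2) (W : R3) (g : M2) : ℂ :=
  if 0 < g.det then conj (ph f g) * ph f (C * PP N * (g⁻¹)ᵀ * (sy W)⁻¹) * big_S N h C W g else 0

/-- the integrand after a rotation -/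
noncomputable def big_Q (h : ℝ → ℝ) (C : M2) (W : R3) (t : ℝ) (g : M2) : ℂ :=
  if 0 < g.det then conj (ph f g) * ph f (C * PP N * (g⁻¹)ᵀ * kt t * (sy W)⁻¹) *
    big_S N h C W g else 0

theorem big_L_kt (h : ℝ → ℝ) (C : M2) (W : R3) (t : ℝ) (g : M2) :
    big_L f h C W (g * kt t) = Complex.exp (-(2 * Complex.I * t)) * big_Q f h C W t g := by
  have hd : (g * kt t).det = g.det := by rw [det_mul, big_kt_det, mul_one]
  have hi : ((g * kt t)⁻¹)ᵀ = (g⁻¹)ᵀ * kt t := by
    rw [Matrix.mul_inv_rev, transpose_mul, big_kt_inv]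
  have hS : big_S N h C W (g * kt t) = big_S N h C W g := by
    unfold big_S
    rw [hd, big_zz_kt]
  unfold big_L big_Q
  rw [hd, hi, hS, ph_kt, map_mul, ← Complex.exp_conj]
  have e1 : (starRingEnd ℂ) (2 * Complex.I * t) = -(2 * Complex.I * t) := by
    simp only [map_mul, Complex.conj_I, Complex.conj_ofReal, map_ofNat]
    ring
  rw [e1, ← Matrix.mul_assoc (C * PP N)]
  split_ifs
  · ring
  · ring

theorem big_S_meas {α : Type*} [MeasurableSpace α] {G : α → M2} (hG : Measurable G) {h : ℝ → ℝ}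
    (hh : HOK h) (C : M2) (W : R3) : Measurable (fun a => big_S N h C W (G a)) := by
  unfold big_S
  have hd := big_mdet hG
  refine Complex.measurable_ofReal.comp ((((hh.meas.comp hd).mul (hh.meas.comp ?_)).mul ?_).div
    (hd.pow_const 2))
  · exact measurable_const.div (hd.mul measurable_const)
  · exact (LEV.FUN_psi_meas.comp (zz_meas.comp hG)).ennreal_toReal

theorem big_Q_meas {α : Type*} [MeasurableSpace α] {G : α → M2} {T : α → ℝ} (hG : Measurable G)
    (hT : Measurable T) {h : ℝ → ℝ} (hh : HOK h) (C : M2) (W : R3) :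
    Measurable (fun a => big_Q f h C W (T a) (G a)) := by
  unfold big_Q
  have hd := big_mdet hG
  refine Measurable.ite (measurableSet_lt measurable_const hd) ?_ measurable_const
  refine Measurable.mul (Measurable.mul ?_ ?_) (big_S_meas hG hh C W)
  · exact Complex.continuous_conj.measurable.comp ((ph_meas f).comp hG)
  · refine (ph_meas f).comp (big_mmul (big_mmul (big_mmul measurable_const
      (big_mtr (big_minv hG))) (big_mkt.comp hT)) measurable_const)

theorem big_L_meas {α : Type*} [MeasurableSpace α] {G : α → M2} (hG : Measurable G)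
    {h : ℝ → ℝ} (hh : HOK h) (C : M2) (W : R3) :
    Measurable (fun a => big_L f h C W (G a)) := by
  unfold big_L
  have hd := big_mdet hG
  refine Measurable.ite (measurableSet_lt measurable_const hd) ?_ measurable_const
  refine Measurable.mul (Measurable.mul ?_ ?_) (big_S_meas hG hh C W)
  · exact Complex.continuous_conj.measurable.comp ((ph_meas f).comp hG)
  · refine (ph_meas f).comp (big_mmul (big_mmul measurable_const
      (big_mtr (big_minv hG))) measurable_const)

theorem big_Q_bound {h : ℝ → ℝ} (hh : HOK h) (C : M2) (W : R3) :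
    ∃ t0 t1 Kc : ℝ, 0 ≤ Kc ∧ ∀ (t : ℝ) (e : R4), ‖big_Q f h C W t (ma e)‖ ≤
      Kc * (big_g N t0 t1 e).toReal := by
  obtain ⟨Cf, hCf, hbd⟩ := ph_bd f
  obtain ⟨B0, hB0⟩ := hh.bdd
  obtain ⟨t0, t1, ht0, hsupp⟩ := hh.supp
  set B := max B0 0 with hB
  have hBn : 0 ≤ B := le_max_right _ _
  have hB1 : ∀ t, |h t| ≤ B := fun t => (hB0 t).trans (le_max_left _ _)
  refine ⟨t0, t1, Cf * Cf * (B * B / t0 ^ 2), by positivity, ?_⟩
  intro t e
  unfold big_Q big_S
  by_cases he : 0 < (ma e).det
  · rw [if_pos he]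
    by_cases h0 : h (ma e).det = 0
    · rw [h0]
      simp only [zero_mul, zero_div, Complex.ofReal_zero, mul_zero, norm_zero]
      positivity
    · obtain ⟨e1, e2⟩ := hsupp _ h0
      rw [big_g_val he e1 e2, norm_mul, norm_mul, Complex.norm_conj, Complex.norm_real]
      set ps := (LEV.FUN_psi N (zz (ma e))).toReal with hps
      have hpn : 0 ≤ ps := ENNReal.toReal_nonneg
      have n1 : ‖h (ma e).det * h (C.det * N / ((ma e).det * dt W)) * ps / (ma e).det ^ 2‖ ≤
          B * B / t0 ^ 2 * ps := by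
        rw [Real.norm_eq_abs, abs_div, abs_mul, abs_mul, abs_of_nonneg hpn,
          abs_of_pos (pow_pos he 2)]
        have h1 := hB1 (ma e).det
        have h2 := hB1 (C.det * N / ((ma e).det * dt W))
        calc _ ≤ B * B * ps / t0 ^ 2 := by gcongr
          _ = _ := by ring
      have n4 := hbd (ma e)
      have n5 := hbd (C * PP N * ((ma e)⁻¹)ᵀ * kt t * (sy W)⁻¹)
      calc _ ≤ Cf * Cf * (B * B / t0 ^ 2 * ps) := by gcongr
        _ = _ := by ring
  · rw [if_neg he, norm_zero]
    positivity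

theorem big_rot {h : ℝ → ℝ} (hh : HOK h) (C : M2) {W : R3} (hW : dt W ≠ 0) :
    ∫ e : R4, big_L f h C W (ma e) =
      (((if 0 < dt W then 4 * dt W / tr W ^ 2 else 0 : ℝ)) : ℂ) * bi f h C W := by
  obtain ⟨t0, t1, Kc, hKc, hb⟩ := big_Q_bound f hh C W
  have hmm : Measurable (fun e : R4 => ma e) := big_mma measurable_id
  have hLm : Measurable (fun e : R4 => big_L f h C W (ma e)) := big_L_meas f hmm hh C W
  -- rotation invariance
  have h1 : ∀ t : ℝ, ∫ e : R4, big_L f h C W (ma e) =
      ∫ e : R4, Complex.exp (-(2 * Complex.I * t)) * big_Q f h C W t (ma e) := by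
    intro t
    have hk : (kt t).det ≠ 0 := by rw [big_kt_det]; norm_num
    have h2 := lin4r hk
    rw [big_kt_det, abs_one, one_pow, inv_one, ENNReal.ofReal_one, one_smul] at h2
    have hm : Measurable (fun e : R4 => am (ma e * kt t)) := by
      have h3 := big_mmul hmm (measurable_const (a := kt t))
      exact (big_ment h3 0 0).prodMk ((big_ment h3 0 1).prodMk ((big_ment h3 1 0).prodMk
        (big_ment h3 1 1)))
    conv_lhs => rw [← h2]
    rw [integral_map hm.aemeasurable hLm.aestronglyMeasurable]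
    refine integral_congr_ae (Eventually.of_forall fun e => ?_)
    simp only [big_ma_am]
    exact big_L_kt f h C W t (ma e)
  -- averaging
  have hQm : Measurable (fun p : ℝ × R4 =>
      Complex.exp (-(2 * Complex.I * p.1)) * big_Q f h C W p.1 (ma p.2)) := by
    refine Measurable.mul ?_ (big_Q_meas f (big_mma measurable_snd) measurable_fst hh C W)
    exact Complex.measurable_exp.comp
      (measurable_const.mul (Complex.measurable_ofReal.comp measurable_fst)).neg
  have hexp : ∀ t : ℝ, ‖Complex.exp (-(2 * Complex.I * t))‖ = 1 := by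
    intro t
    rw [show -(2 * Complex.I * (t : ℂ)) = ((-(2 * t) : ℝ) : ℂ) * Complex.I by push_cast; ring]
    exact Complex.norm_exp_ofReal_mul_I _
  have hint : Integrable (fun p : ℝ × R4 =>
      Complex.exp (-(2 * Complex.I * p.1)) * big_Q f h C W p.1 (ma p.2))
      (((volume : Measure ℝ).restrict (Set.Ioc 0 (2 * Real.pi))).prod volume) := by
    have i1 : Integrable (fun _ : ℝ => (1 : ℝ))
        ((volume : Measure ℝ).restrict (Set.Ioc 0 (2 * Real.pi))) := integrable_const 1
    have i2 := i1.mul_prod ((big_g_ig (N := N) t0 t1).const_mul Kc)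
    refine Integrable.mono' i2 hQm.aestronglyMeasurable (Eventually.of_forall fun p => ?_)
    rw [norm_mul, hexp, one_mul, one_mul]
    exact hb p.1 p.2
  have h3 : (2 * Real.pi : ℂ) * ∫ e : R4, big_L f h C W (ma e) =
      ∫ e : R4, ∫ t in (0 : ℝ)..(2 * Real.pi),
        Complex.exp (-(2 * Complex.I * t)) * big_Q f h C W t (ma e) := by
    have h4 : (2 * Real.pi : ℂ) * ∫ e : R4, big_L f h C W (ma e) =
        ∫ t in (0 : ℝ)..(2 * Real.pi), ∫ e : R4, big_L f h C W (ma e) := by
      rw [intervalIntegral.integral_const, Complex.real_smul]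
      push_cast
      ring
    rw [h4, intervalIntegral.integral_congr (g := fun t => ∫ e : R4,
      Complex.exp (-(2 * Complex.I * t)) * big_Q f h C W t (ma e)) (fun t _ => h1 t)]
    rw [intervalIntegral.integral_of_le (by positivity)]
    rw [integral_integral_swap (f := fun (t : ℝ) (e : R4) =>
      Complex.exp (-(2 * Complex.I * (t : ℂ))) * big_Q f h C W t (ma e)) hint]
    refine integral_congr_ae (Eventually.of_forall fun e => ?_)
    simp only
    rw [intervalIntegral.integral_of_le (by positivity)]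
  have hpi : (2 * Real.pi : ℂ) ≠ 0 := by
    have := Real.pi_ne_zero
    exact_mod_cast mul_ne_zero two_ne_zero this
  apply mul_left_cancel₀ hpi
  rw [h3]
  unfold bi
  rw [← integral_const_mul, ← integral_const_mul]
  refine integral_congr_ae (Eventually.of_forall fun e => ?_)
  simp only
  by_cases he : 0 < (ma e).det
  · have hdV : ((sy W)⁻¹).det = (dt W)⁻¹ := by
      rw [Matrix.det_nonsing_inv, Ring.inverse_eq_inv', big_sy_det]
    have hs : (sy W)⁻¹ 0 1 = (sy W)⁻¹ 1 0 := by
      have h := congrFun (congrFun (big_inv_sym W) 1) 0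
      rwa [Matrix.transpose_apply] at h
    have hV : ((sy W)⁻¹).det ≠ 0 := by
      rw [hdV]
      exact inv_ne_zero hW
    have htr : (sy W)⁻¹ 0 0 + (sy W)⁻¹ 1 1 = tr W / dt W := by
      rw [Matrix.inv_def, big_sy_det, Ring.inverse_eq_inv', Matrix.adjugate_fin_two]
      simp [sy, tr]
      ring
    have h5 := ph_mean f (C * PP N * ((ma e)⁻¹)ᵀ) (sy W)⁻¹ hs hV
    have hco : ph f (C * PP N * ((ma e)⁻¹)ᵀ) = ph f (C * (PP N * cof (ma e))) := by
      have h6 : ((ma e)⁻¹)ᵀ = ((ma e).det)⁻¹ • cof (ma e) := by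
        rw [Matrix.inv_def, Ring.inverse_eq_inv', Matrix.adjugate_fin_two, Matrix.transpose_smul]
        congr 1
        ext i j
        fin_cases i <;> fin_cases j <;> simp [cof]
      rw [h6, Matrix.mul_smul, ph_smul f (inv_ne_zero he.ne'), Matrix.mul_assoc]
    rw [if_pos he]
    have h7 : ∀ t : ℝ, Complex.exp (-(2 * Complex.I * t)) * big_Q f h C W t (ma e) =
        (conj (ph f (ma e)) * big_S N h C W (ma e)) * (Complex.exp (-(2 * Complex.I * t)) *
          ph f (C * PP N * ((ma e)⁻¹)ᵀ * kt t * (sy W)⁻¹)) := by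
      intro t
      unfold big_Q
      rw [if_pos he]
      ring
    simp only [h7]
    rw [intervalIntegral.integral_const_mul, h5, hco]
    have h8 : (if 0 < ((sy W)⁻¹).det then ((4 * ((sy W)⁻¹).det /
        ((sy W)⁻¹ 0 0 + (sy W)⁻¹ 1 1) ^ 2 : ℝ) : ℂ) * ph f (C * (PP N * cof (ma e))) else 0) =
        (((if 0 < dt W then 4 * dt W / tr W ^ 2 else 0 : ℝ)) : ℂ) *
          ph f (C * (PP N * cof (ma e))) := by
      rw [hdV, htr]
      by_cases hp : 0 < dt W
      · rw [if_pos (inv_pos.2 hp), if_pos hp]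
        congr 2
        rw [div_pow]
        field_simp
      · rw [if_neg (fun hc => hp (inv_pos.1 hc)), if_neg hp]
        simp
    rw [h8]
    unfold big_S
    ring
  · rw [if_neg he]
    have h7 : ∀ t : ℝ, big_Q f h C W t (ma e) = 0 := by
      intro t
      unfold big_Q
      rw [if_neg he]
    simp only [h7, mul_zero]
    simp

/-! ### the result -/

theorem big_bi_neg {h : ℝ → ℝ} {C : M2} (hC : ¬ 0 < C.det) (W : R3) : bi f h C W = 0 := by
  have hN : 0 ≤ (N : ℝ) := Nat.cast_nonneg N
  unfold bi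
  have h1 : ∀ e : R4, (if 0 < (ma e).det then conj (ph f (ma e)) *
      ph f (C * (PP N * cof (ma e))) * ((h (ma e).det * h (C.det * N / ((ma e).det * dt W)) *
      (LEV.FUN_psi N (zz (ma e))).toReal / (ma e).det ^ 2 : ℝ) : ℂ) else 0) = 0 := by
    intro e
    by_cases he : 0 < (ma e).det
    · rw [if_pos he]
      have h2 : (C * (PP N * cof (ma e))).det = C.det * (N * (ma e).det) := by
        rw [det_mul, det_mul, big_PP_det]
        congr 2
        rw [Matrix.det_fin_two, Matrix.det_fin_two]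
        simp [cof]
        ring
      have h3 : ph f (C * (PP N * cof (ma e))) = 0 := by
        apply big_ph_zero
        rw [h2, not_lt]
        exact mul_nonpos_of_nonpos_of_nonneg (not_lt.1 hC) (mul_nonneg hN he.le)
      rw [h3]
      ring
    · rw [if_neg he]
  simp only [h1, integral_zero]

theorem big_inner {h : ℝ → ℝ} (C : M2) (W : R3) (e : R4) :
    ∫ y : R3, big_K f h C (W, e, y) =
      (((N : ℝ) ^ 3 * ((|dt W| ^ 3)⁻¹ * kk W) : ℝ) : ℂ) * big_L f h C W (ma e) := by
  have h1 : ∀ y : R3, big_K f h C (W, e, y) =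
      ((|(N : ℝ) / (ma e).det| ^ 3 * (|dt W| ^ 3)⁻¹ : ℝ) : ℂ) * big_A f h e * big_H f h C e W *
        (big_R (sy y) * big_R (sy (W + y))) := by
    intro y
    unfold big_K big_J
    ring
  simp only [h1]
  rw [integral_const_mul, big_kk]
  unfold big_A big_H big_L big_S
  by_cases he : 0 < (ma e).det
  · rw [if_pos he, if_pos he]
    have h2 : |(N : ℝ) / (ma e).det| ^ 3 * (ma e).det = (N : ℝ) ^ 3 / (ma e).det ^ 2 := by
      rw [abs_of_nonneg (div_nonneg (Nat.cast_nonneg N) he.le)]
      have := he.ne'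
      field_simp
    have h4 : ((|(N : ℝ) / (ma e).det| : ℝ) : ℂ) ^ 3 * (((ma e).det : ℝ) : ℂ) =
        (N : ℂ) ^ 3 / (((ma e).det : ℝ) : ℂ) ^ 2 := by
      exact_mod_cast congrArg (fun x : ℝ => (x : ℂ)) h2
    push_cast
    linear_combination (((|dt W| : ℝ) : ℂ) ^ 3)⁻¹ * (kk W : ℂ) * conj (ph f (ma e)) *
      ph f (C * PP N * ((ma e)⁻¹)ᵀ * (sy W)⁻¹) * (h (ma e).det : ℂ) *
      (h (C.det * N / ((ma e).det * dt W)) : ℂ) * ((LEV.FUN_psi N (zz (ma e))).toReal : ℂ) * h4
  · rw [if_neg he, if_neg he]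
    ring

/-- BIG. the integral over the big cell -/
theorem big_pr {h : ℝ → ℝ} (hh : HOK h) {C : M2} (hC : C.det ≠ 0) :
    Integrable (bc f h C) ∧ ∫ w, bc f h C w = if 0 < C.det then
      (N : ℂ) ^ 3 * ∫ W : R3, (((kk W * if 0 < dt W then 4 / (dt W ^ 2 * tr W ^ 2) else 0) : ℝ) : ℂ) *
        bi f h C W else 0 := by
  refine ⟨big_bc_int f hh hC, ?_⟩
  have hK := big_K_int f hh hC
  rw [show (volume : Measure (R3 × R4 × R3)) = (volume : Measure R3).prod volume from rfl] at hK
  have h1 : ∫ w, bc f h C w = ∫ W : R3, (N : ℂ) ^ 3 *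
      ((((kk W * if 0 < dt W then 4 / (dt W ^ 2 * tr W ^ 2) else 0) : ℝ) : ℂ) *
        bi f h C W) := by
    rw [big_bc_K f hh hC]
    refine integral_congr_ae ?_
    filter_upwards [hK.prod_right_ae] with W hW
    rw [show (volume : Measure (R4 × R3)) = (volume : Measure R4).prod volume from rfl] at hW ⊢
    rw [integral_prod _ hW]
    simp only [big_inner]
    rw [integral_const_mul]
    rcases eq_or_ne (dt W) 0 with h0 | h0
    · rw [h0]
      simp
    · rw [big_rot f hh C h0]
      by_cases hp : 0 < dt W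
      · rw [if_pos hp, if_pos hp, abs_of_pos hp]
        have e1 : (dt W ^ 3)⁻¹ * kk W * (4 * dt W / tr W ^ 2) =
            kk W * (4 / (dt W ^ 2 * tr W ^ 2)) := by
          rcases eq_or_ne (tr W) 0 with ht | ht
          · rw [ht]
            simp
          · field_simp
        have e2 := congrArg (fun x : ℝ => (x : ℂ)) e1
        push_cast at e2 ⊢
        linear_combination (N : ℂ) ^ 3 * bi f h C W * e2
      · rw [if_neg hp, if_neg hp]
        simp
  rw [h1]
  by_cases hp : 0 < C.det
  · rw [if_pos hp, integral_const_mul]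
  · rw [if_neg hp]
    simp only [big_bi_neg f hp, mul_zero, integral_zero]

end

end Pool.Agent.NN

namespace Pool.Agent.NN

theorem big : type_of% @big_pr := @big_pr

end Pool.Agent.NN
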