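import Pool.Agent.Lib_helper32.NN.Dfs2

/-!
# NN, block BIN: the Dirichlet inverse
-/

namespace Pool.Agent.NN

open Complex Filter Topology UpperHalfPlane Matrix
open scoped ComplexConjugate
open Pool.Agent.LEV (S2 co IsNew Lh)

section
variable {N : ℕ} [Fact N.Prime] (f : S2 N)

theorem bin_af (n : ℕ) : af f n = (co f n).re := rfl

theorem bin_re {f : S2 N} (hf : IsNew f) (n : ℕ) : (((co f n).re : ℝ) : ℂ) = co f n := by
  have := LEV.new_real hf n
  apply Complex.ext
  · simp
  · simp [this]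

theorem bin_af_mul (hf : IsNew f) : (af f).IsMultiplicative := by
  constructor
  · rw [bin_af, hf.one, Complex.one_re]
  · intro m n h
    rw [bin_af, bin_af, bin_af, hf.mul m n h]
    rw [Complex.mul_re, LEV.new_real hf m, zero_mul, sub_zero]

theorem bin_bf_one : bf f 1 = 1 := by
  show (if (1 : ℕ) = 0 then (0 : ℝ) else
    ∏ p ∈ (1 : ℕ).primeFactors, bl f p ((1 : ℕ).factorization p)) = 1
  simp

theorem bin_bf_apply {n : ℕ} (hn : n ≠ 0) :
    bf f n = ∏ p ∈ n.primeFactors, bl f p (n.factorization p) := by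
  show (if n = 0 then (0 : ℝ) else ∏ p ∈ n.primeFactors, bl f p (n.factorization p)) = _
  rw [if_neg hn]

theorem bin_bf_mul : (bf f).IsMultiplicative := by
  rw [ArithmeticFunction.IsMultiplicative.iff_ne_zero]
  refine ⟨bin_bf_one f, fun {m n} hm hn h => ?_⟩
  rw [bin_bf_apply f (mul_ne_zero hm hn), bin_bf_apply f hm, bin_bf_apply f hn,
    h.primeFactors_mul, Finset.prod_union h.disjoint_primeFactors]
  congr 1
  · refine Finset.prod_congr rfl fun p hp => ?_
    rw [Nat.factorization_eq_of_coprime_left h (by simpa using hp)]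
  · refine Finset.prod_congr rfl fun p hp => ?_
    rw [Nat.factorization_eq_of_coprime_right h (by simpa using hp)]

theorem bin_bf_pow {p : ℕ} (hp : p.Prime) (k : ℕ) : bf f (p ^ k) = bl f p k := by
  rw [bin_bf_apply f (pow_ne_zero _ hp.ne_zero)]
  rcases Nat.eq_zero_or_pos k with h | h
  · subst h
    simp [bl]
  · rw [Nat.primeFactors_prime_pow h.ne' hp, Finset.prod_singleton, hp.factorization_pow]
    simp

theorem bin_hecke (hf : IsNew f) {p : ℕ} (hp : p.Prime) (hpN : p ≠ N) (r : ℕ) :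
    (co f (p ^ (r + 2))).re =
      (co f p).re * (co f (p ^ (r + 1))).re - (p : ℝ) * (co f (p ^ r)).re := by
  rw [hf.hecke p r hp hpN, Complex.sub_re, Complex.mul_re, LEV.new_real hf p, Complex.mul_re]
  simp

theorem bin_level (hf : IsNew f) (r : ℕ) :
    (co f (N ^ (r + 1))).re = (co f N).re * (co f (N ^ r)).re := by
  rcases Nat.eq_zero_or_pos r with h | h
  · subst h
    rw [zero_add, pow_one, pow_zero, hf.one, Complex.one_re, mul_one]
  · obtain ⟨s, rfl⟩ : ∃ s, r = s + 1 := ⟨r - 1, by omega⟩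
    rw [hf.level (s + 1), hf.level s, pow_succ, Complex.mul_re, LEV.new_real hf N, mul_zero,
      sub_zero, mul_comm]

theorem bf_af_pr (hf : IsNew f) : bf f * af f = 1 := by
  rw [ArithmeticFunction.IsMultiplicative.eq_iff_eq_on_prime_powers _
    ((bin_bf_mul f).mul (bin_af_mul f hf)) _ ArithmeticFunction.isMultiplicative_one]
  intro p k hp
  have e : (bf f * af f) (p ^ k) =
      ∑ x ∈ Finset.range (k + 1), bl f p x * (co f (p ^ (k - x))).re := by
    rw [ArithmeticFunction.mul_apply,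
      Nat.sum_divisorsAntidiagonal (fun a b => bf f a * af f b), Nat.sum_divisors_prime_pow hp]
    refine Finset.sum_congr rfl fun x hx => ?_
    rw [Finset.mem_range] at hx
    rw [bin_bf_pow f hp, bin_af, Nat.pow_div (by omega) hp.pos]
  rw [e]
  rcases Nat.eq_zero_or_pos k with h | h
  · subst h
    simp [bl, hf.one]
  have h1 : (1 : ArithmeticFunction ℝ) (p ^ k) = 0 := by
    rw [ArithmeticFunction.one_apply_ne]
    exact (Nat.one_lt_pow h.ne' hp.one_lt).ne'
  rw [h1]
  obtain ⟨r, rfl⟩ : ∃ r, k = r + 1 := ⟨k - 1, by omega⟩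
  rcases Nat.eq_zero_or_pos r with h0 | h0
  · subst h0
    rw [Finset.sum_range_succ, Finset.sum_range_one]
    simp [bl, hf.one]
  obtain ⟨s, rfl⟩ : ∃ s, r = s + 1 := ⟨r - 1, by omega⟩
  rw [Finset.sum_range_succ', Finset.sum_range_succ', Finset.sum_range_succ']
  have h3 : ∑ x ∈ Finset.range s, bl f p (x + 1 + 1 + 1) *
      (co f (p ^ (s + 1 + 1 - (x + 1 + 1 + 1)))).re = 0 := by
    refine Finset.sum_eq_zero fun x _ => ?_
    have : bl f p (x + 1 + 1 + 1) = 0 := by
      unfold bl
      rw [if_neg (by omega), if_neg (by omega), if_neg (by omega)]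
    rw [this, zero_mul]
  rw [h3]
  have b0 : bl f p 0 = 1 := by simp [bl]
  have b1 : bl f p (0 + 1) = -(co f p).re := by simp [bl]
  rw [b0, b1, show s + 1 + 1 - (0 + 1 + 1) = s by omega, show s + 1 + 1 - (0 + 1) = s + 1 by omega,
    Nat.sub_zero]
  by_cases hpN : p = N
  · have b2 : bl f p (0 + 1 + 1) = 0 := by simp [bl, hpN]
    rw [b2, hpN, bin_level f hf (s + 1)]
    ring
  · have b2 : bl f p (0 + 1 + 1) = p := by simp [bl, hpN]
    rw [b2, bin_hecke f hf hp hpN s]
    ring

end

end Pool.Agent.NN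

namespace Pool.Agent.NN

theorem bf_af : type_of% @bf_af_pr := @bf_af_pr

end Pool.Agent.NN
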