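import Pool.Agent.Lib_helper32.NN.Dfs2

/-! NN, block CTB: the paramodular group is countable. -/

namespace Pool.Agent.NN

open Complex MeasureTheory Filter Topology UpperHalfPlane Matrix
open scoped MatrixGroups ENNReal ComplexConjugate

theorem ctb_oo (N : ℕ) : (OO N).Countable := by
  have h : OO N = Set.range (fun t : ℤ × ℤ × ℤ × ℤ =>
      (!![(t.1 : ℝ), (t.2.1 : ℝ); (N : ℝ) * (t.2.2.1 : ℝ), (t.2.2.2 : ℝ)] : M2)) := by
    ext m
    constructor
    · rintro ⟨a, b, c, d, rfl⟩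
      exact ⟨(a, b, c, d), rfl⟩
    · rintro ⟨⟨a, b, c, d⟩, rfl⟩
      exact ⟨a, b, c, d, rfl⟩
  rw [h]
  exact Set.countable_range _

theorem ctb_set {N : ℕ} (hN : N ≠ 0) : {x : M4 | inG N x}.Countable := by
  have hO := ctb_oo N
  refine Set.Countable.mono ?_ ((hO.prod (hO.prod (hO.prod hO))).image
    (fun t : M2 × M2 × M2 × M2 => (fromBlocks t.1 (t.2.1 * PP N) (PI N * t.2.2.1)
      (PI N * t.2.2.2 * PP N) : M4)))
  rintro x ⟨h1, h2, h3, h4⟩
  refine ⟨(x.toBlocks₁₁, x.toBlocks₁₂ * PI N, cb N x, db N x * PI N), ⟨h1, h2, h3, h4⟩, ?_⟩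
  show fromBlocks x.toBlocks₁₁ (x.toBlocks₁₂ * PI N * PP N) (PI N * cb N x)
      (PI N * (db N x * PI N) * PP N) = x
  have e1 : x.toBlocks₁₂ * PI N * PP N = x.toBlocks₁₂ := by
    rw [Matrix.mul_assoc, pi_mul_pp hN, Matrix.mul_one]
  have e2 : PI N * cb N x = x.toBlocks₂₁ := by
    unfold cb
    rw [← Matrix.mul_assoc, pi_mul_pp hN, Matrix.one_mul]
  have e3 : PI N * (db N x * PI N) * PP N = x.toBlocks₂₂ := by
    unfold db
    rw [Matrix.mul_assoc, Matrix.mul_assoc, pi_mul_pp hN, Matrix.mul_one, ← Matrix.mul_assoc,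
      pi_mul_pp hN, Matrix.one_mul]
  rw [e1, e2, e3, fromBlocks_toBlocks]

section
variable (N : ℕ) [Fact N.Prime]

/-- the group is countable -/
theorem gan_countable_pr : Countable (GaN N) := by
  have hS := ctb_set (Fact.out : N.Prime).ne_zero
  have hinj : Function.Injective (fun g : GaN N => mt N g) := by
    intro a b h
    exact Subtype.ext (Subtype.ext h)
  have h2 : ((fun g : GaN N => mt N g) ⁻¹' {x : M4 | inG N x}).Countable :=
    hS.preimage_of_injOn hinj.injOn
  have h3 : ((fun g : GaN N => mt N g) ⁻¹' {x : M4 | inG N x}) = Set.univ := by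
    ext g
    simp only [Set.mem_preimage, Set.mem_univ, iff_true]
    exact g.2
  rw [h3] at h2
  exact Set.countable_univ_iff.1 h2


end

end Pool.Agent.NN

namespace Pool.Agent.NN

theorem gan_countable : type_of% @gan_countable_pr := @gan_countable_pr

end Pool.Agent.NN
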