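import Pool.Agent.Lib_helper32.NN.Dfs2
import Pool.Agent.Lib_helper68.LEV.FRK

/-!
# Block CUS: cuspidality of the function `ph`
-/

namespace Pool.Agent.NN

open Complex MeasureTheory Filter Topology UpperHalfPlane Matrix
open scoped MatrixGroups ENNReal ComplexConjugate ModularForm Pointwise
open Pool.Agent.LEV (S2 co IsNew Lh)

/-- normal form of a nilpotent matrix -/
theorem cus_nil {Z : M2} (h2 : Z * Z = 0) (h0 : Z ≠ 0) :
    ∃ D : M2, D.det = 1 ∧ ∃ κ : ℝ, κ ≠ 0 ∧ Z * D = D * !![0, κ; 0, 0] := by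
  have e : Z = !![Z 0 0, Z 0 1; Z 1 0, Z 1 1] := Matrix.eta_fin_two Z
  set a := Z 0 0 with ha
  set b := Z 0 1 with hb
  set c := Z 1 0 with hc
  set d := Z 1 1 with hd
  have q00 : a * a + b * c = 0 := by
    have := congrFun (congrFun h2 0) 0
    simpa [Matrix.mul_apply, Fin.sum_univ_two] using this
  have q01 : a * b + b * d = 0 := by
    have := congrFun (congrFun h2 0) 1
    simpa [Matrix.mul_apply, Fin.sum_univ_two] using this
  have q10 : c * a + d * c = 0 := by
    have := congrFun (congrFun h2 1) 0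
    simpa [Matrix.mul_apply, Fin.sum_univ_two] using this
  have q11 : c * b + d * d = 0 := by
    have := congrFun (congrFun h2 1) 1
    simpa [Matrix.mul_apply, Fin.sum_univ_two] using this
  by_cases hb0 : b = 0
  · have ha0 : a = 0 := by
      rw [hb0] at q00
      have : a * a = 0 := by linarith
      exact mul_self_eq_zero.mp this
    have hd0 : d = 0 := by
      rw [hb0] at q11
      have : d * d = 0 := by linarith
      exact mul_self_eq_zero.mp this
    have hc0 : c ≠ 0 := by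
      intro hc0
      apply h0
      rw [e, ha0, hb0, hc0, hd0]
      ext i j
      fin_cases i <;> fin_cases j <;> rfl
    refine ⟨!![0, -1; 1, 0], by rw [Matrix.det_fin_two_of]; norm_num, -c, neg_ne_zero.mpr hc0, ?_⟩
    rw [e, ha0, hb0, hd0]
    ext i j
    fin_cases i <;> fin_cases j <;> simp [Matrix.mul_apply, Fin.sum_univ_two]
  · have hda : d = -a := by
      have : b * (a + d) = 0 := by linarith
      rcases mul_eq_zero.mp this with h | h
      · exact absurd h hb0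
      · linarith
    refine ⟨!![b, 0; -a, b⁻¹], ?_, b⁻¹, inv_ne_zero hb0, ?_⟩
    · rw [Matrix.det_fin_two_of]
      field_simp
      ring
    · rw [e, hda]
      ext i j
      fin_cases i <;> fin_cases j <;> simp [Matrix.mul_apply, Fin.sum_univ_two]
      · ring
      · linarith

theorem cus_slash (F : ℍ → ℂ) (G : GL (Fin 2) ℝ) (hG : 0 < G.det.val) (z : ℍ) :
    (F ∣[(2 : ℤ)] G) z = (G.det.val : ℂ) / (denom G z) ^ 2 * F (G • z) := by
  have hσ : σ G = ContinuousAlgEquiv.refl ℝ ℂ := by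
    rw [σ, if_pos hG]
  rw [ModularForm.slash_apply, hσ, abs_of_pos hG, show (2 : ℤ) - 1 = 1 by norm_num, zpow_one,
    _root_.zpow_neg, show ((2 : ℤ)) = ((2 : ℕ) : ℤ) by norm_num, zpow_natCast]
  change F (G • z) * ((G.det.val : ℝ) : ℂ) * _ = _
  rw [div_eq_mul_inv]
  ring

section form
variable {N : ℕ} [Fact N.Prime] (f : S2 N)

omit [Fact N.Prime] in
theorem cus_ph (G : GL (Fin 2) ℝ) (hG : 0 < G.det.val) :
    ph f (G : M2) = ((f : ℍ → ℂ) ∣[(2 : ℤ)] G) UpperHalfPlane.I := by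
  have hz : zz (G : M2) = G • UpperHalfPlane.I := by
    unfold zz
    have h1 : (((((G : M2) 0 0 : ℝ) : ℂ) * Complex.I + (((G : M2) 0 1 : ℝ) : ℂ)) /
        ((((G : M2) 1 0 : ℝ) : ℂ) * Complex.I + (((G : M2) 1 1 : ℝ) : ℂ))) =
        ((G • UpperHalfPlane.I : ℍ) : ℂ) := by
      rw [UpperHalfPlane.coe_smul_of_det_pos hG]
      rfl
    rw [h1, UpperHalfPlane.ofComplex_apply]
  have hd : (G : M2).det = G.det.val := rfl
  rw [cus_slash _ G hG]
  unfold ph
  rw [if_pos (by rw [hd]; exact hG), hz, hd]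
  rfl

theorem cus_translate (F : ℍ → ℂ) (x : ℝ) (z : ℍ) :
    (F ∣[(2 : ℤ)] (Matrix.GeneralLinearGroup.upperRightHom x)) z = F (x +ᵥ z) := by
  have h1 : Matrix.GeneralLinearGroup.upperRightHom x • z = x +ᵥ z := by
    ext
    simp [σ, num, denom, coe_vadd, UpperHalfPlane.coe_smul, num, add_comm]
  have h2 : (Matrix.GeneralLinearGroup.upperRightHom x : GL (Fin 2) ℝ).det.val = 1 := by
    simp [GeneralLinearGroup.val_det_apply]
  rw [cus_slash _ _ (by rw [h2]; exact one_pos), h1, h2]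
  simp [denom]

/-- the mean over a period of a cusp form is zero -/
theorem cus_mean {Γ : Subgroup (GL (Fin 2) ℝ)} (F : CuspForm Γ 2) {h : ℝ} (hh : 0 < h)
    (hΓ : h ∈ Γ.strictPeriods) (z : ℍ) (c : ℝ) :
    ∫ s in c..(c + h), F (s +ᵥ z) = 0 := by
  have hp : Function.Periodic (fun s : ℝ => F (s +ᵥ z)) h := by
    intro s
    have h1 := SlashInvariantForm.vAdd_apply_of_mem_strictPeriods F (s +ᵥ z) hΓ
    rw [vadd_vadd] at h1
    show F ((s + h) +ᵥ z) = F (s +ᵥ z)
    rw [add_comm s h]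
    exact h1
  rw [hp.intervalIntegral_add_eq c (-z.re)]
  have h3 := ModularFormClass.qExpansion_coeff_eq_intervalIntegral F hh hΓ 0 z.im_pos
  rw [CuspFormClass.qExpansion_coeff_zero F hh hΓ] at h3
  have h4 : ∫ s in (-z.re)..(-z.re + h), F (s +ᵥ z) =
      ∫ u in (0 : ℝ)..h, F (⟨u + z.im * Complex.I, by simpa using z.im_pos⟩ : ℍ) := by
    have h5 := intervalIntegral.integral_comp_add_right (a := -z.re + 0) (b := -z.re + h)
      (fun u : ℝ => F ((u - z.re) +ᵥ z)) z.re
    have h6 : ∀ s : ℝ, (s + z.re - z.re) = s := fun s => by ring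
    simp only [h6] at h5
    rw [add_zero] at h5
    rw [h5]
    rw [neg_add_cancel, show -z.re + h + z.re = h by ring]
    refine intervalIntegral.integral_congr fun u _ => ?_
    show F ((u - z.re) +ᵥ z) = _
    congr 1
    apply UpperHalfPlane.ext
    rw [UpperHalfPlane.coe_vadd]
    apply Complex.ext
    · simp
    · simp
  rw [h4]
  have h7 : (1 : ℂ) / h ≠ 0 := by
    have : (h : ℂ) ≠ 0 := by exact_mod_cast hh.ne'
    exact div_ne_zero one_ne_zero this
  have h8 := (mul_eq_zero.mp h3.symm).resolve_left h7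
  simpa using h8

theorem cus_mean2 {Γ : Subgroup (GL (Fin 2) ℝ)} (F : CuspForm Γ 2) {κ : ℝ} {n : ℝ} (hn : 0 < n)
    (hκ : κ ≠ 0) (hΓ : n * κ ∈ Γ.strictPeriods) (z : ℍ) :
    ∫ t in (0 : ℝ)..n, F ((t * κ) +ᵥ z) = 0 := by
  have h1 := intervalIntegral.integral_comp_mul_right (a := 0) (b := n)
    (fun s : ℝ => F (s +ᵥ z)) hκ
  rw [h1, zero_mul]
  suffices h : ∫ s in (0 : ℝ)..(n * κ), F (s +ᵥ z) = 0 by rw [h, smul_zero]
  rcases lt_or_gt_of_ne hκ with hk | hk
  · have h2 : 0 < -(n * κ) := by nlinarith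
    have h3 := cus_mean F h2 (neg_mem hΓ) z (n * κ)
    rw [add_neg_cancel] at h3
    rw [intervalIntegral.integral_symm, h3, neg_zero]
  · have h2 : 0 < n * κ := mul_pos hn hk
    have h3 := cus_mean F h2 hΓ z 0
    rwa [zero_add] at h3

theorem ph_cusp_pr {Z : M2} (h2 : Z * Z = 0) (h0 : Z ≠ 0) (hN : 1 + (N : ℝ) • Z ∈ OO N) (g : M2) :
    ∫ t in (0 : ℝ)..N, ph f ((1 + t • Z) * g) = 0 := by
  obtain ⟨D, hD, κ, hκ, hZ⟩ := cus_nil h2 h0
  have hNp : (0 : ℝ) < N := by exact_mod_cast (Fact.out : N.Prime).pos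
  let Dg : GL (Fin 2) ℝ := Matrix.GeneralLinearGroup.mkOfDetNeZero D (by rw [hD]; exact one_ne_zero)
  have hDc : (Dg : M2) = D := rfl
  have hDd : Dg.det.val = 1 := hD
  -- the one parameter group
  have hU : ∀ t : ℝ, ((Dg * Matrix.GeneralLinearGroup.upperRightHom (t * κ) * Dg⁻¹ :
      GL (Fin 2) ℝ) : M2) = 1 + t • Z := by
    intro t
    have h3 : ((Dg * Matrix.GeneralLinearGroup.upperRightHom (t * κ) : GL (Fin 2) ℝ) : M2) =
        (1 + t • Z) * D := by
      have h4 : ((Matrix.GeneralLinearGroup.upperRightHom (t * κ) : GL (Fin 2) ℝ) : M2) =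
          1 + t • !![0, κ; 0, 0] := by
        ext i j
        fin_cases i <;> fin_cases j <;> simp
      rw [Units.val_mul, h4, hDc, Matrix.add_mul, Matrix.mul_add, Matrix.one_mul, Matrix.mul_one,
        Matrix.smul_mul, Matrix.mul_smul, hZ]
    rw [Units.val_mul, h3, Matrix.mul_assoc, ← hDc, ← Units.val_mul, mul_inv_cancel]
    simp
  have hdet : ∀ t : ℝ, (1 + t • Z).det = 1 := by
    intro t
    rw [← hU t]
    have h5 : ((Dg * Matrix.GeneralLinearGroup.upperRightHom (t * κ) * Dg⁻¹ :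
      GL (Fin 2) ℝ)).det.val = 1 := by
      rw [map_mul, map_mul, map_inv, mul_comm, inv_mul_cancel_left]
      simp [GeneralLinearGroup.val_det_apply]
    exact h5
  by_cases hg : 0 < g.det
  · let G : GL (Fin 2) ℝ := Matrix.GeneralLinearGroup.mkOfDetNeZero g hg.ne'
    have hGc : (G : M2) = g := rfl
    have hGd : G.det.val = g.det := rfl
    let F : CuspForm _ 2 := CuspForm.translate f Dg
    have hF : (F : ℍ → ℂ) = (f : ℍ → ℂ) ∣[(2 : ℤ)] Dg := rfl
    -- the period
    have hper : (N : ℝ) * κ ∈ (ConjAct.toConjAct Dg⁻¹ • LEV.G0 N).strictPeriods := by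
      rw [Subgroup.mem_strictPeriods_iff, Subgroup.mem_pointwise_smul_iff_inv_smul_mem]
      have h6 : ((ConjAct.toConjAct Dg⁻¹)⁻¹ • Matrix.GeneralLinearGroup.upperRightHom
          ((N : ℝ) * κ) : GL (Fin 2) ℝ) =
          Dg * Matrix.GeneralLinearGroup.upperRightHom ((N : ℝ) * κ) * Dg⁻¹ := by
        rw [← ConjAct.toConjAct_inv, inv_inv, ConjAct.toConjAct_smul]
      rw [h6, LEV.FRK_mem]
      obtain ⟨a, b, c, d, h7⟩ := hN
      have h8 := hU N
      rw [h7] at h8
      refine ⟨a, b, c, d, ?_, h8⟩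
      have h9 := hdet N
      rw [h7, Matrix.det_fin_two_of] at h9
      have h10 : ((a * d - b * (N * c) : ℤ) : ℝ) = ((1 : ℤ) : ℝ) := by
        push_cast
        linarith
      exact_mod_cast h10
    set w : ℍ := (Dg⁻¹ * G) • UpperHalfPlane.I with hw
    have hBd : (0 : ℝ) < (Dg⁻¹ * G).det.val := by
      rw [map_mul, map_inv, Units.val_mul, hGd]
      have : ((Dg.det⁻¹ : ℝˣ) : ℝ) = 1 := by
        rw [Units.val_inv_eq_inv_val, hDd, inv_one]
      rw [this, one_mul]
      exact hg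
    have hkey : ∀ t : ℝ, ph f ((1 + t • Z) * g) =
        (((Dg⁻¹ * G).det.val : ℝ) : ℂ) / (denom (Dg⁻¹ * G) UpperHalfPlane.I) ^ 2 *
          F ((t * κ) +ᵥ w) := by
      intro t
      have e1 : (1 + t • Z) * g = ((Dg * Matrix.GeneralLinearGroup.upperRightHom (t * κ) *
          (Dg⁻¹ * G) : GL (Fin 2) ℝ) : M2) := by
        rw [← mul_assoc, Units.val_mul, hU t, hGc]
      have e2 : 0 < (Dg * Matrix.GeneralLinearGroup.upperRightHom (t * κ) *
          (Dg⁻¹ * G) : GL (Fin 2) ℝ).det.val := by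
        have e3 : (Dg * Matrix.GeneralLinearGroup.upperRightHom (t * κ) *
          (Dg⁻¹ * G) : GL (Fin 2) ℝ).det.val = ((1 + t • Z) * g).det := by
          rw [e1]; rfl
        rw [e3, Matrix.det_mul, hdet t, one_mul]
        exact hg
      have e4 : (f : ℍ → ℂ) ∣[(2 : ℤ)] (Dg * Matrix.GeneralLinearGroup.upperRightHom (t * κ) *
          (Dg⁻¹ * G) : GL (Fin 2) ℝ) = (((f : ℍ → ℂ) ∣[(2 : ℤ)] Dg) ∣[(2 : ℤ)]
          (Matrix.GeneralLinearGroup.upperRightHom (t * κ) : GL (Fin 2) ℝ)) ∣[(2 : ℤ)]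
          (Dg⁻¹ * G) := by
        rw [SlashAction.slash_mul 2 (Dg * Matrix.GeneralLinearGroup.upperRightHom (t * κ))
          (Dg⁻¹ * G), SlashAction.slash_mul 2 Dg]
      rw [e1, cus_ph f _ e2, e4, ← hF, cus_slash _ _ hBd, cus_translate]
    have hint : ∀ t : ℝ, t ∈ Set.uIcc (0 : ℝ) N → ph f ((1 + t • Z) * g) =
        (((Dg⁻¹ * G).det.val : ℝ) : ℂ) / (denom (Dg⁻¹ * G) UpperHalfPlane.I) ^ 2 *
          F ((t * κ) +ᵥ w) := fun t _ => hkey t
    rw [intervalIntegral.integral_congr hint, intervalIntegral.integral_const_mul,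
      cus_mean2 F hNp hκ hper w, mul_zero]
  · have h9 : ∀ t : ℝ, ph f ((1 + t • Z) * g) = 0 := by
      intro t
      unfold ph
      rw [if_neg]
      rw [Matrix.det_mul, hdet t, one_mul]
      exact hg
    simp only [h9, intervalIntegral.integral_zero]

end form


end Pool.Agent.NN

namespace Pool.Agent.NN

theorem ph_cusp : type_of% @ph_cusp_pr := @ph_cusp_pr

end Pool.Agent.NN
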