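import Pool.Agent.Lib_helper32.NN.Dfs2
import Pool.Agent.Lib_helper32.NNF.PHA
import Pool.Agent.Lib_helper32.NNF.PHM
import Pool.Agent.Lib_helper68.LEV.FUN

/-!
# Block FFB: invariance and measurability of the test function
-/

namespace Pool.Agent.NN

open Complex MeasureTheory Filter Topology UpperHalfPlane Matrix
open scoped MatrixGroups ENNReal ComplexConjugate
open Pool.Agent.LEV (S2 co IsNew Lh)

section ffb_general
variable {α : Type*} [MeasurableSpace α]

theorem ffb_mk {m n : Type*} {g : α → Matrix m n ℝ} (h : ∀ i j, Measurable fun x => g x i j) :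
    Measurable g := by
  have : Measurable (fun x => (g x : m → n → ℝ)) :=
    measurable_pi_iff.mpr fun i => measurable_pi_iff.mpr fun j => h i j
  exact this

theorem ffb_en {m n : Type*} {g : α → Matrix m n ℝ} (h : Measurable g) (i : m) (j : n) :
    Measurable fun x => g x i j := by
  have h1 : Measurable (fun M : Matrix m n ℝ => M i j) := by
    have h2 : Measurable (fun M : m → n → ℝ => M i j) :=
      (measurable_pi_apply j).comp (measurable_pi_apply i)
    exact h2
  exact h1.comp h

theorem ffb_mul {m n k : Type*} [Fintype n] {g : α → Matrix m n ℝ} {g' : α → Matrix n k ℝ}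
    (h : Measurable g) (h' : Measurable g') : Measurable fun x => g x * g' x := by
  refine ffb_mk fun i j => ?_
  simp only [Matrix.mul_apply]
  exact Finset.measurable_sum _ fun l _ => (ffb_en h i l).mul (ffb_en h' l j)

theorem ffb_det {g : α → M2} (h : Measurable g) : Measurable fun x => (g x).det := by
  simp only [Matrix.det_fin_two]
  exact ((ffb_en h 0 0).mul (ffb_en h 1 1)).sub ((ffb_en h 0 1).mul (ffb_en h 1 0))

theorem ffb_inv {g : α → M2} (h : Measurable g) : Measurable fun x => (g x)⁻¹ := by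
  refine ffb_mk fun i j => ?_
  have hd := ffb_det h
  simp only [Matrix.inv_def, Matrix.smul_apply, Ring.inverse_eq_inv', smul_eq_mul]
  refine hd.inv.mul ?_
  simp only [Matrix.adjugate_fin_two]
  fin_cases i <;> fin_cases j
  · exact ffb_en h 1 1
  · exact (ffb_en h 0 1).neg
  · exact (ffb_en h 1 0).neg
  · exact ffb_en h 0 0

end ffb_general

theorem ffb_b21 : Measurable (fun x : M4 => x.toBlocks₂₁) :=
  ffb_mk fun i j => ffb_en (g := fun x : M4 => x) measurable_id (Sum.inr i) (Sum.inl j)

theorem ffb_b22 : Measurable (fun x : M4 => x.toBlocks₂₂) :=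
  ffb_mk fun i j => ffb_en (g := fun x : M4 => x) measurable_id (Sum.inr i) (Sum.inr j)

theorem ffb_b12 : Measurable (fun x : M4 => x.toBlocks₁₂) :=
  ffb_mk fun i j => ffb_en (g := fun x : M4 => x) measurable_id (Sum.inl i) (Sum.inr j)

theorem ffb_cb (N : ℕ) : Measurable (cb N) := ffb_mul measurable_const ffb_b21

theorem ffb_db (N : ℕ) : Measurable (db N) := ffb_mul measurable_const ffb_b22

section form
variable {N : ℕ} [Fact N.Prime] (f : S2 N)

theorem F0_inv_pr (h : ℝ → ℝ) {u : M2} (hu : u ∈ G0m N) (c e : M2) :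
    F0 f h (u * c) (u * e) = F0 f h c e := by
  have h1 : u.det = 1 := hu.2
  have h2 : IsUnit u.det := by rw [h1]; exact isUnit_one
  have h3 : (u * e)⁻¹ * (u * c) = e⁻¹ * c := by
    rw [Matrix.mul_inv_rev, Matrix.mul_assoc, ← Matrix.mul_assoc u⁻¹, Matrix.nonsing_inv_mul u h2,
      Matrix.one_mul]
  unfold F0
  rw [ph_g0 f hu, Matrix.det_mul, h1, one_mul, h3]

theorem ff_inv_pr (h : ℝ → ℝ) {p : GaN N} (hp : p ∈ PN N) (x : M4) :
    FF f h (act N p x) = FF f h x := by
  have hN : N ≠ 0 := (Fact.out : N.Prime).ne_zero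
  obtain ⟨h1, h2⟩ := hp
  have hg : inG N (mt N p) := p.2
  obtain ⟨-, -, -, g4⟩ := hg
  have hu : db N (mt N p) * PI N ∈ G0m N := by
    refine ⟨g4, ?_⟩
    have h3 : (PI N).det * (PP N).det = 1 := by rw [← Matrix.det_mul, pi_mul_pp hN, Matrix.det_one]
    unfold db
    rw [Matrix.det_mul, Matrix.det_mul, h2, mul_one, mul_comm, h3]
  have hc : cb N (act N p x) = (db N (mt N p) * PI N) * cb N x := by
    unfold act cb db
    rw [bl_mul, toBlocks_fromBlocks₂₁, h1, Matrix.zero_mul, zero_add]
    rw [Matrix.mul_assoc _ (PI N), ← Matrix.mul_assoc (PI N), pi_mul_pp hN, Matrix.one_mul,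
      Matrix.mul_assoc]
  have hd : db N (act N p x) = (db N (mt N p) * PI N) * db N x := by
    unfold act db
    rw [bl_mul, toBlocks_fromBlocks₂₂, h1, Matrix.zero_mul, zero_add]
    rw [Matrix.mul_assoc _ (PI N), ← Matrix.mul_assoc (PI N), pi_mul_pp hN, Matrix.one_mul,
      Matrix.mul_assoc]
  unfold FF
  rw [hc, hd, F0_inv_pr f h hu]

theorem ff_meas_pr {h : ℝ → ℝ} (hh : HOK h) : Measurable (FF f h) := by
  classical
  unfold FF F0
  have hc := ffb_cb N
  have hd := ffb_db N
  refine Measurable.mul (Measurable.mul ?_ ?_) ?_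
  · exact (ph_meas f).comp hd
  · exact Complex.measurable_ofReal.comp (hh.meas.comp (ffb_det hd))
  · refine Measurable.ite ?_ measurable_const measurable_const
    have hm : Measurable (fun x : M4 => (db N x)⁻¹ * cb N x) := ffb_mul (ffb_inv hd) hc
    have he : {x : M4 | ∀ i j, |((db N x)⁻¹ * cb N x) i j| ≤ 1} =
        ⋂ i, ⋂ j, {x : M4 | |((db N x)⁻¹ * cb N x) i j| ≤ 1} := by
      ext x
      simp only [Set.mem_ofPred_eq, Set.mem_iInter]
    rw [he]
    refine MeasurableSet.iInter fun i => MeasurableSet.iInter fun j => ?_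
    exact measurableSet_le (continuous_abs.measurable.comp (ffb_en hm i j)) measurable_const

theorem eta_meas_pr : Measurable (eta N) := by
  classical
  unfold eta
  refine Measurable.mul ?_ ?_
  · refine Measurable.ite ?_ measurable_const measurable_const
    have hm : Measurable (fun x : M4 => x.toBlocks₁₂ * (x.toBlocks₂₂)⁻¹) :=
      ffb_mul ffb_b12 (ffb_inv ffb_b22)
    have hy : Measurable (fun x : M4 => ys (x.toBlocks₁₂ * (x.toBlocks₂₂)⁻¹)) := by
      unfold ys
      exact (ffb_en hm 0 0).prodMk ((ffb_en hm 0 1).prodMk (ffb_en hm 1 1))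
    have hb : MeasurableSet (bx N) :=
      measurableSet_Ico.prod (measurableSet_Ico.prod measurableSet_Ico)
    exact hy hb
  · exact LEV.FUN_psi_meas.comp (zz_meas.comp (ffb_db N))

end form


end Pool.Agent.NN

namespace Pool.Agent.NN

theorem ff_inv : type_of% @ff_inv_pr := @ff_inv_pr

theorem F0_inv : type_of% @F0_inv_pr := @F0_inv_pr

theorem ff_meas : type_of% @ff_meas_pr := @ff_meas_pr

theorem eta_meas : type_of% @eta_meas_pr := @eta_meas_pr

end Pool.Agent.NN
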