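import Pool.Agent.Lib_helper32.NN.Dfs2
import Pool.Agent.Lib_helper32.NNF.BLK
import Pool.Agent.Lib_helper32.NNF.COV
import Pool.Agent.Lib_helper32.NNF.FFB
import Pool.Agent.Lib_helper32.NNF.MEA
import Pool.Agent.Lib_helper32.NNF.PHM

/-!
# NN, block ETA: the weight is a partition of unity
-/

namespace Pool.Agent.NN

open Complex MeasureTheory Filter Topology UpperHalfPlane Matrix
open scoped MatrixGroups ENNReal ComplexConjugate
open Pool.Agent.LEV (S2 co IsNew Lh)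

theorem eta_ys_add (a b : M2) : ys (a + b) = ys a + ys b := rfl

theorem eta_sy_symm (x : R3) : (sy x)ᵀ = sy x := by
  ext i j
  fin_cases i <;> fin_cases j <;> rfl

theorem eta_sy_ys {m : M2} (hm : m 0 1 = m 1 0) : sy (ys m) = m := by
  ext i j
  fin_cases i <;> fin_cases j <;> simp [sy, ys, hm]

theorem eta_PIt (N : ℕ) : (PI N)ᵀ = PI N := by
  ext i j; fin_cases i <;> fin_cases j <;> simp [PI]

theorem eta_PPt (N : ℕ) : (PP N)ᵀ = PP N := by
  ext i j; fin_cases i <;> fin_cases j <;> simp [PP]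

theorem eta_inv_oo {N : ℕ} {g : M2} (hg : g ∈ OO N) (hd : g.det = 1) : g⁻¹ ∈ OO N := by
  obtain ⟨a, b, c, d, rfl⟩ := hg
  refine ⟨d, -b, -c, a, ?_⟩
  rw [Matrix.inv_def, hd, Ring.inverse_one, one_smul, Matrix.adjugate_fin_two_of]
  ext i j
  fin_cases i <;> fin_cases j <;> simp

section group
variable (N : ℕ) [Fact N.Prime]

/-- the integral symmetric matrix -/
noncomputable def eta_S (s : ℤ × ℤ × ℤ) : M2 := sy ((s.1 : ℝ), (N : ℝ) * s.2.1, (N : ℝ) * s.2.2)

/-- the conjugate -/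
noncomputable def eta_D (g : M2) : M2 := PI N * g * PP N

/-- the matrix of an element of the parabolic subgroup -/
noncomputable def eta_m (g : M2) (s : ℤ × ℤ × ℤ) : M4 :=
  fromBlocks ((eta_D N g)⁻¹)ᵀ (eta_S N s * eta_D N g) 0 (eta_D N g)

variable {N}

theorem eta_N0 : N ≠ 0 := (Fact.out : N.Prime).ne_zero

theorem eta_D_det (g : M2) : (eta_D N g).det = g.det := by
  unfold eta_D
  have h1 : (PI N).det * (PP N).det = 1 := by
    rw [← det_mul, pi_mul_pp eta_N0, det_one]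
  rw [det_mul, det_mul]
  calc (PI N).det * g.det * (PP N).det = g.det * ((PI N).det * (PP N).det) := by ring
    _ = g.det := by rw [h1, mul_one]

theorem eta_D_mul (g g' : M2) : eta_D N g * eta_D N g' = eta_D N (g * g') := by
  unfold eta_D
  have h1 := pp_mul_pi (eta_N0 (N := N))
  calc PI N * g * PP N * (PI N * g' * PP N) = PI N * g * (PP N * PI N) * g' * PP N := by
        simp only [Matrix.mul_assoc]
    _ = PI N * (g * g') * PP N := by
        rw [h1, Matrix.mul_one]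
        simp only [Matrix.mul_assoc]

theorem eta_D_one : eta_D N 1 = 1 := by
  unfold eta_D
  rw [Matrix.mul_one, pi_mul_pp eta_N0]

theorem eta_D_inv {g : M2} (hg : g.det ≠ 0) : (eta_D N g)⁻¹ = eta_D N g⁻¹ := by
  refine Matrix.inv_eq_right_inv ?_
  rw [eta_D_mul, Matrix.mul_nonsing_inv _ (isUnit_iff_ne_zero.mpr hg), eta_D_one]

theorem eta_D_inj {g g' : M2} (h : eta_D N g = eta_D N g') : g = g' := by
  unfold eta_D at h
  have h1 := pp_mul_pi (eta_N0 (N := N))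
  have h2 : PP N * (PI N * g * PP N) * PI N = PP N * (PI N * g' * PP N) * PI N := by rw [h]
  have h3 : ∀ x : M2, PP N * (PI N * x * PP N) * PI N = x := by
    intro x
    calc PP N * (PI N * x * PP N) * PI N = (PP N * PI N) * x * (PP N * PI N) := by
          simp only [Matrix.mul_assoc]
      _ = x := by rw [h1, Matrix.one_mul, Matrix.mul_one]
  rwa [h3, h3] at h2

theorem eta_S_PI (s : ℤ × ℤ × ℤ) : eta_S N s * PI N ∈ OO N := by
  have h : (N : ℝ) ≠ 0 := by exact_mod_cast (eta_N0 (N := N))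
  refine ⟨s.1, s.2.1, s.2.1, s.2.2, ?_⟩
  ext i j
  fin_cases i <;> fin_cases j <;>
    simp [eta_S, sy, PI, Matrix.mul_apply, Fin.sum_univ_two]
  all_goals field_simp

omit [Fact N.Prime] in
theorem eta_S_symm (s : ℤ × ℤ × ℤ) : (eta_S N s)ᵀ = eta_S N s := eta_sy_symm _

theorem eta_m_symp {g : M2} (hg : g.det = 1) (s : ℤ × ℤ × ℤ) :
    eta_m N g s ∈ Matrix.symplecticGroup (Fin 2) ℝ := by
  have hD : IsUnit (eta_D N g).det := by
    rw [eta_D_det, hg]; exact isUnit_one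
  unfold eta_m
  rw [SymplecticGroup.fromBlocks_mem_iff]
  refine ⟨by simp, ?_, ?_⟩
  · rw [transpose_mul, eta_S_symm, Matrix.mul_assoc]
  · rw [transpose_transpose, transpose_zero, Matrix.zero_mul, sub_zero,
      Matrix.nonsing_inv_mul _ hD]

theorem eta_m_inG {g : M2} (hg : g ∈ G0m N) (s : ℤ × ℤ × ℤ) : inG N (eta_m N g s) := by
  have h1 := pp_mul_pi (eta_N0 (N := N))
  obtain ⟨hO, hd⟩ := hg
  have hd0 : g.det ≠ 0 := by rw [hd]; norm_num
  refine ⟨?_, ?_, ?_, ?_⟩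
  · unfold eta_m
    rw [toBlocks_fromBlocks₁₁, eta_D_inv hd0]
    unfold eta_D
    rw [transpose_mul, transpose_mul, eta_PIt, eta_PPt, ← Matrix.mul_assoc]
    exact oo_sigma eta_N0 (eta_inv_oo hO hd)
  · unfold eta_m
    rw [toBlocks_fromBlocks₁₂]
    have e : eta_S N s * eta_D N g * PI N = (eta_S N s * PI N) * g := by
      unfold eta_D
      calc eta_S N s * (PI N * g * PP N) * PI N = eta_S N s * PI N * g * (PP N * PI N) := by
            simp only [Matrix.mul_assoc]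
        _ = _ := by rw [h1, Matrix.mul_one]
    rw [e]
    exact oo_mul (eta_S_PI s) hO
  · unfold cb eta_m
    rw [toBlocks_fromBlocks₂₁, Matrix.mul_zero]
    exact oo_zero
  · unfold db eta_m
    rw [toBlocks_fromBlocks₂₂]
    have e : PP N * eta_D N g * PI N = g := by
      unfold eta_D
      calc PP N * (PI N * g * PP N) * PI N = (PP N * PI N) * g * (PP N * PI N) := by
            simp only [Matrix.mul_assoc]
        _ = g := by rw [h1, Matrix.one_mul, Matrix.mul_one]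
    rw [e]
    exact hO

theorem eta_toR_mul (a b : Matrix (Fin 2) (Fin 2) ℤ) : toR (a * b) = toR a * toR b := by
  unfold toR
  ext i j
  simp [Matrix.mul_apply]

omit [Fact N.Prime] in
theorem eta_toR_mem (γ : CongruenceSubgroup.Gamma0 N) :
    toR ((γ : SL(2, ℤ)) : Matrix (Fin 2) (Fin 2) ℤ) ∈ G0m N := by
  obtain ⟨γ, hγ⟩ := γ
  have hc : (N : ℤ) ∣ γ 1 0 := by
    rw [CongruenceSubgroup.Gamma0_mem] at hγ
    exact (ZMod.intCast_zmod_eq_zero_iff_dvd _ _).mp hγ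
  obtain ⟨c, hc⟩ := hc
  refine ⟨⟨γ 0 0, γ 0 1, c, γ 1 1, ?_⟩, ?_⟩
  · ext i j
    fin_cases i <;> fin_cases j <;> simp [toR, hc]
  · have h := γ.det_coe
    rw [Matrix.det_fin_two] at h
    rw [Matrix.det_fin_two]
    simp only [toR, Matrix.map_apply]
    exact_mod_cast h

theorem eta_toR_inj {a b : Matrix (Fin 2) (Fin 2) ℤ} (h : toR a = toR b) : a = b := by
  ext i j
  have := congrFun (congrFun h i) j
  simpa [toR] using this

/-- the parametrisation of the parabolic subgroup -/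
noncomputable def eta_Phi (t : CongruenceSubgroup.Gamma0 N × (ℤ × ℤ × ℤ)) : PN N :=
  ⟨⟨⟨eta_m N (toR ((t.1 : SL(2, ℤ)) : Matrix (Fin 2) (Fin 2) ℤ)) t.2,
    eta_m_symp (eta_toR_mem t.1).2 t.2⟩, eta_m_inG (eta_toR_mem t.1) t.2⟩, by
      refine ⟨?_, ?_⟩
      · show (eta_m N _ _).toBlocks₂₁ = 0
        unfold eta_m
        rw [toBlocks_fromBlocks₂₁]
      · show ((eta_m N _ _).toBlocks₂₂).det = 1
        unfold eta_m
        rw [toBlocks_fromBlocks₂₂, eta_D_det]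
        exact (eta_toR_mem t.1).2⟩

theorem eta_Phi_mt (t : CongruenceSubgroup.Gamma0 N × (ℤ × ℤ × ℤ)) :
    mt N ((eta_Phi t : PN N) : GaN N) =
      eta_m N (toR ((t.1 : SL(2, ℤ)) : Matrix (Fin 2) (Fin 2) ℤ)) t.2 := rfl

theorem eta_Phi_inj : Function.Injective (eta_Phi (N := N)) := by
  have hN : (N : ℝ) ≠ 0 := by exact_mod_cast (eta_N0 (N := N))
  rintro ⟨γ, s⟩ ⟨γ', s'⟩ h
  have h1 : eta_m N (toR ((γ : SL(2, ℤ)) : Matrix (Fin 2) (Fin 2) ℤ)) s =
      eta_m N (toR ((γ' : SL(2, ℤ)) : Matrix (Fin 2) (Fin 2) ℤ)) s' := by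
    have := congrArg (fun p : PN N => mt N (p : GaN N)) h
    simpa only [eta_Phi_mt] using this
  unfold eta_m at h1
  obtain ⟨-, h2, -, h3⟩ := fromBlocks_inj.1 h1
  have h4 := eta_toR_inj (eta_D_inj h3)
  have h5 : γ = γ' := Subtype.ext (Subtype.ext h4)
  subst h5
  have hD : IsUnit (eta_D N (toR ((γ : SL(2, ℤ)) : Matrix (Fin 2) (Fin 2) ℤ))).det := by
    rw [eta_D_det, (eta_toR_mem γ).2]; exact isUnit_one
  have h6 : eta_S N s = eta_S N s' := by
    have := congrArg (fun m : M2 => m * (eta_D N (toR ((γ : SL(2, ℤ)) :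
      Matrix (Fin 2) (Fin 2) ℤ)))⁻¹) h2
    simpa only [Matrix.mul_assoc, Matrix.mul_nonsing_inv _ hD, Matrix.mul_one] using this
  have h7 := congrArg ys h6
  obtain ⟨a, b, c⟩ := s
  obtain ⟨a', b', c'⟩ := s'
  simp only [ys, eta_S, sy, Matrix.of_apply, Matrix.cons_val', Matrix.cons_val_zero,
    Matrix.cons_val_one, Matrix.empty_val', Matrix.cons_val_fin_one, Prod.mk.injEq,
    mul_eq_mul_left_iff, hN, or_false, Int.cast_inj] at h7
  obtain ⟨h8, h9, h10⟩ := h7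
  rw [h8, h9, h10]

theorem eta_Phi_surj : Function.Surjective (eta_Phi (N := N)) := by
  have h1 := pp_mul_pi (eta_N0 (N := N))
  have h1' := pi_mul_pp (eta_N0 (N := N))
  have hN : (N : ℝ) ≠ 0 := by exact_mod_cast (eta_N0 (N := N))
  rintro ⟨⟨⟨M, hM⟩, hG⟩, hP⟩
  obtain ⟨g11, g12, g21, g22⟩ := hG
  obtain ⟨p21, p22⟩ := hP
  change M.toBlocks₂₁ = 0 at p21
  change (M.toBlocks₂₂).det = 1 at p22
  change M.toBlocks₁₁ ∈ OO N at g11
  change M.toBlocks₁₂ * PI N ∈ OO N at g12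
  change PP N * M.toBlocks₂₂ * PI N ∈ OO N at g22
  obtain ⟨A, hA⟩ : ∃ A, A = M.toBlocks₁₁ := ⟨_, rfl⟩
  obtain ⟨B, hB⟩ : ∃ B, B = M.toBlocks₁₂ := ⟨_, rfl⟩
  obtain ⟨D, hD⟩ : ∃ D, D = M.toBlocks₂₂ := ⟨_, rfl⟩
  have hMb : M = fromBlocks A B 0 D := by
    rw [hA, hB, hD, ← p21, fromBlocks_toBlocks]
  rw [← hD] at p22 g22
  rw [← hB] at g12
  have hDu : IsUnit D.det := by rw [p22]; exact isUnit_one
  rw [hMb, SymplecticGroup.fromBlocks_mem_iff] at hM
  obtain ⟨-, m2, m3⟩ := hM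
  rw [transpose_zero, Matrix.zero_mul, sub_zero] at m3
  have hAD : A = (D⁻¹)ᵀ := by
    have : D⁻¹ = Aᵀ := Matrix.inv_eq_left_inv m3
    rw [this, transpose_transpose]
  -- the unit
  set u : M2 := PP N * D * PI N with hu
  have hud : u.det = 1 := by
    have h2 : (PP N).det * (PI N).det = 1 := by rw [← det_mul, h1, det_one]
    rw [hu, det_mul, det_mul]
    calc (PP N).det * D.det * (PI N).det = D.det * ((PP N).det * (PI N).det) := by ring
      _ = 1 := by rw [h2, p22, mul_one]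
  have hDu' : eta_D N u = D := by
    unfold eta_D
    calc PI N * (PP N * D * PI N) * PP N = (PI N * PP N) * D * (PI N * PP N) := by
          simp only [Matrix.mul_assoc]
      _ = D := by rw [h1', Matrix.one_mul, Matrix.mul_one]
  obtain ⟨a, b, c, d, hudef⟩ := g22
  have hdet : a * d - b * ((N : ℤ) * c) = 1 := by
    have h3 := hud
    rw [hudef, Matrix.det_fin_two_of] at h3
    exact_mod_cast h3
  let γ0 : SL(2, ℤ) := ⟨!![a, b; (N : ℤ) * c, d], by rw [Matrix.det_fin_two_of]; exact hdet⟩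
  have hγ0 : γ0 ∈ CongruenceSubgroup.Gamma0 N := by
    rw [CongruenceSubgroup.Gamma0_mem]
    show (((N : ℤ) * c : ℤ) : ZMod N) = 0
    simp
  have hγR : toR (γ0 : Matrix (Fin 2) (Fin 2) ℤ) = u := by
    rw [hudef]
    ext i j
    fin_cases i <;> fin_cases j <;> simp [toR, γ0]
  -- the symmetric matrix
  set Sm : M2 := B * D⁻¹ with hSm
  have hSsymm : Smᵀ = Sm := by
    have h3 : (D⁻¹)ᵀ * (Bᵀ * D) * D⁻¹ = (D⁻¹)ᵀ * (Dᵀ * B) * D⁻¹ := by rw [m2]
    have h4 : (D⁻¹)ᵀ * (Bᵀ * D) * D⁻¹ = Smᵀ := by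
      rw [hSm, transpose_mul, Matrix.mul_assoc, Matrix.mul_assoc, Matrix.mul_nonsing_inv _ hDu,
        Matrix.mul_one]
    have h5 : (D⁻¹)ᵀ * (Dᵀ * B) * D⁻¹ = Sm := by
      rw [← Matrix.mul_assoc, ← transpose_mul, Matrix.mul_nonsing_inv _ hDu, transpose_one,
        Matrix.one_mul]
    rw [← h4, h3, h5]
  have hSPI : Sm * PI N ∈ OO N := by
    have e : Sm * PI N = (B * PI N) * u⁻¹ := by
      have h3 : u⁻¹ = PP N * D⁻¹ * PI N := by
        refine Matrix.inv_eq_right_inv ?_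
        calc u * (PP N * D⁻¹ * PI N) = PP N * D * (PI N * PP N) * D⁻¹ * PI N := by
              rw [hu]; simp only [Matrix.mul_assoc]
          _ = 1 := by
              rw [h1', Matrix.mul_one, Matrix.mul_assoc (PP N), Matrix.mul_nonsing_inv _ hDu,
                Matrix.mul_one, h1]
      rw [h3, hSm]
      calc B * D⁻¹ * PI N = B * (PI N * PP N) * D⁻¹ * PI N := by
            rw [h1', Matrix.mul_one]
        _ = _ := by simp only [Matrix.mul_assoc]
    rw [e]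
    refine oo_mul g12 (eta_inv_oo ?_ hud)
    rw [hudef]
    exact ⟨a, b, c, d, rfl⟩
  obtain ⟨s1, s2, s3, s4, hs⟩ := hSPI
  have hSm2 : Sm = !![(s1 : ℝ), (N : ℝ) * (s2 : ℝ); (N : ℝ) * (s3 : ℝ), (N : ℝ) * (s4 : ℝ)] := by
    have h3 : Sm = Sm * PI N * PP N := by
      rw [Matrix.mul_assoc, h1', Matrix.mul_one]
    rw [h3, hs]
    ext i j
    fin_cases i <;> fin_cases j <;>
      simp [PP, Matrix.mul_apply, Fin.sum_univ_two, mul_comm]
  have hS : Sm = eta_S N (s1, s2, s4) := by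
    have h3 : (N : ℝ) * (s3 : ℝ) = (N : ℝ) * (s2 : ℝ) := by
      have := congrFun (congrFun hSsymm 0) 1
      rw [hSm2] at this
      simpa using this
    rw [hSm2, h3]
    ext i j
    fin_cases i <;> fin_cases j <;> simp [eta_S, sy]
  refine ⟨(⟨γ0, hγ0⟩, (s1, s2, s4)), ?_⟩
  apply Subtype.ext
  apply Subtype.ext
  apply Subtype.ext
  show eta_m N (toR (γ0 : Matrix (Fin 2) (Fin 2) ℤ)) (s1, s2, s4) = M
  unfold eta_m
  rw [hγR, hDu', ← hS, hMb, ← hAD, hSm, Matrix.mul_assoc, Matrix.nonsing_inv_mul _ hDu,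
    Matrix.mul_one]

theorem eta_countable : Countable (PN N) :=
  Function.Surjective.countable (eta_Phi_surj (N := N))

/-! ### the upper half plane -/

omit [Fact N.Prime] in
theorem eta_den_ne {e : M2} (he : e.det ≠ 0) :
    ((e 1 0 : ℝ) : ℂ) * Complex.I + ((e 1 1 : ℝ) : ℂ) ≠ 0 := by
  intro h
  have h1 := congrArg Complex.re h
  have h2 := congrArg Complex.im h
  simp at h1 h2
  apply he
  rw [Matrix.det_fin_two, h1, h2]
  ring

omit [Fact N.Prime] in
theorem eta_zz_coe {e : M2} (he : 0 < e.det) : ((zz e : ℍ) : ℂ) =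
    (((e 0 0 : ℝ) : ℂ) * Complex.I + ((e 0 1 : ℝ) : ℂ)) /
      (((e 1 0 : ℝ) : ℂ) * Complex.I + ((e 1 1 : ℝ) : ℂ)) := by
  have hne := eta_den_ne he.ne'
  have him : 0 < ((((e 0 0 : ℝ) : ℂ) * Complex.I + ((e 0 1 : ℝ) : ℂ)) /
      (((e 1 0 : ℝ) : ℂ) * Complex.I + ((e 1 1 : ℝ) : ℂ))).im := by
    have h1 : ((((e 0 0 : ℝ) : ℂ) * Complex.I + ((e 0 1 : ℝ) : ℂ)) /
      (((e 1 0 : ℝ) : ℂ) * Complex.I + ((e 1 1 : ℝ) : ℂ))).im =
        e.det / Complex.normSq (((e 1 0 : ℝ) : ℂ) * Complex.I + ((e 1 1 : ℝ) : ℂ)) := by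
      rw [Complex.div_im, Matrix.det_fin_two]
      simp
      ring
    rw [h1]
    exact div_pos he (Complex.normSq_pos.mpr hne)
  unfold zz
  rw [ofComplex_apply_of_im_pos him]

omit [Fact N.Prime] in
theorem eta_toR_det (γ : SL(2, ℤ)) : (toR (γ : Matrix (Fin 2) (Fin 2) ℤ)).det = 1 := by
  have h := γ.det_coe
  rw [Matrix.det_fin_two] at h
  rw [Matrix.det_fin_two]
  simp only [toR, Matrix.map_apply]
  exact_mod_cast h

omit [Fact N.Prime] in
theorem eta_zz_smul (γ : SL(2, ℤ)) {e : M2} (he : 0 < e.det) :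
    zz (toR (γ : Matrix (Fin 2) (Fin 2) ℤ) * e) = γ • zz e := by
  have hd : 0 < (toR (γ : Matrix (Fin 2) (Fin 2) ℤ) * e).det := by
    rw [det_mul, eta_toR_det, one_mul]; exact he
  apply UpperHalfPlane.ext
  rw [eta_zz_coe hd, coe_specialLinearGroup_apply, eta_zz_coe he]
  have h1 := eta_den_ne he.ne'
  have h2 := eta_den_ne hd.ne'
  have e1 : ∀ i j, (toR (γ : Matrix (Fin 2) (Fin 2) ℤ) * e) i j =
      (γ i 0 : ℤ) * e 0 j + (γ i 1 : ℤ) * e 1 j := by
    intro i j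
    rw [Matrix.mul_apply, Fin.sum_univ_two]
    rfl
  simp only [e1] at h2 ⊢
  have h3 : (((algebraMap ℤ ℝ) (γ 1 0) : ℝ) : ℂ) * ((((e 0 0 : ℝ) : ℂ) * Complex.I +
      ((e 0 1 : ℝ) : ℂ)) / (((e 1 0 : ℝ) : ℂ) * Complex.I + ((e 1 1 : ℝ) : ℂ))) +
      (((algebraMap ℤ ℝ) (γ 1 1) : ℝ) : ℂ) =
      ((((γ 1 0 : ℤ) * e 0 0 + (γ 1 1 : ℤ) * e 1 0 : ℝ) : ℂ) * Complex.I +
        (((γ 1 0 : ℤ) * e 0 1 + (γ 1 1 : ℤ) * e 1 1 : ℝ) : ℂ)) /
        (((e 1 0 : ℝ) : ℂ) * Complex.I + ((e 1 1 : ℝ) : ℂ)) := by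
    rw [eq_div_iff h1, add_mul, mul_assoc, div_mul_cancel₀ _ h1]
    push_cast
    simp only [eq_intCast]
    push_cast
    ring
  have h4 : (((algebraMap ℤ ℝ) (γ 0 0) : ℝ) : ℂ) * ((((e 0 0 : ℝ) : ℂ) * Complex.I +
      ((e 0 1 : ℝ) : ℂ)) / (((e 1 0 : ℝ) : ℂ) * Complex.I + ((e 1 1 : ℝ) : ℂ))) +
      (((algebraMap ℤ ℝ) (γ 0 1) : ℝ) : ℂ) =
      ((((γ 0 0 : ℤ) * e 0 0 + (γ 0 1 : ℤ) * e 1 0 : ℝ) : ℂ) * Complex.I +
        (((γ 0 0 : ℤ) * e 0 1 + (γ 0 1 : ℤ) * e 1 1 : ℝ) : ℂ)) /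
        (((e 1 0 : ℝ) : ℂ) * Complex.I + ((e 1 1 : ℝ) : ℂ)) := by
    rw [eq_div_iff h1, add_mul, mul_assoc, div_mul_cancel₀ _ h1]
    push_cast
    simp only [eq_intCast]
    push_cast
    ring
  rw [h3, h4, div_div_div_cancel_right₀ h1]

/-! ### the box -/

open Classical in
theorem eta_box (y : R3) :
    ∑' s : ℤ × ℤ × ℤ, (if y + ys (eta_S N s) ∈ bx N then (1 : ℝ≥0∞) else 0) = 1 := by
  have hN : (0 : ℝ) < N := by exact_mod_cast (Fact.out : N.Prime).pos
  obtain ⟨a, ha, ha'⟩ := existsUnique_add_zsmul_mem_Ico (one_pos : (0 : ℝ) < 1) y.1 0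
  obtain ⟨b, hb, hb'⟩ := existsUnique_add_zsmul_mem_Ico hN y.2.1 0
  obtain ⟨c, hc, hc'⟩ := existsUnique_add_zsmul_mem_Ico hN y.2.2 0
  simp only [zero_add, zsmul_eq_mul, mul_one] at ha ha' hb hb' hc hc'
  have key : ∀ s : ℤ × ℤ × ℤ, y + ys (eta_S N s) ∈ bx N ↔ s = (a, b, c) := by
    rintro ⟨s1, s2, s3⟩
    have e : y + ys (eta_S N (s1, s2, s3)) =
        (y.1 + (s1 : ℝ), y.2.1 + (s2 : ℝ) * N, y.2.2 + (s3 : ℝ) * N) := by
      simp [ys, eta_S, sy, mul_comm, Prod.ext_iff]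
    rw [e]
    unfold bx
    rw [Set.mem_prod, Set.mem_prod]
    constructor
    · rintro ⟨h1, h2, h3⟩
      rw [ha' s1 h1, hb' s2 h2, hc' s3 h3]
    · intro h
      simp only [Prod.mk.injEq] at h
      obtain ⟨rfl, rfl, rfl⟩ := h
      exact ⟨ha, hb, hc⟩
  rw [tsum_eq_single (a, b, c)]
  · rw [if_pos ((key _).2 rfl)]
  · intro s hs
    rw [if_neg (fun h => hs ((key s).1 h))]

/-! ### the action in coordinates -/

open Classical in
theorem eta_act (t : CongruenceSubgroup.Gamma0 N × (ℤ × ℤ × ℤ)) (x : R3) (e : R4) (y : R3)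
    (he : 0 < (ma e).det) :
    eta N (act N ((eta_Phi t : PN N) : GaN N) (jj N (x, e, y))) =
      (if ys (((eta_D N (toR ((t.1 : SL(2, ℤ)) : Matrix (Fin 2) (Fin 2) ℤ)))⁻¹)ᵀ * sy x *
        (eta_D N (toR ((t.1 : SL(2, ℤ)) : Matrix (Fin 2) (Fin 2) ℤ)))⁻¹) + ys (eta_S N t.2) ∈ bx N
        then 1 else 0) * LEV.FUN_psi N ((t.1 : SL(2, ℤ)) • zz (ma e)) := by
  have h1 := pp_mul_pi (eta_N0 (N := N))
  have hNR : (N : ℝ) ≠ 0 := by exact_mod_cast (eta_N0 (N := N))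
  obtain ⟨g, hg⟩ : ∃ g, g = toR ((t.1 : SL(2, ℤ)) : Matrix (Fin 2) (Fin 2) ℤ) := ⟨_, rfl⟩
  have hgd : g.det = 1 := by rw [hg]; exact eta_toR_det _
  obtain ⟨D, hD⟩ : ∃ D, D = eta_D N g := ⟨_, rfl⟩
  have hDu : IsUnit D.det := by
    rw [hD, eta_D_det, hgd]; exact isUnit_one
  obtain ⟨E, hE⟩ : ∃ E, E = PI N * ma e := ⟨_, rfl⟩
  have hEu : IsUnit E.det := by
    rw [hE, det_mul, isUnit_iff_ne_zero]
    refine mul_ne_zero ?_ he.ne'
    rw [PI, Matrix.det_fin_two_of]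
    simp [hNR]
  unfold eta
  have hb : jj N (x, e, y) = fromBlocks ((E⁻¹)ᵀ + sy x * E * sy y) (sy x * E) (E * sy y) E := by
    rw [jj_blocks, hE]
  have ha : act N ((eta_Phi t : PN N) : GaN N) (jj N (x, e, y)) =
      fromBlocks ((D⁻¹)ᵀ * ((E⁻¹)ᵀ + sy x * E * sy y) + eta_S N t.2 * D * (E * sy y))
        ((D⁻¹)ᵀ * (sy x * E) + eta_S N t.2 * D * E) (D * (E * sy y)) (D * E) := by
    unfold act
    rw [eta_Phi_mt, ← hg, hb]
    unfold eta_m
    rw [← hD, fromBlocks_multiply, Matrix.zero_mul, Matrix.zero_mul, zero_add, zero_add]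
  have e1 : ((D⁻¹)ᵀ * (sy x * E) + eta_S N t.2 * D * E) * (D * E)⁻¹ =
      (D⁻¹)ᵀ * sy x * D⁻¹ + eta_S N t.2 := by
    rw [Matrix.mul_inv_rev, Matrix.add_mul]
    congr 1
    · calc (D⁻¹)ᵀ * (sy x * E) * (E⁻¹ * D⁻¹) = (D⁻¹)ᵀ * sy x * (E * E⁻¹) * D⁻¹ := by
            simp only [Matrix.mul_assoc]
        _ = _ := by rw [Matrix.mul_nonsing_inv _ hEu, Matrix.mul_one]
    · calc eta_S N t.2 * D * E * (E⁻¹ * D⁻¹) = eta_S N t.2 * (D * (E * E⁻¹) * D⁻¹) := by
            simp only [Matrix.mul_assoc]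
        _ = _ := by
            rw [Matrix.mul_nonsing_inv _ hEu, Matrix.mul_one, Matrix.mul_nonsing_inv _ hDu,
              Matrix.mul_one]
  have e2 : db N (act N ((eta_Phi t : PN N) : GaN N) (jj N (x, e, y))) = g * ma e := by
    rw [ha]
    unfold db
    rw [toBlocks_fromBlocks₂₂, hD, hE]
    unfold eta_D
    calc PP N * (PI N * g * PP N * (PI N * ma e)) = (PP N * PI N) * g * (PP N * PI N) * ma e := by
          simp only [Matrix.mul_assoc]
      _ = g * ma e := by rw [h1, Matrix.one_mul, Matrix.mul_one]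
  rw [e2, ha, toBlocks_fromBlocks₁₂, toBlocks_fromBlocks₂₂, e1, eta_ys_add, ← hg, ← hD]
  congr 2
  rw [hg, eta_zz_smul _ he]

theorem eta_sum_coord (x : R3) (e : R4) (y : R3) (he : 0 < (ma e).det)
    (hz : ∑' γ : CongruenceSubgroup.Gamma0 N,
      LEV.FUN_psi N ((γ : SL(2, ℤ)) • zz (ma e)) = 1) :
    ∑' p : PN N, eta N (act N (p : GaN N) (jj N (x, e, y))) = 1 := by
  have h1 := (Equiv.ofBijective (eta_Phi (N := N)) ⟨eta_Phi_inj, eta_Phi_surj⟩).tsum_eq
    (fun p : PN N => eta N (act N (p : GaN N) (jj N (x, e, y))))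
  rw [← h1, ENNReal.tsum_prod', ← hz]
  refine tsum_congr fun γ => ?_
  have h2 : ∀ s : ℤ × ℤ × ℤ, eta N (act N ((Equiv.ofBijective (eta_Phi (N := N))
      ⟨eta_Phi_inj, eta_Phi_surj⟩ (γ, s) : PN N) : GaN N) (jj N (x, e, y))) = _ :=
    fun s => eta_act (γ, s) x e y he
  simp_rw [h2]
  rw [ENNReal.tsum_mul_right, eta_box, one_mul]

/-! ### measure theory -/

omit [Fact N.Prime] in
theorem eta_entry (i j : Fin 2 ⊕ Fin 2) : Measurable (fun x : M4 => x i j) :=
  (measurable_pi_apply j).comp (measurable_pi_apply i)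

theorem eta_act_meas (g : GaN N) : Measurable (act N g) := by
  refine measurable_pi_iff.mpr fun i => measurable_pi_iff.mpr fun j => ?_
  show Measurable (fun x : M4 => (mt N g * x) i j)
  simp only [Matrix.mul_apply]
  exact Finset.measurable_sum _ fun k _ => (eta_entry k j).const_mul _

omit [Fact N.Prime] in
theorem eta_db_meas : Measurable (fun x : M4 => (db N x).det) := by
  have h : ∀ i j, Measurable (fun x : M4 => (db N x) i j) := by
    intro i j
    unfold db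
    simp only [Matrix.mul_apply]
    exact Finset.measurable_sum _ fun k _ => (eta_entry (Sum.inr k) (Sum.inr j)).const_mul _
  simp only [Matrix.det_fin_two]
  exact ((h 0 0).mul (h 1 1)).sub ((h 0 1).mul (h 1 0))

theorem eta_ae_e : ∀ᵐ e : R4, 0 < (ma e).det →
    ∑' γ : CongruenceSubgroup.Gamma0 N, LEV.FUN_psi N ((γ : SL(2, ℤ)) • zz (ma e)) = 1 := by
  set bad : Set ℍ := {z : ℍ | ¬ ∑' γ : CongruenceSubgroup.Gamma0 N,
    LEV.FUN_psi N ((γ : SL(2, ℤ)) • z) = 1} with hbad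
  have h0 : (volume : Measure ℍ) bad = 0 := LEV.FUN_psi_sum (N := N)
  set B : Set ℍ := toMeasurable volume bad with hB
  have hBm : MeasurableSet B := measurableSet_toMeasurable _ _
  have hB0 : (volume : Measure ℍ) B = 0 := by rw [hB, measure_toMeasurable, h0]
  have hΨ : Measurable (B.indicator (fun _ => (1 : ℝ≥0∞))) := measurable_const.indicator hBm
  have h1 := cov (G := fun _ => 1) measurable_const hΨ
  have h2 : ∫⁻ z : ℍ, B.indicator (fun _ => (1 : ℝ≥0∞)) z = 0 := by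
    rw [lintegral_indicator hBm, setLIntegral_one, hB0]
  rw [h2, mul_zero, zero_mul] at h1
  have hma : Measurable (fun e : R4 => ma e) := by
    refine measurable_pi_iff.mpr fun i => measurable_pi_iff.mpr fun j => ?_
    fin_cases i <;> fin_cases j <;> simp [ma] <;> fun_prop
  have hdet : Measurable (fun e : R4 => (ma e).det) := by
    simp only [Matrix.det_fin_two, ma]
    simp
    fun_prop
  have hm : Measurable (fun e : R4 => if 0 < (ma e).det then
      (1 : ℝ≥0∞) * B.indicator (fun _ => (1 : ℝ≥0∞)) (zz (ma e)) else 0) := by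
    refine Measurable.ite (measurableSet_lt measurable_const hdet) ?_ measurable_const
    exact (hΨ.comp (zz_meas.comp hma)).const_mul _
  rw [lintegral_eq_zero_iff hm] at h1
  filter_upwards [h1] with e he hpos
  by_contra hcon
  have h3 : zz (ma e) ∈ B := subset_toMeasurable _ _ hcon
  have h4 : (if 0 < (ma e).det then
      (1 : ℝ≥0∞) * B.indicator (fun _ => (1 : ℝ≥0∞)) (zz (ma e)) else 0) = 0 := he
  rw [if_pos hpos, Set.indicator_of_mem h3] at h4
  norm_num at h4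

end group

section form
variable {N : ℕ} [Fact N.Prime] (f : S2 N)

/-- ETA. the weight is a partition of unity -/
theorem eta_sum_pr (h : ℝ → ℝ) :
    ∀ᵐ x ∂(nu N), FF f h x ≠ 0 → ∑' p : PN N, eta N (act N (p : GaN N) x) = 1 := by
  have := eta_countable (N := N)
  have hT : MeasurableSet {x : M4 | 0 < (db N x).det →
      ∑' p : PN N, eta N (act N (p : GaN N) x) = 1} := by
    have h1 : MeasurableSet {x : M4 | 0 < (db N x).det} :=
      measurableSet_lt measurable_const eta_db_meas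
    have h2 : MeasurableSet {x : M4 | ∑' p : PN N, eta N (act N (p : GaN N) x) = 1} :=
      measurableSet_eq_fun (Measurable.tsum fun p => eta_meas.comp (eta_act_meas _))
        measurable_const
    have e : {x : M4 | 0 < (db N x).det → ∑' p : PN N, eta N (act N (p : GaN N) x) = 1} =
        {x : M4 | 0 < (db N x).det}ᶜ ∪
          {x : M4 | ∑' p : PN N, eta N (act N (p : GaN N) x) = 1} := by
      ext x
      simp only [Set.mem_ofPred_eq, Set.mem_union, Set.mem_compl_iff]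
      tauto
    rw [e]
    exact h1.compl.union h2
  have main : ∀ᵐ x ∂(nu N), 0 < (db N x).det →
      ∑' p : PN N, eta N (act N (p : GaN N) x) = 1 := by
    unfold nu
    rw [ae_map_iff (jj_meas N).aemeasurable hT]
    refine (withDensity_absolutelyContinuous _ _).ae_le ?_
    have h1 : ∀ᵐ w : R4 × R3, 0 < (ma w.1).det → ∑' γ : CongruenceSubgroup.Gamma0 N,
        LEV.FUN_psi N ((γ : SL(2, ℤ)) • zz (ma w.1)) = 1 :=
      Measure.quasiMeasurePreserving_fst.ae (eta_ae_e (N := N))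
    have h2 : ∀ᵐ w : R3 × R4 × R3, 0 < (ma w.2.1).det → ∑' γ : CongruenceSubgroup.Gamma0 N,
        LEV.FUN_psi N ((γ : SL(2, ℤ)) • zz (ma w.2.1)) = 1 :=
      Measure.quasiMeasurePreserving_snd.ae h1
    filter_upwards [h2] with w hw hpos
    obtain ⟨x, e, y⟩ := w
    rw [(cb_j N x e y).2] at hpos
    exact eta_sum_coord x e y hpos (hw hpos)
  filter_upwards [main] with x hx hF
  apply hx
  by_contra hcon
  apply hF
  unfold FF F0 ph
  rw [if_neg hcon, zero_mul, zero_mul]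

end form

end Pool.Agent.NN

namespace Pool.Agent.NN

theorem eta_sum : type_of% @eta_sum_pr := @eta_sum_pr

end Pool.Agent.NN
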