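import Pool.Agent.Lib_helper32.NN.Dfs2
import Pool.Agent.Lib_helper50.ZP.Ker

/-!
# Block GSH: the contour shift against a Gaussian
-/

namespace Pool.Agent.NN

open Complex MeasureTheory Filter Topology

/-- the Gaussian factor -/
noncomputable def gsh_E (A L : ℝ) (z : ℂ) : ℂ := cexp (2 * A * (z - 3 / 2) ^ 2 - A / 2 + z * L)

theorem gsh_E_norm (A L : ℝ) (z : ℂ) : ‖gsh_E A L z‖ =
    Real.exp (2 * A * ((z.re - 3 / 2) ^ 2 - z.im ^ 2) - A / 2 + z.re * L) := by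
  rw [gsh_E, Complex.norm_exp]
  congr 1
  have h : 2 * (A : ℂ) * (z - 3 / 2) ^ 2 - A / 2 + z * L =
      ((2 * A * ((z.re - 3 / 2) ^ 2 - z.im ^ 2) - A / 2 + z.re * L : ℝ) : ℂ) +
        ((4 * A * ((z.re - 3 / 2) * z.im) + z.im * L : ℝ) : ℂ) * I := by
    conv_lhs => rw [← Complex.re_add_im z]
    push_cast
    linear_combination (2 * (A : ℂ) * (z.im : ℂ) ^ 2) * I_sq
  rw [h, Complex.add_re, Complex.ofReal_re, Complex.re_ofReal_mul, Complex.I_re, mul_zero, add_zero]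

theorem gsh_E_diff (A L : ℝ) : Differentiable ℂ (gsh_E A L) := by
  unfold gsh_E
  fun_prop

theorem gsh_E_two (A L : ℝ) : gsh_E A L 2 = cexp (2 * L) := by
  rw [gsh_E]
  congr 1
  ring

theorem gsh_E_add (A L M : ℝ) (z : ℂ) : gsh_E A (L + M) z = gsh_E A L z * cexp (z * M) := by
  rw [gsh_E, gsh_E, ← Complex.exp_add]
  congr 1
  push_cast
  ring

/-- the Gaussian integral -/
theorem gsh_gauss {A : ℝ} (hA : 0 < A) (L : ℝ) : ∫ t : ℝ, gsh_E A L ((8 : ℝ) + t * I) =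
    ((2 * Real.pi / (Real.sqrt (8 * Real.pi * A) * Real.exp (A / 2)) *
      (Real.exp (3 / 2 * L) * Real.exp (-(L ^ 2) / (8 * A))) : ℝ) : ℂ) := by
  have h1 : ∀ t : ℝ, gsh_E A L ((8 : ℝ) + t * I) =
      cexp (((-(2 * A) : ℝ) : ℂ) * t ^ 2 + ((26 * A + L : ℝ) : ℂ) * I * t + ((84 * A + 8 * L : ℝ) : ℂ)) := by
    intro t
    rw [gsh_E]
    congr 1
    push_cast
    linear_combination (2 * (A : ℂ) * (t : ℂ) ^ 2) * I_sq
  simp_rw [h1]
  rw [integral_cexp_quadratic (by simpa using hA)]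
  have h2 : ((84 * A + 8 * L : ℝ) : ℂ) - (((26 * A + L : ℝ) : ℂ) * I) ^ 2 / (4 * ((-(2 * A) : ℝ) : ℂ)) =
      ((-(A / 2) + (3 / 2 * L + -(L ^ 2) / (8 * A)) : ℝ) : ℂ) := by
    have hA' : (A : ℂ) ≠ 0 := by exact_mod_cast hA.ne'
    rw [mul_pow, I_sq]
    push_cast
    field_simp
    ring
  rw [h2, ← Complex.ofReal_exp, Real.exp_add, Real.exp_add]
  have h3 : ((Real.pi : ℂ) / -((-(2 * A) : ℝ) : ℂ)) ^ (1 / 2 : ℂ) =
      ((Real.sqrt (Real.pi / (2 * A)) : ℝ) : ℂ) := by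
    rw [Real.sqrt_eq_rpow, Complex.ofReal_cpow (by positivity)]
    push_cast
    congr 2
    ring
  rw [h3, ← Complex.ofReal_mul]
  congr 1
  have h4 : Real.sqrt (Real.pi / (2 * A)) = 2 * Real.pi / Real.sqrt (8 * Real.pi * A) := by
    rw [eq_div_iff (by positivity), ← Real.sqrt_mul (by positivity)]
    rw [show Real.pi / (2 * A) * (8 * Real.pi * A) = (2 * Real.pi) ^ 2 by field_simp; ring]
    exact Real.sqrt_sq (by positivity)
  rw [h4, Real.exp_neg]
  field_simp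

theorem gsh_int_exp : Integrable (fun t : ℝ => Real.exp (-t ^ 2)) := by
  have := integrable_exp_neg_mul_sq (b := 1) (by norm_num)
  simpa using this

/-- a bound for the integrand in the strip -/
theorem gsh_bound {Q : ℂ → ℂ} {C : ℝ}
    (hb : ∀ z : ℂ, 7 / 4 ≤ z.re → z.re ≤ 8 → ‖Q z‖ ≤ C * Real.exp (C * |z.im|))
    {A : ℝ} (hA : 1 ≤ A) (L : ℝ) {z : ℂ} (h1 : 7 / 4 ≤ z.re) (h2 : z.re ≤ 8) :
    ‖gsh_E A L z * Q z‖ ≤ C * Real.exp (C ^ 2 / 4) *
      Real.exp (2 * A * (z.re - 3 / 2) ^ 2 - A / 2 + z.re * L) * Real.exp (-z.im ^ 2) := by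
  have hC : 0 ≤ C := by
    have := (norm_nonneg _).trans (hb 2 (by norm_num) (by norm_num))
    simpa using this
  rw [norm_mul, gsh_E_norm]
  have h3 := hb z h1 h2
  have h4 : C * |z.im| ≤ C ^ 2 / 4 + z.im ^ 2 := by
    have := sq_nonneg (C / 2 - |z.im|)
    rw [← sq_abs z.im]
    nlinarith
  have h5 : 2 * A * ((z.re - 3 / 2) ^ 2 - z.im ^ 2) - A / 2 + z.re * L + C * |z.im| ≤
      C ^ 2 / 4 + (2 * A * (z.re - 3 / 2) ^ 2 - A / 2 + z.re * L) + -z.im ^ 2 := by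
    nlinarith [sq_nonneg z.im]
  calc Real.exp (2 * A * ((z.re - 3 / 2) ^ 2 - z.im ^ 2) - A / 2 + z.re * L) * ‖Q z‖
      ≤ Real.exp (2 * A * ((z.re - 3 / 2) ^ 2 - z.im ^ 2) - A / 2 + z.re * L) *
        (C * Real.exp (C * |z.im|)) := mul_le_mul_of_nonneg_left h3 (Real.exp_pos _).le
    _ = C * Real.exp (2 * A * ((z.re - 3 / 2) ^ 2 - z.im ^ 2) - A / 2 + z.re * L + C * |z.im|) := by
        rw [Real.exp_add _ (C * |z.im|)]; ring
    _ ≤ C * Real.exp (C ^ 2 / 4 + (2 * A * (z.re - 3 / 2) ^ 2 - A / 2 + z.re * L) + -z.im ^ 2) :=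
        mul_le_mul_of_nonneg_left (Real.exp_le_exp.mpr h5) hC
    _ = _ := by rw [Real.exp_add, Real.exp_add]; ring

theorem gsh_line_ne {x : ℝ} (hx : x ≠ 2) (t : ℝ) : (x : ℂ) + t * I - 2 ≠ 0 := by
  intro h
  have := congrArg Complex.re h
  simp at this
  exact hx (by linarith)

theorem gsh_line_norm (x t : ℝ) : |x - 2| ≤ ‖(x : ℂ) + t * I - 2‖ := by
  have := Complex.abs_re_le_norm ((x : ℂ) + t * I - 2)
  simpa using this

/-- integrability on the lines -/
theorem gsh_line {Q : ℂ → ℂ} {C : ℝ} (hQ : DifferentiableOn ℂ Q {z | 3 / 2 < z.re})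
    (hb : ∀ z : ℂ, 7 / 4 ≤ z.re → z.re ≤ 8 → ‖Q z‖ ≤ C * Real.exp (C * |z.im|))
    {A : ℝ} (hA : 1 ≤ A) (L : ℝ) {x : ℝ} (h1 : 7 / 4 ≤ x) (h2 : x ≤ 8) (hx : x ≠ 2) :
    Integrable (fun t : ℝ => gsh_E A L (x + t * I) * Q (x + t * I) / ((x : ℂ) + t * I - 2)) := by
  have hcont : Continuous fun t : ℝ =>
      gsh_E A L (x + t * I) * Q (x + t * I) / ((x : ℂ) + t * I - 2) := by
    have hQc : Continuous fun t : ℝ => Q (x + t * I) := by
      rw [continuous_iff_continuousAt]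
      intro t
      have h3 : DifferentiableAt ℂ Q (x + t * I) := by
        apply hQ.differentiableAt
        apply (isOpen_lt continuous_const Complex.continuous_re).mem_nhds
        simp
        linarith
      exact ContinuousAt.comp (f := fun t : ℝ => (x : ℂ) + t * I) h3.continuousAt (by fun_prop)
    have hEc : Continuous fun t : ℝ => gsh_E A L (x + t * I) :=
      (gsh_E_diff A L).continuous.comp (by fun_prop)
    exact (hEc.mul hQc).div (by fun_prop) (fun t => gsh_line_ne hx t)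
  refine Integrable.mono' (gsh_int_exp.const_mul (C * Real.exp (C ^ 2 / 4) *
      Real.exp (2 * A * (x - 3 / 2) ^ 2 - A / 2 + x * L) / |x - 2|)) hcont.aestronglyMeasurable
    (Eventually.of_forall fun t => ?_)
  rw [norm_div]
  have h3 := gsh_bound hb hA L (z := x + t * I) (by simpa using h1) (by simpa using h2)
  simp only [add_re, ofReal_re, mul_re, I_re, mul_zero, ofReal_im, I_im, mul_one, sub_self,
    add_zero, add_im, mul_im, zero_add] at h3
  have h4 : 0 < |x - 2| := abs_pos.mpr (sub_ne_zero.mpr hx)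
  have h5 := gsh_line_norm x t
  calc _ ≤ (C * Real.exp (C ^ 2 / 4) * Real.exp (2 * A * (x - 3 / 2) ^ 2 - A / 2 + x * L) *
        Real.exp (-t ^ 2)) / |x - 2| :=
        div_le_div₀ ((norm_nonneg _).trans h3) h3 h4 h5
    _ = _ := by ring

theorem gsh_k_int {x : ℝ} (hx : x ≠ 2) :
    Integrable (fun t : ℝ => cexp (((x : ℂ) + t * I - 2) ^ 2) / ((x : ℂ) + t * I - 2)) := by
  have hcont : Continuous fun t : ℝ =>
      cexp (((x : ℂ) + t * I - 2) ^ 2) / ((x : ℂ) + t * I - 2) :=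
    (by fun_prop : Continuous fun t : ℝ => cexp (((x : ℂ) + t * I - 2) ^ 2)).div (by fun_prop)
      (fun t => gsh_line_ne hx t)
  refine Integrable.mono' (gsh_int_exp.const_mul (Real.exp ((x - 2) ^ 2) / |x - 2|))
    hcont.aestronglyMeasurable (Eventually.of_forall fun t => ?_)
  have h4 : 0 < |x - 2| := abs_pos.mpr (sub_ne_zero.mpr hx)
  rw [norm_div]
  have h3 : ‖cexp (((x : ℂ) + t * I - 2) ^ 2)‖ = Real.exp ((x - 2) ^ 2) * Real.exp (-t ^ 2) := by
    have := ZP.norm_exp_sq (x - 2) t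
    rw [← Real.exp_add, ← sub_eq_add_neg, ← this]
    congr 3
    push_cast
    ring
  rw [h3]
  calc _ ≤ (Real.exp ((x - 2) ^ 2) * Real.exp (-t ^ 2)) / |x - 2| :=
        div_le_div_of_nonneg_left (by positivity) h4 (gsh_line_norm x t)
    _ = _ := by ring

/-- the residue -/
theorem gsh_res {Q : ℂ → ℂ} {C : ℝ} (hQ : DifferentiableOn ℂ Q {z | 3 / 2 < z.re})
    (hb : ∀ z : ℂ, 7 / 4 ≤ z.re → z.re ≤ 8 → ‖Q z‖ ≤ C * Real.exp (C * |z.im|))
    {A : ℝ} (hA : 1 ≤ A) (L : ℝ) :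
    ∫ t : ℝ, gsh_E A L ((8 : ℝ) + t * I) * Q ((8 : ℝ) + t * I) / (((8 : ℝ) : ℂ) + t * I - 2) =
      (∫ t : ℝ, gsh_E A L ((7 / 4 : ℝ) + t * I) * Q ((7 / 4 : ℝ) + t * I) /
        (((7 / 4 : ℝ) : ℂ) + t * I - 2)) + 2 * Real.pi * (cexp (2 * L) * Q 2) := by
  have hC : 0 ≤ C := by
    have := (norm_nonneg _).trans (hb 2 (by norm_num) (by norm_num))
    simpa using this
  set c : ℂ := cexp (2 * L) * Q 2 with hc
  set G : ℂ → ℂ := fun z => gsh_E A L z * Q z - c * cexp ((z - 2) ^ 2) with hG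
  have hG2 : G 2 = 0 := by
    simp only [hG, gsh_E_two, hc]
    simp
  have hopen : IsOpen {z : ℂ | 3 / 2 < z.re} := isOpen_lt continuous_const Complex.continuous_re
  have hGd : DifferentiableOn ℂ G {z | 3 / 2 < z.re} := by
    refine ((gsh_E_diff A L).differentiableOn.mul hQ).sub ?_
    exact (by fun_prop : Differentiable ℂ fun z : ℂ => c * cexp ((z - 2) ^ 2)).differentiableOn
  set H : ℂ → ℂ := dslope G 2 with hH
  have hHd : DifferentiableOn ℂ H {z | 3 / 2 < z.re} :=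
    (Complex.differentiableOn_dslope (hopen.mem_nhds (by norm_num))).2 hGd
  have hH1 : ∀ z : ℂ, z ≠ 2 → H z = gsh_E A L z * Q z / (z - 2) - c * (cexp ((z - 2) ^ 2) / (z - 2)) := by
    intro z hz
    rw [hH, dslope_of_ne G hz, slope_def_field, hG2, sub_zero]
    simp only [hG]
    rw [sub_div, mul_div_assoc c]
  have hne : ∀ {x : ℝ}, x ≠ 2 → ∀ t : ℝ, (x : ℂ) + t * I ≠ 2 := fun hx t h =>
    gsh_line_ne hx t (by rw [h]; ring)
  have hint : ∀ {x : ℝ}, 7 / 4 ≤ x → x ≤ 8 → x ≠ 2 → Integrable fun t : ℝ => H (x + t * I) := by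
    intro x h1 h2 hx
    have h3 := (gsh_line hQ hb hA L h1 h2 hx).sub ((gsh_k_int hx).const_mul c)
    refine h3.congr (Eventually.of_forall fun t => ?_)
    simp only [Pi.sub_apply]
    rw [hH1 _ (hne hx t)]
  have hval : ∀ {x : ℝ}, 7 / 4 ≤ x → x ≤ 8 → x ≠ 2 → ∫ t : ℝ, H (x + t * I) =
      (∫ t : ℝ, gsh_E A L (x + t * I) * Q (x + t * I) / ((x : ℂ) + t * I - 2)) -
        c * ∫ t : ℝ, cexp (((x : ℂ) + t * I - 2) ^ 2) / ((x : ℂ) + t * I - 2) := by
    intro x h1 h2 hx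
    rw [← integral_const_mul, ← integral_sub (gsh_line hQ hb hA L h1 h2 hx)
      ((gsh_k_int hx).const_mul c)]
    refine integral_congr_ae (Eventually.of_forall fun t => ?_)
    simp only
    rw [hH1 _ (hne hx t)]
  have hshift : ∫ t : ℝ, H (((7 / 4 : ℝ) : ℂ) + t * I) = ∫ t : ℝ, H (((8 : ℝ) : ℂ) + t * I) := by
    set M : ℝ := C * Real.exp (C ^ 2 / 4) * Real.exp (2 * A * (13 / 2) ^ 2 + 8 * |L|) +
      ‖c‖ * Real.exp 36 with hM
    refine ZP.shift_line (f := H) (a := 7 / 4) (b := 8) (by norm_num) ?_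
      (fun y => M * Real.exp (-y ^ 2)) ?_ ?_ (hint (by norm_num) (by norm_num) (by norm_num))
      (hint (by norm_num) (by norm_num) (by norm_num))
    · intro z h1 h2
      exact hHd.differentiableAt (hopen.mem_nhds (by show 3 / 2 < z.re; linarith))
    · have h1 : Tendsto (fun y : ℝ => Real.exp (-y ^ 2)) atTop (𝓝 0) := by
        refine Real.tendsto_exp_atBot.comp ?_
        exact tendsto_neg_atTop_atBot.comp (tendsto_pow_atTop two_ne_zero)
      simpa using h1.const_mul M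
    · intro z h1 h2 h3
      have hz2 : z ≠ 2 := by
        rintro rfl
        norm_num at h3
      have hn1 : 1 ≤ ‖z - 2‖ := by
        have := Complex.abs_im_le_norm (z - 2)
        simp at this
        linarith
      rw [hH1 z hz2]
      have h4 := gsh_bound hb hA L h1 h2
      have h5 : Real.exp (2 * A * (z.re - 3 / 2) ^ 2 - A / 2 + z.re * L) ≤
          Real.exp (2 * A * (13 / 2) ^ 2 + 8 * |L|) := by
        apply Real.exp_le_exp.mpr
        have h6 : (z.re - 3 / 2) ^ 2 ≤ (13 / 2) ^ 2 := by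
          apply sq_le_sq'
          · linarith
          · linarith
        have h7 : z.re * L ≤ 8 * |L| :=
          (mul_le_mul_of_nonneg_left (le_abs_self L) (by linarith)).trans
            (mul_le_mul_of_nonneg_right h2 (abs_nonneg L))
        nlinarith
      have h8 : ‖cexp ((z - 2) ^ 2)‖ ≤ Real.exp 36 * Real.exp (-|z.im| ^ 2) := by
        rw [ZP.norm_exp_sq', ← Real.exp_add]
        apply Real.exp_le_exp.mpr
        have h9 : (z - 2).re = z.re - 2 := by simp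
        have h10 : (z - 2).im = z.im := by simp
        rw [h9, h10, sq_abs]
        nlinarith
      calc ‖gsh_E A L z * Q z / (z - 2) - c * (cexp ((z - 2) ^ 2) / (z - 2))‖
          ≤ ‖gsh_E A L z * Q z / (z - 2)‖ + ‖c * (cexp ((z - 2) ^ 2) / (z - 2))‖ := norm_sub_le _ _
        _ ≤ ‖gsh_E A L z * Q z‖ + ‖c‖ * ‖cexp ((z - 2) ^ 2)‖ := by
            rw [norm_div, norm_mul c, norm_div (cexp _)]
            refine add_le_add (div_le_self (norm_nonneg _) hn1)
              (mul_le_mul_of_nonneg_left (div_le_self (norm_nonneg _) hn1) (norm_nonneg _))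
        _ ≤ C * Real.exp (C ^ 2 / 4) * Real.exp (2 * A * (13 / 2) ^ 2 + 8 * |L|) *
              Real.exp (-z.im ^ 2) + ‖c‖ * (Real.exp 36 * Real.exp (-|z.im| ^ 2)) := by
            refine add_le_add (h4.trans ?_) (mul_le_mul_of_nonneg_left h8 (norm_nonneg _))
            gcongr
        _ = M * Real.exp (-|z.im| ^ 2) := by rw [hM, sq_abs]; ring
  rw [hval (by norm_num) (by norm_num) (by norm_num),
    hval (by norm_num) (by norm_num) (by norm_num)] at hshift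
  have k1 : ∫ t : ℝ, cexp ((((8 : ℝ) : ℂ) + t * I - 2) ^ 2) / (((8 : ℝ) : ℂ) + t * I - 2) =
      Real.pi := by
    rw [← ZP.ker_int (a := 6) (by norm_num)]
    refine integral_congr_ae (Eventually.of_forall fun t => ?_)
    simp only
    have : (((8 : ℝ) : ℂ) + t * I - 2) = ((6 : ℝ) : ℂ) + t * I := by push_cast; ring
    rw [this]
  have k2 : ∫ t : ℝ, cexp ((((7 / 4 : ℝ) : ℂ) + t * I - 2) ^ 2) / (((7 / 4 : ℝ) : ℂ) + t * I - 2) =
      -Real.pi := by
    rw [← ZP.ker_int_neg (a := 1 / 4) (by norm_num)]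
    refine integral_congr_ae (Eventually.of_forall fun t => ?_)
    simp only
    have : (((7 / 4 : ℝ) : ℂ) + t * I - 2) = ((-(1 / 4) : ℝ) : ℂ) + t * I := by push_cast; ring
    rw [this]
  rw [k1, k2] at hshift
  linear_combination -hshift

theorem gsh_E_int {A : ℝ} (hA : 1 ≤ A) (L : ℝ) :
    Integrable (fun t : ℝ => gsh_E A L ((8 : ℝ) + t * I)) := by
  refine Integrable.mono' (gsh_int_exp.const_mul
    (Real.exp (2 * A * (13 / 2) ^ 2 - A / 2 + 8 * L)))
    ((gsh_E_diff A L).continuous.comp (by fun_prop :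
      Continuous fun t : ℝ => (((8 : ℝ) : ℂ) + t * I))).aestronglyMeasurable
    (Eventually.of_forall fun t => ?_)
  rw [gsh_E_norm, ← Real.exp_add]
  apply Real.exp_le_exp.mpr
  simp only [add_re, ofReal_re, mul_re, I_re, mul_zero, ofReal_im, I_im, mul_one, sub_self,
    add_zero, add_im, mul_im, zero_add]
  nlinarith [sq_nonneg t]

theorem gsh_gA {A w : ℝ} (hw : 0 < w) {n : ℕ} (hn : n ≠ 0) : gA A (n / w) =
    Real.exp (3 / 2 * (Real.log w + -Real.log n)) *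
      Real.exp (-((Real.log w + -Real.log n) ^ 2) / (8 * A)) := by
  have hn0 : (0 : ℝ) < n := by exact_mod_cast Nat.pos_of_ne_zero hn
  have h1 : Real.log (n / w) = -(Real.log w + -Real.log n) := by
    rw [Real.log_div hn0.ne' hw.ne']; ring
  rw [gA, Real.rpow_def_of_pos (by positivity), h1]
  congr 2
  · ring
  · ring

theorem gsh_series {α : ℕ → ℝ} {C0 : ℝ} (hα : ∀ n, |α n| ≤ C0 * (n : ℝ) ^ 6) (h0 : α 0 = 0)
    {A : ℝ} (hA : 1 ≤ A) {w : ℝ} (hw : 0 < w) :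
    ∫ t : ℝ, LSeries (fun n => ((α n : ℝ) : ℂ)) ((8 : ℝ) + t * I) *
      gsh_E A (Real.log w) ((8 : ℝ) + t * I) =
    ((2 * Real.pi * ((∑' n : ℕ, α n * gA A (n / w)) /
      (Real.sqrt (8 * Real.pi * A) * Real.exp (A / 2))) : ℝ) : ℂ) := by
  set L := Real.log w with hL
  set F : ℕ → ℝ → ℂ := fun n t => LSeries.term (fun n => ((α n : ℝ) : ℂ)) ((8 : ℝ) + t * I) n *
    gsh_E A L ((8 : ℝ) + t * I) with hF
  have hF1 : ∀ n : ℕ, ∀ t : ℝ, F n t = (α n : ℂ) * gsh_E A (L + -Real.log n) ((8 : ℝ) + t * I) := by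
    intro n t
    rcases eq_or_ne n 0 with rfl | hn
    · simp [hF, h0]
    · simp only [hF]
      rw [LSeries.term_of_ne_zero hn, gsh_E_add]
      have hn0 : (n : ℂ) ≠ 0 := by exact_mod_cast hn
      have h1 : cexp ((((8 : ℝ) : ℂ) + t * I) * ((-Real.log n : ℝ) : ℂ)) =
          ((n : ℂ) ^ (((8 : ℝ) : ℂ) + t * I))⁻¹ := by
        rw [Complex.cpow_def_of_ne_zero hn0, ← Complex.exp_neg, ← Complex.natCast_log]
        congr 1
        push_cast
        ring
      rw [h1]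
      ring
  have hFint : ∀ n, Integrable (F n) := by
    intro n
    refine ((gsh_E_int hA (L + -Real.log n)).const_mul (α n : ℂ)).congr
      (Eventually.of_forall fun t => (hF1 n t).symm)
  set K : ℝ := ∫ t : ℝ, ‖gsh_E A L ((8 : ℝ) + t * I)‖ with hK
  have hK0 : 0 ≤ K := integral_nonneg fun t => norm_nonneg _
  have hFn : ∀ n, ∫ t, ‖F n t‖ = |α n| * Real.exp (-(8 * Real.log n)) * K := by
    intro n
    rw [hK, ← integral_const_mul]
    refine integral_congr_ae (Eventually.of_forall fun t => ?_)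
    simp only
    rw [hF1, norm_mul, Complex.norm_real, Real.norm_eq_abs, gsh_E_add, norm_mul, Complex.norm_exp]
    have h1 : ((((8 : ℝ) : ℂ) + t * I) * ((-Real.log n : ℝ) : ℂ)).re = -(8 * Real.log n) := by
      rw [Complex.re_mul_ofReal, Complex.add_re, Complex.ofReal_re, Complex.re_ofReal_mul,
        Complex.I_re]
      ring
    rw [h1]
    ring
  have hsum : Summable fun n => ∫ t, ‖F n t‖ := by
    simp_rw [hFn]
    apply Summable.mul_right
    refine Summable.of_nonneg_of_le (fun n => by positivity) (fun n => ?_)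
      ((Real.summable_nat_pow_inv.mpr (by norm_num : 1 < 2)).mul_left C0)
    rcases eq_or_ne n 0 with rfl | hn
    · simp [h0]
    · have hn0 : (0 : ℝ) < n := by exact_mod_cast Nat.pos_of_ne_zero hn
      have h1 : Real.exp (-(8 * Real.log n)) = ((n : ℝ) ^ 8)⁻¹ := by
        rw [Real.exp_neg, mul_comm, Real.exp_mul, Real.exp_log hn0]
        norm_cast
      rw [h1]
      calc |α n| * ((n : ℝ) ^ 8)⁻¹ ≤ (C0 * (n : ℝ) ^ 6) * ((n : ℝ) ^ 8)⁻¹ :=
            mul_le_mul_of_nonneg_right (hα n) (by positivity)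
        _ = C0 * ((n : ℝ) ^ 2)⁻¹ := by field_simp
  have hS := hasSum_integral_of_summable_integral_norm hFint hsum
  have e1 : ∀ t : ℝ, ∑' n, F n t = LSeries (fun n => ((α n : ℝ) : ℂ)) ((8 : ℝ) + t * I) *
      gsh_E A L ((8 : ℝ) + t * I) := by
    intro t
    simp only [hF]
    rw [tsum_mul_right]
    rfl
  simp_rw [e1] at hS
  rw [← hS.tsum_eq]
  have e2 : ∀ n, ∫ t, F n t = (((2 * Real.pi / (Real.sqrt (8 * Real.pi * A) * Real.exp (A / 2))) *
      (α n * gA A (n / w)) : ℝ) : ℂ) := by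
    intro n
    simp_rw [hF1]
    rw [integral_const_mul, gsh_gauss (by linarith)]
    rcases eq_or_ne n 0 with rfl | hn
    · simp [h0]
    · rw [gsh_gA hw hn, ← Complex.ofReal_mul]
      congr 1
      ring
  simp_rw [e2]
  rw [← Complex.ofReal_tsum, tsum_mul_left]
  congr 1
  ring

theorem gshift_pr {α : ℕ → ℝ} {C0 : ℝ} (hα : ∀ n, |α n| ≤ C0 * (n : ℝ) ^ 6) (h0 : α 0 = 0) {Q : ℂ → ℂ}
    (hQ : DifferentiableOn ℂ Q {z | 3 / 2 < z.re})
    (hQ1 : ∀ z : ℂ, 8 ≤ z.re → Q z = (z - 2) * LSeries (fun n => ((α n : ℝ) : ℂ)) z)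
    (hQ2 : ∃ C : ℝ, ∀ z : ℂ, 7 / 4 ≤ z.re → z.re ≤ 8 → ‖Q z‖ ≤ C * Real.exp (C * |z.im|)) :
    ∃ C' : ℝ, ∀ A : ℝ, 1 ≤ A → ∀ w : ℝ, 0 < w →
      |(∑' n : ℕ, α n * gA A (n / w)) / (Real.sqrt (8 * Real.pi * A) * Real.exp (A / 2)) -
        (Q 2).re * w ^ 2| ≤ C' * Real.exp (-(3 * A / 8)) * w ^ (7 / 4 : ℝ) := by
  obtain ⟨C, hb⟩ := hQ2
  set K : ℝ := ∫ t : ℝ, Real.exp (-t ^ 2) with hK
  refine ⟨4 * C * Real.exp (C ^ 2 / 4) * K / (2 * Real.pi), ?_⟩
  intro A hA w hw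
  set S : ℝ := (∑' n : ℕ, α n * gA A (n / w)) / (Real.sqrt (8 * Real.pi * A) * Real.exp (A / 2))
    with hS
  set L := Real.log w with hL
  have h1 := gsh_series hα h0 hA hw
  rw [← hL, ← hS] at h1
  have h2 : ∫ t : ℝ, gsh_E A L ((8 : ℝ) + t * I) * Q ((8 : ℝ) + t * I) /
      (((8 : ℝ) : ℂ) + t * I - 2) = ∫ t : ℝ, LSeries (fun n => ((α n : ℝ) : ℂ)) ((8 : ℝ) + t * I) *
      gsh_E A L ((8 : ℝ) + t * I) := by
    refine integral_congr_ae (Eventually.of_forall fun t => ?_)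
    simp only
    have h3 := gsh_line_ne (x := 8) (by norm_num) t
    rw [hQ1 _ (by simp)]
    field_simp
  have h3 := gsh_res hQ hb hA L
  rw [h2, h1] at h3
  set R : ℂ := ∫ t : ℝ, gsh_E A L ((7 / 4 : ℝ) + t * I) * Q ((7 / 4 : ℝ) + t * I) /
        (((7 / 4 : ℝ) : ℂ) + t * I - 2) with hR
  have hpi : (0 : ℝ) < 2 * Real.pi := by positivity
  have h4 : cexp (2 * (L : ℂ)) = ((w ^ 2 : ℝ) : ℂ) := by
    have : (2 * (L : ℂ)) = ((2 * L : ℝ) : ℂ) := by push_cast; ring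
    rw [this, ← Complex.ofReal_exp, hL, mul_comm, Real.exp_mul, Real.exp_log hw]
    norm_cast
  rw [h4] at h3
  have h5 : 2 * Real.pi * (S - (Q 2).re * w ^ 2) = R.re := by
    have := congrArg Complex.re h3
    have e : (2 * (Real.pi : ℂ) * (((w ^ 2 : ℝ) : ℂ) * Q 2)).re =
        2 * Real.pi * (w ^ 2 * (Q 2).re) := by
      have : (2 * (Real.pi : ℂ) * (((w ^ 2 : ℝ) : ℂ) * Q 2)) =
        ((2 * Real.pi * w ^ 2 : ℝ) : ℂ) * Q 2 := by push_cast; ring
      rw [this, Complex.re_ofReal_mul]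
      ring
    rw [Complex.add_re, e, Complex.ofReal_re] at this
    linarith
  have h6 : ‖R‖ ≤ 4 * C * Real.exp (C ^ 2 / 4) * Real.exp (-(3 * A / 8)) * w ^ (7 / 4 : ℝ) * K := by
    rw [hR, hK, ← integral_const_mul]
    refine norm_integral_le_of_norm_le (gsh_int_exp.const_mul _) (Eventually.of_forall fun t => ?_)
    have h7 := gsh_bound hb hA L (z := (7 / 4 : ℝ) + t * I) (by simp) (by simp; norm_num)
    have h8 := gsh_line_norm (7 / 4) t
    have h9 : |(7 / 4 : ℝ) - 2| = 1 / 4 := by norm_num [abs_of_neg]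
    rw [h9] at h8
    simp only [add_re, ofReal_re, mul_re, I_re, mul_zero, ofReal_im, I_im, mul_one, sub_self,
      add_zero, add_im, mul_im, zero_add] at h7
    rw [norm_div]
    have h10 : Real.exp (2 * A * (7 / 4 - 3 / 2) ^ 2 - A / 2 + 7 / 4 * L) =
        Real.exp (-(3 * A / 8)) * w ^ (7 / 4 : ℝ) := by
      rw [Real.rpow_def_of_pos hw, ← Real.exp_add, ← hL]
      congr 1
      ring
    rw [h10] at h7
    calc _ ≤ (C * Real.exp (C ^ 2 / 4) * (Real.exp (-(3 * A / 8)) * w ^ (7 / 4 : ℝ)) *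
          Real.exp (-t ^ 2)) / (1 / 4) :=
          div_le_div₀ ((norm_nonneg _).trans h7) h7 (by norm_num) h8
      _ = _ := by ring
  have h7 : |2 * Real.pi * (S - (Q 2).re * w ^ 2)| ≤ ‖R‖ := by
    rw [h5]; exact Complex.abs_re_le_norm R
  rw [abs_mul, abs_of_pos hpi] at h7
  calc |S - (Q 2).re * w ^ 2| ≤ ‖R‖ / (2 * Real.pi) := by
        rw [le_div_iff₀ hpi]; linarith
    _ ≤ (4 * C * Real.exp (C ^ 2 / 4) * Real.exp (-(3 * A / 8)) * w ^ (7 / 4 : ℝ) * K) /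
          (2 * Real.pi) := div_le_div_of_nonneg_right h6 hpi.le
    _ = _ := by ring


end Pool.Agent.NN

namespace Pool.Agent.NN

theorem gshift : type_of% @gshift_pr := @gshift_pr

end Pool.Agent.NN
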