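import Pool.Agent.Lib_helper32.NN.Dfs2

/-! # NN, block KER: integrability of the kernel on the cone -/

namespace Pool.Agent.NN

open Complex MeasureTheory Filter Topology UpperHalfPlane Matrix
open scoped MatrixGroups ENNReal ComplexConjugate
open Pool.Agent.LEV (S2 co IsNew Lh)

/-- one half of the majorant -/
noncomputable def ker_k (r : ℝ) (x : ℝ) : ℝ := (Set.Ioc (0 : ℝ) 2).indicator (fun x => x ^ r) x

/-- the majorant in one variable -/
noncomputable def ker_g (r : ℝ) (x : ℝ) : ℝ := ker_k r x + ker_k r (-x)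

theorem ker_k_nonneg (r x : ℝ) : 0 ≤ ker_k r x := by
  unfold ker_k
  apply Set.indicator_nonneg
  intro y hy
  exact Real.rpow_nonneg hy.1.le r

theorem ker_g_nonneg (r x : ℝ) : 0 ≤ ker_g r x := add_nonneg (ker_k_nonneg r x) (ker_k_nonneg r _)

theorem ker_g_ge {r x : ℝ} (hx : x ≠ 0) (h2 : |x| ≤ 2) : |x| ^ r ≤ ker_g r x := by
  unfold ker_g
  rcases lt_or_gt_of_ne hx with h | h
  · have e : ker_k r (-x) = |x| ^ r := by
      unfold ker_k
      rw [abs_of_neg h] at h2 ⊢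
      exact Set.indicator_of_mem (s := Set.Ioc (0 : ℝ) 2) (a := -x) ⟨by linarith, h2⟩ _
    rw [e]
    linarith [ker_k_nonneg r x]
  · have e : ker_k r x = |x| ^ r := by
      unfold ker_k
      rw [abs_of_pos h] at h2 ⊢
      exact Set.indicator_of_mem (s := Set.Ioc (0 : ℝ) 2) (a := x) ⟨h, h2⟩ _
    rw [e]
    linarith [ker_k_nonneg r (-x)]

theorem ker_k_int {r : ℝ} (hr : -1 < r) : Integrable (ker_k r) := by
  have h := (intervalIntegral.intervalIntegrable_rpow' (a := 0) (b := 2) hr)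
  rw [intervalIntegrable_iff_integrableOn_Ioc_of_le (by norm_num)] at h
  exact h.integrable_indicator measurableSet_Ioc

theorem ker_g_int {r : ℝ} (hr : -1 < r) : Integrable (ker_g r) :=
  (ker_k_int hr).add (ker_k_int hr).comp_neg

/-- the shear `(a, b, c) ↦ (a, b, c - b²/a)` preserves the measure -/
theorem ker_shear : MeasurePreserving
    (fun w : R3 => ((w.1, w.2.1, w.2.2 - w.2.1 ^ 2 / w.1) : R3)) volume volume := by
  have h1 : ∀ a : ℝ, MeasurePreserving (fun q : ℝ × ℝ => ((q.1, q.2 - q.1 ^ 2 / a) : ℝ × ℝ))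
      (volume : Measure (ℝ × ℝ)) volume := by
    intro a
    refine MeasurePreserving.skew_product (g := fun b c => c - b ^ 2 / a)
      (MeasurePreserving.id volume) ?_ ?_
    · exact measurable_snd.sub ((measurable_fst.pow_const 2).div_const a)
    · refine Filter.Eventually.of_forall fun b => ?_
      exact (measurePreserving_sub_right volume (b ^ 2 / a)).map_eq
  refine MeasurePreserving.skew_product
    (g := fun a (q : ℝ × ℝ) => ((q.1, q.2 - q.1 ^ 2 / a) : ℝ × ℝ))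
    (MeasurePreserving.id volume) ?_ ?_
  · exact (measurable_fst.comp measurable_snd).prodMk
      ((measurable_snd.comp measurable_snd).sub
        (((measurable_fst.comp measurable_snd).pow_const 2).div measurable_fst))
  · exact Filter.Eventually.of_forall fun a => (h1 a).map_eq

/-- the majorant -/
noncomputable def ker_G (w : R3) : ℝ :=
  ker_g (-(7 / 8)) w.1 * (ker_g (-(3 / 4)) w.2.1 *
    ker_g (-(7 / 8)) (w.2.2 - w.2.1 ^ 2 / w.1))

theorem ker_G_int : Integrable ker_G := by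
  have h1 : Integrable (fun w : R3 => ker_g (-(7 / 8)) w.1 * (ker_g (-(3 / 4)) w.2.1 *
      ker_g (-(7 / 8)) w.2.2)) :=
    (ker_g_int (by norm_num)).mul_prod ((ker_g_int (by norm_num)).mul_prod
      (ker_g_int (by norm_num)))
  exact ker_shear.integrable_comp_of_integrable h1

theorem ker_kk_nonneg (W : R3) : 0 ≤ kk W := by
  unfold kk
  positivity

theorem ker_kk_le (W : R3) : kk W ≤ 8 := by
  unfold kk
  have h : ∀ t : ℝ, max 0 (2 - |t|) ≤ 2 := fun t => max_le (by norm_num) (by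
    linarith [abs_nonneg t])
  have h0 : ∀ t : ℝ, 0 ≤ max 0 (2 - |t|) := fun t => le_max_left _ _
  calc max 0 (2 - |W.1|) * max 0 (2 - |W.2.1|) * max 0 (2 - |W.2.2|) ≤ 2 * 2 * 2 := by
        apply mul_le_mul (mul_le_mul (h _) (h _) (h0 _) (by norm_num)) (h _) (h0 _) (by norm_num)
    _ = 8 := by norm_num

theorem ker_kk_supp {W : R3} (h : kk W ≠ 0) : |W.1| < 2 ∧ |W.2.1| < 2 ∧ |W.2.2| < 2 := by
  unfold kk at h
  have h1 : ∀ t : ℝ, max 0 (2 - |t|) ≠ 0 → |t| < 2 := by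
    intro t ht
    by_contra hcon
    push Not at hcon
    exact ht (max_eq_left (by linarith))
  have h2 := mul_ne_zero_iff.1 h
  have h3 := mul_ne_zero_iff.1 h2.1
  exact ⟨h1 _ h3.1, h1 _ h3.2, h1 _ h2.2⟩

theorem ker_kc_nonneg (W : R3) : 0 ≤ kc W := by
  unfold kc
  apply mul_nonneg (ker_kk_nonneg W)
  split_ifs with h
  · positivity
  · exact le_rfl

theorem ker_bound {W : R3} (hb : W.2.1 ≠ 0) :
    kc W * |dt W| ^ (7 / 4 : ℝ) ≤ 8 * ker_G W := by
  have hG : 0 ≤ ker_G W := by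
    unfold ker_G
    exact mul_nonneg (ker_g_nonneg _ _) (mul_nonneg (ker_g_nonneg _ _) (ker_g_nonneg _ _))
  by_cases hk : kk W = 0
  · unfold kc
    rw [hk, zero_mul, zero_mul]
    linarith
  by_cases hd : 0 < dt W
  swap
  · unfold kc
    rw [if_neg hd, mul_zero, zero_mul]
    linarith
  obtain ⟨k1, k2, k3⟩ := ker_kk_supp hk
  obtain ⟨a, ha⟩ : ∃ a, a = W.1 := ⟨_, rfl⟩
  obtain ⟨b, hbb⟩ : ∃ b, b = W.2.1 := ⟨_, rfl⟩
  obtain ⟨c, hc⟩ : ∃ c, c = W.2.2 := ⟨_, rfl⟩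
  have hdt : dt W = a * c - b ^ 2 := by
    rw [ha, hbb, hc]
    rfl
  have htr : tr W = a + c := by
    rw [ha, hc]
    rfl
  have hac : 0 < a * c := by
    rw [hdt] at hd
    nlinarith [sq_nonneg b]
  have ha0 : a ≠ 0 := by
    rintro h0
    rw [h0, zero_mul] at hac
    exact lt_irrefl _ hac
  rw [← hbb] at hb
  rw [← ha] at k1
  rw [← hbb] at k2
  rw [← hc] at k3
  obtain ⟨t, ht⟩ : ∃ t, t = c - b ^ 2 / a := ⟨_, rfl⟩
  have hat : a * t = a * c - b ^ 2 := by
    rw [ht]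
    field_simp
  have hat0 : 0 < a * t := by
    rw [hat, ← hdt]
    exact hd
  have ht0 : t ≠ 0 := by
    rintro h0
    rw [h0, mul_zero] at hat0
    exact lt_irrefl _ hat0
  have hA : 0 < |a| := abs_pos.2 ha0
  have hB : 0 < |b| := abs_pos.2 hb
  have hT : 0 < |t| := abs_pos.2 ht0
  have hAT : |a| * |t| = dt W := by
    rw [← abs_mul, abs_of_pos hat0, hat, hdt]
  have hac' : |a| * |c| = a * c := by
    rw [← abs_mul, abs_of_pos hac]
  have htc : |t| ≤ |c| := by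
    have h1 : |a| * |t| ≤ |a| * |c| := by
      rw [hAT, hac', hdt]
      nlinarith [sq_nonneg b]
    exact le_of_mul_le_mul_left h1 hA
  have hX1 : |a| ≤ |a + c| := by
    rw [← sq_le_sq]
    nlinarith [sq_nonneg c]
  have hX2 : |t| ≤ |a + c| := by
    refine htc.trans ?_
    rw [← sq_le_sq]
    nlinarith [sq_nonneg a]
  have hX3 : |b| ≤ |a + c| := by
    rw [← sq_le_sq]
    rw [hdt] at hd
    nlinarith [sq_nonneg a, sq_nonneg c]
  have hX : 0 < |a + c| := lt_of_lt_of_le hA hX1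
  have hsq : tr W ^ 2 = |a + c| ^ (5 / 8 : ℝ) * |a + c| ^ (3 / 4 : ℝ) * |a + c| ^ (5 / 8 : ℝ) := by
    rw [← Real.rpow_add hX, ← Real.rpow_add hX, htr, ← sq_abs]
    norm_num
  have hlow : |a| ^ (5 / 8 : ℝ) * |b| ^ (3 / 4 : ℝ) * |t| ^ (5 / 8 : ℝ) ≤ tr W ^ 2 := by
    rw [hsq]
    have e1 := Real.rpow_le_rpow hA.le hX1 (by norm_num : (0 : ℝ) ≤ 5 / 8)
    have e2 := Real.rpow_le_rpow hB.le hX3 (by norm_num : (0 : ℝ) ≤ 3 / 4)
    have e3 := Real.rpow_le_rpow hT.le hX2 (by norm_num : (0 : ℝ) ≤ 5 / 8)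
    apply mul_le_mul (mul_le_mul e1 e2 (by positivity) (by positivity)) e3 (by positivity)
      (by positivity)
  have hlow0 : 0 < |a| ^ (5 / 8 : ℝ) * |b| ^ (3 / 4 : ℝ) * |t| ^ (5 / 8 : ℝ) := by positivity
  have hmain : (1 / (dt W ^ 2 * tr W ^ 2)) * |dt W| ^ (7 / 4 : ℝ) ≤
      |a| ^ (-(7 / 8) : ℝ) * (|b| ^ (-(3 / 4) : ℝ) * |t| ^ (-(7 / 8) : ℝ)) := by
    have e1 : |dt W| ^ (7 / 4 : ℝ) = dt W ^ 2 * (|a| ^ (-(1 / 4) : ℝ) * |t| ^ (-(1 / 4) : ℝ)) := by
      rw [← Real.mul_rpow hA.le hT.le, hAT, abs_of_pos hd, ← Real.rpow_natCast,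
        ← Real.rpow_add hd]
      norm_num
    have e2 : (1 / (dt W ^ 2 * tr W ^ 2)) * |dt W| ^ (7 / 4 : ℝ) =
        (|a| ^ (-(1 / 4) : ℝ) * |t| ^ (-(1 / 4) : ℝ)) * (tr W ^ 2)⁻¹ := by
      rw [e1]
      have h2 : dt W ≠ 0 := hd.ne'
      have h3 : tr W ≠ 0 := by
        rw [htr]
        exact abs_pos.1 hX
      field_simp
    have e3 : (tr W ^ 2)⁻¹ ≤
        |a| ^ (-(5 / 8) : ℝ) * |b| ^ (-(3 / 4) : ℝ) * |t| ^ (-(5 / 8) : ℝ) := by
      rw [Real.rpow_neg hA.le, Real.rpow_neg hB.le, Real.rpow_neg hT.le, ← mul_inv, ← mul_inv]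
      exact inv_anti₀ hlow0 hlow
    rw [e2]
    calc (|a| ^ (-(1 / 4) : ℝ) * |t| ^ (-(1 / 4) : ℝ)) * (tr W ^ 2)⁻¹
        ≤ (|a| ^ (-(1 / 4) : ℝ) * |t| ^ (-(1 / 4) : ℝ)) *
            (|a| ^ (-(5 / 8) : ℝ) * |b| ^ (-(3 / 4) : ℝ) * |t| ^ (-(5 / 8) : ℝ)) :=
          mul_le_mul_of_nonneg_left e3 (by positivity)
      _ = (|a| ^ (-(1 / 4) : ℝ) * |a| ^ (-(5 / 8) : ℝ)) * (|b| ^ (-(3 / 4) : ℝ) *
            (|t| ^ (-(1 / 4) : ℝ) * |t| ^ (-(5 / 8) : ℝ))) := by ring
      _ = |a| ^ (-(7 / 8) : ℝ) * (|b| ^ (-(3 / 4) : ℝ) * |t| ^ (-(7 / 8) : ℝ)) := by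
          rw [← Real.rpow_add hA, ← Real.rpow_add hT]
          norm_num
  have hGe : |a| ^ (-(7 / 8) : ℝ) * (|b| ^ (-(3 / 4) : ℝ) * |t| ^ (-(7 / 8) : ℝ)) ≤ ker_G W := by
    unfold ker_G
    rw [← ha, ← hbb, ← hc, ← ht]
    have g1 := ker_g_ge (r := -(7 / 8)) ha0 k1.le
    have g2 := ker_g_ge (r := -(3 / 4)) hb k2.le
    have g3 := ker_g_ge (r := -(7 / 8)) ht0 (htc.trans k3.le)
    apply mul_le_mul g1 (mul_le_mul g2 g3 (by positivity) (ker_g_nonneg _ _)) (by positivity)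
      (ker_g_nonneg _ _)
  have hp : 0 ≤ (1 / (dt W ^ 2 * tr W ^ 2)) * |dt W| ^ (7 / 4 : ℝ) := by positivity
  unfold kc
  rw [if_pos hd, mul_assoc]
  calc kk W * (1 / (dt W ^ 2 * tr W ^ 2) * |dt W| ^ (7 / 4 : ℝ))
      ≤ 8 * (1 / (dt W ^ 2 * tr W ^ 2) * |dt W| ^ (7 / 4 : ℝ)) :=
        mul_le_mul_of_nonneg_right (ker_kk_le W) hp
    _ ≤ 8 * ker_G W := by linarith [hmain.trans hGe]

theorem ker_dt_cont : Continuous dt := by
  unfold dt
  fun_prop

theorem ker_tr_cont : Continuous tr := by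
  unfold tr
  fun_prop

theorem ker_kk_cont : Continuous kk := by
  unfold kk
  fun_prop

theorem ker_kc_meas : Measurable kc := by
  unfold kc
  refine ker_kk_cont.measurable.mul (Measurable.ite ?_ ?_ measurable_const)
  · exact measurableSet_lt measurable_const ker_dt_cont.measurable
  · exact measurable_const.div ((ker_dt_cont.measurable.pow_const 2).mul
      (ker_tr_cont.measurable.pow_const 2))

theorem ker_ae : ∀ᵐ W : R3, W.2.1 ≠ 0 := by
  have h1 : ∀ᵐ b : ℝ, b ≠ 0 := by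
    rw [ae_iff]
    simp
  have h2 : ∀ᵐ q : ℝ × ℝ, q.1 ≠ 0 :=
    (Measure.quasiMeasurePreserving_fst (μ := (volume : Measure ℝ))
      (ν := (volume : Measure ℝ))).ae h1
  exact (Measure.quasiMeasurePreserving_snd (μ := (volume : Measure ℝ))
    (ν := (volume : Measure (ℝ × ℝ)))).ae h2

theorem ker_int2 : Integrable (fun W : R3 => kc W * |dt W| ^ (7 / 4 : ℝ)) := by
  refine Integrable.mono' (ker_G_int.const_mul 8) ?_ ?_
  · exact (ker_kc_meas.mul ((ker_dt_cont.measurable.abs).pow_const _)).aestronglyMeasurable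
  · filter_upwards [ker_ae] with W hW
    rw [Real.norm_eq_abs, abs_of_nonneg (mul_nonneg (ker_kc_nonneg W) (by positivity))]
    exact ker_bound hW

theorem ker_int1 : Integrable (fun W : R3 => kc W * dt W ^ 2) := by
  refine Integrable.mono' (ker_int2.const_mul 2) ?_ ?_
  · exact (ker_kc_meas.mul (ker_dt_cont.measurable.pow_const _)).aestronglyMeasurable
  · refine Filter.Eventually.of_forall fun W => ?_
    rw [Real.norm_eq_abs, abs_of_nonneg (mul_nonneg (ker_kc_nonneg W) (by positivity))]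
    by_cases hd : 0 < dt W
    swap
    · unfold kc
      rw [if_neg hd]
      simp
    by_cases hk : kk W = 0
    · unfold kc
      rw [hk]
      simp
    obtain ⟨k1, k2, k3⟩ := ker_kk_supp hk
    have hd4 : dt W ≤ 4 := by
      have h1 : W.1 * W.2.2 ≤ 4 := by
        have h2 : |W.1 * W.2.2| ≤ 4 := by
          rw [abs_mul]
          nlinarith [abs_nonneg W.1, abs_nonneg W.2.2]
        exact (le_abs_self _).trans h2
      unfold dt
      nlinarith [sq_nonneg W.2.1]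
    have h3 : dt W ^ 2 ≤ 2 * |dt W| ^ (7 / 4 : ℝ) := by
      rw [abs_of_pos hd]
      have e1 : dt W ^ 2 = dt W ^ (7 / 4 : ℝ) * dt W ^ (1 / 4 : ℝ) := by
        rw [← Real.rpow_add hd, ← Real.rpow_natCast]
        norm_num
      have e2 : dt W ^ (1 / 4 : ℝ) ≤ 2 := by
        calc dt W ^ (1 / 4 : ℝ) ≤ (16 : ℝ) ^ (1 / 4 : ℝ) :=
              Real.rpow_le_rpow hd.le (by linarith) (by norm_num)
          _ = 2 := by
              rw [show (16 : ℝ) = 2 ^ (4 : ℝ) by norm_num, ← Real.rpow_mul (by norm_num)]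
              norm_num
      rw [e1]
      have e3 : 0 ≤ dt W ^ (7 / 4 : ℝ) := by positivity
      nlinarith
    calc kc W * dt W ^ 2 ≤ kc W * (2 * |dt W| ^ (7 / 4 : ℝ)) :=
          mul_le_mul_of_nonneg_left h3 (ker_kc_nonneg W)
      _ = 2 * (kc W * |dt W| ^ (7 / 4 : ℝ)) := by ring

theorem ker_pos : 0 < ∫ W : R3, kc W * dt W ^ 2 := by
  rw [integral_pos_iff_support_of_nonneg
    (fun W => mul_nonneg (ker_kc_nonneg W) (by positivity)) ker_int1]
  have hU : IsOpen {W : R3 | |W.1| < 2 ∧ |W.2.1| < 2 ∧ |W.2.2| < 2 ∧ 0 < dt W} := by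
    have c1 : Continuous fun W : R3 => |W.1| := by fun_prop
    have c2 : Continuous fun W : R3 => |W.2.1| := by fun_prop
    have c3 : Continuous fun W : R3 => |W.2.2| := by fun_prop
    exact (isOpen_lt c1 continuous_const).inter ((isOpen_lt c2 continuous_const).inter
      ((isOpen_lt c3 continuous_const).inter (isOpen_lt continuous_const ker_dt_cont)))
  have hne : ({W : R3 | |W.1| < 2 ∧ |W.2.1| < 2 ∧ |W.2.2| < 2 ∧ 0 < dt W}).Nonempty := by
    refine ⟨((1, 0, 1) : R3), ?_⟩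
    refine ⟨by norm_num, by norm_num, by norm_num, ?_⟩
    unfold dt
    norm_num
  refine lt_of_lt_of_le (hU.measure_pos volume hne) (measure_mono ?_)
  rintro W ⟨h1, h2, h3, h4⟩
  rw [Function.mem_support]
  have hk : 0 < kk W := by
    unfold kk
    have e1 : 0 < max 0 (2 - |W.1|) := lt_max_of_lt_right (by linarith)
    have e2 : 0 < max 0 (2 - |W.2.1|) := lt_max_of_lt_right (by linarith)
    have e3 : 0 < max 0 (2 - |W.2.2|) := lt_max_of_lt_right (by linarith)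
    positivity
  have ht : 0 < tr W ^ 2 := by
    unfold dt at h4
    unfold tr
    nlinarith [sq_nonneg W.2.1, sq_nonneg (W.1 - W.2.2)]
  unfold kc
  rw [if_pos h4]
  positivity

theorem ker_int_pr : Integrable (fun W : R3 => kc W * dt W ^ 2) ∧
    0 < ∫ W : R3, kc W * dt W ^ 2 ∧
    Integrable (fun W : R3 => kc W * |dt W| ^ (7 / 4 : ℝ)) :=
  ⟨ker_int1, ker_pos, ker_int2⟩

end Pool.Agent.NN

namespace Pool.Agent.NN

theorem ker_int : type_of% @ker_int_pr := @ker_int_pr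

end Pool.Agent.NN
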