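import Pool.Agent.Lib_helper32.NN.Dfs2
import Pool.Agent.Lib_helper32.NNF.BIN
import Pool.Agent.Lib_helper32.NNF.SAB

/-!
# NN, block LSR: the L-function is the sum of its Dirichlet series to the right of `3/2`
-/

namespace Pool.Agent.NN

open Complex MeasureTheory Filter Topology UpperHalfPlane Matrix
open scoped MatrixGroups ENNReal ComplexConjugate
open Pool.Agent.LEV (S2 co IsNew Lh)

/-- summability of a real Dirichlet series -/
theorem lsr_summable {a : ℕ → ℝ} {x : ℝ} (h : Summable (fun n : ℕ => |a n| * (n : ℝ) ^ (-x)))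
    {z : ℂ} (hz : z.re = x) : LSeriesSummable (fun n => ((a n : ℝ) : ℂ)) z := by
  refine Summable.of_norm_bounded h ?_
  intro n
  rcases Nat.eq_zero_or_pos n with rfl | hn
  · rw [LSeries.term_zero, norm_zero]
    positivity
  · rw [LSeries.term_of_ne_zero hn.ne', norm_div, Complex.norm_natCast_cpow_of_pos hn, hz,
      Complex.norm_real, Real.norm_eq_abs, Real.rpow_neg (Nat.cast_nonneg n), div_eq_mul_inv]

section form
variable {N : ℕ} [Fact N.Prime] (f : S2 N)

theorem lsr_sa (hf : IsNew f) {z : ℂ} (hz : 3 / 2 < z.re) :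
    LSeriesSummable (fun n => ((af f n : ℝ) : ℂ)) z :=
  lsr_summable (sum_af f hf hz) rfl

theorem lsr_sb (hf : IsNew f) {z : ℂ} (hz : 3 / 2 < z.re) :
    LSeriesSummable (fun n => ((bf f n : ℝ) : ℂ)) z :=
  lsr_summable (sum_bf f hf hz) rfl

theorem lsr_af (hf : IsNew f) (n : ℕ) : ((af f n : ℝ) : ℂ) = co f n := by
  have h : af f n = (co f n).re := rfl
  rw [h]
  exact Complex.ext (by simp) (by simp [LEV.new_real hf n])

theorem lsr_two (hf : IsNew f) {z : ℂ} (hz : 2 < z.re) :
    Lf f z = LSeries (fun n => ((af f n : ℝ) : ℂ)) z := by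
  have h5 := CuspForm.hasSum_L (k := 2) (F := S2 N) (Γ := LEV.G0 N) (s := z) two_pos f
    (by norm_num; linarith)
  have h6 : (LEV.G0 N).strictWidthInfty = 1 := CongruenceSubgroup.strictWidthInfty_Gamma0 N
  rw [h6] at h5
  have h7 : HasSum (LSeries.term (fun n => ((af f n : ℝ) : ℂ)) z) (Lf f z) := by
    have h8 : HasSum (fun n : ℕ => co f n / (n : ℂ) ^ z) (Lf f z) := by
      rw [Complex.ofReal_one, Complex.one_cpow, one_mul] at h5
      exact h5
    refine h8.congr_fun ?_
    intro n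
    rcases Nat.eq_zero_or_pos n with rfl | hn
    · simp [LSeries.term, LEV.co_zero f]
    · rw [LSeries.term_of_ne_zero hn.ne', lsr_af f hf n]
  exact h7.tsum_eq.symm

theorem Lf_eq_pr (hf : IsNew f) {z : ℂ} (hz : 3 / 2 < z.re) :
    Lf f z = LSeries (fun n => ((af f n : ℝ) : ℂ)) z := by
  have hU : IsOpen {w : ℂ | 3 / 2 < w.re} := isOpen_lt continuous_const Complex.continuous_re
  have hc : IsPreconnected {w : ℂ | 3 / 2 < w.re} :=
    (convex_halfSpace_re_gt (3 / 2)).isPreconnected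
  have h1 : AnalyticOnNhd ℂ (Lf f) {w : ℂ | 3 / 2 < w.re} := by
    have hd : Differentiable ℂ (Lf f) := CuspForm.differentiable_L (k := 2) two_pos f
    exact hd.differentiableOn.analyticOnNhd hU
  have h2 : AnalyticOnNhd ℂ (LSeries (fun n => ((af f n : ℝ) : ℂ))) {w : ℂ | 3 / 2 < w.re} := by
    refine (LSeries_analyticOnNhd (fun n => ((af f n : ℝ) : ℂ))).mono ?_
    intro w hw
    have hw' : 3 / 2 < w.re := hw
    obtain ⟨x, hx1, hx2⟩ := exists_between hw'
    have h3 : LSeriesSummable (fun n => ((af f n : ℝ) : ℂ)) (x : ℂ) :=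
      lsr_sa f hf (by rw [Complex.ofReal_re]; exact hx1)
    have h4 := h3.abscissaOfAbsConv_le
    rw [Complex.ofReal_re] at h4
    exact lt_of_le_of_lt h4 (by exact_mod_cast hx2)
  have h3 : (3 : ℂ) ∈ {w : ℂ | 3 / 2 < w.re} := by
    show (3 / 2 : ℝ) < (3 : ℂ).re
    norm_num
  have h4 : Lf f =ᶠ[𝓝 (3 : ℂ)] LSeries (fun n => ((af f n : ℝ) : ℂ)) := by
    have ho : IsOpen {w : ℂ | 2 < w.re} := isOpen_lt continuous_const Complex.continuous_re
    have hm : (3 : ℂ) ∈ {w : ℂ | 2 < w.re} := by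
      show (2 : ℝ) < (3 : ℂ).re
      norm_num
    filter_upwards [ho.mem_nhds hm] with w hw
    exact lsr_two f hf hw
  exact h1.eqOn_of_preconnected_of_eventuallyEq h2 hc h3 h4 hz

theorem Lf_inv_pr (hf : IsNew f) {z : ℂ} (hz : 3 / 2 < z.re) :
    Lf f z * LSeries (fun n => ((bf f n : ℝ) : ℂ)) z = 1 := by
  rw [Lf_eq_pr f hf hz, ← LSeries_convolution' (lsr_sa f hf hz) (lsr_sb f hf hz)]
  have h1 : (LSeries.convolution (fun n => ((af f n : ℝ) : ℂ)) (fun n => ((bf f n : ℝ) : ℂ))) =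
      LSeries.delta := by
    funext n
    have e := congrArg (fun g : ArithmeticFunction ℝ => g n)
      ((mul_comm (af f) (bf f)).trans (bf_af f hf))
    simp only [ArithmeticFunction.mul_apply, ArithmeticFunction.one_apply] at e
    have e2 := congrArg (fun r : ℝ => (r : ℂ)) e
    rw [Complex.ofReal_sum] at e2
    rw [LSeries.convolution_def]
    refine Eq.trans (Finset.sum_congr rfl fun p _ => ?_) (e2.trans ?_)
    · rw [Complex.ofReal_mul]
    · rw [LSeries.delta]
      split_ifs <;> simp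
  rw [h1, LSeries_delta]
  rfl

end form

end Pool.Agent.NN

namespace Pool.Agent.NN

theorem Lf_eq : type_of% @Lf_eq_pr := @Lf_eq_pr

theorem Lf_inv : type_of% @Lf_inv_pr := @Lf_inv_pr

end Pool.Agent.NN
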