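import Pool.Agent.Lib_helper32.NN.Dfs2
import Pool.Agent.Lib_helper32.NNF.LSR
import Pool.Agent.Lib_helper32.NNF.SAB

/-!
# NN, block LPO: positivity of the L-function at `2`
-/

namespace Pool.Agent.NN

open Complex MeasureTheory Filter Topology UpperHalfPlane Matrix
open scoped MatrixGroups ENNReal ComplexConjugate
open Pool.Agent.LEV (S2 co IsNew Lh)

section form
variable {N : ℕ} [Fact N.Prime] (f : S2 N)

theorem lpo_term (a : ℕ → ℝ) (x : ℝ) (n : ℕ) :
    LSeries.term (fun n => ((a n : ℝ) : ℂ)) (x : ℂ) n =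
      ((if n = 0 then 0 else a n * (n : ℝ) ^ (-x) : ℝ) : ℂ) := by
  by_cases hn : n = 0
  · subst hn
    simp
  · rw [LSeries.term_of_ne_zero hn, if_neg hn, Complex.ofReal_mul,
      Complex.ofReal_cpow (Nat.cast_nonneg n), Complex.ofReal_neg, Complex.ofReal_natCast,
      Complex.cpow_neg, div_eq_mul_inv]

theorem lpo_im (a : ℕ → ℝ) (x : ℝ) : (LSeries (fun n => ((a n : ℝ) : ℂ)) (x : ℂ)).im = 0 := by
  unfold LSeries
  have e : (fun n => LSeries.term (fun n => ((a n : ℝ) : ℂ)) (x : ℂ) n) =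
      fun n => (((if n = 0 then 0 else a n * (n : ℝ) ^ (-x) : ℝ)) : ℂ) := funext (lpo_term a x)
  have e2 : (∑' n, LSeries.term (fun n => ((a n : ℝ) : ℂ)) (x : ℂ) n) =
      ((∑' n, (if n = 0 then 0 else a n * (n : ℝ) ^ (-x) : ℝ) : ℝ) : ℂ) := by
    rw [Complex.ofReal_tsum]
    exact tsum_congr (lpo_term a x)
  rw [e2, Complex.ofReal_im]

theorem lpo_summable (hf : IsNew f) {x : ℝ} (hx : 3 / 2 < x) :
    LSeriesSummable (fun n => ((af f n : ℝ) : ℂ)) (x : ℂ) := by
  unfold LSeriesSummable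
  refine Summable.of_norm_bounded (sum_af f hf hx) ?_
  intro n
  rw [lpo_term]
  by_cases hn : n = 0
  · subst hn
    simp
  · rw [if_neg hn, Complex.norm_real, norm_mul, Real.norm_eq_abs, Real.norm_eq_abs,
      abs_of_nonneg (Real.rpow_nonneg (Nat.cast_nonneg n) _)]

/-- LPO. -/
theorem Lf_pos_pr (hf : IsNew f) : (Lf f 2).im = 0 ∧ 0 < (Lf f 2).re := by
  set L : ℝ → ℂ := fun x => LSeries (fun n => ((af f n : ℝ) : ℂ)) (x : ℂ) with hL
  have h2 : Lf f 2 = L 2 := by
    rw [Lf_eq f hf (by norm_num)]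
    simp [hL]
  have him : ∀ x, (L x).im = 0 := fun x => lpo_im _ x
  have hab : LSeries.abscissaOfAbsConv (fun n => ((af f n : ℝ) : ℂ)) ≤ ((8 / 5 : ℝ) : EReal) := by
    have h := (lpo_summable f hf (x := 8 / 5) (by norm_num)).abscissaOfAbsConv_le
    simpa using h
  have hab2 : ∀ x : ℝ, 2 ≤ x →
      LSeries.abscissaOfAbsConv (fun n => ((af f n : ℝ) : ℂ)) < ((x : ℝ) : EReal) := by
    intro x hx
    refine lt_of_le_of_lt hab ?_
    exact_mod_cast (by linarith : (8 / 5 : ℝ) < x)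
  have hcont : ContinuousOn L (Set.Ici 2) := by
    have h1 := (LSeries_differentiableOn (fun n => ((af f n : ℝ) : ℂ))).continuousOn
    have h3 : ContinuousOn (fun x : ℝ => (x : ℂ)) (Set.Ici (2 : ℝ)) :=
      Complex.continuous_ofReal.continuousOn
    refine h1.comp h3 ?_
    intro x hx
    show LSeries.abscissaOfAbsConv (fun n => ((af f n : ℝ) : ℂ)) < ((((x : ℂ)).re : ℝ) : EReal)
    rw [Complex.ofReal_re]
    exact hab2 x hx
  have hne : ∀ x : ℝ, 2 ≤ x → (L x).re ≠ 0 := by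
    intro x hx h0
    have h1 : L x = 0 := Complex.ext h0 (him x)
    have hx' : 3 / 2 < ((x : ℂ)).re := by
      rw [Complex.ofReal_re]
      linarith
    have h3 := Lf_inv f hf hx'
    rw [Lf_eq f hf hx'] at h3
    have h4 : LSeries (fun n => ((af f n : ℝ) : ℂ)) (x : ℂ) = 0 := h1
    rw [h4, zero_mul] at h3
    exact zero_ne_one h3
  have hlim : Tendsto L atTop (𝓝 (((af f 1 : ℝ) : ℂ))) :=
    LSeries.tendsto_atTop (lt_of_le_of_lt hab (EReal.coe_lt_top _))
  have ha1 : ((af f 1 : ℝ) : ℂ) = 1 := by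
    have h : af f 1 = (co f 1).re := rfl
    rw [h, hf.one]
    simp
  rw [ha1] at hlim
  have hlim2 : Tendsto (fun x => (L x).re) atTop (𝓝 1) := by
    have h := (Complex.continuous_re.tendsto (1 : ℂ)).comp hlim
    rw [Complex.one_re] at h
    exact h
  have hev : ∀ᶠ x in atTop, 0 < (L x).re := hlim2.eventually_const_lt (by norm_num)
  refine ⟨by rw [h2]; exact him 2, ?_⟩
  rw [h2]
  by_contra hcon
  rw [not_lt] at hcon
  obtain ⟨x, hx0, hx2⟩ := (hev.and (eventually_ge_atTop (2 : ℝ))).exists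
  have hc2 : ContinuousOn (fun x => (L x).re) (Set.Icc 2 x) :=
    Complex.continuous_re.comp_continuousOn (hcont.mono Set.Icc_subset_Ici_self)
  obtain ⟨y, hy, hy0⟩ := intermediate_value_Icc hx2 hc2 ⟨hcon, hx0.le⟩
  exact hne y hy.1 hy0

end form

end Pool.Agent.NN

namespace Pool.Agent.NN

theorem Lf_pos : type_of% @Lf_pos_pr := @Lf_pos_pr

end Pool.Agent.NN
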