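import Pool.Agent.Lib_helper32.NN.Dfs2

/-! NN, block ODD -/

set_option autoImplicit false

namespace Pool.Agent.NN

open Complex MeasureTheory Filter Topology UpperHalfPlane Matrix
open scoped MatrixGroups ENNReal ComplexConjugate
open Pool.Agent.LEV (S2 co IsNew Lh)

section form
variable {N : ℕ} [Fact N.Prime] (f : S2 N)

theorem lval_odd_pr (hf : IsNew f) (h1 : co f N ≠ 1) : Lh f = 0 := by
  obtain ⟨W, hW⟩ := LEV.fricke_exists (N := N)
  have h2 : co f N = -1 := (LEV.new_fricke hf hW).2.resolve_left h1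
  have e := LEV.func_eq hf 1 (by simp) (by simp)
  rw [h2, show (2 : ℂ) - 1 = 1 by norm_num] at e
  have hN : (0 : ℝ) < Real.sqrt N / (2 * Real.pi) := by
    have : (0 : ℝ) < N := by exact_mod_cast (Fact.out : N.Prime).pos
    positivity
  have hc : ((Real.sqrt N / (2 * Real.pi) : ℝ) : ℂ) ^ (1 : ℂ) ≠ 0 := by
    rw [Complex.cpow_one]
    exact_mod_cast hN.ne'
  have hg : Complex.Gamma 1 ≠ 0 := by
    rw [Complex.Gamma_one]; exact one_ne_zero
  have e3 : ((Real.sqrt N / (2 * Real.pi) : ℝ) : ℂ) ^ (1 : ℂ) * Complex.Gamma 1 *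
      ModularForm.L (k := 2) two_pos f 1 = 0 := by
    have h2' : (2 : ℂ) * (((Real.sqrt N / (2 * Real.pi) : ℝ) : ℂ) ^ (1 : ℂ) * Complex.Gamma 1 *
      ModularForm.L (k := 2) two_pos f 1) = 0 := by linear_combination e
    exact (mul_eq_zero.mp h2').resolve_left two_ne_zero
  exact (mul_eq_zero.mp e3).resolve_left (mul_ne_zero hc hg)

end form

end Pool.Agent.NN

namespace Pool.Agent.NN

theorem lval_odd : type_of% @lval_odd_pr := @lval_odd_pr

end Pool.Agent.NN
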