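import Pool.Agent.Lib_helper32.NN.Dfs2
import Pool.Agent.Lib_helper19.H3.GR

namespace Pool.Agent.NN

open Complex MeasureTheory Filter Topology UpperHalfPlane Matrix
open scoped MatrixGroups ENNReal ComplexConjugate
open Pool.Agent.LEV (S2 co IsNew Lh)

theorem lgr_mellin {F : ℝ → ℂ} {a b : ℝ} (ha : MellinConvergent F (a : ℂ))
    (hb : MellinConvergent F (b : ℂ)) : ∃ M : ℝ, 0 ≤ M ∧ ∀ z : ℂ, a ≤ z.re → z.re ≤ b →
      ‖mellin F z‖ ≤ M := by
  refine ⟨∫ t in Set.Ioi (0 : ℝ), (‖(t : ℂ) ^ ((a : ℂ) - 1) • F t‖ +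
    ‖(t : ℂ) ^ ((b : ℂ) - 1) • F t‖), integral_nonneg (fun t => by positivity), ?_⟩
  intro z hz1 hz2
  unfold mellin
  refine norm_integral_le_of_norm_le (Integrable.add ha.norm hb.norm) ?_
  refine (ae_restrict_iff' measurableSet_Ioi).mpr (Eventually.of_forall fun t ht => ?_)
  have ht0 : (0 : ℝ) < t := ht
  rw [norm_smul, norm_smul, norm_smul, Complex.norm_cpow_eq_rpow_re_of_pos ht0,
    Complex.norm_cpow_eq_rpow_re_of_pos ht0, Complex.norm_cpow_eq_rpow_re_of_pos ht0, ← add_mul]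
  apply mul_le_mul_of_nonneg_right _ (norm_nonneg _)
  have e1 : (z - 1).re = z.re - 1 := by simp
  have e2 : ((a : ℂ) - 1).re = a - 1 := by simp
  have e3 : ((b : ℂ) - 1).re = b - 1 := by simp
  rw [e1, e2, e3]
  rcases le_total t 1 with h | h
  · have h1 : t ^ (z.re - 1) ≤ t ^ (a - 1) :=
      Real.rpow_le_rpow_of_exponent_ge ht0 h (by linarith)
    have h2 : 0 ≤ t ^ (b - 1) := Real.rpow_nonneg ht0.le _
    linarith
  · have h1 : t ^ (z.re - 1) ≤ t ^ (b - 1) :=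
      Real.rpow_le_rpow_of_exponent_le h (by linarith)
    have h2 : 0 ≤ t ^ (a - 1) := Real.rpow_nonneg ht0.le _
    linarith

section
variable {N : ℕ} [Fact N.Prime] (f : S2 N)

theorem Lf_growth_pr (a b : ℝ) : ∃ C : ℝ, ∀ z : ℂ, a ≤ z.re → z.re ≤ b →
    ‖Lf f z‖ ≤ C * Real.exp (C * |z.im|) := by
  have hP := CuspForm.isStrongFEPair (k := 2) two_pos f
  obtain ⟨M, hM0, hM⟩ := lgr_mellin (hP.hasMellin (a : ℂ)).1 (hP.hasMellin (b : ℂ)).1
  obtain ⟨C, hC0, hC⟩ := Pool.Agent.H3.inv_Gamma_growth_pr a b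
  have hpi : (0 : ℝ) < 2 * Real.pi := by positivity
  set D : ℝ := (2 * Real.pi) ^ a + (2 * Real.pi) ^ b with hD
  have hD0 : 0 ≤ D := by positivity
  refine ⟨M * D * C + C, fun z hz1 hz2 => ?_⟩
  have h1 : ‖ModularForm.Λ (k := 2) two_pos f z‖ ≤ M := by
    have h2 := hM z hz1 hz2
    rwa [(hP.hasMellin z).2] at h2
  have h3 : ‖(2 : ℂ) / Gammaℂ z‖ ≤ D * (C * Real.exp (C * |z.im|)) := by
    have h4 : (2 : ℂ) / Gammaℂ z = ((2 * Real.pi : ℝ) : ℂ) ^ z * (Gamma z)⁻¹ := by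
      rw [Gammaℂ, cpow_neg]
      have h5 : ((2 * Real.pi : ℝ) : ℂ) ^ z ≠ 0 := by
        rw [Ne, cpow_eq_zero_iff]
        push Not
        intro h
        exact absurd h (by exact_mod_cast hpi.ne')
      push_cast at h5 ⊢
      field_simp
    rw [h4, norm_mul, Complex.norm_cpow_eq_rpow_re_of_pos hpi]
    refine mul_le_mul ?_ (hC z hz1 hz2) (norm_nonneg _) hD0
    have hpi1 : (1 : ℝ) ≤ 2 * Real.pi := by
      have := Real.pi_gt_three
      linarith
    have h6 : (2 * Real.pi) ^ z.re ≤ (2 * Real.pi) ^ b :=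
      Real.rpow_le_rpow_of_exponent_le hpi1 hz2
    have h7 : 0 ≤ (2 * Real.pi) ^ a := by positivity
    linarith
  have h8 : Lf f z = ModularForm.Λ (k := 2) two_pos f z * (2 / Gammaℂ z) := rfl
  rw [h8, norm_mul]
  calc ‖ModularForm.Λ (k := 2) two_pos f z‖ * ‖(2 : ℂ) / Gammaℂ z‖
      ≤ M * (D * (C * Real.exp (C * |z.im|))) := mul_le_mul h1 h3 (norm_nonneg _) hM0
    _ = (M * D * C) * Real.exp (C * |z.im|) := by ring
    _ ≤ (M * D * C + C) * Real.exp ((M * D * C + C) * |z.im|) := by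
      have h9 : 0 ≤ M * D * C := by positivity
      refine mul_le_mul (by linarith) (Real.exp_le_exp.mpr ?_) (Real.exp_nonneg _) (by linarith)
      exact mul_le_mul_of_nonneg_right (by linarith) (abs_nonneg _)

end

end Pool.Agent.NN

namespace Pool.Agent.NN

theorem Lf_growth : type_of% @Lf_growth_pr := @Lf_growth_pr

end Pool.Agent.NN
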