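import Pool.Agent.Lib_helper32.NN.Dfs2
import Pool.Agent.Lib_helper32.NNF.LGR
import Pool.Agent.Lib_helper32.NNF.SAB
import Pool.Agent.Lib_helper98.GAF.Z2

/-!
# NN, block QFG
-/

namespace Pool.Agent.NN

open Complex MeasureTheory Filter Topology UpperHalfPlane Matrix
open scoped MatrixGroups ENNReal ComplexConjugate
open Pool.Agent.LEV (S2 co IsNew Lh)

section
variable {N : ℕ} [Fact N.Prime] (f : S2 N)

theorem qfg_term_norm (s : ℂ) (n : ℕ) :
    ‖LSeries.term (fun n => ((bf f n : ℝ) : ℂ)) s n‖ = |bf f n| * (n : ℝ) ^ (-s.re) := by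
  rcases Nat.eq_zero_or_pos n with h | h
  · subst h
    simp
  · rw [LSeries.norm_term_eq, if_neg h.ne', Real.rpow_neg (Nat.cast_nonneg n),
      Complex.norm_real, Real.norm_eq_abs, div_eq_mul_inv]

theorem qfg_summable (hf : IsNew f) {s : ℂ} (hs : 3 / 2 < s.re) :
    LSeriesSummable (fun n => ((bf f n : ℝ) : ℂ)) s := by
  have h := sum_bf f hf hs
  refine Summable.of_norm ?_
  refine h.congr fun n => ?_
  rw [qfg_term_norm]

theorem qfg_abscissa (hf : IsNew f) :
    LSeries.abscissaOfAbsConv (fun n => ((bf f n : ℝ) : ℂ)) ≤ ((3 / 2 : ℝ) : EReal) := by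
  apply LSeries.abscissaOfAbsConv_le_of_forall_lt_LSeriesSummable
  intro y hy
  exact qfg_summable f hf (by simpa using hy)

theorem qfg_bdiff (hf : IsNew f) :
    DifferentiableOn ℂ (LSeries (fun n => ((bf f n : ℝ) : ℂ))) {z | 3 / 2 < z.re} := by
  refine (LSeries_differentiableOn _).mono fun z hz => ?_
  exact lt_of_le_of_lt (qfg_abscissa f hf) (by exact_mod_cast hz)

theorem qfg_bbound (hf : IsNew f) : ∃ C : ℝ, 0 ≤ C ∧ ∀ z : ℂ, 7 / 4 ≤ z.re →
    ‖LSeries (fun n => ((bf f n : ℝ) : ℂ)) z‖ ≤ C := by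
  have h := sum_bf f hf (s := 7 / 4) (by norm_num)
  refine ⟨∑' n : ℕ, |bf f n| * (n : ℝ) ^ (-(7 / 4) : ℝ), tsum_nonneg fun n => by positivity,
    fun z hz => ?_⟩
  unfold LSeries
  refine tsum_of_norm_bounded h.hasSum fun n => ?_
  rw [qfg_term_norm]
  rcases Nat.eq_zero_or_pos n with h0 | h0
  · subst h0
    simp
  · have h1 : (1 : ℝ) ≤ n := by exact_mod_cast h0
    exact mul_le_mul_of_nonneg_left (Real.rpow_le_rpow_of_exponent_le h1 (by linarith))
      (abs_nonneg _)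

theorem qfg_zbound : ∃ C : ℝ, 0 ≤ C ∧ ∀ z : ℂ, 3 / 2 ≤ z.re → ‖(riemannZeta z)⁻¹‖ ≤ C := by
  have h : Summable (fun n : ℕ => (n : ℝ) ^ (-(3 / 2) : ℝ)) :=
    Real.summable_nat_rpow.mpr (by norm_num)
  refine ⟨∑' n : ℕ, (n : ℝ) ^ (-(3 / 2) : ℝ), tsum_nonneg fun n => by positivity,
    fun z hz => ?_⟩
  have h1 : 1 < z.re := by linarith
  have h2 := LSeries_one_mul_Lseries_moebius h1
  rw [LSeries_one_eq_riemannZeta h1] at h2
  have h3 : (riemannZeta z)⁻¹ = LSeries (fun n => ((ArithmeticFunction.moebius n : ℤ) : ℂ)) z :=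
    inv_eq_of_mul_eq_one_right h2
  rw [h3]
  unfold LSeries
  refine tsum_of_norm_bounded h.hasSum fun n => ?_
  rcases Nat.eq_zero_or_pos n with h0 | h0
  · subst h0
    simp
  · rw [LSeries.norm_term_eq, if_neg h0.ne', Complex.norm_intCast]
    have h5 : (1 : ℝ) ≤ n := by exact_mod_cast h0
    have h6 : |((ArithmeticFunction.moebius n : ℤ) : ℝ)| ≤ 1 := by
      exact_mod_cast ArithmeticFunction.abs_moebius_le_one
    rw [Real.rpow_neg (Nat.cast_nonneg n), ← one_div]
    refine div_le_div₀ zero_le_one h6 (by positivity) ?_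
    exact Real.rpow_le_rpow_of_exponent_le h5 hz

theorem Qf_diff_pr (hf : IsNew f) : DifferentiableOn ℂ (Qf f) {z | 3 / 2 < z.re} := by
  unfold Qf
  refine DifferentiableOn.mul (DifferentiableOn.mul ?_ ?_) (DifferentiableOn.mul ?_ ?_)
  · exact (Differentiable.div_const (differentiable_riemannZeta₁.comp (by fun_prop)) 2).differentiableOn
  · exact ((CuspForm.differentiable_L two_pos f).comp (by fun_prop : Differentiable ℂ fun z : ℂ => z - 1)).differentiableOn
  · refine DifferentiableOn.inv ?_ fun z hz => ?_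
    · intro z hz
      have hz' : 3 / 2 < z.re := hz
      refine (DifferentiableAt.comp z (differentiableAt_riemannZeta ?_)
        (by fun_prop : DifferentiableAt ℂ (fun z : ℂ => 2 * z - 2) z)).differentiableWithinAt
      intro h
      have := congrArg Complex.re h
      simp at this
      linarith
    · have hz' : 3 / 2 < z.re := hz
      refine riemannZeta_ne_zero_of_one_lt_re ?_
      simp
      linarith
  · exact qfg_bdiff f hf

theorem Qf_growth_pr (hf : IsNew f) : ∃ C : ℝ, ∀ z : ℂ, 7 / 4 ≤ z.re → z.re ≤ 8 →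
    ‖Qf f z‖ ≤ C * Real.exp (C * |z.im|) := by
  obtain ⟨C1, h1⟩ := Lf_growth f (3 / 4) 7
  obtain ⟨C2, h20, h2⟩ := qfg_zbound
  obtain ⟨C3, h30, h3⟩ := qfg_bbound f hf
  -- the polynomial factor is at most `C4 * exp |z.im|`
  set K : ℝ := 5 * 50 ^ 2 * |C1| * C2 * C3 with hK
  have hK0 : 0 ≤ K := by positivity
  refine ⟨K + |C1| + 4, fun z hz1 hz2 => ?_⟩
  have e1 : ‖riemannZeta₁ (2 * z - 3) / 2‖ ≤ 5 * (50 * Real.exp (|z.im|)) ^ 2 := by
    rw [norm_div]
    have h4 := Pool.Agent.GA.z2_growth (s := 2 * z - 3) (by simp; linarith)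
    have h5 : ‖2 * z - 3‖ + 2 ≤ 50 * Real.exp |z.im| := by
      have h6 := Complex.norm_le_abs_re_add_abs_im (2 * z - 3)
      have h7 : |(2 * z - 3).re| ≤ 13 := by
        simp
        rw [abs_le]; constructor <;> linarith
      have h8 : |(2 * z - 3).im| = 2 * |z.im| := by
        simp [abs_mul]
      have h9 := Real.add_one_le_exp |z.im|
      have h10 := abs_nonneg z.im
      linarith
    have h11 : (‖2 * z - 3‖ + 2) ^ 2 ≤ (50 * Real.exp |z.im|) ^ 2 :=
      pow_le_pow_left₀ (by positivity) h5 2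
    have h12 : (0 : ℝ) ≤ ‖riemannZeta₁ (2 * z - 3)‖ := norm_nonneg _
    have h13 : ‖(2 : ℂ)‖ = 2 := by simp
    rw [h13]
    linarith
  have e2 : ‖Lf f (z - 1)‖ ≤ |C1| * Real.exp (|C1| * |z.im|) := by
    have h4 := h1 (z - 1) (by simp; linarith) (by simp; linarith)
    have h5 : (z - 1).im = z.im := by simp
    rw [h5] at h4
    refine h4.trans ?_
    have h6 : Real.exp (C1 * |z.im|) ≤ Real.exp (|C1| * |z.im|) :=
      Real.exp_le_exp.mpr (mul_le_mul_of_nonneg_right (le_abs_self _) (abs_nonneg _))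
    exact mul_le_mul (le_abs_self _) h6 (Real.exp_nonneg _) (abs_nonneg _)
  have e3 : ‖(riemannZeta (2 * z - 2))⁻¹‖ ≤ C2 := h2 _ (by simp; linarith)
  have e4 := h3 z hz1
  have e5 : ‖Qf f z‖ ≤ (5 * (50 * Real.exp (|z.im|)) ^ 2) * (|C1| * Real.exp (|C1| * |z.im|)) *
      (C2 * C3) := by
    unfold Qf
    rw [norm_mul, norm_mul, norm_mul]
    gcongr
  refine e5.trans ?_
  have e6 : (5 * (50 * Real.exp (|z.im|)) ^ 2) * (|C1| * Real.exp (|C1| * |z.im|)) * (C2 * C3)
      = K * Real.exp ((2 + |C1|) * |z.im|) := by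
    rw [hK, add_mul, Real.exp_add, two_mul, Real.exp_add]
    ring
  rw [e6]
  refine mul_le_mul (by linarith [abs_nonneg C1]) (Real.exp_le_exp.mpr ?_) (Real.exp_nonneg _)
    (by linarith [abs_nonneg C1])
  exact mul_le_mul_of_nonneg_right (by linarith) (abs_nonneg _)

end

end Pool.Agent.NN

namespace Pool.Agent.NN

theorem Qf_diff : type_of% @Qf_diff_pr := @Qf_diff_pr

theorem Qf_growth : type_of% @Qf_growth_pr := @Qf_growth_pr

end Pool.Agent.NN
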