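import Pool.Agent.Lib_helper32.NN.Dfs2
import Pool.Agent.Lib_helper32.NNF.LSR
import Pool.Agent.Lib_helper32.NNF.SAB

/-!
# NN, block QFS
-/

namespace Pool.Agent.NN

open Complex MeasureTheory Filter Topology UpperHalfPlane Matrix
open scoped MatrixGroups ENNReal ComplexConjugate
open Pool.Agent.LEV (S2 co IsNew Lh)

section
variable {N : ℕ} [Fact N.Prime] (f : S2 N)

/-- the square part -/
noncomputable def qfs_g (n : ℕ) : ℂ :=
  if IsSquare n then ((Nat.sqrt n).totient : ℂ) * (n : ℂ) else 0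

/-- the linear part -/
noncomputable def qfs_h (n : ℕ) : ℂ := (n : ℂ) * ((af f n : ℝ) : ℂ)

theorem qfs_g_sq (d : ℕ) : qfs_g (d ^ 2) = (d.totient : ℂ) * (d : ℂ) ^ 2 := by
  unfold qfs_g
  rw [if_pos ⟨d, pow_two d⟩, Nat.sqrt_eq' d]
  push_cast
  ring

theorem qfs_conv (n : ℕ) :
    LSeries.convolution qfs_g (qfs_h f) n = ((Af f n : ℝ) : ℂ) := by
  rw [LSeries.convolution_def]
  show _ = (((∑ d ∈ n.divisors.filter (fun d => d ^ 2 ∣ n),
    (d.totient : ℝ) * n * (co f (n / d ^ 2)).re : ℝ)) : ℂ)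
  push_cast
  symm
  refine Finset.sum_of_injOn (fun d => (d ^ 2, n / d ^ 2)) ?_ ?_ ?_ ?_
  · intro a _ b _ hab
    have h1 : a ^ 2 = b ^ 2 := congrArg Prod.fst hab
    exact Nat.pow_left_injective (n := 2) (by norm_num) h1
  · intro d hd
    rw [Finset.mem_coe, Finset.mem_filter, Nat.mem_divisors] at hd
    obtain ⟨⟨h1, h2⟩, h3⟩ := hd
    rw [Finset.mem_coe, Nat.mem_divisorsAntidiagonal]
    exact ⟨Nat.mul_div_cancel' h3, h2⟩
  · rintro ⟨u, v⟩ h1 h2
    rw [Nat.mem_divisorsAntidiagonal] at h1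
    obtain ⟨h1, h3⟩ := h1
    show qfs_g u * _ = 0
    by_cases hu : IsSquare u
    · exfalso
      obtain ⟨r, hr⟩ := hu
      apply h2
      refine ⟨r, ?_, ?_⟩
      · rw [Finset.mem_coe, Finset.mem_filter, Nat.mem_divisors]
        have h4 : r ^ 2 ∣ n := ⟨v, by rw [pow_two, ← hr]; exact h1.symm⟩
        exact ⟨⟨(dvd_pow_self r two_ne_zero).trans h4, h3⟩, h4⟩
      · have h5 : r ^ 2 = u := by rw [pow_two, ← hr]
        have h6 : 0 < u := Nat.pos_of_ne_zero fun h => h3 (by rw [← h1, h]; simp)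
        show (r ^ 2, n / r ^ 2) = (u, v)
        rw [h5, ← h1, Nat.mul_div_cancel_left v h6]
    · unfold qfs_g
      rw [if_neg hu, zero_mul]
  · intro d hd
    rw [Finset.mem_filter, Nat.mem_divisors] at hd
    obtain ⟨⟨h1, h2⟩, h3⟩ := hd
    show _ = qfs_g (d ^ 2) * qfs_h f (n / d ^ 2)
    rw [qfs_g_sq]
    unfold qfs_h
    have h4 : ((d : ℂ) ^ 2) * ((n / d ^ 2 : ℕ) : ℂ) = (n : ℂ) := by
      rw [← Nat.cast_pow, ← Nat.cast_mul, Nat.mul_div_cancel' h3]
    show _ = _ * (_ * (((co f (n / d ^ 2)).re : ℝ) : ℂ))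
    rw [← h4]
    ring

theorem qfs_al (n : ℕ) : ((al f n : ℝ) : ℂ) =
    LSeries.convolution (fun n => ((bf f n : ℝ) : ℂ)) (fun n => ((Af f n : ℝ) : ℂ)) n := by
  rw [LSeries.convolution_def]
  show (((bf f * Af f) n : ℝ) : ℂ) = _
  rw [ArithmeticFunction.mul_apply]
  push_cast
  rfl

theorem qfs_term_norm (g : ℕ → ℝ) (s : ℂ) (n : ℕ) (h0 : g 0 = 0) :
    ‖LSeries.term (fun n => ((g n : ℝ) : ℂ)) s n‖ = |g n| * (n : ℝ) ^ (-s.re) := by
  rcases Nat.eq_zero_or_pos n with h | h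
  · subst h
    simp [h0]
  · rw [LSeries.norm_term_eq, if_neg h.ne', Real.rpow_neg (Nat.cast_nonneg n),
      Complex.norm_real, Real.norm_eq_abs, div_eq_mul_inv]

theorem qfs_sum_b (hf : IsNew f) {s : ℂ} (hs : 3 / 2 < s.re) :
    LSeriesSummable (fun n => ((bf f n : ℝ) : ℂ)) s := by
  refine Summable.of_norm ((sum_bf f hf hs).congr fun n => ?_)
  rw [qfs_term_norm _ _ _ (ArithmeticFunction.map_zero)]

theorem qfs_sum_a (hf : IsNew f) {s : ℂ} (hs : 3 / 2 < s.re) :
    LSeriesSummable (fun n => ((af f n : ℝ) : ℂ)) s := by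
  refine Summable.of_norm ((sum_af f hf hs).congr fun n => ?_)
  rw [qfs_term_norm _ _ _ (ArithmeticFunction.map_zero)]

/-- shifting the argument -/
theorem qfs_term_h (s : ℂ) : LSeries.term (qfs_h f) s =
    LSeries.term (fun n => ((af f n : ℝ) : ℂ)) (s - 1) := by
  funext n
  rcases Nat.eq_zero_or_pos n with h | h
  · subst h; simp
  · rw [LSeries.term_of_ne_zero h.ne', LSeries.term_of_ne_zero h.ne']
    have h1 : (n : ℂ) ≠ 0 := by exact_mod_cast h.ne'
    unfold qfs_h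
    rw [Complex.cpow_sub _ _ h1, Complex.cpow_one]
    have h2 : (n : ℂ) ^ s ≠ 0 := by
      rw [Ne, Complex.cpow_eq_zero_iff]
      tauto
    field_simp

/-- the Dirichlet series of the totient function -/
theorem qfs_totient {s : ℂ} (hs : 2 < s.re) :
    LSeriesSummable (fun n => (n.totient : ℂ)) s ∧
    LSeries (fun n => (n.totient : ℂ)) s * riemannZeta s = riemannZeta (s - 1) := by
  have h1 : LSeriesSummable (fun n => (n.totient : ℂ)) s := by
    refine LSeriesSummable_of_le_const_mul_rpow (x := 2) hs ⟨1, fun n hn => ?_⟩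
    rw [one_mul, Complex.norm_natCast]
    have : (2 : ℝ) - 1 = 1 := by norm_num
    rw [this, Real.rpow_one]
    exact_mod_cast Nat.totient_le n
  have hs1 : 1 < s.re := by linarith
  refine ⟨h1, ?_⟩
  have h2 : LSeriesSummable (1 : ℕ → ℂ) s := LSeriesSummable_one_iff.mpr hs1
  rw [← LSeries_one_eq_riemannZeta hs1, ← LSeries_convolution' h1 h2,
    ← LSeries_one_eq_riemannZeta (s := s - 1) (by rw [Complex.sub_re, Complex.one_re]; linarith)]
  unfold LSeries
  congr 1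
  funext n
  rcases Nat.eq_zero_or_pos n with h | h
  · subst h; simp
  · rw [LSeries.term_of_ne_zero h.ne', LSeries.term_of_ne_zero h.ne']
    have h3 : (n : ℂ) ≠ 0 := by exact_mod_cast h.ne'
    rw [LSeries.convolution_def, Complex.cpow_sub _ _ h3, Complex.cpow_one]
    have h4 : (n : ℂ) ^ s ≠ 0 := by
      rw [Ne, Complex.cpow_eq_zero_iff]
      tauto
    have h5 : ∑ p ∈ n.divisorsAntidiagonal, ((p.1.totient : ℕ) : ℂ) * (1 : ℕ → ℂ) p.2 = n := by
      simp only [Pi.one_apply, mul_one]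
      rw [Nat.sum_divisorsAntidiagonal (f := fun d _ => ((d.totient : ℕ) : ℂ)), ← Nat.cast_sum,
        Nat.sum_totient]
    show (∑ p ∈ n.divisorsAntidiagonal, ((p.1.totient : ℕ) : ℂ) * (1 : ℕ → ℂ) p.2) / _ = _
    rw [h5, Pi.one_apply]
    field_simp

theorem qfs_g_term (s : ℂ) (d : ℕ) : LSeries.term qfs_g s (d ^ 2) =
    LSeries.term (fun n => (n.totient : ℂ)) (2 * s - 2) d := by
  rcases Nat.eq_zero_or_pos d with h | h
  · subst h; simp
  rw [LSeries.term_of_ne_zero (pow_ne_zero 2 h.ne'), LSeries.term_of_ne_zero h.ne', qfs_g_sq]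
  have h1 : (d : ℂ) ≠ 0 := by exact_mod_cast h.ne'
  have h2 : ((d ^ 2 : ℕ) : ℂ) ^ s = (d : ℂ) ^ s * (d : ℂ) ^ s := by
    rw [pow_two, Nat.cast_mul, Complex.natCast_mul_natCast_cpow]
  have h3 : (d : ℂ) ^ (2 * s - 2) = (d : ℂ) ^ s * (d : ℂ) ^ s / (d : ℂ) ^ 2 := by
    rw [Complex.cpow_sub _ _ h1, two_mul, Complex.cpow_add _ _ h1, Complex.cpow_ofNat]
  have h4 : (d : ℂ) ^ s ≠ 0 := by
    rw [Ne, Complex.cpow_eq_zero_iff]
    tauto
  rw [h2, h3]
  field_simp

theorem qfs_g_sum {s : ℂ} (hs : 8 ≤ s.re) :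
    LSeriesHasSum qfs_g s (LSeries (fun n => (n.totient : ℂ)) (2 * s - 2)) := by
  have h1 := (qfs_totient (s := 2 * s - 2) (by simp; linarith)).1
  have h2 : HasSum (LSeries.term (fun n => (n.totient : ℂ)) (2 * s - 2))
      (LSeries (fun n => (n.totient : ℂ)) (2 * s - 2)) := h1.hasSum
  have hinj : Function.Injective (fun d : ℕ => d ^ 2) := Nat.pow_left_injective (by norm_num)
  have h3 : LSeries.term (fun n => (n.totient : ℂ)) (2 * s - 2) =
      (LSeries.term qfs_g s) ∘ (fun d : ℕ => d ^ 2) := by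
    funext d
    exact (qfs_g_term s d).symm
  rw [h3] at h2
  refine (hinj.hasSum_iff fun x hx => ?_).mp h2
  rcases Nat.eq_zero_or_pos x with h | h
  · subst h; simp
  · rw [LSeries.term_of_ne_zero h.ne']
    have : ¬ IsSquare x := fun ⟨r, hr⟩ => hx ⟨r, by simp [hr, pow_two]⟩
    unfold qfs_g
    rw [if_neg this, zero_div]

theorem Qf_eq_pr (hf : IsNew f) {z : ℂ} (hz : 8 ≤ z.re) :
    Qf f z = (z - 2) * LSeries (fun n => ((al f n : ℝ) : ℂ)) z := by
  have hz1 : 3 / 2 < (z - 1).re := by rw [Complex.sub_re, Complex.one_re]; linarith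
  have hz2 : 3 / 2 < z.re := by linarith
  have hz3 : 2 < (2 * z - 2).re := by simp; linarith
  have e1 : LSeries (fun n => ((al f n : ℝ) : ℂ)) z =
      LSeries (fun n => ((bf f n : ℝ) : ℂ)) z *
        (LSeries (fun n => (n.totient : ℂ)) (2 * z - 2) * Lf f (z - 1)) := by
    have ha : LSeriesHasSum (qfs_h f) z (Lf f (z - 1)) := by
      show HasSum _ _
      rw [qfs_term_h, Lf_eq f hf hz1]
      exact (qfs_sum_a f hf hz1).hasSum
    have hA : LSeriesHasSum (fun n => ((Af f n : ℝ) : ℂ)) z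
        (LSeries (fun n => (n.totient : ℂ)) (2 * z - 2) * Lf f (z - 1)) := by
      have h := (qfs_g_sum hz).convolution ha
      have h' : LSeries.convolution qfs_g (qfs_h f) = fun n => ((Af f n : ℝ) : ℂ) :=
        funext (qfs_conv f)
      rw [h'] at h
      exact h
    have hb : LSeriesHasSum (fun n => ((bf f n : ℝ) : ℂ)) z
        (LSeries (fun n => ((bf f n : ℝ) : ℂ)) z) := (qfs_sum_b f hf hz2).hasSum
    have hc := hb.convolution hA
    have h' : (fun n => ((al f n : ℝ) : ℂ)) = LSeries.convolution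
      (fun n => ((bf f n : ℝ) : ℂ)) (fun n => ((Af f n : ℝ) : ℂ)) := funext (qfs_al f)
    rw [h']
    exact hc.LSeries_eq
  obtain ⟨-, e2⟩ := qfs_totient hz3
  have e3 : riemannZeta (2 * z - 2) ≠ 0 := riemannZeta_ne_zero_of_one_lt_re (by linarith)
  have e4 : LSeries (fun n => (n.totient : ℂ)) (2 * z - 2) =
      riemannZeta (2 * z - 3) * (riemannZeta (2 * z - 2))⁻¹ := by
    rw [eq_mul_inv_iff_mul_eq₀ e3, e2]
    congr 1
    ring
  have e5 : riemannZeta₁ (2 * z - 3) = 2 * ((z - 2) * riemannZeta (2 * z - 3)) := by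
    have h1 : 2 * z - 3 ≠ 1 := by
      intro h
      have := congrArg Complex.re h
      simp at this
      linarith
    have h2 := riemannZeta_eq_inv_sub_mul h1
    have h3 : 2 * z - 3 - 1 ≠ 0 := sub_ne_zero.mpr h1
    rw [h2]
    field_simp
    ring
  rw [e1, e4]
  unfold Qf
  rw [e5]
  ring

end

end Pool.Agent.NN

namespace Pool.Agent.NN

theorem Qf_eq : type_of% @Qf_eq_pr := @Qf_eq_pr

end Pool.Agent.NN
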