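import Pool.Agent.Lib_helper32.NN.Dfs2
import Pool.Agent.Lib_helper32.NNF.COV
import Pool.Agent.Lib_helper32.NNF.PHA
import Pool.Agent.Lib_helper32.NNF.PHM

/-! Block MMC: integration against the square of `ph` (helper23). -/

namespace Pool.Agent.NN

open Complex MeasureTheory Filter Topology UpperHalfPlane Matrix
open scoped MatrixGroups ENNReal ComplexConjugate
open Pool.Agent.LEV (S2 co IsNew Lh)

section
variable {N : ℕ} [Fact N.Prime] (f : S2 N)

/-- the density -/
noncomputable def mmc_psi (z : ℍ) : ℝ≥0∞ :=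
  ENNReal.ofReal (‖f z‖ ^ 2 * z.im ^ 2) * LEV.FUN_psi N z

theorem mmc_psi_meas : Measurable (mmc_psi f) := by
  have h1 : Measurable (fun z : ℍ => ENNReal.ofReal (‖f z‖ ^ 2 * z.im ^ 2)) := by
    have h2 := LEV.FRU_cont f
    have h3 : Continuous (fun z : ℍ => ‖f z‖ ^ 2 * z.im ^ 2) :=
      (h2.norm.pow 2).mul (UpperHalfPlane.continuous_im.pow 2)
    exact h3.measurable.ennreal_ofReal
  exact h1.mul LEV.FUN_psi_meas

theorem mmc_en : LEV.en (LEV.fam f) = 2 * ∫⁻ z : ℍ, mmc_psi f z := by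
  have h := LEV.FRU_en f (ψ := LEV.FUN_psi N) (fun h hm _ => LEV.FUN_lintegral h hm)
  rw [h]
  congr 1
  apply lintegral_congr
  intro z
  rw [mmc_psi, LEV.FRU_h_eq]

theorem mmc_lt : ∫⁻ z : ℍ, mmc_psi f z < ⊤ := by
  have h1 := LEV.en_lt f
  rw [mmc_en] at h1
  by_contra h2
  rw [not_lt, top_le_iff] at h2
  rw [h2, ENNReal.mul_top (by norm_num)] at h1
  exact lt_irrefl _ h1

theorem mmc_cf : cf f = Real.pi * (∫⁻ z : ℍ, mmc_psi f z).toReal := rfl

theorem cf_pos_pr (hf : IsNew f) : 0 < cf f := by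
  have h1 := LEV.nr_pos (LEV.new_ne_zero hf)
  have h2 := LEV.nr_en f
  rw [mmc_en] at h2
  have h3 : 0 < ENNReal.ofReal (LEV.nr f) := ENNReal.ofReal_pos.2 h1
  rw [h2] at h3
  have h4 : ∫⁻ z : ℍ, mmc_psi f z ≠ 0 := by
    intro h5
    rw [h5, mul_zero] at h3
    exact lt_irrefl _ h3
  rw [mmc_cf]
  exact mul_pos Real.pi_pos (ENNReal.toReal_pos h4 (mmc_lt f).ne)

theorem mmc_ma : Measurable (ma : R4 → M2) := by
  apply measurable_pi_lambda
  intro i
  apply measurable_pi_lambda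
  intro j
  fin_cases i <;> fin_cases j
  · exact measurable_fst
  · exact measurable_fst.comp measurable_snd
  · exact measurable_fst.comp (measurable_snd.comp measurable_snd)
  · exact measurable_snd.comp (measurable_snd.comp measurable_snd)

theorem mmc_det (e : R4) : (ma e).det = e.1 * e.2.2.2 - e.2.1 * e.2.2.1 := by
  rw [ma, Matrix.det_fin_two_of]

theorem mmc_detm : Measurable (fun e : R4 => (ma e).det) := by
  simp_rw [mmc_det]
  fun_prop

/-- the key identity for nonnegative functions -/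
theorem mmc_lint {G : ℝ → ℝ} (hG : Measurable G) :
    ∫⁻ e : R4, ENNReal.ofReal (if 0 < (ma e).det then ‖ph f (ma e)‖ ^ 2 * G (ma e).det *
      (LEV.FUN_psi N (zz (ma e))).toReal else 0) =
      ENNReal.ofReal Real.pi * (∫⁻ z : ℍ, mmc_psi f z) *
        ∫⁻ t in Set.Ioi (0 : ℝ), ENNReal.ofReal (G t * t) := by
  have h1 := cov (G := fun t => ENNReal.ofReal (G t)) hG.ennreal_ofReal (mmc_psi_meas f)
  have h2 : ∫⁻ t in Set.Ioi (0 : ℝ), ENNReal.ofReal (G t * t) =
      ∫⁻ t in Set.Ioi (0 : ℝ), ENNReal.ofReal (G t) * ENNReal.ofReal t := by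
    apply setLIntegral_congr_fun measurableSet_Ioi
    intro t ht
    exact ENNReal.ofReal_mul' (le_of_lt ht)
  rw [h2, ← h1]
  apply lintegral_congr
  intro e
  by_cases h : 0 < (ma e).det
  · rw [if_pos h, if_pos h, ph_norm f h, mmc_psi]
    have h3 : LEV.FUN_psi N (zz (ma e)) ≠ ⊤ :=
      ne_top_of_le_ne_top (by simp) (LEV.FUN_psi_le (N := N) (zz (ma e)))
    have h4 : (‖f (zz (ma e))‖ * (zz (ma e)).im) ^ 2 * G (ma e).det *
        (LEV.FUN_psi N (zz (ma e))).toReal = (G (ma e).det * (‖f (zz (ma e))‖ ^ 2 * (zz (ma e)).im ^ 2)) *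
        (LEV.FUN_psi N (zz (ma e))).toReal := by ring
    rw [h4, ENNReal.ofReal_mul' ENNReal.toReal_nonneg, ENNReal.ofReal_mul' (by positivity),
      ENNReal.ofReal_toReal h3, mul_assoc]
  · rw [if_neg h, if_neg h, ENNReal.ofReal_zero]

theorem mmc_meas {G : ℝ → ℝ} (hG : Measurable G) :
    Measurable (fun e : R4 => if 0 < (ma e).det then ‖ph f (ma e)‖ ^ 2 * G (ma e).det *
      (LEV.FUN_psi N (zz (ma e))).toReal else 0) := by
  apply Measurable.ite (measurableSet_lt measurable_const mmc_detm)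
  · exact (((((ph_meas f).comp mmc_ma).norm.pow_const 2).mul (hG.comp mmc_detm)).mul
      ((LEV.FUN_psi_meas.comp (zz_meas.comp mmc_ma)).ennreal_toReal))
  · exact measurable_const

/-- MMC. integration against `|ph|²` -/
theorem mmc_pr {G : ℝ → ℝ} (hG : Measurable G)
    (hi : IntegrableOn (fun t => G t * t) (Set.Ioi (0 : ℝ))) :
    Integrable (fun e : R4 => if 0 < (ma e).det then ‖ph f (ma e)‖ ^ 2 * G (ma e).det *
      (LEV.FUN_psi N (zz (ma e))).toReal else 0) ∧
    ∫ e : R4, (if 0 < (ma e).det then ‖ph f (ma e)‖ ^ 2 * G (ma e).det *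
      (LEV.FUN_psi N (zz (ma e))).toReal else 0) = cf f * ∫ t in Set.Ioi (0 : ℝ), G t * t := by
  have hlt := mmc_lt f
  have key : ∀ H : ℝ → ℝ, Measurable H → (∀ t, |H t| ≤ |G t|) →
      ∫⁻ e : R4, ENNReal.ofReal (if 0 < (ma e).det then ‖ph f (ma e)‖ ^ 2 * H (ma e).det *
      (LEV.FUN_psi N (zz (ma e))).toReal else 0) < ⊤ := by
    intro H hH hle
    rw [mmc_lint f hH]
    refine ENNReal.mul_lt_top (ENNReal.mul_lt_top ENNReal.ofReal_lt_top hlt) ?_
    have h1 : ∫⁻ t in Set.Ioi (0 : ℝ), ENNReal.ofReal (H t * t) ≤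
        ∫⁻ t in Set.Ioi (0 : ℝ), ‖G t * t‖ₑ := by
      apply lintegral_mono
      intro t
      show ENNReal.ofReal (H t * t) ≤ ‖G t * t‖ₑ
      rw [← ofReal_norm]
      apply ENNReal.ofReal_le_ofReal
      calc H t * t ≤ |H t * t| := le_abs_self _
        _ = |H t| * |t| := abs_mul _ _
        _ ≤ |G t| * |t| := mul_le_mul_of_nonneg_right (hle t) (abs_nonneg _)
        _ = ‖G t * t‖ := by rw [Real.norm_eq_abs, abs_mul]
    exact lt_of_le_of_lt h1 hi.2
  have hint : Integrable (fun e : R4 => if 0 < (ma e).det then ‖ph f (ma e)‖ ^ 2 * G (ma e).det *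
      (LEV.FUN_psi N (zz (ma e))).toReal else 0) := by
    refine ⟨(mmc_meas f hG).aestronglyMeasurable, ?_⟩
    have h1 := key (fun t => |G t|) hG.abs (fun t => by rw [abs_abs])
    refine lt_of_le_of_lt (lintegral_mono ?_) h1
    intro e
    show ‖(if 0 < (ma e).det then ‖ph f (ma e)‖ ^ 2 * G (ma e).det *
      (LEV.FUN_psi N (zz (ma e))).toReal else 0 : ℝ)‖ₑ ≤ _
    rw [← ofReal_norm]
    apply ENNReal.ofReal_le_ofReal
    by_cases h : 0 < (ma e).det
    · rw [if_pos h, if_pos h, Real.norm_eq_abs, abs_mul, abs_mul,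
        abs_of_nonneg (ENNReal.toReal_nonneg), abs_of_nonneg (by positivity)]
    · rw [if_neg h, if_neg h, norm_zero]
  refine ⟨hint, ?_⟩
  rw [integral_eq_lintegral_pos_part_sub_lintegral_neg_part hint,
    integral_eq_lintegral_pos_part_sub_lintegral_neg_part hi, mmc_lint f hG]
  have h6 : ∫⁻ e : R4, ENNReal.ofReal (-(if 0 < (ma e).det then ‖ph f (ma e)‖ ^ 2 * G (ma e).det *
      (LEV.FUN_psi N (zz (ma e))).toReal else 0)) =
      ENNReal.ofReal Real.pi * (∫⁻ z : ℍ, mmc_psi f z) *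
        ∫⁻ t in Set.Ioi (0 : ℝ), ENNReal.ofReal (-(G t * t)) := by
    have h7 := mmc_lint f (G := fun t => -G t) hG.neg
    have h8 : ∀ t : ℝ, -(G t * t) = (fun t => -G t) t * t := by
      intro t
      ring
    simp_rw [h8]
    rw [← h7]
    apply lintegral_congr
    intro e
    congr 1
    by_cases h : 0 < (ma e).det
    · rw [if_pos h, if_pos h]
      ring
    · rw [if_neg h, if_neg h, neg_zero]
  rw [h6]
  rw [mmc_cf]
  simp only [ENNReal.toReal_mul, ENNReal.toReal_ofReal Real.pi_pos.le]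
  ring


end

end Pool.Agent.NN

namespace Pool.Agent.NN

theorem cf_pos : type_of% @cf_pos_pr := @cf_pos_pr

theorem mmc : type_of% @mmc_pr := @mmc_pr

end Pool.Agent.NN
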