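import Pool.Agent.Lib_helper32.NN.Dfs2
import Pool.Agent.Lib_helper32.NNF.FFB

/-!
# Block RK0: the cosets of rank zero
-/

set_option autoImplicit false

namespace Pool.Agent.NN

open Complex MeasureTheory Filter Topology UpperHalfPlane Matrix
open scoped MatrixGroups ENNReal ComplexConjugate
open Pool.Agent.LEV (S2 co IsNew Lh)

lemma rk0_det_int {N : ℕ} {m : M2} (hm : m ∈ OO N) : ∃ k : ℤ, m.det = k := by
  obtain ⟨a, b, c, d, rfl⟩ := hm
  refine ⟨a * d - b * (N * c), ?_⟩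
  rw [Matrix.det_fin_two_of]
  push_cast
  ring

lemma rk0_det_pp (N : ℕ) : (PP N).det = N := by
  unfold PP
  rw [Matrix.det_fin_two_of]
  ring

lemma rk0_cb_zero {N : ℕ} (hN : N ≠ 0) {x : M4} (h : cb N x = 0) : x.toBlocks₂₁ = 0 := by
  have h1 : PI N * cb N x = x.toBlocks₂₁ := by
    unfold cb
    rw [← Matrix.mul_assoc, pi_mul_pp hN, Matrix.one_mul]
  rw [← h1, h, Matrix.mul_zero]

section
variable {N : ℕ} [hN : Fact N.Prime]

lemma rk0_det (g : GaN N) (hg : (mt N g).toBlocks₂₁ = 0) :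
    ((mt N g).toBlocks₂₂).det = 1 ∨ ((mt N g).toBlocks₂₂).det = -1 := by
  have hN0 := hN.out.ne_zero
  have hG : inG N (mt N g) := g.2
  obtain ⟨h1, -, -, h4⟩ := hG
  obtain ⟨k, hk⟩ := rk0_det_int h1
  obtain ⟨l, hl⟩ := rk0_det_int h4
  have hpp : (PP N).det * (PI N).det = 1 := by
    rw [← Matrix.det_mul, pp_mul_pi hN0, Matrix.det_one]
  have hl' : ((mt N g).toBlocks₂₂).det = l := by
    rw [← hl]
    unfold db
    rw [Matrix.det_mul, Matrix.det_mul]
    calc ((mt N g).toBlocks₂₂).det = ((mt N g).toBlocks₂₂).det * ((PP N).det * (PI N).det) := by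
          rw [hpp, mul_one]
      _ = _ := by ring
  have e2 : mt N (g * g⁻¹) = mt N g * mt N g⁻¹ := rfl
  have e3 : mt N (g * g⁻¹) = 1 := by rw [mul_inv_cancel]; rfl
  have e : mt N g⁻¹ = (((g : Sp)⁻¹ : Sp) : M4) := rfl
  rw [e3, bl_mul] at e2
  have e4 := congrArg toBlocks₂₂ e2
  rw [toBlocks_fromBlocks₂₂, hg, Matrix.zero_mul, zero_add, ← fromBlocks_one,
    toBlocks_fromBlocks₂₂, e, bl_inv, toBlocks_fromBlocks₂₂] at e4
  have e5 := congrArg Matrix.det e4
  rw [det_one, det_mul, det_transpose] at e5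
  have e6 : ((g : Sp) : M4) = mt N g := rfl
  rw [e6, hl', hk] at e5
  have e7 : l * k = 1 := by exact_mod_cast e5.symm
  rcases Int.eq_one_or_neg_one_of_mul_eq_one e7 with h | h
  · left; rw [hl', h]; norm_num
  · right; rw [hl', h]; norm_num

lemma rk0_rp_one : rp N ((1 : GaN N) : GaN N ⧸ PN N) ∈ PN N := by
  unfold rp
  have h1 : ((Quotient.out ((1 : GaN N) : GaN N ⧸ PN N) : GaN N) : GaN N ⧸ PN N) =
      ((1 : GaN N) : GaN N ⧸ PN N) := QuotientGroup.out_eq' _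
  rw [QuotientGroup.eq] at h1
  simpa using h1

lemma rk0_eq_one {q : GaN N ⧸ PN N} (h : rp N q ∈ PN N) : q = ((1 : GaN N) : GaN N ⧸ PN N) := by
  unfold rp at h
  have h1 : ((Quotient.out q : GaN N) : GaN N ⧸ PN N) = q := QuotientGroup.out_eq' _
  rw [← h1, QuotientGroup.eq]
  simpa using h

variable (f : S2 N)


omit hN in
lemma rk0_FF_neg (h : ℝ → ℝ) {x : M4} (hx : (db N x).det ≤ 0) : FF f h x = 0 := by
  unfold FF F0 ph
  rw [if_neg (not_lt.2 hx)]
  ring

/-- RK0. the cosets of rank zero -/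
theorem rk0_pr (h : ℝ → ℝ) {x : M4} (hx : 0 < (db N x).det) :
    ∑' q : {q : GaN N ⧸ PN N // cq N q = 0}, FF f h (act N (rp N (q : GaN N ⧸ PN N)) x) = FF f h x := by
  have hN0 := hN.out.ne_zero
  have h1 : cq N ((1 : GaN N) : GaN N ⧸ PN N) = 0 := by
    unfold cq cb
    rw [rk0_rp_one.1, Matrix.mul_zero]
  rw [tsum_eq_single (⟨_, h1⟩ : {q : GaN N ⧸ PN N // cq N q = 0})]
  · exact ff_inv f h rk0_rp_one x
  · rintro ⟨q, hq⟩ hne
    have h21 : (mt N (rp N q)).toBlocks₂₁ = 0 := rk0_cb_zero hN0 hq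
    rcases rk0_det (rp N q) h21 with h2 | h2
    · exact absurd (Subtype.ext (rk0_eq_one ⟨h21, h2⟩)) hne
    · apply rk0_FF_neg
      have h3 : db N (act N (rp N q) x) = PP N * ((mt N (rp N q)).toBlocks₂₂ * x.toBlocks₂₂) := by
        unfold act db
        rw [bl_mul, toBlocks_fromBlocks₂₂, h21, Matrix.zero_mul, zero_add]
      have h4 : (db N x).det = (PP N).det * (x.toBlocks₂₂).det := by
        unfold db
        rw [Matrix.det_mul]
      rw [h3, Matrix.det_mul, Matrix.det_mul, h2]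
      rw [h4] at hx
      nlinarith

end


end Pool.Agent.NN

namespace Pool.Agent.NN

theorem rk0 : type_of% @rk0_pr := @rk0_pr

end Pool.Agent.NN
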