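import Pool.Agent.Lib_helper32.NN.Dfs2
import Pool.Agent.Lib_helper32.NNF.CNG
import Pool.Agent.Lib_helper32.NNF.INV
import Pool.Agent.Lib_helper32.NNF.LIN
import Pool.Agent.Lib_helper32.NNF.MEA

/-!
# NUI: the measure is invariant under the symplectic group
-/

namespace Pool.Agent.NN

open Complex MeasureTheory Filter Topology UpperHalfPlane Matrix
open scoped MatrixGroups ENNReal ComplexConjugate
open Pool.Agent.LEV (S2 co IsNew Lh)

section nui

theorem nui_sy_ys {m : M2} (h : mᵀ = m) : sy (ys m) = m := by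
  have h01 : m 1 0 = m 0 1 := congrFun (congrFun h 0) 1
  ext i j
  fin_cases i <;> fin_cases j <;> simp [sy, ys, h01]

theorem nui_ma_am (m : M2) : ma (am m) = m := by
  ext i j
  fin_cases i <;> fin_cases j <;> simp [ma, am]

theorem nui_syT (x : R3) : (sy x)ᵀ = sy x := by
  ext i j
  fin_cases i <;> fin_cases j <;> simp [sy]

theorem nui_sy_add (x y : R3) : sy (x + y) = sy x + sy y := by
  ext i j
  fin_cases i <;> fin_cases j <;> simp [sy]

theorem nui_sy_det (x : R3) : (sy x).det = dt x := by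
  simp only [sy, dt, det_fin_two_of]
  ring

theorem nui_entry {m n : Type*} (i : m) (j : n) : Measurable (fun x : Matrix m n ℝ => x i j) :=
  (measurable_pi_apply j).comp (measurable_pi_apply i)

theorem nui_lmeas (g : M4) : Measurable (fun m : M4 => g * m) := by
  refine measurable_pi_iff.2 (fun i => measurable_pi_iff.2 (fun j => ?_))
  simp only [Matrix.mul_apply]
  exact Finset.measurable_sum _ (fun k _ => (nui_entry k j).const_mul _)

theorem nui_dmeas : Measurable (fun e : R4 => ENNReal.ofReal |(ma e).det|) := by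
  simp only [ma, det_fin_two_of]
  fun_prop

variable {N : ℕ}

/-- the integral in coordinates -/
theorem nui_meas3 {G : M4 → ℝ≥0∞} (hG : Measurable G) :
    Measurable (fun p : (R3 × R4) × R3 => ENNReal.ofReal |(ma p.1.2).det| *
      G (jj N (p.1.1, p.1.2, p.2))) := by
  refine (nui_dmeas.comp (measurable_snd.comp measurable_fst)).mul ?_
  refine hG.comp ((jj_meas N).comp ?_)
  exact (measurable_fst.comp measurable_fst).prodMk
    ((measurable_snd.comp measurable_fst).prodMk measurable_snd)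

theorem nui_K_meas {G : M4 → ℝ≥0∞} (hG : Measurable G) :
    Measurable (fun p : R3 × R4 => ∫⁻ y : R3, ENNReal.ofReal |(ma p.2).det| *
      G (jj N (p.1, p.2, y))) :=
  (nui_meas3 (N := N) hG).lintegral_prod_right'

theorem nui_L_meas {G : M4 → ℝ≥0∞} (hG : Measurable G) :
    Measurable (fun x : R3 => ∫⁻ e : R4, ∫⁻ y : R3, ENNReal.ofReal |(ma e).det| *
      G (jj N (x, e, y))) :=
  (nui_K_meas (N := N) hG).lintegral_prod_right'

theorem nui_int {G : M4 → ℝ≥0∞} (hG : Measurable G) :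
    ∫⁻ m, G m ∂(nu N) = ∫⁻ x : R3, ∫⁻ e : R4, ∫⁻ y : R3, ENNReal.ofReal |(ma e).det| *
      G (jj N (x, e, y)) := by
  have hD : Measurable (fun w : R3 × R4 × R3 => ENNReal.ofReal |(ma w.2.1).det|) :=
    nui_dmeas.comp (measurable_fst.comp measurable_snd)
  have hGj : Measurable (fun w : R3 × R4 × R3 => G (jj N w)) := hG.comp (jj_meas N)
  unfold nu
  rw [lintegral_map hG (jj_meas N), lintegral_withDensity_eq_lintegral_mul _ hD hGj,
    Measure.volume_eq_prod, lintegral_prod _ (hD.mul hGj).aemeasurable]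
  refine lintegral_congr (fun x => ?_)
  have h2 : Measurable (fun p : R4 × R3 => ENNReal.ofReal |(ma p.1).det| * G (jj N (x, p.1, p.2))) := by
    refine (nui_dmeas.comp measurable_fst).mul ?_
    exact hG.comp ((jj_meas N).comp (measurable_const.prodMk measurable_id))
  rw [Measure.volume_eq_prod]
  exact lintegral_prod _ h2.aemeasurable

/-- the invariance property -/
def nui_S (N : ℕ) (g : M4) : Prop :=
  ∀ G : M4 → ℝ≥0∞, Measurable G → ∫⁻ m, G (g * m) ∂(nu N) = ∫⁻ m, G m ∂(nu N)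

theorem nui_mul {g h : M4} (hg : nui_S N g) (hh : nui_S N h) : nui_S N (g * h) := by
  intro G hG
  have e := hh (fun m => G (g * m)) (hG.comp (nui_lmeas g))
  rw [← hg G hG, ← e]
  refine lintegral_congr (fun m => ?_)
  rw [Matrix.mul_assoc]

theorem nui_inv {g h : M4} (hg : nui_S N g) (hh : h * g = 1) : nui_S N h := by
  intro G hG
  have e := hg (fun m => G (h * m)) (hG.comp (nui_lmeas h))
  rw [← e]
  refine lintegral_congr (fun m => ?_)
  rw [← Matrix.mul_assoc, hh, Matrix.one_mul]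

theorem nui_K_meas1 {G : M4 → ℝ≥0∞} (hG : Measurable G) (x : R3) :
    Measurable (fun e : R4 => ∫⁻ y : R3, ENNReal.ofReal |(ma e).det| * G (jj N (x, e, y))) := by
  have hf : Measurable (fun e : R4 => ((x, e) : R3 × R4)) := measurable_const.prodMk measurable_id
  have h := (nui_K_meas (N := N) hG).comp hf
  simpa only [Function.comp_def] using h

theorem nui_add (H : R3 → ℝ≥0∞) (s : R3) : ∫⁻ x : R3, H (x + s) = ∫⁻ x : R3, H x := by
  have h4 : ((volume : Measure ℝ).prod (volume : Measure (ℝ × ℝ))).IsAddRightInvariant :=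
    inferInstance
  have h5 : (volume : Measure R3).IsAddRightInvariant := h4
  exact lintegral_add_right_eq_self H s

theorem nui_tr (s : R3) : nui_S N (fromBlocks 1 (sy s) 0 1) := by
  intro G hG
  have hGl : Measurable (fun m : M4 => G (fromBlocks 1 (sy s) 0 1 * m)) := hG.comp (nui_lmeas _)
  rw [nui_int (N := N) hGl, nui_int (N := N) hG]
  have e : ∀ (x : R3) (e : R4) (y : R3), fromBlocks 1 (sy s) 0 1 * jj N (x, e, y) =
      jj N (x + s, e, y) := by
    intro x e y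
    unfold jj
    rw [← Matrix.mul_assoc, ← Matrix.mul_assoc, fromBlocks_multiply]
    congr 2
    rw [nui_sy_add]
    simp
  rw [← nui_add (fun x : R3 => ∫⁻ e : R4, ∫⁻ y : R3, ENNReal.ofReal |(ma e).det| *
    G (jj N (x, e, y))) s]
  refine lintegral_congr (fun x => lintegral_congr (fun e' => lintegral_congr (fun y => ?_)))
  rw [e]

theorem nui_lin4 {X : M2} (hX : X.det ≠ 0) {H : R4 → ℝ≥0∞} (hH : Measurable H) :
    ∫⁻ e, H (am (X * ma e)) = ENNReal.ofReal (|X.det| ^ 2)⁻¹ * ∫⁻ e, H e := by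
  have hm : Measurable (fun e : R4 => am (X * ma e)) := by
    simp only [am, ma, Matrix.mul_apply, Fin.sum_univ_two]
    simp only [Matrix.of_apply, Matrix.cons_val', Matrix.cons_val_zero, Matrix.cons_val_one,
      Matrix.cons_val_fin_one]
    fun_prop
  rw [← lintegral_map hH hm, lin4 hX, lintegral_smul_measure, smul_eq_mul]

theorem nui_cong3 {u : M2} (hu : u.det ≠ 0) {H : R3 → ℝ≥0∞} (hH : Measurable H) :
    ∫⁻ x, H (ys (u * sy x * uᵀ)) = ENNReal.ofReal (|u.det| ^ 3)⁻¹ * ∫⁻ x, H x := by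
  have hm : Measurable (fun x : R3 => ys (u * sy x * uᵀ)) := by
    simp only [ys, sy, Matrix.mul_apply, Fin.sum_univ_two]
    simp only [Matrix.of_apply, Matrix.cons_val', Matrix.cons_val_zero, Matrix.cons_val_one,
      Matrix.cons_val_fin_one, Matrix.transpose_apply]
    fun_prop
  rw [← lintegral_map hH hm, cong3 hu, lintegral_smul_measure, smul_eq_mul]

theorem nui_PPd (hN : N ≠ 0) : (PP N).det * (PI N).det = 1 := by
  rw [← det_mul, pp_mul_pi hN, det_one]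

theorem nui_Xd (hN : N ≠ 0) (u : M2) : (PP N * u * PI N).det = u.det := by
  rw [det_mul, det_mul]
  have := nui_PPd hN
  linear_combination u.det * this

theorem nui_Pd (hN : N ≠ 0) (u e : M2) : PI N * (PP N * u * PI N * e) = u * (PI N * e) := by
  rw [Matrix.mul_assoc (PP N), Matrix.mul_assoc (PP N), ← Matrix.mul_assoc (PI N), pi_mul_pp hN,
    Matrix.one_mul, Matrix.mul_assoc]

/-- the integral over `e` and `y` -/
theorem nui_ey (hN : N ≠ 0) {u : M2} (hu : u.det ≠ 0) {G : M4 → ℝ≥0∞} (hG : Measurable G) (x : R3) :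
    ∫⁻ e : R4, ∫⁻ y : R3, ENNReal.ofReal |(ma e).det| *
      G (jj N (x, am (PP N * u * PI N * ma e), y)) =
    ENNReal.ofReal (|u.det| ^ 3)⁻¹ * ∫⁻ e : R4, ∫⁻ y : R3, ENNReal.ofReal |(ma e).det| *
      G (jj N (x, e, y)) := by
  have hXd : (PP N * u * PI N).det = u.det := nui_Xd hN u
  generalize PP N * u * PI N = X at hXd ⊢
  have hX0 : X.det ≠ 0 := by rw [hXd]; exact hu
  obtain ⟨H, hHd⟩ : ∃ H : R4 → ℝ≥0∞, ∀ e, H e = ∫⁻ y : R3, ENNReal.ofReal |(ma e).det| *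
      G (jj N (x, e, y)) := ⟨_, fun e => rfl⟩
  have hH : Measurable H := by
    rw [funext hHd]
    exact nui_K_meas1 hG x
  have e1 : ∀ e : R4, ∫⁻ y : R3, ENNReal.ofReal |(ma e).det| * G (jj N (x, am (X * ma e), y)) =
      ENNReal.ofReal |u.det|⁻¹ * H (am (X * ma e)) := by
    intro e
    rw [hHd, ← lintegral_const_mul' _ _ ENNReal.ofReal_ne_top]
    refine lintegral_congr (fun y => ?_)
    rw [← mul_assoc, ← ENNReal.ofReal_mul (inv_nonneg.2 (abs_nonneg _)), nui_ma_am, det_mul, hXd,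
      abs_mul, ← mul_assoc, inv_mul_cancel₀ (abs_ne_zero.2 hu), one_mul]
  have e2 : ∫⁻ e : R4, ∫⁻ y : R3, ENNReal.ofReal |(ma e).det| * G (jj N (x, e, y)) =
      ∫⁻ e : R4, H e := lintegral_congr (fun e => (hHd e).symm)
  rw [lintegral_congr e1, e2, lintegral_const_mul' _ _ ENNReal.ofReal_ne_top, nui_lin4 hX0 hH, hXd,
    ← mul_assoc, ← ENNReal.ofReal_mul (inv_nonneg.2 (abs_nonneg _))]
  congr 2
  rw [← mul_inv]
  ring

theorem nui_m (hN : N ≠ 0) {u : M2} (hu : u.det ≠ 0) : nui_S N (fromBlocks (u⁻¹)ᵀ 0 0 u) := by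
  intro G hG
  have hGl : Measurable (fun m : M4 => G (fromBlocks (u⁻¹)ᵀ 0 0 u * m)) := hG.comp (nui_lmeas _)
  rw [nui_int (N := N) hGl, nui_int (N := N) hG]
  have hiu : u⁻¹ * u = 1 := nonsing_inv_mul u (isUnit_iff_ne_zero.2 hu)
  have e : ∀ (x : R3) (e : R4) (y : R3), fromBlocks (u⁻¹)ᵀ 0 0 u * jj N (x, e, y) =
      jj N (ys ((u⁻¹)ᵀ * sy x * ((u⁻¹)ᵀ)ᵀ), am (PP N * u * PI N * ma e), y) := by
    intro x e y
    have hs : ((u⁻¹)ᵀ * sy x * ((u⁻¹)ᵀ)ᵀ)ᵀ = (u⁻¹)ᵀ * sy x * ((u⁻¹)ᵀ)ᵀ := by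
      rw [transpose_mul, transpose_mul, transpose_transpose, transpose_transpose, nui_syT,
        Matrix.mul_assoc]
    unfold jj
    rw [← Matrix.mul_assoc, ← Matrix.mul_assoc]
    congr 1
    simp only
    rw [nui_ma_am, nui_sy_ys hs, nui_Pd hN, fromBlocks_multiply, fromBlocks_multiply,
      fromBlocks_multiply, Matrix.mul_inv_rev u (PI N * ma e), transpose_mul (PI N * ma e)⁻¹ u⁻¹,
      transpose_transpose]
    simp only [Matrix.mul_zero, Matrix.zero_mul, add_zero, zero_add, Matrix.mul_one, Matrix.one_mul]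
    congr 1
    rw [Matrix.mul_assoc ((u⁻¹)ᵀ * sy x), ← Matrix.mul_assoc (u⁻¹) u, hiu, Matrix.one_mul]
  have hv : ((u⁻¹)ᵀ).det ≠ 0 := by
    rw [det_transpose]
    have h := congrArg Matrix.det hiu
    rw [det_mul, det_one] at h
    exact left_ne_zero_of_mul_eq_one h
  have hvd : ((u⁻¹)ᵀ).det = (u.det)⁻¹ := by
    rw [det_transpose, Matrix.det_nonsing_inv, Ring.inverse_eq_inv']
  obtain ⟨L, hLd⟩ : ∃ L : R3 → ℝ≥0∞, ∀ x, L x = ∫⁻ e : R4, ∫⁻ y : R3,
      ENNReal.ofReal |(ma e).det| * G (jj N (x, e, y)) := ⟨_, fun x => rfl⟩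
  have hL : Measurable L := by
    rw [funext hLd]
    exact nui_L_meas (N := N) hG
  have e2 : ∫⁻ x : R3, ∫⁻ e : R4, ∫⁻ y : R3, ENNReal.ofReal |(ma e).det| * G (jj N (x, e, y)) =
      ∫⁻ x : R3, L x := lintegral_congr (fun x => (hLd x).symm)
  rw [e2]
  calc ∫⁻ x : R3, ∫⁻ e : R4, ∫⁻ y : R3, ENNReal.ofReal |(ma e).det| *
        G (fromBlocks (u⁻¹)ᵀ 0 0 u * jj N (x, e, y))
      = ∫⁻ x : R3, ENNReal.ofReal (|u.det| ^ 3)⁻¹ * L (ys ((u⁻¹)ᵀ * sy x * ((u⁻¹)ᵀ)ᵀ)) := by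
        refine lintegral_congr (fun x => ?_)
        rw [hLd, ← nui_ey hN hu hG]
        refine lintegral_congr (fun e' => lintegral_congr (fun y => ?_))
        rw [e]
    _ = ∫⁻ x : R3, L x := by
        rw [lintegral_const_mul' _ _ ENNReal.ofReal_ne_top,
          nui_cong3 hv hL, ← mul_assoc, ← ENNReal.ofReal_mul (by positivity), hvd, abs_inv]
        have h0 := abs_ne_zero.2 hu
        rw [show (|u.det| ^ 3)⁻¹ * (|u.det|⁻¹ ^ 3)⁻¹ = 1 by field_simp, ENNReal.ofReal_one, one_mul]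

theorem nui_null : ∀ᵐ x : R3, dt x ≠ 0 := by
  have hm : Measurable (fun x : R3 => dt x) := by
    unfold dt
    fun_prop
  have hms : MeasurableSet {x : R3 | ¬ (dt x ≠ 0)} := by
    simp only [not_not]
    exact measurableSet_eq_fun hm measurable_const
  rw [ae_iff, Measure.volume_eq_prod, Measure.measure_prod_null hms]
  have h0 : ∀ᵐ a : ℝ, a ≠ 0 := by
    rw [ae_iff]
    simp
  filter_upwards [h0] with a ha
  have hms2 : MeasurableSet (Prod.mk a ⁻¹' {x : R3 | ¬ (dt x ≠ 0)}) := measurable_prodMk_left hms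
  rw [Measure.volume_eq_prod, Pi.zero_apply, Measure.measure_prod_null hms2]
  refine Eventually.of_forall (fun b => ?_)
  refine measure_mono_null (t := {b ^ 2 / a}) ?_ (measure_singleton _)
  intro c hc
  have h1 : dt (a, b, c) = 0 := by
    have : ¬ (dt (a, b, c) ≠ 0) := hc
    exact not_not.1 this
  have h2 : a * c - b ^ 2 = 0 := h1
  show c = b ^ 2 / a
  rw [eq_div_iff ha]
  linarith

theorem nui_inv_eq (x : R3) : (sy x)⁻¹ = (dt x)⁻¹ • !![x.2.2, -x.2.1; -x.2.1, x.1] := by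
  rw [Matrix.inv_def, Ring.inverse_eq_inv', nui_sy_det, adjugate_fin_two]
  simp [sy]

theorem nui_invT (x : R3) : ((sy x)⁻¹)ᵀ = (sy x)⁻¹ := by
  rw [Matrix.transpose_nonsing_inv, nui_syT]

/-- the action of `J` in coordinates -/
theorem nui_Jid (hN : N ≠ 0) {x : R3} (hx : dt x ≠ 0) {e : R4} (he : (ma e).det ≠ 0) (y : R3) :
    fromBlocks 0 (-1) 1 0 * jj N (x, e, y) = jj N (ys (-(sy x)⁻¹), am (PP N * sy x * PI N * ma e),
      y + ys ((PI N * ma e)⁻¹ * (sy x)⁻¹ * ((PI N * ma e)⁻¹)ᵀ)) := by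
  have h1 : (-(sy x)⁻¹)ᵀ = -(sy x)⁻¹ := by rw [transpose_neg, nui_invT]
  have h2 : ((PI N * ma e)⁻¹ * (sy x)⁻¹ * ((PI N * ma e)⁻¹)ᵀ)ᵀ =
      (PI N * ma e)⁻¹ * (sy x)⁻¹ * ((PI N * ma e)⁻¹)ᵀ := by
    rw [transpose_mul, transpose_mul, transpose_transpose, nui_invT, Matrix.mul_assoc]
  have hPI : (PI N).det ≠ 0 := by
    intro h
    have := nui_PPd hN
    rw [h, mul_zero] at this
    exact zero_ne_one this
  have hd : IsUnit (PI N * ma e).det := by
    rw [det_mul]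
    exact isUnit_iff_ne_zero.2 (mul_ne_zero hPI he)
  have hS : IsUnit (sy x).det := by
    rw [nui_sy_det]
    exact isUnit_iff_ne_zero.2 hx
  rw [jj_blocks, jj_blocks, fromBlocks_multiply]
  simp only [nui_ma_am, nui_Pd hN, nui_sy_add, nui_sy_ys h1, nui_sy_ys h2]
  have e1 : ((sy x * (PI N * ma e))⁻¹)ᵀ = (sy x)⁻¹ * ((PI N * ma e)⁻¹)ᵀ := by
    rw [Matrix.mul_inv_rev (sy x), transpose_mul, nui_invT]
  rw [e1]
  generalize PI N * ma e = d at hd
  have d1 : d * d⁻¹ = 1 := mul_nonsing_inv d hd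
  have s1 : sy x * (sy x)⁻¹ = 1 := mul_nonsing_inv _ hS
  have s2 : (sy x)⁻¹ * sy x = 1 := nonsing_inv_mul _ hS
  have e2 : (sy x)⁻¹ * (sy x * d) = d := by rw [← Matrix.mul_assoc, s2, Matrix.one_mul]
  have e3 : d * (d⁻¹ * (sy x)⁻¹ * (d⁻¹)ᵀ) = (sy x)⁻¹ * (d⁻¹)ᵀ := by
    rw [← Matrix.mul_assoc, ← Matrix.mul_assoc, d1, Matrix.one_mul]
  have e4 : sy x * ((sy x)⁻¹ * (d⁻¹)ᵀ) = (d⁻¹)ᵀ := by rw [← Matrix.mul_assoc, s1, Matrix.one_mul]
  congr 1
  · rw [Matrix.neg_mul (sy x)⁻¹, e2, Matrix.neg_mul d, Matrix.mul_add d, e3,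
      Matrix.zero_mul, zero_add, Matrix.neg_mul, Matrix.one_mul]
    abel
  · rw [Matrix.neg_mul (sy x)⁻¹, e2, Matrix.zero_mul, zero_add, Matrix.neg_mul, Matrix.one_mul]
  · rw [Matrix.mul_add (sy x * d), Matrix.mul_assoc (sy x) d (d⁻¹ * (sy x)⁻¹ * (d⁻¹)ᵀ), e3, e4,
      Matrix.zero_mul, add_zero, Matrix.one_mul]
    abel
  · rw [Matrix.one_mul, Matrix.zero_mul, add_zero]

theorem nui_J (hN : N ≠ 0) : nui_S N (fromBlocks 0 (-1) 1 0) := by
  intro G hG
  have hGl : Measurable (fun m : M4 => G (fromBlocks 0 (-1) 1 0 * m)) := hG.comp (nui_lmeas _)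
  rw [nui_int (N := N) hGl, nui_int (N := N) hG]
  obtain ⟨L, hLd⟩ : ∃ L : R3 → ℝ≥0∞, ∀ x, L x = ∫⁻ e : R4, ∫⁻ y : R3,
      ENNReal.ofReal |(ma e).det| * G (jj N (x, e, y)) := ⟨_, fun x => rfl⟩
  have hL : Measurable L := by
    rw [funext hLd]
    exact nui_L_meas (N := N) hG
  have e2 : ∫⁻ x : R3, ∫⁻ e : R4, ∫⁻ y : R3, ENNReal.ofReal |(ma e).det| * G (jj N (x, e, y)) =
      ∫⁻ x : R3, L x := lintegral_congr (fun x => (hLd x).symm)
  rw [e2]
  have key : ∀ x : R3, dt x ≠ 0 → ∫⁻ e : R4, ∫⁻ y : R3, ENNReal.ofReal |(ma e).det| *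
      G (fromBlocks 0 (-1) 1 0 * jj N (x, e, y)) =
      ENNReal.ofReal (|dt x| ^ 3)⁻¹ * L (ys (-(sy x)⁻¹)) := by
    intro x hx
    have hu : (sy x).det ≠ 0 := by rw [nui_sy_det]; exact hx
    rw [hLd, ← nui_sy_det x, ← nui_ey hN hu hG]
    refine lintegral_congr (fun e' => ?_)
    by_cases he : (ma e').det = 0
    · rw [he]
      simp
    · rw [← nui_add (fun y : R3 => ENNReal.ofReal |(ma e').det| *
        G (jj N (ys (-(sy x)⁻¹), am (PP N * sy x * PI N * ma e'), y)))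
        (ys ((PI N * ma e')⁻¹ * (sy x)⁻¹ * ((PI N * ma e')⁻¹)ᵀ))]
      refine lintegral_congr (fun y => ?_)
      rw [nui_Jid hN hx he]
  have hm : Measurable (fun x : R3 => ys (-(sy x)⁻¹)) := by
    simp only [nui_inv_eq, ys, dt]
    simp only [Matrix.neg_apply, Matrix.smul_apply, Matrix.of_apply, Matrix.cons_val',
      Matrix.cons_val_zero, Matrix.cons_val_one, Matrix.cons_val_fin_one, smul_eq_mul]
    fun_prop
  have hdm : Measurable (fun x : R3 => ENNReal.ofReal (|dt x| ^ 3)⁻¹) := by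
    unfold dt
    fun_prop
  calc ∫⁻ x : R3, ∫⁻ e : R4, ∫⁻ y : R3, ENNReal.ofReal |(ma e).det| *
        G (fromBlocks 0 (-1) 1 0 * jj N (x, e, y))
      = ∫⁻ x : R3, ENNReal.ofReal (|dt x| ^ 3)⁻¹ * L (ys (-(sy x)⁻¹)) :=
        lintegral_congr_ae (nui_null.mono key)
    _ = ∫⁻ x : R3, L x := by
        conv_rhs => rw [← inv3]
        have hLc : Measurable (fun x : R3 => L (ys (-(sy x)⁻¹))) := hL.comp hm
        rw [lintegral_map hL hm, lintegral_withDensity_eq_lintegral_mul _ hdm hLc]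
        rfl

theorem nui_rel {A B C D : M2} (h : fromBlocks A B C D ∈ Matrix.symplecticGroup (Fin 2) ℝ) :
    C * Dᵀ = D * Cᵀ ∧ A * Dᵀ - B * Cᵀ = 1 := by
  have h2 := SymplecticGroup.transpose_mem h
  rw [fromBlocks_transpose] at h2
  have h3 := SymplecticGroup.fromBlocks_mem_iff.1 h2
  simp only [transpose_transpose] at h3
  exact ⟨h3.2.1, h3.2.2⟩

theorem nui_ex {A B C D : M2} (h : fromBlocks A B C D ∈ Matrix.symplecticGroup (Fin 2) ℝ) :
    ∃ s : R3, (C * sy s + D).det ≠ 0 := by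
  obtain ⟨h1, h2⟩ := nui_rel h
  by_contra hcon
  push Not at hcon
  have k1 := hcon (0, 0, 0)
  have k2 := hcon (1, 0, 0)
  have k3 := hcon (0, 0, 1)
  have k4 := hcon (1, 0, 1)
  have k5 := hcon (0, 1, 0)
  have r1 := congrFun (congrFun h1 0) 1
  have m00 := congrFun (congrFun h2 0) 0
  have m01 := congrFun (congrFun h2 0) 1
  have m10 := congrFun (congrFun h2 1) 0
  have m11 := congrFun (congrFun h2 1) 1
  simp only [sy, Matrix.det_fin_two, Matrix.mul_apply, Matrix.add_apply, Fin.sum_univ_two,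
    Matrix.of_apply, Matrix.cons_val', Matrix.cons_val_zero, Matrix.cons_val_one,
    Matrix.cons_val_fin_one, Matrix.transpose_apply, Matrix.sub_apply, Matrix.one_apply_eq,
    mul_zero, mul_one, add_zero, zero_add] at k1 k2 k3 k4 k5 r1 m00 m01 m10 m11
  rw [Matrix.one_apply_ne (by decide)] at m01 m10
  have p34 : D 0 0 * D 1 1 - D 0 1 * D 1 0 = 0 := by linear_combination k1
  have p14 : C 0 0 * D 1 1 - C 1 0 * D 0 1 = 0 := by linear_combination k2 - k1
  have p23 : C 0 1 * D 1 0 - C 1 1 * D 0 0 = 0 := by linear_combination k1 - k3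
  have p12 : C 0 0 * C 1 1 - C 0 1 * C 1 0 = 0 := by linear_combination k4 - k2 - k3 + k1
  have pd : (C 0 1 * D 1 1 - C 1 1 * D 0 1) - (C 0 0 * D 1 0 - C 1 0 * D 0 0) = 0 := by
    linear_combination k5 - k1 + p12
  have ps : (C 0 1 * D 1 1 - C 1 1 * D 0 1) + (C 0 0 * D 1 0 - C 1 0 * D 0 0) = 0 := by
    linear_combination r1
  have p24 : C 0 1 * D 1 1 - C 1 1 * D 0 1 = 0 := by linear_combination (pd + ps) / 2
  have p13 : C 0 0 * D 1 0 - C 1 0 * D 0 0 = 0 := by linear_combination (ps - pd) / 2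
  have : (1 : ℝ) = 0 := by
    linear_combination -(A 1 0 * D 1 0 + A 1 1 * D 1 1 - (B 1 0 * C 1 0 + B 1 1 * C 1 1)) * m00 -
      m11 + (A 1 0 * D 0 0 + A 1 1 * D 0 1 - (B 1 0 * C 0 0 + B 1 1 * C 0 1)) * m01 +
      (B 0 0 * B 1 1 - B 0 1 * B 1 0) * p12 + (A 0 0 * B 1 0 - B 0 0 * A 1 0) * p13 +
      (A 0 1 * B 1 0 - B 0 0 * A 1 1) * p14 + (A 0 0 * B 1 1 - B 0 1 * A 1 0) * p23 +
      (A 0 1 * B 1 1 - B 0 1 * A 1 1) * p24 + (A 0 0 * A 1 1 - A 0 1 * A 1 0) * p34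
  exact one_ne_zero this

theorem nui_n_mem (s : R3) : fromBlocks 1 (sy s) 0 1 ∈ Matrix.symplecticGroup (Fin 2) ℝ := by
  rw [SymplecticGroup.fromBlocks_mem_iff]
  simp [nui_syT]

theorem nui_big (hN : N ≠ 0) {A B C D : M2}
    (h : fromBlocks A B C D ∈ Matrix.symplecticGroup (Fin 2) ℝ) (hC : C.det ≠ 0) :
    nui_S N (fromBlocks A B C D) := by
  obtain ⟨h1, h2⟩ := nui_rel h
  obtain ⟨h3, -, h4⟩ := SymplecticGroup.fromBlocks_mem_iff.1 h
  have hu : IsUnit C.det := isUnit_iff_ne_zero.2 hC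
  have hut : IsUnit (Cᵀ).det := by rw [det_transpose]; exact hu
  have c1 : C * C⁻¹ = 1 := mul_nonsing_inv C hu
  have c2 : C⁻¹ * C = 1 := nonsing_inv_mul C hu
  have c3 : Cᵀ * (C⁻¹)ᵀ = 1 := by rw [← transpose_mul, c2, transpose_one]
  have c4 : (C⁻¹)ᵀ * Cᵀ = 1 := by rw [← transpose_mul, c1, transpose_one]
  -- the two symmetric matrices
  have s1 : (A * C⁻¹)ᵀ = A * C⁻¹ := by
    rw [transpose_mul]
    calc (C⁻¹)ᵀ * Aᵀ = (C⁻¹)ᵀ * (Aᵀ * C) * C⁻¹ := by
          rw [← Matrix.mul_assoc, Matrix.mul_assoc _ C, c1, Matrix.mul_one]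
      _ = A * C⁻¹ := by rw [h3, ← Matrix.mul_assoc, c4, Matrix.one_mul]
  have s2 : (C⁻¹ * D)ᵀ = C⁻¹ * D := by
    rw [transpose_mul]
    calc Dᵀ * (C⁻¹)ᵀ = C⁻¹ * (C * Dᵀ) * (C⁻¹)ᵀ := by
          rw [← Matrix.mul_assoc, c2, Matrix.one_mul]
      _ = C⁻¹ * D := by
          rw [h1, Matrix.mul_assoc C⁻¹, Matrix.mul_assoc D, c3, Matrix.mul_one]
  have hu2 : ((C⁻¹)ᵀ).det ≠ 0 := by
    intro h0
    have h5 := congrArg Matrix.det c3
    rw [det_mul, h0, mul_zero, det_one] at h5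
    exact zero_ne_one h5
  have c5 : (((C⁻¹)ᵀ)⁻¹)ᵀ = C := by
    rw [← Matrix.transpose_nonsing_inv, transpose_transpose, nonsing_inv_nonsing_inv C hu]
  have hg : fromBlocks A B C D = fromBlocks 1 (sy (ys (A * C⁻¹))) 0 1 * fromBlocks 0 (-1) 1 0 *
      (fromBlocks (((C⁻¹)ᵀ)⁻¹)ᵀ 0 0 (C⁻¹)ᵀ * fromBlocks 1 (sy (ys (C⁻¹ * D))) 0 1) := by
    rw [nui_sy_ys s1, nui_sy_ys s2, c5, fromBlocks_multiply, fromBlocks_multiply,
      fromBlocks_multiply]
    simp only [Matrix.mul_zero, Matrix.zero_mul, add_zero, zero_add, Matrix.mul_one,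
      Matrix.one_mul, Matrix.mul_neg, Matrix.neg_mul]
    have e1 : A * C⁻¹ * C = A := by rw [Matrix.mul_assoc, c2, Matrix.mul_one]
    have e2 : C * (C⁻¹ * D) = D := by rw [← Matrix.mul_assoc, c1, Matrix.one_mul]
    have e3 : A * C⁻¹ * D + -(C⁻¹)ᵀ = B := by
      rw [← s1, transpose_mul, Matrix.mul_assoc]
      have e4 : Aᵀ * D = 1 + Cᵀ * B := by rw [← h4]; abel
      rw [e4, Matrix.mul_add, Matrix.mul_one, ← Matrix.mul_assoc, c4, Matrix.one_mul]
      abel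
    rw [e1, e2, e3, neg_zero, add_zero]
  rw [hg]
  exact nui_mul (nui_mul (nui_tr _) (nui_J hN)) (nui_mul (nui_m hN hu2) (nui_tr _))

theorem nui_all (hN : N ≠ 0) {g : M4} (hg : g ∈ Matrix.symplecticGroup (Fin 2) ℝ) : nui_S N g := by
  obtain ⟨A, B, C, D, rfl⟩ : ∃ A B C D : M2, g = fromBlocks A B C D :=
    ⟨_, _, _, _, (fromBlocks_toBlocks g).symm⟩
  obtain ⟨s, hs⟩ := nui_ex hg
  have hJ : (fromBlocks 0 (-1) 1 0 : M4) ∈ Matrix.symplecticGroup (Fin 2) ℝ :=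
    SymplecticGroup.J_mem (Fin 2) ℝ
  have h1 : fromBlocks A B C D * (fromBlocks 1 (sy s) 0 1 * fromBlocks 0 (-1) 1 0) ∈
      Matrix.symplecticGroup (Fin 2) ℝ := mul_mem hg (mul_mem (nui_n_mem s) hJ)
  have h2 : fromBlocks A B C D * (fromBlocks 1 (sy s) 0 1 * fromBlocks 0 (-1) 1 0) =
      fromBlocks (A * sy s + B) (-A) (C * sy s + D) (-C) := by
    rw [fromBlocks_multiply, fromBlocks_multiply]
    simp
  have h3 : nui_S N (fromBlocks A B C D * (fromBlocks 1 (sy s) 0 1 * fromBlocks 0 (-1) 1 0)) := by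
    rw [h2]
    rw [h2] at h1
    exact nui_big hN h1 hs
  have hJJ : (fromBlocks 0 1 (-1) 0 : M4) * fromBlocks 0 (-1) 1 0 = 1 := by
    rw [fromBlocks_multiply, ← fromBlocks_one]
    simp
  have hJJ' : (fromBlocks 0 (-1) 1 0 : M4) * fromBlocks 0 1 (-1) 0 = 1 := by
    rw [fromBlocks_multiply, ← fromBlocks_one]
    simp
  have hnn : (fromBlocks 1 (sy s) 0 1 : M4) * fromBlocks 1 (sy (-s)) 0 1 = 1 := by
    have h5 : sy s + sy (-s) = 0 := by
      rw [← nui_sy_add, add_neg_cancel]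
      ext i j
      fin_cases i <;> fin_cases j <;> simp [sy]
    rw [fromBlocks_multiply, ← fromBlocks_one]
    simp only [Matrix.mul_zero, Matrix.zero_mul, add_zero, zero_add, Matrix.mul_one,
      Matrix.one_mul]
    rw [add_comm, h5]
  have hJi : nui_S N (fromBlocks 0 1 (-1) 0) := nui_inv (nui_J hN) hJJ
  have h4 := nui_mul h3 (nui_mul hJi (nui_tr (N := N) (-s)))
  have h6 : fromBlocks A B C D * (fromBlocks 1 (sy s) 0 1 * fromBlocks 0 (-1) 1 0) *
      (fromBlocks 0 1 (-1) 0 * fromBlocks 1 (sy (-s)) 0 1) = fromBlocks A B C D := by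
    rw [Matrix.mul_assoc, Matrix.mul_assoc (fromBlocks 1 (sy s) 0 1),
      ← Matrix.mul_assoc (fromBlocks 0 (-1) 1 0), hJJ', Matrix.one_mul, hnn, Matrix.mul_one]
  rw [h6] at h4
  exact h4

end nui

/-- NUI. the measure is invariant -/
theorem nu_inv_pr (N : ℕ) [Fact N.Prime] (g : Sp) :
    (nu N).map (fun x => (g : M4) * x) = nu N := by
  have hN : N ≠ 0 := (Fact.out : N.Prime).ne_zero
  refine Measure.ext_of_lintegral _ (fun G hG => ?_)
  rw [lintegral_map hG (nui_lmeas _)]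
  exact nui_all hN g.2 G hG

end Pool.Agent.NN

namespace Pool.Agent.NN

theorem nu_inv : type_of% @nu_inv_pr := @nu_inv_pr

end Pool.Agent.NN
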