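import Pool.Agent.Lib_helper32.NN.Dfs2

/-!
# UNF: positivity of the unfolded inner product, without a fundamental domain
-/

namespace Pool.Agent.NN

open Complex MeasureTheory Filter Topology UpperHalfPlane Matrix
open scoped MatrixGroups ENNReal ComplexConjugate
open Pool.Agent.LEV (S2 co IsNew Lh)

section unf

theorem unf_bij {Γ : Type*} [Group Γ] (P : Subgroup Γ) :
    Function.Bijective (fun t : (Γ ⧸ P) × P => (Quotient.out t.1 : Γ) * (t.2 : Γ)) := by
  constructor
  · rintro ⟨q, p⟩ ⟨q', p'⟩ h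
    have h0 : (Quotient.out q : Γ) * (p : Γ) = (Quotient.out q' : Γ) * (p' : Γ) := h
    have h1 : ((Quotient.out q * (p : Γ) : Γ) : Γ ⧸ P) =
        ((Quotient.out q' * (p' : Γ) : Γ) : Γ ⧸ P) := by rw [h0]
    rw [QuotientGroup.mk_mul_of_mem _ p.2, QuotientGroup.mk_mul_of_mem _ p'.2,
      QuotientGroup.out_eq', QuotientGroup.out_eq'] at h1
    subst h1
    have h2 := mul_left_cancel h0
    exact Prod.ext rfl (Subtype.ext h2)
  · intro a
    refine ⟨((a : Γ ⧸ P), ⟨(Quotient.out (a : Γ ⧸ P))⁻¹ * a, ?_⟩), ?_⟩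
    · rw [← QuotientGroup.eq]
      exact QuotientGroup.out_eq' _
    · simp

theorem unf_lin {Γ X : Type*} [MeasurableSpace X] {ν : Measure X} {ac : Γ → X → X}
    (hac : ∀ a, Measurable (ac a)) (hν : ∀ a, ν.map (ac a) = ν) (a : Γ) {H : X → ℝ≥0∞}
    (hH : Measurable H) : ∫⁻ x, H (ac a x) ∂ν = ∫⁻ x, H x ∂ν := by
  conv_rhs => rw [← hν a]
  rw [lintegral_map hH (hac a)]

theorem unf_lem {Γ X : Type*} [Group Γ] [Countable Γ] [MeasurableSpace X] (ν : Measure X)
    (ac : Γ → X → X) (h1 : ∀ x, ac 1 x = x) (hmul : ∀ a b x, ac (a * b) x = ac a (ac b x))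
    (hac : ∀ a, Measurable (ac a)) (hν : ∀ a, ν.map (ac a) = ν) (P : Subgroup Γ) (G : X → ℝ≥0∞)
    (hG : Measurable G) (hP : ∀ p ∈ P, ∀ x, G (ac p x) = G x) (η b : X → ℝ≥0∞) (hη : Measurable η)
    (hb : Measurable b) (hη1 : ∀ᵐ x ∂ν, G x ≠ 0 → ∑' p : P, η (ac (p : Γ) x) = 1)
    (hb1 : ∀ᵐ x ∂ν, ∑' a : Γ, b (ac a x) = 1) :
    ∫⁻ x, (∑' q : Γ ⧸ P, G (ac (Quotient.out q)⁻¹ x)) * b x ∂ν = ∫⁻ x, G x * η x ∂ν := by
  have hca : Countable (Γ ⧸ P) := (QuotientGroup.mk_surjective (s := P)).countable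
  have hGa : ∀ a, Measurable (fun x => G (ac a x)) := fun a => hG.comp (hac a)
  have hηa : ∀ a, Measurable (fun x => η (ac a x)) := fun a => hη.comp (hac a)
  have hba : ∀ a, Measurable (fun x => b (ac a x)) := fun a => hb.comp (hac a)
  have L : ∫⁻ x, (∑' q : Γ ⧸ P, G (ac (Quotient.out q)⁻¹ x)) * b x ∂ν =
      ∑' q : Γ ⧸ P, ∫⁻ x, G x * b (ac (Quotient.out q) x) ∂ν := by
    have hm : ∀ q : Γ ⧸ P, Measurable (fun x => G (ac (Quotient.out q)⁻¹ x) * b x) :=
      fun q => (hGa _).mul hb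
    simp_rw [← ENNReal.tsum_mul_right]
    rw [lintegral_tsum (fun q => (hm q).aemeasurable)]
    refine tsum_congr (fun q => ?_)
    rw [← unf_lin hac hν (Quotient.out q) (hm q)]
    refine lintegral_congr (fun x => ?_)
    rw [← hmul, inv_mul_cancel, h1]
  have R : ∫⁻ x, G x * η x ∂ν =
      ∑' q : Γ ⧸ P, ∫⁻ x, G x * b (ac (Quotient.out q) x) ∂ν := by
    have hm : ∀ a : Γ, Measurable (fun x => G x * η x * b (ac a x)) :=
      fun a => (hG.mul hη).mul (hba _)
    calc ∫⁻ x, G x * η x ∂ν = ∫⁻ x, ∑' a : Γ, G x * η x * b (ac a x) ∂ν := by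
          refine lintegral_congr_ae ?_
          filter_upwards [hb1] with x hx
          rw [ENNReal.tsum_mul_left, hx, mul_one]
      _ = ∫⁻ x, ∑' t : (Γ ⧸ P) × P, G x * η x * b (ac ((Quotient.out t.1 : Γ) * (t.2 : Γ)) x) ∂ν := by
          refine lintegral_congr (fun x => ?_)
          exact ((Equiv.ofBijective _ (unf_bij P)).tsum_eq (fun a => G x * η x * b (ac a x))).symm
      _ = ∑' t : (Γ ⧸ P) × P, ∫⁻ x, G x * η x * b (ac ((Quotient.out t.1 : Γ) * (t.2 : Γ)) x) ∂ν := by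
          rw [lintegral_tsum]
          intro t
          exact (hm _).aemeasurable
      _ = ∑' q : Γ ⧸ P, ∑' p : P, ∫⁻ x, G x * η x * b (ac ((Quotient.out q : Γ) * (p : Γ)) x) ∂ν := by
          rw [ENNReal.tsum_prod']
      _ = ∑' q : Γ ⧸ P, ∫⁻ x, G x * b (ac (Quotient.out q) x) ∂ν := by
          refine tsum_congr (fun q => ?_)
          have e1 : ∀ p : P, ∫⁻ x, G x * η x * b (ac ((Quotient.out q : Γ) * (p : Γ)) x) ∂ν =
              ∫⁻ x, G x * η (ac ((p : Γ)⁻¹) x) * b (ac (Quotient.out q) x) ∂ν := by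
            intro p
            rw [← unf_lin hac hν ((p : Γ)⁻¹) (hm _)]
            refine lintegral_congr (fun x => ?_)
            rw [hP _ (P.inv_mem p.2), ← hmul, mul_assoc (Quotient.out q), mul_inv_cancel, mul_one]
          have hm2 : ∀ p : P, Measurable (fun x => G x * η (ac ((p : Γ)⁻¹) x) *
              b (ac (Quotient.out q) x)) := fun p => (hG.mul (hηa _)).mul (hba _)
          rw [tsum_congr e1, ← lintegral_tsum (fun p => (hm2 p).aemeasurable)]
          refine lintegral_congr_ae ?_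
          filter_upwards [hη1] with x hx
          rw [ENNReal.tsum_mul_right, ENNReal.tsum_mul_left]
          by_cases h0 : G x = 0
          · rw [h0]; simp
          · have e2 : ∑' p : P, η (ac ((p : Γ)⁻¹) x) = 1 := by
              rw [← hx h0]
              exact (Equiv.inv P).tsum_eq (fun p : P => η (ac (p : Γ) x))
            rw [e2, mul_one]
  rw [L, R]

/-- coset functions are permuted -/
theorem unf_perm {Γ X Y : Type*} [Group Γ] {ac : Γ → X → X}
    (hmul : ∀ a b x, ac (a * b) x = ac a (ac b x)) {P : Subgroup Γ} {G : X → Y}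
    (hP : ∀ p ∈ P, ∀ x, G (ac p x) = G x) [AddCommMonoid Y] [TopologicalSpace Y] (a : Γ) (x : X) :
    ∑' q : Γ ⧸ P, G (ac (Quotient.out q)⁻¹ (ac a x)) = ∑' q : Γ ⧸ P, G (ac (Quotient.out q)⁻¹ x) := by
  have key : ∀ g : Γ, G (ac (Quotient.out (g : Γ ⧸ P))⁻¹ x) = G (ac g⁻¹ x) := by
    intro g
    have hg : g⁻¹ * Quotient.out (g : Γ ⧸ P) ∈ P := by
      rw [← QuotientGroup.eq]
      exact (QuotientGroup.out_eq' _).symm
    have := hP _ hg (ac (Quotient.out (g : Γ ⧸ P))⁻¹ x)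
    rw [← hmul, mul_assoc, mul_inv_cancel, mul_one] at this
    exact this.symm
  rw [← (MulAction.toPerm a⁻¹ : Equiv.Perm (Γ ⧸ P)).tsum_eq
    (fun q => G (ac (Quotient.out q)⁻¹ x))]
  refine tsum_congr (fun q => ?_)
  have e1 : (MulAction.toPerm a⁻¹ : Equiv.Perm (Γ ⧸ P)) q =
      ((a⁻¹ * Quotient.out q : Γ) : Γ ⧸ P) := by
    conv_lhs => rw [← QuotientGroup.out_eq' q]
    rfl
  rw [e1, key, ← hmul]
  congr 2
  rw [_root_.mul_inv_rev, inv_inv]

/-- pointwise inequality -/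
theorem unf_pt {ι : Type*} (u : ι → ℂ) (hu : ∑' i, ‖u i‖ₑ ≠ ⊤) :
    ∑' i, ENNReal.ofReal (-(conj (u i) * ∑' j, u j).re) ≤
      ∑' i, ENNReal.ofReal ((conj (u i) * ∑' j, u j).re) := by
  have hs : Summable (fun i => ‖u i‖) := by
    have h2 : ∑' i, ((‖u i‖₊ : NNReal) : ℝ≥0∞) ≠ ⊤ := hu
    have h3 := ENNReal.tsum_coe_ne_top_iff_summable.1 h2
    exact NNReal.summable_coe.2 h3
  set θ : ℂ := ∑' j, u j with hθ
  have hsu : Summable u := hs.of_norm
  have hr : HasSum (fun i => (conj (u i) * θ).re) (‖θ‖ ^ 2) := by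
    have h1 : HasSum (fun i => conj (u i)) (conj θ) := Complex.hasSum_conj'.2 hsu.hasSum
    have h2 := h1.mul_right θ
    have h3 := Complex.hasSum_re h2
    have h4 : (conj θ * θ).re = ‖θ‖ ^ 2 := by
      rw [Complex.conj_mul']
      norm_cast
    rw [h4] at h3
    exact h3
  have hb : ∀ i, |(conj (u i) * θ).re| ≤ ‖u i‖ * ‖θ‖ := by
    intro i
    refine (Complex.abs_re_le_norm _).trans ?_
    rw [norm_mul, Complex.norm_conj]
  have hsab : Summable (fun i => |(conj (u i) * θ).re|) :=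
    Summable.of_nonneg_of_le (fun i => abs_nonneg _) hb (hs.mul_right _)
  have hp : Summable (fun i => max ((conj (u i) * θ).re) 0) :=
    Summable.of_nonneg_of_le (fun i => le_max_right _ _)
      (fun i => max_le (le_abs_self _) (abs_nonneg _)) hsab
  have hn : Summable (fun i => max (-(conj (u i) * θ).re) 0) :=
    Summable.of_nonneg_of_le (fun i => le_max_right _ _)
      (fun i => max_le (neg_le_abs _) (abs_nonneg _)) hsab
  have e1 : ∀ i, ENNReal.ofReal ((conj (u i) * θ).re) =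
      ENNReal.ofReal (max ((conj (u i) * θ).re) 0) := by
    intro i
    rcases le_total 0 ((conj (u i) * θ).re) with h | h
    · rw [max_eq_left h]
    · rw [max_eq_right h, ENNReal.ofReal_of_nonpos h, ENNReal.ofReal_zero]
  have e2 : ∀ i, ENNReal.ofReal (-(conj (u i) * θ).re) =
      ENNReal.ofReal (max (-(conj (u i) * θ).re) 0) := by
    intro i
    rcases le_total 0 (-(conj (u i) * θ).re) with h | h
    · rw [max_eq_left h]
    · rw [max_eq_right h, ENNReal.ofReal_of_nonpos h, ENNReal.ofReal_zero]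
  rw [tsum_congr e1, tsum_congr e2, ← ENNReal.ofReal_tsum_of_nonneg (fun i => le_max_right _ _) hp,
    ← ENNReal.ofReal_tsum_of_nonneg (fun i => le_max_right _ _) hn]
  refine ENNReal.ofReal_le_ofReal ?_
  have e3 : ∑' i, max ((conj (u i) * θ).re) 0 - ∑' i, max (-(conj (u i) * θ).re) 0 = ‖θ‖ ^ 2 := by
    rw [← hr.tsum_eq, ← hp.tsum_sub hn]
    refine tsum_congr (fun i => ?_)
    rcases le_total 0 ((conj (u i) * θ).re) with h | h
    · rw [max_eq_left h, max_eq_right (by linarith), sub_zero]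
    · rw [max_eq_right h, max_eq_left (by linarith)]; ring
  have := sq_nonneg ‖θ‖
  linarith

theorem unf_pr {Γ X : Type*} [Group Γ] [Countable Γ] [MeasurableSpace X] (ν : Measure X) [SFinite ν]
    (ac : Γ → X → X) (h1 : ∀ x, ac 1 x = x) (hmul : ∀ a b x, ac (a * b) x = ac a (ac b x))
    (hac : ∀ a, Measurable (ac a)) (hν : ∀ a, ν.map (ac a) = ν) (P : Subgroup Γ) (F : X → ℂ)
    (hF : Measurable F) (hP : ∀ p ∈ P, ∀ x, F (ac p x) = F x) (η β : X → ℝ≥0∞) (hη : Measurable η)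
    (hβ : Measurable β) (hη1 : ∀ᵐ x ∂ν, F x ≠ 0 → ∑' p : P, η (ac (p : Γ) x) = 1)
    (hβ1 : ∀ᵐ x ∂ν, ∑' a : Γ, β (ac a x) ≠ 0 ∧ ∑' a : Γ, β (ac a x) ≠ ⊤)
    (hint : ∫⁻ x, ‖F x‖ₑ * (∑' q : Γ ⧸ P, ‖F (ac (Quotient.out q)⁻¹ x)‖ₑ) * η x ∂ν < ⊤) :
    0 ≤ (∫ x, conj (F x) * (∑' q : Γ ⧸ P, F (ac (Quotient.out q)⁻¹ x)) *
      ((η x).toReal : ℂ) ∂ν).re := by
  have hca : Countable (Γ ⧸ P) := (QuotientGroup.mk_surjective (s := P)).countable
  have hFa : ∀ a, Measurable (fun x => F (ac a x)) := fun a => hF.comp (hac a)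
  set Θ : X → ℝ≥0∞ := fun x => ∑' q : Γ ⧸ P, ‖F (ac (Quotient.out q)⁻¹ x)‖ₑ with hΘ
  set θ : X → ℂ := fun x => ∑' q : Γ ⧸ P, F (ac (Quotient.out q)⁻¹ x) with hθ
  have hPe : ∀ p ∈ P, ∀ x, ‖F (ac p x)‖ₑ = ‖F x‖ₑ := fun p hp x => by rw [hP p hp x]
  have hΘm : Measurable Θ := Measurable.ennreal_tsum (fun q => (hFa _).enorm)
  have hΘi : ∀ a x, Θ (ac a x) = Θ x := fun a x => unf_perm (G := fun x => ‖F x‖ₑ) hmul hPe a x
  have hθi : ∀ a x, θ (ac a x) = θ x := fun a x => unf_perm (G := F) hmul hP a x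
  have hθle : ∀ x, ‖θ x‖ₑ ≤ Θ x := fun x => enorm_tsum_le_tsum_enorm
  -- measurability of the sum
  have hθm : Measurable θ := by
    have hfs : ∀ s : Finset (Γ ⧸ P), Measurable (fun x => if Θ x = ⊤ then (0 : ℂ) else
        ∑ q ∈ s, F (ac (Quotient.out q)⁻¹ x)) := by
      intro s
      refine Measurable.ite (hΘm (measurableSet_singleton ⊤)) measurable_const ?_
      exact Finset.measurable_sum _ (fun q _ => hFa _)
    refine measurable_of_tendsto_metrizable' (atTop : Filter (Finset (Γ ⧸ P))) hfs ?_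
    rw [tendsto_pi_nhds]
    intro x
    by_cases hx : Θ x = ⊤
    · have : θ x = 0 := by
        refine tsum_eq_zero_of_not_summable (fun hs => ?_)
        have h2 := hs.norm
        have h3 : Summable (fun q : Γ ⧸ P => ‖F (ac (Quotient.out q)⁻¹ x)‖₊) :=
          NNReal.summable_coe.1 h2
        exact (ENNReal.tsum_coe_ne_top_iff_summable.2 h3) hx
      simp only [hx, if_true, this]
      exact tendsto_const_nhds
    · simp only [hx, if_false]
      have h3 : Summable (fun q : Γ ⧸ P => ‖F (ac (Quotient.out q)⁻¹ x)‖₊) :=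
        ENNReal.tsum_coe_ne_top_iff_summable.1 hx
      have h4 : Summable (fun q : Γ ⧸ P => F (ac (Quotient.out q)⁻¹ x)) :=
        (NNReal.summable_coe.2 h3).of_norm
      exact h4.hasSum
  -- the normalised weight
  set B : X → ℝ≥0∞ := fun x => ∑' a : Γ, β (ac a x) with hB
  have hBm : Measurable B := Measurable.ennreal_tsum (fun a => hβ.comp (hac a))
  have hBi : ∀ a x, B (ac a x) = B x := by
    intro a x
    show ∑' c : Γ, β (ac c (ac a x)) = ∑' c : Γ, β (ac c x)
    rw [← (Equiv.mulRight a).tsum_eq (fun c => β (ac c x))]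
    refine tsum_congr (fun c => ?_)
    rw [Equiv.coe_mulRight, hmul]
  set b : X → ℝ≥0∞ := fun x => β x / B x with hb
  have hbm : Measurable b := hβ.div hBm
  have hb1 : ∀ᵐ x ∂ν, ∑' a : Γ, b (ac a x) = 1 := by
    filter_upwards [hβ1] with x hx
    have e : ∀ a : Γ, b (ac a x) = β (ac a x) * (B x)⁻¹ := by
      intro a
      show β (ac a x) / B (ac a x) = _
      rw [hBi, div_eq_mul_inv]
    rw [tsum_congr e, ENNReal.tsum_mul_right]
    exact ENNReal.mul_inv_cancel hx.1 hx.2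
  -- finiteness
  have hfin : ∫⁻ x, (Θ x * Θ x) * b x ∂ν < ⊤ := by
    have e := unf_lem ν ac h1 hmul hac hν P (fun x => ‖F x‖ₑ * Θ x) (hF.enorm.mul hΘm)
      (fun p hp x => by rw [hP p hp x, hΘi]) η b hη hbm (by
        filter_upwards [hη1] with x hx h0
        refine hx (fun h => h0 ?_)
        rw [h]; simp) hb1
    have e2 : ∀ x, (Θ x * Θ x) * b x =
        (∑' q : Γ ⧸ P, ‖F (ac (Quotient.out q)⁻¹ x)‖ₑ * Θ (ac (Quotient.out q)⁻¹ x)) * b x := by
      intro x
      congr 1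
      rw [← ENNReal.tsum_mul_right]
      exact tsum_congr (fun q => by rw [hΘi])
    rw [lintegral_congr e2, e]
    exact hint
  have hae : ∀ᵐ x ∂ν, b x = 0 ∨ Θ x ≠ ⊤ := by
    filter_upwards [ae_lt_top (((hΘm.mul hΘm).mul hbm)) hfin.ne] with x hx
    by_contra hcon
    push Not at hcon
    obtain ⟨h0, ht⟩ := hcon
    have h4 : (Θ x * Θ x) * b x < ⊤ := hx
    rw [ht, ENNReal.top_mul_top, ENNReal.top_mul h0] at h4
    exact lt_irrefl _ h4
  -- the real integrand
  set R : X → ℝ := fun x => (conj (F x) * θ x).re with hR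
  have hRm : Measurable R := by
    refine Complex.measurable_re.comp ?_
    exact ((Complex.continuous_conj.measurable.comp hF)).mul hθm
  have hRi : ∀ p ∈ P, ∀ x, R (ac p x) = R x := by
    intro p hp x
    show (conj (F (ac p x)) * θ (ac p x)).re = (conj (F x) * θ x).re
    rw [hP p hp x, hθi]
  have hR0 : ∀ x, F x = 0 → R x = 0 := by
    intro x hx
    show (conj (F x) * θ x).re = 0
    rw [hx]; simp
  have hRle : ∀ x, ENNReal.ofReal |R x| ≤ ‖F x‖ₑ * Θ x := by
    intro x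
    have h5 : |R x| ≤ ‖F x‖ * ‖θ x‖ := by
      refine (Complex.abs_re_le_norm _).trans ?_
      rw [norm_mul, Complex.norm_conj]
    refine (ENNReal.ofReal_le_ofReal h5).trans ?_
    rw [ENNReal.ofReal_mul (norm_nonneg _), ofReal_norm_eq_enorm, ofReal_norm_eq_enorm]
    gcongr
    exact hθle x
  have hpos := unf_lem ν ac h1 hmul hac hν P (fun x => ENNReal.ofReal (R x))
    hRm.ennreal_ofReal (fun p hp x => by rw [hRi p hp x]) η b hη hbm (by
      filter_upwards [hη1] with x hx h0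
      refine hx (fun h => h0 ?_)
      rw [hR0 x h, ENNReal.ofReal_zero]) hb1
  have hneg := unf_lem ν ac h1 hmul hac hν P (fun x => ENNReal.ofReal (-R x))
    hRm.neg.ennreal_ofReal (fun p hp x => by rw [hRi p hp x]) η b hη hbm (by
      filter_upwards [hη1] with x hx h0
      refine hx (fun h => h0 ?_)
      rw [hR0 x h, neg_zero, ENNReal.ofReal_zero]) hb1
  have hle : ∫⁻ x, ENNReal.ofReal (-R x) * η x ∂ν ≤ ∫⁻ x, ENNReal.ofReal (R x) * η x ∂ν := by
    rw [← hpos, ← hneg]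
    refine lintegral_mono_ae ?_
    filter_upwards [hae] with x hx
    rcases hx with hx | hx
    · rw [hx, mul_zero, mul_zero]
    · gcongr ?_ * _
      have e : ∀ q : Γ ⧸ P, R (ac (Quotient.out q)⁻¹ x) =
          (conj (F (ac (Quotient.out q)⁻¹ x)) * ∑' r : Γ ⧸ P, F (ac (Quotient.out r)⁻¹ x)).re := by
        intro q
        show (conj (F (ac (Quotient.out q)⁻¹ x)) * θ (ac (Quotient.out q)⁻¹ x)).re = _
        rw [hθi]
      simp_rw [e]
      exact unf_pt _ hx
  have hfinp : ∫⁻ x, ENNReal.ofReal (R x) * η x ∂ν < ⊤ := by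
    refine lt_of_le_of_lt (lintegral_mono (fun x => ?_)) hint
    show ENNReal.ofReal (R x) * η x ≤ ‖F x‖ₑ * Θ x * η x
    gcongr
    exact (ENNReal.ofReal_le_ofReal (le_abs_self _)).trans (hRle x)
  -- conclusion
  by_cases hi : Integrable (fun x => conj (F x) * θ x * ((η x).toReal : ℂ)) ν
  · have e1 : (∫ x, conj (F x) * θ x * ((η x).toReal : ℂ) ∂ν).re =
        ∫ x, R x * (η x).toReal ∂ν := by
      have e0 := integral_re hi
      rw [← Complex.reCLM_apply]
      have e0 := (Complex.reCLM.integral_comp_comm hi).symm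
      rw [e0]
      refine integral_congr_ae (Eventually.of_forall (fun x => ?_))
      show (conj (F x) * θ x * ((η x).toReal : ℂ)).re = R x * (η x).toReal
      rw [Complex.re_mul_ofReal]
    have hi2 : Integrable (fun x => R x * (η x).toReal) ν := by
      refine hi.re.congr (Eventually.of_forall (fun x => ?_))
      show (conj (F x) * θ x * ((η x).toReal : ℂ)).re = R x * (η x).toReal
      rw [Complex.re_mul_ofReal]
    have hη2 : ∀ᵐ x ∂ν, F x ≠ 0 → η x ≠ ⊤ := by
      filter_upwards [hη1] with x hx h0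
      have h6 : η x ≤ ∑' p : P, η (ac (p : Γ) x) := by
        have h7 := ENNReal.le_tsum (f := fun p : P => η (ac (p : Γ) x)) 1
        simpa [h1] using h7
      rw [hx h0] at h6
      exact ne_top_of_le_ne_top ENNReal.one_ne_top h6
    have c1 : ∫⁻ x, ENNReal.ofReal (R x * (η x).toReal) ∂ν = ∫⁻ x, ENNReal.ofReal (R x) * η x ∂ν := by
      refine lintegral_congr_ae ?_
      filter_upwards [hη2] with x hx
      by_cases h0 : F x = 0
      · rw [hR0 x h0]; simp
      · rw [ENNReal.ofReal_mul' ENNReal.toReal_nonneg, ENNReal.ofReal_toReal (hx h0)]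
    have c2 : ∫⁻ x, ENNReal.ofReal (-(R x * (η x).toReal)) ∂ν =
        ∫⁻ x, ENNReal.ofReal (-R x) * η x ∂ν := by
      refine lintegral_congr_ae ?_
      filter_upwards [hη2] with x hx
      by_cases h0 : F x = 0
      · rw [hR0 x h0]; simp
      · rw [← neg_mul, ENNReal.ofReal_mul' ENNReal.toReal_nonneg, ENNReal.ofReal_toReal (hx h0)]
    rw [e1, integral_eq_lintegral_pos_part_sub_lintegral_neg_part hi2, c1, c2]
    exact sub_nonneg.2 (ENNReal.toReal_mono hfinp.ne hle)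
  · rw [integral_undef hi]
    simp

end unf

end Pool.Agent.NN

namespace Pool.Agent.NN

theorem unf : type_of% @unf_pr := @unf_pr

end Pool.Agent.NN
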