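import Pool.Agent.Lib_helper32.NN.Dfs2
import Pool.Agent.Lib_helper32.NNF.ABS
import Pool.Agent.Lib_helper32.NNF.BET
import Pool.Agent.Lib_helper32.NNF.BLK
import Pool.Agent.Lib_helper32.NNF.CTB
import Pool.Agent.Lib_helper32.NNF.ETA
import Pool.Agent.Lib_helper32.NNF.FFB
import Pool.Agent.Lib_helper32.NNF.MEA
import Pool.Agent.Lib_helper32.NNF.NUI
import Pool.Agent.Lib_helper32.NNF.NUS
import Pool.Agent.Lib_helper32.NNF.UNF

/-!
# Assembly of the inequality, part 1
-/

namespace Pool.Agent.NN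

open Complex MeasureTheory Filter Topology UpperHalfPlane Matrix
open scoped MatrixGroups ENNReal ComplexConjugate
open Pool.Agent.LEV (S2 co IsNew Lh)

section
variable {N : ℕ} [Fact N.Prime] (f : S2 N)

theorem sta_act_meas (g : GaN N) : Measurable (act N g) := by
  unfold act
  apply measurable_pi_lambda
  intro i
  apply measurable_pi_lambda
  intro j
  have : (fun x : M4 => (mt N g * x) i j) = fun x : M4 => ∑ k, mt N g i k * x k j := by
    funext x
    rw [Matrix.mul_apply]
  show Measurable (fun x : M4 => (mt N g * x) i j)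
  rw [this]
  apply Finset.measurable_sum
  intro k _
  have h1 : Measurable (fun x : M4 => x k j) := by
    have h2 : Measurable (fun x : (Fin 2 ⊕ Fin 2) → (Fin 2 ⊕ Fin 2) → ℝ => x k j) :=
      (measurable_pi_apply j).comp (measurable_pi_apply k)
    exact h2
  exact h1.const_mul _

theorem tq_meas {h : ℝ → ℝ} (hh : HOK h) (q : GaN N ⧸ PN N) : Measurable (tq f h q) := by
  unfold tq
  have h1 := ff_meas f hh
  have h2 := h1.comp (sta_act_meas (rp N q))
  have h3 : Measurable (fun x : M4 => (((eta N x).toReal : ℝ) : ℂ)) :=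
    Complex.measurable_ofReal.comp (eta_meas (N := N)).ennreal_toReal
  have h4 : Measurable (fun x : M4 => conj (FF f h x)) :=
    (Complex.continuous_conj.measurable).comp h1
  exact (h4.mul h2).mul h3

theorem sta_cntq (N : ℕ) [Fact N.Prime] : Countable (GaN N ⧸ PN N) := by
  haveI : Countable (GaN N) := gan_countable N
  exact Quotient.countable

theorem sta_sf (N : ℕ) : SFinite (nu N) := by
  unfold nu
  infer_instance

theorem sta_entry (i j : Fin 2 ⊕ Fin 2) : Measurable (fun x : M4 => x i j) := by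
  have h2 : Measurable (fun x : (Fin 2 ⊕ Fin 2) → (Fin 2 ⊕ Fin 2) → ℝ => x i j) :=
    (measurable_pi_apply j).comp (measurable_pi_apply i)
  exact h2

theorem sta_beta : Measurable beta := by
  unfold beta
  apply Measurable.ennreal_ofReal
  apply Real.measurable_exp.comp
  apply Measurable.neg
  apply Finset.measurable_sum
  intro i _
  apply Finset.measurable_sum
  intro j _
  exact (sta_entry i j).pow_const 2

theorem tq_sum {h : ℝ → ℝ} (hh : HOK h) :
    ∑' q : GaN N ⧸ PN N, ∫⁻ x, ‖tq f h q x‖ₑ ∂(nu N) ≠ ⊤ := by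
  haveI := sta_cntq N
  rw [← lintegral_tsum (fun q => (tq_meas f hh q).enorm.aemeasurable)]
  refine ne_top_of_le_ne_top (ff_abs f hh).ne ?_
  apply lintegral_mono
  intro x
  show ∑' q : GaN N ⧸ PN N, ‖tq f h q x‖ₑ ≤ _
  have h1 : ∀ q : GaN N ⧸ PN N, ‖tq f h q x‖ₑ ≤
      ‖FF f h x‖ₑ * ‖FF f h (act N (rp N q) x)‖ₑ * eta N x := by
    intro q
    unfold tq
    rw [enorm_mul, enorm_mul]
    have h2 : ‖conj (FF f h x)‖ₑ = ‖FF f h x‖ₑ := by
      rw [← ofReal_norm_eq_enorm, ← ofReal_norm_eq_enorm, RCLike.norm_conj]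
    rw [h2]
    have h3 : ‖(((eta N x).toReal : ℝ) : ℂ)‖ₑ ≤ eta N x := by
      rw [← ofReal_norm_eq_enorm, Complex.norm_real, Real.norm_of_nonneg ENNReal.toReal_nonneg]
      exact ENNReal.ofReal_toReal_le
    gcongr
  refine (ENNReal.tsum_le_tsum h1).trans ?_
  rw [ENNReal.tsum_mul_right, ENNReal.tsum_mul_left]

theorem sta_pos {h : ℝ → ℝ} (hh : HOK h) :
    0 ≤ (∑' q : GaN N ⧸ PN N, ∫ x, tq f h q x ∂(nu N)).re := by
  haveI := sta_cntq N
  haveI := sta_sf N
  haveI : Countable (GaN N) := gan_countable N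
  have key := unf (nu N) (act N) (fun x => by
      show mt N 1 * x = x
      have : mt N 1 = 1 := rfl
      rw [this, Matrix.one_mul])
    (fun a b x => by
      show mt N (a * b) * x = mt N a * (mt N b * x)
      have : mt N (a * b) = mt N a * mt N b := rfl
      rw [this, Matrix.mul_assoc])
    sta_act_meas (fun a => nu_inv N (a : Sp)) (PN N) (FF f h) (ff_meas f hh)
    (fun p hp x => ff_inv f h hp x) (eta N) beta (eta_meas (N := N))
    sta_beta
    (eta_sum f h)
    (by
      filter_upwards [nu_sp N] with x hx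
      exact beta_sum N hx.1)
    (ff_abs f hh)
  rw [← integral_tsum (fun q => (tq_meas f hh q).aestronglyMeasurable) (tq_sum f hh)]
  have h1 : ∀ x : M4, ∑' q : GaN N ⧸ PN N, tq f h q x = conj (FF f h x) *
      (∑' q : GaN N ⧸ PN N, FF f h (act N (Quotient.out q)⁻¹ x)) * (((eta N x).toReal : ℝ) : ℂ) := by
    intro x
    unfold tq
    rw [tsum_mul_right, tsum_mul_left]
    rfl
  simp_rw [h1]
  exact key

end

end Pool.Agent.NN

/-!
# Assembly of the inequality, part 2: coordinates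
-/

namespace Pool.Agent.NN

open Complex MeasureTheory Filter Topology UpperHalfPlane Matrix
open scoped MatrixGroups ENNReal ComplexConjugate
open Pool.Agent.LEV (S2 co IsNew Lh)

section
variable {N : ℕ} [Fact N.Prime] (f : S2 N)

theorem tqc_ys (x : R3) : ys (sy x) = x := by
  obtain ⟨a, b, c⟩ := x
  simp [ys, sy]

theorem tqc_det_meas : Measurable (fun w : R3 × R4 × R3 => (ma w.2.1).det) := by
  have : (fun w : R3 × R4 × R3 => (ma w.2.1).det) =
      fun w => w.2.1.1 * w.2.1.2.2.2 - w.2.1.2.1 * w.2.1.2.2.1 := by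
    funext w
    simp [ma, Matrix.det_fin_two]
  rw [this]
  fun_prop

open Classical in
theorem tqc_pt (h : ℝ → ℝ) (q : GaN N ⧸ PN N) (w : R3 × R4 × R3) :
    uq f h q w = ((|(ma w.2.1).det| : ℝ) : ℂ) * tq f h q (jj N w) := by
  obtain ⟨x, e, y⟩ := w
  unfold uq tq
  show (if x ∈ bx N ∧ 0 < (ma e).det then _ else 0) = ((|(ma e).det| : ℝ) : ℂ) * _
  have hcb := cb_j N x e y
  have hFF : FF f h (jj N (x, e, y)) = F0 f h (ma e * sy y) (ma e) := by
    unfold FF
    rw [hcb.1, hcb.2]
  rw [hFF]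
  by_cases hd : 0 < (ma e).det
  · have hN : (N : ℝ) ≠ 0 := by exact_mod_cast (Fact.out : N.Prime).ne_zero
    have hdet : (PI N * ma e).det ≠ 0 := by
      rw [Matrix.det_mul]
      have : (PI N).det = (N : ℝ)⁻¹ := by simp [PI, Matrix.det_fin_two]
      rw [this]
      exact mul_ne_zero (inv_ne_zero hN) hd.ne'
    have heta : eta N (jj N (x, e, y)) =
        (if x ∈ bx N then 1 else 0) * LEV.FUN_psi N (zz (ma e)) := by
      unfold eta
      rw [hcb.2, jj_blocks, toBlocks_fromBlocks₁₂, toBlocks_fromBlocks₂₂]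
      show (if ys (sy x * (PI N * ma e) * (PI N * ma e)⁻¹) ∈ bx N then (1 : ℝ≥0∞) else 0) * _ = _
      rw [Matrix.mul_assoc, Matrix.mul_nonsing_inv _ (isUnit_iff_ne_zero.mpr hdet), Matrix.mul_one,
        tqc_ys]
    rw [heta]
    by_cases hx : x ∈ bx N
    · simp only [hx, hd, and_self, if_true, one_mul]
      ring
    · simp [hx]
  · have h0 : F0 f h (ma e * sy y) (ma e) = 0 := by
      unfold F0 ph
      rw [if_neg hd]
      simp
    rw [h0]
    simp [hd]

theorem tqc_meas {h : ℝ → ℝ} (hh : HOK h) (q : GaN N ⧸ PN N) : Measurable (uq f h q) := by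
  have : uq f h q = fun w => ((|(ma w.2.1).det| : ℝ) : ℂ) * tq f h q (jj N w) := by
    funext w
    exact tqc_pt f h q w
  rw [this]
  exact (Complex.measurable_ofReal.comp (tqc_det_meas.abs)).mul ((tq_meas f hh q).comp (jj_meas N))

theorem tq_coord_pr {h : ℝ → ℝ} (hh : HOK h) (q : GaN N ⧸ PN N) :
    Measurable (uq f h q) ∧ ∫ x, tq f h q x ∂(nu N) = ∫ w, uq f h q w := by
  refine ⟨tqc_meas f hh q, ?_⟩
  unfold nu
  rw [integral_map (jj_meas N).aemeasurable
    (tq_meas f hh q).aestronglyMeasurable]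
  rw [integral_withDensity_eq_integral_toReal_smul₀
    (tqc_det_meas.abs.ennreal_ofReal.aemeasurable)
    (ae_of_all _ (fun w => ENNReal.ofReal_lt_top))]
  apply integral_congr_ae
  filter_upwards with w
  rw [tqc_pt, ENNReal.toReal_ofReal (abs_nonneg _)]
  simp

theorem uq_sum_pr {h : ℝ → ℝ} (hh : HOK h) :
    ∑' q : GaN N ⧸ PN N, ∫⁻ w, ‖uq f h q w‖ₑ ≠ ⊤ := by
  have key : ∀ q : GaN N ⧸ PN N, ∫⁻ w, ‖uq f h q w‖ₑ = ∫⁻ x, ‖tq f h q x‖ₑ ∂(nu N) := by
    intro q
    unfold nu
    rw [lintegral_map (tq_meas f hh q).enorm (jj_meas N)]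
    have hm : Measurable (fun a : R3 × R4 × R3 => ‖tq f h q (jj N a)‖ₑ) :=
      (tq_meas f hh q).enorm.comp (jj_meas N)
    rw [lintegral_withDensity_eq_lintegral_mul _ (tqc_det_meas.abs.ennreal_ofReal) hm]
    apply lintegral_congr
    intro w
    rw [tqc_pt, enorm_mul]
    simp only [Pi.mul_apply, Function.comp]
    congr 1
    rw [← ofReal_norm_eq_enorm, Complex.norm_real, Real.norm_of_nonneg (abs_nonneg _)]
  simp_rw [key]
  exact tq_sum f hh


end

end Pool.Agent.NN

namespace Pool.Agent.NN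

theorem tq_coord : type_of% @tq_coord_pr := @tq_coord_pr

theorem uq_sum : type_of% @uq_sum_pr := @uq_sum_pr

end Pool.Agent.NN
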