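import Pool.Agent.Lib_helper32.NN.Dfs2
import Pool.Agent.Lib_helper32.NNF.BLK
import Pool.Agent.Lib_helper32.NNF.CTB
import Pool.Agent.Lib_helper32.NNF.MMC
import Pool.Agent.Lib_helper32.NNF.RK0
import Pool.Agent.Lib_helper32.NNF.TQC

/-! Block PT0: the part of rank zero (helper79). -/

namespace Pool.Agent.NN

open Complex MeasureTheory Filter Topology UpperHalfPlane Matrix
open scoped MatrixGroups ENNReal ComplexConjugate
open Pool.Agent.LEV (S2 co IsNew Lh)

section
variable {N : ℕ} [Fact N.Prime] (f : S2 N)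

theorem pt0_count (N : ℕ) [Fact N.Prime] : Countable (GaN N ⧸ PN N) := by
  have := gan_countable N
  exact (QuotientGroup.mk_surjective (s := PN N)).countable

theorem pt0_bx (N : ℕ) : MeasurableSet (bx N) :=
  measurableSet_Ico.prod (measurableSet_Ico.prod measurableSet_Ico)

theorem pt0_vol (N : ℕ) : (volume : Measure R3).real (bx N) = (N : ℝ) ^ 2 := by
  rw [Measure.real]
  have : (volume : Measure R3) (bx N) = ENNReal.ofReal ((N : ℝ) ^ 2) := by
    unfold bx
    rw [Measure.volume_eq_prod ℝ (ℝ × ℝ), Measure.prod_prod, Measure.volume_eq_prod ℝ ℝ,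
      Measure.prod_prod]
    simp only [Real.volume_Ico, sub_zero, ENNReal.ofReal_one, one_mul]
    rw [← ENNReal.ofReal_mul (Nat.cast_nonneg N), sq]
  rw [this, ENNReal.toReal_ofReal (by positivity)]

/-- the cube `[-1,1]³` -/
def pt0c : Set R3 := Set.Icc (-1) 1 ×ˢ Set.Icc (-1) 1 ×ˢ Set.Icc (-1) 1

theorem pt0c_meas : MeasurableSet pt0c :=
  measurableSet_Icc.prod (measurableSet_Icc.prod measurableSet_Icc)

theorem pt0c_vol : (volume : Measure R3).real pt0c = 8 := by
  rw [Measure.real]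
  have : (volume : Measure R3) pt0c = ENNReal.ofReal 8 := by
    unfold pt0c
    rw [Measure.volume_eq_prod ℝ (ℝ × ℝ), Measure.prod_prod, Measure.volume_eq_prod ℝ ℝ,
      Measure.prod_prod]
    simp only [Real.volume_Icc]
    rw [← ENNReal.ofReal_mul (by norm_num), ← ENNReal.ofReal_mul (by norm_num)]
    norm_num
  rw [this, ENNReal.toReal_ofReal (by positivity)]

theorem pt0_iff (e : M2) (he : 0 < e.det) (y : R3) :
    (∀ i j, |(e⁻¹ * (e * sy y)) i j| ≤ 1) ↔ y ∈ pt0c := by
  rw [← Matrix.mul_assoc, Matrix.nonsing_inv_mul _ (isUnit_iff_ne_zero.2 he.ne'), Matrix.one_mul]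
  unfold sy pt0c
  simp only [Fin.forall_fin_two, Set.mem_prod, Set.mem_Icc, abs_le]
  simp
  tauto

/-- the term `F0` on the diagonal -/
theorem pt0_F0 (h : ℝ → ℝ) (e : M2) (he : 0 < e.det) (y : R3) :
    conj (F0 f h (e * sy y) e) * F0 f h (e * sy y) e =
      ((‖ph f e‖ ^ 2 * h e.det ^ 2 : ℝ) : ℂ) * pt0c.indicator (fun _ => (1 : ℂ)) y := by
  classical
  unfold F0
  by_cases hy : y ∈ pt0c
  · rw [if_pos ((pt0_iff e he y).2 hy), Set.indicator_of_mem hy, mul_one, mul_one, map_mul,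
      Complex.conj_ofReal]
    have : conj (ph f e) * ph f e = ((‖ph f e‖ ^ 2 : ℝ) : ℂ) := by
      rw [Complex.conj_mul', Complex.ofReal_pow]
    push_cast at this ⊢
    linear_combination (h e.det : ℂ) ^ 2 * this
  · rw [if_neg (fun h1 => hy ((pt0_iff e he y).1 h1)), Set.indicator_of_notMem hy, mul_zero,
      mul_zero, mul_zero]

theorem pt0_point (h : ℝ → ℝ) (w : R3 × R4 × R3) :
    ∑' q : {q : GaN N ⧸ PN N // cq N q = 0}, uq f h (q : GaN N ⧸ PN N) w =
      (bx N).indicator (fun _ => (1 : ℂ)) w.1 *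
        (((if 0 < (ma w.2.1).det then ‖ph f (ma w.2.1)‖ ^ 2 *
          (h (ma w.2.1).det ^ 2 * (ma w.2.1).det) *
          (LEV.FUN_psi N (zz (ma w.2.1))).toReal else 0 : ℝ) : ℂ) *
          pt0c.indicator (fun _ => (1 : ℂ)) w.2.2) := by
  classical
  by_cases hx : w.1 ∈ bx N
  · by_cases hd : 0 < (ma w.2.1).det
    · have hj := cb_j N w.1 w.2.1 w.2.2
      have h0 := rk0 f h (x := jj N w) (by
        rw [show jj N w = jj N (w.1, w.2.1, w.2.2) from rfl, hj.2]; exact hd)
      have h1 : FF f h (jj N w) = F0 f h (ma w.2.1 * sy w.2.2) (ma w.2.1) := by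
        unfold FF
        rw [show jj N w = jj N (w.1, w.2.1, w.2.2) from rfl, hj.1, hj.2]
      have h2 : ∀ q : {q : GaN N ⧸ PN N // cq N q = 0}, uq f h (q : GaN N ⧸ PN N) w =
          (conj (F0 f h (ma w.2.1 * sy w.2.2) (ma w.2.1)) *
          ((((LEV.FUN_psi N (zz (ma w.2.1))).toReal : ℝ) : ℂ) *
            ((|(ma w.2.1).det| : ℝ) : ℂ))) *
          FF f h (act N (rp N (q : GaN N ⧸ PN N)) (jj N w)) := by
        intro q
        unfold uq
        rw [if_pos ⟨hx, hd⟩]
        ring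
      simp_rw [h2]
      rw [tsum_mul_left, h0, h1, Set.indicator_of_mem hx, if_pos hd, one_mul]
      have h3 := pt0_F0 f h (ma w.2.1) hd w.2.2
      rw [abs_of_pos hd]
      push_cast at h3 ⊢
      linear_combination ((((LEV.FUN_psi N (zz (ma w.2.1))).toReal : ℝ) : ℂ) *
            (((ma w.2.1).det : ℝ) : ℂ)) * h3
    · have h3 : ∀ q : {q : GaN N ⧸ PN N // cq N q = 0}, uq f h (q : GaN N ⧸ PN N) w = 0 := by
        intro q
        unfold uq
        exact if_neg fun h4 => hd h4.2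
      simp_rw [h3]
      rw [tsum_zero, if_neg hd]
      simp
  · have h3 : ∀ q : {q : GaN N ⧸ PN N // cq N q = 0}, uq f h (q : GaN N ⧸ PN N) w = 0 := by
      intro q
      unfold uq
      exact if_neg fun h4 => hx h4.1
    simp_rw [h3]
    rw [tsum_zero, Set.indicator_of_notMem hx, zero_mul]

theorem pt0_G {h : ℝ → ℝ} (hh : HOK h) : Measurable (fun t => h t ^ 2 * t) ∧
    IntegrableOn (fun t => (h t ^ 2 * t) * t) (Set.Ioi (0 : ℝ)) := by
  have hm := hh.meas
  refine ⟨(hm.pow_const 2).mul measurable_id, ?_⟩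
  obtain ⟨B, hB⟩ := hh.bdd
  obtain ⟨t0, t1, h0, h1⟩ := hh.supp
  have h2 : Integrable (fun t : ℝ => (Set.Icc t0 t1).indicator
      (fun _ => (max B (0 : ℝ)) ^ 2 * t1 ^ 2) t) := by
    rw [integrable_indicator_iff measurableSet_Icc]
    exact integrableOn_const (by simp)
  refine (Integrable.mono' h2 (((hm.pow_const 2).mul measurable_id).mul
    measurable_id).aestronglyMeasurable ?_).integrableOn
  refine Filter.Eventually.of_forall fun t => ?_
  have h6 : ((fun t => h t ^ 2) * id * id : ℝ → ℝ) t = h t ^ 2 * t ^ 2 := by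
    simp only [Pi.mul_apply, id]
    ring
  rw [h6]
  by_cases ht : h t = 0
  · rw [ht, zero_pow two_ne_zero, zero_mul, norm_zero]
    exact Set.indicator_nonneg (fun _ _ => by positivity) _
  · obtain ⟨h3, h4⟩ := h1 t ht
    rw [Set.indicator_of_mem (Set.mem_Icc.2 ⟨h3, h4⟩), Real.norm_of_nonneg (by positivity),
      ← sq_abs (h t)]
    have h7 : |h t| ≤ max B 0 := (hB t).trans (le_max_left _ _)
    have h8 : 0 ≤ t := h0.le.trans h3
    gcongr

/-- PT0. the part of rank zero -/
theorem part0_pr {h : ℝ → ℝ} (hh : HOK h) :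
    ∑' q : {q : GaN N ⧸ PN N // cq N q = 0}, ∫ w, uq f h (q : GaN N ⧸ PN N) w =
      ((8 * N ^ 2 * cf f * ∫ t in Set.Ioi (0 : ℝ), h t ^ 2 * t ^ 2 : ℝ) : ℂ) := by
  have := pt0_count N
  rw [← integral_tsum]
  · simp_rw [pt0_point f h]
    rw [Measure.volume_eq_prod R3 (R4 × R3),
      integral_prod_mul (μ := (volume : Measure R3)) (ν := (volume : Measure (R4 × R3)))
        (fun x => (bx N).indicator (fun _ => (1 : ℂ)) x)
        (fun v : R4 × R3 => (((if 0 < (ma v.1).det then ‖ph f (ma v.1)‖ ^ 2 *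
          (h (ma v.1).det ^ 2 * (ma v.1).det) *
          (LEV.FUN_psi N (zz (ma v.1))).toReal else 0 : ℝ) : ℂ) *
          pt0c.indicator (fun _ => (1 : ℂ)) v.2)),
      Measure.volume_eq_prod R4 R3,
      integral_prod_mul (μ := (volume : Measure R4)) (ν := (volume : Measure R3))
        (fun e : R4 => ((if 0 < (ma e).det then ‖ph f (ma e)‖ ^ 2 *
          (h (ma e).det ^ 2 * (ma e).det) *
          (LEV.FUN_psi N (zz (ma e))).toReal else 0 : ℝ) : ℂ))
        (fun y => pt0c.indicator (fun _ => (1 : ℂ)) y),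
      integral_complex_ofReal, (mmc f (pt0_G hh).1 (pt0_G hh).2).2,
      integral_indicator (pt0_bx N), integral_indicator pt0c_meas,
      setIntegral_const, setIntegral_const, pt0_vol, pt0c_vol]
    have h5 : ∀ t : ℝ, h t ^ 2 * t * t = h t ^ 2 * t ^ 2 := fun t => by ring
    simp_rw [h5]
    simp only [Complex.real_smul, mul_one]
    push_cast
    ring
  · intro q
    exact (tq_coord f hh (q : GaN N ⧸ PN N)).1.aestronglyMeasurable
  · exact ne_top_of_le_ne_top (uq_sum f hh) (ENNReal.tsum_comp_le_tsum_of_injective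
      Subtype.val_injective (fun q : GaN N ⧸ PN N => ∫⁻ w, ‖uq f h q w‖ₑ))


end

end Pool.Agent.NN

namespace Pool.Agent.NN

theorem part0 : type_of% @part0_pr := @part0_pr

end Pool.Agent.NN
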