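import Pool.Agent.Lib_helper32.NN.Dfs2
import Pool.Agent.Lib_helper32.NNF.BLK
import Pool.Agent.Lib_helper32.NNF.CNT
import Pool.Agent.Lib_helper32.NNF.CTB
import Pool.Agent.Lib_helper32.NNF.CUS
import Pool.Agent.Lib_helper32.NNF.FFB
import Pool.Agent.Lib_helper32.NNF.MEA
import Pool.Agent.Lib_helper32.NNF.PHA

/-!
# NN, block RK1: the cosets of rank one
-/

namespace Pool.Agent.NN

open Complex MeasureTheory Filter Topology UpperHalfPlane Matrix
open scoped MatrixGroups ENNReal ComplexConjugate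
open Pool.Agent.LEV (S2 co IsNew Lh)

/-! ### the direction -/

/-- the predicate which defines the direction -/
def rk1_KE (C : M2) (E : ℤ × ℤ × ℤ) : Prop :=
  C * sy ((E.1 : ℝ), (E.2.1 : ℝ), (E.2.2 : ℝ)) ≠ 0 ∧
    C * sy ((E.1 : ℝ), (E.2.1 : ℝ), (E.2.2 : ℝ)) * Cᵀ = 0

theorem rk1_KE_mul {u : M2} (hu : u.det = 1) (C : M2) : rk1_KE (u * C) = rk1_KE C := by
  have hu' : IsUnit u.det := by rw [hu]; exact isUnit_one
  funext E
  apply propext
  unfold rk1_KE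
  generalize sy ((E.1 : ℝ), (E.2.1 : ℝ), (E.2.2 : ℝ)) = S
  constructor
  · rintro ⟨h1, h2⟩
    refine ⟨fun h => h1 ?_, ?_⟩
    · rw [Matrix.mul_assoc, h, Matrix.mul_zero]
    · have e : u * C * S * (u * C)ᵀ = u * (C * S * Cᵀ) * uᵀ := by
        rw [Matrix.transpose_mul]
        simp only [Matrix.mul_assoc]
      rw [e] at h2
      have h3 : u⁻¹ * (u * (C * S * Cᵀ) * uᵀ) * (uᵀ)⁻¹ = 0 := by rw [h2]; simp
      have hu2 : IsUnit (uᵀ).det := by rw [Matrix.det_transpose]; exact hu'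
      rw [Matrix.mul_assoc u, Matrix.nonsing_inv_mul_cancel_left _ _ hu',
        Matrix.mul_nonsing_inv_cancel_right _ _ hu2] at h3
      exact h3
  · rintro ⟨h1, h2⟩
    refine ⟨fun h => h1 ?_, ?_⟩
    · have h3 : u⁻¹ * (u * C * S) = 0 := by rw [h]; simp
      rw [Matrix.mul_assoc u, Matrix.nonsing_inv_mul_cancel_left _ _ hu'] at h3
      exact h3
    · have e : u * C * S * (u * C)ᵀ = u * (C * S * Cᵀ) * uᵀ := by
        rw [Matrix.transpose_mul]
        simp only [Matrix.mul_assoc]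
      rw [e, h2]
      simp

theorem rk1_KE_ex {N : ℕ} {C : M2} (hC : C ∈ OO N) (h0 : C ≠ 0) (hd : C.det = 0) :
    ∃ E, rk1_KE C E := by
  obtain ⟨a, b, c, d, rfl⟩ := hC
  rw [Matrix.det_fin_two_of] at hd
  refine ⟨(-2 * (a * b + N * c * d), a ^ 2 - b ^ 2 + (N * c) ^ 2 - d ^ 2,
    2 * (a * b + N * c * d)), ?_, ?_⟩
  · intro h
    apply h0
    have h1 := congrFun (congrFun h 0) 0
    have h2 := congrFun (congrFun h 0) 1
    have h3 := congrFun (congrFun h 1) 0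
    have h4 := congrFun (congrFun h 1) 1
    simp [sy, Matrix.mul_apply, Fin.sum_univ_two] at h1 h2 h3 h4
    have hs : 0 ≤ ((a : ℝ) ^ 2 + (b : ℝ) ^ 2 + (N * c : ℝ) ^ 2 + (d : ℝ) ^ 2) := by positivity
    have k1 : ((a : ℝ) ^ 2 + (b : ℝ) ^ 2 + (N * c : ℝ) ^ 2 + (d : ℝ) ^ 2) * b = 0 := by
      linear_combination -h1 - (2 * (N * c : ℝ)) * hd
    have k2 : ((a : ℝ) ^ 2 + (b : ℝ) ^ 2 + (N * c : ℝ) ^ 2 + (d : ℝ) ^ 2) * a = 0 := by
      linear_combination h2 + 2 * (d : ℝ) * hd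
    have k3 : ((a : ℝ) ^ 2 + (b : ℝ) ^ 2 + (N * c : ℝ) ^ 2 + (d : ℝ) ^ 2) * d = 0 := by
      linear_combination -h3 + 2 * (a : ℝ) * hd
    have k4 : ((a : ℝ) ^ 2 + (b : ℝ) ^ 2 + (N * c : ℝ) ^ 2 + (d : ℝ) ^ 2) * (N * c) = 0 := by
      linear_combination h4 - 2 * (b : ℝ) * hd
    by_cases hs0 : ((a : ℝ) ^ 2 + (b : ℝ) ^ 2 + (N * c : ℝ) ^ 2 + (d : ℝ) ^ 2) = 0
    · have ha : (a : ℝ) = 0 := by nlinarith [sq_nonneg (a : ℝ), sq_nonneg (b : ℝ), sq_nonneg (N * c : ℝ), sq_nonneg (d : ℝ)]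
      have hb : (b : ℝ) = 0 := by nlinarith [sq_nonneg (a : ℝ), sq_nonneg (b : ℝ), sq_nonneg (N * c : ℝ), sq_nonneg (d : ℝ)]
      have hc : (N * c : ℝ) = 0 := by nlinarith [sq_nonneg (a : ℝ), sq_nonneg (b : ℝ), sq_nonneg (N * c : ℝ), sq_nonneg (d : ℝ)]
      have hd' : (d : ℝ) = 0 := by nlinarith [sq_nonneg (a : ℝ), sq_nonneg (b : ℝ), sq_nonneg (N * c : ℝ), sq_nonneg (d : ℝ)]
      rw [ha, hb, hc, hd']
      ext i j
      fin_cases i <;> fin_cases j <;> rfl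
    · have ha := (mul_eq_zero.1 k2).resolve_left hs0
      have hb := (mul_eq_zero.1 k1).resolve_left hs0
      have hc := (mul_eq_zero.1 k4).resolve_left hs0
      have hd' := (mul_eq_zero.1 k3).resolve_left hs0
      rw [ha, hb, hc, hd']
      ext i j
      fin_cases i <;> fin_cases j <;> rfl
  · have hd2 : (a : ℝ) * d = b * (N * c) := by linarith
    have ht : (!![(a : ℝ), (b : ℝ); (N : ℝ) * (c : ℝ), (d : ℝ)] : M2)ᵀ =
        !![(a : ℝ), (N : ℝ) * (c : ℝ); (b : ℝ), (d : ℝ)] := by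
      ext i j
      fin_cases i <;> fin_cases j <;> rfl
    rw [ht]
    ext i j
    fin_cases i <;> fin_cases j <;> simp [sy, Matrix.mul_apply, Fin.sum_univ_two]
    · linear_combination (-2 * ((a : ℝ) * (N * c) + b * d)) * hd
    · linear_combination ((a : ℝ) ^ 2 + (b : ℝ) ^ 2 - (N * c : ℝ) ^ 2 - (d : ℝ) ^ 2) * hd
    · linear_combination ((a : ℝ) ^ 2 + (b : ℝ) ^ 2 - (N * c : ℝ) ^ 2 - (d : ℝ) ^ 2) * hd
    · linear_combination (2 * ((a : ℝ) * (N * c) + b * d)) * hd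

/-! ### the group -/

section group
variable {N : ℕ} [hNf : Fact N.Prime]

theorem rk1_act_mul (a b : GaN N) (z : M4) : act N a (act N b z) = act N (a * b) z := by
  show mt N a * (mt N b * z) = mt N (a * b) * z
  have e : mt N (a * b) = mt N a * mt N b := rfl
  rw [e, Matrix.mul_assoc]

theorem rk1_rp (γ : GaN N) :
    ∃ p ∈ PN N, rp N (QuotientGroup.mk γ⁻¹ : GaN N ⧸ PN N) = p * γ := by
  obtain ⟨h, hh⟩ := QuotientGroup.mk_out_eq_mul (PN N) γ⁻¹
  refine ⟨(h : GaN N)⁻¹, (PN N).inv_mem h.2, ?_⟩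
  unfold rp
  have e : Quotient.out (QuotientGroup.mk γ⁻¹ : GaN N ⧸ PN N) = γ⁻¹ * (h : GaN N) := hh
  rw [e]
  group

theorem rk1_cb_p {p : GaN N} (hp : p ∈ PN N) (γ : GaN N) :
    ∃ u ∈ G0m N, cb N (mt N (p * γ)) = u * cb N (mt N γ) := by
  obtain ⟨h1, h2⟩ := hp
  have hG : inG N (mt N p) := p.2
  refine ⟨db N (mt N p) * PI N, ⟨hG.2.2.2, ?_⟩, ?_⟩
  · unfold db
    rw [det_mul, det_mul, h2, mul_one, ← det_mul, pp_mul_pi hNf.out.ne_zero, det_one]
  · have e : mt N (p * γ) = mt N p * mt N γ := rfl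
    rw [e, bl_mul]
    unfold cb db
    rw [toBlocks_fromBlocks₂₁, h1, Matrix.zero_mul, zero_add, Matrix.mul_assoc _ (PI N),
      ← Matrix.mul_assoc (PI N), pi_mul_pp hNf.out.ne_zero, Matrix.one_mul, Matrix.mul_assoc]

theorem rk1_n (a b c : ℤ) : ∃ n : GaN N,
    mt N n = fromBlocks 1 (sy ((a : ℝ), ((N : ℝ) * b, (N : ℝ) * c))) 0 1 := by
  have hN0 : (N : ℝ) ≠ 0 := by exact_mod_cast hNf.out.ne_zero
  have hS : (sy ((a : ℝ), ((N : ℝ) * b, (N : ℝ) * c)))ᵀ = sy ((a : ℝ), ((N : ℝ) * b, (N : ℝ) * c)) := by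
    ext i j
    fin_cases i <;> fin_cases j <;> rfl
  have hm : (fromBlocks 1 (sy ((a : ℝ), ((N : ℝ) * b, (N : ℝ) * c))) 0 1 : M4) ∈
      Matrix.symplecticGroup (Fin 2) ℝ := by
    rw [SymplecticGroup.fromBlocks_mem_iff]
    refine ⟨by simp, ?_, by simp⟩
    rw [hS]
    simp
  refine ⟨⟨⟨_, hm⟩, ?_⟩, rfl⟩
  show inG N (fromBlocks 1 (sy ((a : ℝ), ((N : ℝ) * b, (N : ℝ) * c))) 0 1)
  refine ⟨?_, ?_, ?_, ?_⟩
  · rw [toBlocks_fromBlocks₁₁]
    exact oo_one
  · rw [toBlocks_fromBlocks₁₂]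
    refine ⟨a, b, b, c, ?_⟩
    ext i j
    fin_cases i <;> fin_cases j <;>
      simp [sy, PI, Matrix.mul_apply, Fin.sum_univ_two] <;> field_simp
  · unfold cb
    rw [toBlocks_fromBlocks₂₁, Matrix.mul_zero]
    exact oo_zero
  · unfold db
    rw [toBlocks_fromBlocks₂₂, Matrix.mul_one, pp_mul_pi hNf.out.ne_zero]
    exact oo_one

theorem rk1_jj (x S : R3) (w : R4 × R3) :
    jj N (x + S, w) = fromBlocks 1 (sy S) 0 1 * jj N (x, w) := by
  have h : (fromBlocks 1 (sy (x + S)) 0 1 : M4) = fromBlocks 1 (sy S) 0 1 * fromBlocks 1 (sy x) 0 1 := by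
    rw [fromBlocks_multiply]
    have h2 : sy (x + S) = sy x + sy S := by
      ext i j
      fin_cases i <;> fin_cases j <;> rfl
    simp [h2]
  unfold jj
  simp only
  rw [h]
  simp only [Matrix.mul_assoc]

theorem rk1_smul (n : GaN N) (q : GaN N ⧸ PN N) :
    n⁻¹ • q = (QuotientGroup.mk (rp N q * n)⁻¹ : GaN N ⧸ PN N) := by
  unfold rp
  have h : (QuotientGroup.mk (Quotient.out q) : GaN N ⧸ PN N) = q := QuotientGroup.out_eq' q
  conv_lhs => rw [← h]
  rw [_root_.mul_inv_rev, inv_inv]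
  rfl

theorem rk1_shift (f : S2 N) (h : ℝ → ℝ) (w : R4 × R3) (n : GaN N) (S : R3)
    (hn : mt N n = fromBlocks 1 (sy S) 0 1) (q : GaN N ⧸ PN N) (x : R3) :
    FF f h (act N (rp N q) (jj N (x + S, w))) =
      FF f h (act N (rp N (n⁻¹ • q)) (jj N (x, w))) := by
  obtain ⟨p, hp, hq⟩ := rk1_rp (rp N q * n)
  rw [rk1_smul, hq, ← rk1_act_mul, ff_inv f h hp, ← rk1_act_mul, rk1_jj, ← hn]
  rfl

theorem rk1_cq (n : GaN N) (S : R3) (hn : mt N n = fromBlocks 1 (sy S) 0 1) (q : GaN N ⧸ PN N) :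
    ∃ u ∈ G0m N, cq N (n⁻¹ • q) = u * cq N q := by
  obtain ⟨p, hp, hq⟩ := rk1_rp (rp N q * n)
  obtain ⟨u, hu, h2⟩ := rk1_cb_p hp (rp N q * n)
  refine ⟨u, hu, ?_⟩
  unfold cq
  rw [rk1_smul, hq, h2]
  congr 1
  have e : mt N (rp N q * n) = mt N (rp N q) * mt N n := rfl
  rw [e, bl_mul, hn]
  unfold cb
  rw [toBlocks_fromBlocks₂₁, toBlocks_fromBlocks₁₁, toBlocks_fromBlocks₂₁, Matrix.mul_one,
    Matrix.mul_zero, add_zero]

theorem rk1_Z (g : GaN N) {E : ℤ × ℤ × ℤ} (hE : rk1_KE (cb N (mt N g)) E) :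
    ∃ Z : M2, Z * Z = 0 ∧ Z ≠ 0 ∧ 1 + (N : ℝ) • Z ∈ OO N ∧ Z * cb N (mt N g) = 0 ∧
      Z * db N (mt N g) = cb N (mt N g) * sy ((E.1 : ℝ), (E.2.1 : ℝ), (E.2.2 : ℝ)) := by
  have hN0 : (N : ℝ) ≠ 0 := by exact_mod_cast hNf.out.ne_zero
  have hG : inG N (mt N g) := g.2
  have hS : mt N g ∈ Matrix.symplecticGroup (Fin 2) ℝ := (g : Sp).2
  obtain ⟨hE1, hE2⟩ := hE
  have hS' := hS
  rw [← fromBlocks_toBlocks (mt N g), SymplecticGroup.fromBlocks_mem_iff] at hS'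
  have hEN : ((N : ℝ) • sy ((E.1 : ℝ), (E.2.1 : ℝ), (E.2.2 : ℝ))) * PI N ∈ OO N := by
    refine ⟨N * E.1, E.2.1, E.2.1, E.2.2, ?_⟩
    ext i j
    fin_cases i <;> fin_cases j <;>
      simp [sy, PI, Matrix.mul_apply, Fin.sum_univ_two] <;> field_simp
  generalize hA : (mt N g).toBlocks₁₁ = A at *
  generalize hB : (mt N g).toBlocks₁₂ = B at *
  generalize hC0 : (mt N g).toBlocks₂₁ = C0 at *
  generalize hD0 : (mt N g).toBlocks₂₂ = D0 at *
  generalize hEs : sy ((E.1 : ℝ), (E.2.1 : ℝ), (E.2.2 : ℝ)) = T at *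
  have hcb : cb N (mt N g) = PP N * C0 := by unfold cb; rw [hC0]
  have hdb : db N (mt N g) = PP N * D0 := by unfold db; rw [hD0]
  rw [hcb] at hE1 hE2
  rw [hcb, hdb]
  have hAO : A ∈ OO N := by
    have := hG.1
    rwa [hA] at this
  have hCO : PP N * C0 ∈ OO N := by
    have := hG.2.2.1
    rwa [hcb] at this
  obtain ⟨r1, r2, r3⟩ := hS'
  have hIP := pi_mul_pp hNf.out.ne_zero
  have hPI := pp_mul_pi hNf.out.ne_zero
  have hPt : (PP N)ᵀ = PP N := by
    ext i j; fin_cases i <;> fin_cases j <;> simp [PP]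
  have k1 : PP N * C0 * T * C0ᵀ = 0 := by
    have h1 : PP N * C0 * T * (PP N * C0)ᵀ * PI N = 0 := by rw [hE2, Matrix.zero_mul]
    rw [transpose_mul, hPt, ← Matrix.mul_assoc, Matrix.mul_assoc _ (PP N), hPI, Matrix.mul_one] at h1
    exact h1
  have hZC : PP N * C0 * T * Aᵀ * PI N * (PP N * C0) = 0 := by
    rw [Matrix.mul_assoc _ (PI N), ← Matrix.mul_assoc (PI N), hIP, Matrix.one_mul, Matrix.mul_assoc _ Aᵀ,
      r1, ← Matrix.mul_assoc, k1, Matrix.zero_mul]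
  have hZD : PP N * C0 * T * Aᵀ * PI N * (PP N * D0) = PP N * C0 * T := by
    have h3 : Aᵀ * D0 = 1 + C0ᵀ * B := by rw [← r3]; abel
    rw [Matrix.mul_assoc _ (PI N), ← Matrix.mul_assoc (PI N), hIP, Matrix.one_mul, Matrix.mul_assoc _ Aᵀ,
      h3, Matrix.mul_add, Matrix.mul_one, ← Matrix.mul_assoc _ C0ᵀ, k1, Matrix.zero_mul, add_zero]
  refine ⟨PP N * C0 * T * Aᵀ * PI N, ?_, ?_, ?_, hZC, hZD⟩
  · have e : PP N * C0 * T * Aᵀ * PI N * (PP N * C0 * T * Aᵀ * PI N) =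
        PP N * C0 * T * Aᵀ * PI N * (PP N * C0) * (T * Aᵀ * PI N) := by
      simp only [Matrix.mul_assoc]
    rw [e, hZC, Matrix.zero_mul]
  · intro h0
    rw [h0, Matrix.zero_mul] at hZD
    exact hE1 hZD.symm
  · have e : (N : ℝ) • (PP N * C0 * T * Aᵀ * PI N) =
        (PP N * C0) * (((N : ℝ) • T * PI N) * (PP N * Aᵀ * PI N)) := by
      rw [Matrix.smul_mul, Matrix.smul_mul, Matrix.mul_smul]
      congr 1
      rw [← Matrix.mul_assoc, ← Matrix.mul_assoc, ← Matrix.mul_assoc, ← Matrix.mul_assoc,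
        Matrix.mul_assoc _ (PI N) (PP N), hIP, Matrix.mul_one]
    rw [e]
    exact oo_add oo_one (oo_mul hCO (oo_mul hEN (oo_sigma hNf.out.ne_zero hAO)))

theorem rk1_det {Z : M2} (h2 : Z * Z = 0) (t : ℝ) : (1 + t • Z).det = 1 := by
  have h00 := congrFun (congrFun h2 0) 0
  have h01 := congrFun (congrFun h2 0) 1
  have h10 := congrFun (congrFun h2 1) 0
  have h11 := congrFun (congrFun h2 1) 1
  simp only [Matrix.mul_apply, Fin.sum_univ_two, Matrix.zero_apply] at h00 h01 h10 h11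
  have htr : Z 0 0 + Z 1 1 = 0 := by
    by_contra hc
    have hq : Z 0 1 = 0 := by
      have h : Z 0 1 * (Z 0 0 + Z 1 1) = 0 := by linear_combination h01
      exact (mul_eq_zero.1 h).resolve_right hc
    rw [hq] at h00 h11
    have hp : Z 0 0 = 0 := by
      have h : Z 0 0 * Z 0 0 = 0 := by linear_combination h00
      exact mul_self_eq_zero.1 h
    have hs : Z 1 1 = 0 := by
      have h : Z 1 1 * Z 1 1 = 0 := by linear_combination h11
      exact mul_self_eq_zero.1 h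
    exact hc (by rw [hp, hs, add_zero])
  rw [Matrix.det_fin_two]
  simp only [Matrix.add_apply, Matrix.smul_apply, smul_eq_mul, Matrix.one_apply_eq,
    Matrix.one_apply_ne (by decide : (0 : Fin 2) ≠ 1), Matrix.one_apply_ne (by decide : (1 : Fin 2) ≠ 0)]
  linear_combination (t + t ^ 2 * Z 0 0) * htr - t ^ 2 * h00

theorem rk1_F0 (f : S2 N) (h : ℝ → ℝ) {Z : M2} (h2 : Z * Z = 0) (t : ℝ) (c e : M2) :
    F0 f h ((1 + t • Z) * c) ((1 + t • Z) * e) =
      ph f ((1 + t • Z) * e) * (((h e.det : ℝ) : ℂ) *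
        (if ∀ i j, |(e⁻¹ * c) i j| ≤ 1 then 1 else 0)) := by
  have hd := rk1_det h2 t
  have hu : IsUnit (1 + t • Z).det := by rw [hd]; exact isUnit_one
  unfold F0
  have e1 : ((1 + t • Z) * e).det = e.det := by rw [det_mul, hd, one_mul]
  have e2 : ((1 + t • Z) * e)⁻¹ * ((1 + t • Z) * c) = e⁻¹ * c := by
    rw [Matrix.mul_inv_rev, Matrix.mul_assoc, Matrix.nonsing_inv_mul_cancel_left _ _ hu]
  rw [e1, e2, mul_assoc]

theorem rk1_int (f : S2 N) (h : ℝ → ℝ) (e : R4) (y : R3) (he : (ma e).det ≠ 0) (g : GaN N)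
    {E : ℤ × ℤ × ℤ} (hE : rk1_KE (cb N (mt N g)) E) (x : R3) :
    ∫ t in (0 : ℝ)..N, FF f h (act N g (jj N
      (x + t • (((E.1 : ℝ), (E.2.1 : ℝ), (E.2.2 : ℝ)) : R3), e, y))) = 0 := by
  obtain ⟨Z, z1, z2, z3, z4, z5⟩ := rk1_Z g hE
  have key : ∀ t : ℝ, FF f h (act N g (jj N
      (x + t • (((E.1 : ℝ), (E.2.1 : ℝ), (E.2.2 : ℝ)) : R3), e, y))) =
      ph f ((1 + t • Z) * db N (act N g (jj N (x, e, y)))) *
        (((h (db N (act N g (jj N (x, e, y)))).det : ℝ) : ℂ) *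
        (if ∀ i j, |((db N (act N g (jj N (x, e, y))))⁻¹ * cb N (act N g (jj N (x, e, y)))) i j| ≤ 1
          then 1 else 0)) := by
    intro t
    rw [← rk1_F0 f h z1 t]
    unfold FF
    have hsy : sy (x + t • (((E.1 : ℝ), (E.2.1 : ℝ), (E.2.2 : ℝ)) : R3)) =
        sy x + t • sy ((E.1 : ℝ), (E.2.1 : ℝ), (E.2.2 : ℝ)) := by
      ext i j
      fin_cases i <;> fin_cases j <;> rfl
    have hC : (1 + t • Z) * cb N (mt N g) = cb N (mt N g) := by
      rw [Matrix.add_mul, Matrix.one_mul, Matrix.smul_mul, z4, smul_zero, add_zero]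
    have hD : cb N (mt N g) * (sy x + t • sy ((E.1 : ℝ), (E.2.1 : ℝ), (E.2.2 : ℝ))) + db N (mt N g) =
        (1 + t • Z) * (cb N (mt N g) * sy x + db N (mt N g)) := by
      rw [Matrix.mul_add (1 + t • Z), ← Matrix.mul_assoc, hC, Matrix.add_mul, Matrix.one_mul,
        Matrix.smul_mul, z5, Matrix.mul_add, Matrix.mul_smul]
      abel
    rw [(cb_jj N g (x + t • (((E.1 : ℝ), (E.2.1 : ℝ), (E.2.2 : ℝ)) : R3)) e y he).1,
      (cb_jj N g (x + t • (((E.1 : ℝ), (E.2.1 : ℝ), (E.2.2 : ℝ)) : R3)) e y he).2,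
      (cb_jj N g x e y he).1, (cb_jj N g x e y he).2, hsy, hD]
    have hC2 : (1 + t • Z) * (cb N (mt N g) * PP N * ((ma e)⁻¹)ᵀ) =
        cb N (mt N g) * PP N * ((ma e)⁻¹)ᵀ := by
      rw [← Matrix.mul_assoc, ← Matrix.mul_assoc, hC]
    generalize cb N (mt N g) * sy x + db N (mt N g) = W
    congr 1
    · rw [Matrix.mul_add, hC2]
      simp only [Matrix.mul_assoc]
    · simp only [Matrix.mul_assoc]
  simp_rw [key]
  rw [intervalIntegral.integral_mul_const, ph_cusp f z1 z2 z3, zero_mul]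

end group

/-- the lattice of periods -/
def rk1_L (N : ℕ) : AddSubgroup R3 where
  carrier := {x | ∃ a b c : ℤ, x = ((a : ℝ), ((N : ℝ) * b, (N : ℝ) * c))}
  add_mem' := by
    rintro _ _ ⟨a, b, c, rfl⟩ ⟨a', b', c', rfl⟩
    refine ⟨a + a', b + b', c + c', ?_⟩
    push_cast
    simp only [Prod.mk_add_mk]
    rw [mul_add, mul_add]
  zero_mem' := ⟨0, 0, 0, by simp; rfl⟩
  neg_mem' := by
    rintro _ ⟨a, b, c, rfl⟩
    refine ⟨-a, -b, -c, ?_⟩
    push_cast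
    simp only [Prod.neg_mk, mul_neg]

theorem rk1_L_countable (N : ℕ) : Countable (rk1_L N) := by
  have h : ((rk1_L N : AddSubgroup R3) : Set R3) ⊆
      Set.range (fun z : ℤ × ℤ × ℤ => (((z.1 : ℝ), ((N : ℝ) * z.2.1, (N : ℝ) * z.2.2)) : R3)) := by
    rintro _ ⟨a, b, c, rfl⟩
    exact ⟨(a, b, c), rfl⟩
  exact ((Set.countable_range _).mono h).to_subtype

theorem rk1_bx_meas (N : ℕ) : MeasurableSet (bx N) :=
  measurableSet_Ico.prod (measurableSet_Ico.prod measurableSet_Ico)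

theorem rk1_fd {N : ℕ} (hN : 0 < N) (v : R3) :
    IsAddFundamentalDomain (rk1_L N) ((fun x : R3 => x + v) ⁻¹' bx N) volume := by
  have hN' : (0 : ℝ) < N := by exact_mod_cast hN
  refine IsAddFundamentalDomain.mk' ?_ ?_
  · exact ((measurable_add_const v) (rk1_bx_meas N)).nullMeasurableSet
  · intro x
    obtain ⟨a, ha, ha'⟩ := existsUnique_add_zsmul_mem_Ico (one_pos : (0 : ℝ) < 1) (x.1 + v.1) 0
    obtain ⟨b, hb, hb'⟩ := existsUnique_add_zsmul_mem_Ico hN' (x.2.1 + v.2.1) 0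
    obtain ⟨c, hc, hc'⟩ := existsUnique_add_zsmul_mem_Ico hN' (x.2.2 + v.2.2) 0
    refine ⟨⟨((a : ℝ), ((N : ℝ) * b, (N : ℝ) * c)), ⟨a, b, c, rfl⟩⟩, ?_, ?_⟩
    · show (((a : ℝ), ((N : ℝ) * b, (N : ℝ) * c)) : R3) + x + v ∈ bx N
      refine ⟨?_, ?_, ?_⟩
      · show (a : ℝ) + x.1 + v.1 ∈ Set.Ico (0 : ℝ) 1
        convert ha using 1
        · simp
        · simp; ring
      · show (N : ℝ) * b + x.2.1 + v.2.1 ∈ Set.Ico (0 : ℝ) N
        convert hb using 1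
        · simp
        · simp; ring
      · show (N : ℝ) * c + x.2.2 + v.2.2 ∈ Set.Ico (0 : ℝ) N
        convert hc using 1
        · simp
        · simp; ring
    · rintro ⟨_, ⟨a2, b2, c2, rfl⟩⟩ hy
      have hy2 : (((a2 : ℝ), ((N : ℝ) * b2, (N : ℝ) * c2)) : R3) + x + v ∈ bx N := hy
      obtain ⟨h1, h2, h3⟩ := hy2
      have h1' : (a2 : ℝ) + x.1 + v.1 ∈ Set.Ico (0 : ℝ) 1 := h1
      have h2' : (N : ℝ) * b2 + x.2.1 + v.2.1 ∈ Set.Ico (0 : ℝ) N := h2
      have h3' : (N : ℝ) * c2 + x.2.2 + v.2.2 ∈ Set.Ico (0 : ℝ) N := h3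
      have e1 := ha' a2 (by
        show x.1 + v.1 + a2 • (1 : ℝ) ∈ Set.Ico (0 : ℝ) (0 + 1)
        convert h1' using 1
        · simp
        · simp; ring)
      have e2 := hb' b2 (by
        show x.2.1 + v.2.1 + b2 • (N : ℝ) ∈ Set.Ico (0 : ℝ) (0 + N)
        convert h2' using 1
        · simp
        · simp; ring)
      have e3 := hc' c2 (by
        show x.2.2 + v.2.2 + c2 • (N : ℝ) ∈ Set.Ico (0 : ℝ) (0 + N)
        convert h3' using 1
        · simp
        · simp; ring)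
      rw [e1, e2, e3]


theorem rk1_trans {N : ℕ} (hN : 0 < N) (Θ : R3 → ℂ) (hΘ : ∀ S ∈ rk1_L N, ∀ x, Θ (x + S) = Θ x)
    (v : R3) : ∫ x in bx N, Θ (x + v) = ∫ x in bx N, Θ x := by
  have hc := rk1_L_countable N
  have hinv : (volume : Measure R3).IsAddLeftInvariant :=
    inferInstanceAs ((volume : Measure ℝ).prod (volume : Measure (ℝ × ℝ))).IsAddLeftInvariant
  have hinv2 : (volume : Measure R3).IsAddRightInvariant :=
    inferInstanceAs ((volume : Measure ℝ).prod (volume : Measure (ℝ × ℝ))).IsAddRightInvariant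
  have h0 := rk1_fd hN 0
  have h1 := rk1_fd hN (-v)
  have h2 := h1.setIntegral_eq h0 (f := Θ) (fun g x => by
    have e : g +ᵥ x = x + (g : R3) := add_comm _ _
    rw [e]
    exact hΘ _ g.2 x)
  have e0 : ((fun x : R3 => x + 0) ⁻¹' bx N) = bx N := by
    ext x
    simp
  rw [e0] at h2
  rw [← h2]
  have hmp : MeasurePreserving (fun x : R3 => x + v) volume volume :=
    measurePreserving_add_right volume v
  have hme : MeasurableEmbedding (fun x : R3 => x + v) := (measurableEmbedding_addRight v)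
  rw [← hmp.setIntegral_preimage_emb hme Θ]
  have e1 : ((fun x : R3 => x + v) ⁻¹' ((fun x : R3 => x + -v) ⁻¹' bx N)) = bx N := by
    ext x
    simp
  rw [e1]

theorem rk1_tsum_meas {X ι : Type*} [MeasurableSpace X] [Countable ι] {G : ι → X → ℂ}
    (hG : ∀ q, Measurable (G q)) (hs : ∀ x, Summable fun q => G q x) :
    Measurable fun x => ∑' q, G q x := by
  refine measurable_of_tendsto_metrizable' (atTop : Filter (Finset ι))
    (f := fun s x => ∑ q ∈ s, G q x) ?_ ?_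
  · intro s
    exact Finset.measurable_sum s fun q _ => hG q
  · rw [tendsto_pi_nhds]
    intro x
    exact (hs x).hasSum

theorem rk1_bx_sub (N : ℕ) : bx N ⊆ Set.Icc (0 : ℝ) 1 ×ˢ (Set.Icc (0 : ℝ) N ×ˢ Set.Icc (0 : ℝ) N) := by
  rintro x ⟨h1, h2, h3⟩
  exact ⟨Set.Ico_subset_Icc_self h1, Set.Ico_subset_Icc_self h2, Set.Ico_subset_Icc_self h3⟩

theorem rk1_bx_fin (N : ℕ) : volume (bx N) < ⊤ := by
  refine lt_of_le_of_lt (measure_mono (rk1_bx_sub N)) ?_
  exact (isCompact_Icc.prod (isCompact_Icc.prod isCompact_Icc)).measure_lt_top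

theorem rk1_abs {N : ℕ} (hN : 0 < N) {ι : Type*} [Countable ι] (G : ι → R3 → ℂ)
    (hG : ∀ q, Measurable (G q)) (K : R3 → ℝ) (hK : Continuous K)
    (hK0 : ∀ x, 0 ≤ K x) (hb : ∀ x, ∑' q, ‖G q x‖ₑ ≤ ENNReal.ofReal (K x))
    (hper : ∀ S ∈ rk1_L N, ∃ σ : ι ≃ ι, ∀ q x, G q (x + S) = G (σ q) x)
    (E : R3) (hE : ∀ q x, ∫ t in (0 : ℝ)..N, G q (x + t • E) = 0) :
    ∫ x in bx N, ∑' q, G q x = 0 := by
  have hN' : (0 : ℝ) < N := by exact_mod_cast hN
  have hs : ∀ x, Summable fun q => G q x := fun x =>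
    Summable.of_enorm (ne_top_of_le_ne_top ENNReal.ofReal_ne_top (hb x))
  have hm := rk1_tsum_meas hG hs
  have hper2 : ∀ S ∈ rk1_L N, ∀ x, (∑' q, G q (x + S)) = ∑' q, G q x := by
    intro S hS x
    obtain ⟨σ, hσ⟩ := hper S hS
    rw [← σ.tsum_eq (fun q => G q x)]
    exact tsum_congr fun q => hσ q x
  have htr := fun v => rk1_trans hN (fun x => ∑' q, G q x) hper2 v
  -- the bound on the compact set
  obtain ⟨M, hM⟩ : ∃ M : ℝ, ∀ t ∈ Set.Icc (0 : ℝ) N, ∀ x ∈ bx N, K (x + t • E) ≤ M := by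
    have hc : IsCompact (Set.Icc (0 : ℝ) N ×ˢ
        (Set.Icc (0 : ℝ) 1 ×ˢ (Set.Icc (0 : ℝ) N ×ˢ Set.Icc (0 : ℝ) (N : ℝ)))) :=
      isCompact_Icc.prod (isCompact_Icc.prod (isCompact_Icc.prod isCompact_Icc))
    have hcont : Continuous fun p : ℝ × R3 => K (p.2 + p.1 • E) := by fun_prop
    obtain ⟨M, hM⟩ := (hc.bddAbove_image hcont.continuousOn)
    refine ⟨M, fun t ht x hx => hM ⟨(t, x), ⟨ht, rk1_bx_sub N hx⟩, rfl⟩⟩
  -- the inner integral over `t` is zero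
  have hin : ∀ x ∈ bx N, ∫ t in (0 : ℝ)..N, ∑' q, G q (x + t • E) = 0 := by
    intro x hx
    have hmq : ∀ q, Measurable fun t : ℝ => G q (x + t • E) := fun q =>
      (hG q).comp (g := G q) (f := fun t : ℝ => x + t • E) (by fun_prop)
    rw [intervalIntegral.integral_of_le hN'.le]
    rw [integral_tsum]
    · refine (tsum_congr fun q => ?_).trans tsum_zero
      rw [← intervalIntegral.integral_of_le hN'.le]
      exact hE q x
    · intro q
      exact (hmq q).aestronglyMeasurable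
    · rw [← lintegral_tsum (fun q => (hmq q).enorm.aemeasurable)]
      refine ne_top_of_le_ne_top ?_ (lintegral_mono (g := fun t => ENNReal.ofReal (K (x + t • E)))
        fun t => hb _)
      refine ne_top_of_le_ne_top ?_ (setLIntegral_mono (g := fun _ => ENNReal.ofReal M)
        measurable_const fun t ht => ENNReal.ofReal_le_ofReal (hM t ⟨ht.1.le, ht.2⟩ x hx))
      rw [setLIntegral_const]
      exact ENNReal.mul_ne_top ENNReal.ofReal_ne_top (by simp)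
  -- Fubini
  have hfub : ∫ t in Set.Ioc (0 : ℝ) N, ∫ x in bx N, ∑' q, G q (x + t • E) =
      ∫ x in bx N, ∫ t in Set.Ioc (0 : ℝ) N, ∑' q, G q (x + t • E) := by
    have hf1 : IsFiniteMeasure (volume.restrict (bx N)) := ⟨by
      rw [Measure.restrict_apply_univ]; exact rk1_bx_fin N⟩
    refine integral_integral_swap ?_
    refine Integrable.of_bound ?_ M ?_
    · refine (hm.comp (g := fun x => ∑' q, G q x) (f := fun p : ℝ × R3 => p.2 + p.1 • E)
        ?_).aestronglyMeasurable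
      fun_prop
    · rw [Measure.prod_restrict]
      refine (ae_restrict_iff' (measurableSet_Ioc.prod (rk1_bx_meas N))).2 (Eventually.of_forall ?_)
      rintro ⟨t, x⟩ ⟨ht, hx⟩
      have h1 : ‖∑' q, G q (x + t • E)‖ₑ ≤ ENNReal.ofReal (K (x + t • E)) :=
        (enorm_tsum_le_tsum_enorm).trans (hb _)
      have h2 : ‖∑' q, G q (x + t • E)‖ ≤ K (x + t • E) := by
        rw [← ofReal_norm] at h1
        exact (ENNReal.ofReal_le_ofReal_iff (hK0 _)).1 h1
      exact h2.trans (hM t ⟨ht.1.le, ht.2⟩ x hx)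
  have hR : ∫ x in bx N, ∫ t in Set.Ioc (0 : ℝ) N, ∑' q, G q (x + t • E) = 0 := by
    rw [setIntegral_congr_fun (rk1_bx_meas N) (g := fun _ => (0 : ℂ))]
    · simp
    · intro x hx
      have := hin x hx
      rw [intervalIntegral.integral_of_le hN'.le] at this
      exact this
  rw [hR] at hfub
  have hL : ∫ t in Set.Ioc (0 : ℝ) N, ∫ x in bx N, ∑' q, G q (x + t • E) =
      (N : ℂ) * ∫ x in bx N, ∑' q, G q x := by
    simp_rw [htr]
    rw [setIntegral_const]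
    simp
  rw [hL] at hfub
  exact (mul_eq_zero.1 hfub).resolve_left (by exact_mod_cast hN.ne')

theorem rk1_sigma (N : ℕ) {ι κ : Type*} [Countable ι] [Countable κ] (g : ι → κ) (G : ι → R3 → ℂ)
    (hG : ∀ q, Measurable (G q)) (K : R3 → ℝ) (hK : Continuous K)
    (hb : ∀ x, ∑' q, ‖G q x‖ₑ ≤ ENNReal.ofReal (K x))
    (hfib : ∀ E, ∫ x in bx N, ∑' q : {q // g q = E}, G q x = 0) :
    ∫ x in bx N, ∑' q, G q x = 0 := by
  have hs : ∀ x, Summable fun q => G q x := fun x =>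
    Summable.of_enorm (ne_top_of_le_ne_top ENNReal.ofReal_ne_top (hb x))
  have hsum : ∀ x, ∑' q, G q x = ∑' E : κ, ∑' q : {q // g q = E}, G q x := by
    intro x
    have h1 := (Equiv.sigmaFiberEquiv g).tsum_eq (fun q => G q x)
    have h2 : Summable fun p : (Σ E : κ, {q // g q = E}) => G (Equiv.sigmaFiberEquiv g p) x :=
      (Equiv.summable_iff (Equiv.sigmaFiberEquiv g)).2 (hs x)
    rw [← h1, h2.tsum_sigma]
    rfl
  simp_rw [hsum]
  rw [integral_tsum]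
  · exact (tsum_congr fun E => hfib E).trans tsum_zero
  · intro E
    refine (rk1_tsum_meas (fun q => hG _) ?_).aestronglyMeasurable
    intro x
    exact (hs x).subtype _
  · have h1 : ∀ E : κ, ∫⁻ x in bx N, ‖∑' q : {q // g q = E}, G q x‖ₑ ≤
        ∫⁻ x in bx N, ∑' q : {q // g q = E}, ‖G q x‖ₑ := fun E =>
      lintegral_mono fun x => enorm_tsum_le_tsum_enorm
    refine ne_top_of_le_ne_top ?_ (ENNReal.tsum_le_tsum h1)
    rw [← lintegral_tsum (fun E => (Measurable.tsum fun q => (hG _).enorm).aemeasurable)]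
    have h3 : ∀ x, ∑' E : κ, ∑' q : {q // g q = E}, ‖G q x‖ₑ = ∑' q, ‖G q x‖ₑ := by
      intro x
      rw [← (Equiv.sigmaFiberEquiv g).tsum_eq (fun q => ‖G q x‖ₑ), ENNReal.tsum_sigma']
      rfl
    simp_rw [h3]
    have hc : IsCompact (Set.Icc (0 : ℝ) 1 ×ˢ (Set.Icc (0 : ℝ) N ×ˢ Set.Icc (0 : ℝ) (N : ℝ))) :=
      isCompact_Icc.prod (isCompact_Icc.prod isCompact_Icc)
    obtain ⟨M, hM⟩ := (hc.bddAbove_image hK.continuousOn)
    refine ne_top_of_le_ne_top ?_ (setLIntegral_mono (g := fun _ => ENNReal.ofReal M)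
      measurable_const fun x hx => (hb x).trans
        (ENNReal.ofReal_le_ofReal (hM ⟨x, rk1_bx_sub N hx, rfl⟩)))
    rw [setLIntegral_const]
    exact ENNReal.mul_ne_top ENNReal.ofReal_ne_top (rk1_bx_fin N).ne

/-! ### assembly -/

section form
variable {N : ℕ} [hNf : Fact N.Prime] (f : S2 N)

theorem rk1_jj_sp (x : R3) (e : R4) (y : R3) (he : (ma e).det ≠ 0) :
    jj N (x, e, y) ∈ Matrix.symplecticGroup (Fin 2) ℝ := by
  have hsy : ∀ x : R3, (sy x)ᵀ = sy x := by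
    intro x
    ext i j
    fin_cases i <;> fin_cases j <;> rfl
  have hdet : (PI N * ma e).det ≠ 0 := by
    have h1 : (PI N).det ≠ 0 := by
      intro h0
      have h2 := congrArg Matrix.det (pp_mul_pi hNf.out.ne_zero)
      rw [det_mul, h0, mul_zero, det_one] at h2
      exact zero_ne_one h2
    rw [det_mul]
    exact mul_ne_zero h1 he
  have hu : IsUnit (PI N * ma e).det := isUnit_iff_ne_zero.2 hdet
  unfold jj
  refine mul_mem (mul_mem ?_ ?_) ?_
  · rw [SymplecticGroup.fromBlocks_mem_iff]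
    refine ⟨by simp, ?_, by simp⟩
    rw [hsy]
    simp
  · rw [SymplecticGroup.fromBlocks_mem_iff]
    refine ⟨by simp, by simp, ?_⟩
    show (((PI N * ma e)⁻¹)ᵀ)ᵀ * (PI N * ma e) - 0ᵀ * 0 = 1
    rw [transpose_transpose, Matrix.nonsing_inv_mul _ hu]
    simp
  · rw [SymplecticGroup.fromBlocks_mem_iff]
    refine ⟨?_, by simp, by simp⟩
    rw [hsy]
    simp

theorem rk1_jj_cont (e : R4) (y : R3) : Continuous fun x : R3 => jj N (x, e, y) := by
  have h1 : Continuous fun x : R3 => sy x := by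
    refine continuous_matrix fun i j => ?_
    fin_cases i <;> fin_cases j <;> simp [sy] <;> fun_prop
  show Continuous fun x : R3 => fromBlocks 1 (sy x) 0 1 *
    fromBlocks ((PI N * ma e)⁻¹)ᵀ 0 0 (PI N * ma e) * fromBlocks 1 0 (sy y) 1
  refine Continuous.matrix_mul (Continuous.matrix_mul ?_ continuous_const) continuous_const
  exact Continuous.matrix_fromBlocks continuous_const h1 continuous_const continuous_const

theorem rk1_FF_bd {h : ℝ → ℝ} (hh : HOK h) : ∃ B : ℝ, 0 ≤ B ∧ ∀ x, ‖FF f h x‖ ≤ B := by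
  obtain ⟨C, hC0, hC⟩ := ph_bd f
  obtain ⟨B, hB⟩ := hh.bdd
  have hB0 : 0 ≤ B := (abs_nonneg _).trans (hB 0)
  refine ⟨C * B, by positivity, fun x => ?_⟩
  unfold FF F0
  rw [norm_mul, norm_mul, Complex.norm_real, Real.norm_eq_abs]
  have h3 : ‖(if ∀ i j, |((db N x)⁻¹ * cb N x) i j| ≤ 1 then (1 : ℂ) else 0)‖ ≤ 1 := by
    split_ifs <;> simp
  calc _ ≤ C * B * 1 := by
        refine mul_le_mul (mul_le_mul (hC _) (hB _) (abs_nonneg _) hC0.le) h3 (norm_nonneg _)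
          (by positivity)
    _ = C * B := mul_one _

theorem rk1_bound {h : ℝ → ℝ} (hh : HOK h) (e : R4) (he : (ma e).det ≠ 0) (y : R3) :
    ∃ K : R3 → ℝ, Continuous K ∧ (∀ x, 0 ≤ K x) ∧ ∀ x,
      ∑' q : GaN N ⧸ PN N, ‖FF f h (act N (rp N q) (jj N (x, e, y)))‖ₑ ≤ ENNReal.ofReal (K x) := by
  obtain ⟨B, hB0, hB⟩ := rk1_FF_bd f hh
  obtain ⟨C, hC⟩ := cnt f hh
  refine ⟨fun x => |C| * (1 + ∑ i, ∑ j, |jj N (x, e, y) i j|) ^ 12 * B, ?_, ?_, ?_⟩
  · have h1 := rk1_jj_cont (N := N) e y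
    have h2 : ∀ i j, Continuous fun x : R3 => jj N (x, e, y) i j := fun i j => h1.matrix_elem i j
    refine Continuous.mul (Continuous.mul continuous_const (Continuous.pow (Continuous.add
      continuous_const ?_) 12)) continuous_const
    exact continuous_finsetSum _ fun i _ => continuous_finsetSum _ fun j _ => (h2 i j).abs
  · intro x
    positivity
  · intro x
    obtain ⟨h1, h2⟩ := hC _ (rk1_jj_sp (N := N) x e y he)
    rw [tsum_eq_sum (s := h1.toFinset)]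
    · have h3 : ∑ q ∈ h1.toFinset, ‖FF f h (act N (rp N q) (jj N (x, e, y)))‖ₑ ≤
          ∑ q ∈ h1.toFinset, ENNReal.ofReal B := by
        refine Finset.sum_le_sum fun q _ => ?_
        rw [← ofReal_norm]
        exact ENNReal.ofReal_le_ofReal (hB _)
      refine h3.trans ?_
      rw [Finset.sum_const, nsmul_eq_mul, ← Set.ncard_eq_toFinset_card _ h1,
        ENNReal.ofReal_mul (by positivity), ← ENNReal.ofReal_natCast]
      gcongr
      refine h2.trans ?_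
      gcongr
      exact le_abs_self C
    · intro q hq
      rw [Set.Finite.mem_toFinset] at hq
      have : FF f h (act N (rp N q) (jj N (x, e, y))) = 0 := by
        by_contra hne
        exact hq hne
      rw [this, enorm_zero]

theorem rk1_meas {h : ℝ → ℝ} (hh : HOK h) (e : R4) (y : R3) (q : GaN N ⧸ PN N) :
    Measurable fun x : R3 => FF f h (act N (rp N q) (jj N (x, e, y))) := by
  have h1 : Measurable fun x : R3 => jj N (x, e, y) :=
    (jj_meas N).comp (by fun_prop : Measurable fun x : R3 => ((x, e, y) : R3 × R4 × R3))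
  have h2 : ∀ A : M4, Measurable fun x : M4 => A * x := by
    intro A
    refine measurable_pi_lambda _ fun i => measurable_pi_lambda _ fun j => ?_
    simp only [Matrix.mul_apply]
    refine Finset.measurable_sum _ fun k _ => Measurable.const_mul ?_ _
    exact (measurable_pi_apply j).comp (measurable_pi_apply k)
  exact (ff_meas f hh).comp ((h2 _).comp h1)

/-- the summand -/
noncomputable def rk1_G (h : ℝ → ℝ) (w : R4 × R3) (q : GaN N ⧸ PN N) (x : R3) : ℂ :=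
  FF f h (act N (rp N q) (jj N (x, w)))

/-- the cosets of rank one -/
abbrev rk1_Q (N : ℕ) [Fact N.Prime] : Type :=
  {q : GaN N ⧸ PN N // cq N q ≠ 0 ∧ (cq N q).det = 0}

/-- the direction of a coset of rank one -/
noncomputable def rk1_E (q : rk1_Q N) : ℤ × ℤ × ℤ := Classical.epsilon (rk1_KE (cq N q.1))

theorem rk1_E_spec (q : rk1_Q N) : rk1_KE (cq N q.1) (rk1_E q) :=
  Classical.epsilon_spec (rk1_KE_ex (gan_rel N (rp N q.1)).1 q.2.1 q.2.2)

theorem rk1_cond (n : GaN N) (S : R3) (hn : mt N n = fromBlocks 1 (sy S) 0 1) (q : GaN N ⧸ PN N) :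
    (cq N q ≠ 0 ∧ (cq N q).det = 0) ↔ (cq N (n⁻¹ • q) ≠ 0 ∧ (cq N (n⁻¹ • q)).det = 0) := by
  obtain ⟨u, hu, h2⟩ := rk1_cq n S hn q
  have hu' : IsUnit u.det := by rw [hu.2]; exact isUnit_one
  rw [h2, det_mul, hu.2, one_mul]
  refine and_congr_left fun _ => not_congr ⟨fun h => by rw [h, Matrix.mul_zero], fun h => ?_⟩
  have h3 : u⁻¹ * (u * cq N q) = 0 := by rw [h, Matrix.mul_zero]
  rwa [Matrix.nonsing_inv_mul_cancel_left _ _ hu'] at h3

/-- the shift of the cosets of rank one -/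
noncomputable def rk1_sh (n : GaN N) (S : R3) (hn : mt N n = fromBlocks 1 (sy S) 0 1) :
    rk1_Q N ≃ rk1_Q N :=
  (MulAction.toPerm n⁻¹ : Equiv.Perm (GaN N ⧸ PN N)).subtypeEquiv (rk1_cond n S hn)

theorem rk1_sh_val (n : GaN N) (S : R3) (hn : mt N n = fromBlocks 1 (sy S) 0 1) (q : rk1_Q N) :
    (rk1_sh n S hn q).1 = n⁻¹ • q.1 := rfl

theorem rk1_E_sh (n : GaN N) (S : R3) (hn : mt N n = fromBlocks 1 (sy S) 0 1) (q : rk1_Q N) :
    rk1_E (rk1_sh n S hn q) = rk1_E q := by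
  obtain ⟨u, hu, h2⟩ := rk1_cq n S hn q.1
  unfold rk1_E
  rw [rk1_sh_val, h2, rk1_KE_mul hu.2]

theorem rk1_equiv (h : ℝ → ℝ) (w : R4 × R3) (E : ℤ × ℤ × ℤ) (S : R3) (hS : S ∈ rk1_L N) :
    ∃ σ : {q : rk1_Q N // rk1_E q = E} ≃ {q : rk1_Q N // rk1_E q = E},
      ∀ q x, rk1_G f h w q.1.1 (x + S) = rk1_G f h w (σ q).1.1 x := by
  obtain ⟨a, b, c, rfl⟩ := hS
  obtain ⟨n, hn⟩ := rk1_n (N := N) a b c
  refine ⟨(rk1_sh n _ hn).subtypeEquiv fun q => ?_, fun q x => ?_⟩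
  · rw [rk1_E_sh]
  · exact rk1_shift f h w n _ hn _ x

theorem rk1_main {h : ℝ → ℝ} (hh : HOK h) (e : R4) (he : 0 < (ma e).det) (y : R3) :
    ∫ x in bx N, ∑' q : rk1_Q N, rk1_G f h (e, y) q.1 x = 0 := by
  have hN : 0 < N := hNf.out.pos
  have hcg := gan_countable N
  have hcQ : Countable (GaN N ⧸ PN N) :=
    (QuotientGroup.mk_surjective (s := PN N)).countable
  obtain ⟨K, hK, hK0, hKb⟩ := rk1_bound f hh e he.ne' y
  have hK1 : ∀ x, ∑' q : rk1_Q N, ‖rk1_G f h (e, y) q.1 x‖ₑ ≤ ENNReal.ofReal (K x) :=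
    fun x => (ENNReal.tsum_comp_le_tsum_of_injective Subtype.val_injective
      (fun q : GaN N ⧸ PN N => ‖rk1_G f h (e, y) q x‖ₑ)).trans (hKb x)
  have hm : ∀ q : GaN N ⧸ PN N, Measurable (rk1_G f h (e, y) q) := rk1_meas f hh e y
  refine rk1_sigma N (rk1_E (N := N)) (fun q : rk1_Q N => rk1_G f h (e, y) q.1) (fun q => hm _)
    K hK hK1 ?_
  intro E
  refine rk1_abs hN (fun q : {q : rk1_Q N // rk1_E q = E} => rk1_G f h (e, y) q.1.1)
    (fun q => hm _) K hK hK0 ?_ ?_ ((E.1 : ℝ), (E.2.1 : ℝ), (E.2.2 : ℝ)) ?_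
  · intro x
    exact (ENNReal.tsum_comp_le_tsum_of_injective Subtype.val_injective
      (fun q : rk1_Q N => ‖rk1_G f h (e, y) q.1 x‖ₑ)).trans (hK1 x)
  · intro S hS
    exact rk1_equiv f h (e, y) E S hS
  · rintro ⟨q, rfl⟩ x
    exact rk1_int f h e y he.ne' (rp N q.1) (rk1_E_spec q) x

/-- RK1. the cosets of rank one -/
theorem rk1_pr {h : ℝ → ℝ} (hh : HOK h) (e : R4) (he : 0 < (ma e).det) (y : R3) :
    ∫ x in bx N, ∑' q : {q : GaN N ⧸ PN N // cq N q ≠ 0 ∧ (cq N q).det = 0},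
      FF f h (act N (rp N (q : GaN N ⧸ PN N)) (jj N (x, e, y))) = 0 :=
  rk1_main f hh e he y

end form

end Pool.Agent.NN

namespace Pool.Agent.NN

theorem rk1 : type_of% @rk1_pr := @rk1_pr

end Pool.Agent.NN
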