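import Pool.Agent.Lib_helper32.NN.Dfs2
import Pool.Agent.Lib_helper32.NNF.CTB
import Pool.Agent.Lib_helper32.NNF.RK1
import Pool.Agent.Lib_helper32.NNF.TQC

/-! Block PT1: the part of rank one (helper23). -/

namespace Pool.Agent.NN

open Complex MeasureTheory Filter Topology UpperHalfPlane Matrix
open scoped MatrixGroups ENNReal ComplexConjugate
open Pool.Agent.LEV (S2 co IsNew Lh)

section
variable {N : ℕ} [Fact N.Prime] (f : S2 N)

theorem pt1_count (N : ℕ) [Fact N.Prime] : Countable (GaN N ⧸ PN N) := by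
  have := gan_countable N
  exact (QuotientGroup.mk_surjective (s := PN N)).countable

theorem pt1_bx (N : ℕ) : MeasurableSet (bx N) :=
  measurableSet_Ico.prod (measurableSet_Ico.prod measurableSet_Ico)

theorem pt1_int {h : ℝ → ℝ} (hh : HOK h) (q : GaN N ⧸ PN N) : Integrable (uq f h q) := by
  refine ⟨(tq_coord f hh q).1.aestronglyMeasurable, ?_⟩
  exact lt_of_le_of_lt (ENNReal.le_tsum q) (lt_top_iff_ne_top.2 (uq_sum f hh))

/-- a.e. in the last two variables the sum over the cosets is absolutely convergent -/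
theorem pt1_ae {h : ℝ → ℝ} (hh : HOK h) : ∀ᵐ v : R4 × R3,
    ∑' q : GaN N ⧸ PN N, ∫⁻ x : R3, ‖uq f h q (x, v)‖ₑ ≠ ⊤ := by
  have := pt1_count N
  have hm : ∀ q : GaN N ⧸ PN N, Measurable (fun w : R3 × R4 × R3 => ‖uq f h q w‖ₑ) :=
    fun q => (tq_coord f hh q).1.enorm
  have hm2 : ∀ q : GaN N ⧸ PN N, Measurable (fun v : R4 × R3 => ∫⁻ x : R3, ‖uq f h q (x, v)‖ₑ) :=
    fun q => (hm q).lintegral_prod_left'
  have h1 : ∫⁻ v : R4 × R3, ∑' q : GaN N ⧸ PN N, ∫⁻ x : R3, ‖uq f h q (x, v)‖ₑ ≠ ⊤ := by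
    rw [lintegral_tsum fun q => (hm2 q).aemeasurable]
    have h2 : ∀ q : GaN N ⧸ PN N, ∫⁻ v : R4 × R3, ∫⁻ x : R3, ‖uq f h q (x, v)‖ₑ =
        ∫⁻ w, ‖uq f h q w‖ₑ := by
      intro q
      rw [Measure.volume_eq_prod R3 (R4 × R3), lintegral_prod_symm' _ (hm q)]
    simp_rw [h2]
    exact uq_sum f hh
  have h3 := ae_lt_top (Measurable.tsum hm2) h1
  filter_upwards [h3] with v hv
  exact hv.ne

theorem pt1_inner {h : ℝ → ℝ} (hh : HOK h) (v : R4 × R3)
    (hv : ∑' q : GaN N ⧸ PN N, ∫⁻ x : R3, ‖uq f h q (x, v)‖ₑ ≠ ⊤) :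
    ∑' q : {q : GaN N ⧸ PN N // cq N q ≠ 0 ∧ (cq N q).det = 0},
      ∫ x : R3, uq f h (q : GaN N ⧸ PN N) (x, v) = 0 := by
  classical
  have := pt1_count N
  have hq : ∀ q : {q : GaN N ⧸ PN N // cq N q ≠ 0 ∧ (cq N q).det = 0},
      AEStronglyMeasurable (fun x : R3 => uq f h (q : GaN N ⧸ PN N) (x, v)) volume := by
    intro q
    exact ((tq_coord f hh (q : GaN N ⧸ PN N)).1.comp
      measurable_prodMk_right).aestronglyMeasurable
  rw [← integral_tsum hq]
  · by_cases hd : 0 < (ma v.1).det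
    · have h1 := rk1 f hh v.1 hd v.2
      have h2 : ∀ x : R3, ∑' q : {q : GaN N ⧸ PN N // cq N q ≠ 0 ∧ (cq N q).det = 0},
          uq f h (q : GaN N ⧸ PN N) (x, v) = (bx N).indicator (fun x : R3 =>
          (conj (F0 f h (ma v.1 * sy v.2) (ma v.1)) *
          ((((LEV.FUN_psi N (zz (ma v.1))).toReal : ℝ) : ℂ) * ((|(ma v.1).det| : ℝ) : ℂ))) *
          ∑' q : {q : GaN N ⧸ PN N // cq N q ≠ 0 ∧ (cq N q).det = 0},
            FF f h (act N (rp N (q : GaN N ⧸ PN N)) (jj N (x, v.1, v.2)))) x := by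
        intro x
        by_cases hx : x ∈ bx N
        · rw [Set.indicator_of_mem hx, ← tsum_mul_left]
          apply tsum_congr
          intro q
          unfold uq
          rw [if_pos ⟨hx, hd⟩]
          ring
        · rw [Set.indicator_of_notMem hx]
          have h3 : ∀ q : {q : GaN N ⧸ PN N // cq N q ≠ 0 ∧ (cq N q).det = 0},
              uq f h (q : GaN N ⧸ PN N) (x, v) = 0 := by
            intro q
            unfold uq
            exact if_neg fun h4 => hx h4.1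
          simp_rw [h3]
          exact tsum_zero
      simp_rw [h2]
      rw [integral_indicator (pt1_bx N), integral_const_mul, h1, mul_zero]
    · have h3 : ∀ (x : R3) (q : {q : GaN N ⧸ PN N // cq N q ≠ 0 ∧ (cq N q).det = 0}),
          uq f h (q : GaN N ⧸ PN N) (x, v) = 0 := by
        intro x q
        unfold uq
        exact if_neg fun h4 => hd h4.2
      simp_rw [h3]
      simp
  · exact ne_top_of_le_ne_top hv (ENNReal.tsum_comp_le_tsum_of_injective
      Subtype.val_injective (fun q : GaN N ⧸ PN N => ∫⁻ x : R3, ‖uq f h q (x, v)‖ₑ))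

/-- PT1. the part of rank one -/
theorem part1_pr {h : ℝ → ℝ} (hh : HOK h) :
    ∑' q : {q : GaN N ⧸ PN N // cq N q ≠ 0 ∧ (cq N q).det = 0},
      ∫ w, uq f h (q : GaN N ⧸ PN N) w = 0 := by
  have := pt1_count N
  have h1 : ∀ q : GaN N ⧸ PN N, ∫ w, uq f h q w = ∫ v : R4 × R3, ∫ x : R3, uq f h q (x, v) := by
    intro q
    have h2 := pt1_int f hh q
    rw [Measure.volume_eq_prod R3 (R4 × R3)] at h2 ⊢
    rw [integral_prod_symm _ h2]
  simp_rw [h1]
  rw [← integral_tsum]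
  · rw [← integral_zero (R4 × R3) ℂ (μ := volume)]
    apply integral_congr_ae
    filter_upwards [pt1_ae f hh] with v hv
    exact pt1_inner f hh v hv
  · intro q
    have h2 := pt1_int f hh (q : GaN N ⧸ PN N)
    rw [Measure.volume_eq_prod R3 (R4 × R3)] at h2
    exact h2.integral_prod_right.aestronglyMeasurable
  · have h3 : ∀ q : GaN N ⧸ PN N, ∫⁻ v : R4 × R3, ‖∫ x : R3, uq f h q (x, v)‖ₑ ≤
        ∫⁻ w, ‖uq f h q w‖ₑ := by
      intro q
      have hm : Measurable (fun w : R3 × R4 × R3 => ‖uq f h q w‖ₑ) := (tq_coord f hh q).1.enorm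
      calc ∫⁻ v : R4 × R3, ‖∫ x : R3, uq f h q (x, v)‖ₑ
          ≤ ∫⁻ v : R4 × R3, ∫⁻ x : R3, ‖uq f h q (x, v)‖ₑ :=
            lintegral_mono fun v => enorm_integral_le_lintegral_enorm _
        _ = ∫⁻ w, ‖uq f h q w‖ₑ := by
            rw [Measure.volume_eq_prod R3 (R4 × R3), lintegral_prod_symm' _ hm]
    refine ne_top_of_le_ne_top (uq_sum f hh) (le_trans (ENNReal.tsum_le_tsum fun q => h3 q)
      (ENNReal.tsum_comp_le_tsum_of_injective Subtype.val_injective
        (fun q : GaN N ⧸ PN N => ∫⁻ w, ‖uq f h q w‖ₑ)))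


end

end Pool.Agent.NN

namespace Pool.Agent.NN

theorem part1 : type_of% @part1_pr := @part1_pr

end Pool.Agent.NN
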