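import Pool.Agent.Lib_helper32.NN.Dfs2

/-!
# Rational symmetric matrices modulo translations
-/

namespace Pool.Agent.NN

open Complex MeasureTheory Filter Topology UpperHalfPlane Matrix

theorem q3e_inj {M : ℚ} (hM : 0 < M) {x y : ℚ} {s t : ℤ} (hx : 0 ≤ x) (hx' : x < M)
    (hy : 0 ≤ y) (hy' : y < M) (h : x + M * s = y + M * t) : x = y ∧ s = t := by
  have h1 : M * ((s : ℚ) - t) < M := by linarith
  have h2 : -M < M * ((s : ℚ) - t) := by linarith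
  have h3 : (s : ℚ) - t < 1 := by
    by_contra hc
    push Not at hc
    nlinarith
  have h4 : -1 < (s : ℚ) - t := by
    by_contra hc
    push Not at hc
    nlinarith
  have h5 : s - t < 1 := by exact_mod_cast h3
  have h6 : -1 < s - t := by exact_mod_cast h4
  have h7 : s = t := by omega
  subst h7
  exact ⟨by linarith, rfl⟩

theorem q3e_floor {M : ℚ} (hM : 0 < M) (x : ℚ) :
    0 ≤ x - M * (⌊x / M⌋ : ℤ) ∧ x - M * (⌊x / M⌋ : ℤ) < M := by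
  have h1 : ((⌊x / M⌋ : ℤ) : ℚ) ≤ x / M := Int.floor_le _
  have h2 : x / M < ((⌊x / M⌋ : ℤ) : ℚ) + 1 := Int.lt_floor_add_one _
  have e : x = M * (x / M) := by field_simp
  constructor
  · have : M * ((⌊x / M⌋ : ℤ) : ℚ) ≤ M * (x / M) := mul_le_mul_of_nonneg_left h1 hM.le
    linarith
  · have : M * (x / M) < M * (((⌊x / M⌋ : ℤ) : ℚ) + 1) := mul_lt_mul_of_pos_left h2 hM
    linarith

/-- Q3E. rational symmetric matrices modulo translations -/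
theorem q3_equiv_pr (N : ℕ) [hN : Fact N.Prime] :
    ∃ E : {r : Q3 // bxq N r} × (ℤ × ℤ × ℤ) ≃ Q3, ∀ p,
    E p = (p.1.1.1 + p.2.1, p.1.1.2.1 + N * p.2.2.1, p.1.1.2.2 + N * p.2.2.2) := by
  have hM : (0 : ℚ) < (N : ℚ) := by exact_mod_cast hN.out.pos
  refine ⟨Equiv.ofBijective (fun p : {r : Q3 // bxq N r} × (ℤ × ℤ × ℤ) =>
    ((p.1.1.1 + p.2.1, p.1.1.2.1 + N * p.2.2.1, p.1.1.2.2 + N * p.2.2.2) : Q3)) ⟨?_, ?_⟩, ?_⟩
  · rintro ⟨⟨⟨a, b, c⟩, ⟨ha, ha'⟩, ⟨hb, hb'⟩, hc, hc'⟩, s, t, u⟩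
      ⟨⟨⟨a1, b1, c1⟩, ⟨ha1, ha1'⟩, ⟨hb1, hb1'⟩, hc1, hc1'⟩, s1, t1, u1⟩ h
    simp only [Prod.mk.injEq] at h
    obtain ⟨h1, h2, h3⟩ := h
    have e1 := q3e_inj (M := 1) one_pos (s := s) (t := s1) ha ha' ha1 ha1'
      (by rw [one_mul, one_mul]; exact h1)
    have e2 := q3e_inj hM hb hb' hb1 hb1' h2
    have e3 := q3e_inj hM hc hc' hc1 hc1' h3
    obtain ⟨rfl, rfl⟩ := e1
    obtain ⟨rfl, rfl⟩ := e2
    obtain ⟨rfl, rfl⟩ := e3
    rfl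
  · rintro ⟨a, b, c⟩
    have h1 := q3e_floor (M := 1) one_pos a
    have h2 := q3e_floor hM b
    have h3 := q3e_floor hM c
    refine ⟨(⟨(a - 1 * (⌊a / 1⌋ : ℤ), b - N * (⌊b / N⌋ : ℤ), c - N * (⌊c / N⌋ : ℤ)),
      h1, h2, h3⟩, (⌊a / 1⌋, ⌊b / N⌋, ⌊c / N⌋)), ?_⟩
    simp only [Prod.mk.injEq]
    refine ⟨by ring, by ring, by ring⟩
  · intro p
    rfl


end Pool.Agent.NN

namespace Pool.Agent.NN

theorem q3_equiv : type_of% @q3_equiv_pr := @q3_equiv_pr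

end Pool.Agent.NN
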