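import Pool.Agent.Lib_helper32.NN.Dfs2
import Pool.Agent.Lib_helper32.NNF.BLK
import Pool.Agent.Lib_helper32.NNF.CRP

/-!
# NN block RK2 (helper12): the cosets of rank two
-/

namespace Pool.Agent.NN

open Complex MeasureTheory Filter Topology UpperHalfPlane Matrix
open scoped MatrixGroups ENNReal ComplexConjugate
open Pool.Agent.LEV (S2 co IsNew Lh)

theorem rk2_sy_tr (x : R3) : (sy x)ᵀ = sy x := by
  ext i j
  fin_cases i <;> fin_cases j <;> rfl

theorem rk2_sy_inj {r s : Q3} (h : sy (qr r) = sy (qr s)) : r = s := by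
  have h0 : ((r.1 : ℝ)) = s.1 := congrFun (congrFun h 0) 0
  have h1 : ((r.2.1 : ℝ)) = s.2.1 := congrFun (congrFun h 0) 1
  have h2 : ((r.2.2 : ℝ)) = s.2.2 := congrFun (congrFun h 1) 1
  ext
  · exact_mod_cast h0
  · exact_mod_cast h1
  · exact_mod_cast h2

/-- the determinant of an element of the order is an integer -/
theorem rk2_det {N : ℕ} {x : M2} (hx : x ∈ OO N) : ∃ k : ℤ, x.det = k := by
  obtain ⟨a, b, c, d, rfl⟩ := hx
  refine ⟨a * d - b * (N * c), ?_⟩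
  rw [Matrix.det_fin_two_of]
  push_cast
  ring

theorem rk2_sm (b : Bool) (N : ℕ) : sm b ∈ OO N ∧ sm b * sm b = 1 ∧ sm b * PP N = PP N * sm b := by
  cases b
  · refine ⟨⟨-1, 0, 0, 1, ?_⟩, ?_, ?_⟩
    · ext i j
      fin_cases i <;> fin_cases j <;> simp [sm]
    · ext i j
      fin_cases i <;> fin_cases j <;> simp [sm]
    · ext i j
      fin_cases i <;> fin_cases j <;> simp [sm, PP]
  · refine ⟨oo_one, ?_, ?_⟩
    · simp [sm]
    · simp [sm]

theorem rk2_sm_det : (sm true).det = 1 ∧ (sm false).det = -1 := by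
  constructor
  · simp [sm]
  · simp [sm, Matrix.det_fin_two_of]

section
variable (N : ℕ) [hN : Fact N.Prime]

theorem rk2_PI_det : (PI N).det ≠ 0 ∧ (PP N).det ≠ 0 := by
  have h : (N : ℝ) ≠ 0 := by exact_mod_cast hN.out.ne_zero
  constructor
  · simp [PI, Matrix.det_fin_two_of, h]
  · simp [PP, Matrix.det_fin_two_of, h]

/-- blocks of `g g⁻¹ = 1` and `g⁻¹ g = 1` -/
theorem rk2_blocks (g : GaN N) :
    (mt N g).toBlocks₂₁ * (mt N g).toBlocks₂₂ᵀ = (mt N g).toBlocks₂₂ * (mt N g).toBlocks₂₁ᵀ ∧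
    (mt N g).toBlocks₂₂ * (mt N g).toBlocks₁₁ᵀ - (mt N g).toBlocks₂₁ * (mt N g).toBlocks₁₂ᵀ = 1 ∧
    (mt N g).toBlocks₁₁ᵀ * (mt N g).toBlocks₂₁ = (mt N g).toBlocks₂₁ᵀ * (mt N g).toBlocks₁₁ ∧
    (mt N g).toBlocks₂₂ᵀ * (mt N g).toBlocks₁₁ - (mt N g).toBlocks₁₂ᵀ * (mt N g).toBlocks₂₁ = 1 := by
  have h1 : ((g : Sp) : M4) * (((g : Sp)⁻¹ : Sp) : M4) = 1 := by
    have : ((g : Sp) * (g : Sp)⁻¹ : Sp) = 1 := mul_inv_cancel _
    exact congrArg (fun x : Sp => (x : M4)) this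
  have h2 : (((g : Sp)⁻¹ : Sp) : M4) * ((g : Sp) : M4) = 1 := by
    have : ((g : Sp)⁻¹ * (g : Sp) : Sp) = 1 := inv_mul_cancel _
    exact congrArg (fun x : Sp => (x : M4)) this
  rw [bl_inv, bl_mul, ← fromBlocks_one] at h1 h2
  simp only [toBlocks_fromBlocks₁₁, toBlocks_fromBlocks₁₂, toBlocks_fromBlocks₂₁,
    toBlocks_fromBlocks₂₂, fromBlocks_inj] at h1 h2
  obtain ⟨-, -, h3, h4⟩ := h1
  obtain ⟨h5, -, h7, -⟩ := h2
  unfold mt
  refine ⟨?_, ?_, ?_, ?_⟩
  · rw [Matrix.mul_neg, ← sub_eq_add_neg, sub_eq_zero] at h3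
    exact h3
  · rw [← h4, Matrix.mul_neg]
    abel
  · rw [Matrix.neg_mul, neg_add_eq_sub, sub_eq_zero] at h7
    exact h7
  · rw [← h5, Matrix.neg_mul]
    abel

theorem rk2_cb (x : M4) : x.toBlocks₂₁ = PI N * cb N x ∧ x.toBlocks₂₂ = PI N * db N x := by
  have h := pi_mul_pp (N := N) hN.out.ne_zero
  constructor
  · unfold cb
    rw [← Matrix.mul_assoc, h, Matrix.one_mul]
  · unfold db
    rw [← Matrix.mul_assoc, h, Matrix.one_mul]

/-- rationality -/
theorem rk2_rat (g : GaN N) (hg : (cb N (mt N g)).det ≠ 0) :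
    ∃ r : Q3, db N (mt N g) = cb N (mt N g) * sy (qr r) := by
  obtain ⟨h1, h2, h3⟩ := gan_rel N g
  set C := cb N (mt N g) with hC
  set D := db N (mt N g) with hD
  have hu : IsUnit C.det := isUnit_iff_ne_zero.2 hg
  have hR : C * (C⁻¹ * D) = D := by
    rw [← Matrix.mul_assoc, Matrix.mul_nonsing_inv C hu, Matrix.one_mul]
  have hsym : (C⁻¹ * D)ᵀ = C⁻¹ * D := by
    have e1 : C * (C⁻¹ * D)ᵀ * Cᵀ = C * (C⁻¹ * D) * Cᵀ := by
      rw [hR, Matrix.mul_assoc, ← Matrix.transpose_mul, hR, h3]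
    have hut : IsUnit (Cᵀ).det := by rwa [Matrix.det_transpose]
    have e2 : C * (C⁻¹ * D)ᵀ = C * (C⁻¹ * D) := by
      have := congrArg (fun M => M * (Cᵀ)⁻¹) e1
      simp only [Matrix.mul_assoc, Matrix.mul_nonsing_inv _ hut, Matrix.mul_one] at this
      simpa only [Matrix.mul_assoc] using this
    have := congrArg (fun M => C⁻¹ * M) e2
    simp only [← Matrix.mul_assoc, Matrix.nonsing_inv_mul _ hu, Matrix.one_mul] at this
    simpa only [Matrix.mul_assoc] using this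
  obtain ⟨a, b, c, d, hCe⟩ := h1
  obtain ⟨a', b', c', d', hDe⟩ := h2
  have hDe' : D = !![(a' : ℝ), (b' : ℝ) * N; (N : ℝ) * (c' : ℝ), (d' : ℝ) * N] := by
    have : D = D * PI N * PP N := by
      rw [Matrix.mul_assoc, pi_mul_pp hN.out.ne_zero, Matrix.mul_one]
    rw [this, hDe]
    ext i j
    fin_cases i <;> fin_cases j <;> simp [PP]
  refine ⟨((d * a' - b * (N * c')) / (a * d - b * (N * c)),
    (d * (b' * N) - b * (d' * N)) / (a * d - b * (N * c)),
    (-(N * c) * (b' * N) + a * (d' * N)) / (a * d - b * (N * c))), ?_⟩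
  have hdet : C.det = a * d - b * (N * c) := by
    rw [hCe, Matrix.det_fin_two_of]
  have key : C⁻¹ * D = sy (qr ((d * a' - b * (N * c')) / (a * d - b * (N * c)),
      (d * (b' * N) - b * (d' * N)) / (a * d - b * (N * c)),
      (-(N * c) * (b' * N) + a * (d' * N)) / (a * d - b * (N * c)))) := by
    have h10 : (C⁻¹ * D) 1 0 = (C⁻¹ * D) 0 1 := by
      conv_lhs => rw [← hsym]
      rfl
    have hinv : C⁻¹ = (C.det)⁻¹ • !![(d : ℝ), -(b : ℝ); -((N : ℝ) * c), (a : ℝ)] := by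
      rw [Matrix.inv_def, Ring.inverse_eq_inv', hCe, Matrix.adjugate_fin_two_of]
    have e00 : (C⁻¹ * D) 0 0 = (d * a' - b * (N * c')) / (a * d - b * (N * c)) := by
      rw [hinv, hdet, hDe']
      simp [Matrix.mul_apply, Fin.sum_univ_two]
      ring
    have e01 : (C⁻¹ * D) 0 1 = (d * (b' * N) - b * (d' * N)) / (a * d - b * (N * c)) := by
      rw [hinv, hdet, hDe']
      simp [Matrix.mul_apply, Fin.sum_univ_two]
      ring
    have e11 : (C⁻¹ * D) 1 1 = (-(N * c) * (b' * N) + a * (d' * N)) / (a * d - b * (N * c)) := by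
      rw [hinv, hdet, hDe']
      simp [Matrix.mul_apply, Fin.sum_univ_two]
      ring
    ext i j
    fin_cases i <;> fin_cases j
    · show (C⁻¹ * D) 0 0 = _
      rw [e00]
      simp [sy, qr]
    · show (C⁻¹ * D) 0 1 = _
      rw [e01]
      simp [sy, qr]
    · show (C⁻¹ * D) 1 0 = _
      rw [h10, e01]
      simp [sy, qr]
    · show (C⁻¹ * D) 1 1 = _
      rw [e11]
      simp [sy, qr]
  rw [← key, hR]

/-- the lower left block is a generator -/
theorem rk2_gen (g : GaN N) (r : Q3) (h : db N (mt N g) = cb N (mt N g) * sy (qr r)) (X : M2)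
    (hX : X ∈ OO N) (hX2 : X * sy (qr r) * PI N ∈ OO N) : ∃ G ∈ OO N, X = G * cb N (mt N g) := by
  obtain ⟨b1, b2, b3, b4⟩ := rk2_blocks N g
  obtain ⟨c1, c2⟩ := rk2_cb N (mt N g)
  have hg : inG N (mt N g) := g.2
  obtain ⟨g1, g2, g3, g4⟩ := hg
  have hpp := pp_mul_pi (N := N) hN.out.ne_zero
  have hpi := pi_mul_pp (N := N) hN.out.ne_zero
  set A := (mt N g).toBlocks₁₁ with hA
  set B := (mt N g).toBlocks₁₂ with hB
  set C := (mt N g).toBlocks₂₁ with hC
  set D := (mt N g).toBlocks₂₂ with hD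
  set R := sy (qr r) with hR
  have hRt : Rᵀ = R := rk2_sy_tr _
  have hIt : (PI N)ᵀ = PI N := by
    ext i j; fin_cases i <;> fin_cases j <;> simp [PI]
  have hDR : D = C * R := by
    rw [c2, h, c1, Matrix.mul_assoc]
  have hDt : Dᵀ = R * Cᵀ := by
    rw [hDR, Matrix.transpose_mul, hRt]
  refine ⟨X * R * Aᵀ * PI N - X * Bᵀ * PI N, ?_, ?_⟩
  · have e1 : X * R * Aᵀ * PI N = (X * R * PI N) * (PP N * Aᵀ * PI N) := by
      rw [Matrix.mul_assoc (X * R) (PI N), ← Matrix.mul_assoc (PI N), ← Matrix.mul_assoc (PI N),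
        hpi, Matrix.one_mul, Matrix.mul_assoc (X * R)]
    have e2 : X * Bᵀ * PI N = X * (PP N * (B * PI N)ᵀ * PI N) := by
      rw [Matrix.transpose_mul, hIt, ← Matrix.mul_assoc (PP N), hpp, Matrix.one_mul,
        Matrix.mul_assoc]
    rw [e1, e2, sub_eq_add_neg]
    exact oo_add (oo_mul hX2 (oo_sigma hN.out.ne_zero g1))
      (oo_neg (oo_mul hX (oo_sigma hN.out.ne_zero g2)))
  · have e3 : (X * R * Aᵀ * PI N - X * Bᵀ * PI N) * cb N (mt N g) =
        X * (R * (Aᵀ * C) - Bᵀ * C) := by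
      rw [Matrix.sub_mul, Matrix.mul_assoc _ (PI N), ← c1, Matrix.mul_assoc _ (PI N), ← c1,
        Matrix.mul_sub]
      simp only [Matrix.mul_assoc]
    rw [e3, b3, ← Matrix.mul_assoc R, ← hDt, b4, Matrix.mul_one]

/-- comparison with the chosen denominator -/
theorem rk2_unit (g : GaN N) (r : Q3) (h : db N (mt N g) = cb N (mt N g) * sy (qr r))
    (hg : (cb N (mt N g)).det ≠ 0) : ∃ u ∈ G0m N,
      cb N (mt N g) = u * (sm (decide (0 < (cb N (mt N g)).det)) * cr N r) ∧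
      db N (mt N g) = u * (sm (decide (0 < (cb N (mt N g)).det)) * cr N r * sy (qr r)) := by
  obtain ⟨⟨p1, p2, p3, p4⟩, -⟩ := cr_prim N r
  have hg' : inG N (mt N g) := g.2
  obtain ⟨g1, g2, g3, g4⟩ := hg'
  -- `C = G₁ cr`, `cr = G₂ C`
  obtain ⟨G1, hG1, e1⟩ := p4 _ g3 (by rw [← h]; exact g4)
  obtain ⟨G2, hG2, e2⟩ := rk2_gen N g r h _ p1 p3
  obtain ⟨k1, hk1⟩ := rk2_det hG1
  obtain ⟨k2, hk2⟩ := rk2_det hG2
  have d1 : (cb N (mt N g)).det = k1 * (cr N r).det := by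
    rw [← hk1, ← Matrix.det_mul, ← e1]
  have d2 : (cr N r).det = k2 * (cb N (mt N g)).det := by
    rw [← hk2, ← Matrix.det_mul, ← e2]
  have hk : k1 * k2 = 1 := by
    have : (k1 : ℝ) * k2 * (cb N (mt N g)).det = 1 * (cb N (mt N g)).det := by
      rw [one_mul, mul_assoc, ← d2, ← d1]
    have := mul_right_cancel₀ hg this
    exact_mod_cast this
  have hu : ∃ u ∈ G0m N, cb N (mt N g) =
      u * (sm (decide (0 < (cb N (mt N g)).det)) * cr N r) := by
    rcases Int.isUnit_iff.1 (IsUnit.of_mul_eq_one _ hk) with hk1' | hk1'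
    · have hpos : 0 < (cb N (mt N g)).det := by
        rw [d1, hk1']
        simpa using p2
      refine ⟨G1, ⟨hG1, by rw [hk1, hk1']; simp⟩, ?_⟩
      rw [decide_eq_true hpos]
      simp only [sm, if_true, Matrix.one_mul]
      exact e1
    · have hneg : ¬ 0 < (cb N (mt N g)).det := by
        rw [d1, hk1']
        push_cast
        linarith
      obtain ⟨s1, s2, -⟩ := rk2_sm false N
      refine ⟨G1 * sm false, ⟨oo_mul hG1 s1, ?_⟩, ?_⟩
      · rw [Matrix.det_mul, hk1, hk1', rk2_sm_det.2]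
        norm_num
      · rw [decide_eq_false hneg, Matrix.mul_assoc, ← Matrix.mul_assoc (sm false), s2,
          Matrix.one_mul]
        exact e1
  obtain ⟨u, hu1, hu2⟩ := hu
  refine ⟨u, hu1, hu2, ?_⟩
  rw [← Matrix.mul_assoc u, ← hu2, h]

/-- equality of cosets -/
theorem rk2_same (g1 g2 : GaN N) (u : M2) (hu : u.det = 1)
    (hc : cb N (mt N g2) = u * cb N (mt N g1)) (hd : db N (mt N g2) = u * db N (mt N g1)) :
    g2 * g1⁻¹ ∈ PN N := by
  obtain ⟨b1, b2, b3, b4⟩ := rk2_blocks N g1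
  obtain ⟨c1, c2⟩ := rk2_cb N (mt N g1)
  obtain ⟨c1', c2'⟩ := rk2_cb N (mt N g2)
  have hpp := pp_mul_pi (N := N) hN.out.ne_zero
  have hpi := pi_mul_pp (N := N) hN.out.ne_zero
  have f1 : (mt N g2).toBlocks₂₁ = PI N * u * PP N * (mt N g1).toBlocks₂₁ := by
    rw [c1', hc, c1, Matrix.mul_assoc (PI N * u), ← Matrix.mul_assoc (PP N), hpp, Matrix.one_mul,
      Matrix.mul_assoc]
  have f2 : (mt N g2).toBlocks₂₂ = PI N * u * PP N * (mt N g1).toBlocks₂₂ := by
    rw [c2', hd, c2, Matrix.mul_assoc (PI N * u), ← Matrix.mul_assoc (PP N), hpp, Matrix.one_mul,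
      Matrix.mul_assoc]
  have e : mt N (g2 * g1⁻¹) = mt N g2 * (((g1 : Sp)⁻¹ : Sp) : M4) := rfl
  have hdet : (PI N * u * PP N).det = 1 := by
    rw [Matrix.det_mul, Matrix.det_mul, hu, mul_one, ← Matrix.det_mul, hpi, Matrix.det_one]
  refine ⟨?_, ?_⟩
  · rw [e, bl_inv, bl_mul]
    simp only [toBlocks_fromBlocks₁₁, toBlocks_fromBlocks₁₂, toBlocks_fromBlocks₂₁,
      toBlocks_fromBlocks₂₂]
    rw [f1, f2, Matrix.mul_neg, Matrix.mul_assoc (PI N * u * PP N),
      Matrix.mul_assoc (PI N * u * PP N)]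
    have b1' : (mt N g1).toBlocks₂₁ * (((g1 : Sp) : M4).toBlocks₂₂)ᵀ =
      (mt N g1).toBlocks₂₂ * (((g1 : Sp) : M4).toBlocks₂₁)ᵀ := b1
    rw [b1', add_neg_cancel]
  · rw [e, bl_inv, bl_mul]
    simp only [toBlocks_fromBlocks₁₁, toBlocks_fromBlocks₁₂, toBlocks_fromBlocks₂₁,
      toBlocks_fromBlocks₂₂]
    rw [f1, f2, Matrix.mul_neg, Matrix.mul_assoc (PI N * u * PP N),
      Matrix.mul_assoc (PI N * u * PP N), neg_add_eq_sub, ← Matrix.mul_sub]
    have b2' : (mt N g1).toBlocks₂₂ * (((g1 : Sp) : M4).toBlocks₁₁)ᵀ -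
      (mt N g1).toBlocks₂₁ * (((g1 : Sp) : M4).toBlocks₁₂)ᵀ = 1 := b2
    rw [b2', Matrix.mul_one, hdet]

/-- the representative of a coset -/
theorem rk2_rep (g : GaN N) : ∃ u ∈ G0m N,
    cq N ((g⁻¹ : GaN N) : GaN N ⧸ PN N) = u * cb N (mt N g) ∧
    dq N ((g⁻¹ : GaN N) : GaN N ⧸ PN N) = u * db N (mt N g) := by
  set q : GaN N ⧸ PN N := ((g⁻¹ : GaN N) : GaN N ⧸ PN N) with hq
  have h1 : ((Quotient.out q : GaN N) : GaN N ⧸ PN N) = ((g⁻¹ : GaN N) : GaN N ⧸ PN N) :=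
    QuotientGroup.out_eq' q
  rw [QuotientGroup.eq] at h1
  -- `p = (out q)⁻¹ g⁻¹`
  obtain ⟨p, hp⟩ : ∃ p : GaN N, p = (Quotient.out q)⁻¹ * g⁻¹ := ⟨_, rfl⟩
  rw [← hp] at h1
  have h2 : rp N q = p * g := by
    rw [hp]
    unfold rp
    group
  have hpG : inG N (mt N p) := p.2
  obtain ⟨p1, p2⟩ := h1
  obtain ⟨g1, g2, g3, g4⟩ := hpG
  have e1 : mt N (rp N q) = act N p (mt N g) := by
    rw [h2]; rfl
  have hpi := pi_mul_pp (N := N) hN.out.ne_zero
  have c0 : cb N (mt N p) = 0 := by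
    unfold cb
    rw [p1, Matrix.mul_zero]
  obtain ⟨c1, c2⟩ := rk2_cb N (mt N g)
  refine ⟨db N (mt N p) * PI N, ⟨g4, ?_⟩, ?_, ?_⟩
  · unfold db
    rw [Matrix.det_mul, Matrix.det_mul, p2, mul_one, ← Matrix.det_mul,
      pp_mul_pi hN.out.ne_zero, Matrix.det_one]
  · unfold cq
    rw [e1, (cb_act N p (mt N g)).1, c0, Matrix.zero_mul, zero_add, c1, Matrix.mul_assoc]
  · unfold dq
    rw [e1, (cb_act N p (mt N g)).2, c0, Matrix.zero_mul, zero_add, c2, Matrix.mul_assoc]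

/-- the diagonal sign matrix in the group -/
theorem rk2_msm : ∃ s : GaN N, mt N s = fromBlocks (sm false) 0 0 (sm false) := by
  have hs : fromBlocks (sm false) 0 0 (sm false) ∈ Matrix.symplecticGroup (Fin 2) ℝ := by
    have ht : (sm false)ᵀ = sm false := by
      ext i j
      fin_cases i <;> fin_cases j <;> simp [sm]
    rw [SymplecticGroup.mem_iff, fromBlocks_transpose, Matrix.J, fromBlocks_multiply,
      fromBlocks_multiply, ht]
    simp [(rk2_sm false N).2.1]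
  have hG : inG N (fromBlocks (sm false) 0 0 (sm false)) := by
    refine ⟨?_, ?_, ?_, ?_⟩
    · rw [toBlocks_fromBlocks₁₁]
      exact (rk2_sm false N).1
    · rw [toBlocks_fromBlocks₁₂, Matrix.zero_mul]
      exact oo_zero
    · unfold cb
      rw [toBlocks_fromBlocks₂₁, Matrix.mul_zero]
      exact oo_zero
    · unfold db
      rw [toBlocks_fromBlocks₂₂, ← (rk2_sm false N).2.2, Matrix.mul_assoc,
        pp_mul_pi hN.out.ne_zero, Matrix.mul_one]
      exact (rk2_sm false N).1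
  exact ⟨⟨⟨_, hs⟩, hG⟩, rfl⟩

theorem rk2_ex (r : Q3) (b : Bool) : ∃ g : GaN N, cb N (mt N g) = sm b * cr N r ∧
    db N (mt N g) = sm b * cr N r * sy (qr r) := by
  obtain ⟨-, g, h1, h2⟩ := cr_prim N r
  cases b
  · obtain ⟨s, hs⟩ := rk2_msm N
    refine ⟨s * g, ?_, ?_⟩
    · have e : mt N (s * g) = act N s (mt N g) := rfl
      obtain ⟨c1, c2⟩ := rk2_cb N (mt N g)
      rw [e, (cb_act N s (mt N g)).1, hs]
      unfold cb db at *
      rw [toBlocks_fromBlocks₂₁, toBlocks_fromBlocks₂₂, Matrix.mul_zero, Matrix.zero_mul, zero_add,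
        ← (rk2_sm false N).2.2, Matrix.mul_assoc, h1]
    · have e : mt N (s * g) = act N s (mt N g) := rfl
      rw [e, (cb_act N s (mt N g)).2, hs]
      unfold cb db at *
      rw [toBlocks_fromBlocks₂₁, toBlocks_fromBlocks₂₂, Matrix.mul_zero, Matrix.zero_mul, zero_add,
        ← (rk2_sm false N).2.2, Matrix.mul_assoc, h2, Matrix.mul_assoc]
  · refine ⟨g, ?_, ?_⟩
    · simp only [sm, if_true, Matrix.one_mul]
      exact h1
    · simp only [sm, if_true, Matrix.one_mul]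
      exact h2

theorem rk2_equiv_pr : ∃ E : {q : GaN N ⧸ PN N // (cq N q).det ≠ 0} ≃ Q3 × Bool,
    ∀ q : {q : GaN N ⧸ PN N // (cq N q).det ≠ 0}, ∃ u ∈ G0m N,
      cq N (q : GaN N ⧸ PN N) = u * (sm (E q).2 * cr N (E q).1) ∧
      dq N (q : GaN N ⧸ PN N) = u * (sm (E q).2 * cr N (E q).1 * sy (qr (E q).1)) := by
  classical
  have hex : ∀ q : {q : GaN N ⧸ PN N // (cq N q).det ≠ 0}, ∃ r : Q3,
      dq N (q : GaN N ⧸ PN N) = cq N (q : GaN N ⧸ PN N) * sy (qr r) := fun q =>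
    rk2_rat N (rp N (q : GaN N ⧸ PN N)) q.2
  choose r hr using hex
  obtain ⟨e, he⟩ : ∃ e : {q : GaN N ⧸ PN N // (cq N q).det ≠ 0} → Q3 × Bool,
      e = fun q => (r q, decide (0 < (cq N (q : GaN N ⧸ PN N)).det)) := ⟨_, rfl⟩
  have hspec : ∀ q : {q : GaN N ⧸ PN N // (cq N q).det ≠ 0}, ∃ u ∈ G0m N,
      cq N (q : GaN N ⧸ PN N) = u * (sm (e q).2 * cr N (e q).1) ∧
      dq N (q : GaN N ⧸ PN N) = u * (sm (e q).2 * cr N (e q).1 * sy (qr (e q).1)) := by
    intro q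
    rw [he]
    exact rk2_unit N (rp N (q : GaN N ⧸ PN N)) (r q) (hr q) q.2
  have hbij : Function.Bijective e := by
    constructor
    · intro q1 q2 h12
      obtain ⟨u1, hu1, a1, a2⟩ := hspec q1
      obtain ⟨u2, hu2, a3, a4⟩ := hspec q2
      rw [← h12] at a3 a4
      have hd1 : IsUnit u1.det := by rw [hu1.2]; exact isUnit_one
      have b1 : cq N (q2 : GaN N ⧸ PN N) = (u2 * u1⁻¹) * cq N (q1 : GaN N ⧸ PN N) := by
        rw [a1, a3, Matrix.mul_assoc u2, ← Matrix.mul_assoc u1⁻¹, Matrix.nonsing_inv_mul _ hd1,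
          Matrix.one_mul]
      have b2 : dq N (q2 : GaN N ⧸ PN N) = (u2 * u1⁻¹) * dq N (q1 : GaN N ⧸ PN N) := by
        rw [a2, a4, Matrix.mul_assoc u2 u1⁻¹, ← Matrix.mul_assoc u1⁻¹, Matrix.nonsing_inv_mul _ hd1,
          Matrix.one_mul]
      have hdet : (u2 * u1⁻¹).det = 1 := by
        rw [Matrix.det_mul, Matrix.det_nonsing_inv, hu1.2, hu2.2]
        simp
      have h := rk2_same N (rp N (q1 : GaN N ⧸ PN N)) (rp N (q2 : GaN N ⧸ PN N)) _ hdet b1 b2
      have h' : (Quotient.out (q2 : GaN N ⧸ PN N))⁻¹ * Quotient.out (q1 : GaN N ⧸ PN N) ∈ PN N := by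
        have e : rp N (q2 : GaN N ⧸ PN N) * (rp N (q1 : GaN N ⧸ PN N))⁻¹ =
            (Quotient.out (q2 : GaN N ⧸ PN N))⁻¹ * Quotient.out (q1 : GaN N ⧸ PN N) := by
          unfold rp
          rw [inv_inv]
        rwa [e] at h
      rw [← QuotientGroup.eq] at h'
      have o1 : ((Quotient.out (q1 : GaN N ⧸ PN N) : GaN N) : GaN N ⧸ PN N) = q1 :=
        QuotientGroup.out_eq' _
      have o2 : ((Quotient.out (q2 : GaN N ⧸ PN N) : GaN N) : GaN N ⧸ PN N) = q2 :=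
        QuotientGroup.out_eq' _
      rw [o1, o2] at h'
      exact Subtype.ext h'.symm
    · rintro ⟨s, b⟩
      obtain ⟨g, g1, g2⟩ := rk2_ex N s b
      obtain ⟨u, hu, a1, a2⟩ := rk2_rep N g
      obtain ⟨⟨p1, p2, p3, p4⟩, -⟩ := cr_prim N s
      have hdet : (cq N ((g⁻¹ : GaN N) : GaN N ⧸ PN N)).det = (sm b).det * (cr N s).det := by
        rw [a1, Matrix.det_mul, hu.2, one_mul, g1, Matrix.det_mul]
      have hne : (cq N ((g⁻¹ : GaN N) : GaN N ⧸ PN N)).det ≠ 0 := by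
        rw [hdet]
        cases b
        · rw [rk2_sm_det.2]
          have := p2.ne'
          simpa using this
        · rw [rk2_sm_det.1]
          simpa using p2.ne'
      refine ⟨⟨_, hne⟩, ?_⟩
      rw [he]
      refine Prod.ext ?_ ?_
      · -- the symmetric matrix
        show r ⟨_, hne⟩ = s
        have h1 := hr ⟨_, hne⟩
        simp only at h1
        apply rk2_sy_inj
        have h2 : cq N ((g⁻¹ : GaN N) : GaN N ⧸ PN N) * sy (qr (r ⟨_, hne⟩)) =
            cq N ((g⁻¹ : GaN N) : GaN N ⧸ PN N) * sy (qr s) := by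
          rw [← h1, a2, g2, a1, g1, ← Matrix.mul_assoc u]
        have hun : IsUnit (cq N ((g⁻¹ : GaN N) : GaN N ⧸ PN N)).det := isUnit_iff_ne_zero.2 hne
        have h3 := congrArg (fun M => (cq N ((g⁻¹ : GaN N) : GaN N ⧸ PN N))⁻¹ * M) h2
        simp only [← Matrix.mul_assoc, Matrix.nonsing_inv_mul _ hun, Matrix.one_mul] at h3
        exact h3
      · show decide (0 < (cq N ((g⁻¹ : GaN N) : GaN N ⧸ PN N)).det) = b
        rw [hdet]
        cases b
        · rw [rk2_sm_det.2]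
          apply decide_eq_false
          linarith
        · rw [rk2_sm_det.1]
          apply decide_eq_true
          linarith
  refine ⟨Equiv.ofBijective e hbij, fun q => ?_⟩
  exact hspec q

end

end Pool.Agent.NN

namespace Pool.Agent.NN

theorem rk2_equiv : type_of% @rk2_equiv_pr := @rk2_equiv_pr

end Pool.Agent.NN
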