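import Pool.Agent.Lib_helper32.NN.Dfs2

/-!
# The translates of the box tile
-/

namespace Pool.Agent.NN

open Complex MeasureTheory Filter Topology UpperHalfPlane Matrix

theorem til_inj {M : ℝ} (hM : 0 < M) {x : ℝ} {s t : ℤ} (hx : x - M * s ∈ Set.Ico 0 M)
    (hy : x - M * t ∈ Set.Ico 0 M) : s = t := by
  obtain ⟨h1, h2⟩ := hx
  obtain ⟨h3, h4⟩ := hy
  have h5 : (s : ℝ) - t < 1 := by
    by_contra hc
    push Not at hc
    nlinarith
  have h6 : -1 < (s : ℝ) - t := by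
    by_contra hc
    push Not at hc
    nlinarith
  have h7 : s - t < 1 := by exact_mod_cast h5
  have h8 : -1 < s - t := by exact_mod_cast h6
  omega

theorem til_floor {M : ℝ} (hM : 0 < M) (x : ℝ) : x - M * (⌊x / M⌋ : ℤ) ∈ Set.Ico 0 M := by
  have h1 : ((⌊x / M⌋ : ℤ) : ℝ) ≤ x / M := Int.floor_le _
  have h2 : x / M < ((⌊x / M⌋ : ℤ) : ℝ) + 1 := Int.lt_floor_add_one _
  have e : x = M * (x / M) := by field_simp
  constructor
  · have : M * ((⌊x / M⌋ : ℤ) : ℝ) ≤ M * (x / M) := mul_le_mul_of_nonneg_left h1 hM.le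
    linarith
  · have : M * (x / M) < M * (((⌊x / M⌋ : ℤ) : ℝ) + 1) := mul_lt_mul_of_pos_left h2 hM
    linarith

/-- the translated boxes -/
def til_set (N : ℕ) (ρ : R3) (s : ℤ × ℤ × ℤ) : Set (R3 × R4 × R3) :=
  {w | w.1 - (ρ + lam N s) ∈ bx N}

theorem til_mem (N : ℕ) (ρ : R3) (s : ℤ × ℤ × ℤ) (w : R3 × R4 × R3) :
    w ∈ til_set N ρ s ↔ ((w.1.1 - ρ.1) - 1 * s.1 ∈ Set.Ico (0 : ℝ) 1) ∧
      ((w.1.2.1 - ρ.2.1) - N * s.2.1 ∈ Set.Ico (0 : ℝ) N) ∧
      ((w.1.2.2 - ρ.2.2) - N * s.2.2 ∈ Set.Ico (0 : ℝ) N) := by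
  have e1 : (w.1.1 - ρ.1) - 1 * s.1 = (w.1 - (ρ + lam N s)).1 := by
    simp only [lam, Prod.fst_sub, Prod.fst_add]
    ring
  have e2 : (w.1.2.1 - ρ.2.1) - N * s.2.1 = (w.1 - (ρ + lam N s)).2.1 := by
    simp only [lam, Prod.fst_sub, Prod.fst_add, Prod.snd_sub, Prod.snd_add]
    ring
  have e3 : (w.1.2.2 - ρ.2.2) - N * s.2.2 = (w.1 - (ρ + lam N s)).2.2 := by
    simp only [lam, Prod.snd_sub, Prod.snd_add]
    ring
  rw [e1, e2, e3]
  rfl

theorem til_meas (N : ℕ) (ρ : R3) (s : ℤ × ℤ × ℤ) : MeasurableSet (til_set N ρ s) := by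
  have h1 : MeasurableSet (bx N) :=
    measurableSet_Ico.prod (measurableSet_Ico.prod measurableSet_Ico)
  have h2 : Measurable (fun w : R3 × R4 × R3 => w.1 - (ρ + lam N s)) :=
    measurable_fst.sub_const _
  exact h2 h1

theorem til_disj {N : ℕ} (hN : N ≠ 0) (ρ : R3) :
    Pairwise (Function.onFun Disjoint (til_set N ρ)) := by
  have hM : (0 : ℝ) < (N : ℝ) := by exact_mod_cast Nat.pos_of_ne_zero hN
  intro s t hst
  rw [Function.onFun, Set.disjoint_left]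
  intro w hw hw'
  rw [til_mem] at hw hw'
  apply hst
  obtain ⟨a1, a2, a3⟩ := hw
  obtain ⟨b1, b2, b3⟩ := hw'
  exact Prod.ext (til_inj one_pos a1 b1) (Prod.ext (til_inj hM a2 b2) (til_inj hM a3 b3))

theorem til_union {N : ℕ} (hN : N ≠ 0) (ρ : R3) : ⋃ s, til_set N ρ s = Set.univ := by
  have hM : (0 : ℝ) < (N : ℝ) := by exact_mod_cast Nat.pos_of_ne_zero hN
  rw [Set.eq_univ_iff_forall]
  intro w
  rw [Set.mem_iUnion]
  refine ⟨(⌊(w.1.1 - ρ.1) / 1⌋, ⌊(w.1.2.1 - ρ.2.1) / N⌋, ⌊(w.1.2.2 - ρ.2.2) / N⌋), ?_⟩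
  rw [til_mem]
  exact ⟨til_floor one_pos _, til_floor hM _, til_floor hM _⟩

theorem til_r3 : (volume : Measure R3).IsAddRightInvariant := by
  have h : ((volume : Measure ℝ).prod (volume : Measure (ℝ × ℝ))).IsAddRightInvariant :=
    inferInstance
  exact h

open Classical in
theorem til_term {N : ℕ} (ρ : R3) (Φ : R3 × R4 × R3 → ℂ) (s : ℤ × ℤ × ℤ) :
    ∫ w : R3 × R4 × R3, (if w.1 ∈ bx N then Φ (w.1 + (ρ + lam N s), w.2) else 0) =
      ∫ w in til_set N ρ s, Φ w := by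
  rw [← integral_indicator (til_meas N ρ s)]
  haveI := til_r3
  have hmp : MeasurePreserving ((MeasurableEquiv.addRight (ρ + lam N s)).prodCongr
      (MeasurableEquiv.refl (R4 × R3))) (volume : Measure (R3 × R4 × R3)) volume :=
    (measurePreserving_add_right (volume : Measure R3) (ρ + lam N s)).prod
      (MeasurePreserving.id (volume : Measure (R4 × R3)))
  rw [← hmp.integral_comp' (fun w => (til_set N ρ s).indicator Φ w)]
  congr 1
  funext w
  have e : ((MeasurableEquiv.addRight (ρ + lam N s)).prodCongr (MeasurableEquiv.refl (R4 × R3))) w =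
      (w.1 + (ρ + lam N s), w.2) := rfl
  rw [e]
  by_cases hw : w.1 ∈ bx N
  · have h2 : ((w.1 + (ρ + lam N s), w.2) : R3 × R4 × R3) ∈ til_set N ρ s := by
      show w.1 + (ρ + lam N s) - (ρ + lam N s) ∈ bx N
      rw [add_sub_cancel_right]
      exact hw
    rw [if_pos hw, Set.indicator_of_mem h2]
  · have h2 : ((w.1 + (ρ + lam N s), w.2) : R3 × R4 × R3) ∉ til_set N ρ s := by
      intro h3
      apply hw
      have h4 : w.1 + (ρ + lam N s) - (ρ + lam N s) ∈ bx N := h3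
      rw [add_sub_cancel_right] at h4
      exact h4
    rw [if_neg hw, Set.indicator_of_notMem h2]

open Classical in
/-- TIL. the translates of the box tile -/
theorem til_pr {N : ℕ} (hN : N ≠ 0) (ρ : R3) {Φ : R3 × R4 × R3 → ℂ} (hΦ : Integrable Φ) :
    ∑' s : ℤ × ℤ × ℤ, ∫ w : R3 × R4 × R3,
      (if w.1 ∈ bx N then Φ (w.1 + (ρ + lam N s), w.2) else 0) = ∫ w, Φ w := by
  have h1 : (fun s : ℤ × ℤ × ℤ => ∫ w : R3 × R4 × R3,
      (if w.1 ∈ bx N then Φ (w.1 + (ρ + lam N s), w.2) else 0)) =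
      fun s => ∫ w in til_set N ρ s, Φ w := by
    funext s
    exact til_term ρ Φ s
  rw [h1]
  have h2 := hasSum_integral_iUnion (μ := (volume : Measure (R3 × R4 × R3))) (f := Φ)
    (til_meas N ρ) (til_disj hN ρ) hΦ.integrableOn
  rw [h2.tsum_eq, til_union hN ρ, Measure.restrict_univ]


end Pool.Agent.NN

namespace Pool.Agent.NN

theorem til : type_of% @til_pr := @til_pr

end Pool.Agent.NN
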