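import Pool.Agent.Lib_helper32.NN.Dfs2
import Pool.Agent.Lib_helper32.NNF.BIG
import Pool.Agent.Lib_helper32.NNF.BLK
import Pool.Agent.Lib_helper32.NNF.CRP
import Pool.Agent.Lib_helper32.NNF.FFB
import Pool.Agent.Lib_helper32.NNF.Q3E
import Pool.Agent.Lib_helper32.NNF.RK2
import Pool.Agent.Lib_helper32.NNF.TIL
import Pool.Agent.Lib_helper32.NNF.TQC

/-!
# PT2. the part of rank two as a sum over the rational symmetric matrices in the box
-/

set_option autoImplicit false

namespace Pool.Agent.NN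

open Complex MeasureTheory Filter Topology UpperHalfPlane Matrix
open scoped MatrixGroups ENNReal ComplexConjugate
open Pool.Agent.LEV (S2 co IsNew Lh)

section
variable {N : ℕ} [Fact N.Prime] (f : S2 N)

theorem pt2_sy_add (x y : R3) : sy (x + y) = sy x + sy y := by
  ext i j
  fin_cases i <;> fin_cases j <;> simp [sy]

theorem pt2_det_sm (b : Bool) : (sm b).det = if b then 1 else -1 := by
  cases b <;> simp [sm]

open Classical in
/-- the terms of rank two -/
theorem pt2_uq (h : ℝ → ℝ) (q : GaN N ⧸ PN N) (C : M2) (R : R3) {u : M2} (hu : u ∈ G0m N)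
    (hc : cq N q = u * C) (hd : dq N q = u * (C * sy R)) (w : R3 × R4 × R3) :
    uq f h q w = if w.1 ∈ bx N then bc f h C (w.1 + R, w.2) else 0 := by
  unfold uq bc
  by_cases hw : w.1 ∈ bx N
  · by_cases he : 0 < (ma w.2.1).det
    · rw [if_pos ⟨hw, he⟩, if_pos hw, if_pos he]
      have e0 : FF f h (act N (rp N q) (jj N w)) =
          F0 f h (C * PP N * ((ma w.2.1)⁻¹)ᵀ + C * sy (w.1 + R) * PI N * ma w.2.1 * sy w.2.2)
            (C * sy (w.1 + R) * PI N * ma w.2.1) := by
        obtain ⟨h1, h2⟩ := cb_jj N (rp N q) w.1 w.2.1 w.2.2 he.ne'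
        have hc' : cb N (mt N (rp N q)) = u * C := hc
        have hd' : db N (mt N (rp N q)) = u * (C * sy R) := hd
        rw [hc', hd'] at h1 h2
        unfold FF
        rw [show jj N w = jj N (w.1, w.2.1, w.2.2) from rfl, h1, h2]
        refine Eq.trans ?_ (F0_inv f h hu _ _)
        congr 1
        · rw [pt2_sy_add]
          noncomm_ring
        · rw [pt2_sy_add]
          noncomm_ring
      rw [e0]
      ring
    · rw [if_neg (fun h' => he h'.2), if_pos hw, if_neg he]
      simp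
  · rw [if_neg (fun h' => hw h'.1), if_neg hw]

theorem pt2_summable {h : ℝ → ℝ} (hh : HOK h) :
    Summable (fun q : GaN N ⧸ PN N => ∫ w, uq f h q w) := by
  have h1 := uq_sum f hh
  have h2 : ∀ q : GaN N ⧸ PN N, ‖∫ w, uq f h q w‖ ≤ (∫⁻ w, ‖uq f h q w‖ₑ).toReal := by
    intro q
    have h3 := enorm_integral_le_lintegral_enorm (μ := volume) (fun w => uq f h q w)
    have h4 : ∫⁻ w, ‖uq f h q w‖ₑ ≠ ⊤ := ENNReal.ne_top_of_tsum_ne_top h1 q
    have h5 := ENNReal.toReal_mono h4 h3
    simpa using h5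
  exact Summable.of_norm_bounded (ENNReal.summable_toReal h1) h2

/-- PT2. the part of rank two as a sum over the rational symmetric matrices in the box -/
theorem part2a_pr {h : ℝ → ℝ} (hh : HOK h) :
    ∑' q : {q : GaN N ⧸ PN N // (cq N q).det ≠ 0}, ∫ w, uq f h (q : GaN N ⧸ PN N) w =
      ∑' r : {r : Q3 // bxq N r}, ∫ w, bc f h (cr N r) w ∧
    Summable (fun r : {r : Q3 // bxq N r} => ∫ w, bc f h (cr N r) w) := by
  classical
  obtain ⟨E, hE⟩ := rk2_equiv N
  obtain ⟨E3, hE3⟩ := q3_equiv N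
  have hN0 : N ≠ 0 := (Fact.out : N.Prime).ne_zero
  set e1 : ({r : Q3 // bxq N r} × Bool) × (ℤ × ℤ × ℤ) ≃ {q : GaN N ⧸ PN N // (cq N q).det ≠ 0} :=
    { toFun := fun p => E.symm (E3 (p.1.1, p.2), p.1.2)
      invFun := fun q => (((E3.symm (E q).1).1, (E q).2), (E3.symm (E q).1).2)
      left_inv := fun p => by simp
      right_inv := fun q => by simp } with he1
  set g : ({r : Q3 // bxq N r} × Bool) × (ℤ × ℤ × ℤ) → ℂ :=
    fun p => ∫ w, uq f h ((e1 p : {q : GaN N ⧸ PN N // (cq N q).det ≠ 0}) : GaN N ⧸ PN N) w with hg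
  have hsum : Summable g := by
    have h1 := (pt2_summable f hh).comp_injective
      (Subtype.val_injective (p := fun q : GaN N ⧸ PN N => (cq N q).det ≠ 0))
    exact h1.comp_injective e1.injective
  have hcr : ∀ r : Q3, 0 < (cr N r).det := fun r => (cr_prim N r).1.2.1
  have hdet : ∀ (r : Q3) (b : Bool), (sm b * cr N r).det ≠ 0 := by
    intro r b
    rw [det_mul, pt2_det_sm]
    have := (hcr r).ne'
    cases b <;> simp [this]
  -- the inner sum
  have hin : ∀ rb : {r : Q3 // bxq N r} × Bool, ∑' s, g (rb, s) =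
      ∫ w, bc f h (sm rb.2 * cr N rb.1) w := by
    rintro ⟨r, b⟩
    have h1 := til hN0 (qr (r : Q3)) (big f hh (hdet (r : Q3) b)).1
    rw [← h1]
    apply tsum_congr
    intro s
    simp only [hg]
    congr 1
    funext w
    obtain ⟨u, hu, hc, hd⟩ := hE (e1 ((r, b), s))
    have hEe : E (e1 ((r, b), s)) = (E3 (r, s), b) := by simp [he1]
    rw [hEe, hE3] at hc hd
    simp only at hc hd
    rw [cr_shift] at hc hd
    rw [pt2_uq f h _ (sm b * cr N (r : Q3)) (qr (r : Q3) + lam N s) hu hc (by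
      rw [hd]
      congr 3
      simp [qr, lam])]
  have h2 : ∑' q : {q : GaN N ⧸ PN N // (cq N q).det ≠ 0}, ∫ w, uq f h (q : GaN N ⧸ PN N) w =
      ∑' p, g p := (Equiv.tsum_eq e1 _).symm
  have h3 : Summable (fun rb : {r : Q3 // bxq N r} × Bool =>
      ∫ w, bc f h (sm rb.2 * cr N rb.1) w) := by
    have := hsum.prod
    simpa only [hin] using this
  have h4 : ∑' p, g p = ∑' rb : {r : Q3 // bxq N r} × Bool,
      ∫ w, bc f h (sm rb.2 * cr N rb.1) w := by
    rw [hsum.tsum_prod]
    exact tsum_congr hin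
  have h5 : ∀ r : {r : Q3 // bxq N r}, ∑' b : Bool, ∫ w, bc f h (sm b * cr N (r : Q3)) w =
      ∫ w, bc f h (cr N r) w := by
    intro r
    rw [tsum_bool]
    have e1 : ∫ w, bc f h (sm false * cr N (r : Q3)) w = 0 := by
      rw [(big f hh (hdet (r : Q3) false)).2, if_neg]
      rw [det_mul, pt2_det_sm]
      have := hcr (r : Q3)
      simp only [Bool.false_eq_true, if_false]
      linarith
    rw [e1, zero_add]
    simp [sm]
  have h6 := h3.prod
  simp only [h5] at h6
  refine ⟨?_, h6⟩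
  rw [h2, h4, h3.tsum_prod]
  exact tsum_congr h5

end

end Pool.Agent.NN

namespace Pool.Agent.NN

theorem part2a : type_of% @part2a_pr := @part2a_pr

end Pool.Agent.NN
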