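import Pool.Agent.Lib_helper32.NN.Dfs2
import Pool.Agent.Lib_helper32.NNF.ALA
import Pool.Agent.Lib_helper32.NNF.ALB
import Pool.Agent.Lib_helper32.NNF.BIN

/-!
# NN, block HID: the Hecke identity
-/

namespace Pool.Agent.NN

open Complex MeasureTheory Filter Topology UpperHalfPlane Matrix
open scoped MatrixGroups ENNReal ComplexConjugate
open Pool.Agent.LEV (S2 co IsNew Lh)

/-- complex values -/
noncomputable def hid_c (a : ArithmeticFunction ℝ) : ArithmeticFunction ℂ :=
  ⟨fun n => ((a n : ℝ) : ℂ), by simp⟩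

theorem hid_c_apply (a : ArithmeticFunction ℝ) (n : ℕ) : hid_c a n = ((a n : ℝ) : ℂ) := rfl

theorem hid_c_mul (a b : ArithmeticFunction ℝ) : hid_c a * hid_c b = hid_c (a * b) := by
  ext n
  rw [hid_c_apply, ArithmeticFunction.mul_apply, ArithmeticFunction.mul_apply]
  push_cast
  rfl

theorem hid_c_one : hid_c 1 = 1 := by
  ext n
  rw [hid_c_apply, ArithmeticFunction.one_apply, ArithmeticFunction.one_apply]
  split_ifs <;> simp

section
variable {N : ℕ} [Fact N.Prime] (f : S2 N)

/-- the sums over the box as an arithmetic function -/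
noncomputable def hid_s (g : M2) : ArithmeticFunction ℂ :=
  ⟨fun n => if n = 0 then 0 else ∑ r ∈ RB N n, ph f (cr N r * g), by simp⟩

/-- multiplication by a constant -/
noncomputable def hid_k (a : ArithmeticFunction ℂ) (c : ℂ) : ArithmeticFunction ℂ :=
  ⟨fun n => a n * c, by simp⟩

theorem hid_pr (hf : IsNew f) (h1 : co f N = 1) {n : ℕ} (hn : 0 < n) (g : M2) :
    ∑ r ∈ RB N n, ph f (cr N r * g) = (al f n : ℂ) * ph f g := by
  have e1 : hid_c (af f) * hid_s f g = hid_k (hid_c (Af f)) (ph f g) := by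
    ext m
    rw [ArithmeticFunction.mul_apply]
    rcases Nat.eq_zero_or_pos m with rfl | hm
    · simp
    · have h2 := all_a f hf h1 hm g
      have h3 := all_b f hf h1 hm g
      rw [h2.2] at h3
      have h4 : hid_k (hid_c (Af f)) (ph f g) m = (Af f m : ℂ) * ph f g := rfl
      rw [h4, h3]
      refine Finset.sum_congr rfl fun d hd => ?_
      have hd2 : d.2 ≠ 0 := by
        intro h5
        rw [Nat.mem_divisorsAntidiagonal] at hd
        rw [h5, mul_zero] at hd
        exact hd.2 hd.1.symm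
      have h6 : hid_s f g d.2 = ∑ r ∈ RB N d.2, ph f (cr N r * g) := by
        change (if d.2 = 0 then 0 else ∑ r ∈ RB N d.2, ph f (cr N r * g)) = _
        rw [if_neg hd2]
      have h7 : hid_c (af f) d.1 = co f d.1 := by
        rw [hid_c_apply]
        change (((co f d.1).re : ℝ) : ℂ) = _
        exact Complex.conj_eq_iff_re.1 (Complex.conj_eq_iff_im.2 (LEV.new_real hf d.1))
      rw [h6, h7]
  have e2 : hid_c (bf f) * hid_c (af f) = 1 := by
    rw [hid_c_mul, bf_af f hf, hid_c_one]
  have e3 : hid_s f g = hid_c (bf f) * hid_k (hid_c (Af f)) (ph f g) := by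
    rw [← e1, ← mul_assoc, e2, one_mul]
  have e4 : hid_s f g n = ∑ r ∈ RB N n, ph f (cr N r * g) := by
    change (if n = 0 then 0 else ∑ r ∈ RB N n, ph f (cr N r * g)) = _
    rw [if_neg hn.ne']
  rw [← e4, e3, ArithmeticFunction.mul_apply]
  have e5 : (al f n : ℂ) = ∑ d ∈ n.divisorsAntidiagonal, ((bf f d.1 : ℝ) : ℂ) * ((Af f d.2 : ℝ) : ℂ) := by
    unfold al
    rw [ArithmeticFunction.mul_apply]
    push_cast
    rfl
  rw [e5, Finset.sum_mul]
  refine Finset.sum_congr rfl fun d _ => ?_
  change ((bf f d.1 : ℝ) : ℂ) * (((Af f d.2 : ℝ) : ℂ) * ph f g) = _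
  ring

end


end Pool.Agent.NN

namespace Pool.Agent.NN

theorem hid : type_of% @hid_pr := @hid_pr

end Pool.Agent.NN
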