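import Pool.Agent.Lib_helper32.NN.Dfs2
import Pool.Agent.Lib_helper32.NNF.ALB
import Pool.Agent.Lib_helper32.NNF.BIG
import Pool.Agent.Lib_helper32.NNF.FRI
import Pool.Agent.Lib_helper32.NNF.HID
import Pool.Agent.Lib_helper32.NNF.MMC
import Pool.Agent.Lib_helper32.NNF.PHA
import Pool.Agent.Lib_helper32.NNF.PHM

/-!
# The sum over the denominators of given norm
-/

namespace Pool.Agent.NN

open Complex MeasureTheory Filter Topology UpperHalfPlane Matrix
open scoped MatrixGroups ENNReal ComplexConjugate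
open Pool.Agent.LEV (S2 co IsNew Lh)

section
variable {N : ℕ} [Fact N.Prime] (f : S2 N)

/-- the weight of the cone -/
noncomputable def pt3_k (W : R3) : ℂ :=
  (((kk W * if 0 < dt W then 4 / (dt W ^ 2 * tr W ^ 2) else 0) : ℝ) : ℂ)

theorem pt3_k_eq (W : R3) : pt3_k W = ((4 * kc W : ℝ) : ℂ) := by
  unfold pt3_k kc
  congr 1
  split_ifs
  · ring
  · ring

/-- the integrand of the big cell after integration over `e` and `y` is integrable -/
theorem pt3_int {h : ℝ → ℝ} (hh : HOK h) {C : M2} (hC : C.det ≠ 0) :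
    Integrable (fun W : R3 => pt3_k W * bi f h C W) := by
  have hK := big_K_int f hh hC
  rw [show (volume : Measure (R3 × R4 × R3)) = (volume : Measure R3).prod volume from rfl] at hK
  have hN : (N : ℂ) ^ 3 ≠ 0 := by
    apply pow_ne_zero
    exact_mod_cast (Fact.out : N.Prime).ne_zero
  have h0 := hK.integral_prod_left
  have h1 : (fun W : R3 => ∫ p : R4 × R3, big_K f h C (W, p)) =ᵐ[volume]
      fun W : R3 => (N : ℂ) ^ 3 * (pt3_k W * bi f h C W) := by
    filter_upwards [hK.prod_right_ae] with W hW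
    rw [show (volume : Measure (R4 × R3)) = (volume : Measure R4).prod volume from rfl] at hW ⊢
    rw [integral_prod _ hW]
    simp only [big_inner]
    rw [integral_const_mul]
    unfold pt3_k
    rcases eq_or_ne (dt W) 0 with h0 | h0
    · rw [h0]
      simp
    · rw [big_rot f hh C h0]
      by_cases hp : 0 < dt W
      · rw [if_pos hp, if_pos hp, abs_of_pos hp]
        have e1 : (dt W ^ 3)⁻¹ * kk W * (4 * dt W / tr W ^ 2) =
            kk W * (4 / (dt W ^ 2 * tr W ^ 2)) := by
          rcases eq_or_ne (tr W) 0 with ht | ht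
          · rw [ht]
            simp
          · field_simp
        have e2 := congrArg (fun x : ℝ => (x : ℂ)) e1
        push_cast at e2 ⊢
        linear_combination (N : ℂ) ^ 3 * bi f h C W * e2
      · rw [if_neg hp, if_neg hp]
        simp
  have h2 : Integrable (fun W : R3 => (N : ℂ) ^ 3 * (pt3_k W * bi f h C W)) := h0.congr h1
  have h3 := h2.const_mul ((N : ℂ) ^ 3)⁻¹
  refine h3.congr (ae_of_all _ (fun W => ?_))
  simp only
  rw [← mul_assoc, inv_mul_cancel₀ hN, one_mul]

/-- the integrand of `bi` -/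
noncomputable def pt3_b (h : ℝ → ℝ) (C : M2) (W : R3) (e : R4) : ℂ :=
  if 0 < (ma e).det then conj (ph f (ma e)) * ph f (C * (PP N * cof (ma e))) *
    ((h (ma e).det * h (C.det * N / ((ma e).det * dt W)) *
      (LEV.FUN_psi N (zz (ma e))).toReal / (ma e).det ^ 2 : ℝ) : ℂ) else 0

theorem pt3_cof_meas : Measurable (fun e : R4 => cof (ma e)) := by
  apply big_mmat
  intro i j
  have hm : Measurable (fun e : R4 => ma e) := big_mma measurable_id
  have h00 := big_ment hm 0 0
  have h01 := big_ment hm 0 1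
  have h10 := big_ment hm 1 0
  have h11 := big_ment hm 1 1
  unfold cof
  fin_cases i <;> fin_cases j
  · exact h11
  · exact h10.neg
  · exact h01.neg
  · exact h00

theorem pt3_b_int {h : ℝ → ℝ} (hh : HOK h) (C : M2) (W : R3) :
    Integrable (pt3_b f h C W) := by
  obtain ⟨Cf, hCf, hbd⟩ := ph_bd f
  obtain ⟨B0, hB0⟩ := hh.bdd
  obtain ⟨t0, t1, ht0, hsupp⟩ := hh.supp
  set B := max B0 0 with hB
  have hBn : 0 ≤ B := le_max_right _ _
  have hB1 : ∀ t, |h t| ≤ B := fun t => (hB0 t).trans (le_max_left _ _)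
  have hm : Measurable (fun e : R4 => ma e) := big_mma measurable_id
  have hd : Measurable (fun e : R4 => (ma e).det) := big_mdet hm
  have hmeas : Measurable (pt3_b f h C W) := by
    unfold pt3_b
    refine Measurable.ite (measurableSet_lt measurable_const hd) ?_ measurable_const
    refine Measurable.mul (Measurable.mul ?_ ?_) ?_
    · exact Complex.continuous_conj.measurable.comp ((ph_meas f).comp hm)
    · exact (ph_meas f).comp (big_mmul measurable_const (big_mmul measurable_const pt3_cof_meas))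
    · refine Complex.measurable_ofReal.comp ((((hh.meas.comp hd).mul (hh.meas.comp ?_)).mul
        ?_).div (hd.pow_const 2))
      · exact measurable_const.div (hd.mul measurable_const)
      · exact (LEV.FUN_psi_meas.comp (zz_meas.comp hm)).ennreal_toReal
  refine Integrable.mono' ((big_g_ig (N := N) t0 t1).const_mul (Cf * Cf * (B * B / t0 ^ 2)))
    hmeas.aestronglyMeasurable (ae_of_all _ (fun e => ?_))
  unfold pt3_b
  by_cases he : 0 < (ma e).det
  · rw [if_pos he]
    by_cases h0 : h (ma e).det = 0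
    · rw [h0]
      simp only [zero_mul, zero_div, Complex.ofReal_zero, mul_zero, norm_zero]
      positivity
    · obtain ⟨e1, e2⟩ := hsupp _ h0
      rw [big_g_val he e1 e2, norm_mul, norm_mul, Complex.norm_conj, Complex.norm_real]
      set ps := (LEV.FUN_psi N (zz (ma e))).toReal with hps
      have hpn : 0 ≤ ps := ENNReal.toReal_nonneg
      have n1 : ‖h (ma e).det * h (C.det * N / ((ma e).det * dt W)) * ps / (ma e).det ^ 2‖ ≤
          B * B / t0 ^ 2 * ps := by
        rw [Real.norm_eq_abs, abs_div, abs_mul, abs_mul, abs_of_nonneg hpn,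
          abs_of_pos (pow_pos he 2)]
        have h1 := hB1 (ma e).det
        have h2 := hB1 (C.det * N / ((ma e).det * dt W))
        calc _ ≤ B * B * ps / t0 ^ 2 := by gcongr
          _ = _ := by ring
      have n4 := hbd (ma e)
      have n5 := hbd (C * (PP N * cof (ma e)))
      calc _ ≤ Cf * Cf * (B * B / t0 ^ 2 * ps) := by gcongr
        _ = _ := by ring
  · rw [if_neg he, norm_zero]
    positivity

/-- the sum of the inner integrals -/
theorem pt3_bi (hf : IsNew f) (h1 : co f N = 1) {h : ℝ → ℝ} (hh : HOK h) {n : ℕ} (hn : 0 < n)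
    {W : R3} (hW : 0 < dt W) :
    ∑ r ∈ RB N n, bi f h (cr N r) W = ((cf f * (al f n * ∫ t in Set.Ioi (0 : ℝ),
        h t * h (n * N / (t * dt W)) / t) : ℝ) : ℂ) := by
  have e0 : ∑ r ∈ RB N n, bi f h (cr N r) W = ∫ e : R4, ∑ r ∈ RB N n, pt3_b f h (cr N r) W e := by
    rw [integral_finset_sum _ (fun r _ => pt3_b_int f hh (cr N r) W)]
    rfl
  rw [e0]
  have hGm : Measurable (fun t : ℝ => h t * h (n * N / (t * dt W)) / t ^ 2) := by
    refine (hh.meas.mul (hh.meas.comp ?_)).div (measurable_id.pow_const 2)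
    exact measurable_const.div (measurable_id.mul measurable_const)
  have hGe : ∀ t ∈ Set.Ioi (0 : ℝ), h t * h (n * N / (t * dt W)) / t ^ 2 * t =
      h t * h (n * N / (t * dt W)) / t := by
    intro t ht
    have : t ≠ 0 := (Set.mem_Ioi.1 ht).ne'
    field_simp
  obtain ⟨B0, hB0⟩ := hh.bdd
  obtain ⟨t0, t1, ht0, hsupp⟩ := hh.supp
  have hGi : IntegrableOn (fun t : ℝ => h t * h (n * N / (t * dt W)) / t ^ 2 * t)
      (Set.Ioi (0 : ℝ)) := by
    set B := max B0 0 with hB
    have hBn : 0 ≤ B := le_max_right _ _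
    have hB1 : ∀ t, |h t| ≤ B := fun t => (hB0 t).trans (le_max_left _ _)
    have hi : Integrable ((Set.Icc t0 t1).indicator (fun _ : ℝ => B * B / t0)) := by
      rw [integrable_indicator_iff measurableSet_Icc]
      exact integrableOn_const (by simp)
    refine Integrable.mono' hi.restrict (hGm.mul measurable_id).aestronglyMeasurable ?_
    filter_upwards [ae_restrict_mem measurableSet_Ioi] with t ht
    have ht' : 0 < t := ht
    rw [hGe t ht]
    by_cases h0 : h t = 0
    · rw [h0]
      simp only [zero_mul, zero_div, norm_zero]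
      exact Set.indicator_nonneg (fun _ _ => by positivity) _
    · have hmem : t ∈ Set.Icc t0 t1 := hsupp t h0
      rw [Set.indicator_of_mem hmem, Real.norm_eq_abs, abs_div, abs_mul, abs_of_pos ht']
      have a1 := hB1 t
      have a2 := hB1 (n * N / (t * dt W))
      have a3 := hmem.1
      gcongr
  have key := (mmc f hGm hGi).2
  rw [setIntegral_congr_fun measurableSet_Ioi hGe] at key
  have e2 : ∀ e : R4, ∑ r ∈ RB N n, pt3_b f h (cr N r) W e = (((al f n) * (if 0 < (ma e).det then
      ‖ph f (ma e)‖ ^ 2 * (h (ma e).det * h (n * N / ((ma e).det * dt W)) / (ma e).det ^ 2) *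
      (LEV.FUN_psi N (zz (ma e))).toReal else 0) : ℝ) : ℂ) := by
    intro e
    by_cases he : 0 < (ma e).det
    · have e3 : ∀ r ∈ RB N n, pt3_b f h (cr N r) W e =
          ph f (cr N r * (PP N * cof (ma e))) * (conj (ph f (ma e)) *
          ((h (ma e).det * h (n * N / ((ma e).det * dt W)) *
          (LEV.FUN_psi N (zz (ma e))).toReal / (ma e).det ^ 2 : ℝ) : ℂ)) := by
        intro r hr
        have hdet := ((rb_mem (N := N) hn r).1 hr).2
        unfold pt3_b
        rw [if_pos he, hdet]
        ring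
      rw [Finset.sum_congr rfl e3, ← Finset.sum_mul, hid f hf h1 hn, ph_fricke f hf h1 he,
        if_pos he]
      have e4 : ph f (ma e) * conj (ph f (ma e)) = ((‖ph f (ma e)‖ ^ 2 : ℝ) : ℂ) := by
        rw [Complex.mul_conj, Complex.normSq_eq_norm_sq]
      push_cast at e4 ⊢
      linear_combination ((al f n : ℝ) : ℂ) * (h (ma e).det : ℂ) *
        (h (n * N / ((ma e).det * dt W)) : ℂ) * ((LEV.FUN_psi N (zz (ma e))).toReal : ℂ) /
        ((ma e).det : ℂ) ^ 2 * e4
    · have e3 : ∀ r ∈ RB N n, pt3_b f h (cr N r) W e = 0 := by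
        intro r _
        unfold pt3_b
        rw [if_neg he]
      rw [Finset.sum_eq_zero e3, if_neg he]
      simp
  simp_rw [e2]
  rw [integral_complex_ofReal, integral_const_mul, key]
  congr 1
  ring

theorem part2b_pr (hf : IsNew f) (h1 : co f N = 1) {h : ℝ → ℝ} (hh : HOK h) {n : ℕ} (hn : 0 < n) :
    ∑ r ∈ RB N n, ∫ w, bc f h (cr N r) w =
      ((4 * N ^ 3 * cf f * (al f n * ∫ W : R3, kc W * ∫ t in Set.Ioi (0 : ℝ),
        h t * h (n * N / (t * dt W)) / t) : ℝ) : ℂ) := by
  have hdet : ∀ r ∈ RB N n, 0 < (cr N r).det := by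
    intro r hr
    rw [((rb_mem (N := N) hn r).1 hr).2]
    exact_mod_cast hn
  have e1 : ∀ r ∈ RB N n, ∫ w, bc f h (cr N r) w =
      (N : ℂ) ^ 3 * ∫ W : R3, pt3_k W * bi f h (cr N r) W := by
    intro r hr
    rw [(big f hh (hdet r hr).ne').2, if_pos (hdet r hr)]
    rfl
  rw [Finset.sum_congr rfl e1, ← Finset.mul_sum,
    ← integral_finset_sum _ (fun r hr => pt3_int f hh (hdet r hr).ne')]
  have e2 : ∀ W : R3, ∑ r ∈ RB N n, pt3_k W * bi f h (cr N r) W =
      ((4 * cf f * al f n * (kc W * ∫ t in Set.Ioi (0 : ℝ),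
        h t * h (n * N / (t * dt W)) / t) : ℝ) : ℂ) := by
    intro W
    rw [← Finset.mul_sum, pt3_k_eq]
    by_cases hW : 0 < dt W
    · rw [pt3_bi f hf h1 hh hn hW]
      push_cast
      ring
    · have : kc W = 0 := by
        unfold kc
        rw [if_neg hW, mul_zero]
      rw [this]
      simp
  simp_rw [e2]
  rw [integral_complex_ofReal, integral_const_mul]
  push_cast
  ring

end

end Pool.Agent.NN

namespace Pool.Agent.NN

theorem part2b : type_of% @part2b_pr := @part2b_pr

end Pool.Agent.NN
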