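import Pool.Agent.Lib_helper32.NN.Dfs2
import Pool.Agent.Lib_helper32.NNF.ALB
import Pool.Agent.Lib_helper32.NNF.MMC
import Pool.Agent.Lib_helper32.NNF.PT0
import Pool.Agent.Lib_helper32.NNF.PT1
import Pool.Agent.Lib_helper32.NNF.PT2
import Pool.Agent.Lib_helper32.NNF.PT3
import Pool.Agent.Lib_helper32.NNF.TQC

/-!
# Assembly of the inequality, part 3
-/

namespace Pool.Agent.NN

open Complex MeasureTheory Filter Topology UpperHalfPlane Matrix
open scoped MatrixGroups ENNReal ComplexConjugate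
open Pool.Agent.LEV (S2 co IsNew Lh)

section
variable {N : ℕ} [Fact N.Prime] (f : S2 N)

theorem sta_uqsm {h : ℝ → ℝ} (hh : HOK h) :
    Summable (fun q : GaN N ⧸ PN N => ∫ w, uq f h q w) := by
  have h1 := uq_sum f hh
  have h2 := ENNReal.summable_toReal h1
  refine Summable.of_norm_bounded h2 ?_
  intro q
  have h3 : ∫⁻ w, ‖uq f h q w‖ₑ ≠ ⊤ := ENNReal.ne_top_of_tsum_ne_top h1 q
  have h4 := enorm_integral_le_lintegral_enorm (μ := volume) (uq f h q)
  rw [← ofReal_norm_eq_enorm] at h4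
  exact (ENNReal.ofReal_le_iff_le_toReal h3).1 h4

theorem sta_split {h : ℝ → ℝ} (hh : HOK h) :
    ∑' q : GaN N ⧸ PN N, ∫ w, uq f h q w =
      (∑' q : {q : GaN N ⧸ PN N // cq N q = 0}, ∫ w, uq f h (q : GaN N ⧸ PN N) w) +
      (∑' q : {q : GaN N ⧸ PN N // cq N q ≠ 0 ∧ (cq N q).det = 0},
        ∫ w, uq f h (q : GaN N ⧸ PN N) w) +
      ∑' q : {q : GaN N ⧸ PN N // (cq N q).det ≠ 0}, ∫ w, uq f h (q : GaN N ⧸ PN N) w := by
  classical
  have hs := sta_uqsm f hh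
  set G : GaN N ⧸ PN N → ℂ := fun q => ∫ w, uq f h q w with hG
  have e0 : ∑' q : {q : GaN N ⧸ PN N // cq N q = 0}, G (q : GaN N ⧸ PN N) =
      ∑' q, ({q | cq N q = 0} : Set (GaN N ⧸ PN N)).indicator G q :=
    tsum_subtype ({q | cq N q = 0} : Set (GaN N ⧸ PN N)) G
  have e1 : ∑' q : {q : GaN N ⧸ PN N // cq N q ≠ 0 ∧ (cq N q).det = 0}, G (q : GaN N ⧸ PN N) =
      ∑' q, ({q | cq N q ≠ 0 ∧ (cq N q).det = 0} : Set (GaN N ⧸ PN N)).indicator G q :=
    tsum_subtype ({q | cq N q ≠ 0 ∧ (cq N q).det = 0} : Set (GaN N ⧸ PN N)) G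
  have e2 : ∑' q : {q : GaN N ⧸ PN N // (cq N q).det ≠ 0}, G (q : GaN N ⧸ PN N) =
      ∑' q, ({q | (cq N q).det ≠ 0} : Set (GaN N ⧸ PN N)).indicator G q :=
    tsum_subtype ({q | (cq N q).det ≠ 0} : Set (GaN N ⧸ PN N)) G
  show ∑' q, G q = ∑' q : {q : GaN N ⧸ PN N // cq N q = 0}, G (q : GaN N ⧸ PN N) +
    ∑' q : {q : GaN N ⧸ PN N // cq N q ≠ 0 ∧ (cq N q).det = 0}, G (q : GaN N ⧸ PN N) +
    ∑' q : {q : GaN N ⧸ PN N // (cq N q).det ≠ 0}, G (q : GaN N ⧸ PN N)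
  rw [e0, e1, e2, ← (hs.indicator _).tsum_add (hs.indicator _),
    ← ((hs.indicator _).add (hs.indicator _)).tsum_add (hs.indicator _)]
  apply tsum_congr
  intro q
  by_cases h0 : cq N q = 0
  · have h2 : (cq N q).det = 0 := by rw [h0]; simp
    simp [Set.indicator, h0]
  · by_cases h2 : (cq N q).det = 0
    · simp [Set.indicator, h0, h2]
    · simp [Set.indicator, h0, h2]

theorem sta_group (hf : IsNew f) (h1 : co f N = 1) {h : ℝ → ℝ} (hh : HOK h) :
    ∑' r : {r : Q3 // bxq N r}, ∫ w, bc f h (cr N r) w =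
      ((∑' n : ℕ, 4 * N ^ 3 * cf f * (al f n * ∫ W : R3, kc W * ∫ t in Set.Ioi (0 : ℝ),
        h t * h (n * N / (t * dt W)) / t) : ℝ) : ℂ) := by
  classical
  have hs := (part2a f hh).2
  set G : {r : Q3 // bxq N r} → ℂ := fun r => ∫ w, bc f h (cr N r) w with hG
  let φ : {r : Q3 // bxq N r} → ℕ := fun r => (cr_det (N := N) (r : Q3)).choose
  have hφ : ∀ r, 0 < φ r ∧ (cr N (r : Q3)).det = φ r := fun r =>
    (cr_det (N := N) (r : Q3)).choose_spec
  have e1 : ∑' r, G r = ∑' n : ℕ, ∑' c : {r // φ r = n}, G c := by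
    rw [← (Equiv.sigmaFiberEquiv φ).tsum_eq G]
    have hs2 : Summable (fun x : (n : ℕ) × {r // φ r = n} => G (Equiv.sigmaFiberEquiv φ x)) :=
      (Equiv.sigmaFiberEquiv φ).summable_iff.2 hs
    rw [hs2.tsum_sigma]
    rfl
  rw [e1, Complex.ofReal_tsum]
  apply tsum_congr
  intro n
  rcases Nat.eq_zero_or_pos n with hn | hn
  · subst hn
    haveI : IsEmpty {r // φ r = 0} := ⟨fun r => (hφ r.1).1.ne' r.2⟩
    rw [tsum_empty]
    simp
  · rw [← part2b f hf h1 hh hn, ← Finset.tsum_subtype (RB N n) (fun r => ∫ w, bc f h (cr N r) w)]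
    let E : {r // φ r = n} ≃ {r // r ∈ RB N n} :=
      { toFun := fun c => ⟨(c.1 : Q3), (rb_mem (N := N) hn _).2 ⟨c.1.2, by
          rw [(hφ c.1).2, c.2]⟩⟩
        invFun := fun r => ⟨⟨(r : Q3), ((rb_mem (N := N) hn _).1 r.2).1⟩, by
          have a1 := (hφ ⟨(r : Q3), ((rb_mem (N := N) hn _).1 r.2).1⟩).2
          have a2 := ((rb_mem (N := N) hn _).1 r.2).2
          have a3 : ((φ ⟨(r : Q3), ((rb_mem (N := N) hn _).1 r.2).1⟩ : ℕ) : ℝ) = n := by
            rw [← a1]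
            exact a2
          exact_mod_cast a3⟩
        left_inv := by
          intro c
          rfl
        right_inv := by
          intro r
          rfl }
    exact E.tsum_eq (fun r : {r // r ∈ RB N n} => ∫ w, bc f h (cr N (r : Q3)) w)

theorem star_pr (hf : IsNew f) (h1 : co f N = 1) {h : ℝ → ℝ} (hh : HOK h) :
    0 ≤ 8 * (∫ t in Set.Ioi (0 : ℝ), h t ^ 2 * t ^ 2) + 4 * N * ∑' n : ℕ, al f n *
      ∫ W : R3, kc W * ∫ t in Set.Ioi (0 : ℝ), h t * h (n * N / (t * dt W)) / t := by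
  have h0 := sta_pos f hh
  have e : ∑' q : GaN N ⧸ PN N, ∫ x, tq f h q x ∂(nu N) =
      ∑' q : GaN N ⧸ PN N, ∫ w, uq f h q w :=
    tsum_congr (fun q => (tq_coord f hh q).2)
  rw [e, sta_split f hh, part0 f hh, part1 f hh, (part2a f hh).1, sta_group f hf h1 hh, add_zero,
    ← Complex.ofReal_add, Complex.ofReal_re, tsum_mul_left] at h0
  have hc := cf_pos f hf
  have hN : (0 : ℝ) < N := by exact_mod_cast (Fact.out : N.Prime).pos
  have h2 : (0 : ℝ) < N ^ 2 * cf f := by positivity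
  refine le_of_mul_le_mul_left ?_ h2
  rw [mul_zero]
  refine h0.trans (le_of_eq ?_)
  ring


end

end Pool.Agent.NN

namespace Pool.Agent.NN

theorem star : type_of% @star_pr := @star_pr

end Pool.Agent.NN
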