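import Pool.Agent.Lib_helper32.NN.Dfs2
import Pool.Agent.Lib_helper32.NNF.ALG
import Pool.Agent.Lib_helper32.NNF.STA

/-!
# project NN, block STG: the inequality for Gaussian test functions
-/

set_option autoImplicit false

namespace Pool.Agent.NN

open Complex MeasureTheory Filter Topology UpperHalfPlane Matrix
open scoped MatrixGroups ENNReal ComplexConjugate
open Pool.Agent.LEV (S2 co IsNew Lh)

/-! ### logarithmic substitution -/

theorem stg_image : Real.exp '' Set.univ = Set.Ioi (0 : ℝ) := by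
  rw [Set.image_univ, Real.range_exp]

theorem stg_cov (g : ℝ → ℝ) : ∫ t in Set.Ioi (0 : ℝ), g (Real.log t) / t = ∫ x, g x := by
  rw [← stg_image, integral_image_eq_integral_abs_deriv_smul MeasurableSet.univ
    (fun x _ => (Real.hasDerivAt_exp x).hasDerivWithinAt) Real.exp_injective.injOn,
    Measure.restrict_univ]
  congr 1
  funext x
  rw [Real.log_exp, abs_of_pos (Real.exp_pos x), smul_eq_mul]
  field_simp

theorem stg_int {g : ℝ → ℝ} (hg : Integrable g) :
    IntegrableOn (fun t => g (Real.log t) / t) (Set.Ioi (0 : ℝ)) := by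
  rw [← stg_image, integrableOn_image_iff_integrableOn_abs_deriv_smul MeasurableSet.univ
    (fun x _ => (Real.hasDerivAt_exp x).hasDerivWithinAt) Real.exp_injective.injOn,
    integrableOn_univ]
  refine hg.congr (Filter.Eventually.of_forall fun x => ?_)
  simp only [Real.log_exp, abs_of_pos (Real.exp_pos x), smul_eq_mul]
  field_simp

theorem stg_gauss_int {A : ℝ} (hA : 0 < A) (a : ℝ) :
    Integrable (fun x : ℝ => Real.exp (-(x - a) ^ 2 / (2 * A))) := by
  have h := (integrable_exp_neg_mul_sq (b := 1 / (2 * A)) (by positivity)).comp_sub_right a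
  refine h.congr (Filter.Eventually.of_forall fun x => ?_)
  simp only
  congr 1
  ring

theorem stg_gauss {A : ℝ} (hA : 0 < A) (a : ℝ) :
    ∫ x : ℝ, Real.exp (-(x - a) ^ 2 / (2 * A)) = Real.sqrt (2 * Real.pi * A) := by
  have h := integral_gaussian (1 / (2 * A))
  have h2 : ∫ x : ℝ, Real.exp (-(x - a) ^ 2 / (2 * A)) =
      ∫ x : ℝ, (fun y : ℝ => Real.exp (-(1 / (2 * A)) * y ^ 2)) (x - a) := by
    congr 1
    funext x
    simp only
    congr 1
    ring
  rw [h2, integral_sub_right_eq_self (fun y : ℝ => Real.exp (-(1 / (2 * A)) * y ^ 2)) a, h]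
  congr 1
  field_simp

/-! ### the test functions -/

/-- the Gaussian test function -/
noncomputable def stg_g (A t : ℝ) : ℝ := t ^ (-(3 / 2) : ℝ) * Real.exp (-(Real.log t) ^ 2 / (4 * A))

/-- the truncated test function -/
noncomputable def stg_h (A : ℝ) (m : ℕ) (t : ℝ) : ℝ :=
  (Set.Icc (1 / ((m : ℝ) + 1)) ((m : ℝ) + 1)).indicator (stg_g A) t

theorem stg_g_meas (A : ℝ) : Measurable (stg_g A) := by
  unfold stg_g
  fun_prop

theorem stg_h_meas (A : ℝ) (m : ℕ) : Measurable (stg_h A m) :=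
  (stg_g_meas A).indicator measurableSet_Icc

theorem stg_g_nonneg {A t : ℝ} (ht : 0 < t) : 0 ≤ stg_g A t := by
  unfold stg_g
  positivity

theorem stg_h_nonneg (A : ℝ) (m : ℕ) (t : ℝ) : 0 ≤ stg_h A m t := by
  unfold stg_h
  by_cases h : t ∈ Set.Icc (1 / ((m : ℝ) + 1)) ((m : ℝ) + 1)
  · rw [Set.indicator_of_mem h]
    exact stg_g_nonneg (lt_of_lt_of_le (by positivity) h.1)
  · rw [Set.indicator_of_notMem h]

theorem stg_h_le {A : ℝ} (m : ℕ) {t : ℝ} (ht : 0 < t) : stg_h A m t ≤ stg_g A t := by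
  unfold stg_h
  by_cases h : t ∈ Set.Icc (1 / ((m : ℝ) + 1)) ((m : ℝ) + 1)
  · rw [Set.indicator_of_mem h]
  · rw [Set.indicator_of_notMem h]
    exact stg_g_nonneg ht

theorem stg_h_ok {A : ℝ} (hA : 0 < A) (m : ℕ) : HOK (stg_h A m) := by
  refine ⟨stg_h_meas A m, ⟨((m : ℝ) + 1) ^ (3 / 2 : ℝ), ?_⟩,
    ⟨1 / ((m : ℝ) + 1), (m : ℝ) + 1, by positivity, ?_⟩⟩
  · intro t
    rw [abs_of_nonneg (stg_h_nonneg A m t)]
    unfold stg_h
    by_cases h : t ∈ Set.Icc (1 / ((m : ℝ) + 1)) ((m : ℝ) + 1)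
    · rw [Set.indicator_of_mem h]
      have hm : (0 : ℝ) < 1 / ((m : ℝ) + 1) := by positivity
      have ht : 0 < t := lt_of_lt_of_le hm h.1
      unfold stg_g
      have h1 : t ^ (-(3 / 2) : ℝ) ≤ (1 / ((m : ℝ) + 1)) ^ (-(3 / 2) : ℝ) :=
        Real.rpow_le_rpow_of_nonpos hm h.1 (by norm_num)
      have h2 : (1 / ((m : ℝ) + 1)) ^ (-(3 / 2) : ℝ) = ((m : ℝ) + 1) ^ (3 / 2 : ℝ) := by
        rw [one_div, Real.inv_rpow (by positivity), ← Real.rpow_neg (by positivity), neg_neg]
      have h3 : Real.exp (-(Real.log t) ^ 2 / (4 * A)) ≤ 1 := by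
        rw [Real.exp_le_one_iff, neg_div]
        have : 0 ≤ Real.log t ^ 2 / (4 * A) := by positivity
        linarith
      have h4 : 0 ≤ t ^ (-(3 / 2) : ℝ) := by positivity
      calc t ^ (-(3 / 2) : ℝ) * Real.exp (-(Real.log t) ^ 2 / (4 * A))
          ≤ t ^ (-(3 / 2) : ℝ) * 1 := mul_le_mul_of_nonneg_left h3 h4
        _ ≤ ((m : ℝ) + 1) ^ (3 / 2 : ℝ) := by rw [mul_one, ← h2]; exact h1
    · rw [Set.indicator_of_notMem h]
      positivity
  · intro t ht
    unfold stg_h at ht
    have h := Set.mem_of_indicator_ne_zero (s := Set.Icc (1 / ((m : ℝ) + 1)) ((m : ℝ) + 1)) ht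
    exact ⟨h.1, h.2⟩

theorem stg_h_lim (A : ℝ) {t : ℝ} (ht : 0 < t) :
    Tendsto (fun m : ℕ => stg_h A m t) atTop (𝓝 (stg_g A t)) := by
  refine tendsto_const_nhds.congr' ?_
  obtain ⟨k, hk⟩ := exists_nat_ge (max t (1 / t))
  filter_upwards [eventually_ge_atTop k] with m hm
  have hm' : (k : ℝ) ≤ m := by exact_mod_cast hm
  have h1 : t ≤ (m : ℝ) + 1 := by
    have := (le_max_left t (1 / t)).trans hk
    linarith
  have h2 : 1 / t ≤ (m : ℝ) + 1 := by
    have := (le_max_right t (1 / t)).trans hk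
    linarith
  have h3 : 1 / ((m : ℝ) + 1) ≤ t := by
    rw [div_le_iff₀ (by positivity)]
    rw [div_le_iff₀ ht] at h2
    linarith
  unfold stg_h
  rw [Set.indicator_of_mem (show t ∈ Set.Icc (1 / ((m : ℝ) + 1)) ((m : ℝ) + 1) from ⟨h3, h1⟩)]

theorem stg_sq {A t : ℝ} (ht : 0 < t) :
    stg_g A t ^ 2 * t ^ 2 = Real.exp (-(Real.log t - 0) ^ 2 / (2 * A)) / t := by
  unfold stg_g
  have h1 : (t ^ (-(3 / 2) : ℝ)) ^ 2 = t ^ (-3 : ℝ) := by
    rw [← Real.rpow_natCast, ← Real.rpow_mul ht.le]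
    norm_num
  have h2 : t ^ (-3 : ℝ) * t ^ 2 = 1 / t := by
    rw [Real.rpow_neg ht.le]
    have : t ^ (3 : ℝ) = t ^ 3 := by exact_mod_cast Real.rpow_natCast t 3
    rw [this]
    field_simp
  have h3 : Real.exp (-(Real.log t) ^ 2 / (4 * A)) ^ 2 =
      Real.exp (-(Real.log t - 0) ^ 2 / (2 * A)) := by
    rw [← Real.exp_nat_mul]
    congr 1
    push_cast
    ring
  calc (t ^ (-(3 / 2) : ℝ) * Real.exp (-(Real.log t) ^ 2 / (4 * A))) ^ 2 * t ^ 2
      = (t ^ (-(3 / 2) : ℝ)) ^ 2 * t ^ 2 * Real.exp (-(Real.log t) ^ 2 / (4 * A)) ^ 2 := by ring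
    _ = _ := by rw [h1, h2, h3]; ring

theorem stg_conv {A t u : ℝ} (hA : 0 < A) (ht : 0 < t) (hu : 0 < u) :
    stg_g A t * stg_g A (u / t) / t =
      gA A u * Real.exp (-(Real.log t - Real.log u / 2) ^ 2 / (2 * A)) / t := by
  unfold stg_g gA
  have h1 : t ^ (-(3 / 2) : ℝ) * (u / t) ^ (-(3 / 2) : ℝ) = u ^ (-(3 / 2) : ℝ) := by
    rw [← Real.mul_rpow ht.le (by positivity)]
    congr 1
    field_simp
  have h2 : Real.exp (-(Real.log t) ^ 2 / (4 * A)) * Real.exp (-(Real.log (u / t)) ^ 2 / (4 * A)) =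
      Real.exp (-(Real.log u) ^ 2 / (8 * A)) *
        Real.exp (-(Real.log t - Real.log u / 2) ^ 2 / (2 * A)) := by
    rw [← Real.exp_add, ← Real.exp_add, Real.log_div hu.ne' ht.ne']
    congr 1
    field_simp
    ring
  calc t ^ (-(3 / 2) : ℝ) * Real.exp (-(Real.log t) ^ 2 / (4 * A)) *
        ((u / t) ^ (-(3 / 2) : ℝ) * Real.exp (-(Real.log (u / t)) ^ 2 / (4 * A))) / t
      = (t ^ (-(3 / 2) : ℝ) * (u / t) ^ (-(3 / 2) : ℝ)) *
        (Real.exp (-(Real.log t) ^ 2 / (4 * A)) *
          Real.exp (-(Real.log (u / t)) ^ 2 / (4 * A))) / t := by ring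
    _ = _ := by rw [h1, h2]; ring

/-! ### the integrals over `t` -/

theorem stg_lim1 {A : ℝ} (hA : 0 < A) :
    Tendsto (fun m : ℕ => ∫ t in Set.Ioi (0 : ℝ), stg_h A m t ^ 2 * t ^ 2) atTop
      (𝓝 (Real.sqrt (2 * Real.pi * A))) := by
  have e : Real.sqrt (2 * Real.pi * A) = ∫ t in Set.Ioi (0 : ℝ), stg_g A t ^ 2 * t ^ 2 := by
    rw [← stg_gauss hA 0, ← stg_cov]
    refine setIntegral_congr_fun measurableSet_Ioi fun t ht => ?_
    exact (stg_sq ht).symm
  rw [e]
  refine tendsto_integral_of_dominated_convergence (fun t => stg_g A t ^ 2 * t ^ 2) ?_ ?_ ?_ ?_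
  · intro m
    have := stg_h_meas A m
    exact (by fun_prop : Measurable fun t => stg_h A m t ^ 2 * t ^ 2).aestronglyMeasurable
  · refine (stg_int (stg_gauss_int hA 0)).congr ?_
    rw [Filter.EventuallyEq, ae_restrict_iff' measurableSet_Ioi]
    exact Filter.Eventually.of_forall fun t ht => (stg_sq ht).symm
  · intro m
    rw [ae_restrict_iff' measurableSet_Ioi]
    refine Filter.Eventually.of_forall fun t ht => ?_
    have h1 := stg_h_nonneg A m t
    have h2 := stg_h_le (A := A) m (t := t) ht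
    rw [Real.norm_eq_abs, abs_of_nonneg (by positivity)]
    gcongr
  · rw [ae_restrict_iff' measurableSet_Ioi]
    refine Filter.Eventually.of_forall fun t ht => ?_
    exact ((stg_h_lim A ht).pow 2).mul_const _

theorem stg_full {A u : ℝ} (hA : 0 < A) (hu : 0 < u) :
    ∫ t in Set.Ioi (0 : ℝ), stg_g A t * stg_g A (u / t) / t =
      gA A u * Real.sqrt (2 * Real.pi * A) := by
  have h := stg_cov (fun x => gA A u * Real.exp (-(x - Real.log u / 2) ^ 2 / (2 * A)))
  rw [integral_const_mul, stg_gauss hA] at h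
  rw [← h]
  exact setIntegral_congr_fun measurableSet_Ioi fun t ht => stg_conv hA ht hu

theorem stg_full_int {A u : ℝ} (hA : 0 < A) (hu : 0 < u) :
    IntegrableOn (fun t => stg_g A t * stg_g A (u / t) / t) (Set.Ioi (0 : ℝ)) := by
  have h := stg_int ((stg_gauss_int hA (Real.log u / 2)).const_mul (gA A u))
  refine h.congr ?_
  rw [Filter.EventuallyEq, ae_restrict_iff' measurableSet_Ioi]
  exact Filter.Eventually.of_forall fun t ht => (stg_conv hA ht hu).symm

theorem stg_hh_le {A : ℝ} (m : ℕ) {t u : ℝ} (ht : 0 < t) (hu : 0 < u) :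
    stg_h A m t * stg_h A m (u / t) / t ≤ stg_g A t * stg_g A (u / t) / t := by
  have h1 := stg_h_nonneg A m (u / t)
  have h2 := stg_h_le (A := A) m ht
  have h3 := stg_h_le (A := A) m (t := u / t) (by positivity)
  have h4 := stg_g_nonneg (A := A) ht
  gcongr

theorem stg_hh_nonneg (A : ℝ) (m : ℕ) {t : ℝ} (ht : 0 < t) (u : ℝ) :
    0 ≤ stg_h A m t * stg_h A m u / t :=
  div_nonneg (mul_nonneg (stg_h_nonneg A m t) (stg_h_nonneg A m u)) ht.le

theorem stg_lim2 {A u : ℝ} (hA : 0 < A) (hu : 0 < u) :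
    Tendsto (fun m : ℕ => ∫ t in Set.Ioi (0 : ℝ), stg_h A m t * stg_h A m (u / t) / t) atTop
      (𝓝 (gA A u * Real.sqrt (2 * Real.pi * A))) := by
  rw [← stg_full hA hu]
  refine tendsto_integral_of_dominated_convergence _ ?_ (stg_full_int hA hu) ?_ ?_
  · intro m
    have := stg_h_meas A m
    exact (by fun_prop : Measurable fun t => stg_h A m t * stg_h A m (u / t) / t).aestronglyMeasurable
  · intro m
    rw [ae_restrict_iff' measurableSet_Ioi]
    refine Filter.Eventually.of_forall fun t ht => ?_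
    rw [Real.norm_eq_abs, abs_of_nonneg (stg_hh_nonneg A m ht _)]
    exact stg_hh_le m ht hu
  · rw [ae_restrict_iff' measurableSet_Ioi]
    refine Filter.Eventually.of_forall fun t ht => ?_
    have ht' : (0 : ℝ) < t := ht
    exact ((stg_h_lim A ht').mul (stg_h_lim A (div_pos hu ht'))).div_const _

theorem stg_bd2 {A u : ℝ} (hA : 0 < A) (hu : 0 < u) (m : ℕ) :
    ∫ t in Set.Ioi (0 : ℝ), stg_h A m t * stg_h A m (u / t) / t ≤
      gA A u * Real.sqrt (2 * Real.pi * A) := by
  rw [← stg_full hA hu]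
  refine setIntegral_mono_on ?_ (stg_full_int hA hu) measurableSet_Ioi
    fun t ht => stg_hh_le m ht hu
  refine Integrable.mono' (stg_full_int hA hu) ?_ ?_
  · have := stg_h_meas A m
    exact (by fun_prop : Measurable fun t => stg_h A m t * stg_h A m (u / t) / t).aestronglyMeasurable
  · rw [ae_restrict_iff' measurableSet_Ioi]
    refine Filter.Eventually.of_forall fun t ht => ?_
    rw [Real.norm_eq_abs, abs_of_nonneg (stg_hh_nonneg A m ht _)]
    exact stg_hh_le m ht hu

theorem stg_nn2 (A u : ℝ) (m : ℕ) :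
    0 ≤ ∫ t in Set.Ioi (0 : ℝ), stg_h A m t * stg_h A m (u / t) / t :=
  setIntegral_nonneg measurableSet_Ioi fun _ ht => stg_hh_nonneg A m ht _

/-! ### bounds -/

theorem stg_gA_nonneg {A u : ℝ} (hu : 0 < u) : 0 ≤ gA A u := by
  unfold gA
  positivity

theorem stg_gA_bd {A u : ℝ} (hA : 0 < A) (hu : 0 < u) :
    gA A u ≤ Real.exp (85 * A) * (u ^ 8)⁻¹ := by
  unfold gA
  have h1 : u ^ (-(3 / 2) : ℝ) = Real.exp (-(3 / 2) * Real.log u) := by
    rw [Real.rpow_def_of_pos hu]
    congr 1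
    ring
  have h2 : (u ^ 8)⁻¹ = Real.exp (-8 * Real.log u) := by
    have : u ^ 8 = Real.exp (8 * Real.log u) := by
      rw [← Real.exp_log hu, Real.log_exp, ← Real.exp_nat_mul]
      norm_num
    rw [this, ← Real.exp_neg]
    congr 1
    ring
  rw [h1, h2, ← Real.exp_add, ← Real.exp_add, Real.exp_le_exp]
  set L := Real.log u
  have h3 : 0 ≤ (L - 26 * A) ^ 2 / (8 * A) := by positivity
  have h4 : (L - 26 * A) ^ 2 / (8 * A) = L ^ 2 / (8 * A) - 13 / 2 * L + 169 / 2 * A := by
    field_simp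
    ring
  have h5 : -L ^ 2 / (8 * A) = -(L ^ 2 / (8 * A)) := by ring
  rw [h5]
  nlinarith

/-- the box -/
def stg_box : Set R3 := Set.Icc (-2) 2 ×ˢ Set.Icc (-2) 2 ×ˢ Set.Icc (-2) 2

theorem stg_box_fin : volume stg_box ≠ ⊤ := by
  unfold stg_box
  exact (isCompact_Icc.prod (isCompact_Icc.prod isCompact_Icc)).measure_lt_top.ne

theorem stg_box_meas : MeasurableSet stg_box :=
  measurableSet_Icc.prod (measurableSet_Icc.prod measurableSet_Icc)

theorem stg_kk_nonneg (W : R3) : 0 ≤ kk W := by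
  unfold kk
  positivity

theorem stg_kk_le (W : R3) : kk W ≤ 8 := by
  unfold kk
  have h1 : max 0 (2 - |W.1|) ≤ 2 := max_le (by norm_num) (by linarith [abs_nonneg W.1])
  have h2 : max 0 (2 - |W.2.1|) ≤ 2 := max_le (by norm_num) (by linarith [abs_nonneg W.2.1])
  have h3 : max 0 (2 - |W.2.2|) ≤ 2 := max_le (by norm_num) (by linarith [abs_nonneg W.2.2])
  have p1 : 0 ≤ max 0 (2 - |W.1|) := le_max_left _ _
  have p2 : 0 ≤ max 0 (2 - |W.2.1|) := le_max_left _ _
  have p3 : 0 ≤ max 0 (2 - |W.2.2|) := le_max_left _ _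
  calc max 0 (2 - |W.1|) * max 0 (2 - |W.2.1|) * max 0 (2 - |W.2.2|) ≤ 2 * 2 * 2 := by gcongr
    _ = 8 := by norm_num

theorem stg_kk_zero {W : R3} (hW : W ∉ stg_box) : kk W = 0 := by
  by_contra hne
  apply hW
  unfold kk at hne
  have h1 : max 0 (2 - |W.1|) ≠ 0 := fun h => hne (by rw [h]; ring)
  have h2 : max 0 (2 - |W.2.1|) ≠ 0 := fun h => hne (by rw [h]; ring)
  have h3 : max 0 (2 - |W.2.2|) ≠ 0 := fun h => hne (by rw [h]; ring)
  have key : ∀ x : ℝ, max 0 (2 - |x|) ≠ 0 → x ∈ Set.Icc (-2 : ℝ) 2 := by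
    intro x hx
    have : |x| ≤ 2 := by
      by_contra hc
      apply hx
      rw [max_eq_left]
      linarith
    exact abs_le.mp this
  exact ⟨key _ h1, key _ h2, key _ h3⟩

theorem stg_dt_meas : Measurable dt := by
  unfold dt
  fun_prop

theorem stg_kc_meas : Measurable kc := by
  unfold kc kk tr
  have h := stg_dt_meas
  refine Measurable.mul (by fun_prop) (Measurable.ite (measurableSet_lt measurable_const h)
    (by fun_prop) measurable_const)

theorem stg_kc_nonneg (W : R3) : 0 ≤ kc W := by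
  unfold kc
  refine mul_nonneg (stg_kk_nonneg W) ?_
  split_ifs
  · positivity
  · exact le_rfl

theorem stg_kc_zero {W : R3} (hW : ¬ 0 < dt W) : kc W = 0 := by
  unfold kc
  rw [if_neg hW, mul_zero]

theorem stg_main_bd {A : ℝ} (hA : 0 < A) {v : ℝ} (hv : 0 < v) (W : R3) :
    kc W * gA A (v / dt W) ≤
      stg_box.indicator (fun _ => 2048 * Real.exp (85 * A) * (v ^ 8)⁻¹) W := by
  by_cases hd : 0 < dt W
  · by_cases hW : W ∈ stg_box
    · rw [Set.indicator_of_mem hW]
      obtain ⟨⟨a1, a2⟩, ⟨b1, b2⟩, ⟨c1, c2⟩⟩ := hW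
      have hdt : dt W = W.1 * W.2.2 - W.2.1 ^ 2 := rfl
      have hd4 : dt W ≤ 4 := by
        rw [hdt]
        nlinarith [sq_nonneg (W.1 - W.2.2), sq_nonneg W.2.1, sq_nonneg (W.1 + W.2.2)]
      have htr : 4 * dt W ≤ tr W ^ 2 := by
        unfold tr
        rw [hdt]
        nlinarith [sq_nonneg (W.1 - W.2.2), sq_nonneg W.2.1]
      have hg := stg_gA_bd (A := A) hA (u := v / dt W) (by positivity)
      have hk : kc W ≤ 8 * (1 / (4 * dt W ^ 3)) := by
        unfold kc
        rw [if_pos hd]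
        have h1 : 1 / (dt W ^ 2 * tr W ^ 2) ≤ 1 / (4 * dt W ^ 3) := by
          apply one_div_le_one_div_of_le (by positivity)
          calc 4 * dt W ^ 3 = dt W ^ 2 * (4 * dt W) := by ring
            _ ≤ dt W ^ 2 * tr W ^ 2 := by gcongr
        have h2 : 0 ≤ 1 / (dt W ^ 2 * tr W ^ 2) := by positivity
        exact mul_le_mul (stg_kk_le W) h1 h2 (by norm_num)
      have h5 : dt W ^ 5 ≤ 1024 := by
        calc dt W ^ 5 ≤ 4 ^ 5 := by gcongr
          _ = 1024 := by norm_num
      calc kc W * gA A (v / dt W)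
          ≤ 8 * (1 / (4 * dt W ^ 3)) * (Real.exp (85 * A) * ((v / dt W) ^ 8)⁻¹) :=
            mul_le_mul hk hg (stg_gA_nonneg (by positivity)) (by positivity)
        _ = 2 * Real.exp (85 * A) * (v ^ 8)⁻¹ * dt W ^ 5 := by
            field_simp
            ring
        _ ≤ 2 * Real.exp (85 * A) * (v ^ 8)⁻¹ * 1024 := by gcongr
        _ = 2048 * Real.exp (85 * A) * (v ^ 8)⁻¹ := by ring
    · rw [Set.indicator_of_notMem hW]
      unfold kc
      rw [stg_kk_zero hW]
      simp
  · rw [stg_kc_zero hd, zero_mul]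
    exact Set.indicator_nonneg (fun _ _ => by positivity) W

theorem stg_ind_int (c : ℝ) : Integrable (stg_box.indicator (fun _ : R3 => c)) := by
  rw [integrable_indicator_iff stg_box_meas]
  exact integrableOn_const stg_box_fin

section
variable {N : ℕ} [Fact N.Prime] (f : S2 N)

theorem starG_pr (hf : IsNew f) (h1 : co f N = 1) {A : ℝ} (hA : 0 < A) :
    0 ≤ 8 + 4 * N * ∫ W : R3, kc W * ∑' n : ℕ, al f n * gA A (n / (dt W / N)) := by
  have hNp : (0 : ℝ) < N := by exact_mod_cast (Fact.out : N.Prime).pos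
  obtain ⟨C, hC⟩ := al_bd f hf
  set c := Real.sqrt (2 * Real.pi * A) with hc
  have hc0 : 0 < c := Real.sqrt_pos.mpr (by positivity)
  -- nonnegativity of the kernel product
  have hnn : ∀ (n : ℕ), 0 < n → ∀ W : R3, 0 ≤ kc W * gA A (n * N / dt W) := by
    intro n hn W
    have hn' : (0 : ℝ) < n := by exact_mod_cast hn
    by_cases hd : 0 < dt W
    · exact mul_nonneg (stg_kc_nonneg W) (stg_gA_nonneg (by positivity))
    · rw [stg_kc_zero hd, zero_mul]
  have hgm : ∀ n : ℕ, Measurable fun W : R3 => kc W * gA A (n * N / dt W) := by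
    intro n
    have hm1 := stg_dt_meas
    have hm2 := stg_kc_meas
    unfold gA
    fun_prop
  have hint : ∀ n : ℕ, 0 < n → Integrable fun W : R3 => kc W * gA A (n * N / dt W) := by
    intro n hn
    have hn' : (0 : ℝ) < n := by exact_mod_cast hn
    refine Integrable.mono' (stg_ind_int (2048 * Real.exp (85 * A) * ((n * N : ℝ) ^ 8)⁻¹))
      (hgm n).aestronglyMeasurable (Filter.Eventually.of_forall fun W => ?_)
    rw [Real.norm_eq_abs, abs_of_nonneg (hnn n hn W)]
    exact stg_main_bd hA (by positivity) W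
  set J : ℕ → ℝ := fun n => ∫ W : R3, kc W * gA A (n * N / dt W) with hJ
  have hJ0 : ∀ n, 0 < n → 0 ≤ J n := fun n hn => integral_nonneg (hnn n hn)
  have hJb : ∀ n, 0 < n → J n ≤ 2048 * Real.exp (85 * A) * ((N : ℝ) ^ 8)⁻¹ *
      (volume.real stg_box) * ((n : ℝ) ^ 8)⁻¹ := by
    intro n hn
    have hn' : (0 : ℝ) < n := by exact_mod_cast hn
    have := integral_mono (hint n hn)
      (stg_ind_int (2048 * Real.exp (85 * A) * ((n * N : ℝ) ^ 8)⁻¹))
      (fun W => stg_main_bd hA (v := n * N) (by positivity) W)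
    rw [integral_indicator stg_box_meas, setIntegral_const, smul_eq_mul] at this
    refine this.trans (le_of_eq ?_)
    rw [mul_pow, mul_inv]
    ring
  have hsum : Summable fun n : ℕ => |al f n| * J n := by
    have hs : Summable fun n : ℕ => |C| * (2048 * Real.exp (85 * A) * ((N : ℝ) ^ 8)⁻¹ *
        (volume.real stg_box)) * ((n : ℝ) ^ 2)⁻¹ :=
      (Real.summable_nat_pow_inv.mpr (by norm_num)).mul_left _
    refine Summable.of_nonneg_of_le ?_ ?_ hs
    · intro n
      rcases Nat.eq_zero_or_pos n with rfl | hn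
      · simp
      · exact mul_nonneg (abs_nonneg _) (hJ0 n hn)
    · intro n
      rcases Nat.eq_zero_or_pos n with rfl | hn
      · simp
      · have hn' : (0 : ℝ) < n := by exact_mod_cast hn
        have e1 : |al f n| ≤ |C| * (n : ℝ) ^ 6 :=
          (hC n).trans (mul_le_mul_of_nonneg_right (le_abs_self C) (by positivity))
        calc |al f n| * J n ≤ (|C| * (n : ℝ) ^ 6) * (2048 * Real.exp (85 * A) * ((N : ℝ) ^ 8)⁻¹ *
              (volume.real stg_box) * ((n : ℝ) ^ 8)⁻¹) :=
              mul_le_mul e1 (hJb n hn) (hJ0 n hn) (by positivity)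
          _ = _ := by field_simp
  -- the truncated integrals
  set I : ℕ → ℕ → ℝ := fun m n => ∫ W : R3, kc W *
    ∫ t in Set.Ioi (0 : ℝ), stg_h A m t * stg_h A m (n * N / (t * dt W)) / t with hI
  have hswap : ∀ (m n : ℕ) (W : R3), 0 < dt W →
      ∫ t in Set.Ioi (0 : ℝ), stg_h A m t * stg_h A m (n * N / (t * dt W)) / t =
      ∫ t in Set.Ioi (0 : ℝ), stg_h A m t * stg_h A m ((n * N / dt W) / t) / t := by
    intro m n W hd
    refine setIntegral_congr_fun measurableSet_Ioi fun t ht => ?_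
    have ht' : (0 : ℝ) < t := ht
    congr 3
    field_simp
  have hFm : ∀ m n : ℕ, Measurable fun W : R3 => kc W *
      ∫ t in Set.Ioi (0 : ℝ), stg_h A m t * stg_h A m (n * N / (t * dt W)) / t := by
    intro m n
    refine stg_kc_meas.mul ?_
    have hm1 := stg_dt_meas
    have hm2 := stg_h_meas A m
    have hj : Measurable (fun p : R3 × ℝ =>
        stg_h A m p.2 * stg_h A m (n * N / (p.2 * dt p.1)) / p.2) := by fun_prop
    exact (hj.stronglyMeasurable.integral_prod_right
      (ν := volume.restrict (Set.Ioi (0 : ℝ)))).measurable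
  have hFb : ∀ m n : ℕ, 0 < n → ∀ W : R3, |kc W *
      ∫ t in Set.Ioi (0 : ℝ), stg_h A m t * stg_h A m (n * N / (t * dt W)) / t| ≤
      c * (kc W * gA A (n * N / dt W)) := by
    intro m n hn W
    have hn' : (0 : ℝ) < n := by exact_mod_cast hn
    by_cases hd : 0 < dt W
    · rw [hswap m n W hd, abs_of_nonneg (mul_nonneg (stg_kc_nonneg W) (stg_nn2 A _ m))]
      calc kc W * ∫ t in Set.Ioi (0 : ℝ), stg_h A m t * stg_h A m ((n * N / dt W) / t) / t
          ≤ kc W * (gA A (n * N / dt W) * c) :=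
            mul_le_mul_of_nonneg_left (stg_bd2 hA (by positivity) m) (stg_kc_nonneg W)
        _ = _ := by ring
    · rw [stg_kc_zero hd]
      simp
  have hIlim : ∀ n : ℕ, 0 < n → Tendsto (fun m => I m n) atTop (𝓝 (c * J n)) := by
    intro n hn
    have hn' : (0 : ℝ) < n := by exact_mod_cast hn
    have e : c * J n = ∫ W : R3, c * (kc W * gA A (n * N / dt W)) := by
      rw [integral_const_mul]
    rw [e]
    refine tendsto_integral_of_dominated_convergence
      (fun W => c * (kc W * gA A (n * N / dt W))) (fun m => (hFm m n).aestronglyMeasurable)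
      ((hint n hn).const_mul c) (fun m => Filter.Eventually.of_forall fun W => hFb m n hn W)
      (Filter.Eventually.of_forall fun W => ?_)
    by_cases hd : 0 < dt W
    · have h2 := (stg_lim2 (A := A) hA (u := n * N / dt W) (by positivity)).const_mul (kc W)
      refine (h2.congr fun m => by rw [hswap m n W hd]).trans (le_of_eq ?_)
      congr 1
      ring
    · simp only [stg_kc_zero hd, zero_mul, mul_zero]
      exact tendsto_const_nhds
  have hIb : ∀ m n : ℕ, 0 < n → |I m n| ≤ c * J n := by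
    intro m n hn
    change ‖∫ W : R3, kc W *
      ∫ t in Set.Ioi (0 : ℝ), stg_h A m t * stg_h A m (n * N / (t * dt W)) / t‖ ≤ c * J n
    refine (norm_integral_le_integral_norm _).trans ?_
    have e : c * J n = ∫ W : R3, c * (kc W * gA A (n * N / dt W)) := by
      rw [integral_const_mul]
    rw [e]
    refine integral_mono_of_nonneg (Filter.Eventually.of_forall fun W => norm_nonneg _)
      ((hint n hn).const_mul c) (Filter.Eventually.of_forall fun W => hFb m n hn W)
  -- the limit of the sums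
  have hslim : Tendsto (fun m => ∑' n : ℕ, al f n * I m n) atTop
      (𝓝 (∑' n : ℕ, al f n * (c * J n))) := by
    refine tendsto_tsum_of_dominated_convergence (bound := fun n => c * (|al f n| * J n))
      (hsum.mul_left c) ?_ ?_
    · intro n
      rcases Nat.eq_zero_or_pos n with rfl | hn
      · simp
      · exact (hIlim n hn).const_mul _
    · refine Filter.Eventually.of_forall fun m n => ?_
      rcases Nat.eq_zero_or_pos n with rfl | hn
      · simp
      · rw [Real.norm_eq_abs, abs_mul]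
        calc |al f n| * |I m n| ≤ |al f n| * (c * J n) :=
              mul_le_mul_of_nonneg_left (hIb m n hn) (abs_nonneg _)
          _ = _ := by ring
  have hineq : 0 ≤ 8 * c + 4 * N * ∑' n : ℕ, al f n * (c * J n) := by
    refine ge_of_tendsto' (((stg_lim1 hA).const_mul 8).add (hslim.const_mul (4 * (N : ℝ))))
      fun m => ?_
    exact star f hf h1 (stg_h_ok hA m)
  have hfac : ∑' n : ℕ, al f n * (c * J n) = c * ∑' n : ℕ, al f n * J n := by
    rw [← tsum_mul_left]
    congr 1
    funext n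
    ring
  rw [hfac] at hineq
  have hineq2 : 0 ≤ c * (8 + 4 * N * ∑' n : ℕ, al f n * J n) := by
    have : c * (8 + 4 * N * ∑' n : ℕ, al f n * J n) =
      8 * c + 4 * N * (c * ∑' n : ℕ, al f n * J n) := by ring
    rw [this]; exact hineq
  have hineq3 := nonneg_of_mul_nonneg_right hineq2 hc0
  have hsw : ∑' n : ℕ, al f n * J n =
      ∫ W : R3, kc W * ∑' n : ℕ, al f n * gA A (n / (dt W / N)) := by
    have e1 : ∀ n : ℕ, al f n * J n = ∫ W : R3, al f n * (kc W * gA A (n * N / dt W)) := by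
      intro n
      rw [integral_const_mul]
    simp only [e1]
    rw [integral_tsum_of_summable_integral_norm]
    · congr 1
      funext W
      rw [← tsum_mul_left]
      congr 1
      funext n
      rw [div_div_eq_mul_div]
      ring
    · intro n
      rcases Nat.eq_zero_or_pos n with rfl | hn
      · simp
      · exact (hint n hn).const_mul _
    · refine hsum.congr fun n => ?_
      rcases Nat.eq_zero_or_pos n with rfl | hn
      · simp
      · simp only [norm_mul, Real.norm_eq_abs]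
        rw [integral_const_mul]
        congr 1
        refine integral_congr_ae (Filter.Eventually.of_forall fun W => ?_)
        have := hnn n hn W
        simp only
        rw [← abs_mul, abs_of_nonneg this]
  rw [← hsw]
  exact hineq3

end


end Pool.Agent.NN

namespace Pool.Agent.NN

theorem starG : type_of% @starG_pr := @starG_pr

end Pool.Agent.NN
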