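import Pool.Agent.Lib_helper32.NN.Dfs2
import Pool.Agent.Lib_helper32.NNF.ALG
import Pool.Agent.Lib_helper32.NNF.GSH
import Pool.Agent.Lib_helper32.NNF.KER
import Pool.Agent.Lib_helper32.NNF.LPO
import Pool.Agent.Lib_helper32.NNF.LSR
import Pool.Agent.Lib_helper32.NNF.ODD
import Pool.Agent.Lib_helper32.NNF.QFG
import Pool.Agent.Lib_helper32.NNF.QFS
import Pool.Agent.Lib_helper32.NNF.STG

/-!
# Nonnegativity of the central value: the end of the proof
-/

namespace Pool.Agent.NN

open Complex MeasureTheory Filter Topology UpperHalfPlane Matrix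
open scoped MatrixGroups ENNReal ComplexConjugate
open Pool.Agent.LEV (S2 co IsNew Lh)

theorem fin_dt_meas : Measurable dt := by
  unfold dt
  fun_prop

theorem fin_kc_meas : Measurable kc := by
  unfold kc kk tr
  have h1 : MeasurableSet {W : R3 | 0 < dt W} := measurableSet_lt measurable_const fin_dt_meas
  have h2 : Measurable (fun W : R3 => if 0 < dt W then 1 / (dt W ^ 2 * (W.1 + W.2.2) ^ 2) else 0) := by
    apply Measurable.ite h1
    · have := fin_dt_meas
      fun_prop
    · exact measurable_const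
  refine Measurable.mul ?_ h2
  fun_prop

theorem fin_gA_meas (A : ℝ) : Measurable (gA A) := by
  unfold gA
  have h1 : Measurable (fun u : ℝ => u ^ (-(3 / 2) : ℝ)) := measurable_id.pow_const _
  have h2 : Measurable (fun u : ℝ => Real.exp (-(Real.log u) ^ 2 / (8 * A))) :=
    Real.measurable_exp.comp (((Real.measurable_log.pow_const 2).neg).div_const _)
  exact h1.mul h2

section
variable {N : ℕ} [Fact N.Prime] (f : S2 N)

theorem fin_S_meas (A : ℝ) :
    Measurable (fun W : R3 => ∑' n : ℕ, al f n * gA A (n / (dt W / N))) := by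
  apply Measurable.tsum
  intro n
  apply Measurable.const_mul
  apply (fin_gA_meas A).comp
  exact measurable_const.div (fin_dt_meas.div_const _)

theorem fin_kc_nonneg (W : R3) : 0 ≤ kc W := by
  unfold kc kk
  apply mul_nonneg
  · positivity
  · split_ifs
    · positivity
    · exact le_refl _

theorem fin_kc_zero {W : R3} (h : ¬ 0 < dt W) : kc W = 0 := by
  unfold kc
  rw [if_neg h, mul_zero]

/-- the residue is nonnegative -/
theorem fin_res (hf : IsNew f) (h1 : co f N = 1) : 0 ≤ (Qf f 2).re := by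
  obtain ⟨C0, hC0⟩ := al_bd f hf
  obtain ⟨C', hC'⟩ := gshift (α := fun n => al f n) hC0 (by simp) (Qf_diff f hf)
    (fun z hz => Qf_eq f hf hz) (Qf_growth f hf)
  obtain ⟨hK2, hK2p, hK7⟩ := ker_int
  have hN : (0 : ℝ) < N := by exact_mod_cast (Fact.out : N.Prime).pos
  set r : ℝ := (Qf f 2).re with hr
  set K2 : ℝ := ∫ W : R3, kc W * dt W ^ 2 with hK2d
  set K7 : ℝ := ∫ W : R3, kc W * |dt W| ^ (7 / 4 : ℝ) with hK7d
  -- the main inequality
  have main : ∀ A : ℝ, 1 ≤ A → 0 ≤ 8 / (Real.sqrt (8 * Real.pi * A) * Real.exp (A / 2)) +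
      4 * N * (r / N ^ 2 * K2 + C' * Real.exp (-(3 * A / 8)) / N ^ (7 / 4 : ℝ) * K7) := by
    intro A hA
    have hA0 : 0 < A := lt_of_lt_of_le one_pos hA
    set D : ℝ := Real.sqrt (8 * Real.pi * A) * Real.exp (A / 2) with hD
    have hDp : 0 < D := by
      rw [hD]
      have : 0 < 8 * Real.pi * A := by positivity
      positivity
    have hst := starG f hf h1 hA0
    set S : R3 → ℝ := fun W => ∑' n : ℕ, al f n * gA A (n / (dt W / N)) with hS
    have hst2 : 0 ≤ 8 + 4 * N * ∫ W : R3, kc W * S W := hst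
    have hpt : ∀ W : R3, |kc W * S W / D - r / N ^ 2 * (kc W * dt W ^ 2)| ≤
        C' * Real.exp (-(3 * A / 8)) / N ^ (7 / 4 : ℝ) * (kc W * |dt W| ^ (7 / 4 : ℝ)) := by
      intro W
      by_cases hW : 0 < dt W
      · have hw : 0 < dt W / N := by positivity
        have h3 := hC' A hA (dt W / N) hw
        have h4 : kc W * S W / D - r / N ^ 2 * (kc W * dt W ^ 2) =
            kc W * (S W / D - r * (dt W / N) ^ 2) := by
          field_simp
        rw [h4, abs_mul, abs_of_nonneg (fin_kc_nonneg W)]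
        have h5 : (dt W / N) ^ (7 / 4 : ℝ) = |dt W| ^ (7 / 4 : ℝ) / N ^ (7 / 4 : ℝ) := by
          rw [Real.div_rpow hW.le hN.le, abs_of_pos hW]
        rw [h5] at h3
        calc kc W * |S W / D - r * (dt W / N) ^ 2| ≤
            kc W * (C' * Real.exp (-(3 * A / 8)) * (|dt W| ^ (7 / 4 : ℝ) / N ^ (7 / 4 : ℝ))) :=
              mul_le_mul_of_nonneg_left h3 (fin_kc_nonneg W)
          _ = _ := by ring
      · rw [fin_kc_zero hW]
        simp
    have hmeas : Measurable (fun W => kc W * S W / D) :=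
      (fin_kc_meas.mul (fin_S_meas f A)).div_const _
    have hint : Integrable (fun W => kc W * S W / D - r / N ^ 2 * (kc W * dt W ^ 2)) := by
      refine Integrable.mono' (hK7.const_mul (C' * Real.exp (-(3 * A / 8)) / N ^ (7 / 4 : ℝ)))
        ?_ (ae_of_all _ hpt)
      exact (hmeas.sub ((fin_kc_meas.mul (fin_dt_meas.pow_const 2)).const_mul _)).aestronglyMeasurable
    have hint2 : Integrable (fun W => kc W * S W / D) := by
      have := hint.add (hK2.const_mul (r / N ^ 2))
      refine this.congr (ae_of_all _ (fun W => ?_))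
      simp
    have h6 : ∫ W : R3, kc W * S W / D ≤ r / N ^ 2 * K2 +
        C' * Real.exp (-(3 * A / 8)) / N ^ (7 / 4 : ℝ) * K7 := by
      rw [hK2d, hK7d, ← integral_const_mul, ← integral_const_mul,
        ← integral_add (hK2.const_mul _) (hK7.const_mul _)]
      apply integral_mono hint2 ((hK2.const_mul _).add (hK7.const_mul _))
      intro W
      have := (abs_le.1 (hpt W)).2
      show kc W * S W / D ≤ r / N ^ 2 * (kc W * dt W ^ 2) +
        C' * Real.exp (-(3 * A / 8)) / N ^ (7 / 4 : ℝ) * (kc W * |dt W| ^ (7 / 4 : ℝ))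
      linarith
    have h7 : 0 ≤ 8 / D + 4 * N * ∫ W : R3, kc W * S W / D := by
      rw [integral_div]
      have := div_nonneg hst2 hDp.le
      rw [add_div] at this
      refine this.trans (le_of_eq ?_)
      ring
    refine h7.trans ?_
    gcongr
  -- the limit
  have hlim : Tendsto (fun A : ℝ => 8 / (Real.sqrt (8 * Real.pi * A) * Real.exp (A / 2)) +
      4 * N * (r / N ^ 2 * K2 + C' * Real.exp (-(3 * A / 8)) / N ^ (7 / 4 : ℝ) * K7)) atTop
      (𝓝 (0 + 4 * N * (r / N ^ 2 * K2 + C' * 0 / N ^ (7 / 4 : ℝ) * K7))) := by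
    have hA1 : Tendsto (fun A : ℝ => Real.sqrt (8 * Real.pi * A)) atTop atTop := by
      apply Real.tendsto_sqrt_atTop.comp
      exact tendsto_id.const_mul_atTop (by positivity)
    have hA2 : Tendsto (fun A : ℝ => Real.exp (A / 2)) atTop atTop :=
      Real.tendsto_exp_atTop.comp (tendsto_id.atTop_div_const (by norm_num))
    have hA3 : Tendsto (fun A : ℝ => 8 / (Real.sqrt (8 * Real.pi * A) * Real.exp (A / 2))) atTop
        (𝓝 0) := tendsto_const_nhds.div_atTop (hA1.atTop_mul_atTop₀ hA2)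
    have hA4 : Tendsto (fun A : ℝ => Real.exp (-(3 * A / 8))) atTop (𝓝 0) := by
      apply Real.tendsto_exp_atBot.comp
      apply tendsto_neg_atTop_atBot.comp
      have : (fun A : ℝ => 3 * A / 8) = fun A : ℝ => (3 / 8 : ℝ) * A := by
        funext A; ring
      rw [this]
      exact tendsto_id.const_mul_atTop (by norm_num)
    refine hA3.add (Tendsto.const_mul _ (tendsto_const_nhds.add ?_))
    exact ((hA4.const_mul C').div_const _).mul_const _
  have h8 := ge_of_tendsto hlim (by
    filter_upwards [eventually_ge_atTop (1 : ℝ)] with A hA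
    exact main A hA)
  have h9 : 0 + 4 * N * (r / N ^ 2 * K2 + C' * 0 / N ^ (7 / 4 : ℝ) * K7) = r * (4 / N * K2) := by
    field_simp
    ring
  rw [h9] at h8
  exact nonneg_of_mul_nonneg_left h8 (by positivity)

/-- the residue in terms of the central value -/
theorem fin_val (hf : IsNew f) : ∃ c : ℝ, 0 < c ∧ Qf f 2 = c * Lh f := by
  have h1 := Lf_inv f hf (z := 2) (by norm_num)
  obtain ⟨h2, h3⟩ := Lf_pos f hf
  have h4 : Lf f 2 = ((Lf f 2).re : ℂ) := by
    apply Complex.ext
    · simp
    · simp [h2]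
  have h5 : LSeries (fun n => ((bf f n : ℝ) : ℂ)) 2 = (((Lf f 2).re⁻¹ : ℝ) : ℂ) := by
    rw [Complex.ofReal_inv, ← h4]
    exact eq_inv_of_mul_eq_one_right h1
  refine ⟨(6 / Real.pi ^ 2) * (Lf f 2).re⁻¹ / 2, by positivity, ?_⟩
  unfold Qf
  have e1 : (2 : ℂ) * 2 - 3 = 1 := by norm_num
  have e2 : (2 : ℂ) * 2 - 2 = 2 := by norm_num
  have e3 : (2 : ℂ) - 1 = 1 := by norm_num
  rw [e1, e2, e3, riemannZeta₁_one, riemannZeta_two, h5]
  have e4 : Lf f 1 = Lh f := rfl
  rw [e4]
  have hpi : (Real.pi : ℂ) ≠ 0 := by exact_mod_cast Real.pi_ne_zero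
  push_cast
  field_simp

end

end Pool.Agent.NN

namespace Pool.Agent.LEV

/-- **nonnegativity of the central value** -/
theorem lval_nonneg_pr (N : ℕ) [Fact N.Prime] (f : S2 N) (hf : IsNew f) : 0 ≤ (Lh f).re := by
  by_cases h1 : co f N = 1
  · have h2 := NN.fin_res f hf h1
    obtain ⟨c, hc, h3⟩ := NN.fin_val f hf
    rw [h3, Complex.re_ofReal_mul] at h2
    exact nonneg_of_mul_nonneg_right h2 hc
  · rw [NN.lval_odd f hf h1]
    simp

/-- **nonnegativity of the central value** of every newform of weight two and prime level -/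
theorem lval_nonneg (N : ℕ) [Fact N.Prime] (f : S2 N) (hf : IsNew f) : 0 ≤ (Lh f).re :=
  lval_nonneg_pr N f hf

end Pool.Agent.LEV

namespace Pool.Agent.NN

end Pool.Agent.NN
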